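import Pool.Agent.BDJ.GridB

/-!
# The projection onto rigid motions (row PROJ)

`Pr u c l` is an explicit projection: mean value plus `A (x - centre)` with `A_ij = (6/l²) * mean(u_i (y_j - ctr_j) - u_j (y_i - ctr_i))`.
For `u = b + K (x - ctr)`, `K` skew: the mean is `b`, and `mean(u_i (y_j - ctr_j)) = K_ij l²/12` (the coordinates are independent, centred, of variance `l²/12`), so
`A_ij = (6/l²)(K_ij - K_ji) l²/12 = K_ij`. Bound: `|A_ij (x_j - ctr_j)| ≤ (6/l²) * 2 * (l/2) * mean‖u‖ * (l/2) = 3 mean‖u‖`; so `‖Pr u c l x‖ ≤ (1 + 3 (d+1)) mean‖u‖` for `x`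
in the closed box, in particular for `x ∈ bx c l`.
-/

open MeasureTheory Set
open scoped ENNReal NNReal

namespace BDJ

variable {d : ℕ}

/-- the coefficients of the projection -/
noncomputable def proj_co (u : X d → X d) (c : X d) (l : ℝ) (i j : Fin (d + 1)) : ℝ :=
  6 / l ^ 2 * ((l ^ (d + 1))⁻¹ *
      ∫ y in bx c l, (u y i * (y j - (c j + l / 2)) - u y j * (y i - (c i + l / 2))))

theorem proj_eq (u : X d → X d) (c : X d) (l : ℝ) (x : X d) (i : Fin (d + 1)) :
    Pr u c l x i = (l ^ (d + 1))⁻¹ * (∫ y in bx c l, u y i) +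
      ∑ j, proj_co u c l i j * (x j - (c j + l / 2)) := rfl

theorem proj_co_anti (u : X d → X d) (c : X d) (l : ℝ) (i j : Fin (d + 1)) :
    proj_co u c l j i = -proj_co u c l i j := by
  unfold proj_co
  rw [← mul_neg, ← mul_neg, ← integral_neg]
  congr 3
  ext y
  ring

theorem proj_dot (a : Fin (d + 1) → Fin (d + 1) → ℝ) (ha : ∀ i j, a j i = -a i j) (v : X d) :
    ∑ i, (∑ j, a i j * v j) * v i = 0 := by
  have h1 : ∑ i, (∑ j, a i j * v j) * v i = ∑ i, ∑ j, a i j * v j * v i := by
    apply Finset.sum_congr rfl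
    intro i _
    rw [Finset.sum_mul]
  have h2 : ∑ i, ∑ j, a i j * v j * v i = -∑ i, ∑ j, a i j * v j * v i := by
    conv_lhs => rw [Finset.sum_comm]
    rw [← Finset.sum_neg_distrib]
    apply Finset.sum_congr rfl
    intro i _
    rw [← Finset.sum_neg_distrib]
    apply Finset.sum_congr rfl
    intro j _
    rw [ha i j]
    ring
  rw [h1]
  linarith

theorem isRigid_Pr (u : X d → X d) (c : X d) (l : ℝ) : IsRigid (Pr u c l) := by
  refine ⟨fun i => (l ^ (d + 1))⁻¹ * (∫ y in bx c l, u y i) -
      ∑ j, proj_co u c l i j * (c j + l / 2), Matrix.mulVecLin (Matrix.of (proj_co u c l)), ?_, ?_⟩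
  · intro v
    have h := proj_dot (proj_co u c l) (fun i j => proj_co_anti u c l i j) v
    simp only [dot, Matrix.mulVecLin_apply, Matrix.mulVec, dotProduct, Matrix.of_apply]
    exact h
  · intro x
    ext i
    rw [proj_eq]
    simp only [Pi.add_apply, Matrix.mulVecLin_apply, Matrix.mulVec, dotProduct, Matrix.of_apply]
    have h : ∑ j, proj_co u c l i j * (x j - (c j + l / 2)) =
        ∑ j, proj_co u c l i j * x j - ∑ j, proj_co u c l i j * (c j + l / 2) := by
      rw [← Finset.sum_sub_distrib]
      apply Finset.sum_congr rfl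
      intro j _
      ring
    rw [h]
    ring

theorem IsRigid.sub {p q : X d → X d} (hp : IsRigid p) (hq : IsRigid q) :
    IsRigid fun x => p x - q x := by
  obtain ⟨c, A, hA, h1⟩ := hp
  obtain ⟨c', A', hA', h2⟩ := hq
  refine ⟨c - c', A - A', ?_, ?_⟩
  · intro v
    have e1 := hA v
    have e2 := hA' v
    simp only [dot] at e1 e2 ⊢
    simp only [LinearMap.sub_apply, Pi.sub_apply, sub_mul, Finset.sum_sub_distrib, e1, e2, sub_zero]
  · intro x
    simp only [h1, h2, LinearMap.sub_apply]
    abel

theorem IsRigid.continuous {p : X d → X d} (hp : IsRigid p) : Continuous p := by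
  obtain ⟨c, A, hA, h1⟩ := hp
  have h2 : p = fun x => c + A x := funext h1
  rw [h2]
  exact continuous_const.add A.continuous_of_finiteDimensional

/-- rigid motions do not change the longitudinal distance -/
theorem IsRigid.dot_eq {p : X d → X d} (hp : IsRigid p) (x y : X d) :
    dot (p x - p y) (x - y) = 0 := by
  obtain ⟨c, A, hA, h1⟩ := hp
  have h2 : p x - p y = A (x - y) := by
    rw [h1, h1, map_sub]
    abel
  rw [h2]
  exact hA _

theorem proj_bx (c : X d) (l : ℝ) : bx c l = Set.univ.pi fun i => Ico (c i) (c i + l) := by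
  ext x
  simp [bx]

/-- Fubini on a box -/
theorem proj_fubini (c : X d) (l : ℝ) (g : Fin (d + 1) → ℝ → ℝ) :
    ∫ y in bx c l, ∏ i, g i (y i) = ∏ i, ∫ t in Ico (c i) (c i + l), g i t := by
  rw [proj_bx, volume_pi, Measure.restrict_pi_pi]
  exact integral_fintype_prod_eq_prod g

theorem proj_int0 (a : ℝ) {l : ℝ} (hl : 0 < l) : ∫ _t in Ico a (a + l), (1 : ℝ) = l := by
  rw [integral_Ico_eq_integral_Ioc, ← intervalIntegral.integral_of_le (by linarith)]
  simp

theorem proj_int1 (a : ℝ) {l : ℝ} (hl : 0 < l) : ∫ t in Ico a (a + l), (t - (a + l / 2)) = 0 := by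
  rw [integral_Ico_eq_integral_Ioc, ← intervalIntegral.integral_of_le (by linarith),
    intervalIntegral.integral_comp_sub_right (fun t => t) (a + l / 2), integral_id]
  ring

theorem proj_int2 (a : ℝ) {l : ℝ} (hl : 0 < l) :
    ∫ t in Ico a (a + l), (t - (a + l / 2)) ^ 2 = l ^ 3 / 12 := by
  rw [integral_Ico_eq_integral_Ioc, ← intervalIntegral.integral_of_le (by linarith),
    intervalIntegral.integral_comp_sub_right (fun t => t ^ 2) (a + l / 2), integral_pow]
  ring

theorem proj_mom0 (c : X d) {l : ℝ} (hl : 0 < l) : ∫ _y in bx c l, (1 : ℝ) = l ^ (d + 1) := by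
  have h := proj_fubini c l (fun _ _ => (1 : ℝ))
  simp only [Finset.prod_const_one] at h
  rw [h]
  have h2 : ∀ i ∈ (Finset.univ : Finset (Fin (d + 1))),
      (∫ _t in Ico (c i) (c i + l), (1 : ℝ)) = l := fun i _ => proj_int0 (c i) hl
  rw [Finset.prod_congr rfl h2, Finset.prod_const, Finset.card_univ, Fintype.card_fin]

theorem proj_mom1 (c : X d) {l : ℝ} (hl : 0 < l) (k : Fin (d + 1)) :
    ∫ y in bx c l, (y k - (c k + l / 2)) = 0 := by
  have h := proj_fubini c l (fun i t => if i = k then t - (c i + l / 2) else 1)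
  have h1 : ∀ y : X d, (∏ i, if i = k then y i - (c i + l / 2) else 1) = y k - (c k + l / 2) := by
    intro y
    rw [Finset.prod_ite_eq' Finset.univ k, if_pos (Finset.mem_univ k)]
  simp only [h1] at h
  rw [h, Finset.prod_eq_zero (Finset.mem_univ k)]
  simp only [if_true]
  exact proj_int1 (c k) hl

theorem proj_mom2 (c : X d) {l : ℝ} (hl : 0 < l) (k j : Fin (d + 1)) :
    ∫ y in bx c l, (y k - (c k + l / 2)) * (y j - (c j + l / 2)) =
      if k = j then l ^ (d + 1) * (l ^ 2 / 12) else 0 := by
  have h := proj_fubini c l (fun i t => (if i = k then t - (c i + l / 2) else 1) *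
    (if i = j then t - (c i + l / 2) else 1))
  have h1 : ∀ y : X d, (∏ i, ((if i = k then y i - (c i + l / 2) else 1) *
      (if i = j then y i - (c i + l / 2) else 1))) =
      (y k - (c k + l / 2)) * (y j - (c j + l / 2)) := by
    intro y
    rw [Finset.prod_mul_distrib, Finset.prod_ite_eq' Finset.univ k, if_pos (Finset.mem_univ k),
      Finset.prod_ite_eq' Finset.univ j, if_pos (Finset.mem_univ j)]
  simp only [h1] at h
  rw [h]
  by_cases hkj : k = j
  · subst hkj
    rw [if_pos rfl]
    have h2 : ∀ i ∈ (Finset.univ : Finset (Fin (d + 1))),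
        (∫ t in Ico (c i) (c i + l), (if i = k then t - (c i + l / 2) else 1) *
          (if i = k then t - (c i + l / 2) else 1)) = l * (if i = k then l ^ 2 / 12 else 1) := by
      intro i _
      by_cases hi : i = k
      · simp only [hi, if_true]
        have h3 := proj_int2 (c k) hl
        simp only [← pow_two]
        rw [h3]
        ring
      · simp only [hi, if_false, mul_one]
        exact proj_int0 (c i) hl
    rw [Finset.prod_congr rfl h2, Finset.prod_mul_distrib, Finset.prod_const, Finset.card_univ,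
      Fintype.card_fin, Finset.prod_ite_eq' Finset.univ k, if_pos (Finset.mem_univ k)]
  · rw [if_neg hkj, Finset.prod_eq_zero (Finset.mem_univ k)]
    simp only [if_true, hkj, if_false, mul_one]
    exact proj_int1 (c k) hl

theorem proj_bdd {c : X d} {l : ℝ} {y : X d} (hy : y ∈ bx c l) (j : Fin (d + 1)) :
    |y j - (c j + l / 2)| ≤ l / 2 := by
  have h := hy j
  rw [abs_le]
  constructor <;> linarith [h.1, h.2]

theorem proj_mul_integrable {c : X d} {l : ℝ} {f : X d → ℝ} (hf : IntegrableOn f (bx c l))
    (j : Fin (d + 1)) : IntegrableOn (fun y => f y * (y j - (c j + l / 2))) (bx c l) := by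
  refine Integrable.mul_bdd (c := l / 2) hf ?_ ?_
  · have : Continuous fun y : X d => y j - (c j + l / 2) := by fun_prop
    exact this.aestronglyMeasurable
  · refine (ae_restrict_iff' (measurableSet_bx c l)).2 (Filter.Eventually.of_forall ?_)
    intro y hy
    rw [Real.norm_eq_abs]
    exact proj_bdd hy j

theorem proj_eval {u : X d → X d} {c : X d} {l : ℝ} (hu : IntegrableOn u (bx c l))
    (i : Fin (d + 1)) : IntegrableOn (fun y => u y i) (bx c l) :=
  Integrable.eval hu i

theorem proj_rigid_integrable {p : X d → X d} (hp : IsRigid p) (c : X d) (l : ℝ) :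
    IntegrableOn p (bx c l) := by
  have h1 : bx c l ⊆ Set.Icc c (fun i => c i + l) := by
    intro x hx
    exact ⟨fun i => (hx i).1, fun i => (hx i).2.le⟩
  exact (hp.continuous.continuousOn.integrableOn_compact isCompact_Icc).mono_set h1

/-- the coefficients of a rigid motion -/
theorem proj_skew {A : X d →ₗ[ℝ] X d} (hA : ∀ v, dot (A v) v = 0) (i j : Fin (d + 1)) :
    A (Pi.single i 1) j = -A (Pi.single j 1) i := by
  have hs : ∀ (v : X d) (k : Fin (d + 1)), dot v (Pi.single k 1) = v k := by
    intro v k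
    simp [dot, Pi.single_apply]
  have h1 := hA (Pi.single i 1)
  have h2 := hA (Pi.single j 1)
  have h3 := hA (Pi.single i 1 + Pi.single j 1)
  rw [hs] at h1 h2
  have h4 : dot (A (Pi.single i 1 + Pi.single j 1)) (Pi.single i 1 + Pi.single j 1) =
      A (Pi.single i 1 + Pi.single j 1) i + A (Pi.single i 1 + Pi.single j 1) j := by
    rw [← hs (A (Pi.single i 1 + Pi.single j 1)) i, ← hs (A (Pi.single i 1 + Pi.single j 1)) j]
    simp only [dot, Pi.add_apply, mul_add, Finset.sum_add_distrib]
  rw [h4, map_add, Pi.add_apply, Pi.add_apply] at h3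
  linarith

theorem proj_rigid_form {p : X d → X d} {b : X d} {A : X d →ₗ[ℝ] X d} (h : ∀ x, p x = b + A x)
    (m y : X d) (i : Fin (d + 1)) :
    p y i = p m i + ∑ k, A (Pi.single k 1) i * (y k - m k) := by
  have h1 : p y = p m + A (y - m) := by
    rw [h, h, map_sub]
    abel
  have h2 : y - m = ∑ k, (y k - m k) • (Pi.single k (1 : ℝ) : X d) := by
    ext t
    simp [Finset.sum_apply, Pi.single_apply]
  rw [h1, h2, map_sum, Pi.add_apply, Finset.sum_apply]
  congr 1
  apply Finset.sum_congr rfl
  intro k _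
  rw [map_smul, Pi.smul_apply, smul_eq_mul, mul_comm]

theorem Pr_of_rigid {p : X d → X d} (hp : IsRigid p) (c : X d) {l : ℝ} (hl : 0 < l) :
    Pr p c l = p := by
  obtain ⟨b, A, hA, hpf⟩ := id hp
  set m : X d := fun i => c i + l / 2 with hm
  have hform := fun (y : X d) (i : Fin (d + 1)) => proj_rigid_form hpf m y i
  have hne : l ^ (d + 1) ≠ 0 := pow_ne_zero _ hl.ne'
  have hfin : IntegrableOn (fun _ : X d => (1 : ℝ)) (bx c l) := by
    rw [integrableOn_const_iff]
    right
    rw [volume_bx c hl.le]
    exact ENNReal.ofReal_lt_top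
  have hlin : ∀ k : Fin (d + 1), IntegrableOn (fun y : X d => y k - m k) (bx c l) := by
    intro k
    have := proj_mul_integrable hfin k
    simpa only [one_mul] using this
  have hmean : ∀ i, ∫ y in bx c l, p y i = l ^ (d + 1) * p m i := by
    intro i
    have e1 : ∫ y in bx c l, p y i =
        ∫ y in bx c l, (p m i * 1 + ∑ k, A (Pi.single k 1) i * (y k - m k)) := by
      apply setIntegral_congr_fun (measurableSet_bx c l)
      intro y _
      simp only
      rw [hform y i, mul_one]
    rw [e1, integral_add (hfin.const_mul _)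
      (integrable_finsetSum _ fun k _ => (hlin k).const_mul _), integral_const_mul, proj_mom0 c hl,
      integral_finsetSum _ (fun k _ => (hlin k).const_mul _)]
    have e2 : ∀ k ∈ (Finset.univ : Finset (Fin (d + 1))),
        (∫ y in bx c l, A (Pi.single k 1) i * (y k - m k)) = 0 := by
      intro k _
      rw [integral_const_mul, proj_mom1 c hl k, mul_zero]
    rw [Finset.sum_eq_zero e2]
    ring
  have hmom : ∀ i j, ∫ y in bx c l, p y i * (y j - m j) =
      l ^ (d + 1) * (l ^ 2 / 12) * A (Pi.single j 1) i := by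
    intro i j
    have e1 : ∫ y in bx c l, p y i * (y j - m j) =
        ∫ y in bx c l, (p m i * (y j - m j) +
          ∑ k, A (Pi.single k 1) i * ((y k - m k) * (y j - m j))) := by
      apply setIntegral_congr_fun (measurableSet_bx c l)
      intro y _
      simp only
      rw [hform y i, add_mul, Finset.sum_mul]
      congr 1
      apply Finset.sum_congr rfl
      intro k _
      ring
    have hq : ∀ k : Fin (d + 1), IntegrableOn (fun y : X d => (y k - m k) * (y j - m j)) (bx c l) :=
      fun k => proj_mul_integrable (hlin k) j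
    rw [e1, integral_add ((hlin j).const_mul _)
      (integrable_finsetSum _ fun k _ => (hq k).const_mul _), integral_const_mul, proj_mom1 c hl j,
      mul_zero, zero_add, integral_finsetSum _ (fun k _ => (hq k).const_mul _)]
    have e2 : ∀ k ∈ (Finset.univ : Finset (Fin (d + 1))),
        (∫ y in bx c l, A (Pi.single k 1) i * ((y k - m k) * (y j - m j))) =
        if k = j then l ^ (d + 1) * (l ^ 2 / 12) * A (Pi.single j 1) i else 0 := by
      intro k _
      rw [integral_const_mul, proj_mom2 c hl k j]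
      split_ifs with hkj
      · subst hkj
        ring
      · rw [mul_zero]
    rw [Finset.sum_congr rfl e2, Finset.sum_ite_eq' Finset.univ j, if_pos (Finset.mem_univ j)]
  have hco : ∀ i j, proj_co p c l i j = A (Pi.single j 1) i := by
    intro i j
    have hi : IntegrableOn (fun y => p y i * (y j - m j)) (bx c l) :=
      proj_mul_integrable (proj_eval (proj_rigid_integrable hp c l) i) j
    have hj : IntegrableOn (fun y => p y j * (y i - m i)) (bx c l) :=
      proj_mul_integrable (proj_eval (proj_rigid_integrable hp c l) j) i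
    have e1 : ∫ y in bx c l, (p y i * (y j - m j) - p y j * (y i - m i)) =
        l ^ (d + 1) * (l ^ 2 / 12) * A (Pi.single j 1) i -
        l ^ (d + 1) * (l ^ 2 / 12) * A (Pi.single i 1) j := by
      rw [integral_sub hi hj, hmom i j, hmom j i]
    have e2 : proj_co p c l i j = 6 / l ^ 2 * ((l ^ (d + 1))⁻¹ *
        ∫ y in bx c l, (p y i * (y j - m j) - p y j * (y i - m i))) := rfl
    rw [e2, e1, proj_skew hA i j]
    field_simp
    ring
  funext x
  ext i
  rw [proj_eq, hmean i, hform x i, inv_mul_cancel_left₀ hne]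
  congr 1
  apply Finset.sum_congr rfl
  intro j _
  rw [hco i j]

theorem Pr_sub {u v : X d → X d} {c : X d} {l : ℝ} (hu : IntegrableOn u (bx c l))
    (hv : IntegrableOn v (bx c l)) (x : X d) :
    Pr (fun y => u y - v y) c l x = Pr u c l x - Pr v c l x := by
  ext i
  rw [Pi.sub_apply, proj_eq, proj_eq, proj_eq]
  have hui := fun i => proj_eval hu i
  have hvi := fun i => proj_eval hv i
  have e1 : ∫ y in bx c l, (u y - v y) i = (∫ y in bx c l, u y i) - ∫ y in bx c l, v y i := by
    rw [← integral_sub (hui i) (hvi i)]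
    rfl
  have e2 : ∀ j, proj_co (fun y => u y - v y) c l i j = proj_co u c l i j - proj_co v c l i j := by
    intro j
    unfold proj_co
    rw [← mul_sub, ← mul_sub, ← integral_sub]
    · congr 3
      ext y
      simp only [Pi.sub_apply]
      ring
    · exact (proj_mul_integrable (hui i) j).sub (proj_mul_integrable (hui j) i)
    · exact (proj_mul_integrable (hvi i) j).sub (proj_mul_integrable (hvi j) i)
  rw [e1]
  simp only [e2, sub_mul, Finset.sum_sub_distrib]
  ring

theorem norm_Pr_le {u : X d → X d} {c : X d} {l : ℝ} (hl : 0 < l) (hu : IntegrableOn u (bx c l))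
    {x : X d} (hx : x ∈ bx c l) :
    ‖Pr u c l x‖ ≤ (3 * d + 4) * ((l ^ (d + 1))⁻¹ * ∫ y in bx c l, ‖u y‖) := by
  have hM0 : 0 ≤ ∫ y in bx c l, ‖u y‖ := integral_nonneg fun _ => norm_nonneg _
  have hl1 : 0 < (l ^ (d + 1))⁻¹ := inv_pos.2 (pow_pos hl _)
  set M : ℝ := (l ^ (d + 1))⁻¹ * ∫ y in bx c l, ‖u y‖ with hM
  have hMn : 0 ≤ M := mul_nonneg hl1.le hM0
  have hmean : ∀ i, |(l ^ (d + 1))⁻¹ * (∫ y in bx c l, u y i)| ≤ M := by
    intro i
    rw [abs_mul, abs_of_pos hl1, hM]
    apply mul_le_mul_of_nonneg_left _ hl1.le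
    rw [← Real.norm_eq_abs]
    refine (norm_integral_le_integral_norm _).trans ?_
    exact integral_mono (proj_eval hu i).norm hu.norm fun y => norm_le_pi_norm (u y) i
  have hmul : ∀ i j, |∫ y in bx c l, u y i * (y j - (c j + l / 2))| ≤
      l / 2 * ∫ y in bx c l, ‖u y‖ := by
    intro i j
    rw [← Real.norm_eq_abs, ← integral_const_mul]
    refine (norm_integral_le_integral_norm _).trans ?_
    apply setIntegral_mono_on (proj_mul_integrable (proj_eval hu i) j).norm
      (hu.norm.const_mul _) (measurableSet_bx c l)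
    intro y hy
    rw [norm_mul, mul_comm]
    apply mul_le_mul _ (norm_le_pi_norm (u y) i) (norm_nonneg _) (by linarith)
    rw [Real.norm_eq_abs]
    exact proj_bdd hy j
  have hco : ∀ i j, |proj_co u c l i j| ≤ 6 / l * M := by
    intro i j
    unfold proj_co
    rw [abs_mul, abs_mul, abs_of_pos hl1, abs_of_pos (by positivity : (0 : ℝ) < 6 / l ^ 2),
      integral_sub (proj_mul_integrable (proj_eval hu i) j)
        (proj_mul_integrable (proj_eval hu j) i)]
    have e1 : |(∫ y in bx c l, u y i * (y j - (c j + l / 2))) -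
        ∫ y in bx c l, u y j * (y i - (c i + l / 2))| ≤ l * ∫ y in bx c l, ‖u y‖ := by
      refine (abs_sub _ _).trans ?_
      linarith [hmul i j, hmul j i]
    calc 6 / l ^ 2 * ((l ^ (d + 1))⁻¹ * |(∫ y in bx c l, u y i * (y j - (c j + l / 2))) -
        ∫ y in bx c l, u y j * (y i - (c i + l / 2))|) ≤
        6 / l ^ 2 * ((l ^ (d + 1))⁻¹ * (l * ∫ y in bx c l, ‖u y‖)) := by
          apply mul_le_mul_of_nonneg_left _ (by positivity)
          exact mul_le_mul_of_nonneg_left e1 hl1.le
      _ = 6 / l * M := by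
          rw [hM]
          field_simp
  rw [pi_norm_le_iff_of_nonneg (by positivity)]
  intro i
  rw [proj_eq, Real.norm_eq_abs]
  refine (abs_add_le _ _).trans ?_
  have hsum : |∑ j, proj_co u c l i j * (x j - (c j + l / 2))| ≤ (d + 1) * (3 * M) := by
    refine (Finset.abs_sum_le_sum_abs _ _).trans ?_
    have h1 : ∀ j ∈ (Finset.univ : Finset (Fin (d + 1))),
        |proj_co u c l i j * (x j - (c j + l / 2))| ≤ 3 * M := by
      intro j _
      rw [abs_mul]
      calc |proj_co u c l i j| * |x j - (c j + l / 2)| ≤ (6 / l * M) * (l / 2) :=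
            mul_le_mul (hco i j) (proj_bdd hx j) (abs_nonneg _) (by positivity)
        _ = 3 * M := by field_simp; ring
    refine (Finset.sum_le_card_nsmul _ _ _ h1).trans ?_
    rw [Finset.card_univ, Fintype.card_fin, nsmul_eq_mul]
    push_cast
    exact le_refl _
  have := hmean i
  nlinarith

/-- near-optimality: compared with any rigid motion `p` -/
theorem norm_Pr_sub_le {u p : X d → X d} {c : X d} {l : ℝ} (hl : 0 < l)
    (hu : IntegrableOn u (bx c l)) (hp : IsRigid p) {x : X d} (hx : x ∈ bx c l) :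
    ‖Pr u c l x - p x‖ ≤ (3 * d + 4) * ((l ^ (d + 1))⁻¹ * ∫ y in bx c l, ‖u y - p y‖) := by
  have hpi := proj_rigid_integrable hp c l
  have h1 : Pr u c l x - p x = Pr (fun y => u y - p y) c l x := by
    rw [Pr_sub hu hpi x, Pr_of_rigid hp c hl]
  rw [h1]
  exact norm_Pr_le hl (hu.sub hpi) hx

end BDJ
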