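import Pool.Agent.BDJ.GridB
import Pool.Agent.BDJ.Proj

/-!
# Affine functions small on a part of a box (row AF)

`af`: `f x = b + dot g x`. Let `i` maximise `|g_i|`. For fixed other coordinates `{x_i : |f| ≤ T}` has length `≤ 2T/|g_i|`, so `κ l^n ≤ |{x ∈ bx : |f x| ≤ T}| ≤ (2T/|g_i|) l^(n-1)`
(Fubini, e.g. `volume_preserving_piFinSuccAbove` at `i`, or bound the measure by that of a parallelepiped), so `|g_i| l ≤ 2T/κ` (if `g ≠ 0`). There is a point `x0` of the box with
`|f x0| ≤ T`, so for `x` with `‖x - x0‖ ≤ R l`: `|f x| ≤ T + n max|g_i| R l ≤ T (1 + 2 n R/κ)`.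

`af_rigid`: the same for the components of a rigid motion (affine maps).
-/

open MeasureTheory Set
open scoped ENNReal NNReal

namespace BDJ

/-- the shear replacing the coordinate `i` by `dot g` -/
noncomputable def af_M {d : ℕ} (g : X d) (i : Fin (d + 1)) : X d →ₗ[ℝ] X d :=
  Matrix.toLin' (Matrix.updateRow (1 : Matrix (Fin (d + 1)) (Fin (d + 1)) ℝ) i g)

theorem af_det {d : ℕ} (g : X d) (i : Fin (d + 1)) : LinearMap.det (af_M g i) = g i := by
  unfold af_M
  rw [LinearMap.det_toLin', ← Matrix.cramer_transpose_apply, Matrix.transpose_one,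
    Matrix.cramer_one]
  rfl

theorem af_M_self {d : ℕ} (g : X d) (i : Fin (d + 1)) (x : X d) : af_M g i x i = dot g x := by
  unfold af_M dot
  rw [Matrix.toLin'_apply, Matrix.mulVec, Matrix.updateRow_self]
  rfl

theorem af_M_ne {d : ℕ} (g : X d) {i j : Fin (d + 1)} (h : j ≠ i) (x : X d) :
    af_M g i x j = x j := by
  unfold af_M
  rw [Matrix.toLin'_apply, Matrix.mulVec, Matrix.updateRow_ne h]
  change (1 : Matrix (Fin (d + 1)) (Fin (d + 1)) ℝ).mulVec x j = x j
  rw [Matrix.one_mulVec]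

/-- measure of a slab of the box -/
theorem af_slab {d : ℕ} (c : X d) {l : ℝ} (hl : 0 < l) (b : ℝ) (g : X d) {T : ℝ} (hT : 0 ≤ T)
    (i : Fin (d + 1)) (hg : g i ≠ 0) :
    volume {x ∈ bx c l | |b + dot g x| ≤ T} ≤ ENNReal.ofReal (|g i|⁻¹ * (2 * T * l ^ d)) := by
  set lo : X d := Function.update c i (-T - b) with hlo
  set hi : X d := Function.update (fun j => c j + l) i (T - b) with hhi
  have hsub : {x ∈ bx c l | |b + dot g x| ≤ T} ⊆ af_M g i ⁻¹' (Icc lo hi) := by
    rintro x ⟨hx, hxT⟩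
    rw [abs_le] at hxT
    refine ⟨fun j => ?_, fun j => ?_⟩
    · by_cases h : j = i
      · subst h
        rw [af_M_self, hlo, Function.update_self]; linarith
      · rw [af_M_ne g h, hlo, Function.update_of_ne h]; exact (hx j).1
    · by_cases h : j = i
      · subst h
        rw [af_M_self, hhi, Function.update_self]; linarith
      · rw [af_M_ne g h, hhi, Function.update_of_ne h]; exact (hx j).2.le
  refine (measure_mono hsub).trans ?_
  rw [Measure.addHaar_preimage_linearMap volume (by rw [af_det]; exact hg), af_det,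
    Real.volume_Icc_pi, Fin.prod_univ_succAbove _ i]
  have h1 : ∀ j : Fin d, ENNReal.ofReal (hi (i.succAbove j) - lo (i.succAbove j)) =
      ENNReal.ofReal l := by
    intro j
    have hne : i.succAbove j ≠ i := Fin.succAbove_ne i j
    rw [hhi, hlo, Function.update_of_ne hne, Function.update_of_ne hne]
    congr 1; ring
  rw [Finset.prod_congr rfl (fun j _ => h1 j)]
  rw [Finset.prod_const, Finset.card_univ, Fintype.card_fin, hhi, hlo, Function.update_self,
    Function.update_self, ← ENNReal.ofReal_pow hl.le,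
    ← ENNReal.ofReal_mul (by linarith : (0 : ℝ) ≤ T - b - (-T - b)),
    ← ENNReal.ofReal_mul (abs_nonneg _), abs_inv]
  apply ENNReal.ofReal_le_ofReal
  apply le_of_eq
  ring

theorem af (d : ℕ) {κ : ℝ} (hκ : 0 < κ) (R : ℝ) : ∃ C : ℝ, 0 < C ∧ ∀ (c : X d) (l : ℝ), 0 < l →
    ∀ (b : ℝ) (g : X d) (T : ℝ),
    ENNReal.ofReal κ * volume (bx c l) ≤ volume {x ∈ bx c l | |b + dot g x| ≤ T} →
    ∀ x : X d, ‖x - c‖ ≤ R * l → |b + dot g x| ≤ C * T := by
  refine ⟨1 + 2 * (d + 1) * (|R| + 1) / κ, by positivity, ?_⟩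
  intro c l hl b g T hm x hx
  rw [volume_bx c hl.le] at hm
  have hpos : 0 < volume {x ∈ bx c l | |b + dot g x| ≤ T} := by
    refine lt_of_lt_of_le ?_ hm
    rw [← ENNReal.ofReal_mul hκ.le, ENNReal.ofReal_pos]
    positivity
  obtain ⟨x0, hx0, hx0T⟩ := nonempty_of_measure_ne_zero hpos.ne'
  have hT : 0 ≤ T := (abs_nonneg _).trans hx0T
  obtain ⟨i, -, hi⟩ := Finset.exists_max_image Finset.univ (fun i => |g i|)
    ⟨(0 : Fin (d + 1)), Finset.mem_univ _⟩
  have hgi : |g i| * l ≤ 2 * T / κ := by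
    by_cases h0 : g i = 0
    · rw [h0, abs_zero, zero_mul]; positivity
    · have h1 := hm.trans (af_slab c hl b g hT i h0)
      rw [← ENNReal.ofReal_mul hκ.le] at h1
      have h2 : κ * l ^ (d + 1) ≤ |g i|⁻¹ * (2 * T * l ^ d) :=
        (ENNReal.ofReal_le_ofReal_iff (by positivity)).1 h1
      have hgpos : 0 < |g i| := abs_pos.2 h0
      rw [le_div_iff₀ hκ]
      have hld : 0 < l ^ d := by positivity
      have h3 : |g i| * (κ * l ^ (d + 1)) ≤ 2 * T * l ^ d := by
        have := mul_le_mul_of_nonneg_left h2 hgpos.le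
        rwa [← mul_assoc |g i| (|g i|⁻¹), mul_inv_cancel₀ hgpos.ne', one_mul] at this
      have h4 : (|g i| * l * κ) * l ^ d ≤ (2 * T) * l ^ d := by
        calc _ = |g i| * (κ * l ^ (d + 1)) := by ring
          _ ≤ _ := h3
      exact le_of_mul_le_mul_right h4 hld
  have hR : 0 ≤ R := by
    by_contra hneg
    have : R * l < 0 := mul_neg_of_neg_of_pos (not_le.1 hneg) hl
    linarith [norm_nonneg (x - c)]
  have hx0c : ‖x0 - c‖ ≤ l := by
    rw [pi_norm_le_iff_of_nonneg hl.le]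
    intro j
    rw [Pi.sub_apply, Real.norm_eq_abs, abs_le]
    have := hx0 j
    constructor <;> linarith
  have hxx : ‖x - x0‖ ≤ (R + 1) * l := by
    have h1 : x - x0 = (x - c) - (x0 - c) := by abel
    rw [h1]
    have := norm_sub_le (x - c) (x0 - c)
    linarith
  have hdot : b + dot g x = (b + dot g x0) + dot g (x - x0) := by
    unfold dot
    rw [add_assoc, ← Finset.sum_add_distrib]
    congr 1
    apply Finset.sum_congr rfl
    intro j _
    rw [Pi.sub_apply]; ring
  have hbd : |dot g (x - x0)| ≤ (d + 1) * (|g i| * ((R + 1) * l)) := by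
    unfold dot
    refine (Finset.abs_sum_le_sum_abs _ _).trans ?_
    have h1 : ∀ j ∈ Finset.univ, |g j * (x - x0) j| ≤ |g i| * ((R + 1) * l) := by
      intro j hj
      rw [abs_mul]
      apply mul_le_mul (hi j hj) _ (abs_nonneg _) (abs_nonneg _)
      have := norm_le_pi_norm (x - x0) j
      rw [Real.norm_eq_abs] at this
      exact this.trans hxx
    refine (Finset.sum_le_card_nsmul _ _ _ h1).trans ?_
    rw [Finset.card_univ, Fintype.card_fin, nsmul_eq_mul]
    push_cast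
    exact le_rfl
  have hfin : (d + 1 : ℝ) * (|g i| * ((R + 1) * l)) ≤ 2 * (d + 1) * (|R| + 1) / κ * T := by
    rw [abs_of_nonneg hR]
    have h1 : (d + 1 : ℝ) * (|g i| * ((R + 1) * l)) = ((d + 1) * (R + 1)) * (|g i| * l) := by ring
    rw [h1]
    have h2 : ((d + 1 : ℝ) * (R + 1)) * (|g i| * l) ≤ ((d + 1) * (R + 1)) * (2 * T / κ) :=
      mul_le_mul_of_nonneg_left hgi (by positivity)
    refine h2.trans (le_of_eq ?_)
    ring
  rw [hdot]
  calc |b + dot g x0 + dot g (x - x0)| ≤ |b + dot g x0| + |dot g (x - x0)| := abs_add_le _ _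
    _ ≤ T + 2 * (d + 1) * (|R| + 1) / κ * T := add_le_add hx0T (hbd.trans hfin)
    _ = _ := by ring

/-- components of a rigid motion are affine -/
theorem af_comp {d : ℕ} {q : X d → X d} (hq : IsRigid q) (i : Fin (d + 1)) :
    ∃ (b : ℝ) (g : X d), ∀ x, q x i = b + dot g x := by
  obtain ⟨c, A, -, hA⟩ := hq
  refine ⟨c i, fun j => A (Pi.single j 1) i, fun x => ?_⟩
  rw [hA, Pi.add_apply]
  congr 1
  unfold dot
  have h1 : x = ∑ j, x j • (Pi.single j (1 : ℝ) : X d) := by
    ext k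
    rw [Finset.sum_apply]
    simp [Pi.single_apply]
  conv_lhs => rw [h1]
  rw [map_sum, Finset.sum_apply]
  apply Finset.sum_congr rfl
  intro j _
  rw [map_smul, Pi.smul_apply, smul_eq_mul, mul_comm]

theorem af_rigid (d : ℕ) {κ : ℝ} (hκ : 0 < κ) (R : ℝ) : ∃ C : ℝ, 0 < C ∧ ∀ (c : X d) (l : ℝ),
    0 < l → ∀ (q : X d → X d), IsRigid q → ∀ (T : ℝ),
    ENNReal.ofReal κ * volume (bx c l) ≤ volume {x ∈ bx c l | ‖q x‖ ≤ T} →
    ∀ x : X d, ‖x - c‖ ≤ R * l → ‖q x‖ ≤ C * T := by
  obtain ⟨C, hC, h⟩ := af d hκ R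
  refine ⟨C, hC, ?_⟩
  intro c l hl q hq T hm x hx
  have hT : 0 ≤ T := by
    have hpos : 0 < volume {x ∈ bx c l | ‖q x‖ ≤ T} := by
      refine lt_of_lt_of_le ?_ hm
      rw [volume_bx c hl.le, ← ENNReal.ofReal_mul hκ.le, ENNReal.ofReal_pos]
      positivity
    obtain ⟨x0, -, hx0T⟩ := nonempty_of_measure_ne_zero hpos.ne'
    exact (norm_nonneg _).trans hx0T
  rw [pi_norm_le_iff_of_nonneg (by positivity)]
  intro i
  obtain ⟨b, g, hbg⟩ := af_comp hq i
  rw [Real.norm_eq_abs, hbg]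
  apply h c l hl b g T _ x hx
  refine hm.trans (measure_mono ?_)
  rintro y ⟨hy, hyT⟩
  refine ⟨hy, ?_⟩
  rw [← hbg, ← Real.norm_eq_abs]
  exact (norm_le_pi_norm (q y) i).trans hyT

end BDJ
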