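import Pool.Agent.BDJ.Grid

/-!
# Fubini along the lines with a fixed slope, polar coordinates (row SHEAR)

`shear`: the map `(t, y) ↦ cons 0 y + t • dir m = cons t (y + t m)` from `ℝ × ℝ^d` to `X d` preserves volume (`volume_preserving_piFinSuccAbove` /
`MeasurableEquiv.piFinSuccAbove` at `0` and translation invariance in `y` for fixed `t`).

`polar`: for fixed `s = z 0 > 0` the substitution `m = z_tail / s` has Jacobian `s^d`.
-/

open MeasureTheory Set
open scoped ENNReal

namespace BDJ

variable {d : ℕ}

/-- the point `cons 0 y` of the hyperplane -/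
def base (y : Y d) : X d := Fin.cons (α := fun _ => ℝ) 0 y

/-- the point `cons t y` -/
def shear_cons (t : ℝ) (y : Y d) : X d := Fin.cons (α := fun _ => ℝ) t y

theorem shear_continuous_cons : Continuous fun p : ℝ × Y d => shear_cons p.1 p.2 := by
  refine continuous_pi fun i => ?_
  refine Fin.cases ?_ (fun j => ?_) i
  · exact continuous_fst
  · exact (continuous_apply j).comp continuous_snd

theorem shear_measurable_cons : Measurable fun p : ℝ × Y d => shear_cons p.1 p.2 :=
  shear_continuous_cons.measurable

theorem shear_base (y m : Y d) (t : ℝ) : base y + t • dir m = shear_cons t (y + t • m) := by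
  funext i
  refine Fin.cases ?_ (fun j => ?_) i
  · simp [base, dir, shear_cons]
  · simp [base, dir, shear_cons]

theorem shear_smul (m : Y d) (s : ℝ) : s • dir m = shear_cons s (s • m) := by
  funext i
  refine Fin.cases ?_ (fun j => ?_) i
  · simp [dir, shear_cons]
  · simp [dir, shear_cons]

/-- Tonelli -/
theorem shear_tonelli {g : X d → ℝ≥0∞} (hg : Measurable g) :
    ∫⁻ w, g w = ∫⁻ t : ℝ, ∫⁻ y : Y d, g (shear_cons t y) := by
  have h := (volume_preserving_piFinSuccAbove (fun _ : Fin (d + 1) => ℝ) 0).symm
  rw [← h.lintegral_comp hg]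
  have h2 : ∀ p : ℝ × (Fin d → ℝ), (MeasurableEquiv.piFinSuccAbove (fun _ : Fin (d + 1) => ℝ) 0).symm p =
      shear_cons p.1 p.2 := by
    intro p
    change (Fin.insertNthEquiv (fun _ : Fin (d + 1) => ℝ) 0) p = _
    simp only [Fin.insertNthEquiv, Equiv.coe_fn_mk, Fin.insertNth_zero]
    rfl
  simp only [h2]
  have h3 : Measurable fun p : ℝ × Y d => g (shear_cons p.1 p.2) := hg.comp shear_measurable_cons
  exact lintegral_prod (μ := (volume : Measure ℝ)) (ν := (volume : Measure (Y d))) (fun p : ℝ × Y d => g (shear_cons p.1 p.2)) h3.aemeasurable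

theorem shear {g : X d → ℝ≥0∞} (hg : Measurable g) (m : Y d) :
    ∫⁻ w, g w = ∫⁻ y : Y d, ∫⁻ t : ℝ, g (base y + t • dir m) := by
  rw [shear_tonelli hg]
  have h1 : ∀ t : ℝ, ∫⁻ y : Y d, g (shear_cons t y) = ∫⁻ y : Y d, g (base y + t • dir m) := by
    intro t
    simp only [shear_base]
    exact (lintegral_add_right_eq_self (fun y : Y d => g (shear_cons t y)) (t • m)).symm
  simp only [h1]
  refine lintegral_lintegral_swap ?_
  refine Measurable.aemeasurable (hg.comp ?_)
  have : Continuous fun p : ℝ × Y d => base p.2 + p.1 • dir m := by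
    simp only [shear_base]
    exact shear_continuous_cons.comp (continuous_fst.prodMk (continuous_snd.add (continuous_fst.smul continuous_const)))
  exact this.measurable

theorem polar {f : X d → ℝ≥0∞} (hf : Measurable f) :
    ∫⁻ z in {z : X d | 0 < z 0}, f z =
      ∫⁻ s in Ioi (0 : ℝ), ENNReal.ofReal (s ^ d) * ∫⁻ m : Y d, f (s • dir m) := by
  have hm : MeasurableSet {z : X d | 0 < z 0} := measurableSet_lt measurable_const (measurable_pi_apply 0)
  rw [← lintegral_indicator hm, shear_tonelli (hf.indicator hm), ← lintegral_indicator measurableSet_Ioi]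
  refine lintegral_congr fun s => ?_
  by_cases hs : 0 < s
  · rw [indicator_of_mem (show s ∈ Ioi (0 : ℝ) from hs)]
    have h1 : ∀ y : Y d, ({z : X d | 0 < z 0}.indicator f) (shear_cons s y) = f (shear_cons s y) := by
      intro y
      exact indicator_of_mem (show shear_cons s y ∈ {z : X d | 0 < z 0} from hs) f
    simp only [h1, shear_smul]
    have hmap := Measure.map_addHaar_smul (volume : Measure (Y d)) hs.ne'
    have h2 : Measurable fun y : Y d => f (shear_cons s y) := by
      have : Measurable fun y : Y d => (s, y) := measurable_const.prodMk measurable_id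
      exact (hf.comp shear_measurable_cons).comp this
    have h3 : ∫⁻ m : Y d, f (shear_cons s (s • m)) =
        ∫⁻ y, f (shear_cons s y) ∂(Measure.map (fun y : Y d => s • y) volume) :=
      (lintegral_map h2 (measurable_const_smul s)).symm
    rw [h3]
    have h4 : (fun y : Y d => s • y) = (s • ·) := rfl
    rw [h4, hmap, lintegral_smul_measure]
    rw [Module.finrank_fin_fun, smul_eq_mul, ← mul_assoc, ← ENNReal.ofReal_mul (by positivity),
      abs_of_pos (by positivity), mul_inv_cancel₀ (by positivity), ENNReal.ofReal_one, one_mul]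
  · rw [indicator_of_notMem (show s ∉ Ioi (0 : ℝ) from hs)]
    have h1 : ∀ y : Y d, ({z : X d | 0 < z 0}.indicator f) (shear_cons s y) = 0 := by
      intro y
      exact indicator_of_notMem (show shear_cons s y ∉ {z : X d | 0 < z 0} from hs) f
    simp only [h1, lintegral_zero]

/-- the lines with slope `m ∈ [-1,1]^d` which meet an open box of side `L`: the set of base points has measure at most `(2L)^d`. Stated for `big 8`, side `17 sd k`. -/
theorem volume_lines_le (τ : X d) (k : ℕ) (j : Idx d) {m : Y d} (hm : m ∈ slopes d) :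
    volume {y : Y d | ∃ t : ℝ, base y + t • dir m ∈ big 8 τ k j} ≤
      ENNReal.ofReal ((34 * sd k) ^ d) := by
  have hsd : 0 < sd k := sd_pos k
  -- the interval of `t`
  let a0 : ℝ := τ 0 + (j 0 - 8) * sd k
  let lo : Fin d → ℝ := fun i => τ i.succ + (j i.succ - 8) * sd k
  -- `y i ∈ (lo i - M, lo i + 17 sd + M')`
  let cen : Fin d → ℝ := fun i => lo i - a0 * m i + (if 0 ≤ m i then -(17 * sd k * m i) else 0)
  have hsub : {y : Y d | ∃ t : ℝ, base y + t • dir m ∈ big 8 τ k j} ⊆
      Set.pi univ fun i => Icc (cen i) (cen i + 34 * sd k) := by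
    rintro y ⟨t, ht⟩ i -
    have h0 := ht 0
    have hi := ht i.succ
    have e0 : (base y + t • dir m) 0 = t := by simp [base, dir]
    have ei : (base y + t • dir m) i.succ = y i + t * m i := by simp [base, dir]
    rw [e0] at h0
    rw [ei] at hi
    have hm1 : -1 ≤ m i := hm.1 i
    have hm2 : m i ≤ 1 := hm.2 i
    obtain ⟨h1, h2⟩ := h0
    obtain ⟨h3, h4⟩ := hi
    have h1' : a0 ≤ t := h1.le
    have h2' : t ≤ a0 + 17 * sd k := by
      have : τ 0 + ((j 0 : ℝ) + 1 + 8) * sd k = a0 + 17 * sd k := by
        simp only [a0]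
        ring
      linarith
    have h3' : lo i ≤ y i + t * m i := h3.le
    have h4' : y i + t * m i ≤ lo i + 17 * sd k := by
      have : τ i.succ + ((j i.succ : ℝ) + 1 + 8) * sd k = lo i + 17 * sd k := by
        simp only [lo]
        ring
      linarith
    rw [mem_Icc]
    simp only [cen]
    split_ifs with hmi
    · constructor
      · nlinarith [mul_le_mul_of_nonneg_right h2' hmi]
      · have h5 := mul_le_mul_of_nonneg_right h1' hmi
        have h6 : 17 * sd k * m i ≤ 17 * sd k := by nlinarith
        nlinarith
    · push Not at hmi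
      constructor
      · have h5 := mul_le_mul_of_nonpos_right h1' hmi.le
        linarith
      · have h5 := mul_le_mul_of_nonpos_right h2' hmi.le
        have h6 : -(17 * sd k * m i) ≤ 17 * sd k := by nlinarith
        nlinarith
  refine (measure_mono hsub).trans ?_
  rw [volume_pi_pi]
  simp only [Real.volume_Icc, add_sub_cancel_left, Finset.prod_const, Finset.card_univ, Fintype.card_fin]
  rw [ENNReal.ofReal_pow (by positivity)]

/-- the parameters `t` with `base y + t • dir m ∈ big 8 τ k j` form an open interval of length at most `17 sd k` -/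
theorem volume_times_le (τ : X d) (k : ℕ) (j : Idx d) (m y : Y d) :
    volume {t : ℝ | base y + t • dir m ∈ big 8 τ k j} ≤ ENNReal.ofReal (17 * sd k) := by
  have hsub : {t : ℝ | base y + t • dir m ∈ big 8 τ k j} ⊆
      Ioo (τ 0 + (j 0 - 8) * sd k) (τ 0 + (j 0 + 1 + 8) * sd k) := by
    intro t ht
    have h0 := ht 0
    have e0 : (base y + t • dir m) 0 = t := by simp [base, dir]
    rw [e0] at h0
    exact h0
  refine (measure_mono hsub).trans ?_
  rw [Real.volume_Ioo]
  apply le_of_eq
  congr 1
  ring

end BDJ
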