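import Pool.Agent.BDJ.PackLine
import Pool.Agent.BDJ.Shear

/-!
# The packing lemma in the space of pairs (point, slope) (row PACK)

For fixed `m ∈ slopes d`: on the line `t ↦ base y + t • dir m` put `A P = {t : base y + t • dir m ∈ big 8 τ P.1 P.2}` (open, convex), `lev P = P.1`, `I = F`. The point
`w = base y + t • dir m` satisfies `Flag τ F a k w (dir m)` iff `t` is flagged in the sense of `pack_line` with `r = a + 5` (the points of the short segment are
`base y + (t+s) • dir m`). By `shear` (the flagged set is measurable: the misses-set is closed, the hits-sets are ... use `isOpen_Obs`: the set of `w` such that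
`w + s v ∈ O` for some `s ∈ [0,ρ]` is open as a union of open sets, same in the variables `(w,m)`),
`∑_k 2^k |{w : Flag}| = ∫_y ∑_k 2^k |{t : flagged}| ≤ ∫_y a * #{P : A P nonempty} = a ∑_P |{y : the line meets big 8 P}| ≤ a ∑_P (34 sd)^d` (`volume_lines_le`).
Then integrate over `m ∈ slopes d` (volume `2^d`).
-/

open MeasureTheory Set
open scoped ENNReal

namespace BDJ

variable {d : ℕ}

/-- the set of `(w,v)` such that `w + s • v ∈ O` for some `s` in a set is open -/
theorem isOpen_hit {O : Set (X d)} (hO : IsOpen O) (T : Set ℝ) :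
    IsOpen {p : X d × X d | ∃ s ∈ T, p.1 + s • p.2 ∈ O} := by
  have h : {p : X d × X d | ∃ s ∈ T, p.1 + s • p.2 ∈ O} =
      ⋃ s ∈ T, (fun p : X d × X d => p.1 + s • p.2) ⁻¹' O := by
    ext p
    simp
  rw [h]
  refine isOpen_biUnion fun s _ => hO.preimage ?_
  fun_prop

theorem measurableSet_Flag (τ : X d) (F : Set (ℕ × Idx d)) (a k : ℕ) :
    MeasurableSet {p : X d × X d | Flag τ F a k p.1 p.2} := by
  have hO := isOpen_Obs τ F (k + a + 5)
  have h1 : MeasurableSet {p : X d × X d | ∃ s ∈ Icc (-(6 * sd (k + a))) (6 * sd (k + a)),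
      p.1 + s • p.2 ∈ Obs τ F (k + a + 5)} := (isOpen_hit hO _).measurableSet
  have h2 : MeasurableSet {p : X d × X d | ∃ s ∈ Icc 0 (sd k),
      p.1 + s • p.2 ∈ Obs τ F (k + a + 5)} := (isOpen_hit hO _).measurableSet
  have h3 : MeasurableSet {p : X d × X d | ∃ s ∈ Icc 0 (sd k),
      p.1 + s • (-p.2) ∈ Obs τ F (k + a + 5)} := by
    have h4 : {p : X d × X d | ∃ s ∈ Icc 0 (sd k), p.1 + s • (-p.2) ∈ Obs τ F (k + a + 5)} =
        (fun p : X d × X d => (p.1, -p.2)) ⁻¹' {p : X d × X d | ∃ s ∈ Icc 0 (sd k),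
          p.1 + s • p.2 ∈ Obs τ F (k + a + 5)} := rfl
    rw [h4]
    exact ((isOpen_hit hO _).preimage (by fun_prop)).measurableSet
  have h5 := (h1.compl.inter h2).inter h3
  convert h5 using 1
  ext p
  simp only [Flag, HitBoth, mem_ofPred_eq, mem_inter_iff, mem_compl_iff, not_exists, not_and,
    and_assoc]

theorem pack_continuous_base : Continuous (base : Y d → X d) := by
  unfold base
  refine continuous_pi fun i => ?_
  refine Fin.cases ?_ (fun c => ?_) i
  · simp only [Fin.cons_zero]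
    exact continuous_const
  · simp only [Fin.cons_succ]
    exact continuous_apply c

theorem pack_line_eq (y m : Y d) (t s : ℝ) :
    base y + t • dir m + s • dir m = base y + (t + s) • dir m := by
  rw [add_smul, add_assoc]

theorem pack_line_eq' (y m : Y d) (t s : ℝ) :
    base y + t • dir m + s • -dir m = base y + (t - s) • dir m := by
  rw [sub_smul, smul_neg]
  abel

/-- the flagged points on a line are flagged in the sense of `pack_line` -/
theorem pack_line_sub (τ : X d) (F : Finset (ℕ × Idx d)) (a k : ℕ) (y m : Y d) :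
    {t : ℝ | Flag τ (F : Set (ℕ × Idx d)) a k (base y + t • dir m) (dir m)} ⊆
    {t : ℝ |
      (∀ P ∈ F, k + (a + 5) ≤ P.1 → ∀ s ∈ Icc (t - 6 * sd (k + a)) (t + 6 * sd (k + a)),
        s ∉ {t : ℝ | base y + t • dir m ∈ big 8 τ P.1 P.2}) ∧
      (∃ P ∈ F, k + (a + 5) ≤ P.1 ∧ ∃ s ∈ Icc t (t + sd k),
        s ∈ {t : ℝ | base y + t • dir m ∈ big 8 τ P.1 P.2}) ∧
      (∃ P ∈ F, k + (a + 5) ≤ P.1 ∧ ∃ s ∈ Icc (t - sd k) t,
        s ∈ {t : ℝ | base y + t • dir m ∈ big 8 τ P.1 P.2})} := by
  rintro t ⟨h1, ⟨s2, hs2, h2⟩, ⟨s3, hs3, h3⟩⟩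
  refine ⟨?_, ?_, ?_⟩
  · intro P hP hk s hs hsA
    apply h1 (s - t) ⟨by linarith [hs.1], by linarith [hs.2]⟩
    rw [pack_line_eq, add_sub_cancel]
    simp only [Obs, mem_iUnion]
    exact ⟨P, hP, by omega, hsA⟩
  · rw [pack_line_eq] at h2
    simp only [Obs, mem_iUnion] at h2
    obtain ⟨P, hP, hk, h⟩ := h2
    exact ⟨P, hP, by omega, t + s2, ⟨by linarith [hs2.1], by linarith [hs2.2]⟩, h⟩
  · rw [pack_line_eq'] at h3
    simp only [Obs, mem_iUnion] at h3
    obtain ⟨P, hP, hk, h⟩ := h3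
    exact ⟨P, hP, by omega, t - s3, ⟨by linarith [hs3.2], by linarith [hs3.1]⟩, h⟩

theorem pack_ordConnected (τ : X d) (P : ℕ × Idx d) (y m : Y d) :
    ({t : ℝ | base y + t • dir m ∈ big 8 τ P.1 P.2}).OrdConnected := by
  have h : Convex ℝ {t : ℝ | base y + t • dir m ∈ big 8 τ P.1 P.2} := by
    intro s hs t ht α β hα hβ hαβ
    have h1 := convex_big 8 τ P.1 P.2 hs ht hα hβ hαβ
    have e : α • (base y + s • dir m) + β • (base y + t • dir m) =
        base y + (α • s + β • t) • dir m := by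
      rw [smul_add, smul_add, add_smul, smul_smul, smul_smul]
      have e1 : α • base y + β • base y = base y := by rw [← add_smul, hαβ, one_smul]
      rw [smul_eq_mul, smul_eq_mul]
      nth_rw 3 [← e1]
      abel
    rw [e] at h1
    exact h1
  exact h.ordConnected

open Classical in
/-- the bound on a line -/
theorem pack_on_line (τ : X d) (F : Finset (ℕ × Idx d)) (a : ℕ) (y m : Y d) :
    ∑' k : ℕ, ENNReal.ofReal (2 ^ k) *
        volume {t : ℝ | Flag τ (F : Set (ℕ × Idx d)) a k (base y + t • dir m) (dir m)} ≤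
      a * ∑ P ∈ F, ({y : Y d | ∃ t : ℝ, base y + t • dir m ∈ big 8 τ P.1 P.2}).indicator 1 y := by
  have h := pack_line F (fun P => P.1) (fun P => {t : ℝ | base y + t • dir m ∈ big 8 τ P.1 P.2})
    (fun P _ => pack_ordConnected τ P y m) a (a + 5)
  refine le_trans (ENNReal.tsum_le_tsum fun k => ?_) (h.trans (le_of_eq ?_))
  · exact mul_le_mul' le_rfl (measure_mono (pack_line_sub τ F a k y m))
  · congr 1
    rw [Finset.card_filter]
    push_cast
    refine Finset.sum_congr rfl fun P _ => ?_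
    by_cases h2 : ({t : ℝ | base y + t • dir m ∈ big 8 τ P.1 P.2}).Nonempty
    · rw [if_pos h2, indicator_of_mem]
      · rfl
      · obtain ⟨t, ht⟩ := h2
        exact ⟨t, ht⟩
    · rw [if_neg h2, indicator_of_notMem]
      rintro ⟨t, ht⟩
      exact h2 ⟨t, ht⟩

theorem pack_isOpen_lines (τ : X d) (P : ℕ × Idx d) (m : Y d) :
    IsOpen {y : Y d | ∃ t : ℝ, base y + t • dir m ∈ big 8 τ P.1 P.2} := by
  have h : {y : Y d | ∃ t : ℝ, base y + t • dir m ∈ big 8 τ P.1 P.2} =
      ⋃ t : ℝ, (fun y : Y d => base y + t • dir m) ⁻¹' big 8 τ P.1 P.2 := by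
    ext y
    simp
  rw [h]
  refine isOpen_iUnion fun t => (isOpen_big 8 τ P.1 P.2).preimage ?_
  exact pack_continuous_base.add continuous_const

/-- the set of all flagged `((m, y), t)` -/
theorem pack_meas3 (τ : X d) (F : Finset (ℕ × Idx d)) (a k : ℕ) :
    MeasurableSet {p : (Y d × Y d) × ℝ |
      Flag τ (F : Set (ℕ × Idx d)) a k (base p.1.2 + p.2 • dir p.1.1) (dir p.1.1)} := by
  have hc : Continuous fun p : (Y d × Y d) × ℝ => (base p.1.2 + p.2 • dir p.1.1, dir p.1.1) := by
    have h1 := pack_continuous_base (d := d)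
    have h2 := continuous_dir (d := d)
    fun_prop
  exact hc.measurable (measurableSet_Flag τ (F : Set (ℕ × Idx d)) a k)

theorem pack_meas2 (τ : X d) (F : Finset (ℕ × Idx d)) (a k : ℕ) :
    Measurable fun p : Y d × Y d => volume {t : ℝ |
      Flag τ (F : Set (ℕ × Idx d)) a k (base p.2 + t • dir p.1) (dir p.1)} :=
  measurable_measure_prodMk_left (pack_meas3 τ F a k)

theorem pack_vp (τ : X d) (F : Finset (ℕ × Idx d)) (a k : ℕ) :
    vp d {p | p.2 ∈ slopes d ∧ Flag τ (F : Set (ℕ × Idx d)) a k p.1 (dir p.2)} =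
      ∫⁻ m in slopes d, ∫⁻ y, volume {t : ℝ |
        Flag τ (F : Set (ℕ × Idx d)) a k (base y + t • dir m) (dir m)} := by
  have hc : Continuous fun p : X d × Y d => (p.1, dir p.2) := by
    have h2 := continuous_dir (d := d)
    fun_prop
  have hF : MeasurableSet {p : X d × Y d | Flag τ (F : Set (ℕ × Idx d)) a k p.1 (dir p.2)} :=
    hc.measurable (measurableSet_Flag τ (F : Set (ℕ × Idx d)) a k)
  have hS : MeasurableSet {p : X d × Y d | p.2 ∈ slopes d ∧
      Flag τ (F : Set (ℕ × Idx d)) a k p.1 (dir p.2)} :=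
    (measurable_snd measurableSet_slopes).inter hF
  rw [vp, Measure.prod_apply_symm hS, ← lintegral_indicator measurableSet_slopes]
  refine lintegral_congr fun m => ?_
  by_cases hm : m ∈ slopes d
  · rw [indicator_of_mem hm]
    have hFm : MeasurableSet {w : X d | Flag τ (F : Set (ℕ × Idx d)) a k w (dir m)} :=
      measurable_prodMk_right hF
    have e1 : (fun x : X d => (x, m)) ⁻¹' {p : X d × Y d | p.2 ∈ slopes d ∧
        Flag τ (F : Set (ℕ × Idx d)) a k p.1 (dir p.2)} =
        {w : X d | Flag τ (F : Set (ℕ × Idx d)) a k w (dir m)} := by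
      ext w
      simp [hm]
    rw [e1, ← lintegral_indicator_one hFm, shear (measurable_one.indicator hFm) m]
    refine lintegral_congr fun y => ?_
    have hc2 : Continuous fun t : ℝ => base y + t • dir m := by fun_prop
    exact lintegral_indicator_one (hc2.measurable hFm)
  · rw [indicator_of_notMem hm]
    have e1 : (fun x : X d => (x, m)) ⁻¹' {p : X d × Y d | p.2 ∈ slopes d ∧
        Flag τ (F : Set (ℕ × Idx d)) a k p.1 (dir p.2)} = ∅ := by
      ext w
      simp [hm]
    rw [e1, measure_empty]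

theorem pack (τ : X d) (F : Finset (ℕ × Idx d)) (a : ℕ) :
    ∑' k : ℕ, ENNReal.ofReal (2 ^ k) *
        vp d {p | p.2 ∈ slopes d ∧ Flag τ (F : Set (ℕ × Idx d)) a k p.1 (dir p.2)} ≤
      2 ^ d * (a * 34 ^ d) * ∑ P ∈ F, ENNReal.ofReal (sd P.1 ^ d) := by
  have h1 : ∀ k : ℕ, ENNReal.ofReal (2 ^ k) *
      vp d {p | p.2 ∈ slopes d ∧ Flag τ (F : Set (ℕ × Idx d)) a k p.1 (dir p.2)} =
      ∫⁻ m in slopes d, ∫⁻ y, ENNReal.ofReal (2 ^ k) * volume {t : ℝ |
        Flag τ (F : Set (ℕ × Idx d)) a k (base y + t • dir m) (dir m)} := by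
    intro k
    rw [pack_vp, ← lintegral_const_mul' _ _ ENNReal.ofReal_ne_top]
    refine lintegral_congr fun m => ?_
    rw [← lintegral_const_mul' _ _ ENNReal.ofReal_ne_top]
  have hm2 : ∀ k : ℕ, Measurable fun p : Y d × Y d => ENNReal.ofReal (2 ^ k) * volume {t : ℝ |
      Flag τ (F : Set (ℕ × Idx d)) a k (base p.2 + t • dir p.1) (dir p.1)} :=
    fun k => (pack_meas2 τ F a k).const_mul _
  calc ∑' k : ℕ, ENNReal.ofReal (2 ^ k) *
        vp d {p | p.2 ∈ slopes d ∧ Flag τ (F : Set (ℕ × Idx d)) a k p.1 (dir p.2)}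
      = ∑' k : ℕ, ∫⁻ m in slopes d, ∫⁻ y, ENNReal.ofReal (2 ^ k) * volume {t : ℝ |
        Flag τ (F : Set (ℕ × Idx d)) a k (base y + t • dir m) (dir m)} := by
        congr 1
        ext k
        exact h1 k
    _ = ∫⁻ m in slopes d, ∑' k : ℕ, ∫⁻ y, ENNReal.ofReal (2 ^ k) * volume {t : ℝ |
        Flag τ (F : Set (ℕ × Idx d)) a k (base y + t • dir m) (dir m)} :=
        (lintegral_tsum fun k => ((hm2 k).lintegral_prod_right').aemeasurable).symm
    _ = ∫⁻ m in slopes d, ∫⁻ y, ∑' k : ℕ, ENNReal.ofReal (2 ^ k) * volume {t : ℝ |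
        Flag τ (F : Set (ℕ × Idx d)) a k (base y + t • dir m) (dir m)} := by
        refine lintegral_congr fun m => ?_
        exact (lintegral_tsum fun k => ((hm2 k).comp measurable_prodMk_left).aemeasurable).symm
    _ ≤ ∫⁻ m in slopes d, (a : ℝ≥0∞) * ∑ P ∈ F, ENNReal.ofReal ((34 * sd P.1) ^ d) := by
        refine setLIntegral_mono' measurableSet_slopes fun m hm => ?_
        calc ∫⁻ y, ∑' k : ℕ, ENNReal.ofReal (2 ^ k) * volume {t : ℝ |
              Flag τ (F : Set (ℕ × Idx d)) a k (base y + t • dir m) (dir m)}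
            ≤ ∫⁻ y, (a : ℝ≥0∞) * ∑ P ∈ F,
              ({y : Y d | ∃ t : ℝ, base y + t • dir m ∈ big 8 τ P.1 P.2}).indicator 1 y :=
              lintegral_mono fun y => pack_on_line τ F a y m
          _ = (a : ℝ≥0∞) * ∑ P ∈ F, ∫⁻ y,
              ({y : Y d | ∃ t : ℝ, base y + t • dir m ∈ big 8 τ P.1 P.2}).indicator 1 y := by
              rw [lintegral_const_mul' _ _ (ENNReal.natCast_ne_top a), lintegral_finsetSum]
              intro P _
              exact measurable_one.indicator (pack_isOpen_lines τ P m).measurableSet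
          _ ≤ (a : ℝ≥0∞) * ∑ P ∈ F, ENNReal.ofReal ((34 * sd P.1) ^ d) := by
              gcongr with P hP
              rw [lintegral_indicator_one (pack_isOpen_lines τ P m).measurableSet]
              exact volume_lines_le τ P.1 P.2 hm
    _ = 2 ^ d * (a * 34 ^ d) * ∑ P ∈ F, ENNReal.ofReal (sd P.1 ^ d) := by
        rw [setLIntegral_const]
        have hv : (volume : Measure (Y d)) (slopes d) = 2 ^ d := by
          rw [slopes, Real.volume_Icc_pi]
          simp only [sub_neg_eq_add, Finset.prod_const, Finset.card_univ, Fintype.card_fin]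
          norm_num
        have h34 : ∀ P ∈ F, ENNReal.ofReal ((34 * sd P.1) ^ d) =
            34 ^ d * ENNReal.ofReal (sd P.1 ^ d) := by
          intro P _
          rw [mul_pow, ENNReal.ofReal_mul (by positivity), ENNReal.ofReal_pow (by norm_num)]
          norm_num
        rw [hv, Finset.sum_congr rfl h34, ← Finset.mul_sum]
        ring

end BDJ
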