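import Pool.Agent.BDJ.HeavyNbr
import Pool.Agent.BDJ.Shear
import Pool.Agent.BDJ.Pack

/-!
# Most sub-cubes are sparse (row ABUND)

`Q = (k,j)` in the class `θ`, `t = c0 d * θ`, `ρ = sd k`, `l = sd (k+a)`, `r = a+5`, `M = slopes d`.

(1) For `τ ∈ shifts d` let `F_τ` be the set of the heavy cubes `P = (i,j')` (grid `τ`, level `i ≥ k+r`) with `big 8 P ∩ big 3 Q` nonempty which have no heavy strict
ancestor of level `≥ k+r`. These cubes are pairwise disjoint and contained in `big 4 Q` (`cube_subset_big_four`), so `t ∑ sd(P)^d ≤ ν(big 4 Q) ≤ θ ρ^d`, hence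
`∑_{P ∈ F_τ} sd(P)^d ≤ (c0 d)⁻¹ ρ^d`. And `Nge ν t τ (k+r) ∩ big 3 Q ⊆ ⋃_{P ∈ F_τ} big 8 P` (replace a heavy cube by its heavy ancestor of smallest level `≥ k+r`, and
use `big_subset_par`).
(2) For a cube `P` of level `i ≥ k+r`: `vp {(w,m) : m ∈ M, ∃ s ∈ [-6l,6l], w + s dir m ∈ big 8 P} ≤ 2^d (12 l + 17 sd i) (34 sd i)^d ≤ 2^d 13 l (34 sd i)^d`: fix `m`,
use `shear`, `volume_lines_le`, and for a fixed line the set of `t` is contained in the `6l`-neighbourhood of an interval of length `≤ 17 sd i ≤ l`.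
(3) For a sub-cube `i` (`Sub a j i`) which is not sparse, `η l^(d+1) < vp {(w,m) ∈ big 4 (k+a,i) × M, short segment meets Nall}`; the short segment (`a ≥ 3`) is in
`big 3 Q`. The sets `big 4 (k+a,i)` overlap at most `9^(d+1)` times (`tsum_big_le`, `N = 4`). So
`η ∑_{i not sparse} l^(d+1) ≤ 9^(d+1) ∑_τ ∑_{P ∈ F_τ} 2^d 13 l (34 sd P)^d ≤ 9^(d+1) 2^(d+1) 2^d 13 * 34^d (c0 d)⁻¹ l ρ^d`, and `l ρ^d = sd a * ρ^(d+1)`.
-/

open MeasureTheory Set
open scoped ENNReal NNReal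

namespace BDJ

variable {d : ℕ}

theorem abund_c0_ne_zero : c0 d ≠ 0 := by
  unfold c0
  apply ENNReal.inv_ne_zero.2
  exact ENNReal.mul_ne_top (by norm_num) (ENNReal.pow_ne_top (by norm_num))

theorem abund_c0_ne_top : c0 d ≠ ∞ := by
  unfold c0
  apply ENNReal.inv_ne_top.2
  exact mul_ne_zero (by norm_num) (pow_ne_zero _ (by norm_num))

theorem abund_vp {S : Set (X d × X d)} (hS0 : MeasurableSet S) :
    vp d {p | p.2 ∈ slopes d ∧ (p.1, dir p.2) ∈ S} =
      ∫⁻ m in slopes d, ∫⁻ y, volume {t : ℝ | (base y + t • dir m, dir m) ∈ S} := by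
  have hc : Continuous fun p : X d × Y d => (p.1, dir p.2) := by
    have h2 := continuous_dir (d := d)
    fun_prop
  have hF : MeasurableSet {p : X d × Y d | (p.1, dir p.2) ∈ S} := hc.measurable hS0
  have hS : MeasurableSet {p : X d × Y d | p.2 ∈ slopes d ∧ (p.1, dir p.2) ∈ S} :=
    (measurable_snd measurableSet_slopes).inter hF
  rw [vp, Measure.prod_apply_symm hS, ← lintegral_indicator measurableSet_slopes]
  refine lintegral_congr fun m => ?_
  by_cases hm : m ∈ slopes d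
  · rw [indicator_of_mem hm]
    have hFm0 := (measurable_prodMk_right (y := m)) hF
    have hFm : MeasurableSet {w : X d | (w, dir m) ∈ S} := hFm0
    have e1 : (fun x : X d => (x, m)) ⁻¹' {p : X d × Y d | p.2 ∈ slopes d ∧ (p.1, dir p.2) ∈ S} =
        {w : X d | (w, dir m) ∈ S} := by
      ext w
      simp [hm]
    rw [e1, ← lintegral_indicator_one hFm, shear (measurable_one.indicator hFm) m]
    refine lintegral_congr fun y => ?_
    have hc2 : Continuous fun t : ℝ => base y + t • dir m := by fun_prop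
    exact lintegral_indicator_one (hc2.measurable hFm)
  · rw [indicator_of_notMem hm]
    have e1 : (fun x : X d => (x, m)) ⁻¹' {p : X d × Y d | p.2 ∈ slopes d ∧ (p.1, dir p.2) ∈ S} =
        ∅ := by
      ext w
      simp [hm]
    rw [e1, measure_empty]

theorem abund_volume_slopes : (volume : Measure (Y d)) (slopes d) = 2 ^ d := by
  rw [slopes, Real.volume_Icc_pi]
  simp only [sub_neg_eq_add, Finset.prod_const, Finset.card_univ, Fintype.card_fin]
  norm_num

/-- step (2) -/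
theorem abund_one (τ : X d) (K i : ℕ) (hi : K + 5 ≤ i) (j' : Idx d) :
    vp d {p | p.2 ∈ slopes d ∧ ∃ s ∈ Icc (-(6 * sd K)) (6 * sd K), p.1 + s • dir p.2 ∈ big 8 τ i j'} ≤
      2 ^ d * (13 * 34 ^ d) * (ENNReal.ofReal (sd K) * ENNReal.ofReal (sd i ^ d)) := by
  have hS := (isOpen_hit (isOpen_big 8 τ i j') (Icc (-(6 * sd K)) (6 * sd K))).measurableSet
  have h1 := abund_vp hS
  have e : {p : X d × Y d | p.2 ∈ slopes d ∧ ∃ s ∈ Icc (-(6 * sd K)) (6 * sd K),
      p.1 + s • dir p.2 ∈ big 8 τ i j'} = {p : X d × Y d | p.2 ∈ slopes d ∧ (p.1, dir p.2) ∈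
      {p : X d × X d | ∃ s ∈ Icc (-(6 * sd K)) (6 * sd K), p.1 + s • p.2 ∈ big 8 τ i j'}} := rfl
  rw [e, h1]
  have hsdK := sd_pos K
  have hsdi := sd_pos i
  have h17 : 17 * sd i ≤ sd K := by
    have h2 := sd_anti hi
    have h3 : sd (K + 5) = sd K / 32 := by
      rw [sd_succ, sd_succ, sd_succ, sd_succ, sd_succ]
      ring
    rw [h3] at h2
    linarith
  have hline : ∀ m ∈ slopes d, ∫⁻ y, volume {t : ℝ | (base y + t • dir m, dir m) ∈
      {p : X d × X d | ∃ s ∈ Icc (-(6 * sd K)) (6 * sd K), p.1 + s • p.2 ∈ big 8 τ i j'}} ≤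
      ENNReal.ofReal (13 * sd K) * ENNReal.ofReal ((34 * sd i) ^ d) := by
    intro m hm
    have hopen := pack_isOpen_lines τ (i, j') m
    calc ∫⁻ y, volume {t : ℝ | (base y + t • dir m, dir m) ∈
          {p : X d × X d | ∃ s ∈ Icc (-(6 * sd K)) (6 * sd K), p.1 + s • p.2 ∈ big 8 τ i j'}}
        ≤ ∫⁻ y, ({y : Y d | ∃ t : ℝ, base y + t • dir m ∈ big 8 τ i j'}).indicator
            (fun _ => ENNReal.ofReal (13 * sd K)) y := by
          refine lintegral_mono fun y => ?_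
          by_cases hy : y ∈ {y : Y d | ∃ t : ℝ, base y + t • dir m ∈ big 8 τ i j'}
          · rw [indicator_of_mem hy]
            have hsub : {t : ℝ | (base y + t • dir m, dir m) ∈
                {p : X d × X d | ∃ s ∈ Icc (-(6 * sd K)) (6 * sd K), p.1 + s • p.2 ∈ big 8 τ i j'}} ⊆
                Icc (τ 0 + (j' 0 - 8) * sd i - 6 * sd K) (τ 0 + (j' 0 + 9) * sd i + 6 * sd K) := by
              rintro t ⟨s, hs, hb⟩
              have hb0 := hb 0
              simp only [Pi.add_apply, Pi.smul_apply, dir_zero, base, Fin.cons_zero,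
                smul_eq_mul] at hb0
              constructor
              · linarith [hb0.1, hs.2]
              · linarith [hb0.2, hs.1]
            refine (measure_mono hsub).trans ?_
            rw [Real.volume_Icc]
            apply ENNReal.ofReal_le_ofReal
            linarith
          · rw [indicator_of_notMem hy]
            apply le_of_eq
            have hem : {t : ℝ | (base y + t • dir m, dir m) ∈
                {p : X d × X d | ∃ s ∈ Icc (-(6 * sd K)) (6 * sd K), p.1 + s • p.2 ∈ big 8 τ i j'}} =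
                ∅ := by
              rw [eq_empty_iff_forall_notMem]
              rintro t ⟨s, _, hb⟩
              apply hy
              refine ⟨t + s, ?_⟩
              rw [← pack_line_eq]
              exact hb
            rw [hem, measure_empty]
      _ = ENNReal.ofReal (13 * sd K) *
            volume {y : Y d | ∃ t : ℝ, base y + t • dir m ∈ big 8 τ i j'} := by
          rw [lintegral_indicator hopen.measurableSet, setLIntegral_const]
      _ ≤ _ := mul_le_mul' le_rfl (volume_lines_le τ i j' hm)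
  refine (setLIntegral_mono' measurableSet_slopes hline).trans (le_of_eq ?_)
  rw [setLIntegral_const, abund_volume_slopes, mul_pow,
    ENNReal.ofReal_mul (by positivity : (0 : ℝ) ≤ 34 ^ d),
    ENNReal.ofReal_pow (by norm_num : (0 : ℝ) ≤ 34), ENNReal.ofReal_mul (by norm_num : (0 : ℝ) ≤ 13)]
  have e34 : ENNReal.ofReal 34 = 34 := by norm_num
  have e13 : ENNReal.ofReal 13 = 13 := by norm_num
  rw [e34, e13]
  ring

theorem abund_chain {a : ℝ} (ha : 0 ≤ a) (τ : X d) {i i' : ℕ} (h : i' ≤ i) (x : X d) :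
    big a τ i (idx τ i x) ⊆ big a τ i' (idx τ i' x) := by
  induction i, h using Nat.le_induction with
  | base => exact Subset.rfl
  | succ n _ ih =>
    refine (big_subset_par ha τ n _).trans ?_
    rw [par_idx]
    exact ih

theorem abund_idx (τ : X d) {i i' : ℕ} (h : i' ≤ i) (x y : X d) (he : idx τ i x = idx τ i y) :
    idx τ i' x = idx τ i' y := by
  induction i, h using Nat.le_induction with
  | base => exact he
  | succ n _ ih =>
    apply ih
    rw [← par_idx τ n x, ← par_idx τ n y, he]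

/-- the maximal heavy cubes near `Q` -/
def abundF (ν : Measure (X d)) (t : ℝ≥0∞) (τ : X d) (K k : ℕ) (j : Idx d) : Set (ℕ × Idx d) :=
  {P | Heavy ν t τ P.1 P.2 ∧ K ≤ P.1 ∧ (big 8 τ P.1 P.2 ∩ big 3 0 k j).Nonempty ∧
    ∀ x ∈ cube τ P.1 P.2, ∀ i, K ≤ i → i < P.1 → ¬ Heavy ν t τ i (idx τ i x)}

theorem abund_cover (ν : Measure (X d)) (t : ℝ≥0∞) (τ : X d) (K k : ℕ) (j : Idx d) {z : X d}
    (hz : z ∈ Nge ν t τ K) (hz3 : z ∈ big 3 0 k j) :
    ∃ P ∈ abundF ν t τ K k j, z ∈ big 8 τ P.1 P.2 := by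
  classical
  simp only [Nge, Nlev, mem_iUnion] at hz
  obtain ⟨i₀, hi₀, j₀, hj₀, hzj⟩ := hz
  obtain ⟨x, hx⟩ := cube_nonempty τ i₀ j₀
  have hidx := (mem_cube_iff τ i₀ j₀ x).1 hx
  have hex : ∃ i, K ≤ i ∧ Heavy ν t τ i (idx τ i x) := ⟨i₀, hi₀, by rw [hidx]; exact hj₀⟩
  have h1 := Nat.find_spec hex
  have h2 : Nat.find hex ≤ i₀ := Nat.find_min' hex ⟨hi₀, by rw [hidx]; exact hj₀⟩
  have hzb : z ∈ big 8 τ (Nat.find hex) (idx τ (Nat.find hex) x) := by
    rw [← hidx] at hzj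
    exact abund_chain (by norm_num) τ h2 x hzj
  refine ⟨(Nat.find hex, idx τ (Nat.find hex) x), ⟨h1.2, h1.1, ⟨z, hzb, hz3⟩, ?_⟩, hzb⟩
  intro y hy i hi hlt hH
  have e := (mem_cube_iff τ _ _ y).1 hy
  have e2 := abund_idx τ (le_of_lt hlt) y x e
  rw [e2] at hH
  exact Nat.find_min hex hlt ⟨hi, hH⟩

theorem abund_disjoint (ν : Measure (X d)) (t : ℝ≥0∞) (τ : X d) (K k : ℕ) (j : Idx d) :
    Pairwise (Function.onFun Disjoint fun P : abundF ν t τ K k j => cube τ P.1.1 P.1.2) := by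
  rintro ⟨P, hP⟩ ⟨Q, hQ⟩ hne
  rw [Function.onFun, Set.disjoint_left]
  intro x hx hy
  apply hne
  have e1 := (mem_cube_iff τ _ _ x).1 hx
  have e2 := (mem_cube_iff τ _ _ x).1 hy
  simp only at e1 e2
  rcases lt_trichotomy P.1 Q.1 with h | h | h
  · exact absurd (by rw [e1]; exact hP.1) (hQ.2.2.2 x hy P.1 hP.2.1 h)
  · apply Subtype.ext
    refine Prod.ext h ?_
    rw [← e1, ← e2, h]
  · exact absurd (by rw [e2]; exact hQ.1) (hP.2.2.2 x hx Q.1 hQ.2.1 h)

/-- step (1) -/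
theorem abund_sum (ν : Measure (X d)) {θ : ℝ≥0∞} (hθ0 : θ ≠ 0) (hθ : θ ≠ ∞) (τ : X d) (K k : ℕ)
    (hK : k + 5 ≤ K) (j : Idx d) (hcl : ν (big 4 0 k j) ≤ θ * ENNReal.ofReal (sd k ^ d)) :
    ∑' P : abundF ν (c0 d * θ) τ K k j, ENNReal.ofReal (sd P.1.1 ^ d) ≤
      (c0 d)⁻¹ * ENNReal.ofReal (sd k ^ d) := by
  have ht0 : c0 d * θ ≠ 0 := mul_ne_zero abund_c0_ne_zero hθ0
  have htt : c0 d * θ ≠ ∞ := ENNReal.mul_ne_top abund_c0_ne_top hθ
  have h1 : c0 d * θ * ∑' P : abundF ν (c0 d * θ) τ K k j, ENNReal.ofReal (sd P.1.1 ^ d) ≤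
      θ * ENNReal.ofReal (sd k ^ d) := by
    rw [← ENNReal.tsum_mul_left]
    refine le_trans (ENNReal.tsum_le_tsum fun P => P.2.1) ?_
    refine (tsum_meas_le_meas_iUnion_of_disjoint ν (fun P => measurableSet_cube τ _ _)
      (abund_disjoint ν (c0 d * θ) τ K k j)).trans ?_
    refine (measure_mono ?_).trans hcl
    refine iUnion_subset fun P => ?_
    obtain ⟨z, hz8, hz3⟩ := P.2.2.2.1
    exact cube_subset_big_four (hK.trans P.2.2.1) hz8 hz3
  have h2 : ∑' P : abundF ν (c0 d * θ) τ K k j, ENNReal.ofReal (sd P.1.1 ^ d) ≤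
      (c0 d * θ)⁻¹ * (θ * ENNReal.ofReal (sd k ^ d)) := by
    rw [mul_comm (c0 d * θ)⁻¹, ← div_eq_mul_inv, ENNReal.le_div_iff_mul_le (Or.inl ht0) (Or.inl htt),
      mul_comm]
    exact h1
  refine h2.trans (le_of_eq ?_)
  rw [ENNReal.mul_inv (Or.inl abund_c0_ne_zero) (Or.inl abund_c0_ne_top)]
  have h3 : θ⁻¹ * θ = 1 := ENNReal.inv_mul_cancel hθ0 hθ
  calc (c0 d)⁻¹ * θ⁻¹ * (θ * ENNReal.ofReal (sd k ^ d))
      = (c0 d)⁻¹ * ENNReal.ofReal (sd k ^ d) * (θ⁻¹ * θ) := by ring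
    _ = _ := by rw [h3, mul_one]

/-- the bad set -/
def abundB (ν : Measure (X d)) (t : ℝ≥0∞) (a k : ℕ) (j : Idx d) : Set (X d × Y d) :=
  {p | p.2 ∈ slopes d ∧ ∃ s ∈ Icc (-(6 * sd (k + a))) (6 * sd (k + a)),
    p.1 + s • dir p.2 ∈ Nall ν t (k + a + 5) ∩ big 3 0 k j}

theorem abund_measB (ν : Measure (X d)) (t : ℝ≥0∞) (a k : ℕ) (j : Idx d) :
    MeasurableSet (abundB ν t a k j) := by
  have hc : Continuous fun p : X d × Y d => (p.1, dir p.2) := by
    have h2 := continuous_dir (d := d)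
    fun_prop
  have h1 := (isOpen_hit ((isOpen_Nall ν t (k + a + 5)).inter (isOpen_big 3 0 k j))
    (Icc (-(6 * sd (k + a))) (6 * sd (k + a)))).preimage hc
  exact (measurable_snd measurableSet_slopes).inter h1.measurableSet

theorem abund_vpB (ν : Measure (X d)) {θ : ℝ≥0∞} (hθ0 : θ ≠ 0) (hθ : θ ≠ ∞) (a k : ℕ)
    (j : Idx d) (hcl : ν (big 4 0 k j) ≤ θ * ENNReal.ofReal (sd k ^ d)) :
    vp d (abundB ν (c0 d * θ) a k j) ≤ (shifts d).card *
      (2 ^ d * (13 * 34 ^ d) * (c0 d)⁻¹) *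
        (ENNReal.ofReal (sd (k + a)) * ENNReal.ofReal (sd k ^ d)) := by
  have hsub : abundB ν (c0 d * θ) a k j ⊆ ⋃ τ ∈ shifts d,
      ⋃ P : abundF ν (c0 d * θ) τ (k + a + 5) k j,
        {p | p.2 ∈ slopes d ∧ ∃ s ∈ Icc (-(6 * sd (k + a))) (6 * sd (k + a)),
          p.1 + s • dir p.2 ∈ big 8 τ P.1.1 P.1.2} := by
    rintro p ⟨hp, s, hs, hN, h3⟩
    simp only [Nall, mem_iUnion] at hN
    obtain ⟨τ, hτ, hz⟩ := hN
    obtain ⟨P, hP, hzP⟩ := abund_cover ν (c0 d * θ) τ (k + a + 5) k j hz h3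
    simp only [mem_iUnion]
    exact ⟨τ, hτ, ⟨P, hP⟩, hp, s, hs, hzP⟩
  refine (measure_mono hsub).trans ((measure_biUnion_finset_le _ _).trans ?_)
  have h1 : ∀ τ ∈ shifts d, vp d (⋃ P : abundF ν (c0 d * θ) τ (k + a + 5) k j,
        {p | p.2 ∈ slopes d ∧ ∃ s ∈ Icc (-(6 * sd (k + a))) (6 * sd (k + a)),
          p.1 + s • dir p.2 ∈ big 8 τ P.1.1 P.1.2}) ≤
      2 ^ d * (13 * 34 ^ d) * (c0 d)⁻¹ *
        (ENNReal.ofReal (sd (k + a)) * ENNReal.ofReal (sd k ^ d)) := by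
    intro τ _
    refine (measure_iUnion_le _).trans ?_
    calc ∑' P : abundF ν (c0 d * θ) τ (k + a + 5) k j, vp d
          {p | p.2 ∈ slopes d ∧ ∃ s ∈ Icc (-(6 * sd (k + a))) (6 * sd (k + a)),
            p.1 + s • dir p.2 ∈ big 8 τ P.1.1 P.1.2}
        ≤ ∑' P : abundF ν (c0 d * θ) τ (k + a + 5) k j,
          2 ^ d * (13 * 34 ^ d) * (ENNReal.ofReal (sd (k + a)) * ENNReal.ofReal (sd P.1.1 ^ d)) :=
          ENNReal.tsum_le_tsum fun P => abund_one τ (k + a) P.1.1 P.2.2.1 P.1.2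
      _ = 2 ^ d * (13 * 34 ^ d) * (ENNReal.ofReal (sd (k + a)) *
          ∑' P : abundF ν (c0 d * θ) τ (k + a + 5) k j, ENNReal.ofReal (sd P.1.1 ^ d)) := by
          rw [ENNReal.tsum_mul_left, ENNReal.tsum_mul_left]
      _ ≤ 2 ^ d * (13 * 34 ^ d) * (ENNReal.ofReal (sd (k + a)) *
          ((c0 d)⁻¹ * ENNReal.ofReal (sd k ^ d))) := by
          gcongr
          exact abund_sum ν hθ0 hθ τ (k + a + 5) k (by omega) j hcl
      _ = _ := by ring
  refine (Finset.sum_le_sum h1).trans (le_of_eq ?_)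
  rw [Finset.sum_const, nsmul_eq_mul]
  ring

theorem abund_in_three {a k : ℕ} (ha : 3 ≤ a) {j i : Idx d} (h : Sub a j i) {w : X d}
    (hw : w ∈ big 4 0 (k + a) i) {m : Y d} (hm : m ∈ slopes d) {s : ℝ}
    (hs : s ∈ Icc (-(6 * sd (k + a))) (6 * sd (k + a))) : w + s • dir m ∈ big 3 0 k j := by
  intro c
  have hsd := sd_pos (k + a)
  have hsdk := sd_pos k
  have h8 : 8 * sd (k + a) ≤ sd k := by
    have h1 := sd_anti (by omega : k + 3 ≤ k + a)
    have h2 : sd (k + 3) = sd k / 8 := by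
      rw [sd_succ, sd_succ, sd_succ]
      ring
    rw [h2] at h1
    linarith
  have hmc : |dir m c| ≤ 1 := by
    have h1 := norm_le_pi_norm (dir m) c
    rw [norm_dir_le hm] at h1
    exact h1
  have hsm : |s * dir m c| ≤ 6 * sd (k + a) := by
    rw [abs_mul]
    calc |s| * |dir m c| ≤ |s| * 1 := mul_le_mul_of_nonneg_left hmc (abs_nonneg s)
      _ = |s| := mul_one _
      _ ≤ _ := abs_le.2 ⟨hs.1, hs.2⟩
  have h1 := abs_le.1 hsm
  have hpow : (2 : ℝ) ^ a * sd (k + a) = sd k := by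
    rw [sd_add, mul_comm (sd k), ← mul_assoc, two_pow_mul_sd, one_mul]
  have hSub := h c
  have hlow : (2 : ℝ) ^ a * ((j c : ℝ) - 1) ≤ i c := by exact_mod_cast hSub.1
  have hup : (i c : ℝ) + 1 ≤ (2 : ℝ) ^ a * ((j c : ℝ) + 2) := by
    have h2 : i c + 1 ≤ 2 ^ a * (j c + 2) := by
      have := hSub.2
      omega
    exact_mod_cast h2
  have hlow' : ((j c : ℝ) - 1) * sd k ≤ i c * sd (k + a) := by
    rw [← hpow]
    have := mul_le_mul_of_nonneg_right hlow hsd.le
    linarith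
  have hup' : ((i c : ℝ) + 1) * sd (k + a) ≤ ((j c : ℝ) + 2) * sd k := by
    rw [← hpow]
    have := mul_le_mul_of_nonneg_right hup hsd.le
    linarith
  have hwc := hw c
  simp only [Pi.zero_apply, zero_add, Pi.add_apply, Pi.smul_apply, smul_eq_mul] at hwc ⊢
  constructor
  · nlinarith [hwc.1, h1.1]
  · nlinarith [hwc.2, h1.2]

open Classical in
theorem abund (d : ℕ) : ∃ C : ℝ≥0, ∀ (ν : Measure (X d)) [IsFiniteMeasure ν] (θ : ℝ≥0∞) (a : ℕ),
    3 ≤ a → ∀ (η : ℝ≥0∞) (k : ℕ) (j : Idx d), InCl ν θ k j →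
    η * ∑' i : Idx d, (if Sub a j i ∧ ¬ Sparse ν (c0 d * θ) a η k i
      then ENNReal.ofReal (sd (k + a) ^ (d + 1)) else 0) ≤
    C * ENNReal.ofReal (sd a * sd k ^ (d + 1)) := by
  have hCtop : (9 ^ (d + 1) * ((shifts d).card * (2 ^ d * (13 * 34 ^ d) * (c0 d)⁻¹)) : ℝ≥0∞) ≠ ∞ := by
    have h1 : (c0 d)⁻¹ ≠ ∞ := ENNReal.inv_ne_top.2 abund_c0_ne_zero
    have h2 : (9 ^ (d + 1) : ℝ≥0∞) ≠ ∞ := ENNReal.pow_ne_top (by norm_num)
    have h3 : (2 ^ d : ℝ≥0∞) ≠ ∞ := ENNReal.pow_ne_top (by norm_num)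
    have h4 : (34 ^ d : ℝ≥0∞) ≠ ∞ := ENNReal.pow_ne_top (by norm_num)
    have h5 : (13 : ℝ≥0∞) ≠ ∞ := by norm_num
    exact ENNReal.mul_ne_top h2 (ENNReal.mul_ne_top (ENNReal.natCast_ne_top _)
      (ENNReal.mul_ne_top (ENNReal.mul_ne_top h3 (ENNReal.mul_ne_top h5 h4)) h1))
  refine ⟨(9 ^ (d + 1) * ((shifts d).card * (2 ^ d * (13 * 34 ^ d) * (c0 d)⁻¹)) : ℝ≥0∞).toNNReal, ?_⟩
  intro ν _ θ a ha η k j hcl
  rw [ENNReal.coe_toNNReal hCtop]
  have hθ : θ ≠ ∞ := by
    rintro rfl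
    have h1 := hcl.1
    rw [ENNReal.top_div_of_ne_top (by norm_num), ENNReal.top_mul] at h1
    · exact not_top_lt h1
    · exact (ENNReal.ofReal_pos.2 (pow_pos (sd_pos k) d)).ne'
  have hθ0 : θ ≠ 0 := by
    rintro rfl
    have h1 := hcl.1.trans_le hcl.2
    simp at h1
  have hB := abund_vpB ν hθ0 hθ a k j hcl.2
  have hBm := abund_measB ν (c0 d * θ) a k j
  calc η * ∑' i : Idx d, (if Sub a j i ∧ ¬ Sparse ν (c0 d * θ) a η k i
        then ENNReal.ofReal (sd (k + a) ^ (d + 1)) else 0)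
      = ∑' i : Idx d, η * (if Sub a j i ∧ ¬ Sparse ν (c0 d * θ) a η k i
        then ENNReal.ofReal (sd (k + a) ^ (d + 1)) else 0) := ENNReal.tsum_mul_left.symm
    _ ≤ ∑' i : Idx d, vp d ((Prod.fst ⁻¹' big 4 0 (k + a) i) ∩ abundB ν (c0 d * θ) a k j) := by
        refine ENNReal.tsum_le_tsum fun i => ?_
        by_cases hc : Sub a j i ∧ ¬ Sparse ν (c0 d * θ) a η k i
        · rw [if_pos hc]
          have h1 := hc.2
          rw [Sparse, not_le] at h1
          refine h1.le.trans (measure_mono ?_)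
          rintro p ⟨hp1, hp2, s, hs, hN⟩
          exact ⟨hp1, hp2, s, hs, hN, abund_in_three ha hc.1 hp1 hp2 hs⟩
        · rw [if_neg hc, mul_zero]
          exact zero_le
    _ = ∑' i : Idx d, ∫⁻ p, (big 4 0 (k + a) i).indicator (1 : X d → ℝ≥0∞) p.1 *
          (abundB ν (c0 d * θ) a k j).indicator 1 p ∂(vp d) := by
        congr 1
        ext i
        rw [← lintegral_indicator_one ((measurable_fst (measurableSet_big 4 0 (k + a) i)).inter hBm)]
        refine lintegral_congr fun p => ?_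
        rw [inter_indicator_one]
        rfl
    _ = ∫⁻ p, ∑' i : Idx d, (big 4 0 (k + a) i).indicator (1 : X d → ℝ≥0∞) p.1 *
          (abundB ν (c0 d * θ) a k j).indicator 1 p ∂(vp d) := by
        rw [lintegral_tsum]
        intro i
        have h1 : Measurable fun p : X d × Y d =>
            (big 4 0 (k + a) i).indicator (1 : X d → ℝ≥0∞) p.1 :=
          (measurable_one.indicator (measurableSet_big 4 0 (k + a) i)).comp measurable_fst
        exact (h1.mul (measurable_one.indicator hBm)).aemeasurable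
    _ ≤ ∫⁻ p, 9 ^ (d + 1) * (abundB ν (c0 d * θ) a k j).indicator 1 p ∂(vp d) := by
        refine lintegral_mono fun p => ?_
        rw [ENNReal.tsum_mul_right]
        refine mul_le_mul' ?_ le_rfl
        have h1 := tsum_big_le 4 (0 : X d) (k + a) p.1
        norm_num at h1
        exact h1
    _ = 9 ^ (d + 1) * vp d (abundB ν (c0 d * θ) a k j) := by
        rw [lintegral_const_mul' _ _ (ENNReal.pow_ne_top (by norm_num)), lintegral_indicator_one hBm]
    _ ≤ 9 ^ (d + 1) * ((shifts d).card * (2 ^ d * (13 * 34 ^ d) * (c0 d)⁻¹) *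
        (ENNReal.ofReal (sd (k + a)) * ENNReal.ofReal (sd k ^ d))) := mul_le_mul' le_rfl hB
    _ = _ := by
        have h1 : ENNReal.ofReal (sd (k + a)) * ENNReal.ofReal (sd k ^ d) =
            ENNReal.ofReal (sd a * sd k ^ (d + 1)) := by
          rw [← ENNReal.ofReal_mul (sd_pos (k + a)).le, sd_add]
          congr 1
          ring
        rw [h1]
        ring

end BDJ
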