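import Pool.Agent.BDJ.MIBD

/-!
# No oscillation and zero density imply approximate continuity (row ACONT)

Let `x ∈ Ω`, `m(ball x r)/r^d → 0`, and `x ∉ SOsc S Ω u lam` for every `lam > 0`: for every `lam > 0` there is `k0` with `‖P_K y - P_k y‖ ≤ lam` for all `K ≥ k ≥ k0`, `y ∈ cube_K(x)`, where `P_k = SPQ S u k (idx 0 k x)`.

* `y = x`: `P_k(x)` is a Cauchy sequence (`V` is complete); `z` = limit.
* For `r > 0` small choose `k` with `sd (k+1) ≤ r < sd k` (so `ball x r ⊆ 3Q := bx ((j-1) sd k) (3 sd k)`, `j = idx 0 k x`, `Q = cube 0 k j`). `kp_bd` on the box `3Q`: `∫_{3Q} ‖u - P3‖ ≤ C sd k m(9Q)`, `P3 = S.P u` on `3Q`, `9Q ⊆ ball x (6 sd k)`;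
  `P_lip`, `P_id` on `Q`: `‖P_k - P3‖ ≤ C sd k^(-n) ∫_Q ‖u - P3‖ ≤ C m(9Q)/sd k^d` on `Q`; so by `S.af` (`κ = 1`) the same (larger constant) on `3Q`.
* Fix `lam > 0`, `k1 ≥ k0(lam)`. For all `k ≥ k1`: `‖P_k - P_{k1}‖ ≤ lam` on `Q_k`, so `≤ C lam` on `3Q_k` by `S.af`; `P_{k1}` is continuous at `x`, so `‖P_{k1} y - P_{k1} x‖ ≤ lam` for `y ∈ 3Q_k`, `k` large; and `‖P_{k1} x - z‖ ≤ lam`.
  Hence `‖P_k y - z‖ ≤ (C + 2) lam` on `3Q_k` for `k` large, that is `sup_{3Q_k} ‖P_k - z‖ → 0`.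
  So `avg_{3Q} ‖u - z‖ ≤ C m(ball x (6 sd k))/sd k^d + sup_{3Q} ‖P_k - z‖ → 0`, and `|3Q|/|ball x r| ≤ 3^n` (`|ball x r| = (2r)^n`). For `k` large `9Q ⊆ Ω`.
-/

open MeasureTheory Set Filter
open scoped ENNReal NNReal Topology

namespace BDJ

variable {d : ℕ} {V : Type*} [NormedAddCommGroup V] [NormedSpace ℝ V]

/-- lower corner of the cube of level `k` containing `x` -/
noncomputable def acont_c (x : X d) (k : ℕ) : X d := fun i => (idx 0 k x i : ℝ) * sd k

/-- the threefold enlargement -/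
def acont_T (x : X d) (k : ℕ) : Set (X d) := bx (fun i => acont_c x k i - sd k) (3 * sd k)

theorem acont_mem (x : X d) (k : ℕ) (i : Fin (d + 1)) :
    acont_c x k i ≤ x i ∧ x i < acont_c x k i + sd k := by
  have h := mem_cube_idx (0 : X d) k x i
  unfold acont_c
  constructor
  · have := h.1
    simp only [Pi.zero_apply, zero_add] at this
    exact this
  · have := h.2
    simp only [Pi.zero_apply, zero_add] at this
    linarith

theorem acont_cube (x : X d) (k : ℕ) : cube 0 k (idx 0 k x) = bx (acont_c x k) (sd k) := by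
  rw [cube_eq_bx]
  congr 1
  funext i
  simp [acont_c]

theorem acont_sub (x : X d) (k : ℕ) : bx (acont_c x k) (sd k) ⊆ acont_T x k := by
  intro y hy i
  have h := hy i
  have := sd_pos k
  constructor <;> linarith

theorem acont_T_ball (x : X d) (k : ℕ) : acont_T x k ⊆ Metric.ball x (3 * sd k) := by
  intro y hy
  have hs := sd_pos k
  rw [Metric.mem_ball, dist_pi_lt_iff (by linarith)]
  intro i
  have h1 := hy i
  have h2 := acont_mem x k i
  rw [Real.dist_eq, abs_lt]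
  constructor <;> linarith

theorem acont_T_norm {x : X d} {k : ℕ} {y : X d} (hy : y ∈ acont_T x k) :
    ‖y - acont_c x k‖ ≤ 2 * sd k := by
  have hs := sd_pos k
  rw [pi_norm_le_iff_of_nonneg (by linarith)]
  intro i
  have h1 := hy i
  rw [Pi.sub_apply, Real.norm_eq_abs, abs_le]
  constructor <;> linarith

theorem acont_N_ball (x : X d) (k : ℕ) :
    bx (fun i => (acont_c x k i - sd k) - 3 * sd k) (3 * (3 * sd k)) ⊆ Metric.ball x (6 * sd k) := by
  intro y hy
  have hs := sd_pos k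
  rw [Metric.mem_ball, dist_pi_lt_iff (by linarith)]
  intro i
  have h1 := hy i
  have h2 := acont_mem x k i
  rw [Real.dist_eq, abs_lt]
  constructor <;> linarith

theorem acont_ball_T {x : X d} {k : ℕ} {r : ℝ} (hr : r ≤ sd k) : Metric.ball x r ⊆ acont_T x k := by
  intro y hy i
  have h2 := acont_mem x k i
  have h3 : dist (y i) (x i) < r := lt_of_le_of_lt (dist_le_pi_dist y x i) hy
  rw [Real.dist_eq, abs_lt] at h3
  constructor <;> linarith

theorem acont_sd_tendsto : Tendsto (fun k : ℕ => sd k) atTop (𝓝 0) :=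
  tendsto_pow_atTop_nhds_zero_of_lt_one (by norm_num) (by norm_num)

theorem acont_sd_mul (a : ℝ) (ha : 0 < a) : Tendsto (fun k : ℕ => a * sd k) atTop (𝓝[>] 0) := by
  refine tendsto_nhdsWithin_iff.2 ⟨?_, Eventually.of_forall fun k => mul_pos ha (sd_pos k)⟩
  have := acont_sd_tendsto.const_mul a
  rwa [mul_zero] at this

/-- tendsto to zero in `ℝ≥0∞` -/
theorem acont_tendsto {l : Filter ℝ} {f : ℝ → ℝ≥0∞}
    (h : ∀ ε : ℝ, 0 < ε → ∀ᶠ r in l, f r ≤ ENNReal.ofReal ε) : Tendsto f l (𝓝 0) := by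
  rw [ENNReal.tendsto_nhds_zero]
  intro ε hε
  rcases eq_or_ne ε ⊤ with rfl | htop
  · exact Eventually.of_forall fun _ => le_top
  · have := h ε.toReal (ENNReal.toReal_pos hε.ne' htop)
    rwa [ENNReal.ofReal_toReal htop] at this

theorem acont_integrable {p : X d → V} (hp : Continuous p) (c : X d) (l : ℝ) : IntegrableOn p (bx c l) := by
  have h1 : bx c l ⊆ Icc c (fun i => c i + l) := fun y hy => ⟨fun i => (hy i).1, fun i => (hy i).2.le⟩
  exact (hp.continuousOn.integrableOn_compact isCompact_Icc).mono_set h1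

variable [FiniteDimensional ℝ V]

/-- `∫_{3Q} ‖u - P3‖` is small -/
theorem acont_J (S : Slicing d V) {Ω : Set (X d)} {u : X d → V} {m : Measure (X d)} (hu : SBV S Ω u m) {x : X d} (hx : x ∈ Ω)
    (h1 : Tendsto (fun r : ℝ => m (Metric.ball x r) / ENNReal.ofReal (r ^ d)) (𝓝[>] 0) (𝓝 0))
    {τ : ℝ} (hτ : 0 < τ) : ∀ᶠ k in atTop,
      Metric.ball x (6 * sd k) ⊆ Ω ∧
      ∫⁻ y in acont_T x k, ENNReal.ofReal ‖u y - S.P u (fun i => acont_c x k i - sd k) (3 * sd k) y‖ ≤
        ENNReal.ofReal (τ * sd k ^ (d + 1)) := by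
  obtain ⟨C, hC⟩ := kp_bd S
  obtain ⟨ε, hε, hball⟩ := Metric.isOpen_iff.1 hu.isOpen x hx
  set δ : ℝ := τ / (3 * 6 ^ d * ((C : ℝ) + 1)) with hδ
  have hC0 : (0 : ℝ) ≤ C := C.coe_nonneg
  have hδ0 : 0 < δ := by positivity
  have hev := (acont_sd_mul 6 (by norm_num)).eventually
    (h1.eventually (gt_mem_nhds (ENNReal.ofReal_pos.2 hδ0)))
  have hsm : ∀ᶠ k in atTop, 6 * sd k < ε := by
    have := (acont_sd_mul 6 (by norm_num)).mono_right (nhdsWithin_le_nhds)
    exact this.eventually (gt_mem_nhds hε)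
  filter_upwards [hev, hsm] with k hk hk2
  have hs := sd_pos k
  have hsub : Metric.ball x (6 * sd k) ⊆ Ω := (Metric.ball_subset_ball hk2.le).trans hball
  refine ⟨hsub, ?_⟩
  have h2 := hC hu (fun i => acont_c x k i - sd k) (3 * sd k) (by linarith)
    ((acont_N_ball x k).trans hsub)
  have h3 : m (Metric.ball x (6 * sd k)) ≤ ENNReal.ofReal δ * ENNReal.ofReal ((6 * sd k) ^ d) :=
    (ENNReal.div_le_iff (ENNReal.ofReal_pos.2 (by positivity)).ne' ENNReal.ofReal_ne_top).1 hk.le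
  refine h2.trans ?_
  calc (C : ℝ≥0∞) * ENNReal.ofReal (3 * sd k) *
        m (bx (fun i => (acont_c x k i - sd k) - 3 * sd k) (3 * (3 * sd k)))
      ≤ (C : ℝ≥0∞) * ENNReal.ofReal (3 * sd k) * (ENNReal.ofReal δ * ENNReal.ofReal ((6 * sd k) ^ d)) := by
        gcongr
        exact (measure_mono (acont_N_ball x k)).trans h3
    _ = ENNReal.ofReal ((C : ℝ) * (3 * sd k) * (δ * (6 * sd k) ^ d)) := by
        rw [ENNReal.ofReal_mul (p := (C : ℝ) * (3 * sd k)) (by positivity),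
          ENNReal.ofReal_mul (p := (C : ℝ)) hC0, ENNReal.ofReal_coe_nnreal,
          ENNReal.ofReal_mul (p := δ) hδ0.le]
    _ ≤ ENNReal.ofReal (τ * sd k ^ (d + 1)) := by
        refine ENNReal.ofReal_le_ofReal ?_
        have e1 : (C : ℝ) * (3 * sd k) * (δ * (6 * sd k) ^ d) = (C * (3 * 6 ^ d * δ)) * sd k ^ (d + 1) := by
          rw [mul_pow]
          ring
        have e2 : (C : ℝ) * (3 * 6 ^ d * δ) ≤ τ := by
          have e3 : ((C : ℝ) + 1) * (3 * 6 ^ d * δ) = τ := by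
            rw [hδ]
            field_simp
          have e4 : (0 : ℝ) ≤ 3 * 6 ^ d * δ := by positivity
          nlinarith
        rw [e1]
        gcongr

theorem approx_cont (S : Slicing d V) {Ω : Set (X d)} {u : X d → V} {m : Measure (X d)} (hu : SBV S Ω u m) {x : X d} (hx : x ∈ Ω) (h1 : x ∉ Th Ω m)
    (h2 : ∀ lam : ℝ, 0 < lam → x ∉ SOsc S Ω u lam) : x ∉ Su Ω u := by
  have : CompleteSpace V := FiniteDimensional.complete ℝ V
  have h1' : Tendsto (fun r : ℝ => m (Metric.ball x r) / ENNReal.ofReal (r ^ d)) (𝓝[>] 0) (𝓝 0) := by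
    by_contra h
    exact h1 ⟨hx, h⟩
  set P : ℕ → X d → V := fun k => SPQ S u k (idx 0 k x) with hP
  have hosc : ∀ lam : ℝ, 0 < lam → ∃ k0 : ℕ, ∀ k K : ℕ, k0 ≤ k → k ≤ K →
      ∀ y ∈ cube 0 K (idx 0 K x), ‖P K y - P k y‖ ≤ lam := by
    intro lam hlam
    by_contra hcon
    push Not at hcon
    apply h2 lam hlam
    refine ⟨hx, fun k0 => ?_⟩
    obtain ⟨k, K, hk, hK, y, hy, hlt⟩ := hcon k0
    exact ⟨k, K, hk, hK, y, hy, hlt⟩
  -- the limit
  have hcau : CauchySeq fun k => P k x := by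
    rw [Metric.cauchySeq_iff']
    intro ε hε
    obtain ⟨k0, hk0⟩ := hosc (ε / 2) (by linarith)
    refine ⟨k0, fun n hn => ?_⟩
    have := hk0 k0 n le_rfl hn x (mem_cube_idx 0 n x)
    rw [dist_eq_norm]
    linarith
  obtain ⟨z, hz⟩ := cauchySeq_tendsto_of_complete hcau
  obtain ⟨Ca, hCa, haf⟩ := S.af 1 2 one_pos
  -- the rigid maps are close to each other on the threefold enlargement
  have hafT : ∀ (k : ℕ) (q : X d → V), q ∈ S.R → ∀ T : ℝ, (∀ y ∈ bx (acont_c x k) (sd k), ‖q y‖ ≤ T) →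
      ∀ y ∈ acont_T x k, ‖q y‖ ≤ Ca * T := by
    intro k q hq T hT y hy
    refine haf (acont_c x k) (sd k) (sd_pos k) q hq T ?_ y (acont_T_norm hy)
    rw [ENNReal.ofReal_one, one_mul]
    exact measure_mono fun w hw => ⟨hw, hT w hw⟩
  have hPR : ∀ k, P k ∈ S.R := fun k => S.P_mem _ _ _
  -- convergence to `z` on the threefold enlargement
  have hconv : ∀ lam : ℝ, 0 < lam → ∀ᶠ k in atTop, ∀ y ∈ acont_T x k, ‖P k y - z‖ ≤ (Ca + 2) * lam := by
    intro lam hlam
    obtain ⟨k1, hk1⟩ := hosc lam hlam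
    have hz1 : ‖P k1 x - z‖ ≤ lam := by
      have h3 : Tendsto (fun K => ‖P K x - P k1 x‖) atTop (𝓝 ‖z - P k1 x‖) := (hz.sub_const _).norm
      rw [norm_sub_rev]
      refine le_of_tendsto h3 ?_
      filter_upwards [eventually_ge_atTop k1] with K hK
      exact hk1 k1 K le_rfl hK x (mem_cube_idx 0 K x)
    have hct : ContinuousAt (P k1) x := (S.R_cont _ (hPR k1)).continuousAt
    obtain ⟨ρ, hρ, hρ'⟩ := Metric.continuousAt_iff.1 hct lam hlam
    have hsm : ∀ᶠ k in atTop, 3 * sd k < ρ := by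
      have := (acont_sd_mul 3 (by norm_num)).mono_right (nhdsWithin_le_nhds)
      exact this.eventually (gt_mem_nhds hρ)
    filter_upwards [hsm, eventually_ge_atTop k1] with k hk hkk y hy
    have e1 : ‖P k y - P k1 y‖ ≤ Ca * lam := by
      refine hafT k (fun y => P k y - P k1 y) (S.R_sub _ (hPR k) _ (hPR k1)) lam ?_ y hy
      intro w hw
      rw [← acont_cube] at hw
      exact hk1 k1 k le_rfl hkk w hw
    have e2 : ‖P k1 y - P k1 x‖ ≤ lam := by
      have h4 : dist y x < ρ := lt_trans (Metric.mem_ball.1 (acont_T_ball x k hy)) hk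
      have := hρ' h4
      rw [dist_eq_norm] at this
      exact this.le
    have e3 : P k y - z = (P k y - P k1 y) + (P k1 y - P k1 x) + (P k1 x - z) := by abel
    rw [e3]
    calc ‖(P k y - P k1 y) + (P k1 y - P k1 x) + (P k1 x - z)‖
        ≤ ‖P k y - P k1 y‖ + ‖P k1 y - P k1 x‖ + ‖P k1 x - z‖ := norm_add₃_le
      _ ≤ Ca * lam + lam + lam := by linarith
      _ = (Ca + 2) * lam := by ring
  -- the averages over the threefold enlargement
  have hA : ∀ ε : ℝ, 0 < ε → ∀ᶠ k in atTop,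
      ∫⁻ y in acont_T x k, ENNReal.ofReal ‖u y - z‖ ≤ ENNReal.ofReal (ε * sd k ^ (d + 1)) := by
    intro ε hε
    set K0 : ℝ := 1 + 3 ^ (d + 1) * (Ca * |S.CP| + (Ca + 2)) with hK0
    have hK0pos : 0 < K0 := by positivity
    set lam : ℝ := ε / K0 with hlam
    have hlam0 : 0 < lam := div_pos hε hK0pos
    filter_upwards [hconv lam hlam0, acont_J S hu hx h1' hlam0] with k hk1 hk2
    obtain ⟨hsub, hJ⟩ := hk2
    have hs := sd_pos k
    set P3 := S.P u (fun i => acont_c x k i - sd k) (3 * sd k) with hP3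
    have hP3R : P3 ∈ S.R := S.P_mem _ _ _
    have hQsub : bx (acont_c x k) (sd k) ⊆ Ω :=
      ((acont_sub x k).trans (acont_T_ball x k)).trans
        ((Metric.ball_subset_ball (by linarith)).trans hsub)
    have hint : IntegrableOn u (bx (acont_c x k) (sd k)) := hu.integ.mono_set hQsub
    have hint3 : IntegrableOn P3 (bx (acont_c x k) (sd k)) := acont_integrable (S.R_cont _ hP3R) _ _
    have hI : ∫ y in bx (acont_c x k) (sd k), ‖u y - P3 y‖ ≤ lam * sd k ^ (d + 1) := by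
      have hi2 : Integrable (fun y => u y - P3 y) (volume.restrict (bx (acont_c x k) (sd k))) :=
        hint.sub hint3
      rw [integral_eq_lintegral_of_nonneg_ae (Eventually.of_forall fun _ => norm_nonneg _)
        hi2.norm.aestronglyMeasurable]
      refine ENNReal.toReal_le_of_le_ofReal (by positivity) ?_
      exact (lintegral_mono_set (acont_sub x k)).trans hJ
    have hclose : ∀ y ∈ bx (acont_c x k) (sd k), ‖P k y - P3 y‖ ≤ |S.CP| * lam := by
      intro y hy
      have h3 := S.P_lip u P3 (acont_c x k) (sd k) hs hint hint3 y hy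
      rw [S.P_id P3 hP3R _ _ hs] at h3
      have h4 : (sd k ^ (d + 1))⁻¹ * ∫ y in bx (acont_c x k) (sd k), ‖u y - P3 y‖ ≤ lam := by
        rw [inv_mul_le_iff₀ (by positivity), mul_comm]
        exact hI
      have h5 : (0 : ℝ) ≤ (sd k ^ (d + 1))⁻¹ * ∫ y in bx (acont_c x k) (sd k), ‖u y - P3 y‖ :=
        mul_nonneg (by positivity) (integral_nonneg fun _ => norm_nonneg _)
      calc ‖P k y - P3 y‖ ≤ S.CP * ((sd k ^ (d + 1))⁻¹ * ∫ y in bx (acont_c x k) (sd k), ‖u y - P3 y‖) := h3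
        _ ≤ |S.CP| * ((sd k ^ (d + 1))⁻¹ * ∫ y in bx (acont_c x k) (sd k), ‖u y - P3 y‖) :=
          mul_le_mul_of_nonneg_right (le_abs_self _) h5
        _ ≤ |S.CP| * lam := mul_le_mul_of_nonneg_left h4 (abs_nonneg _)
    have hclose3 : ∀ y ∈ acont_T x k, ‖P k y - P3 y‖ ≤ Ca * (|S.CP| * lam) :=
      hafT k (fun y => P k y - P3 y) (S.R_sub _ (hPR k) _ hP3R) _ hclose
    set B : ℝ := Ca * (|S.CP| * lam) + (Ca + 2) * lam with hB
    have hB0 : 0 ≤ B := by positivity
    have hpt : ∀ y ∈ acont_T x k, ENNReal.ofReal ‖u y - z‖ ≤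
        ENNReal.ofReal ‖u y - P3 y‖ + ENNReal.ofReal B := by
      intro y hy
      rw [← ENNReal.ofReal_add (norm_nonneg _) hB0]
      refine ENNReal.ofReal_le_ofReal ?_
      have e3 : u y - z = (u y - P3 y) + -(P k y - P3 y) + (P k y - z) := by abel
      rw [e3]
      calc ‖(u y - P3 y) + -(P k y - P3 y) + (P k y - z)‖
          ≤ ‖u y - P3 y‖ + ‖-(P k y - P3 y)‖ + ‖P k y - z‖ := norm_add₃_le
        _ ≤ ‖u y - P3 y‖ + B := by
          rw [norm_neg, hB]
          have a1 := hclose3 y hy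
          have a2 := hk1 y hy
          linarith
    have hmeas : MeasurableSet (acont_T x k) := measurableSet_bx _ _
    have hvol : volume (acont_T x k) = ENNReal.ofReal ((3 * sd k) ^ (d + 1)) :=
      volume_bx _ (by linarith)
    calc ∫⁻ y in acont_T x k, ENNReal.ofReal ‖u y - z‖
        ≤ ∫⁻ y in acont_T x k, (ENNReal.ofReal ‖u y - P3 y‖ + ENNReal.ofReal B) :=
          setLIntegral_mono' hmeas hpt
      _ = (∫⁻ y in acont_T x k, ENNReal.ofReal ‖u y - P3 y‖) + ENNReal.ofReal B * volume (acont_T x k) := by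
          rw [lintegral_add_right _ measurable_const, setLIntegral_const]
      _ ≤ ENNReal.ofReal (lam * sd k ^ (d + 1)) + ENNReal.ofReal B * ENNReal.ofReal ((3 * sd k) ^ (d + 1)) := by
          rw [hvol]
          gcongr
      _ = ENNReal.ofReal (ε * sd k ^ (d + 1)) := by
          rw [← ENNReal.ofReal_mul hB0, ← ENNReal.ofReal_add (by positivity) (by positivity)]
          congr 1
          have e5 : ε = K0 * lam := by
            rw [hlam]
            field_simp
          rw [e5, hB, hK0, mul_pow]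
          ring
  -- conclusion
  rintro ⟨-, hno⟩
  apply hno
  refine ⟨z, acont_tendsto fun ε hε => ?_⟩
  obtain ⟨N, hN⟩ := eventually_atTop.1 (hA ε hε)
  have hsN := sd_pos N
  filter_upwards [Ioo_mem_nhdsGT hsN] with r hr
  obtain ⟨k, hk1, hk2⟩ := exists_nat_pow_near_of_lt_one hr.1 (hr.2.le.trans (sd_le_one N))
    (by norm_num : (0 : ℝ) < 1 / 2) (by norm_num : (1 / 2 : ℝ) < 1)
  have hk1' : sd (k + 1) < r := hk1
  have hk2' : r ≤ sd k := hk2
  have hkN : N ≤ k := by
    by_contra h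
    have : sd N ≤ sd (k + 1) := sd_anti (by omega)
    linarith [hr.2]
  have hs := sd_pos k
  have hvol : ENNReal.ofReal (sd k ^ (d + 1)) ≤ volume (Metric.ball x r) := by
    rw [Real.volume_pi_ball x hr.1, Fintype.card_fin]
    refine ENNReal.ofReal_le_ofReal ?_
    have : sd k ≤ 2 * r := by
      rw [sd_succ] at hk1'
      linarith
    gcongr
  have hpos : ENNReal.ofReal (sd k ^ (d + 1)) ≠ 0 := (ENNReal.ofReal_pos.2 (by positivity)).ne'
  calc (volume (Metric.ball x r))⁻¹ * ∫⁻ y in Metric.ball x r, ENNReal.ofReal ‖u y - z‖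
      ≤ (ENNReal.ofReal (sd k ^ (d + 1)))⁻¹ * ENNReal.ofReal (ε * sd k ^ (d + 1)) := by
        gcongr
        exact (lintegral_mono_set (acont_ball_T hk2')).trans (hN k hkN)
    _ = ENNReal.ofReal ε := by
        rw [ENNReal.ofReal_mul hε.le, mul_comm (ENNReal.ofReal ε), ← mul_assoc,
          ENNReal.inv_mul_cancel hpos ENNReal.ofReal_ne_top, one_mul]

end BDJ
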