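import Pool.Agent.BDJ.Grid

/-!
# Linear algebra: a rigid motion from approximate data at the vertices of a simplex (row LA)

`zref 0 = 0`, `zref i = i e_0 + (1/2) e_i` for `1 ≤ i ≤ d`, `zref (d+1) = (d+1) e_0` (coordinates `0..d`). The vertices `y i` are within `δ al` of `o + al zref i`.

(a) For every vector `η` with `|η . (y i - y 0)| ≤ D` for all `i`: `‖η‖ ≤ C D / al`. Indeed with `y (d+1) - y 0 = (d+1) al e_0 + O(2 δ al)`:
`|η_0| (d+1) al ≤ D + 2 δ al |η|_1`; and `y i - y 0 = i al e_0 + (al/2) e_i + O(2 δ al)`: `(al/2) |η_i| ≤ D + i al |η_0| + 2 δ al |η|_1`. Sum up, for `δ` small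
(depending on `d`) absorb.
(b) For every linear `S` symmetric (dot (S v) w = dot v (S w)) with `|dot (S (y i - y j)) (y i - y j)| ≤ D` for all `i, j`: with `v i = y i - y 0`, polarisation gives
`|dot (S (v i)) (v j)| ≤ 3 D / 2`; by (a) `‖S (v j)‖ ≤ C D / al`, and again by (a) (`dot (S e) (v j) = dot e (S (v j))`), `‖S e‖ ≤ C² D/al²` for unit coordinate vectors `e`.
(c) Let `A` be the linear map with `A (y i - y 0) = U i - U 0` for `i = 1..d+1` (the vectors `y i - y 0`, `i ≥ 1`, are a basis by (a)); `S` = symmetric part, `K = A - S` skew.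
`|dot (S (y i - y j)) (y i - y j)| = |dot (U i - U j) (y i - y j)| ≤ D al`, so `‖S e‖ ≤ C D / al`. Put `p x = U 0 + K (x - y 0)`: rigid, `‖U i - p (y i)‖ = ‖S (y i - y 0)‖ ≤ C D`.
(d) For `x`, `v`: `dot (v - p x) (x - y i) = dot (v - U i) (x - y i) + dot (U i - p (y i)) (x - y i) + dot (p (y i) - p x) (x - y i)`, the last term is `0`, the others are
`≤ B al` and `≤ C D al` (as `‖x - y i‖ ≤ C al`). Differences: `|dot (v - p x) (y i - y 0)| ≤ C (B + D) al`, so (a) gives the claim.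
-/

open MeasureTheory Set
open scoped ENNReal NNReal

namespace BDJ

theorem la_dot {d : ℕ} (u v : X d) : dot u v = u ⬝ᵥ v := rfl

theorem la_dot_le {d : ℕ} (u v : X d) : |u ⬝ᵥ v| ≤ (d + 1) * ‖u‖ * ‖v‖ := by
  unfold dotProduct
  calc |∑ i, u i * v i| ≤ ∑ i, |u i * v i| := Finset.abs_sum_le_sum_abs _ _
    _ ≤ ∑ _i : Fin (d + 1), ‖u‖ * ‖v‖ := by
        refine Finset.sum_le_sum fun i _ => ?_
        rw [abs_mul]
        exact mul_le_mul (norm_le_pi_norm u i) (norm_le_pi_norm v i) (abs_nonneg _) (norm_nonneg _)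
    _ = (d + 1) * ‖u‖ * ‖v‖ := by
        rw [Finset.sum_const, Finset.card_univ, Fintype.card_fin, nsmul_eq_mul]
        push_cast
        ring

/-- the scaled form of (a) -/
theorem la_a0 (d : ℕ) (w : Fin (d + 2) → X d)
    (hw : ∀ i c, |w i c - zref i c| ≤ 2 * (1 / (16 * ((d : ℝ) + 2) ^ 2))) (η : X d) (D : ℝ)
    (hη : ∀ i, |η ⬝ᵥ w i| ≤ D) : ‖η‖ ≤ 4 * (d + 2) * D := by
  have hd : (0 : ℝ) < (d : ℝ) + 2 := by positivity
  set N := ‖η‖ with hN
  have hN0 : 0 ≤ N := norm_nonneg _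
  have hD0 : 0 ≤ D := (abs_nonneg _).trans (hη 0)
  have hcoord : ∀ c, |η c| ≤ N := fun c => norm_le_pi_norm η c
  set E : ℝ := D + (d + 1) * N * (2 * (1 / (16 * ((d : ℝ) + 2) ^ 2))) with hE
  have hE0 : 0 ≤ E := by positivity
  have h1 : ∀ i, |η ⬝ᵥ zref i| ≤ E := by
    intro i
    have e : η ⬝ᵥ zref i = η ⬝ᵥ w i - η ⬝ᵥ (w i - zref i) := by
      rw [dotProduct_sub]
      ring
    have h2 : |η ⬝ᵥ (w i - zref i)| ≤ (d + 1) * N * (2 * (1 / (16 * ((d : ℝ) + 2) ^ 2))) := by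
      refine (la_dot_le _ _).trans ?_
      refine mul_le_mul_of_nonneg_left ?_ (by positivity)
      rw [pi_norm_le_iff_of_nonneg (by positivity)]
      intro c
      exact hw i c
    rw [e]
    calc |η ⬝ᵥ w i - η ⬝ᵥ (w i - zref i)| ≤ |η ⬝ᵥ w i| + |η ⬝ᵥ (w i - zref i)| := abs_sub _ _
      _ ≤ E := add_le_add (hη i) h2
  -- the value on the reference simplex
  have h2 : |η 0| ≤ E := by
    have h3 := h1 (Fin.last (d + 1))
    have e : η ⬝ᵥ zref (Fin.last (d + 1)) = η 0 * (d + 1) := by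
      unfold dotProduct
      rw [Finset.sum_eq_single (0 : Fin (d + 1))]
      · simp [zref]
      · intro c _ hc
        have h4 : (c : ℕ) ≠ d + 1 := by
          have := c.isLt
          omega
        simp [zref, hc, h4]
      · intro h
        exact absurd (Finset.mem_univ _) h
    rw [e, abs_mul] at h3
    have h5 : (1 : ℝ) ≤ |(d : ℝ) + 1| := by
      rw [abs_of_nonneg (by positivity)]
      have : (0 : ℝ) ≤ d := Nat.cast_nonneg d
      linarith
    calc |η 0| = |η 0| * 1 := (mul_one _).symm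
      _ ≤ |η 0| * |(d : ℝ) + 1| := mul_le_mul_of_nonneg_left h5 (abs_nonneg _)
      _ ≤ E := h3
  have h3 : ∀ c : Fin (d + 1), |η c| ≤ 2 * (d + 2) * E := by
    intro c
    by_cases hc : c = 0
    · rw [hc]
      refine h2.trans ?_
      have : (0 : ℝ) ≤ d := Nat.cast_nonneg d
      nlinarith
    · have h4 := h1 c.castSucc
      have e : η ⬝ᵥ zref c.castSucc = η 0 * (c : ℕ) + η c * (1 / 2) := by
        unfold dotProduct
        rw [← Finset.sum_subset (Finset.subset_univ ({0, c} : Finset (Fin (d + 1))))]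
        · rw [Finset.sum_pair (Ne.symm hc)]
          simp [zref, hc]
        · intro x _ hx
          simp only [Finset.mem_insert, Finset.mem_singleton, not_or] at hx
          have h5 : (x : ℕ) ≠ (c : ℕ) := fun h => hx.2 (Fin.ext h)
          simp [zref, hx.1, h5]
      rw [e] at h4
      have h6 : ((c : ℕ) : ℝ) ≤ d := by
        have := c.isLt
        exact_mod_cast (by omega : (c : ℕ) ≤ d)
      have h7 : |η 0 * ((c : ℕ) : ℝ)| ≤ E * d := by
        rw [abs_mul, abs_of_nonneg (Nat.cast_nonneg (α := ℝ) (c : ℕ))]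
        exact mul_le_mul h2 h6 (Nat.cast_nonneg _) hE0
      have h8 : |η c * (1 / 2)| ≤ E + E * d := by
        have : η c * (1 / 2) = (η 0 * ((c : ℕ) : ℝ) + η c * (1 / 2)) - η 0 * ((c : ℕ) : ℝ) := by ring
        rw [this]
        exact (abs_sub _ _).trans (add_le_add h4 h7)
      rw [abs_mul, abs_of_nonneg (by norm_num : (0 : ℝ) ≤ 1 / 2)] at h8
      have : (0 : ℝ) ≤ d := Nat.cast_nonneg d
      nlinarith
  have h4 : N ≤ 2 * (d + 2) * E := by
    rw [hN, pi_norm_le_iff_of_nonneg (by positivity)]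
    exact h3
  have h5 : 2 * ((d : ℝ) + 2) * ((d + 1) * N * (2 * (1 / (16 * ((d : ℝ) + 2) ^ 2)))) ≤ N / 4 := by
    have e : 2 * ((d : ℝ) + 2) * ((d + 1) * N * (2 * (1 / (16 * ((d : ℝ) + 2) ^ 2)))) =
        (N / 4) * (((d : ℝ) + 1) / (d + 2)) := by
      field_simp
      ring
    rw [e]
    have h6 : ((d : ℝ) + 1) / (d + 2) ≤ 1 := by
      rw [div_le_one hd]
      linarith
    calc N / 4 * (((d : ℝ) + 1) / (d + 2)) ≤ N / 4 * 1 := mul_le_mul_of_nonneg_left h6 (by positivity)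
      _ = N / 4 := mul_one _
  have h6 : N ≤ 2 * (d + 2) * D + N / 4 := by
    calc N ≤ 2 * (d + 2) * E := h4
      _ = 2 * (d + 2) * D + 2 * ((d : ℝ) + 2) * ((d + 1) * N * (2 * (1 / (16 * ((d : ℝ) + 2) ^ 2)))) := by
          rw [hE]; ring
      _ ≤ _ := by linarith
  have h7 : 0 ≤ ((d : ℝ) + 2) * D := by positivity
  linarith

theorem la_a (d : ℕ) {al : ℝ} (hal : 0 < al) {o : X d} {y : Fin (d + 2) → X d}
    (hy : ∀ i c, |y i c - (o c + al * zref i c)| ≤ 1 / (16 * ((d : ℝ) + 2) ^ 2) * al) (η : X d) (D : ℝ)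
    (hη : ∀ i, |η ⬝ᵥ (y i - y 0)| ≤ D * al) : ‖η‖ ≤ 4 * (d + 2) * D := by
  refine la_a0 d (fun i => al⁻¹ • (y i - y 0)) ?_ η D ?_
  · intro i c
    have h1 := hy i c
    have h2 := hy 0 c
    have hz : (zref (d := d) 0) c = 0 := by
      by_cases hc : c = 0
      · simp [zref, hc]
      · simp [zref, hc]
    have e : (al⁻¹ • (y i - y 0)) c - zref i c =
        al⁻¹ * ((y i c - (o c + al * zref i c)) - (y 0 c - (o c + al * (zref (d := d) 0) c))) := by
      rw [hz, Pi.smul_apply, Pi.sub_apply, smul_eq_mul]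
      field_simp
      ring
    rw [e, abs_mul, abs_of_nonneg (inv_nonneg.2 hal.le)]
    calc al⁻¹ * |(y i c - (o c + al * zref i c)) - (y 0 c - (o c + al * (zref (d := d) 0) c))|
        ≤ al⁻¹ * (1 / (16 * ((d : ℝ) + 2) ^ 2) * al + 1 / (16 * ((d : ℝ) + 2) ^ 2) * al) := by
          refine mul_le_mul_of_nonneg_left ?_ (inv_nonneg.2 hal.le)
          exact (abs_sub _ _).trans (add_le_add h1 h2)
      _ = 2 * (1 / (16 * ((d : ℝ) + 2) ^ 2)) := by
          field_simp
          ring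
  · intro i
    rw [dotProduct_smul, smul_eq_mul, abs_mul, abs_of_nonneg (inv_nonneg.2 hal.le)]
    calc al⁻¹ * |η ⬝ᵥ (y i - y 0)| ≤ al⁻¹ * (D * al) :=
          mul_le_mul_of_nonneg_left (hη i) (inv_nonneg.2 hal.le)
      _ = D := by field_simp

theorem la_norm (d : ℕ) {al : ℝ} (hal : 0 < al) {o : X d} {y : Fin (d + 2) → X d}
    (hy : ∀ i c, |y i c - (o c + al * zref i c)| ≤ 1 / (16 * ((d : ℝ) + 2) ^ 2) * al) (i : Fin (d + 2)) :
    ‖y i - y 0‖ ≤ (d + 2) * al := by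
  rw [pi_norm_le_iff_of_nonneg (by positivity)]
  intro c
  have h1 := hy i c
  have h2 := hy 0 c
  have hz : (zref (d := d) 0) c = 0 := by
    by_cases hc : c = 0
    · simp [zref, hc]
    · simp [zref, hc]
  have hz2 : |(zref (d := d) i) c| ≤ d + 1 := by
    have h3 : ((i : ℕ) : ℝ) ≤ d + 1 := by
      have := i.isLt
      exact_mod_cast (by omega : (i : ℕ) ≤ d + 1)
    have h4 : (0 : ℝ) ≤ d := Nat.cast_nonneg d
    unfold zref
    split_ifs
    · rw [abs_of_nonneg (Nat.cast_nonneg (α := ℝ) (i : ℕ))]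
      exact h3
    · rw [abs_of_nonneg (by norm_num)]
      linarith
    · rw [abs_zero]
      linarith
  have h5 : 1 / (16 * ((d : ℝ) + 2) ^ 2) ≤ 1 / 2 := by
    have h4 : (0 : ℝ) ≤ d := Nat.cast_nonneg d
    rw [div_le_div_iff₀ (by positivity) (by norm_num)]
    nlinarith
  rw [Pi.sub_apply, Real.norm_eq_abs]
  have e : y i c - y 0 c = (y i c - (o c + al * zref i c)) - (y 0 c - (o c + al * (zref (d := d) 0) c)) +
      al * (zref (d := d) i) c := by
    rw [hz]; ring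
  rw [e]
  calc _ ≤ |(y i c - (o c + al * zref i c)) - (y 0 c - (o c + al * (zref (d := d) 0) c))| +
        |al * (zref (d := d) i) c| := abs_add_le _ _
    _ ≤ (1 / (16 * ((d : ℝ) + 2) ^ 2) * al + 1 / (16 * ((d : ℝ) + 2) ^ 2) * al) + al * (d + 1) := by
        refine add_le_add ((abs_sub _ _).trans (add_le_add h1 h2)) ?_
        rw [abs_mul, abs_of_nonneg hal.le]
        exact mul_le_mul_of_nonneg_left hz2 hal.le
    _ ≤ (1 / 2 * al + 1 / 2 * al) + al * (d + 1) := by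
        gcongr
    _ = (d + 2) * al := by ring

theorem la (d : ℕ) : ∃ δ : ℝ, 0 < δ ∧ δ ≤ 1 / 16 ∧ ∃ C : ℝ, 1 ≤ C ∧
    ∀ (al : ℝ), 0 < al → ∀ (o : X d) (y : Fin (d + 2) → X d),
    (∀ i c, |y i c - (o c + al * zref i c)| ≤ δ * al) →
    ∀ (U : Fin (d + 2) → X d) (D : ℝ), (∀ i j, |dot (U i - U j) (y i - y j)| ≤ D * al) →
    ∃ p : X d → X d, IsRigid p ∧ ∀ (x v : X d) (B : ℝ),
      (∀ i, |dot (v - U i) (x - y i)| ≤ B * al) → ‖x - y 0‖ ≤ 32 * (d + 2) * al →
      ‖v - p x‖ ≤ C * (B + D) := by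
  have hd : (0 : ℝ) ≤ d := Nat.cast_nonneg d
  set c0 : ℝ := 4 * ((d : ℝ) + 2) with hc0
  have hc01 : 1 ≤ c0 := by rw [hc0]; linarith
  set C1 : ℝ := ((d : ℝ) + 1) * (2 * c0) * (33 * ((d : ℝ) + 2)) with hC1
  have hC11 : 1 ≤ C1 := by
    rw [hC1]
    have h1 : 1 ≤ ((d : ℝ) + 1) * (2 * c0) := by nlinarith
    nlinarith
  refine ⟨1 / (16 * ((d : ℝ) + 2) ^ 2), by positivity, ?_, c0 * (2 * C1), ?_, ?_⟩
  · rw [div_le_div_iff₀ (by positivity) (by norm_num)]
    nlinarith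
  · nlinarith
  intro al hal o y hy U D hU
  have hD0 : 0 ≤ D := by
    have := (abs_nonneg _).trans (hU 0 0)
    exact nonneg_of_mul_nonneg_left this hal
  have ha := fun (η : X d) (D' : ℝ) (h : ∀ i, |η ⬝ᵥ (y i - y 0)| ≤ D' * al) => la_a d hal hy η D' h
  -- the matrix whose rows are the edge vectors
  let V : Matrix (Fin (d + 1)) (Fin (d + 1)) ℝ := fun i => y i.succ - y 0
  have hinj : Function.Injective V.mulVecLin := by
    rw [← LinearMap.ker_eq_bot, LinearMap.ker_eq_bot']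
    intro η hη
    have h1 : ‖η‖ ≤ 4 * (d + 2) * 0 := by
      refine ha η 0 fun i => ?_
      rw [zero_mul]
      refine le_of_eq (abs_eq_zero.2 ?_)
      rcases Fin.eq_zero_or_eq_succ i with rfl | ⟨j, rfl⟩
      · rw [sub_self, dotProduct_zero]
      · have h2 := congrFun hη j
        rw [Matrix.mulVecLin_apply] at h2
        rw [dotProduct_comm]
        exact h2
    rw [mul_zero] at h1
    exact norm_le_zero_iff.1 h1
  have hsurj : Function.Surjective V.mulVecLin := LinearMap.injective_iff_surjective.1 hinj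
  choose M hM using fun c : Fin (d + 1) => hsurj (fun i => (U i.succ - U 0) c)
  -- `A = M *ᵥ _`
  let A : Matrix (Fin (d + 1)) (Fin (d + 1)) ℝ := M
  have hA : ∀ i, A.mulVec (y i - y 0) = U i - U 0 := by
    intro i
    rcases Fin.eq_zero_or_eq_succ i with rfl | ⟨j, rfl⟩
    · rw [sub_self, sub_self, Matrix.mulVec_zero]
    · funext c
      have h2 := congrFun (hM c) j
      rw [Matrix.mulVecLin_apply] at h2
      show M c ⬝ᵥ (y j.succ - y 0) = _
      rw [dotProduct_comm]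
      exact h2
  have hA2 : ∀ i j, A.mulVec (y i - y j) = U i - U j := by
    intro i j
    rw [show y i - y j = (y i - y 0) - (y j - y 0) by abel, Matrix.mulVec_sub, hA, hA]
    abel
  let S : Matrix (Fin (d + 1)) (Fin (d + 1)) ℝ := (1 / 2 : ℝ) • (A + A.transpose)
  let K : Matrix (Fin (d + 1)) (Fin (d + 1)) ℝ := (1 / 2 : ℝ) • (A - A.transpose)
  have hSK : ∀ v : X d, A.mulVec v = S.mulVec v + K.mulVec v := by
    intro v
    rw [← Matrix.add_mulVec]
    congr 1
    show A = (1 / 2 : ℝ) • (A + A.transpose) + (1 / 2 : ℝ) • (A - A.transpose)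
    rw [← smul_add, add_add_sub_cancel, ← two_smul ℝ A, smul_smul]
    norm_num
  have htr : ∀ u v : X d, A.transpose.mulVec u ⬝ᵥ v = u ⬝ᵥ A.mulVec v := by
    intro u v
    rw [Matrix.mulVec_transpose, Matrix.dotProduct_mulVec]
  have hK : ∀ v : X d, K.mulVec v ⬝ᵥ v = 0 := by
    intro v
    show ((1 / 2 : ℝ) • (A - A.transpose)).mulVec v ⬝ᵥ v = 0
    rw [Matrix.smul_mulVec, smul_dotProduct, Matrix.sub_mulVec, sub_dotProduct, htr,
      dotProduct_comm v, sub_self, smul_zero]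
  have hSsymm : ∀ u v : X d, S.mulVec u ⬝ᵥ v = S.mulVec v ⬝ᵥ u := by
    intro u v
    show ((1 / 2 : ℝ) • (A + A.transpose)).mulVec u ⬝ᵥ v = ((1 / 2 : ℝ) • (A + A.transpose)).mulVec v ⬝ᵥ u
    rw [Matrix.smul_mulVec, Matrix.smul_mulVec, smul_dotProduct, smul_dotProduct, Matrix.add_mulVec,
      Matrix.add_mulVec, add_dotProduct, add_dotProduct, htr, htr, dotProduct_comm u, dotProduct_comm v, add_comm]
  have hSq : ∀ i j, |S.mulVec (y i - y j) ⬝ᵥ (y i - y j)| ≤ D * al := by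
    intro i j
    have h1 : S.mulVec (y i - y j) ⬝ᵥ (y i - y j) = (U i - U j) ⬝ᵥ (y i - y j) := by
      rw [← hA2, hSK, add_dotProduct, hK, add_zero]
    rw [h1]
    exact hU i j
  have hSb : ∀ i, ‖S.mulVec (y i - y 0)‖ ≤ c0 * (2 * D) := by
    intro i
    refine ha _ (2 * D) fun j => ?_
    have e : S.mulVec (y i - y 0) ⬝ᵥ (y j - y 0) = 1 / 2 * (S.mulVec (y i - y 0) ⬝ᵥ (y i - y 0) +
        S.mulVec (y j - y 0) ⬝ᵥ (y j - y 0) - S.mulVec (y i - y j) ⬝ᵥ (y i - y j)) := by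
      rw [show y i - y j = (y i - y 0) - (y j - y 0) by abel]
      have h0 := hSsymm (y i - y 0) (y j - y 0)
      generalize y i - y 0 = u at h0 ⊢
      generalize y j - y 0 = w at h0 ⊢
      rw [Matrix.mulVec_sub, sub_dotProduct, dotProduct_sub, dotProduct_sub]
      linear_combination (1 / 2 : ℝ) * h0
    rw [e, abs_mul, abs_of_nonneg (by norm_num : (0 : ℝ) ≤ 1 / 2)]
    have h1 := hSq i 0
    have h2 := hSq j 0
    have h3 := hSq i j
    have h4 := (abs_sub (S.mulVec (y i - y 0) ⬝ᵥ (y i - y 0) + S.mulVec (y j - y 0) ⬝ᵥ (y j - y 0))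
      (S.mulVec (y i - y j) ⬝ᵥ (y i - y j)))
    have h5 := abs_add_le (S.mulVec (y i - y 0) ⬝ᵥ (y i - y 0)) (S.mulVec (y j - y 0) ⬝ᵥ (y j - y 0))
    have h6 : 0 ≤ D * al := by positivity
    linarith
  refine ⟨fun x => U 0 + K.mulVec (x - y 0), ⟨U 0 - K.mulVec (y 0), K.mulVecLin, ?_, ?_⟩, ?_⟩
  · intro v
    exact hK v
  · intro x
    show U 0 + K.mulVec (x - y 0) = _
    rw [Matrix.mulVecLin_apply, Matrix.mulVec_sub]
    abel
  intro x v B hB hx
  have hB0 : 0 ≤ B := by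
    have := (abs_nonneg _).trans (hB 0)
    exact nonneg_of_mul_nonneg_left this hal
  set q : X d := v - (U 0 + K.mulVec (x - y 0)) with hq
  have h1 : ∀ i, |q ⬝ᵥ (x - y i)| ≤ (B + C1 * D) * al := by
    intro i
    have e : q = (v - U i) + (S.mulVec (y i - y 0) - K.mulVec (x - y i)) := by
      have h2 := hA i
      rw [hSK] at h2
      have h3 : K.mulVec (x - y 0) = K.mulVec (x - y i) + K.mulVec (y i - y 0) := by
        rw [← Matrix.mulVec_add]
        congr 1
        abel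
      rw [hq, h3]
      have h4 : U i = U 0 + (S.mulVec (y i - y 0) + K.mulVec (y i - y 0)) := by
        rw [h2]; abel
      rw [h4]
      abel
    have e2 : q ⬝ᵥ (x - y i) = (v - U i) ⬝ᵥ (x - y i) + S.mulVec (y i - y 0) ⬝ᵥ (x - y i) := by
      rw [e, add_dotProduct, sub_dotProduct (S.mulVec (y i - y 0)), hK, sub_zero]
    have h5 : ‖x - y i‖ ≤ 33 * (d + 2) * al := by
      have h6 : x - y i = (x - y 0) - (y i - y 0) := by abel
      rw [h6]
      have h7 := la_norm d hal hy i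
      have h8 := norm_sub_le (x - y 0) (y i - y 0)
      linarith
    rw [e2]
    calc |(v - U i) ⬝ᵥ (x - y i) + S.mulVec (y i - y 0) ⬝ᵥ (x - y i)|
        ≤ |(v - U i) ⬝ᵥ (x - y i)| + |S.mulVec (y i - y 0) ⬝ᵥ (x - y i)| := abs_add_le _ _
      _ ≤ B * al + (d + 1) * (c0 * (2 * D)) * (33 * (d + 2) * al) := by
          refine add_le_add (hB i) ((la_dot_le _ _).trans ?_)
          refine mul_le_mul (mul_le_mul_of_nonneg_left (hSb i) (by positivity)) h5 (norm_nonneg _) ?_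
          positivity
      _ = (B + C1 * D) * al := by rw [hC1]; ring
  have h2 : ‖q‖ ≤ 4 * (d + 2) * (2 * (B + C1 * D)) := by
    refine ha q _ fun i => ?_
    have e : q ⬝ᵥ (y i - y 0) = q ⬝ᵥ (x - y 0) - q ⬝ᵥ (x - y i) := by
      rw [← dotProduct_sub]
      congr 1
      abel
    rw [e]
    have h3 := h1 i
    have h4 := h1 0
    have h5 := abs_sub (q ⬝ᵥ (x - y 0)) (q ⬝ᵥ (x - y i))
    linarith
  calc ‖q‖ ≤ 4 * (d + 2) * (2 * (B + C1 * D)) := h2
    _ = c0 * (2 * (B + C1 * D)) := by rw [hc0]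
    _ ≤ c0 * (2 * (C1 * B + C1 * D)) := by
        have : B ≤ C1 * B := by nlinarith
        have h0 : 0 ≤ c0 := by linarith
        gcongr
    _ = c0 * (2 * C1) * (B + D) := by ring

end BDJ
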