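import Pool.Agent.BDJ.AF

/-!
# Transfer between two boxes (row TR)

`q` rigid. `Φ(w,w') = dot (q w') (w' - w)` is affine in `w` for fixed `w'`, and since `dot (q w') (w' - w) = dot (q w) (w' - w)` (rigidity) it is affine in `w'` for fixed `w`.
Suppose `|Φ| ≤ T l` on a subset `G` of `b × b'` of measure `≥ κ |b| |b'|`. The set `W'` of `w' ∈ b'` such that `|{w ∈ b : (w,w') ∈ G}| ≥ (κ/2) |b|` has measure `≥ (κ/2) |b'|`.
For `w' ∈ W'`, `af` gives `|Φ(w,w')| ≤ C T l` for all `w` with `‖w - c‖ ≤ l`. Then for each such `w` (in particular all `w ∈ b`), `|Φ(w,·)| ≤ C T l` on `W'`, so `af` in `w'` gives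
`|Φ(w,w')| ≤ C² T l` for all `w ∈ b`, `w' ∈ b'`. Taking differences in `w` (in coordinate directions, length `l/2`), `‖q w'‖ ≤ C T` for `w' ∈ b'`, and `af_rigid` extends this to
`‖x - c‖ ≤ R l` (here `‖c - c'‖ ≤ R l`, `l ≤ l' ≤ 2l`).
-/

open MeasureTheory Set
open scoped ENNReal NNReal

namespace BDJ

theorem tr_dot_sub_right {d : ℕ} (u v w : X d) : dot u (v - w) = dot u v + dot (-u) w := by
  unfold dot
  rw [← Finset.sum_add_distrib]
  apply Finset.sum_congr rfl
  intro j _
  rw [Pi.sub_apply, Pi.neg_apply]; ring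

theorem tr_dot_sub_left {d : ℕ} (u v w : X d) : dot (u - v) w = dot u w - dot v w := by
  unfold dot
  rw [← Finset.sum_sub_distrib]
  apply Finset.sum_congr rfl
  intro j _
  rw [Pi.sub_apply]; ring

theorem tr_dot_continuous {d : ℕ} {q : X d → X d} (hq : Continuous q) :
    Continuous fun p : X d × X d => dot (q p.2) (p.2 - p.1) := by
  unfold dot
  apply continuous_finsetSum
  intro i _
  have h1 : Continuous fun p : X d × X d => q p.2 i :=
    (continuous_apply i).comp (hq.comp continuous_snd)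
  have h2 : Continuous fun p : X d × X d => (p.2 - p.1) i :=
    (continuous_apply i).comp (continuous_snd.sub continuous_fst)
  exact h1.mul h2

/-- many good second coordinates -/
theorem tr_fubini {d : ℕ} {κ : ℝ} (hκ : 0 < κ) {c c' : X d} {l l' : ℝ} (hl : 0 < l) (hl' : 0 < l')
    (F : X d × X d → ℝ) (hF : Continuous F) (T : ℝ)
    (hm : ENNReal.ofReal κ * (volume (bx c l) * volume (bx c' l')) ≤
      (volume.prod volume) {p : X d × X d | p.1 ∈ bx c l ∧ p.2 ∈ bx c' l' ∧ |F p| ≤ T}) :
    ENNReal.ofReal (κ / 2) * volume (bx c' l') ≤ volume {w' ∈ bx c' l' |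
      ENNReal.ofReal (κ / 2) * volume (bx c l) ≤ volume {w ∈ bx c l | |F (w, w')| ≤ T}} := by
  set B := volume (bx c l) with hB
  set B' := volume (bx c' l') with hB'
  have hBf : B ≠ ∞ := by rw [hB, volume_bx c hl.le]; exact ENNReal.ofReal_ne_top
  have hB'f : B' ≠ ∞ := by rw [hB', volume_bx c' hl'.le]; exact ENNReal.ofReal_ne_top
  have hB0 : B ≠ 0 := by
    rw [hB, volume_bx c hl.le]
    exact (ENNReal.ofReal_pos.2 (by positivity)).ne'
  set G : Set (X d × X d) := {p | p.1 ∈ bx c l ∧ p.2 ∈ bx c' l' ∧ |F p| ≤ T} with hG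
  have hGm : MeasurableSet G := by
    have h1 : MeasurableSet {p : X d × X d | p.1 ∈ bx c l} :=
      measurable_fst (measurableSet_bx c l)
    have h2 : MeasurableSet {p : X d × X d | p.2 ∈ bx c' l'} :=
      measurable_snd (measurableSet_bx c' l')
    have h3 : MeasurableSet {p : X d × X d | |F p| ≤ T} :=
      measurableSet_le hF.abs.measurable measurable_const
    exact h1.inter (h2.inter h3)
  set W := {w' ∈ bx c' l' |
      ENNReal.ofReal (κ / 2) * B ≤ volume {w ∈ bx c l | |F (w, w')| ≤ T}} with hW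
  have hφ : Measurable fun w' : X d => volume ((fun w : X d => (w, w')) ⁻¹' G) :=
    measurable_measure_prodMk_right hGm
  have hsec : ∀ w' ∈ bx c' l', (fun w : X d => (w, w')) ⁻¹' G = {w ∈ bx c l | |F (w, w')| ≤ T} := by
    intro w' hw'
    ext w
    constructor
    · rintro ⟨h1, -, h3⟩; exact ⟨h1, h3⟩
    · rintro ⟨h1, h3⟩; exact ⟨h1, hw', h3⟩
  have hWm : MeasurableSet W := by
    have : W = bx c' l' ∩ {w' | ENNReal.ofReal (κ / 2) * B ≤
        volume ((fun w : X d => (w, w')) ⁻¹' G)} := by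
      ext w'
      constructor
      · rintro ⟨h1, h2⟩
        refine ⟨h1, ?_⟩
        rw [mem_ofPred_eq, hsec w' h1]; exact h2
      · rintro ⟨h1, h2⟩
        rw [mem_ofPred_eq, hsec w' h1] at h2
        exact ⟨h1, h2⟩
    rw [this]
    exact (measurableSet_bx c' l').inter (measurableSet_le measurable_const hφ)
  have hbound : ∀ w' : X d, volume ((fun w : X d => (w, w')) ⁻¹' G) ≤
      (bx c' l').indicator (fun _ => ENNReal.ofReal (κ / 2) * B) w' +
        W.indicator (fun _ => B) w' := by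
    intro w'
    by_cases h1 : w' ∈ bx c' l'
    · by_cases h2 : w' ∈ W
      · rw [indicator_of_mem h2]
        refine le_trans ?_ le_add_self
        rw [hsec w' h1]
        exact measure_mono (fun w hw => hw.1)
      · rw [indicator_of_notMem h2, add_zero, indicator_of_mem h1, hsec w' h1]
        by_contra h3
        exact h2 ⟨h1, (not_le.1 h3).le⟩
    · have : (fun w : X d => (w, w')) ⁻¹' G = ∅ := by
        ext w
        constructor
        · rintro ⟨-, h, -⟩; exact (h1 h).elim
        · intro h; exact h.elim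
      rw [this, measure_empty]
      exact zero_le
  have hint : (volume.prod volume) G ≤ ENNReal.ofReal (κ / 2) * B * B' + B * volume W := by
    rw [Measure.prod_apply_symm hGm]
    calc ∫⁻ w', volume ((fun w : X d => (w, w')) ⁻¹' G)
        ≤ ∫⁻ w', ((bx c' l').indicator (fun _ => ENNReal.ofReal (κ / 2) * B) w' +
            W.indicator (fun _ => B) w') := lintegral_mono hbound
      _ = ENNReal.ofReal (κ / 2) * B * B' + B * volume W := by
          rw [lintegral_add_left (measurable_const.indicator (measurableSet_bx c' l')),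
            lintegral_indicator_const (measurableSet_bx c' l'),
            lintegral_indicator_const hWm]
  have h4 := hm.trans hint
  have hκ2 : ENNReal.ofReal κ = ENNReal.ofReal (κ / 2) + ENNReal.ofReal (κ / 2) := by
    rw [← ENNReal.ofReal_add (by positivity) (by positivity)]
    congr 1; ring
  have h5 : ENNReal.ofReal (κ / 2) * B * B' + ENNReal.ofReal (κ / 2) * B * B' ≤
      ENNReal.ofReal (κ / 2) * B * B' + B * volume W := by
    calc _ = ENNReal.ofReal κ * (B * B') := by rw [hκ2]; ring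
      _ ≤ _ := h4
  have hfin : ENNReal.ofReal (κ / 2) * B * B' ≠ ∞ :=
    ENNReal.mul_ne_top (ENNReal.mul_ne_top ENNReal.ofReal_ne_top hBf) hB'f
  have h6 : ENNReal.ofReal (κ / 2) * B * B' ≤ B * volume W :=
    (ENNReal.add_le_add_iff_left hfin).1 h5
  have h7 : B * (ENNReal.ofReal (κ / 2) * B') ≤ B * volume W := by
    calc _ = ENNReal.ofReal (κ / 2) * B * B' := by ring
      _ ≤ _ := h6
  exact (ENNReal.mul_le_mul_iff_right hB0 hBf).1 h7

theorem tr (d : ℕ) {κ : ℝ} (hκ : 0 < κ) (R : ℝ) : ∃ C : ℝ, 0 < C ∧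
    ∀ (c c' : X d) (l l' : ℝ), 0 < l → l ≤ l' → l' ≤ 2 * l → ‖c - c'‖ ≤ R * l →
    ∀ (q : X d → X d), IsRigid q → ∀ (T : ℝ),
    ENNReal.ofReal κ * (volume (bx c l) * volume (bx c' l')) ≤
      (volume.prod volume) {p : X d × X d | p.1 ∈ bx c l ∧ p.2 ∈ bx c' l' ∧
        |dot (q p.2) (p.2 - p.1)| ≤ T * l} →
    ∀ x : X d, ‖x - c‖ ≤ R * l → ‖q x‖ ≤ C * T := by
  have hκ2 : 0 < κ / 2 := by positivity
  obtain ⟨C1, hC1, h1⟩ := af d hκ2 1
  obtain ⟨C3, hC3, h3⟩ := af_rigid d (one_pos) (2 * |R|)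
  refine ⟨C3 * (2 * (C1 * C1)), by positivity, ?_⟩
  intro c c' l l' hl hll' hl2 hcc q hq T hm x hx
  have hl' : 0 < l' := lt_of_lt_of_le hl hll'
  have hW := tr_fubini hκ hl hl' (fun p => dot (q p.2) (p.2 - p.1))
    (tr_dot_continuous hq.continuous) (T * l) hm
  -- T is nonneg
  have hT : 0 ≤ T := by
    have hpos : 0 < (volume.prod volume) {p : X d × X d | p.1 ∈ bx c l ∧ p.2 ∈ bx c' l' ∧
        |dot (q p.2) (p.2 - p.1)| ≤ T * l} := by
      refine lt_of_lt_of_le ?_ hm
      rw [volume_bx c hl.le, volume_bx c' hl'.le, ← ENNReal.ofReal_mul (by positivity),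
        ← ENNReal.ofReal_mul hκ.le, ENNReal.ofReal_pos]
      positivity
    obtain ⟨p, -, -, hp⟩ := nonempty_of_measure_ne_zero hpos.ne'
    have h := (abs_nonneg _).trans hp
    by_contra hneg
    have : T * l < 0 := mul_neg_of_neg_of_pos (not_le.1 hneg) hl
    linarith
  have hR : 0 ≤ R := by
    by_contra hneg
    have : R * l < 0 := mul_neg_of_neg_of_pos (not_le.1 hneg) hl
    linarith [norm_nonneg (x - c)]
  -- step 2
  have step2 : ∀ w' ∈ {w' ∈ bx c' l' | ENNReal.ofReal (κ / 2) * volume (bx c l) ≤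
      volume {w ∈ bx c l | |dot (q w') (w' - w)| ≤ T * l}}, ∀ w : X d, ‖w - c‖ ≤ 1 * l →
      |dot (q w') (w' - w)| ≤ C1 * (T * l) := by
    rintro w' ⟨-, hw'⟩ w hw
    have h := h1 c l hl (dot (q w') w') (-q w') (T * l) ?_ w hw
    · rw [tr_dot_sub_right]; exact h
    · refine hw'.trans (measure_mono ?_)
      rintro y ⟨hy, hyT⟩
      refine ⟨hy, ?_⟩
      rw [← tr_dot_sub_right]; exact hyT
  have hrig : ∀ w w' : X d, dot (q w') (w' - w) = dot (q w) (w' - w) := by
    intro w w'
    have := hq.dot_eq w' w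
    rw [tr_dot_sub_left] at this
    linarith
  -- step 3
  have step3 : ∀ w : X d, ‖w - c‖ ≤ 1 * l → ∀ w' : X d, ‖w' - c'‖ ≤ 1 * l' →
      |dot (q w') (w' - w)| ≤ C1 * (C1 * (T * l)) := by
    intro w hw w' hw'
    have hcomm : ∀ y : X d, dot (q y) (y - w) = -dot (q w) w + dot (q w) y := by
      intro y
      rw [hrig w y]
      unfold dot
      rw [← Finset.sum_neg_distrib, ← Finset.sum_add_distrib]
      apply Finset.sum_congr rfl
      intro j _
      rw [Pi.sub_apply]; ring
    have h := h1 c' l' hl' (-dot (q w) w) (q w) (C1 * (T * l)) ?_ w' hw'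
    · rw [hcomm]; exact h
    · refine hW.trans (measure_mono ?_)
      intro y hy
      refine ⟨hy.1, ?_⟩
      rw [← hcomm]
      exact step2 y hy w hw
  -- step 4
  have step4 : ∀ w' : X d, ‖w' - c'‖ ≤ 1 * l' → ‖q w'‖ ≤ 2 * (C1 * C1) * T := by
    intro w' hw'
    rw [pi_norm_le_iff_of_nonneg (by positivity)]
    intro i
    have ha := step3 c (by rw [sub_self, norm_zero]; positivity) w' hw'
    have hb := step3 (c + Pi.single i l) (by
      rw [add_sub_cancel_left, one_mul, pi_norm_le_iff_of_nonneg hl.le]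
      intro j
      by_cases hji : j = i
      · subst hji; rw [Pi.single_eq_same, Real.norm_eq_abs, abs_of_pos hl]
      · rw [Pi.single_eq_of_ne hji, norm_zero]; exact hl.le) w' hw'
    have hdiff : q w' i * l = dot (q w') (w' - c) - dot (q w') (w' - (c + Pi.single i l)) := by
      unfold dot
      rw [← Finset.sum_sub_distrib]
      rw [Finset.sum_eq_single i]
      · rw [Pi.sub_apply, Pi.sub_apply, Pi.add_apply, Pi.single_eq_same]; ring
      · intro j _ hji
        rw [Pi.sub_apply, Pi.sub_apply, Pi.add_apply, Pi.single_eq_of_ne hji]; ring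
      · intro h; exact (h (Finset.mem_univ _)).elim
    have h5 : |q w' i| * l ≤ 2 * (C1 * C1) * T * l := by
      rw [← abs_of_pos hl, ← abs_mul, abs_of_pos hl, hdiff]
      refine (abs_sub _ _).trans ?_
      calc _ ≤ C1 * (C1 * (T * l)) + C1 * (C1 * (T * l)) := add_le_add ha hb
        _ = _ := by ring
    rw [Real.norm_eq_abs]
    exact le_of_mul_le_mul_right h5 hl
  -- step 5
  have h6 := h3 c' l' hl' q hq (2 * (C1 * C1) * T) ?_ x ?_
  · calc ‖q x‖ ≤ C3 * (2 * (C1 * C1) * T) := h6
      _ = _ := by ring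
  · rw [ENNReal.ofReal_one, one_mul]
    apply measure_mono
    intro y hy
    refine ⟨hy, step4 y ?_⟩
    rw [one_mul, pi_norm_le_iff_of_nonneg hl'.le]
    intro j
    rw [Pi.sub_apply, Real.norm_eq_abs, abs_le]
    have := hy j
    constructor <;> linarith
  · rw [abs_of_nonneg hR]
    have h7 : x - c' = (x - c) + (c - c') := by abel
    rw [h7]
    have h8 := norm_add_le (x - c) (c - c')
    have h9 : R * l ≤ R * l' := mul_le_mul_of_nonneg_left hll' hR
    linarith

end BDJ
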