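import Pool.Agent.BDJ.Sl
import Pool.Agent.BDJ.LA
import Pool.Agent.BDJ.TR

/-!
# The slicing system of the symmetric gradient (row SLBD)

`V = X d`, `N = 1`, `e i z v = dot v z`, `deg = 1`, `R = {p | IsRigid p}`, `CE = C0 = d + 1`, `P = Pr`, `CP = 3 d + 4`, `nb = d + 2`, `rel b b' = (b ≠ b')`.

Base points: `z0 b c = 1/4 + zref b c / (2 (d+2))`, `δ = δ₁/(2 (d+2))` with `δ₁` from `la`: all coordinates are in `[1/4, 3/4)`. `rel_cone`: in units of `al = 1/(2(d+2))`, for `b > b'` (as numbers) the difference of the coordinates `0` is at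
least `1 - 2 δ₁ ≥ 7/8`, the differences of the others are at most `1/2 + 2 δ₁ ≤ 5/8`.
The field `la`: apply `BDJ.la` with `al = l/(2(d+2))`, `o' = o + (l/4)(1,..,1)`: `‖x - y 0‖ ≤ ‖x - o‖ + ‖o - y 0‖ ≤ 9 l ≤ 32 (d+2) al = 16 l`; the hypotheses are `≤ D l = 2(d+2) D al` (for `b = b'` trivial).
`af`, `tr`: `af_rigid`, `tr`. `P_id`, `P_lip`: `Pr_of_rigid`, `Pr_sub`, `norm_Pr_le`.
-/

open MeasureTheory Set
open scoped ENNReal NNReal

namespace BDJ

/-- the functional `v ↦ dot v z` -/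
noncomputable def slbd_e {d : ℕ} (z : X d) : X d →L[ℝ] ℝ :=
  ∑ i, z i • ContinuousLinearMap.proj (R := ℝ) (φ := fun _ : Fin (d + 1) => ℝ) i

theorem slbd_e_apply {d : ℕ} (z v : X d) : slbd_e z v = dot v z := by
  simp [slbd_e, dot, mul_comm]

theorem slbd_dot_le {d : ℕ} (z v : X d) : |dot v z| ≤ (d + 1) * ‖z‖ * ‖v‖ := by
  unfold dot
  refine (Finset.abs_sum_le_sum_abs _ _).trans ?_
  have h1 : ∀ i ∈ (Finset.univ : Finset (Fin (d + 1))), |v i * z i| ≤ ‖z‖ * ‖v‖ := by
    intro i _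
    rw [abs_mul, mul_comm]
    exact mul_le_mul (norm_le_pi_norm z i) (norm_le_pi_norm v i) (abs_nonneg _) (norm_nonneg _)
  refine (Finset.sum_le_card_nsmul _ _ _ h1).trans ?_
  rw [Finset.card_univ, Fintype.card_fin, nsmul_eq_mul]
  push_cast
  rw [mul_assoc]

/-- the base points -/
noncomputable def slbd_z {d : ℕ} (b : Fin (d + 2)) : X d :=
  fun c => 1 / 4 + zref b c / (2 * (d + 2))

theorem slbd_z_bound {d : ℕ} {δ : ℝ} (h0 : 0 < δ) (h1 : δ ≤ 1 / 16) (b : Fin (d + 2))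
    (c : Fin (d + 1)) :
    δ / (2 * (d + 2)) < slbd_z b c ∧ slbd_z b c < 1 - δ / (2 * (d + 2)) := by
  have hd : (0 : ℝ) ≤ (d : ℝ) := Nat.cast_nonneg d
  have hpos : (0 : ℝ) < 2 * ((d : ℝ) + 2) := by linarith
  have hz0 : 0 ≤ zref b c := by
    unfold zref
    split_ifs <;> positivity
  have hz1 : zref b c ≤ (d : ℝ) + 1 := by
    unfold zref
    split_ifs
    · have : (b : ℕ) ≤ d + 1 := by omega
      exact_mod_cast this
    · linarith
    · linarith
  have e1 : δ / (2 * ((d : ℝ) + 2)) ≤ 1 / 64 := by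
    rw [div_le_iff₀ hpos]
    nlinarith
  have e2 : 0 ≤ zref b c / (2 * ((d : ℝ) + 2)) := div_nonneg hz0 hpos.le
  have e3 : zref b c / (2 * ((d : ℝ) + 2)) ≤ 1 / 2 := by
    rw [div_le_iff₀ hpos]
    linarith
  unfold slbd_z
  constructor <;> linarith

theorem slbd_cone {d : ℕ} {δ : ℝ} (h0 : 0 < δ) (h1 : δ ≤ 1 / 16) {b b' : Fin (d + 2)} (hb : b ≠ b')
    (y y' : X d) (hy : ∀ c, |y c - slbd_z b c| ≤ δ / (2 * (d + 2)))
    (hy' : ∀ c, |y' c - slbd_z b' c| ≤ δ / (2 * (d + 2))) (c : Fin (d + 1)) :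
    |y c - y' c| ≤ |y 0 - y' 0| := by
  have hd : (0 : ℝ) ≤ (d : ℝ) := Nat.cast_nonneg d
  have hpos : (0 : ℝ) < 2 * ((d : ℝ) + 2) := by linarith
  by_cases hc : c = 0
  · subst hc; exact le_refl _
  set al : ℝ := 1 / (2 * ((d : ℝ) + 2)) with hal
  have hal0 : 0 < al := by positivity
  have e1 : δ / (2 * ((d : ℝ) + 2)) = δ * al := by rw [hal]; ring
  have e2 : ∀ (b : Fin (d + 2)) (c : Fin (d + 1)), slbd_z b c = 1 / 4 + zref b c * al := by
    intro b c
    rw [slbd_z, hal]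
    ring
  have a1 := hy c
  have a2 := hy' c
  have a3 := hy 0
  have a4 := hy' 0
  rw [e1, e2] at a1 a2 a3 a4
  have z0 : ∀ b : Fin (d + 2), zref b (0 : Fin (d + 1)) = ((b : ℕ) : ℝ) := by
    intro b
    simp [zref]
  have zc : ∀ b : Fin (d + 2), 0 ≤ zref b c ∧ zref b c ≤ 1 / 2 := by
    intro b
    unfold zref
    rw [if_neg hc]
    split_ifs <;> norm_num
  rw [z0] at a3 a4
  have hbn : (b : ℕ) ≠ (b' : ℕ) := fun h => hb (Fin.ext h)
  have hz := zc b
  have hz' := zc b'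
  rw [abs_le] at a1 a2 a3 a4
  have hup : |y c - y' c| ≤ 5 / 8 * al := by
    rw [abs_le]
    constructor <;> nlinarith
  refine hup.trans ?_
  rcases Nat.lt_or_gt_of_ne hbn with h | h
  · have h2 : ((b : ℕ) : ℝ) + 1 ≤ ((b' : ℕ) : ℝ) := by exact_mod_cast h
    rw [abs_sub_comm]
    refine le_trans ?_ (le_abs_self _)
    nlinarith
  · have h2 : ((b' : ℕ) : ℝ) + 1 ≤ ((b : ℕ) : ℝ) := by exact_mod_cast h
    refine le_trans ?_ (le_abs_self _)
    nlinarith

theorem exists_slBD (d : ℕ) : ∃ S : Slicing d (X d), S.deg = 1 ∧ (∀ i z v, S.e i z v = dot v z) ∧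
    S.C0 = d + 1 := by
  obtain ⟨δ, hδ0, hδ1, C, hC1, hla⟩ := la d
  have hd : (0 : ℝ) ≤ (d : ℝ) := Nat.cast_nonneg d
  have hpos : (0 : ℝ) < 2 * ((d : ℝ) + 2) := by linarith
  refine ⟨{
    N := 1
    e := fun _ z => slbd_e z
    deg := 1
    e_cont := ?_
    e_smul := ?_
    CE := d + 1
    e_bound := ?_
    C0 := d + 1
    C0_pos := by positivity
    R := {p | IsRigid p}
    R_sub := fun p hp q hq => IsRigid.sub hp hq
    R_cont := fun p hp => IsRigid.continuous hp
    R_inv := ?_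
    nb := d + 2
    z0 := slbd_z
    δ := δ / (2 * (d + 2))
    δ_pos := by positivity
    z0_mem := fun b c => slbd_z_bound hδ0 hδ1 b c
    rel := fun b b' => b ≠ b'
    rel_cone := fun b b' hb y y' hy hy' c => slbd_cone hδ0 hδ1 hb y y' hy hy' c
    CL := C * (2 * (d + 2))
    la := ?_
    af := ?_
    tr := ?_
    P := Pr
    P_mem := fun u c l => isRigid_Pr u c l
    P_id := fun p hp c l hl => Pr_of_rigid hp c hl
    CP := 3 * d + 4
    P_lip := ?_ }, rfl, fun i z v => slbd_e_apply z v, rfl⟩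
  · intro _
    unfold slbd_e
    fun_prop
  · intro _ s z
    ext v
    rw [slbd_e_apply, pow_one, ContinuousLinearMap.smul_apply, slbd_e_apply, smul_eq_mul]
    simp only [dot, Pi.smul_apply, smul_eq_mul, Finset.mul_sum]
    apply Finset.sum_congr rfl
    intro i _
    ring
  · intro _ z v
    rw [slbd_e_apply, pow_one]
    exact slbd_dot_le z v
  · intro p hp _ w z
    rw [slbd_e_apply]
    have h := IsRigid.dot_eq hp (w + z) w
    rwa [add_sub_cancel_left] at h
  · intro l hl o y hy U D hU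
    have hal : 0 < l / (2 * ((d : ℝ) + 2)) := div_pos hl hpos
    have hD : 0 ≤ D := by
      have h1 := hU 0 1 (by
        intro h
        have := congrArg Fin.val h
        simp at this) 0
      have h2 : 0 ≤ D * l ^ 1 := (abs_nonneg _).trans h1
      rw [pow_one] at h2
      exact nonneg_of_mul_nonneg_left h2 hl
    have h1 : ∀ (i : Fin (d + 2)) (c : Fin (d + 1)),
        |y i c - ((fun c => o c + l / 4) c + l / (2 * ((d : ℝ) + 2)) * zref i c)| ≤
          δ * (l / (2 * ((d : ℝ) + 2))) := by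
      intro i c
      have h2 := hy i c
      have e1 : (fun c => o c + l / 4) c + l / (2 * ((d : ℝ) + 2)) * zref i c =
          o c + l * slbd_z i c := by
        simp only [slbd_z]
        ring
      have e2 : δ * (l / (2 * ((d : ℝ) + 2))) = δ / (2 * ((d : ℝ) + 2)) * l := by ring
      rw [e1, e2]
      exact h2
    have h3 : ∀ i j : Fin (d + 2), |dot (U i - U j) (y i - y j)| ≤
        (2 * ((d : ℝ) + 2) * D) * (l / (2 * ((d : ℝ) + 2))) := by
      intro i j
      have e1 : (2 * ((d : ℝ) + 2) * D) * (l / (2 * ((d : ℝ) + 2))) = D * l := by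
        field_simp
      rw [e1]
      by_cases hij : i = j
      · subst hij
        have : dot (U i - U i) (y i - y i) = 0 := by simp [dot]
        rw [this, abs_zero]
        positivity
      · have h4 := hU i j hij 0
        rw [slbd_e_apply, pow_one] at h4
        exact h4
    obtain ⟨p, hp, hpx⟩ := hla _ hal _ y h1 U _ h3
    refine ⟨p, hp, ?_⟩
    intro x v B hx hB
    have h4 : ∀ i, |dot (v - U i) (x - y i)| ≤
        (2 * ((d : ℝ) + 2) * B) * (l / (2 * ((d : ℝ) + 2))) := by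
      intro i
      have e1 : (2 * ((d : ℝ) + 2) * B) * (l / (2 * ((d : ℝ) + 2))) = B * l := by
        field_simp
      rw [e1]
      have h5 := hB i 0
      rw [slbd_e_apply, pow_one] at h5
      exact h5
    have h5 : ‖x - y 0‖ ≤ 32 * ((d : ℝ) + 2) * (l / (2 * ((d : ℝ) + 2))) := by
      have e1 : 32 * ((d : ℝ) + 2) * (l / (2 * ((d : ℝ) + 2))) = 16 * l := by
        field_simp
        norm_num
      rw [e1]
      have h6 : ‖o - y 0‖ ≤ l := by
        rw [pi_norm_le_iff_of_nonneg hl.le]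
        intro c
        rw [Pi.sub_apply, Real.norm_eq_abs]
        have h7 := hy 0 c
        have h8 := slbd_z_bound hδ0 hδ1 (0 : Fin (d + 2)) c
        rw [abs_le] at h7 ⊢
        obtain ⟨h7a, h7b⟩ := h7
        obtain ⟨h8a, h8b⟩ := h8
        constructor <;> nlinarith
      have h9 : ‖x - y 0‖ ≤ ‖x - o‖ + ‖o - y 0‖ := norm_sub_le_norm_sub_add_norm_sub x o (y 0)
      linarith
    have h6 := hpx x v _ h4 h5
    refine h6.trans (le_of_eq ?_)
    ring
  · intro κ ρ hκ
    obtain ⟨K, hK, h⟩ := af_rigid d hκ ρ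
    exact ⟨K, hK, fun c l hl q hq T hT x hx => h c l hl q hq T hT x hx⟩
  · intro κ ρ hκ
    obtain ⟨K, hK, h⟩ := tr d hκ ρ
    refine ⟨K, hK, ?_⟩
    intro c c' l l' hl hll' hl'2 hcc q hq T hT x hx
    refine h c c' l l' hl hll' hl'2 hcc q hq T ?_ x hx
    refine hT.trans (measure_mono ?_)
    rintro ⟨w, w'⟩ ⟨h1, h2, h3⟩
    refine ⟨h1, h2, ?_⟩
    have h4 := h3 0
    rw [slbd_e_apply, pow_one] at h4
    exact h4
  · intro u v c l hl hu hv x hx
    rw [← Pr_sub hu hv x]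
    exact norm_Pr_le hl (hu.sub hv) hx

end BDJ
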