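import Pool.Agent.BDJ.Transfer
import Pool.Agent.BDJ.SlBD

/-!
# The theorem for functions of bounded deformation (row BDFIN)

`exists_slBD d` gives a slicing system on `X d` with values in `X d`; here the values are in `E (d+1)`. The slicing system is transported along the linear
isomorphism `E (d+1) ≃ X d` (all the fields; `R`, `P` conjugated). Then `transfer` with `B = symGrad (d+1)`, `η = z ⊗ z` (`η p = z p.1 * z p.2`):
`⟪η, symGrad j v⟫ = z j (z . v)`, `‖η‖ = |z|² ≤ (d+1) ‖z‖²`.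
-/

open MeasureTheory Set Filter
open scoped ENNReal NNReal Topology InnerProductSpace

namespace BDJ

section comp
variable {V V' : Type*} [NormedAddCommGroup V] [NormedSpace ℝ V]
    [NormedAddCommGroup V'] [NormedSpace ℝ V']

theorem bdfin_norm_le (L : V' ≃L[ℝ] V) (v : V') :
    ‖v‖ ≤ ‖(L.symm : V →L[ℝ] V')‖ * ‖L v‖ := by
  have h := (L.symm : V →L[ℝ] V').le_opNorm (L v)
  simpa using h

theorem bdfin_norm_map_le (L : V' ≃L[ℝ] V) (v : V') :
    ‖L v‖ ≤ ‖(L : V' →L[ℝ] V)‖ * ‖v‖ := by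
  have h := (L : V' →L[ℝ] V).le_opNorm v
  simpa using h

theorem bdfin_norm_symm_le (L : V' ≃L[ℝ] V) (v : V) :
    ‖L.symm v‖ ≤ ‖(L.symm : V →L[ℝ] V')‖ * ‖v‖ := by
  have h := (L.symm : V →L[ℝ] V').le_opNorm v
  simpa using h

end comp

/-- transport of a slicing system to another target space -/
theorem exists_slicing_comp {d : ℕ} {V V' : Type*} [NormedAddCommGroup V] [NormedSpace ℝ V]
    [NormedAddCommGroup V'] [NormedSpace ℝ V'] (S : Slicing d V) (L : V' ≃L[ℝ] V) :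
    ∃ S' : Slicing d V', S'.deg = S.deg ∧ S'.C0 = S.C0 ∧
      ∀ (i : Fin S'.N), ∃ i' : Fin S.N, ∀ z v, S'.e i z v = S.e i' z (L v) := by
  refine ⟨{
    N := S.N
    e := fun i z => (S.e i z).comp (L : V' →L[ℝ] V)
    deg := S.deg
    e_cont := ?_
    e_smul := ?_
    CE := |S.CE| * ‖(L : V' →L[ℝ] V)‖
    e_bound := ?_
    C0 := S.C0
    C0_pos := S.C0_pos
    R := {p | (fun x => L (p x)) ∈ S.R}
    R_sub := ?_
    R_cont := ?_
    R_inv := ?_
    nb := S.nb
    z0 := S.z0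
    δ := S.δ
    δ_pos := S.δ_pos
    z0_mem := S.z0_mem
    rel := S.rel
    rel_cone := S.rel_cone
    CL := ‖(L.symm : V →L[ℝ] V')‖ * S.CL
    la := ?_
    af := ?_
    tr := ?_
    P := fun u c l x => L.symm (S.P (fun y => L (u y)) c l x)
    P_mem := ?_
    P_id := ?_
    CP := ‖(L.symm : V →L[ℝ] V')‖ * |S.CP| * ‖(L : V' →L[ℝ] V)‖
    P_lip := ?_ }, rfl, rfl, fun i => ⟨i, fun z v => rfl⟩⟩
  · intro i
    exact (S.e_cont i).clm_comp continuous_const
  · intro i s z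
    rw [S.e_smul i s z, ContinuousLinearMap.smul_comp]
  · intro i z v
    have h1 := S.e_bound i z (L v)
    have h2 := bdfin_norm_map_le L v
    calc |((S.e i z).comp (L : V' →L[ℝ] V)) v| = |S.e i z (L v)| := rfl
      _ ≤ S.CE * ‖z‖ ^ S.deg * ‖L v‖ := h1
      _ ≤ |S.CE| * ‖z‖ ^ S.deg * (‖(L : V' →L[ℝ] V)‖ * ‖v‖) := by
          gcongr
          exact le_abs_self _
      _ = |S.CE| * ‖(L : V' →L[ℝ] V)‖ * ‖z‖ ^ S.deg * ‖v‖ := by ring
  · intro p hp q hq
    have h := S.R_sub _ hp _ hq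
    change (fun x => L (p x - q x)) ∈ S.R
    simpa [map_sub] using h
  · intro p hp
    have h := S.R_cont _ hp
    have h2 : Continuous fun x => L.symm (L (p x)) := L.symm.continuous.comp h
    simpa using h2
  · intro p hp i w z
    have h := S.R_inv _ hp i w z
    simpa [map_sub] using h
  · intro l hl o y hy U D hD
    obtain ⟨p, hpR, hp⟩ := S.la l hl o y hy (fun b => L (U b)) D (by
      intro b b' hb i
      have := hD b b' hb i
      simpa [map_sub] using this)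
    refine ⟨fun x => L.symm (p x), ?_, ?_⟩
    · simpa using hpR
    · intro x v B hx hB
      have h1 := hp x (L v) B hx (by
        intro b i
        have := hB b i
        simpa [map_sub] using this)
      have h2 := bdfin_norm_le L (v - L.symm (p x))
      have h3 : L (v - L.symm (p x)) = L v - p x := by simp [map_sub]
      rw [h3] at h2
      calc ‖v - L.symm (p x)‖ ≤ ‖(L.symm : V →L[ℝ] V')‖ * ‖L v - p x‖ := h2
        _ ≤ ‖(L.symm : V →L[ℝ] V')‖ * (S.CL * (B + D)) := by gcongr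
        _ = ‖(L.symm : V →L[ℝ] V')‖ * S.CL * (B + D) := by ring
  · intro κ ρ hκ
    obtain ⟨C, hC, hC'⟩ := S.af κ ρ hκ
    refine ⟨(‖(L.symm : V →L[ℝ] V')‖ * ‖(L : V' →L[ℝ] V)‖ + 1) * C, by positivity, ?_⟩
    intro c l hl q hq T hT x hx
    rcases lt_or_ge T 0 with hneg | hpos
    · exfalso
      have h := hC' c l hl (fun x => L (q x)) hq T (hT.trans (measure_mono (by
        rintro y ⟨_, hy2⟩
        exact absurd (norm_nonneg (q y)) (by linarith)))) x hx
      have h2 : C * T < 0 := mul_neg_of_pos_of_neg hC hneg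
      have h3 : (0:ℝ) ≤ ‖L (q x)‖ := norm_nonneg _
      linarith
    · have h := hC' c l hl (fun x => L (q x)) hq (‖(L : V' →L[ℝ] V)‖ * T)
        (hT.trans (measure_mono (by
        rintro y ⟨hy1, hy2⟩
        refine ⟨hy1, ?_⟩
        calc ‖L (q y)‖ ≤ ‖(L : V' →L[ℝ] V)‖ * ‖q y‖ := bdfin_norm_map_le L _
          _ ≤ ‖(L : V' →L[ℝ] V)‖ * T := by gcongr))) x hx
      have hCT : 0 ≤ C * T := by positivity
      calc ‖q x‖ ≤ ‖(L.symm : V →L[ℝ] V')‖ * ‖L (q x)‖ := bdfin_norm_le L _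
        _ ≤ ‖(L.symm : V →L[ℝ] V')‖ * (C * (‖(L : V' →L[ℝ] V)‖ * T)) := by gcongr
        _ = (‖(L.symm : V →L[ℝ] V')‖ * ‖(L : V' →L[ℝ] V)‖) * (C * T) := by ring
        _ ≤ (‖(L.symm : V →L[ℝ] V')‖ * ‖(L : V' →L[ℝ] V)‖ + 1) * (C * T) := by
            nlinarith
        _ = (‖(L.symm : V →L[ℝ] V')‖ * ‖(L : V' →L[ℝ] V)‖ + 1) * C * T := by ring
  · intro κ ρ hκ
    obtain ⟨C, hC, hC'⟩ := S.tr κ ρ hκ
    refine ⟨(‖(L.symm : V →L[ℝ] V')‖ + 1) * C, by positivity, ?_⟩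
    intro c c' l l' hl hll hl2 hcc q hq T hT x hx
    have h := hC' c c' l l' hl hll hl2 hcc (fun x => L (q x)) hq T hT x hx
    have hCT : 0 ≤ C * T := (norm_nonneg _).trans h
    calc ‖q x‖ ≤ ‖(L.symm : V →L[ℝ] V')‖ * ‖L (q x)‖ := bdfin_norm_le L _
      _ ≤ ‖(L.symm : V →L[ℝ] V')‖ * (C * T) := by gcongr
      _ ≤ (‖(L.symm : V →L[ℝ] V')‖ + 1) * (C * T) := by nlinarith
      _ = (‖(L.symm : V →L[ℝ] V')‖ + 1) * C * T := by ring
  · intro u c l
    have h := S.P_mem (fun y => L (u y)) c l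
    simpa using h
  · intro p hp c l hl
    have h := S.P_id _ hp c l hl
    funext x
    have h2 : S.P (fun y => L (p y)) c l x = L (p x) := congrFun h x
    simp only [h2, ContinuousLinearEquiv.symm_apply_apply]
  · intro u v c l hl hu hv x hx
    have hLu : IntegrableOn (fun y => L (u y)) (bx c l) :=
      (L : V' →L[ℝ] V).integrable_comp hu
    have hLv : IntegrableOn (fun y => L (v y)) (bx c l) :=
      (L : V' →L[ℝ] V).integrable_comp hv
    have h := S.P_lip (fun y => L (u y)) (fun y => L (v y)) c l hl hLu hLv x hx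
    have hint : ∫ y in bx c l, ‖L (u y) - L (v y)‖ ≤
        ‖(L : V' →L[ℝ] V)‖ * ∫ y in bx c l, ‖u y - v y‖ := by
      rw [← integral_const_mul]
      refine integral_mono (hLu.sub hLv).norm ((hu.sub hv).norm.const_mul _) ?_
      intro y
      simp only
      rw [← map_sub]
      exact bdfin_norm_map_le L _
    have hl' : (0:ℝ) < (l ^ (d + 1))⁻¹ := by positivity
    have hI0 : (0:ℝ) ≤ ∫ y in bx c l, ‖L (u y) - L (v y)‖ :=
      integral_nonneg fun y => norm_nonneg _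
    rw [← map_sub]
    calc ‖L.symm (S.P (fun y => L (u y)) c l x - S.P (fun y => L (v y)) c l x)‖
        ≤ ‖(L.symm : V →L[ℝ] V')‖ *
          ‖S.P (fun y => L (u y)) c l x - S.P (fun y => L (v y)) c l x‖ :=
          bdfin_norm_symm_le L _
      _ ≤ ‖(L.symm : V →L[ℝ] V')‖ *
          (S.CP * ((l ^ (d + 1))⁻¹ * ∫ y in bx c l, ‖L (u y) - L (v y)‖)) := by gcongr
      _ ≤ ‖(L.symm : V →L[ℝ] V')‖ *
          (|S.CP| * ((l ^ (d + 1))⁻¹ * (‖(L : V' →L[ℝ] V)‖ * ∫ y in bx c l, ‖u y - v y‖))) := by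
          gcongr
          exact le_abs_self _
      _ = ‖(L.symm : V →L[ℝ] V')‖ * |S.CP| * ‖(L : V' →L[ℝ] V)‖ *
          ((l ^ (d + 1))⁻¹ * ∫ y in bx c l, ‖u y - v y‖) := by ring

theorem bdfin_inner (n : ℕ) (z : Fin n → ℝ) (j : Fin n) (v : E n) :
    ⟪(WithLp.toLp 2 (fun p : Fin n × Fin n => z p.1 * z p.2) :
      EuclideanSpace ℝ (Fin n × Fin n)), symGrad n j v⟫_ℝ = z j * ∑ k, v k * z k := by
  have h : ⟪(WithLp.toLp 2 (fun p : Fin n × Fin n => z p.1 * z p.2) :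
      EuclideanSpace ℝ (Fin n × Fin n)), symGrad n j v⟫_ℝ =
      ∑ p : Fin n × Fin n, (z p.1 * z p.2) *
        (((if p.1 = j then v p.2 else 0) + (if p.2 = j then v p.1 else 0)) / 2) := by
    rw [PiLp.inner_apply]
    refine Finset.sum_congr rfl fun p _ => ?_
    simp [symGrad, symMat, mul_comm]
  rw [h, Fintype.sum_prod_type]
  have h1 : ∀ a b : Fin n, (z a * z b) *
        (((if a = j then v b else 0) + (if b = j then v a else 0)) / 2) =
      (if a = j then z a * (z b * v b) / 2 else 0) + (if b = j then z b * (z a * v a) / 2 else 0) := by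
    intro a b
    split_ifs <;> ring
  simp only [h1, Finset.sum_add_distrib]
  have h2 : (∑ a : Fin n, ∑ b : Fin n, if a = j then z a * (z b * v b) / 2 else 0) =
      z j * (∑ k, v k * z k) / 2 := by
    rw [Finset.sum_comm]
    simp only [Finset.sum_ite_eq', Finset.mem_univ, if_true]
    rw [Finset.mul_sum, Finset.sum_div]
    refine Finset.sum_congr rfl fun k _ => ?_
    ring
  have h3 : (∑ a : Fin n, ∑ b : Fin n, if b = j then z b * (z a * v a) / 2 else 0) =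
      z j * (∑ k, v k * z k) / 2 := by
    simp only [Finset.sum_ite_eq', Finset.mem_univ, if_true]
    rw [Finset.mul_sum, Finset.sum_div]
    refine Finset.sum_congr rfl fun k _ => ?_
    ring
  rw [h2, h3]
  ring

theorem bdfin_norm (d : ℕ) (z : X d) :
    ‖(WithLp.toLp 2 (fun p : Fin (d + 1) × Fin (d + 1) => z p.1 * z p.2) :
      EuclideanSpace ℝ (Fin (d + 1) × Fin (d + 1)))‖ ≤ ((d:ℝ) + 1) * ‖z‖ ^ 2 := by
  rw [EuclideanSpace.norm_eq]
  refine Real.sqrt_le_iff.mpr ⟨by positivity, ?_⟩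
  have h1 : ∀ p : Fin (d + 1) × Fin (d + 1), ‖z p.1 * z p.2‖ ^ 2 ≤ (‖z‖ ^ 2) ^ 2 := by
    intro p
    have ha := norm_le_pi_norm z p.1
    have hb := norm_le_pi_norm z p.2
    rw [norm_mul]
    have : ‖z p.1‖ * ‖z p.2‖ ≤ ‖z‖ ^ 2 := by
      rw [sq]
      exact mul_le_mul ha hb (norm_nonneg _) (norm_nonneg _)
    exact pow_le_pow_left₀ (by positivity) this 2
  calc (∑ p : Fin (d + 1) × Fin (d + 1), ‖z p.1 * z p.2‖ ^ 2)
      ≤ ∑ _p : Fin (d + 1) × Fin (d + 1), (‖z‖ ^ 2) ^ 2 := Finset.sum_le_sum fun p _ => h1 p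
    _ = (((d:ℝ) + 1) * ‖z‖ ^ 2) ^ 2 := by
        rw [Finset.sum_const, Finset.card_univ, Fintype.card_prod, Fintype.card_fin, nsmul_eq_mul]
        push_cast
        ring

/-- **Main theorem for BD**: `H^(n-1)(S_u \ Θ_u) = 0`, `n = d + 1 ≥ 1`. -/
theorem bd_main (d : ℕ) {Ω : Set (E (d + 1))} (hΩ : IsOpen Ω) {u : E (d + 1) → E (d + 1)}
    {Eu : VectorMeasure (E (d + 1)) (EuclideanSpace ℝ (Fin (d + 1) × Fin (d + 1)))}
    (h : IsBV (symGrad (d + 1)) Ω u Eu) :
    μH[(d : ℝ)] (discSet Ω u \ densSet Ω Eu) = 0 := by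
  obtain ⟨S, hdeg, he, hC0⟩ := exists_slBD d
  obtain ⟨S', hdeg', hC0', he'⟩ := exists_slicing_comp S (EuclideanSpace.equiv (Fin (d + 1)) ℝ)
  refine transfer S' (symGrad (d + 1)) ?_ hΩ h
  intro i z
  refine ⟨WithLp.toLp 2 (fun p : Fin (d + 1) × Fin (d + 1) => z p.1 * z p.2), ?_, ?_⟩
  · rw [hC0', hC0, hdeg', hdeg]
    exact bdfin_norm d z
  · intro j v
    obtain ⟨i', hi'⟩ := he' i
    rw [bdfin_inner, hi' z v, he]
    rfl

end BDJ
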