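import Pool.Agent.BDJ.Grid

/-!
# Volumes and counting (row GRID-B)
-/

open MeasureTheory Set
open scoped ENNReal

namespace BDJ

variable {d : ℕ}

theorem gridb_cube_pi (τ : X d) (k : ℕ) (j : Idx d) :
    cube τ k j = Set.pi univ fun i => Ico (τ i + j i * sd k) (τ i + (j i + 1) * sd k) := by
  ext x
  simp only [cube, mem_ofPred_eq, mem_univ_pi, mem_Ico]

theorem gridb_big_pi (a : ℝ) (τ : X d) (k : ℕ) (j : Idx d) :
    big a τ k j = Set.pi univ fun i =>
      Ioo (τ i + (j i - a) * sd k) (τ i + (j i + 1 + a) * sd k) := by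
  ext x
  simp only [big, mem_ofPred_eq, mem_univ_pi, mem_Ioo]

theorem gridb_bx_pi (c : X d) (l : ℝ) :
    bx c l = Set.pi univ fun i => Ico (c i) (c i + l) := by
  ext x
  simp only [bx, mem_ofPred_eq, mem_univ_pi, mem_Ico]

theorem volume_cube (τ : X d) (k : ℕ) (j : Idx d) :
    volume (cube τ k j) = ENNReal.ofReal (sd k ^ (d + 1)) := by
  rw [gridb_cube_pi, Real.volume_pi_Ico]
  have h : ∀ i : Fin (d + 1), ENNReal.ofReal (τ i + (j i + 1) * sd k - (τ i + j i * sd k)) =
      ENNReal.ofReal (sd k) := by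
    intro i
    congr 1
    ring
  rw [Finset.prod_congr rfl fun i _ => h i, Finset.prod_const, Finset.card_univ, Fintype.card_fin,
    ENNReal.ofReal_pow (sd_pos k).le]

theorem volume_big {a : ℝ} (ha : 0 ≤ a) (τ : X d) (k : ℕ) (j : Idx d) :
    volume (big a τ k j) = ENNReal.ofReal (((1 + 2 * a) * sd k) ^ (d + 1)) := by
  rw [gridb_big_pi, Real.volume_pi_Ioo]
  have h : ∀ i : Fin (d + 1),
      ENNReal.ofReal (τ i + (j i + 1 + a) * sd k - (τ i + (j i - a) * sd k)) =
      ENNReal.ofReal ((1 + 2 * a) * sd k) := by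
    intro i
    congr 1
    ring
  have h0 : 0 ≤ (1 + 2 * a) * sd k := mul_nonneg (by linarith) (sd_pos k).le
  rw [Finset.prod_congr rfl fun i _ => h i, Finset.prod_const, Finset.card_univ, Fintype.card_fin,
    ENNReal.ofReal_pow h0]

theorem volume_bx (c : X d) {l : ℝ} (hl : 0 ≤ l) :
    volume (bx c l) = ENNReal.ofReal (l ^ (d + 1)) := by
  rw [gridb_bx_pi, Real.volume_pi_Ico]
  have h : ∀ i : Fin (d + 1), ENNReal.ofReal (c i + l - c i) = ENNReal.ofReal l := by
    intro i
    congr 1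
    ring
  rw [Finset.prod_congr rfl fun i _ => h i, Finset.prod_const, Finset.card_univ, Fintype.card_fin,
    ENNReal.ofReal_pow hl]

theorem volume_slopes : volume (slopes d) = 2 ^ d := by
  unfold slopes
  rw [Real.volume_Icc_pi]
  have h : ∀ i : Fin d, ENNReal.ofReal ((1 : ℝ) - -1) = 2 := by
    intro i
    have : (1 : ℝ) - -1 = 2 := by norm_num
    rw [this, ENNReal.ofReal_ofNat]
  rw [Finset.prod_congr rfl fun i _ => h i, Finset.prod_const, Finset.card_univ, Fintype.card_fin]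

/-- `vp` of (sub-cube) × (slopes) -/
theorem vp_cube (k : ℕ) (i : Idx d) :
    vp d (cube 0 k i ×ˢ slopes d) = ENNReal.ofReal (sd k ^ (d + 1)) * 2 ^ d := by
  unfold vp
  rw [Measure.prod_prod, volume_cube, volume_slopes]

/-- every point lies in exactly one cube of the level `k` -/
theorem tsum_cube (τ : X d) (k : ℕ) (x : X d) :
    ∑' j : Idx d, (cube τ k j).indicator (1 : X d → ℝ≥0∞) x = 1 := by
  rw [tsum_eq_single (idx τ k x)]
  · rw [indicator_of_mem (mem_cube_idx τ k x)]
    rfl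
  · intro j hj
    apply indicator_of_notMem
    rw [mem_cube_iff]
    exact fun h => hj h.symm

/-- a sum of terms at most one, supported in a finite set -/
theorem gridb_tsum_le {ι : Type*} (f : ι → ℝ≥0∞) (S : Finset ι) (h1 : ∀ j, f j ≤ 1)
    (h2 : ∀ j, f j ≠ 0 → j ∈ S) : ∑' j, f j ≤ S.card := by
  rw [tsum_eq_sum (s := S) fun j hj => by
    by_contra h
    exact hj (h2 j h)]
  calc ∑ j ∈ S, f j ≤ ∑ _j ∈ S, (1 : ℝ≥0∞) := Finset.sum_le_sum fun j _ => h1 j
    _ = S.card := by rw [Finset.sum_const, nsmul_one]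

theorem gridb_card_box (l : Idx d) (n : ℕ) (w : ℤ) (hw : w = n) :
    (Fintype.piFinset fun c => Finset.Ico (l c) (l c + w)).card = n ^ (d + 1) := by
  rw [Fintype.card_piFinset]
  have h : ∀ c : Fin (d + 1), (Finset.Ico (l c) (l c + w)).card = n := by
    intro c
    rw [Int.card_Ico, hw]
    omega
  rw [Finset.prod_congr rfl fun c _ => h c, Finset.prod_const, Finset.card_univ, Fintype.card_fin]

/-- every point lies in at most `(2N+1)^(d+1)` enlarged cubes `big N τ k j` of the level `k`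
(each coordinate: the integers in an open interval of length `2N+1`) -/
theorem tsum_big_le (N : ℕ) (τ : X d) (k : ℕ) (x : X d) :
    ∑' j : Idx d, (big (N : ℝ) τ k j).indicator (1 : X d → ℝ≥0∞) x ≤ (2 * N + 1) ^ (d + 1) := by
  have hk := two_pow_mul_sd k
  have h2k : (0 : ℝ) < 2 ^ k := by positivity
  refine (gridb_tsum_le _ (Fintype.piFinset fun c => Finset.Ico (idx τ k x c - N)
    (idx τ k x c - N + (2 * N + 1 : ℕ))) ?_ ?_).trans (le_of_eq ?_)
  · intro j
    by_cases h : x ∈ big (N : ℝ) τ k j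
    · rw [indicator_of_mem h]
      exact le_rfl
    · rw [indicator_of_notMem h]
      exact zero_le_one
  · intro j hj
    have h : x ∈ big (N : ℝ) τ k j := by
      by_contra h
      exact hj (indicator_of_notMem h _)
    rw [Fintype.mem_piFinset]
    intro c
    obtain ⟨h1, h2⟩ := h c
    have e1 : (j c : ℝ) - N < 2 ^ k * (x c - τ c) := by
      have : (j c : ℝ) - N = 2 ^ k * ((j c - N) * sd k) := by
        calc (j c : ℝ) - N = (j c - N) * (2 ^ k * sd k) := by rw [hk, mul_one]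
          _ = _ := by ring
      rw [this]
      apply mul_lt_mul_of_pos_left _ h2k
      linarith
    have e2 : 2 ^ k * (x c - τ c) < (j c : ℝ) + 1 + N := by
      have : (j c : ℝ) + 1 + N = 2 ^ k * ((j c + 1 + N) * sd k) := by
        calc (j c : ℝ) + 1 + N = (j c + 1 + N) * (2 ^ k * sd k) := by rw [hk, mul_one]
          _ = _ := by ring
      rw [this]
      apply mul_lt_mul_of_pos_left _ h2k
      linarith
    rw [Finset.mem_Ico]
    change ⌊(2 : ℝ) ^ k * (x c - τ c)⌋ - N ≤ j c ∧ j c < ⌊(2 : ℝ) ^ k * (x c - τ c)⌋ - N + (2 * N + 1 : ℕ)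
    have f1 := Int.floor_le ((2 : ℝ) ^ k * (x c - τ c))
    have f2 := Int.lt_floor_add_one ((2 : ℝ) ^ k * (x c - τ c))
    constructor
    · have : ((⌊(2 : ℝ) ^ k * (x c - τ c)⌋ : ℤ) : ℝ) < ((j c + 1 + N : ℤ) : ℝ) := by
        push_cast
        linarith
      have := Int.cast_lt.1 this
      omega
    · have : ((j c : ℤ) : ℝ) < ((⌊(2 : ℝ) ^ k * (x c - τ c)⌋ + 1 + N : ℤ) : ℝ) := by
        push_cast
        linarith
      have := Int.cast_lt.1 this
      push_cast
      omega
  · rw [gridb_card_box _ (2 * N + 1) _ rfl]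
    push_cast
    rfl

/-- decomposition of a measure along the cubes of the level `k` -/
theorem measure_eq_tsum (μ : Measure (X d)) (τ : X d) (k : ℕ) {A : Set (X d)}
    (hA : MeasurableSet A) : μ A = ∑' j : Idx d, μ (A ∩ cube τ k j) := by
  rw [← measure_iUnion]
  · rw [← inter_iUnion, iUnion_cube, inter_univ]
  · intro j j' hjj
    exact (cube_disjoint τ k hjj).mono inter_subset_right inter_subset_right
  · intro j
    exact hA.inter (measurableSet_cube τ k j)

/-- at most `10^(d+1)` cubes of the level `k` of the shifted grid meet `big 4 0 k j` -/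
theorem encard_meet_le (τ : X d) (k : ℕ) (j : Idx d) :
    {j' : Idx d | (cube τ k j' ∩ big 4 0 k j).Nonempty}.encard ≤ 10 ^ (d + 1) := by
  have hk := two_pow_mul_sd k
  have h2k : (0 : ℝ) < 2 ^ k := by positivity
  have hsub : {j' : Idx d | (cube τ k j' ∩ big 4 0 k j).Nonempty} ⊆
      ((Fintype.piFinset fun c => Finset.Ico (j c - 4 + ⌊-(2 ^ k * τ c)⌋)
        (j c - 4 + ⌊-(2 ^ k * τ c)⌋ + 10) : Finset (Idx d)) : Set (Idx d)) := by
    rintro j' ⟨x, hx1, hx2⟩
    rw [Finset.mem_coe, Fintype.mem_piFinset]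
    intro c
    obtain ⟨h1, h2⟩ := hx1 c
    obtain ⟨h3, h4⟩ := hx2 c
    simp only [Pi.zero_apply, zero_add] at h3 h4
    have e1 : ∀ u : ℝ, u = 2 ^ k * (u * sd k) := by
      intro u
      calc u = u * (2 ^ k * sd k) := by rw [hk, mul_one]
        _ = _ := by ring
    have g1 : (j' c : ℝ) ≤ 2 ^ k * (x c - τ c) := by
      rw [e1 (j' c : ℝ)]
      exact mul_le_mul_of_nonneg_left (by linarith) h2k.le
    have g2 : 2 ^ k * (x c - τ c) < (j' c : ℝ) + 1 := by
      rw [e1 ((j' c : ℝ) + 1)]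
      exact mul_lt_mul_of_pos_left (by linarith) h2k
    have g3 : (j c : ℝ) - 4 < 2 ^ k * x c := by
      rw [e1 ((j c : ℝ) - 4)]
      exact mul_lt_mul_of_pos_left h3 h2k
    have g4 : 2 ^ k * x c < (j c : ℝ) + 1 + 4 := by
      rw [e1 ((j c : ℝ) + 1 + 4)]
      exact mul_lt_mul_of_pos_left h4 h2k
    have g5 : 2 ^ k * (x c - τ c) = 2 ^ k * x c + -(2 ^ k * τ c) := by ring
    rw [g5] at g1 g2
    have f1 := Int.floor_le (-((2 : ℝ) ^ k * τ c))
    have f2 := Int.lt_floor_add_one (-((2 : ℝ) ^ k * τ c))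
    rw [Finset.mem_Ico]
    constructor
    · have : ((j c - 4 + ⌊-((2 : ℝ) ^ k * τ c)⌋ : ℤ) : ℝ) < ((j' c + 1 : ℤ) : ℝ) := by
        push_cast
        linarith
      have := Int.cast_lt.1 this
      omega
    · have : ((j' c : ℤ) : ℝ) < ((j c - 4 + ⌊-((2 : ℝ) ^ k * τ c)⌋ + 10 : ℤ) : ℝ) := by
        push_cast
        linarith
      exact Int.cast_lt.1 this
  refine (encard_le_encard hsub).trans (le_of_eq ?_)
  rw [encard_coe_eq_coe_finsetCard, gridb_card_box _ 10 10 rfl]
  norm_cast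

open Classical in
/-- a sub-cube belongs to at most `3^(d+1)` cubes -/
theorem tsum_Sub_le (a : ℕ) (i : Idx d) :
    ∑' j : Idx d, (if Sub a j i then (1 : ℝ≥0∞) else 0) ≤ 3 ^ (d + 1) := by
  refine (gridb_tsum_le _ (Fintype.piFinset fun c => Finset.Ico (i c / 2 ^ a - 1)
    (i c / 2 ^ a - 1 + 3)) ?_ ?_).trans (le_of_eq ?_)
  · intro j
    split_ifs
    · exact le_rfl
    · exact zero_le_one
  · intro j hj
    have h : Sub a j i := by
      by_contra h
      exact hj (if_neg h)
    rw [Fintype.mem_piFinset]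
    intro c
    obtain ⟨h1, h2⟩ := h c
    have hp : (0 : ℤ) < 2 ^ a := by positivity
    have h3 : j c - 1 ≤ i c / 2 ^ a := by
      rw [Int.le_ediv_iff_mul_le hp]
      linarith
    have h4 : i c / 2 ^ a < j c + 2 := by
      rw [Int.ediv_lt_iff_lt_mul hp]
      linarith
    rw [Finset.mem_Ico]
    omega
  · rw [gridb_card_box _ 3 3 rfl]
    push_cast
    rfl

theorem gridb_Sub_eq (a : ℕ) (j : Idx d) : {i : Idx d | Sub a j i} =
    ((Fintype.piFinset fun c => Finset.Ico (2 ^ a * (j c - 1))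
      (2 ^ a * (j c - 1) + 3 * 2 ^ a) : Finset (Idx d)) : Set (Idx d)) := by
  ext i
  rw [Finset.mem_coe, Fintype.mem_piFinset, mem_ofPred_eq]
  unfold Sub
  refine forall_congr' fun c => ?_
  rw [Finset.mem_Ico]
  have : (2 : ℤ) ^ a * (j c + 2) = 2 ^ a * (j c - 1) + 3 * 2 ^ a := by ring
  rw [this]

/-- number of sub-cubes -/
theorem encard_Sub (a : ℕ) (j : Idx d) : {i : Idx d | Sub a j i}.encard = (3 * 2 ^ a) ^ (d + 1) := by
  rw [gridb_Sub_eq, encard_coe_eq_coe_finsetCard, gridb_card_box _ (3 * 2 ^ a) _ (by push_cast; ring)]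
  push_cast
  rfl

theorem finite_Sub (a : ℕ) (j : Idx d) : {i : Idx d | Sub a j i}.Finite := by
  rw [gridb_Sub_eq]
  exact Finset.finite_toSet _

end BDJ
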