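import Pool.Agent.BDJ.Pack
import Pool.Agent.BDJ.GridB

/-!
# Blocked sparse cubes are packed (row BLOCK)

Let `(k,j,i)` be such that `Sub a j i`, the sub-cube `b = (k+a,i)` is sparse and blocked by `O = Obs τ F (k+a+5)`, `F` a finite family of heavy cubes of the grid
`τ ∈ shifts d`; `l = sd (k+a)`. Since the elements of `F` are heavy, `O ⊆ Nge ν t τ (k+a+5) ⊆ Nall ν t (k+a+5)`, so by sparseness the short segments of all
`(w,m) ∈ b × M` except a set of measure `η l^(d+1) ≤ l^(d+1)/4` miss `O` (`b ⊆ big 4 0 (k+a) i`). As more than half of `b × M` (measure `l^(d+1) 2^d`) is hit on both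
sides, `vp {(w,m) ∈ b × M : Flag} ≥ (2^d/2 - 1/4) l^(d+1) ≥ l^(d+1) 2^d / 4`. So
`ρ^d ≤ ρ^d * 4 / (l^(d+1) 2^d) * vp(Flag ∩ (b × M))`, and `ρ^d / l^(d+1) = 2^k 2^(a(d+1))`. Sum: the sub-cubes `b` of one level are disjoint and each belongs to at
most `3^(d+1)` of the `j` (`tsum_Sub_le`); so the sum is at most `4 / 2^d * 3^(d+1) 2^(a(d+1)) ∑_k 2^k vp(Flag, level k)`, and `pack` applies.
-/

open MeasureTheory Set
open scoped ENNReal

namespace BDJ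

variable {d : ℕ}

theorem blocksum_obs (ν : Measure (X d)) (t : ℝ≥0∞) {τ : X d} (hτ : τ ∈ shifts d)
    (F : Finset (ℕ × Idx d)) (hF : ∀ P ∈ F, Heavy ν t τ P.1 P.2) (k : ℕ) :
    Obs τ (F : Set (ℕ × Idx d)) k ⊆ Nall ν t k := by
  intro x hx
  simp only [Obs, mem_iUnion] at hx
  obtain ⟨q, hq, hk, hx⟩ := hx
  refine Nge_subset_Nall ν t hτ k (Nlev_subset_Nge ν t τ hk ?_)
  simp only [Nlev, mem_iUnion]
  exact ⟨q.2, hF q hq, hx⟩

/-- the flagged pairs of level `k` -/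
def blocksum_FS (τ : X d) (F : Finset (ℕ × Idx d)) (a k : ℕ) : Set (X d × Y d) :=
  {p | p.2 ∈ slopes d ∧ Flag τ (F : Set (ℕ × Idx d)) a k p.1 (dir p.2)}

theorem blocksum_meas (τ : X d) (F : Finset (ℕ × Idx d)) (a k : ℕ) :
    MeasurableSet (blocksum_FS τ F a k) := by
  have h1 : MeasurableSet {p : X d × Y d | p.2 ∈ slopes d} :=
    measurableSet_slopes.preimage measurable_snd
  have h2 : MeasurableSet {p : X d × Y d | Flag τ (F : Set (ℕ × Idx d)) a k p.1 (dir p.2)} :=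
    (measurableSet_Flag τ (F : Set (ℕ × Idx d)) a k).preimage
      (measurable_fst.prodMk (continuous_dir.measurable.comp measurable_snd))
  exact h1.inter h2

theorem blocksum_key (ν : Measure (X d)) (t : ℝ≥0∞) {τ : X d} (hτ : τ ∈ shifts d)
    (F : Finset (ℕ × Idx d)) (hF : ∀ P ∈ F, Heavy ν t τ P.1 P.2) (a : ℕ) {η : ℝ≥0∞}
    (hη : η ≤ 1 / 4) (k : ℕ) (i : Idx d) (hS : Sparse ν t a η k i)
    (hB : Blocked (Obs τ (F : Set (ℕ × Idx d)) (k + a + 5)) a k i) :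
    ENNReal.ofReal (sd (k + a) ^ (d + 1)) * 2 ^ d ≤
      4 * vp d (blocksum_FS τ F a k ∩ (cube 0 (k + a) i ×ˢ univ)) := by
  unfold Sparse at hS
  unfold Blocked at hB
  rw [vp_cube] at hB
  set L : ℝ≥0∞ := ENNReal.ofReal (sd (k + a) ^ (d + 1)) with hL
  set V : ℝ≥0∞ := vp d (blocksum_FS τ F a k ∩ (cube 0 (k + a) i ×ˢ univ)) with hV
  have hsub : {p : X d × Y d | p.1 ∈ cube 0 (k + a) i ∧ p.2 ∈ slopes d ∧
      HitBoth (Obs τ (F : Set (ℕ × Idx d)) (k + a + 5)) (sd k) p.1 (dir p.2)} ⊆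
      (blocksum_FS τ F a k ∩ (cube 0 (k + a) i ×ˢ univ)) ∪
        {p | p.1 ∈ big 4 0 (k + a) i ∧ p.2 ∈ slopes d ∧
          ∃ s ∈ Icc (-(6 * sd (k + a))) (6 * sd (k + a)), p.1 + s • dir p.2 ∈
            Nall ν t (k + a + 5)} := by
    rintro p ⟨h1, h2, h3⟩
    by_cases h4 : ∃ s ∈ Icc (-(6 * sd (k + a))) (6 * sd (k + a)), p.1 + s • dir p.2 ∈
        Obs τ (F : Set (ℕ × Idx d)) (k + a + 5)
    · right
      obtain ⟨s, hs, hs'⟩ := h4
      exact ⟨cube_subset_big (by norm_num) _ _ _ h1, h2, s, hs,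
        blocksum_obs ν t hτ F hF _ hs'⟩
    · left
      refine ⟨⟨h2, ?_, h3⟩, h1, mem_univ _⟩
      intro s hs hs'
      exact h4 ⟨s, hs, hs'⟩
  have h1 : L * 2 ^ d / 2 ≤ V + η * L :=
    hB.le.trans ((measure_mono hsub).trans ((measure_union_le _ _).trans (add_le_add le_rfl hS)))
  have h2 : L * 2 ^ d / 2 ≤ V + 1 / 4 * L :=
    h1.trans (add_le_add le_rfl (mul_le_mul' hη le_rfl))
  have h3 : L ≤ L * 2 ^ d := by
    conv_lhs => rw [← mul_one L]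
    exact mul_le_mul' le_rfl (one_le_pow₀ (by norm_num))
  have h4 : L * 2 ^ d ≠ ∞ := by
    rw [hL]
    exact ENNReal.mul_ne_top ENNReal.ofReal_ne_top (ENNReal.pow_ne_top (by norm_num))
  have h5 : L * 2 ^ d + L * 2 ^ d ≤ 4 * V + L * 2 ^ d := by
    have e1 : (4 : ℝ≥0∞) * (L * 2 ^ d / 2) = L * 2 ^ d + L * 2 ^ d := by
      conv_rhs => rw [← ENNReal.add_halves (L * 2 ^ d)]
      ring
    have e2 : (4 : ℝ≥0∞) * (1 / 4 * L) = L := by
      rw [← mul_assoc, one_div, ENNReal.mul_inv_cancel (by norm_num) (by norm_num), one_mul]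
    calc L * 2 ^ d + L * 2 ^ d = 4 * (L * 2 ^ d / 2) := e1.symm
      _ ≤ 4 * (V + 1 / 4 * L) := mul_le_mul' le_rfl h2
      _ = 4 * V + L := by rw [mul_add, e2]
      _ ≤ 4 * V + L * 2 ^ d := add_le_add le_rfl h3
  exact (ENNReal.add_le_add_iff_right h4).1 h5

theorem blocksum_sd (a k : ℕ) : ENNReal.ofReal (sd k ^ d) =
    ENNReal.ofReal (sd (k + a) ^ (d + 1)) * 2 ^ (a * (d + 1)) * ENNReal.ofReal (2 ^ k) := by
  have h1 : (2 : ℝ≥0∞) ^ (a * (d + 1)) = ENNReal.ofReal (2 ^ (a * (d + 1))) := by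
    rw [ENNReal.ofReal_pow (by norm_num), ENNReal.ofReal_ofNat]
  have h0 := sd_pos (k + a)
  rw [h1, ← ENNReal.ofReal_mul (by positivity), ← ENNReal.ofReal_mul (by positivity)]
  congr 1
  have e1 := two_pow_mul_sd a
  have e2 := two_pow_mul_sd k
  rw [sd_add, mul_pow, pow_mul]
  calc sd k ^ d = sd k ^ d * (2 ^ k * sd k) * (2 ^ a * sd a) ^ (d + 1) := by
        rw [e1, e2]; ring
    _ = _ := by ring

theorem blocksum_cost (ν : Measure (X d)) (t : ℝ≥0∞) {τ : X d} (hτ : τ ∈ shifts d)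
    (F : Finset (ℕ × Idx d)) (hF : ∀ P ∈ F, Heavy ν t τ P.1 P.2) (a : ℕ) {η : ℝ≥0∞}
    (hη : η ≤ 1 / 4) (k : ℕ) (i : Idx d) (hS : Sparse ν t a η k i)
    (hB : Blocked (Obs τ (F : Set (ℕ × Idx d)) (k + a + 5)) a k i) :
    ENNReal.ofReal (sd k ^ d) ≤ (2 ^ d)⁻¹ * 4 * 2 ^ (a * (d + 1)) *
      (ENNReal.ofReal (2 ^ k) * vp d (blocksum_FS τ F a k ∩ (cube 0 (k + a) i ×ˢ univ))) := by
  have h := blocksum_key ν t hτ F hF a hη k i hS hB
  have h2 : (2 : ℝ≥0∞) ^ d ≠ 0 := pow_ne_zero _ (by norm_num)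
  have h3 : (2 : ℝ≥0∞) ^ d ≠ ∞ := ENNReal.pow_ne_top (by norm_num)
  have h1 : ENNReal.ofReal (sd (k + a) ^ (d + 1)) ≤
      (2 ^ d)⁻¹ * (4 * vp d (blocksum_FS τ F a k ∩ (cube 0 (k + a) i ×ˢ univ))) := by
    calc ENNReal.ofReal (sd (k + a) ^ (d + 1))
        = (2 ^ d)⁻¹ * (ENNReal.ofReal (sd (k + a) ^ (d + 1)) * 2 ^ d) := by
          rw [mul_comm (ENNReal.ofReal _), ← mul_assoc, ENNReal.inv_mul_cancel h2 h3, one_mul]
      _ ≤ _ := mul_le_mul' le_rfl h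
  rw [blocksum_sd a k]
  calc ENNReal.ofReal (sd (k + a) ^ (d + 1)) * 2 ^ (a * (d + 1)) * ENNReal.ofReal (2 ^ k)
      ≤ ((2 ^ d)⁻¹ * (4 * vp d (blocksum_FS τ F a k ∩ (cube 0 (k + a) i ×ˢ univ)))) *
          2 ^ (a * (d + 1)) * ENNReal.ofReal (2 ^ k) := by gcongr
    _ = _ := by ring

theorem blocksum_disj (τ : X d) (F : Finset (ℕ × Idx d)) (a k : ℕ) :
    ∑' i : Idx d, vp d (blocksum_FS τ F a k ∩ (cube 0 (k + a) i ×ˢ univ)) ≤
      vp d (blocksum_FS τ F a k) := by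
  refine (tsum_meas_le_meas_iUnion_of_disjoint (vp d) (fun i => ?_) ?_).trans
    (measure_mono (iUnion_subset fun i => inter_subset_left))
  · exact (blocksum_meas τ F a k).inter ((measurableSet_cube _ _ _).prod MeasurableSet.univ)
  · intro i j hij
    refine Disjoint.mono inter_subset_right inter_subset_right ?_
    exact (cube_disjoint 0 (k + a) hij).set_prod_left _ _

open Classical in
theorem blocksum_level (ν : Measure (X d)) (t : ℝ≥0∞) {τ : X d} (hτ : τ ∈ shifts d)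
    (F : Finset (ℕ × Idx d)) (hF : ∀ P ∈ F, Heavy ν t τ P.1 P.2) (a : ℕ) {η : ℝ≥0∞}
    (hη : η ≤ 1 / 4) (k : ℕ) :
    ∑' (j : Idx d) (i : Idx d),
      (if Sub a j i ∧ Sparse ν t a η k i ∧
          Blocked (Obs τ (F : Set (ℕ × Idx d)) (k + a + 5)) a k i
        then ENNReal.ofReal (sd k ^ d) else 0) ≤
    3 ^ (d + 1) * ((2 ^ d)⁻¹ * 4 * 2 ^ (a * (d + 1))) *
      (ENNReal.ofReal (2 ^ k) * vp d (blocksum_FS τ F a k)) := by
  have e : ∀ j i : Idx d, (if Sub a j i ∧ Sparse ν t a η k i ∧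
          Blocked (Obs τ (F : Set (ℕ × Idx d)) (k + a + 5)) a k i
        then ENNReal.ofReal (sd k ^ d) else 0) =
      (if Sub a j i then (1 : ℝ≥0∞) else 0) * (if Sparse ν t a η k i ∧
          Blocked (Obs τ (F : Set (ℕ × Idx d)) (k + a + 5)) a k i
        then ENNReal.ofReal (sd k ^ d) else 0) := by
    intro j i
    by_cases h1 : Sub a j i <;> by_cases h2 : (Sparse ν t a η k i ∧
          Blocked (Obs τ (F : Set (ℕ × Idx d)) (k + a + 5)) a k i) <;> simp [h1, h2]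
  simp_rw [e]
  rw [ENNReal.tsum_comm]
  simp_rw [ENNReal.tsum_mul_right]
  calc ∑' i : Idx d, (∑' j : Idx d, (if Sub a j i then (1 : ℝ≥0∞) else 0)) *
        (if Sparse ν t a η k i ∧ Blocked (Obs τ (F : Set (ℕ × Idx d)) (k + a + 5)) a k i
          then ENNReal.ofReal (sd k ^ d) else 0)
      ≤ ∑' i : Idx d, 3 ^ (d + 1) * ((2 ^ d)⁻¹ * 4 * 2 ^ (a * (d + 1)) *
          (ENNReal.ofReal (2 ^ k) *
            vp d (blocksum_FS τ F a k ∩ (cube 0 (k + a) i ×ˢ univ)))) := by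
        refine ENNReal.tsum_le_tsum fun i => mul_le_mul' (tsum_Sub_le a i) ?_
        split_ifs with h
        · exact blocksum_cost ν t hτ F hF a hη k i h.1 h.2
        · exact zero_le
    _ = 3 ^ (d + 1) * ((2 ^ d)⁻¹ * 4 * 2 ^ (a * (d + 1)) *
          (ENNReal.ofReal (2 ^ k) *
            ∑' i : Idx d, vp d (blocksum_FS τ F a k ∩ (cube 0 (k + a) i ×ˢ univ)))) := by
        rw [ENNReal.tsum_mul_left, ENNReal.tsum_mul_left, ENNReal.tsum_mul_left]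
    _ ≤ 3 ^ (d + 1) * ((2 ^ d)⁻¹ * 4 * 2 ^ (a * (d + 1)) *
          (ENNReal.ofReal (2 ^ k) * vp d (blocksum_FS τ F a k))) := by
        gcongr
        exact blocksum_disj τ F a k
    _ = _ := by ring

open Classical in
theorem block_sum (ν : Measure (X d)) (t : ℝ≥0∞) {τ : X d} (hτ : τ ∈ shifts d)
    (F : Finset (ℕ × Idx d)) (hF : ∀ P ∈ F, Heavy ν t τ P.1 P.2) (a : ℕ) {η : ℝ≥0∞}
    (hη : η ≤ 1 / 4) :
    ∑' (k : ℕ) (j : Idx d) (i : Idx d),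
      (if Sub a j i ∧ Sparse ν t a η k i ∧
          Blocked (Obs τ (F : Set (ℕ × Idx d)) (k + a + 5)) a k i
        then ENNReal.ofReal (sd k ^ d) else 0) ≤
    4 * 3 ^ (d + 1) * 2 ^ (a * (d + 1)) * (a * 34 ^ d) * ∑ P ∈ F, ENNReal.ofReal (sd P.1 ^ d) := by
  have h2 : (2 : ℝ≥0∞) ^ d ≠ 0 := pow_ne_zero _ (by norm_num)
  have h3 : (2 : ℝ≥0∞) ^ d ≠ ∞ := ENNReal.pow_ne_top (by norm_num)
  refine (ENNReal.tsum_le_tsum fun k => blocksum_level ν t hτ F hF a hη k).trans ?_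
  rw [ENNReal.tsum_mul_left]
  calc 3 ^ (d + 1) * ((2 ^ d)⁻¹ * 4 * 2 ^ (a * (d + 1))) *
        ∑' k : ℕ, ENNReal.ofReal (2 ^ k) * vp d (blocksum_FS τ F a k)
      ≤ 3 ^ (d + 1) * ((2 ^ d)⁻¹ * 4 * 2 ^ (a * (d + 1))) *
        (2 ^ d * (a * 34 ^ d) * ∑ P ∈ F, ENNReal.ofReal (sd P.1 ^ d)) :=
        mul_le_mul' le_rfl (pack τ F a)
    _ = ((2 ^ d)⁻¹ * 2 ^ d) * (4 * 3 ^ (d + 1) * 2 ^ (a * (d + 1)) * (a * 34 ^ d) *
          ∑ P ∈ F, ENNReal.ofReal (sd P.1 ^ d)) := by ring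
    _ = _ := by rw [ENNReal.inv_mul_cancel h2 h3, one_mul]

end BDJ
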