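import Pool.Agent.BDJ.Defs

/-!
# Selection of points avoiding small bad sets (row SEL)

Probabilistic argument: the normalised restrictions `P i` of Lebesgue measure to `Bx i` are probability measures; choose `y` with law `Measure.pi P`. The event
`y i ∈ Un i` has probability `≤ ς`, the event `(y i, y j) ∈ Bi i j` (`i ≠ j`) has probability `≤ ς` (the pair `(y i, y j)` has law `(P i).prod (P j)`; for instance through
`ProbabilityTheory.iIndepFun_pi`). The total is `≤ (N + N^2) ς < 1`.
-/

open MeasureTheory Set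
open scoped ENNReal NNReal

namespace BDJ

variable {d : ℕ}

/-- the normalised restriction of Lebesgue measure -/
noncomputable def sel_P (B : Set (X d)) : Measure (X d) := (volume B)⁻¹ • volume.restrict B

theorem sel_P_prob {B : Set (X d)} (h0 : volume B ≠ 0) (h1 : volume B ≠ ∞) :
    IsProbabilityMeasure (sel_P B) := by
  constructor
  unfold sel_P
  rw [Measure.smul_apply, Measure.restrict_apply_univ, smul_eq_mul]
  exact ENNReal.inv_mul_cancel h0 h1

theorem sel_P_apply {B : Set (X d)} (hB : MeasurableSet B) (S : Set (X d)) :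
    sel_P B S = (volume B)⁻¹ * volume (B ∩ S) := by
  unfold sel_P
  rw [Measure.smul_apply, Measure.restrict_apply' hB, smul_eq_mul, inter_comm]

theorem sel_P_prod_apply {B B' : Set (X d)} (hB : MeasurableSet B) (hB' : MeasurableSet B')
    (h1 : volume B ≠ ∞) (h1' : volume B' ≠ ∞)
    (S : Set (X d × X d)) :
    ((sel_P B).prod (sel_P B')) S =
      (volume B)⁻¹ * (volume B')⁻¹ * (volume.prod volume) ((B ×ˢ B') ∩ S) := by
  unfold sel_P
  have := Fact.mk h1.lt_top
  have := Fact.mk h1'.lt_top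
  rw [Measure.prod_smul_left, Measure.prod_smul_right, Measure.prod_restrict, Measure.smul_apply, Measure.smul_apply,
    Measure.restrict_apply' (hB.prod hB'), smul_eq_mul, smul_eq_mul, inter_comm, mul_assoc]

theorem sel {N : ℕ} (Bx : Fin N → Set (X d)) (hB : ∀ i, MeasurableSet (Bx i))
    (h0 : ∀ i, volume (Bx i) ≠ 0) (h1 : ∀ i, volume (Bx i) ≠ ∞)
    (Un : Fin N → Set (X d)) (hU : ∀ i, MeasurableSet (Un i))
    (Bi : Fin N → Fin N → Set (X d × X d)) (hBi : ∀ i j, MeasurableSet (Bi i j)) {ς : ℝ≥0∞}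
    (hς : (N + N ^ 2) * ς < 1) (h2 : ∀ i, volume (Bx i ∩ Un i) ≤ ς * volume (Bx i))
    (h3 : ∀ i j, i ≠ j → (volume.prod volume) ((Bx i ×ˢ Bx j) ∩ Bi i j) ≤
      ς * (volume (Bx i) * volume (Bx j))) :
    ∃ y : Fin N → X d, (∀ i, y i ∈ Bx i ∧ y i ∉ Un i) ∧ ∀ i j, i ≠ j → (y i, y j) ∉ Bi i j := by
  have hP : ∀ i, IsProbabilityMeasure (sel_P (Bx i)) := fun i => sel_P_prob (h0 i) (h1 i)
  set μ : Measure (Fin N → X d) := Measure.pi fun i => sel_P (Bx i) with hμ
  have hprob : IsProbabilityMeasure μ := by rw [hμ]; infer_instance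
  -- the first bad events
  let E1 : Fin N → Set (Fin N → X d) := fun i => {y | y i ∈ (Bx i)ᶜ ∪ Un i}
  let E2 : Fin N → Fin N → Set (Fin N → X d) := fun i j => if i = j then ∅ else {y | (y i, y j) ∈ Bi i j}
  have hE1 : ∀ i, μ (E1 i) ≤ ς := by
    intro i
    have hmp := measurePreserving_eval (fun i => sel_P (Bx i)) i
    have hm : MeasurableSet ((Bx i)ᶜ ∪ Un i) := (hB i).compl.union (hU i)
    have e : μ (E1 i) = sel_P (Bx i) ((Bx i)ᶜ ∪ Un i) := hmp.measure_preimage hm.nullMeasurableSet
    rw [e, sel_P_apply (hB i), inter_union_distrib_left, inter_compl_self, empty_union]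
    calc (volume (Bx i))⁻¹ * volume (Bx i ∩ Un i) ≤ (volume (Bx i))⁻¹ * (ς * volume (Bx i)) := by
          gcongr
          exact h2 i
      _ = ς * ((volume (Bx i))⁻¹ * volume (Bx i)) := by ring
      _ = ς := by rw [ENNReal.inv_mul_cancel (h0 i) (h1 i), mul_one]
  have hE2 : ∀ i j, μ (E2 i j) ≤ ς := by
    intro i j
    by_cases hij : i = j
    · have : E2 i j = ∅ := if_pos hij
      rw [this, measure_empty]
      exact zero_le
    · have e0 : E2 i j = {y | (y i, y j) ∈ Bi i j} := if_neg hij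
      have hind := ProbabilityTheory.iIndepFun_pi (μ := fun i => sel_P (Bx i)) (X := fun _ => id)
        (fun _ => aemeasurable_id)
      have hij2 : μ.map (fun ω => (ω i, ω j)) = (μ.map fun ω => ω i).prod (μ.map fun ω => ω j) :=
        (hind.indepFun hij).map_prod_eq_prod_map_map (measurable_pi_apply i).aemeasurable
          (measurable_pi_apply j).aemeasurable
      have em : ∀ k : Fin N, (μ.map fun ω => ω k) = sel_P (Bx k) := fun k =>
        (measurePreserving_eval (fun i => sel_P (Bx i)) k).map_eq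
      have e1 : μ (E2 i j) = (μ.map fun ω => (ω i, ω j)) (Bi i j) := by
        rw [e0, Measure.map_apply ((measurable_pi_apply i).prodMk (measurable_pi_apply j)) (hBi i j)]
        rfl
      rw [e1, hij2, em i, em j, sel_P_prod_apply (hB i) (hB j) (h1 i) (h1 j)]
      calc (volume (Bx i))⁻¹ * (volume (Bx j))⁻¹ * (volume.prod volume) ((Bx i ×ˢ Bx j) ∩ Bi i j)
          ≤ (volume (Bx i))⁻¹ * (volume (Bx j))⁻¹ * (ς * (volume (Bx i) * volume (Bx j))) := by
            gcongr
            exact h3 i j hij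
        _ = ς * (((volume (Bx i))⁻¹ * volume (Bx i)) * ((volume (Bx j))⁻¹ * volume (Bx j))) := by ring
        _ = ς := by rw [ENNReal.inv_mul_cancel (h0 i) (h1 i), ENNReal.inv_mul_cancel (h0 j) (h1 j), mul_one, mul_one]
  have htot : μ ((⋃ i, E1 i) ∪ ⋃ i, ⋃ j, E2 i j) < 1 := by
    refine lt_of_le_of_lt ?_ hς
    calc μ ((⋃ i, E1 i) ∪ ⋃ i, ⋃ j, E2 i j) ≤ μ (⋃ i, E1 i) + μ (⋃ i, ⋃ j, E2 i j) := measure_union_le _ _
      _ ≤ ∑ i, μ (E1 i) + ∑ i, ∑ j, μ (E2 i j) := by
          refine add_le_add (measure_iUnion_fintype_le _ _) ((measure_iUnion_fintype_le _ _).trans ?_)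
          exact Finset.sum_le_sum fun i _ => measure_iUnion_fintype_le _ _
      _ ≤ ∑ i : Fin N, ς + ∑ i : Fin N, ∑ j : Fin N, ς := by
          refine add_le_add (Finset.sum_le_sum fun i _ => hE1 i) ?_
          exact Finset.sum_le_sum fun i _ => Finset.sum_le_sum fun j _ => hE2 i j
      _ = (N + N ^ 2) * ς := by
          simp only [Finset.sum_const, Finset.card_univ, Fintype.card_fin, nsmul_eq_mul]
          ring
  have hne : ∃ y, y ∉ ((⋃ i, E1 i) ∪ ⋃ i, ⋃ j, E2 i j) := by
    by_contra hcon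
    push Not at hcon
    rw [eq_univ_of_forall hcon, measure_univ] at htot
    exact lt_irrefl _ htot
  obtain ⟨y, hy⟩ := hne
  simp only [mem_union, mem_iUnion, not_or, not_exists] at hy
  refine ⟨y, fun i => ?_, fun i j hij => ?_⟩
  · have h := hy.1 i
    simp only [E1, mem_ofPred_eq, mem_union, mem_compl_iff, not_or, not_not] at h
    exact h
  · have h := hy.2 i j
    have e0 : E2 i j = {y | (y i, y j) ∈ Bi i j} := if_neg hij
    rw [e0] at h
    exact h

end BDJ
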