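import Pool.Agent.BDJ.Sl
import Pool.Agent.BDJ.Sel
import Pool.Agent.BDJ.GridB

/-!
# Poincare inequality in `L^1` on boxes (row KP)

`Q = bx c l`, `m_Q = ∫_Q h`, `n = d+1`. By `line` with `s = 1`, `w = y`, `v = x - y` (`Q` is convex): for every `i`, `g_i(x,y) := |e i (x - y) (u x - u y)| ≤ C0 ‖x-y‖^(deg+1) ∫_0^1 h(y + τ (x-y)) dτ`. So
`I_i = ∫_{Q×Q} g_i ≤ C0 l^(deg+1) ∫_0^1 ∫_{Q×Q} h(y + τ (x-y)) ≤ C0 l^(deg+1) 2^n l^n m_Q`: for `τ ∈ [1/2,1]` substitute `z = y + τ (x - y)` for fixed `y, τ` (`dx = τ^(-n) dz ≤ 2^n dz`, `z ∈ Q`), for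
`τ ∈ [0,1/2]` substitute in `y` for fixed `x`. If `m_Q = ∞` the statement is trivial (`p = 0`-like element, e.g. any element of `R`, `R` is nonempty by `P_mem`; take `C > 0`).

Base cubes `B_β` (centre `c + l * z0 β`, half-side `δ l`) lie in `Q`. Choose by `sel` (`N = nb`, unary and binary bad sets, Markov) `y β ∈ B_β` with, for all `i`,
`g_i(y β, y β') ≤ A I_i / l^(2n)` for all `β ≠ β'`, and `∫_Q g_i(x, y β) dx ≤ A I_i / l^n`, `A = A(S)` large (if `I_i = 0` the bad sets, defined by `> 0`, are null). `S.la` with `o = c`, `U β = u (y β)`,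
`D l^deg = A max_i I_i / l^(2n)`, and for each `x ∈ Q`, `B(x) l^deg = max_{i,β} g_i(x, y β)`, gives `‖u x - p x‖ ≤ CL (B(x) + D)` for all `x ∈ Q` (`‖x - c‖ ≤ l`), and
integrating `∫_Q ‖u - p‖ ≤ C l^(-deg) (∑ I_i / l^n) ≤ C l m_Q`.
-/

open MeasureTheory Set
open scoped ENNReal NNReal

namespace BDJ

variable {d : ℕ} {V : Type*} [NormedAddCommGroup V] [NormedSpace ℝ V] [FiniteDimensional ℝ V]


theorem kp_lint_smul {f : X d → ℝ≥0∞} (hf : Measurable f) {s : ℝ} (hs : 0 < s) (y : X d) :
    ∫⁻ x, f (s • x + y) = ENNReal.ofReal ((s ^ (d + 1))⁻¹) * ∫⁻ x, f x := by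
  have h1 : ∫⁻ x, f (s • x + y) = ∫⁻ x, f (x + y) ∂(Measure.map (fun x : X d => s • x) volume) := by
    have h3 : Measurable fun x : X d => f (x + y) := hf.comp (by fun_prop)
    rw [lintegral_map h3 (measurable_const_smul s)]
  rw [h1, Measure.map_addHaar_smul volume hs.ne', lintegral_smul_measure,
    lintegral_add_right_eq_self]
  have h2 : |(s ^ Module.finrank ℝ (X d))⁻¹| = (s ^ (d + 1))⁻¹ := by
    rw [abs_of_nonneg (by positivity)]
    simp [X]
  rw [h2, smul_eq_mul]

theorem kp_half {f : X d → ℝ≥0∞} (hf : Measurable f) {s : ℝ} (hs : 1 / 2 ≤ s) (y : X d) :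
    ∫⁻ x, f (s • x + y) ≤ 2 ^ (d + 1) * ∫⁻ x, f x := by
  rw [kp_lint_smul hf (by linarith) y]
  gcongr
  have h1 : (s ^ (d + 1))⁻¹ ≤ 2 ^ (d + 1) := by
    rw [inv_le_comm₀ (by positivity) (by positivity), ← inv_pow]
    exact pow_le_pow_left₀ (by norm_num) (by linarith) _
  calc ENNReal.ofReal ((s ^ (d + 1))⁻¹) ≤ ENNReal.ofReal (2 ^ (d + 1)) :=
        ENNReal.ofReal_le_ofReal h1
    _ = 2 ^ (d + 1) := by
        rw [ENNReal.ofReal_pow (by norm_num)]
        norm_num

theorem kp_main {h : X d → ℝ≥0∞} (hm : Measurable h) (c : X d) {l : ℝ} (hl : 0 < l) :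
    ∫⁻ y in bx c l, ∫⁻ x in bx c l, rm ((bx c l).indicator h) 1 y (x - y) ≤
      2 ^ (d + 1) * ENNReal.ofReal (l ^ (d + 1)) * ∫⁻ x in bx c l, h x := by
  set g : X d → ℝ≥0∞ := (bx c l).indicator h with hg
  have hgm : Measurable g := hm.indicator (measurableSet_bx c l)
  have hgi : ∫⁻ x, g x = ∫⁻ x in bx c l, h x := lintegral_indicator (measurableSet_bx c l) h
  have hQ : volume (bx c l) = ENNReal.ofReal (l ^ (d + 1)) := volume_bx c hl.le
  rw [← hgi]
  set m := ∫⁻ x, g x with hmm
  have key : ∀ s ∈ Icc (0 : ℝ) 1, ∫⁻ y in bx c l, ∫⁻ x in bx c l, g (y + s • (x - y)) ≤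
      2 ^ (d + 1) * ENNReal.ofReal (l ^ (d + 1)) * m := by
    intro s hs
    rcases le_total (1 / 2) s with h2 | h2
    · calc ∫⁻ y in bx c l, ∫⁻ x in bx c l, g (y + s • (x - y))
          ≤ ∫⁻ y in bx c l, 2 ^ (d + 1) * m := by
            apply lintegral_mono
            intro y
            calc ∫⁻ x in bx c l, g (y + s • (x - y)) ≤ ∫⁻ x, g (y + s • (x - y)) :=
                  setLIntegral_le_lintegral _ _
              _ = ∫⁻ x, g (s • x + (y - s • y)) := by
                  congr 1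
                  ext x
                  congr 1
                  rw [smul_sub]
                  abel
              _ ≤ _ := kp_half hgm h2 _
        _ = _ := by
            rw [setLIntegral_const, hQ]
            ring
    · rw [lintegral_lintegral_swap]
      · have h5 : ∀ x, ∫⁻ y in bx c l, g (y + s • (x - y)) ≤ 2 ^ (d + 1) * m := by
          intro x
          calc ∫⁻ y in bx c l, g (y + s • (x - y)) ≤ ∫⁻ y, g (y + s • (x - y)) :=
                setLIntegral_le_lintegral _ _
            _ = ∫⁻ y, g ((1 - s) • y + s • x) := by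
                congr 1
                ext y
                congr 1
                rw [smul_sub, sub_smul, one_smul]
                abel
            _ ≤ _ := kp_half hgm (by linarith) _
        refine (lintegral_mono h5).trans (le_of_eq ?_)
        rw [setLIntegral_const, hQ]
        ring
      · apply Measurable.aemeasurable
        apply hgm.comp
        fun_prop
  have hF : Measurable fun p : (X d × X d) × ℝ => g (p.1.1 + p.2 • (p.1.2 - p.1.1)) := by
    apply hgm.comp
    fun_prop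
  calc ∫⁻ y in bx c l, ∫⁻ x in bx c l, rm g 1 y (x - y)
      = ∫⁻ y in bx c l, ∫⁻ s in Icc (0 : ℝ) 1, ∫⁻ x in bx c l, g (y + s • (x - y)) := by
        congr 1
        ext y
        unfold rm
        rw [lintegral_lintegral_swap]
        apply Measurable.aemeasurable
        apply hgm.comp
        fun_prop
    _ = ∫⁻ s in Icc (0 : ℝ) 1, ∫⁻ y in bx c l, ∫⁻ x in bx c l, g (y + s • (x - y)) := by
        rw [lintegral_lintegral_swap]
        apply Measurable.aemeasurable
        have h3 : Measurable fun p : (X d × ℝ) × X d => g (p.1.1 + p.1.2 • (p.2 - p.1.1)) := by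
          apply hgm.comp
          fun_prop
        exact h3.lintegral_prod_right' (ν := volume.restrict (bx c l))
    _ ≤ ∫⁻ s in Icc (0 : ℝ) 1, 2 ^ (d + 1) * ENNReal.ofReal (l ^ (d + 1)) * m :=
        setLIntegral_mono' measurableSet_Icc key
    _ = _ := by
        rw [setLIntegral_const]
        simp

theorem kp_markov {α : Type*} [MeasurableSpace α] (μ : Measure α) {f : α → ℝ≥0∞}
    (hf : Measurable f) {K : ℝ≥0∞} (hK0 : K ≠ 0) (hK : K ≠ ∞) :
    μ {y | (∫⁻ y, f y ∂μ) / K < f y} ≤ K := by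
  rcases eq_or_ne (∫⁻ y, f y ∂μ) 0 with h0 | h0
  · have h1 : f =ᵐ[μ] 0 := (lintegral_eq_zero_iff hf).1 h0
    have h2 : μ {y | (∫⁻ y, f y ∂μ) / K < f y} = 0 := by
      rw [h0, ENNReal.zero_div]
      have h3 : ∀ᵐ y ∂μ, ¬ (0 < f y) := by
        filter_upwards [h1] with y hy
        simp [hy]
      have h4 := ae_iff.1 h3
      have h5 : {a | ¬¬0 < f a} = {y | 0 < f y} := by
        ext a
        exact not_not
      rwa [h5] at h4
    rw [h2]
    exact zero_le
  rcases eq_or_ne (∫⁻ y, f y ∂μ) ∞ with ht | ht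
  · have h2 : {y | (∫⁻ y, f y ∂μ) / K < f y} = ∅ := by
      rw [ht, ENNReal.top_div_of_ne_top hK]
      ext y
      simp
    rw [h2]
    simp
  · have h3 : (∫⁻ y, f y ∂μ) / K ≠ 0 := by
      simp [ENNReal.div_eq_zero_iff, h0, hK]
    have h4 : (∫⁻ y, f y ∂μ) / K ≠ ∞ := ENNReal.div_ne_top ht hK0
    calc μ {y | (∫⁻ y, f y ∂μ) / K < f y} ≤ μ {y | (∫⁻ y, f y ∂μ) / K ≤ f y} :=
          measure_mono (fun y (hy : (∫⁻ y, f y ∂μ) / K < f y) => hy.le)
      _ ≤ (∫⁻ y, f y ∂μ) / ((∫⁻ y, f y ∂μ) / K) := meas_ge_le_lintegral_div hf.aemeasurable h3 h4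
      _ = K := by
          rw [ENNReal.div_eq_inv_mul, ENNReal.inv_div (Or.inl hK) (Or.inl hK0), mul_comm,
            ENNReal.mul_div_cancel h0 ht]


theorem kp_dist {c : X d} {l : ℝ} (hl : 0 < l) {x y : X d} (hx : x ∈ bx c l) (hy : y ∈ bx c l) :
    ‖x - y‖ ≤ l := by
  rw [pi_norm_le_iff_of_nonneg hl.le]
  intro i
  rw [Real.norm_eq_abs, Pi.sub_apply, abs_le]
  have h1 := hx i
  have h2 := hy i
  constructor <;> linarith [h1.1, h1.2, h2.1, h2.2]

theorem kp_rm_indicator (h : X d → ℝ≥0∞) {c : X d} {l : ℝ} {x y : X d}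
    (hx : x ∈ bx c l) (hy : y ∈ bx c l) :
    rm h 1 y (x - y) = rm ((bx c l).indicator h) 1 y (x - y) := by
  unfold rm
  apply setLIntegral_congr_fun measurableSet_Icc
  intro s hs
  have h1 : y + s • (x - y) ∈ bx c l := by
    have h2 := (convex_bx c l) hy hx (a := 1 - s) (b := s) (by linarith [hs.2]) hs.1 (by ring)
    have h3 : y + s • (x - y) = (1 - s) • y + s • x := by
      rw [smul_sub, sub_smul, one_smul]
      abel
    rwa [h3]
  simp only
  rw [indicator_of_mem h1]

theorem kp_seg {c : X d} {l : ℝ} {x y : X d}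
    (hx : x ∈ bx c l) (hy : y ∈ bx c l) : ∀ r ∈ Icc (0 : ℝ) 1, y + r • (x - y) ∈ bx c l := by
  intro s hs
  have h2 := (convex_bx c l) hy hx (a := 1 - s) (b := s) (by linarith [hs.2]) hs.1 (by ring)
  have h3 : y + s • (x - y) = (1 - s) • y + s • x := by
    rw [smul_sub, sub_smul, one_smul]
    abel
  rwa [h3]

omit [FiniteDimensional ℝ V] in
theorem kp_est (S : Slicing d V) {u : X d → V} {h : X d → ℝ≥0∞} {U : Set (X d)}
    (hS : SStrain S u h U) {c : X d} {l : ℝ} (hl : 0 < l) (hU : bx c l ⊆ U) (i : Fin S.N)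
    {x y : X d} (hx : x ∈ bx c l) (hy : y ∈ bx c l) :
    ENNReal.ofReal |S.e i (x - y) (u x - u y)| ≤
      ENNReal.ofReal (S.C0 * l ^ (S.deg + 1)) * rm ((bx c l).indicator h) 1 y (x - y) := by
  have h1 := hS.line i y (x - y) 1 zero_le_one (fun r hr => hU (kp_seg hx hy r hr))
  have h2 : y + (1 : ℝ) • (x - y) = x := by
    rw [one_smul]
    abel
  rw [h2, kp_rm_indicator h hx hy] at h1
  refine h1.trans ?_
  gcongr
  · exact S.C0_pos.le
  · exact kp_dist hl hx hy

theorem kp (S : Slicing d V) : ∃ C : ℝ≥0, ∀ {u : X d → V} {h : X d → ℝ≥0∞} {U : Set (X d)},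
    SStrain S u h U → ∀ (c : X d) (l : ℝ), 0 < l → bx c l ⊆ U →
    ∃ p ∈ S.R, ∫⁻ x in bx c l, ENNReal.ofReal ‖u x - p x‖ ≤
      C * ENNReal.ofReal l * ∫⁻ x in bx c l, h x := by
  classical
  have hδ := S.δ_pos
  have hC0 := S.C0_pos
  set ς : ℝ := ((S.nb : ℝ) + (S.nb : ℝ) ^ 2 + 1)⁻¹ with hςd
  have hς : 0 < ς := by positivity
  set A1 : ℝ := 2 ^ (d + 1) / (ς * (2 * S.δ) ^ (d + 1)) with hA1d
  set A2 : ℝ := 2 ^ (d + 1) / (ς * ((2 * S.δ) ^ (d + 1) * (2 * S.δ) ^ (d + 1))) with hA2d
  have hA1 : 0 < A1 := by positivity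
  have hA2 : 0 < A2 := by positivity
  set C : ℝ := (|S.CL| + 1) * (S.C0 * (S.nb * A1 + A2)) + 1 with hCd
  have hC : 0 < C := by positivity
  refine ⟨C.toNNReal, ?_⟩
  intro u h U hS c l hl hU
  have hCC : ((C.toNNReal : ℝ≥0) : ℝ≥0∞) = ENNReal.ofReal C := rfl
  rw [hCC]
  set Q := bx c l with hQd
  have hQm : MeasurableSet Q := measurableSet_bx c l
  set m := ∫⁻ x in Q, h x with hmd
  rcases eq_or_ne m ∞ with hmt | hmt
  · refine ⟨S.P u c l, S.P_mem u c l, ?_⟩
    rw [hmt, ENNReal.mul_top]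
    · exact le_top
    · have h1 : 0 < ENNReal.ofReal C := ENNReal.ofReal_pos.2 hC
      have h2 : 0 < ENNReal.ofReal l := ENNReal.ofReal_pos.2 hl
      exact mul_ne_zero h1.ne' h2.ne'
  set g := Q.indicator h with hgd
  have hgm : Measurable g := hS.meas.indicator hQm
  set H : X d → X d → ℝ≥0∞ := fun x y => rm g 1 y (x - y) with hHd
  have hHm : Measurable (fun p : X d × X d => H p.1 p.2) := by
    have h3 : Measurable fun p : (X d × X d) × ℝ => g (p.1.2 + p.2 • (p.1.1 - p.1.2)) := by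
      apply hgm.comp
      fun_prop
    exact h3.lintegral_prod_right' (ν := volume.restrict (Icc (0 : ℝ) 1))
  set F : X d → ℝ≥0∞ := fun y => ∫⁻ x in Q, H x y with hFd
  have hFm : Measurable F := by
    have h3 : Measurable fun p : X d × X d => H p.2 p.1 := hHm.comp measurable_swap
    exact h3.lintegral_prod_right' (ν := volume.restrict Q)
  set I : ℝ≥0∞ := ∫⁻ y in Q, F y with hId
  have hI : I ≤ 2 ^ (d + 1) * ENNReal.ofReal (l ^ (d + 1)) * m := kp_main hS.meas c hl
  have hJ : ∫⁻ p, H p.1 p.2 ∂((volume.restrict Q).prod (volume.restrict Q)) = I := by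
    rw [lintegral_prod_symm' _ hHm]
  have hest : ∀ i, ∀ x ∈ Q, ∀ y ∈ Q, ENNReal.ofReal |S.e i (x - y) (u x - u y)| ≤
      ENNReal.ofReal (S.C0 * l ^ (S.deg + 1)) * H x y := fun i x hx y hy =>
    kp_est S hS hl hU i hx hy
  -- base cubes
  set Bx : Fin S.nb → Set (X d) := fun β => Icc (fun e => c e + l * S.z0 β e - S.δ * l)
    (fun e => c e + l * S.z0 β e + S.δ * l) with hBd
  have hBQ : ∀ β, Bx β ⊆ Q := by
    intro β y hy e
    have h1 := S.z0_mem β e
    have h2 := hy.1 e
    have h3 := hy.2 e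
    simp only at h2 h3
    constructor <;> nlinarith
  have hBm : ∀ β, MeasurableSet (Bx β) := fun β => measurableSet_Icc
  set VB : ℝ := (2 * S.δ * l) ^ (d + 1) with hVBd
  have hVB : 0 < VB := by positivity
  have hBv : ∀ β, volume (Bx β) = ENNReal.ofReal VB := by
    intro β
    rw [hBd]
    simp only
    rw [Real.volume_Icc_pi]
    have h1 : ∀ e : Fin (d + 1), ENNReal.ofReal ((c e + l * S.z0 β e + S.δ * l) -
        (c e + l * S.z0 β e - S.δ * l)) = ENNReal.ofReal (2 * S.δ * l) := by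
      intro e
      congr 1
      ring
    simp only [h1]
    rw [Finset.prod_const, Finset.card_univ, Fintype.card_fin, hVBd,
      ENNReal.ofReal_pow (by positivity)]
  have hςN : ((S.nb : ℝ≥0∞) + (S.nb : ℝ≥0∞) ^ 2) * ENNReal.ofReal ς < 1 := by
    have h1 : ((S.nb : ℝ≥0∞) + (S.nb : ℝ≥0∞) ^ 2) =
        ENNReal.ofReal ((S.nb : ℝ) + (S.nb : ℝ) ^ 2) := by
      rw [ENNReal.ofReal_add (by positivity) (by positivity), ENNReal.ofReal_pow (by positivity),
        ENNReal.ofReal_natCast]
    rw [h1, ← ENNReal.ofReal_mul (by positivity), ENNReal.ofReal_lt_one, hςd,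
      ← div_eq_mul_inv, div_lt_one (by positivity)]
    linarith
  set ς' : ℝ≥0∞ := ENNReal.ofReal ς with hς'd
  obtain ⟨y, hy1, hy2⟩ := sel Bx hBm (fun i => by rw [hBv]; exact (ENNReal.ofReal_pos.2 hVB).ne')
    (fun i => by rw [hBv]; exact ENNReal.ofReal_ne_top)
    (fun _ => {y | I / (ς' * ENNReal.ofReal VB) < F y})
    (fun _ => measurableSet_lt measurable_const hFm)
    (fun _ _ => {p | I / (ς' * (ENNReal.ofReal VB * ENNReal.ofReal VB)) < H p.1 p.2})
    (fun _ _ => measurableSet_lt measurable_const hHm) hςN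
    (by
      intro i
      rw [hBv]
      calc volume (Bx i ∩ {y | I / (ς' * ENNReal.ofReal VB) < F y})
          ≤ volume ({y | I / (ς' * ENNReal.ofReal VB) < F y} ∩ Q) :=
            measure_mono fun z hz => ⟨hz.2, hBQ i hz.1⟩
        _ = (volume.restrict Q) {y | I / (ς' * ENNReal.ofReal VB) < F y} := by
            rw [Measure.restrict_apply (measurableSet_lt measurable_const hFm)]
        _ ≤ _ := kp_markov _ hFm
            (mul_ne_zero (ENNReal.ofReal_pos.2 hς).ne' (ENNReal.ofReal_pos.2 hVB).ne')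
            (ENNReal.mul_ne_top ENNReal.ofReal_ne_top ENNReal.ofReal_ne_top))
    (by
      intro i j _
      rw [hBv, hBv]
      calc (volume.prod volume) ((Bx i ×ˢ Bx j) ∩
            {p : X d × X d | I / (ς' * (ENNReal.ofReal VB * ENNReal.ofReal VB)) < H p.1 p.2})
          ≤ (volume.prod volume) ({p : X d × X d |
              I / (ς' * (ENNReal.ofReal VB * ENNReal.ofReal VB)) < H p.1 p.2} ∩ Q ×ˢ Q) :=
            measure_mono fun z hz => ⟨hz.2, hBQ i hz.1.1, hBQ j hz.1.2⟩
        _ = ((volume.restrict Q).prod (volume.restrict Q)) {p : X d × X d |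
              I / (ς' * (ENNReal.ofReal VB * ENNReal.ofReal VB)) < H p.1 p.2} := by
            rw [Measure.prod_restrict,
              Measure.restrict_apply (measurableSet_lt measurable_const hHm)]
        _ ≤ _ := by
            have h4 := kp_markov ((volume.restrict Q).prod (volume.restrict Q)) hHm
              (K := ς' * (ENNReal.ofReal VB * ENNReal.ofReal VB))
              (mul_ne_zero (ENNReal.ofReal_pos.2 hς).ne' (mul_ne_zero
                (ENNReal.ofReal_pos.2 hVB).ne' (ENNReal.ofReal_pos.2 hVB).ne'))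
              (ENNReal.mul_ne_top ENNReal.ofReal_ne_top
                (ENNReal.mul_ne_top ENNReal.ofReal_ne_top ENNReal.ofReal_ne_top))
            rw [hJ] at h4
            exact h4)
  have hyQ : ∀ β, y β ∈ Q := fun β => hBQ β (hy1 β).1
  have h2n : (2 : ℝ≥0∞) ^ (d + 1) = ENNReal.ofReal (2 ^ (d + 1)) := by
    rw [ENNReal.ofReal_pow (by norm_num)]
    norm_num
  have ht1 : ∀ β, F (y β) ≤ ENNReal.ofReal A1 * m := by
    intro β
    have h1 : F (y β) ≤ I / (ς' * ENNReal.ofReal VB) := not_lt.1 (hy1 β).2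
    refine h1.trans ((ENNReal.div_le_div_right hI _).trans (le_of_eq ?_))
    rw [h2n, ← ENNReal.ofReal_mul (by positivity), ← ENNReal.ofReal_mul hς.le,
      ENNReal.mul_div_right_comm, ← ENNReal.ofReal_div_of_pos (by positivity)]
    congr 2
    rw [hA1d, hVBd, mul_pow (2 * S.δ) l]
    field_simp
  have ht2 : ∀ β β', β ≠ β' → H (y β) (y β') ≤ ENNReal.ofReal (A2 / l ^ (d + 1)) * m := by
    intro β β' hne
    have h1 : H (y β) (y β') ≤ I / (ς' * (ENNReal.ofReal VB * ENNReal.ofReal VB)) :=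
      not_lt.1 (hy2 β β' hne)
    refine h1.trans ((ENNReal.div_le_div_right hI _).trans (le_of_eq ?_))
    rw [h2n, ← ENNReal.ofReal_mul (by positivity), ← ENNReal.ofReal_mul hVB.le,
      ← ENNReal.ofReal_mul hς.le,
      ENNReal.mul_div_right_comm, ← ENNReal.ofReal_div_of_pos (by positivity)]
    congr 2
    rw [hA2d, hVBd, mul_pow (2 * S.δ) l]
    field_simp
  set D : ℝ := S.C0 * l * (A2 / l ^ (d + 1) * m.toReal) with hDd
  have hD : 0 ≤ D := by positivity
  obtain ⟨p, hpR, hp⟩ := S.la l hl c y (by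
      intro b e
      have h1 := (hy1 b).1
      have h2 := h1.1 e
      have h3 := h1.2 e
      simp only at h2 h3
      rw [abs_le]
      constructor <;> linarith) (fun b => u (y b)) D (by
      intro b b' _ i
      rcases eq_or_ne b b' with hbb | hbb
      · subst hbb
        simp only [sub_self, map_zero, abs_zero]
        positivity
      · have h1 := hest i _ (hyQ b) _ (hyQ b')
        have h2 := h1.trans (mul_le_mul_right (ht2 b b' hbb) _)
        rw [← ENNReal.ofReal_toReal hmt, ← ENNReal.ofReal_mul (by positivity),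
          ← ENNReal.ofReal_mul (by positivity), ENNReal.ofReal_le_ofReal_iff (by positivity)] at h2
        refine h2.trans (le_of_eq ?_)
        rw [hDd]
        ring)
  refine ⟨p, hpR, ?_⟩
  have hpt : ∀ x ∈ Q, ENNReal.ofReal ‖u x - p x‖ ≤ ENNReal.ofReal (|S.CL| + 1) *
      (ENNReal.ofReal (S.C0 * l) * ∑ b, H x (y b) + ENNReal.ofReal D) := by
    intro x hx
    rcases eq_or_ne (∑ b, H x (y b)) ∞ with hs | hs
    · rw [hs, ENNReal.mul_top (ENNReal.ofReal_pos.2 (by positivity)).ne', top_add,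
        ENNReal.mul_top (ENNReal.ofReal_pos.2 (by positivity)).ne']
      exact le_top
    · have h1 := hp x (u x) (S.C0 * l * (∑ b, H x (y b)).toReal) (by
        have h2 : ‖x - c‖ ≤ l := kp_dist hl hx (by
          intro e
          constructor
          · exact le_refl _
          · linarith)
        linarith) (by
        intro b i
        have h2 := hest i _ hx _ (hyQ b)
        have h3 : H x (y b) ≤ ∑ b, H x (y b) :=
          Finset.single_le_sum (f := fun b => H x (y b)) (fun _ _ => zero_le) (Finset.mem_univ b)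
        have h4 := h2.trans (mul_le_mul_right h3 _)
        rw [← ENNReal.ofReal_toReal hs, ← ENNReal.ofReal_mul (by positivity),
          ENNReal.ofReal_le_ofReal_iff (by positivity)] at h4
        refine h4.trans (le_of_eq ?_)
        ring)
      have h5 : ‖u x - p x‖ ≤ (|S.CL| + 1) * (S.C0 * l * (∑ b, H x (y b)).toReal + D) := by
        refine h1.trans ?_
        gcongr
        linarith [le_abs_self S.CL]
      refine (ENNReal.ofReal_le_ofReal h5).trans (le_of_eq ?_)
      rw [ENNReal.ofReal_mul (by positivity), ENNReal.ofReal_add (by positivity) hD,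
        ENNReal.ofReal_mul (by positivity : (0 : ℝ) ≤ S.C0 * l), ENNReal.ofReal_toReal hs]
  have hHy : ∀ b, Measurable fun x => H x (y b) := fun b =>
    hHm.comp (measurable_id.prodMk measurable_const)
  calc ∫⁻ x in Q, ENNReal.ofReal ‖u x - p x‖
      ≤ ∫⁻ x in Q, ENNReal.ofReal (|S.CL| + 1) *
      (ENNReal.ofReal (S.C0 * l) * ∑ b, H x (y b) + ENNReal.ofReal D) :=
        setLIntegral_mono' hQm hpt
    _ = ENNReal.ofReal (|S.CL| + 1) *
      (ENNReal.ofReal (S.C0 * l) * ∑ b, F (y b) + ENNReal.ofReal D * volume Q) := by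
        rw [lintegral_const_mul, lintegral_add_right _ measurable_const, lintegral_const_mul,
          lintegral_finsetSum, setLIntegral_const]
        · exact fun b _ => hHy b
        · exact Finset.measurable_sum _ (fun b _ => hHy b)
        · exact ((Finset.measurable_sum _ (fun b _ => hHy b)).const_mul _).add measurable_const
    _ ≤ ENNReal.ofReal (|S.CL| + 1) *
      (ENNReal.ofReal (S.C0 * l) * ∑ _b : Fin S.nb, (ENNReal.ofReal A1 * m) +
        ENNReal.ofReal D * volume Q) := by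
        gcongr with b
        exact ht1 b
    _ = ENNReal.ofReal ((|S.CL| + 1) * (S.C0 * (S.nb * A1 + A2))) * ENNReal.ofReal l * m := by
        rw [hQd, volume_bx c hl.le, Finset.sum_const, Finset.card_univ, Fintype.card_fin,
          nsmul_eq_mul, ← ENNReal.ofReal_toReal hmt, ← ENNReal.ofReal_natCast S.nb,
          ← ENNReal.ofReal_mul hA1.le, ← ENNReal.ofReal_mul (by positivity),
          ← ENNReal.ofReal_mul (by positivity), ← ENNReal.ofReal_mul hD,
          ← ENNReal.ofReal_add (by positivity) (by positivity),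
          ← ENNReal.ofReal_mul (by positivity), ← ENNReal.ofReal_mul (by positivity),
          ← ENNReal.ofReal_mul (by positivity)]
        congr 1
        rw [hDd]
        field_simp
    _ ≤ ENNReal.ofReal C * ENNReal.ofReal l * m := by
        gcongr
        rw [hCd]
        linarith

end BDJ
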