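import Pool.Agent.BDJ.Step
import Pool.Agent.BDJ.KP

/-!
# The chain and the bound of the drift (row CHAIN)

`anc j m` is the ancestor of the index `j`, `m` levels up. Put `K = k0 + m`, `Sq = (K, j)`, `Q_k = (k, anc j (K-k))`, `k0 ≤ k ≤ K`, and suppose `Q_k` is in the class `θ (k - k0)`. Conclusion, for `x ∈ Sq`:
`‖SPQ u Sq x - SPQ u Q_{k0} x‖ ≤ C [ m(Sq)/sd K^d + ∑_{k ∈ [k0,K]} costQ(Q_k) + m(big 3 Q_{k0})/sd k0^d ]`, `m(A) = ∫_A h`.

Proof. Let `ε > 0` real; put `F_k` real with `Floc(Q_k) < F_k ≤ Floc + ε`, etc. We may assume all the `costQ` and masses on the right finite.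
Start at level `K`: `step` (start) gives a sparse `b_K ⊆ Sq`; `kp` on `Sq` gives `p_S ∈ R`, `∫_{Sq} ‖u - p_S‖ ≤ C sd K m(Sq)`; by Markov `p_S` fits `u` on `b_K` up to `T_K = C' (m(Sq)/sd K^d + ε)` outside
a fraction `ς` of `b_K` (`|b_K| = 2^(-a n) |Sq|`, `C'` depends on `a`, `ς`). Also `‖SPQ u Sq x - p_S x‖ ≤ C m(Sq)/sd K^d` on `Sq` (`P_lip` and `P_id`).
From level `k+1` to `k` (`k ≥ k0`): `step` with `q` real, `qc(b_{k+1}) < q ≤ qc + ε`; `qc(b_{k+1}) ≤ costQ(Q_{k+1})` because `b_{k+1}` is a sparse sub-cube (a term of the sum),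
`F = F_k`. The bounds hold on `big 3 Q_k ⊇ Sq`. Note `T_k = C F_k` for `k < K`. At the end `p_{k0}` fits `u` on `b_{k0}` (level `k0`) up to `C F_{k0}` (or `T_K` if `K = k0`).
Top: `kp` on the box `3 Q_{k0}` (lower corner `(j-1) sd k0`, side `3 sd k0`, contained in `big 3 Q_{k0}`): `p* ∈ R`; Markov: `‖u - p*‖ ≤ C'(m + ε)` on more than `3/4` of `b_{k0}`; so
`‖p_{k0} - p*‖ ≤ ...` on half of `b_{k0}`, `S.af` extends it to `Sq`; `P_lip`, `P_id` on `Q_{k0}` compare `p*` with `SPQ u Q_{k0}`. Add everything; the total of the `ε` terms is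
`C (K - k0 + 3) ε`, let `ε → 0`. `u` is continuous, so integrable on boxes.
-/

open MeasureTheory Set
open scoped ENNReal NNReal

namespace BDJ

variable {d : ℕ} {V : Type*} [NormedAddCommGroup V] [NormedSpace ℝ V] [FiniteDimensional ℝ V]

theorem cube_subset_anc (τ : X d) (k m : ℕ) (j : Idx d) :
    cube τ (k + m) j ⊆ cube τ k (anc j m) := by
  induction m generalizing j with
  | zero => exact subset_rfl
  | succ m ih => exact (cube_subset_par τ (k + m) j).trans (ih (par j))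

theorem chain_big_subset_anc {b : ℝ} (hb : 0 ≤ b) (τ : X d) (k m : ℕ) (j : Idx d) :
    big b τ (k + m) j ⊆ big b τ k (anc j m) := by
  induction m generalizing j with
  | zero => exact subset_rfl
  | succ m ih => exact (big_subset_par hb τ (k + m) j).trans (ih (par j))

theorem chain_qc_le {h : X d → ℝ≥0∞} {ν : Measure (X d)} {t : ℝ≥0∞} {a : ℕ} {η : ℝ≥0∞} {k : ℕ}
    {j i : Idx d} (h1 : Sub a j i) (h2 : Sparse ν t a η k i) :
    qc h a k i ≤ costQ h ν t a η k j := by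
  classical
  unfold costQ
  refine le_trans ?_ le_add_self
  refine le_trans ?_ (ENNReal.le_tsum i)
  rw [if_pos ⟨h1, h2⟩]

theorem chain_floc_le {h : X d → ℝ≥0∞} {ν : Measure (X d)} {t : ℝ≥0∞} {a : ℕ} {η : ℝ≥0∞} {k : ℕ}
    {j : Idx d} : Floc (volume.withDensity h) ν t a k j ≤ costQ h ν t a η k j := by
  unfold costQ
  exact le_self_add

omit [FiniteDimensional ℝ V] in
theorem chain_down (S : Slicing d V) {a : ℕ} {η ς : ℝ≥0∞} {C : ℝ} (hC : 0 < C)
    {u : X d → V} {h : X d → ℝ≥0∞} {U : Set (X d)}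
    (hstep : ∀ (ν : Measure (X d)) [IsFiniteMeasure ν] (θ : ℝ≥0∞) (k : ℕ) (j i : Idx d),
      big 3 0 k (par j) ⊆ U → InCl ν θ k (par j) → Sub a j i →
      ∀ (p : X d → V) (T q F : ℝ), 0 ≤ T → SFits S u (cube 0 (k + 1 + a) i) p T ς →
      qc h a (k + 1) i < ENNReal.ofReal q → 0 < F →
      Floc (volume.withDensity h) ν (c0 d * θ) a k (par j) ≤ ENNReal.ofReal F →
      ∃ (i' : Idx d) (p' : X d → V), Sub a (par j) i' ∧ Sparse ν (c0 d * θ) a η k i' ∧
        SFits S u (cube 0 (k + a) i') p' (C * F) ς ∧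
        ∀ x ∈ big 3 0 k (par j), ‖p x - p' x‖ ≤ C * (T + q + F))
    (ν : Measure (X d)) [IsFiniteMeasure ν] (k0 : ℕ) (θ : ℕ → ℝ≥0∞) (c : ℕ → ℝ)
    (hc : ∀ r, 0 < c r) :
    ∀ (m : ℕ) (j : Idx d), (∀ r ≤ m, InCl ν (θ r) (k0 + r) (anc j (m - r))) →
    (∀ r ≤ m, costQ h ν (c0 d * θ r) a η (k0 + r) (anc j (m - r)) < ENNReal.ofReal (c r)) →
    big 3 0 k0 (anc j m) ⊆ U →
    ∀ (i : Idx d) (p : X d → V) (T : ℝ), 0 ≤ T → Sub a j i →
    Sparse ν (c0 d * θ m) a η (k0 + m) i → SFits S u (cube 0 (k0 + m + a) i) p T ς →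
    ∃ (i' : Idx d) (p' : X d → V) (T' : ℝ), Sub a (anc j m) i' ∧
      SFits S u (cube 0 (k0 + a) i') p' T' ς ∧ (m = 0 → T' = T) ∧ (0 < m → T' = C * c 0) ∧
      ∀ x ∈ cube 0 (k0 + m) j, ‖p x - p' x‖ ≤
        C * T + C * (C + 2) * ∑ s ∈ Finset.range (m + 1), c s - C * (C + 1) * c m := by
  intro m
  induction m with
  | zero =>
    intro j _ _ _ i p T hT hs _ hf
    refine ⟨i, p, T, hs, hf, fun _ => rfl, fun h0 => absurd h0 (lt_irrefl _), ?_⟩
    intro x _
    rw [sub_self, norm_zero]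
    simp only [zero_add, Finset.range_one, Finset.sum_singleton]
    have h1 := hc 0
    have h2 : 0 ≤ C * T := by positivity
    have h3 : 0 ≤ C * c 0 := by positivity
    nlinarith
  | succ m ih =>
    intro j hin hcost hU i p T hT hs hsp hf
    have hpar : ∀ r ≤ m, anc (par j) (m - r) = anc j (m + 1 - r) := by
      intro r hr
      have h1 : m + 1 - r = (m - r) + 1 := by omega
      rw [h1]
      rfl
    have h0 : anc (par j) 0 = anc j (m + 1 - m) := by
      have h1 : m + 1 - m = 1 := by omega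
      rw [h1]
      rfl
    have hbig : big 3 0 (k0 + m) (par j) ⊆ U :=
      (chain_big_subset_anc (by norm_num) 0 k0 m (par j)).trans hU
    have hinm : InCl ν (θ m) (k0 + m) (par j) := by
      have h1 := hin m (by omega)
      rw [← h0] at h1
      exact h1
    have hcm : costQ h ν (c0 d * θ m) a η (k0 + m) (par j) < ENNReal.ofReal (c m) := by
      have h1 := hcost m (by omega)
      rw [← h0] at h1
      exact h1
    have hcm1 : costQ h ν (c0 d * θ (m + 1)) a η (k0 + (m + 1)) j < ENNReal.ofReal (c (m + 1)) := by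
      have h1 := hcost (m + 1) le_rfl
      rw [Nat.sub_self] at h1
      exact h1
    obtain ⟨i1, p1, hs1, hsp1, hf1, hd1⟩ := hstep ν (θ m) (k0 + m) j i hbig hinm hs p T (c (m + 1))
      (c m) hT hf ((chain_qc_le hs hsp).trans_lt hcm1) (hc m) (chain_floc_le.trans hcm.le)
    obtain ⟨i', p', T', hs', hf', h0', h1', hd'⟩ := ih (par j)
      (fun r hr => by rw [hpar r hr]; exact hin r (by omega))
      (fun r hr => by rw [hpar r hr]; exact hcost r (by omega)) hU i1 p1 (C * c m)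
      (mul_pos hC (hc m)).le hs1 hsp1 hf1
    refine ⟨i', p', T', hs', hf', fun h => absurd h (by omega), fun _ => ?_, ?_⟩
    · rcases Nat.eq_zero_or_pos m with hm | hm
      · rw [h0' hm, hm]
      · exact h1' hm
    · intro x hx
      have hx1 : x ∈ cube 0 (k0 + m) (par j) := cube_subset_par 0 (k0 + m) j hx
      have hx2 : x ∈ big 3 0 (k0 + m) (par j) := cube_subset_big (by norm_num) _ _ _ hx1
      have h2 := hd1 x hx2
      have h3 := hd' x hx1
      have h4 : ‖p x - p' x‖ ≤ ‖p x - p1 x‖ + ‖p1 x - p' x‖ := by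
        have h5 : p x - p' x = (p x - p1 x) + (p1 x - p' x) := by abel
        rw [h5]
        exact norm_add_le _ _
      rw [Finset.sum_range_succ (fun s => c s) (m + 1)]
      nlinarith

theorem chain_cube_bx (k : ℕ) (j : Idx d) : cube (0 : X d) k j = bx (fun i => j i * sd k) (sd k) := by
  rw [cube_eq_bx]
  congr 1
  ext i
  simp

omit [FiniteDimensional ℝ V] [NormedSpace ℝ V] in
theorem chain_intOn {u : X d → V} (hu : Continuous u) (c : X d) (l : ℝ) :
    IntegrableOn u (bx c l) := by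
  have h1 : IntegrableOn u (Icc c (fun i => c i + l)) := hu.integrableOn_Icc
  exact h1.mono_set fun x hx => ⟨fun i => (hx i).1, fun i => (hx i).2.le⟩

omit [FiniteDimensional ℝ V] in
/-- comparison of the projection with a rigid map -/
theorem chain_proj (S : Slicing d V) {u p : X d → V} (hu : Continuous u) (hp : p ∈ S.R)
    (k : ℕ) (j : Idx d) {B : ℝ} (hB : 0 ≤ B)
    (h : ∫⁻ x in cube 0 k j, ENNReal.ofReal ‖u x - p x‖ ≤ ENNReal.ofReal B) :
    ∀ x ∈ cube (0 : X d) k j, ‖SPQ S u k j x - p x‖ ≤ |S.CP| * ((sd k ^ (d + 1))⁻¹ * B) := by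
  intro x hx
  have hk := sd_pos k
  rw [chain_cube_bx] at hx h
  have h1 := S.P_lip u p (fun i => j i * sd k) (sd k) hk (chain_intOn hu _ _)
    (chain_intOn (S.R_cont p hp) _ _) x hx
  rw [S.P_id p hp _ _ hk] at h1
  refine h1.trans ?_
  have h2 : ∫ y in bx (fun i => j i * sd k) (sd k), ‖u y - p y‖ ≤ B := by
    have h4 : Continuous fun y => ‖u y - p y‖ := (hu.sub (S.R_cont p hp)).norm
    rw [integral_eq_lintegral_of_nonneg_ae (Filter.Eventually.of_forall fun _ => norm_nonneg _)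
      h4.aestronglyMeasurable]
    exact ENNReal.toReal_le_of_le_ofReal hB h
  have h3 : 0 ≤ ∫ y in bx (fun i => j i * sd k) (sd k), ‖u y - p y‖ :=
    integral_nonneg fun _ => norm_nonneg _
  calc S.CP * ((sd k ^ (d + 1))⁻¹ * ∫ y in bx (fun i => j i * sd k) (sd k), ‖u y - p y‖)
      ≤ |S.CP| * ((sd k ^ (d + 1))⁻¹ * ∫ y in bx (fun i => j i * sd k) (sd k), ‖u y - p y‖) := by
        gcongr
        exact le_abs_self _
    _ ≤ _ := by gcongr

omit [FiniteDimensional ℝ V] [NormedSpace ℝ V] in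
/-- Markov inequality: a map close in `L^1` on a set fits on a sub-cube -/
theorem chain_markov {u p : X d → V} (hu : Continuous u) (hp : Continuous p) {b Q : Set (X d)}
    (hbQ : b ⊆ Q) {B T : ℝ} {K : ℝ≥0∞} (hT : 0 < T)
    (h : ∫⁻ x in Q, ENNReal.ofReal ‖u x - p x‖ ≤ ENNReal.ofReal B)
    (hK : ENNReal.ofReal B ≤ K * ENNReal.ofReal T) :
    volume {x ∈ b | T < ‖u x - p x‖} ≤ K := by
  have hm : Measurable fun x => ENNReal.ofReal ‖u x - p x‖ :=
    ((hu.sub hp).norm.measurable).ennreal_ofReal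
  have h1 : volume {x ∈ b | T < ‖u x - p x‖} ≤
      (volume.restrict b) {x | ENNReal.ofReal T ≤ ENNReal.ofReal ‖u x - p x‖} := by
    rw [Measure.restrict_apply (measurableSet_le measurable_const hm)]
    exact measure_mono fun x hx => ⟨ENNReal.ofReal_le_ofReal hx.2.le, hx.1⟩
  have hT0 : ENNReal.ofReal T ≠ 0 := (ENNReal.ofReal_pos.2 hT).ne'
  have h2 := mul_meas_ge_le_lintegral (μ := volume.restrict b) hm (ENNReal.ofReal T)
  have h3 : ∫⁻ x in b, ENNReal.ofReal ‖u x - p x‖ ≤ K * ENNReal.ofReal T :=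
    (lintegral_mono_set hbQ).trans (h.trans hK)
  have h4 := h2.trans h3
  rw [mul_comm K] at h4
  exact h1.trans ((ENNReal.mul_le_mul_iff_right hT0 ENNReal.ofReal_ne_top).1 h4)

theorem chain_real1 {f Ck s t w M ε : ℝ} (hf : 0 ≤ f) (hCk : 0 ≤ Ck) (hs : 0 < s) (ht : 0 < t)
    (hw : 0 < w) (hM : 0 ≤ M) (hε : 0 ≤ ε) (d : ℕ) :
    Ck * (f * t) * M ≤ w * (t * s) ^ (d + 1) *
      ((f * Ck / (w * s ^ (d + 1)) + 1) * (M / t ^ d + ε)) := by
  have h1 : w * (t * s) ^ (d + 1) * (f * Ck / (w * s ^ (d + 1)) * (M / t ^ d)) =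
      Ck * (f * t) * M := by
    rw [mul_pow, pow_succ t]
    field_simp
  rw [← h1]
  have h2 : 0 ≤ M / t ^ d := by positivity
  have h3 : 0 ≤ f * Ck / (w * s ^ (d + 1)) := by positivity
  gcongr
  · linarith
  · linarith

theorem chain (S : Slicing d V) : ∃ (a : ℕ) (η : ℝ≥0∞) (C : ℝ≥0), η ≤ 1 / 4 ∧
    ∀ {u : X d → V} {h : X d → ℝ≥0∞} {U : Set (X d)}, SStrain S u h U →
    ∀ (ν : Measure (X d)) [IsFiniteMeasure ν] (θ : ℕ → ℝ≥0∞) (k0 m : ℕ) (j : Idx d),
    (∀ r ≤ m, InCl ν (θ r) (k0 + r) (anc j (m - r))) → big 3 0 k0 (anc j m) ⊆ U →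
    ∀ x ∈ cube (0 : X d) (k0 + m) j,
    ENNReal.ofReal ‖SPQ S u (k0 + m) j x - SPQ S u k0 (anc j m) x‖ ≤
      C * ((∫⁻ y in cube 0 (k0 + m) j, h y) / ENNReal.ofReal (sd (k0 + m) ^ d) +
        ∑ r ∈ Finset.range (m + 1), costQ h ν (c0 d * θ r) a η (k0 + r) (anc j (m - r)) +
        (∫⁻ y in big 3 0 k0 (anc j m), h y) / ENNReal.ofReal (sd k0 ^ d)) := by
  obtain ⟨a, η, ς, Cs, ha, hη, hς0, hς8, hCs, hstep, hstart⟩ := step S
  obtain ⟨Ckp, hkp⟩ := kp S
  obtain ⟨Caf, hCaf, haf⟩ := S.af (1 / 2) (3 * 2 ^ a) (by norm_num)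
  have hςt : ς ≠ ∞ := ne_top_of_le_ne_top (by simp) hς8
  set w : ℝ := ς.toReal with hwd
  have hw : 0 < w := ENNReal.toReal_pos hς0 hςt
  have hςw : ς = ENNReal.ofReal w := (ENNReal.ofReal_toReal hςt).symm
  set Ck : ℝ := (Ckp : ℝ) with hCkd
  have hCk : 0 ≤ Ck := Ckp.2
  have hCkE : ((Ckp : ℝ≥0) : ℝ≥0∞) = ENNReal.ofReal Ck := by
    rw [hCkd, ENNReal.ofReal_coe_nnreal]
  have hsa := sd_pos a
  set C1 : ℝ := 1 * Ck / (w * sd a ^ (d + 1)) + 1 with hC1d
  set C2 : ℝ := 3 * Ck / (w * sd a ^ (d + 1)) + 1 with hC2d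
  have hC1 : 0 < C1 := by positivity
  have hC2 : 0 < C2 := by positivity
  set Cf : ℝ := |S.CP| * Ck + Cs * C1 + Cs * (Cs + 2) + Caf * (C1 + Cs + C2) +
    3 * (|S.CP| * Ck) + 1 with hCfd
  have hCf : 0 < Cf := by positivity
  refine ⟨a, η, Cf.toNNReal, hη, ?_⟩
  intro u h U hS ν _ θ k0 m j hin hU x hx
  have hCfE : ((Cf.toNNReal : ℝ≥0) : ℝ≥0∞) = ENNReal.ofReal Cf := rfl
  have hCf0 : ENNReal.ofReal Cf ≠ 0 := (ENNReal.ofReal_pos.2 hCf).ne'
  rw [hCfE]
  set J := anc j m with hJd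
  set M := ∫⁻ y in big 3 0 k0 J, h y with hMd
  set mS := ∫⁻ y in cube 0 (k0 + m) j, h y with hmSd
  have hcub : cube 0 (k0 + m) j ⊆ cube 0 k0 J := cube_subset_anc 0 k0 m j
  have hcb : cube (0 : X d) k0 J ⊆ big 3 0 k0 J := cube_subset_big (by norm_num) _ _ _
  rcases eq_or_ne M ∞ with hMt | hMt
  · rw [hMt, ENNReal.top_div_of_ne_top ENNReal.ofReal_ne_top, add_top, ENNReal.mul_top hCf0]
    exact le_top
  have hmSt : mS ≠ ∞ := ne_top_of_le_ne_top hMt (lintegral_mono_set (hcub.trans hcb))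
  set cost : ℕ → ℝ≥0∞ := fun r => costQ h ν (c0 d * θ r) a η (k0 + r) (anc j (m - r)) with hcostd
  rcases eq_or_ne (∑ r ∈ Finset.range (m + 1), cost r) ∞ with hct | hct
  · rw [hct, add_top, top_add, ENNReal.mul_top hCf0]
    exact le_top
  have hcr : ∀ r ≤ m, cost r ≠ ∞ := fun r hr =>
    ne_top_of_le_ne_top hct (Finset.single_le_sum (f := cost) (fun _ _ => zero_le)
      (Finset.mem_range.2 (by omega)))
  have hsK := sd_pos (k0 + m)
  have hsk := sd_pos k0
  set A : ℝ := mS.toReal / sd (k0 + m) ^ d with hAd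
  set Y : ℝ := ∑ r ∈ Finset.range (m + 1), (cost r).toReal with hYd
  set Z : ℝ := M.toReal / sd k0 ^ d with hZd
  have hA : 0 ≤ A := by positivity
  have hY : 0 ≤ Y := by positivity
  have hZ : 0 ≤ Z := by positivity
  have hsum : ∑ r ∈ Finset.range (m + 1), cost r = ENNReal.ofReal Y := by
    rw [hYd, ENNReal.ofReal_sum_of_nonneg (fun _ _ => ENNReal.toReal_nonneg)]
    refine Finset.sum_congr rfl fun r hr => ?_
    rw [ENNReal.ofReal_toReal (hcr r (by have := Finset.mem_range.1 hr; omega))]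
  rw [hsum, ← ENNReal.ofReal_toReal hmSt, ← ENNReal.ofReal_toReal hMt,
    ← ENNReal.ofReal_div_of_pos (by positivity), ← ENNReal.ofReal_div_of_pos (by positivity),
    ← ENNReal.ofReal_add hA hY, ← ENNReal.ofReal_add (by positivity) hZ,
    ← ENNReal.ofReal_mul hCf.le]
  apply ENNReal.ofReal_le_ofReal
  -- the real inequality
  apply le_of_forall_pos_le_add
  intro ε' hε'
  obtain ⟨ε, hε, hεε⟩ : ∃ ε : ℝ, 0 < ε ∧ Cf * ((m + 4) * ε) ≤ ε' := by
    refine ⟨ε' / (Cf * (m + 4)), by positivity, le_of_eq ?_⟩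
    field_simp
  refine le_trans ?_ (add_le_add_right hεε _)
  set c : ℕ → ℝ := fun r => (cost r).toReal + ε with hcd
  have hc : ∀ r, 0 < c r := fun r => by
    have := ENNReal.toReal_nonneg (a := cost r)
    simp only [hcd]
    linarith
  have hcc : ∀ r ≤ m, cost r < ENNReal.ofReal (c r) := fun r hr => by
    rw [ENNReal.lt_ofReal_iff_toReal_lt (hcr r hr)]
    simp only [hcd]
    linarith
  -- start
  have hinm : InCl ν (θ m) (k0 + m) j := by
    have h1 := hin m le_rfl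
    rw [Nat.sub_self] at h1
    exact h1
  obtain ⟨i, hsub, hcsub, hsp⟩ := hstart ν (θ m) (k0 + m) j hinm
  have hSU : bx (fun e => j e * sd (k0 + m)) (sd (k0 + m)) ⊆ U := by
    rw [← chain_cube_bx]
    exact (hcub.trans hcb).trans hU
  obtain ⟨pS, hpS, hintS⟩ := hkp hS (fun e => j e * sd (k0 + m)) (sd (k0 + m)) hsK hSU
  rw [← chain_cube_bx, hCkE] at hintS
  have hBS : ∫⁻ x in cube 0 (k0 + m) j, ENNReal.ofReal ‖u x - pS x‖ ≤
      ENNReal.ofReal (Ck * (1 * sd (k0 + m)) * mS.toReal) := by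
    refine hintS.trans (le_of_eq ?_)
    rw [one_mul, ENNReal.ofReal_mul (by positivity), ENNReal.ofReal_mul hCk,
      ENNReal.ofReal_toReal hmSt]
  have hTK : 0 < C1 * (A + ε) := by positivity
  have hfitS : SFits S u (cube 0 (k0 + m + a) i) pS (C1 * (A + ε)) ς := by
    refine ⟨hpS, chain_markov hS.cont (S.R_cont pS hpS) hcsub hTK hBS ?_⟩
    rw [volume_cube, hςw, ← ENNReal.ofReal_mul hw.le, ← ENNReal.ofReal_mul (by
      have := sd_pos (k0 + m + a)
      positivity), sd_add (k0 + m) a]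
    exact ENNReal.ofReal_le_ofReal (chain_real1 zero_le_one hCk hsa hsK hw
      ENNReal.toReal_nonneg hε.le d)
  have hprS := chain_proj S hS.cont hpS (k0 + m) j (by positivity) hBS x hx
  obtain ⟨i0, p0, T0, hsub0, hfit0, h00, h01, hd⟩ := chain_down S hCs (hstep hS) ν k0 θ c hc m j
    hin hcc hU i pS (C1 * (A + ε)) hTK.le hsub hsp hfitS
  have hdx := hd x hx
  have hc0Y : c 0 ≤ Y + ε := by
    have h1 : (cost 0).toReal ≤ Y := Finset.single_le_sum (f := fun r => (cost r).toReal)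
      (fun _ _ => ENNReal.toReal_nonneg) (Finset.mem_range.2 (by omega))
    simp only [hcd]
    linarith
  have hT0 : T0 ≤ C1 * (A + ε) + Cs * (Y + ε) := by
    have h2 : 0 < Cs * c 0 := mul_pos hCs (hc 0)
    have h3 : Cs * c 0 ≤ Cs * (Y + ε) := by gcongr
    rcases Nat.eq_zero_or_pos m with hm | hm
    · rw [h00 hm]
      linarith
    · rw [h01 hm]
      linarith
  have hT0' : 0 ≤ T0 := by
    rcases Nat.eq_zero_or_pos m with hm | hm
    · rw [h00 hm]
      exact hTK.le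
    · rw [h01 hm]
      exact (mul_pos hCs (hc 0)).le
  -- top
  set b3 : Set (X d) := bx (fun e => (J e - 1) * sd k0) (3 * sd k0) with hb3d
  have hb3 : b3 ⊆ big 3 0 k0 J := by
    intro y hy e
    have h1 := (hy e).1
    have h2 := (hy e).2
    simp only [Pi.zero_apply, zero_add] at h1 h2 ⊢
    constructor <;> nlinarith
  obtain ⟨ps, hps, hint3⟩ := hkp hS (fun e => (J e - 1) * sd k0) (3 * sd k0) (by positivity)
    (hb3.trans hU)
  rw [hCkE] at hint3
  have hB3 : ∫⁻ x in b3, ENNReal.ofReal ‖u x - ps x‖ ≤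
      ENNReal.ofReal (Ck * (3 * sd k0) * M.toReal) := by
    have h1 : ENNReal.ofReal (Ck * (3 * sd k0) * M.toReal) =
        ENNReal.ofReal Ck * ENNReal.ofReal (3 * sd k0) * M := by
      rw [ENNReal.ofReal_mul (q := M.toReal) (by positivity), ENNReal.ofReal_mul hCk,
        ENNReal.ofReal_toReal hMt]
    rw [h1]
    refine hint3.trans ?_
    gcongr
    exact lintegral_mono_set hb3
  have hi0b : cube (0 : X d) (k0 + a) i0 ⊆ b3 := by
    intro y hy e
    have h1 := cube_subset_of_Sub hsub0 hy e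
    constructor
    · exact h1.1
    · have h2 := h1.2
      simp only
      linarith
  have hTs : 0 < C2 * (Z + ε) := by positivity
  have hfits : volume {x ∈ cube (0 : X d) (k0 + a) i0 | C2 * (Z + ε) < ‖u x - ps x‖} ≤
      ς * volume (cube (0 : X d) (k0 + a) i0) := by
    refine chain_markov hS.cont (S.R_cont ps hps) hi0b hTs hB3 ?_
    rw [volume_cube, hςw, ← ENNReal.ofReal_mul hw.le, ← ENNReal.ofReal_mul (by
      have := sd_pos (k0 + a)
      positivity), sd_add k0 a]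
    exact ENNReal.ofReal_le_ofReal (chain_real1 (by norm_num) hCk hsa hsk hw
      ENNReal.toReal_nonneg hε.le d)
  have hJsub : cube (0 : X d) k0 J ⊆ b3 := by
    intro y hy e
    have h1 := hy e
    simp only [Pi.zero_apply, zero_add] at h1 ⊢
    constructor <;> nlinarith [h1.1, h1.2]
  have hB3' : ∫⁻ x in cube 0 k0 J, ENNReal.ofReal ‖u x - ps x‖ ≤
      ENNReal.ofReal (Ck * (3 * sd k0) * M.toReal) := (lintegral_mono_set hJsub).trans hB3
  have hprT := chain_proj S hS.cont hps k0 J (by positivity) hB3' x (hcub hx)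
  -- comparison of `p0` and `ps`
  have hq := S.R_sub p0 hfit0.1 ps hps
  have hgood : ENNReal.ofReal (1 / 2) * volume (bx (fun e => i0 e * sd (k0 + a)) (sd (k0 + a))) ≤
      volume {x ∈ bx (fun e => i0 e * sd (k0 + a)) (sd (k0 + a)) |
        ‖(fun x => p0 x - ps x) x‖ ≤ T0 + C2 * (Z + ε)} := by
    rw [← chain_cube_bx]
    set b := cube (0 : X d) (k0 + a) i0 with hbd
    have hbt : volume b ≠ ∞ := by
      rw [hbd, volume_cube]
      exact ENNReal.ofReal_ne_top
    have h1 : b ⊆ {x ∈ b | ‖(fun x => p0 x - ps x) x‖ ≤ T0 + C2 * (Z + ε)} ∪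
        ({x ∈ b | T0 < ‖u x - p0 x‖} ∪ {x ∈ b | C2 * (Z + ε) < ‖u x - ps x‖}) := by
      intro y hy
      by_cases hy1 : T0 < ‖u y - p0 y‖
      · exact Or.inr (Or.inl ⟨hy, hy1⟩)
      by_cases hy2 : C2 * (Z + ε) < ‖u y - ps y‖
      · exact Or.inr (Or.inr ⟨hy, hy2⟩)
      · refine Or.inl ⟨hy, ?_⟩
        have h3 : p0 y - ps y = (u y - ps y) - (u y - p0 y) := by abel
        simp only
        rw [h3]
        refine (norm_sub_le _ _).trans ?_
        linarith [not_lt.1 hy1, not_lt.1 hy2]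
    have h4 : volume b ≤ volume {x ∈ b | ‖(fun x => p0 x - ps x) x‖ ≤ T0 + C2 * (Z + ε)} +
        (ς * volume b + ς * volume b) :=
      (measure_mono h1).trans ((measure_union_le _ _).trans
        (add_le_add_right ((measure_union_le _ _).trans (add_le_add hfit0.2 hfits)) _))
    have h5 : ς * volume b + ς * volume b ≤ ENNReal.ofReal (1 / 2) * volume b := by
      rw [← add_mul]
      gcongr
      calc ς + ς ≤ 1 / 8 + 1 / 8 := add_le_add hς8 hς8
        _ ≤ ENNReal.ofReal (1 / 2) := by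
          have h6 : (1 / 8 : ℝ≥0∞) = ENNReal.ofReal (1 / 8) := by
            rw [ENNReal.ofReal_div_of_pos (by norm_num)]
            norm_num
          rw [h6, ← ENNReal.ofReal_add (by norm_num) (by norm_num)]
          exact ENNReal.ofReal_le_ofReal (by norm_num)
    have h7 : ENNReal.ofReal (1 / 2) * volume b + ENNReal.ofReal (1 / 2) * volume b =
        volume b := by
      rw [← add_mul, ← ENNReal.ofReal_add (by norm_num) (by norm_num)]
      norm_num
    have h8 : ENNReal.ofReal (1 / 2) * volume b + ENNReal.ofReal (1 / 2) * volume b ≤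
        volume {x ∈ b | ‖(fun x => p0 x - ps x) x‖ ≤ T0 + C2 * (Z + ε)} +
          ENNReal.ofReal (1 / 2) * volume b := by
      rw [h7]
      exact h4.trans (add_le_add_right h5 _)
    exact (ENNReal.add_le_add_iff_right (ENNReal.mul_ne_top ENNReal.ofReal_ne_top hbt)).1 h8
  have hska := sd_pos (k0 + a)
  have hcmp := haf (fun e => i0 e * sd (k0 + a)) (sd (k0 + a)) hska _ hq (T0 + C2 * (Z + ε)) hgood
    x (by
      have h1 : (3 * 2 ^ a : ℝ) * sd (k0 + a) = 3 * sd k0 := by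
        rw [sd_add]
        have := two_pow_mul_sd a
        linear_combination (3 * sd k0) * this
      rw [h1, pi_norm_le_iff_of_nonneg (by positivity)]
      intro e
      rw [Real.norm_eq_abs, Pi.sub_apply, abs_le]
      have h2 := hcub hx e
      simp only [Pi.zero_apply, zero_add] at h2
      have h3 := cube_subset_of_Sub (k := k0) hsub0 (x := fun e => i0 e * sd (k0 + a)) (by
        intro e
        simp only [Pi.zero_apply, zero_add]
        constructor <;> nlinarith) e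
      constructor <;> nlinarith [h2.1, h2.2, h3.1, h3.2])
  -- the conclusion
  have htri : ‖SPQ S u (k0 + m) j x - SPQ S u k0 J x‖ ≤ ‖SPQ S u (k0 + m) j x - pS x‖ +
      ‖pS x - p0 x‖ + ‖p0 x - ps x‖ + ‖SPQ S u k0 J x - ps x‖ := by
    have h1 : SPQ S u (k0 + m) j x - SPQ S u k0 J x = (SPQ S u (k0 + m) j x - pS x) +
      (pS x - p0 x) + (p0 x - ps x) - (SPQ S u k0 J x - ps x) := by abel
    rw [h1]
    exact (norm_sub_le _ _).trans (by gcongr; exact norm_add₃_le)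
  have hcsum : ∑ s ∈ Finset.range (m + 1), c s = Y + (m + 1) * ε := by
    rw [hcd, hYd, Finset.sum_add_distrib, Finset.sum_const, Finset.card_range, nsmul_eq_mul]
    push_cast
    ring
  have e1 : |S.CP| * ((sd (k0 + m) ^ (d + 1))⁻¹ * (Ck * (1 * sd (k0 + m)) * mS.toReal)) =
      |S.CP| * Ck * A := by
    rw [hAd, pow_succ]
    field_simp
  have e2 : |S.CP| * ((sd k0 ^ (d + 1))⁻¹ * (Ck * (3 * sd k0) * M.toReal)) =
      3 * (|S.CP| * Ck) * Z := by
    rw [hZd, pow_succ]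
    field_simp
  rw [e1] at hprS
  rw [e2] at hprT
  rw [hcsum] at hdx
  have hcm : 0 ≤ Cs * (Cs + 1) * c m := by
    have := hc m
    positivity
  have hm0 : (0 : ℝ) ≤ m := Nat.cast_nonneg m
  have hP : 0 ≤ |S.CP| * Ck := by positivity
  have hfin : ‖SPQ S u (k0 + m) j x - SPQ S u k0 J x‖ ≤ |S.CP| * Ck * A +
      (Cs * (C1 * (A + ε)) + Cs * (Cs + 2) * (Y + (m + 1) * ε)) +
      Caf * (C1 * (A + ε) + Cs * (Y + ε) + C2 * (Z + ε)) + 3 * (|S.CP| * Ck) * Z := by
    have h9 : Caf * (T0 + C2 * (Z + ε)) ≤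
      Caf * (C1 * (A + ε) + Cs * (Y + ε) + C2 * (Z + ε)) := by gcongr
    linarith
  refine hfin.trans ?_
  have hk1 : Cf * (A + Y + Z) + Cf * ((m + 4) * ε) - (|S.CP| * Ck * A +
      (Cs * (C1 * (A + ε)) + Cs * (Cs + 2) * (Y + (m + 1) * ε)) +
      Caf * (C1 * (A + ε) + Cs * (Y + ε) + C2 * (Z + ε)) + 3 * (|S.CP| * Ck) * Z) =
      (Cf - |S.CP| * Ck - Cs * C1 - Caf * C1) * A + (Cf - Cs * (Cs + 2) - Caf * Cs) * Y +
      (Cf - Caf * C2 - 3 * (|S.CP| * Ck)) * Z + (Cf * (m + 4) - Cs * C1 -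
        Cs * (Cs + 2) * (m + 1) - Caf * (C1 + Cs + C2)) * ε := by ring
  have g1 : 0 ≤ Cs * C1 := by positivity
  have g2 : 0 ≤ Cs * (Cs + 2) := by positivity
  have g3 : 0 ≤ Caf * C1 := by positivity
  have g4 : 0 ≤ Caf * Cs := by positivity
  have g5 : 0 ≤ Caf * C2 := by positivity
  have hCfe : Cf = |S.CP| * Ck + Cs * C1 + Cs * (Cs + 2) + (Caf * C1 + Caf * Cs + Caf * C2) +
    3 * (|S.CP| * Ck) + 1 := by rw [hCfd]; ring
  have k1 : 0 ≤ (Cf - |S.CP| * Ck - Cs * C1 - Caf * C1) * A :=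
    mul_nonneg (by rw [hCfe]; linarith) hA
  have k2 : 0 ≤ (Cf - Cs * (Cs + 2) - Caf * Cs) * Y := mul_nonneg (by rw [hCfe]; linarith) hY
  have k3 : 0 ≤ (Cf - Caf * C2 - 3 * (|S.CP| * Ck)) * Z := mul_nonneg (by rw [hCfe]; linarith) hZ
  have k4 : 0 ≤ (Cf * (m + 4) - Cs * C1 -
        Cs * (Cs + 2) * (m + 1) - Caf * (C1 + Cs + C2)) * ε := by
    apply mul_nonneg _ hε.le
    have h10 : 0 ≤ (Cf - Cs * (Cs + 2)) * (m + 1) := mul_nonneg (by rw [hCfe]; linarith) (by linarith)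
    have h11 : Cs * C1 + Caf * (C1 + Cs + C2) ≤ Cf := by rw [hCfe]; linarith
    nlinarith
  linarith

end BDJ
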