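import Pool.Agent.BDJ.RayInt

/-!
# The cost of a sub-cube which is not blocked (row COST)

Let `b` be the sub-cube (level `k+a`, index `i`), `ρ = sd k`, `l = sd (k+a) = 2^(-a) ρ`, `M = slopes d`, `|b × M| = l^(d+1) 2^d`,
`G = big 3 0 k j \ O`, `g = h * 1_G`, `m_G = ∫ g = (volume.withDensity h) G`.

If `b` is not blocked, the set `U_+` of `(w,m) ∈ b × M` whose forward ray misses `O` and the set `U_-` of those whose backward ray misses `O` satisfy
`|U_+| + |U_-| ≥ |b × M| - |hits both| ≥ |b × M| / 2`. Rays from `b` of length `ρ` stay in `big 3 0 k j` (`mem_big_three_of_Sub`, `‖dir m‖ = 1`), so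
for `(w,m) ∈ U_+`, `rm h ρ w (dir m) = rm g ρ w (dir m)` (`rm_congr`), same for `U_-`. By `ray_int` for each `m` and Tonelli:
`∫_{b × M} (rm g ρ w (dir m) + rm g ρ w (-dir m)) ≤ 2^d * l * m_G`. Put `T = 4 * 2^(a*d) * m_G / ρ^d`; note `T * |b × M| / 4 = 2^d l m_G`. For every `q > T`
(`q ≠ ∞`), Markov: `|{(w,m) : rm g (+) > q}| + |{rm g (-) > q}| ≤ (2^d l m_G)/q ≤ |b × M|/4`. Hence `goodm h a k i q ≥ |U_+| + |U_-| - |b × M|/4 ≥ |b × M|/4`,
so `qc h a k i ≤ q`. Let `q ↓ T` (if `T = ∞` nothing to prove; all the `vp` measures involved are finite).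
-/

open MeasureTheory Set
open scoped ENNReal

namespace BDJ

variable {d : ℕ}

theorem cost_goodm_mono {h : X d → ℝ≥0∞} (a k : ℕ) (i : Idx d) {q q' : ℝ≥0∞} (hq : q ≤ q') :
    goodm h a k i q ≤ goodm h a k i q' := by
  unfold goodm
  refine add_le_add (measure_mono ?_) (measure_mono ?_)
  · rintro p ⟨h1, h2, h3⟩
    exact ⟨h1, h2, h3.trans hq⟩
  · rintro p ⟨h1, h2, h3⟩
    exact ⟨h1, h2, h3.trans hq⟩

/-- Tonelli and `ray_int` -/
theorem cost_int {g : X d → ℝ≥0∞} (hg : Measurable g) (K : ℕ) (i : Idx d) {L : ℝ} (hL : 0 ≤ L) :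
    ∫⁻ p in cube 0 K i ×ˢ slopes d, (rm g L p.1 (dir p.2) + rm g L p.1 (-dir p.2)) ∂(vp d) ≤
      ENNReal.ofReal (sd K) * (∫⁻ x, g x) * 2 ^ d := by
  have m1 : Measurable fun p : X d × Y d => rm g L p.1 (dir p.2) :=
    (measurable_rm hg L).comp (measurable_fst.prodMk (continuous_dir.measurable.comp measurable_snd))
  have m2 : Measurable fun p : X d × Y d => rm g L p.1 (-dir p.2) :=
    (measurable_rm hg L).comp
      (measurable_fst.prodMk ((continuous_dir.measurable.comp measurable_snd).neg))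
  have m3 : Measurable fun p : X d × Y d => rm g L p.1 (dir p.2) + rm g L p.1 (-dir p.2) :=
    m1.add m2
  have hr : (vp d).restrict (cube 0 K i ×ˢ slopes d) =
      ((volume : Measure (X d)).restrict (cube 0 K i)).prod
        ((volume : Measure (Y d)).restrict (slopes d)) := by
    unfold vp
    rw [Measure.prod_restrict]
  rw [hr, lintegral_prod_symm _ m3.aemeasurable]
  calc ∫⁻ m in slopes d, ∫⁻ w in cube 0 K i, (rm g L w (dir m) + rm g L w (-dir m))
      ≤ ∫⁻ _m in slopes d, ENNReal.ofReal (sd K) * ∫⁻ x, g x :=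
        lintegral_mono fun m => ray_int hg K i (dir m) (dir_zero m) hL
    _ = ENNReal.ofReal (sd K) * (∫⁻ x, g x) * 2 ^ d := by
        rw [setLIntegral_const, volume_slopes]

theorem cost_markov {f : X d × Y d → ℝ≥0∞} (hf : Measurable f) {A : Set (X d × Y d)}
    (hA : MeasurableSet A) (q : ℝ≥0∞) :
    q * vp d {p | p ∈ A ∧ q < f p} ≤ ∫⁻ p in A, f p ∂(vp d) := by
  have h1 := mul_meas_ge_le_lintegral (μ := (vp d).restrict A) hf q
  refine le_trans (mul_le_mul' le_rfl ?_) h1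
  rw [Measure.restrict_apply (measurableSet_le measurable_const hf)]
  apply measure_mono
  rintro p ⟨h2, h3⟩
  exact ⟨h3.le, h2⟩

theorem cost_arith (k a : ℕ) (d : ℕ) (m : ℝ≥0∞) :
    4 * 2 ^ (a * d) * m / ENNReal.ofReal (sd k ^ d) *
      (ENNReal.ofReal (sd (k + a) ^ (d + 1)) * 2 ^ d / 4) =
      ENNReal.ofReal (sd (k + a)) * m * 2 ^ d := by
  have hk : 0 < sd k := sd_pos k
  have hka : 0 < sd (k + a) := sd_pos _
  have hkd : 0 < sd k ^ d := pow_pos hk d
  have e0 : ENNReal.ofReal (sd k ^ d) ≠ 0 := by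
    simp only [ne_eq, ENNReal.ofReal_eq_zero, not_le]
    exact hkd
  have e1 : (2 : ℝ≥0∞) ^ (a * d) * ENNReal.ofReal (sd (k + a) ^ d) = ENNReal.ofReal (sd k ^ d) := by
    have h2 : (2 : ℝ≥0∞) ^ (a * d) = ENNReal.ofReal ((2 : ℝ) ^ (a * d)) := by
      rw [ENNReal.ofReal_pow (by norm_num)]
      norm_num
    rw [h2, ← ENNReal.ofReal_mul (by positivity)]
    congr 1
    have h3 := two_pow_mul_sd a
    have h4 : (2 : ℝ) ^ (a * d) * sd (k + a) ^ d = (sd k * ((2 : ℝ) ^ a * sd a)) ^ d := by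
      rw [sd_add, pow_mul]
      ring
    rw [h4, h3, mul_one]
  have e2 : ENNReal.ofReal (sd (k + a) ^ (d + 1)) =
      ENNReal.ofReal (sd (k + a) ^ d) * ENNReal.ofReal (sd (k + a)) := by
    rw [← ENNReal.ofReal_mul (by positivity), pow_succ]
  have e4 : (4 : ℝ≥0∞) * 4⁻¹ = 1 := ENNReal.mul_inv_cancel (by norm_num) (by norm_num)
  have e5 : ENNReal.ofReal (sd k ^ d) * (ENNReal.ofReal (sd k ^ d))⁻¹ = 1 :=
    ENNReal.mul_inv_cancel e0 ENNReal.ofReal_ne_top
  rw [e2, div_eq_mul_inv, div_eq_mul_inv]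
  calc 4 * 2 ^ (a * d) * m * (ENNReal.ofReal (sd k ^ d))⁻¹ *
      (ENNReal.ofReal (sd (k + a) ^ d) * ENNReal.ofReal (sd (k + a)) * 2 ^ d * 4⁻¹)
      = (4 * 4⁻¹) * ((2 ^ (a * d) * ENNReal.ofReal (sd (k + a) ^ d)) *
        (ENNReal.ofReal (sd k ^ d))⁻¹) * (ENNReal.ofReal (sd (k + a)) * m * 2 ^ d) := by ring
    _ = ENNReal.ofReal (sd (k + a)) * m * 2 ^ d := by rw [e1, e4, e5, one_mul, one_mul]

theorem cost_fin {x y : ℝ≥0∞} (hx : x ≠ ∞) (h : x ≤ x / 2 + (y + x / 4)) : x / 4 ≤ y := by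
  by_cases hy : y = ∞
  · rw [hy]; exact le_top
  obtain ⟨r, hr, rfl⟩ : ∃ r : ℝ, 0 ≤ r ∧ x = ENNReal.ofReal r :=
    ⟨x.toReal, ENNReal.toReal_nonneg, (ENNReal.ofReal_toReal hx).symm⟩
  obtain ⟨t, ht, rfl⟩ : ∃ r : ℝ, 0 ≤ r ∧ y = ENNReal.ofReal r :=
    ⟨y.toReal, ENNReal.toReal_nonneg, (ENNReal.ofReal_toReal hy).symm⟩
  have e2 : ENNReal.ofReal r / 2 = ENNReal.ofReal (r / 2) := by
    rw [ENNReal.ofReal_div_of_pos (by norm_num)]
    norm_num
  have e4 : ENNReal.ofReal r / 4 = ENNReal.ofReal (r / 4) := by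
    rw [ENNReal.ofReal_div_of_pos (by norm_num)]
    norm_num
  rw [e2, e4, ← ENNReal.ofReal_add ht (by positivity), ← ENNReal.ofReal_add (by positivity)
    (by positivity), ENNReal.ofReal_le_ofReal_iff (by positivity)] at h
  rw [e4]
  exact ENNReal.ofReal_le_ofReal (by linarith)

theorem cost_claim {h : X d → ℝ≥0∞} (hh : Measurable h) {O : Set (X d)} (hO : IsOpen O) (a k : ℕ)
    (j i : Idx d) (hs : Sub a j i) (hb : ¬ Blocked O a k i) :
    qc h a k i ≤ 4 * 2 ^ (a * d) * (volume.withDensity h) (big 3 0 k j \ O) /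
      ENNReal.ofReal (sd k ^ d) := by
  set G : Set (X d) := big 3 0 k j \ O with hG
  have hGm : MeasurableSet G := (measurableSet_big 3 0 k j).diff hO.measurableSet
  set g : X d → ℝ≥0∞ := G.indicator h with hg
  have hgm : Measurable g := hh.indicator hGm
  have hmG : ∫⁻ x, g x = (volume.withDensity h) G := by
    rw [withDensity_apply _ hGm, hg, lintegral_indicator hGm]
  set A : Set (X d × Y d) := cube 0 (k + a) i ×ˢ slopes d with hA
  have hAm : MeasurableSet A := (measurableSet_cube 0 (k + a) i).prod measurableSet_slopes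
  have hV : vp d A = ENNReal.ofReal (sd (k + a) ^ (d + 1)) * 2 ^ d := vp_cube (k + a) i
  have hVtop : vp d A ≠ ∞ := by
    rw [hV]
    exact ENNReal.mul_ne_top ENNReal.ofReal_ne_top (by simp)
  have hk : 0 ≤ sd k := (sd_pos k).le
  set T : ℝ≥0∞ := 4 * 2 ^ (a * d) * (volume.withDensity h) G / ENNReal.ofReal (sd k ^ d) with hT
  have m1 : Measurable fun p : X d × Y d => rm g (sd k) p.1 (dir p.2) :=
    (measurable_rm hgm _).comp
      (measurable_fst.prodMk (continuous_dir.measurable.comp measurable_snd))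
  have m2 : Measurable fun p : X d × Y d => rm g (sd k) p.1 (-dir p.2) :=
    (measurable_rm hgm _).comp
      (measurable_fst.prodMk ((continuous_dir.measurable.comp measurable_snd).neg))
  refine le_of_forall_gt_imp_ge_of_dense fun q hq => ?_
  by_cases hqtop : q = ∞
  · rw [hqtop]; exact le_top
  have hq0 : q ≠ 0 := (lt_of_le_of_lt (zero_le) hq).ne'
  refine sInf_le ?_
  change vp d A / 4 ≤ goodm h a k i q
  -- Markov
  set Ap : Set (X d × Y d) := {p | p ∈ A ∧ q < rm g (sd k) p.1 (dir p.2)} with hAp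
  set An : Set (X d × Y d) := {p | p ∈ A ∧ q < rm g (sd k) p.1 (-dir p.2)} with hAn
  have k1 : q * (vp d Ap + vp d An) ≤ q * (vp d A / 4) := by
    calc q * (vp d Ap + vp d An) = q * vp d Ap + q * vp d An := mul_add _ _ _
      _ ≤ (∫⁻ p in A, rm g (sd k) p.1 (dir p.2) ∂(vp d)) +
          ∫⁻ p in A, rm g (sd k) p.1 (-dir p.2) ∂(vp d) :=
          add_le_add (cost_markov m1 hAm q) (cost_markov m2 hAm q)
      _ = ∫⁻ p in A, (rm g (sd k) p.1 (dir p.2) + rm g (sd k) p.1 (-dir p.2)) ∂(vp d) :=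
          (lintegral_add_left m1 _).symm
      _ ≤ ENNReal.ofReal (sd (k + a)) * (∫⁻ x, g x) * 2 ^ d := cost_int hgm (k + a) i hk
      _ = T * (vp d A / 4) := by rw [hmG, hT, hV]; exact (cost_arith k a d _).symm
      _ ≤ q * (vp d A / 4) := by gcongr
  have k2 : vp d Ap + vp d An ≤ vp d A / 4 := by
    exact (ENNReal.mul_le_mul_iff_right hq0 hqtop).1 k1
  -- the sets of rays which miss `O`
  set Up : Set (X d × Y d) := {p | p ∈ A ∧ ∀ s ∈ Icc 0 (sd k), p.1 + s • dir p.2 ∉ O} with hUp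
  set Un : Set (X d × Y d) := {p | p ∈ A ∧ ∀ s ∈ Icc 0 (sd k), p.1 + s • (-dir p.2) ∉ O} with hUn
  set H : Set (X d × Y d) := {p | p.1 ∈ cube 0 (k + a) i ∧ p.2 ∈ slopes d ∧
    HitBoth O (sd k) p.1 (dir p.2)} with hH
  have k3 : vp d H ≤ vp d A / 2 := not_lt.1 hb
  have k4 : vp d A ≤ vp d H + (vp d Up + vp d Un) := by
    have hsub : A ⊆ H ∪ (Up ∪ Un) := by
      intro p hp
      by_cases c1 : ∃ s ∈ Icc 0 (sd k), p.1 + s • dir p.2 ∈ O
      · by_cases c2 : ∃ s ∈ Icc 0 (sd k), p.1 + s • (-dir p.2) ∈ O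
        · exact Or.inl ⟨hp.1, hp.2, c1, c2⟩
        · push Not at c2
          exact Or.inr (Or.inr ⟨hp, c2⟩)
      · push Not at c1
        exact Or.inr (Or.inl ⟨hp, c1⟩)
    exact (measure_mono hsub).trans ((measure_union_le _ _).trans
      (add_le_add le_rfl (measure_union_le _ _)))
  have hstay : ∀ p ∈ A, ∀ s ∈ Icc 0 (sd k), ∀ v : X d, ‖v‖ = 1 → p.1 + s • v ∈ big 3 0 k j := by
    intro p hp s hs' v hv
    refine mem_big_three_of_Sub hs hp.1 ?_
    rw [add_sub_cancel_left, norm_smul, hv, mul_one, Real.norm_eq_abs, abs_of_nonneg hs'.1]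
    exact hs'.2
  have k5 : vp d Up ≤ vp d {p : X d × Y d | p.1 ∈ cube 0 (k + a) i ∧ p.2 ∈ slopes d ∧
      rm h (sd k) p.1 (dir p.2) ≤ q} + vp d Ap := by
    refine (measure_mono ?_).trans (measure_union_le _ _)
    intro p hp
    have hn : ‖dir p.2‖ = 1 := norm_dir_le hp.1.2
    have he : rm h (sd k) p.1 (dir p.2) = rm g (sd k) p.1 (dir p.2) := by
      refine rm_congr fun s hs' => ?_
      rw [hg, indicator_of_mem]
      exact ⟨hstay p hp.1 s hs' _ hn, hp.2 s hs'⟩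
    by_cases c : rm g (sd k) p.1 (dir p.2) ≤ q
    · left
      refine ⟨hp.1.1, hp.1.2, ?_⟩
      rw [he]; exact c
    · right
      exact ⟨hp.1, not_le.1 c⟩
  have k6 : vp d Un ≤ vp d {p : X d × Y d | p.1 ∈ cube 0 (k + a) i ∧ p.2 ∈ slopes d ∧
      rm h (sd k) p.1 (-dir p.2) ≤ q} + vp d An := by
    refine (measure_mono ?_).trans (measure_union_le _ _)
    intro p hp
    have hn : ‖-dir p.2‖ = 1 := by rw [norm_neg]; exact norm_dir_le hp.1.2
    have he : rm h (sd k) p.1 (-dir p.2) = rm g (sd k) p.1 (-dir p.2) := by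
      refine rm_congr fun s hs' => ?_
      rw [hg, indicator_of_mem]
      exact ⟨hstay p hp.1 s hs' _ hn, hp.2 s hs'⟩
    by_cases c : rm g (sd k) p.1 (-dir p.2) ≤ q
    · left
      refine ⟨hp.1.1, hp.1.2, ?_⟩
      rw [he]; exact c
    · right
      exact ⟨hp.1, not_le.1 c⟩
  have k7 : vp d A ≤ vp d A / 2 + (goodm h a k i q + vp d A / 4) := by
    calc vp d A ≤ vp d H + (vp d Up + vp d Un) := k4
      _ ≤ vp d A / 2 + ((vp d {p : X d × Y d | p.1 ∈ cube 0 (k + a) i ∧ p.2 ∈ slopes d ∧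
            rm h (sd k) p.1 (dir p.2) ≤ q} + vp d Ap) +
          (vp d {p : X d × Y d | p.1 ∈ cube 0 (k + a) i ∧ p.2 ∈ slopes d ∧
            rm h (sd k) p.1 (-dir p.2) ≤ q} + vp d An)) :=
          add_le_add k3 (add_le_add k5 k6)
      _ = vp d A / 2 + (goodm h a k i q + (vp d Ap + vp d An)) := by
          unfold goodm
          rw [add_add_add_comm]
      _ ≤ vp d A / 2 + (goodm h a k i q + vp d A / 4) := by gcongr
  exact cost_fin hVtop k7

/-- what the quantile gives: for every `q > qc` at least a quarter of the rays have mass `≤ q` -/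
theorem le_goodm_of_qc_lt {h : X d → ℝ≥0∞} (a k : ℕ) (i : Idx d) {q : ℝ≥0∞}
    (hq : qc h a k i < q) : vp d (cube 0 (k + a) i ×ˢ slopes d) / 4 ≤ goodm h a k i q := by
  obtain ⟨q', hq', hlt⟩ := sInf_lt_iff.1 hq
  exact le_trans hq' (cost_goodm_mono a k i hlt.le)

end BDJ
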