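import Pool.Agent.BDJ.Omega

/-!
# The light sum (row LIGHT)

Notation: `t = c0 d * θ`, `r = a + 5`, `Q = (k,j)`, `S_i(x) = Sc μ ν t τ i (idx τ i x)`, `om_i(x)` similarly.
Claim: for `lam ≥ S_(k+r-1)(x)` for all `x ∈ big 4 0 k j`,
`μ(big 3 Q \ Obs_lam) ≤ μ(big 3 Q \ Nge (k+r)) + (c0 d)⁻¹ * (lam - Sc (k-5) J) * ρ^d`.

Proof. Let `z ∈ big 3 Q`, `z ∉ Obs_lam := Obs τ (Lay lam) (k+r)`, `z ∈ Nge (k+r)`. Let `i ≥ k+r` be the largest level with `z ∈ Nlev i` (exists because of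
`hfin`) and `(i,j')` heavy with `z ∈ big 8 τ i j'`; so `z ∈ W(i,j') = big 8 τ i j' \ Nge (i+1)`. By `cube_subset_big_four`, `cube τ i j' ⊆ big 4 Q`.
Moreover `Sc i j' ≤ lam`: otherwise take a point `x ∈ cube τ i j'` (so `idx τ i x = j'`); `S_(k+r-1)(x) ≤ lam < S_i(x)`, so by `exists_Lay` there is a level
`i'`, `k+r-1 < i' ≤ i`, with `(i', idx τ i' x) ∈ Lay lam`; its enlargement `big 8` contains `big 8 τ i j'` (iterate `big_subset_par`), so `z ∈ Obs_lam`,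
contradiction. Hence
`μ(big 3 Q \ Obs_lam) ≤ μ(big 3 Q \ Nge (k+r)) + ∑ over heavy (i,j'), i ≥ k+r, cube τ i j' ⊆ big 4 Q, Sc i j' ≤ lam, of μ(W(i,j'))`.
Now `μ(W) = om * s_i^d` and `t * s_i^d ≤ ν(cube τ i j')`, so `t * (sum) ≤ ∑ om(i,j') ν(cube τ i j') = ∫_{x ∈ big 4 Q} ∑_{i ≥ k+r} om_i(x) 1[...] dν(x)
≤ ∫_{big 4 Q} ∑_{i ≥ k+r, S_i(x) ≤ lam} om_i(x) dν(x) ≤ ν(big 4 Q) * (lam - Sc (k-5) J)` because the inner sum telescopes: it is at most `lam - S_(k+r-1)(x)` and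
`S_(k+r-1)(x) ≥ S_(k-5)(x) = Sc (k-5) J` for `x ∈ big 4 Q ⊆ cube τ (k-5) J`. Finally `ν(big 4 Q) ≤ θ ρ^d`, divide by `t = c0 θ`.
(All sums are finite: `finite_heavy`.)
-/

open MeasureTheory Set
open scoped ENNReal

namespace BDJ

variable {d : ℕ}

theorem light_c0_ne_zero : c0 d ≠ 0 := by
  unfold c0
  apply ENNReal.inv_ne_zero.2
  exact ENNReal.mul_ne_top (by norm_num) (ENNReal.pow_ne_top (by norm_num))

theorem light_c0_ne_top : c0 d ≠ ∞ := by
  unfold c0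
  apply ENNReal.inv_ne_top.2
  exact mul_ne_zero (by norm_num) (pow_ne_zero _ (by norm_num))

theorem light_greatest {p : ℕ → Prop} {L : ℕ} (h : ∃ i, p i) (hL : ∀ i, p i → i ≤ L) :
    ∃ i, p i ∧ ∀ i', p i' → i' ≤ i := by
  classical
  obtain ⟨i₀, h0⟩ := h
  exact ⟨Nat.findGreatest p L, Nat.findGreatest_spec (hL i₀ h0) h0,
    fun i' hi' => Nat.le_findGreatest (hL i' hi') hi'⟩

theorem light_big_chain {a : ℝ} (ha : 0 ≤ a) (τ : X d) {i i' : ℕ} (h : i' ≤ i) (x : X d) :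
    big a τ i (idx τ i x) ⊆ big a τ i' (idx τ i' x) := by
  induction i, h using Nat.le_induction with
  | base => exact Subset.rfl
  | succ n _ ih =>
    refine (big_subset_par ha τ n _).trans ?_
    rw [par_idx]
    exact ih

/-- telescoping -/
theorem light_telescope (μ ν : Measure (X d)) (t : ℝ≥0∞) (τ : X d) (x : X d) {K n : ℕ} (h : K ≤ n) :
    Sc μ ν t τ K (idx τ K x) + ∑ i ∈ Finset.Ico (K + 1) (n + 1), om μ ν t τ i (idx τ i x) =
      Sc μ ν t τ n (idx τ n x) := by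
  induction n, h using Nat.le_induction with
  | base => simp
  | succ m hm ih =>
    rw [Finset.sum_Ico_succ_top (by omega), ← add_assoc, ih, Sc_idx_succ]

open Classical in
/-- the sum of the masses of the good cubes containing `x` -/
theorem light_pointwise (μ ν : Measure (X d)) (t : ℝ≥0∞) (τ : X d) (K : ℕ)
    (G : Finset (ℕ × Idx d)) (lam : ℝ) (hK : ∀ P ∈ G, K < P.1)
    (hS : ∀ P ∈ G, Sc μ ν t τ P.1 P.2 ≤ lam) (x : X d) :
    ∑ P ∈ G, ENNReal.ofReal (om μ ν t τ P.1 P.2) * (cube τ P.1 P.2).indicator 1 x ≤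
      ENNReal.ofReal (lam - Sc μ ν t τ K (idx τ K x)) := by
  have e1 : ∑ P ∈ G, ENNReal.ofReal (om μ ν t τ P.1 P.2) * (cube τ P.1 P.2).indicator 1 x =
      ∑ P ∈ G.filter (fun P => idx τ P.1 x = P.2), ENNReal.ofReal (om μ ν t τ P.1 (idx τ P.1 x)) := by
    rw [Finset.sum_filter]
    refine Finset.sum_congr rfl fun P _ => ?_
    by_cases h : idx τ P.1 x = P.2
    · rw [if_pos h, indicator_of_mem ((mem_cube_iff τ P.1 P.2 x).2 h), h]
      simp
    · rw [if_neg h, indicator_of_notMem (fun h' => h ((mem_cube_iff τ P.1 P.2 x).1 h')), mul_zero]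
  rw [e1]
  rcases (G.filter (fun P => idx τ P.1 x = P.2)).eq_empty_or_nonempty with h0 | h0
  · rw [h0, Finset.sum_empty]
    exact zero_le
  · obtain ⟨P₁, hP₁, hmax⟩ := Finset.exists_max_image _ (fun P : ℕ × Idx d => P.1) h0
    have hinj : Set.InjOn (fun P : ℕ × Idx d => P.1)
        (G.filter (fun P => idx τ P.1 x = P.2) : Finset (ℕ × Idx d)) := by
      intro P hP Q hQ hPQ
      have hP2 := (Finset.mem_filter.1 (Finset.mem_coe.1 hP)).2
      have hQ2 := (Finset.mem_filter.1 (Finset.mem_coe.1 hQ)).2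
      have hPQ' : P.1 = Q.1 := hPQ
      refine Prod.ext hPQ' ?_
      rw [← hP2, ← hQ2, hPQ']
    have e2 : ∑ P ∈ G.filter (fun P => idx τ P.1 x = P.2), ENNReal.ofReal (om μ ν t τ P.1 (idx τ P.1 x)) =
        ∑ i ∈ (G.filter (fun P => idx τ P.1 x = P.2)).image (fun P => P.1),
          ENNReal.ofReal (om μ ν t τ i (idx τ i x)) := by
      rw [Finset.sum_image hinj]
    rw [e2]
    have hsub : (G.filter (fun P => idx τ P.1 x = P.2)).image (fun P => P.1) ⊆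
        Finset.Ico (K + 1) (P₁.1 + 1) := by
      intro i hi
      obtain ⟨P, hP, rfl⟩ := Finset.mem_image.1 hi
      have h1 := hK P (Finset.mem_filter.1 hP).1
      have h2 := hmax P hP
      rw [Finset.mem_Ico]
      omega
    have hP₁' := Finset.mem_filter.1 hP₁
    have h3 := hK P₁ hP₁'.1
    have h4 := light_telescope μ ν t τ x (K := K) (n := P₁.1) (by omega)
    have h5 := hS P₁ hP₁'.1
    rw [← hP₁'.2] at h5
    refine (Finset.sum_le_sum_of_subset hsub).trans ?_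
    rw [← ENNReal.ofReal_sum_of_nonneg (fun i _ => om_nonneg μ ν t τ i _)]
    apply ENNReal.ofReal_le_ofReal
    linarith

theorem light_sum (μ ν : Measure (X d)) [IsFiniteMeasure μ] [IsFiniteMeasure ν] {θ : ℝ≥0∞}
    (hθ0 : θ ≠ 0) (hθ : θ ≠ ∞) (τ : X d) (a k : ℕ) (hk : 5 ≤ k) (j J : Idx d)
    (hR : big 4 0 k j ⊆ cube τ (k - 5) J)
    (hcl : ν (big 4 0 k j) ≤ θ * ENNReal.ofReal (sd k ^ d))
    {L : ℕ} (hL : ∀ i, L < i → ∀ j', ¬ Heavy ν (c0 d * θ) τ i j')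
    (lam : ℝ) (hlam : ∀ x ∈ big 4 0 k j,
      Sc μ ν (c0 d * θ) τ (k + a + 4) (idx τ (k + a + 4) x) ≤ lam) :
    μ (big 3 0 k j \ Obs τ (Lay μ ν (c0 d * θ) τ lam) (k + a + 5)) ≤
      μ (big 3 0 k j \ Nge ν (c0 d * θ) τ (k + a + 5)) +
        (c0 d)⁻¹ * ENNReal.ofReal ((lam - Sc μ ν (c0 d * θ) τ (k - 5) J) * sd k ^ d) := by
  classical
  have ht0 : c0 d * θ ≠ 0 := mul_ne_zero light_c0_ne_zero hθ0
  have htt : c0 d * θ ≠ ∞ := ENNReal.mul_ne_top light_c0_ne_top hθ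
  set t : ℝ≥0∞ := c0 d * θ with ht
  have hfin := finite_heavy ν ht0 τ hL
  set G : Finset (ℕ × Idx d) := hfin.toFinset.filter (fun P => k + a + 5 ≤ P.1 ∧
    cube τ P.1 P.2 ⊆ big 4 0 k j ∧ Sc μ ν t τ P.1 P.2 ≤ lam) with hG
  have hGm : ∀ P, P ∈ G ↔ Heavy ν t τ P.1 P.2 ∧ k + a + 5 ≤ P.1 ∧
      cube τ P.1 P.2 ⊆ big 4 0 k j ∧ Sc μ ν t τ P.1 P.2 ≤ lam := by
    intro P
    rw [hG, Finset.mem_filter, Set.Finite.mem_toFinset]
    rfl
  -- the covering
  have hcov : big 3 0 k j \ Obs τ (Lay μ ν t τ lam) (k + a + 5) ⊆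
      (big 3 0 k j \ Nge ν t τ (k + a + 5)) ∪
        ⋃ P ∈ G, (big 8 τ P.1 P.2 \ Nge ν t τ (P.1 + 1)) := by
    rintro z ⟨hz3, hzO⟩
    by_cases hzN : z ∈ Nge ν t τ (k + a + 5)
    swap
    · exact Or.inl ⟨hz3, hzN⟩
    right
    simp only [Nge, mem_iUnion] at hzN
    obtain ⟨i₀, hi₀, hzi₀⟩ := hzN
    obtain ⟨i, hzi, hmax⟩ := light_greatest (p := fun i => z ∈ Nlev ν t τ i) (L := L) ⟨i₀, hzi₀⟩ (by
      intro i hi
      by_contra hlt
      simp only [Nlev, mem_iUnion] at hi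
      obtain ⟨j', hj', _⟩ := hi
      exact hL i (by omega) j' hj')
    have hi₁ : k + a + 5 ≤ i := hi₀.trans (hmax i₀ hzi₀)
    simp only [Nlev, mem_iUnion] at hzi
    obtain ⟨j', hj', hzj'⟩ := hzi
    have hsub := cube_subset_big_four (by omega : k + 5 ≤ i) hzj' hz3
    have hSc : Sc μ ν t τ i j' ≤ lam := by
      by_contra hlt
      rw [not_le] at hlt
      obtain ⟨x, hx⟩ := cube_nonempty τ i j'
      have hidx := (mem_cube_iff τ i j' x).1 hx
      rw [← hidx] at hlt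
      obtain ⟨i', h1, h2, h3⟩ := exists_Lay μ ν t τ (by omega : k + a + 4 ≤ i) x
        (hlam x (hsub hx)) hlt
      apply hzO
      simp only [Obs, mem_iUnion]
      refine ⟨(i', idx τ i' x), h3, by simp only; omega, ?_⟩
      rw [← hidx] at hzj'
      exact light_big_chain (by norm_num) τ h2 x hzj'
    simp only [mem_iUnion]
    refine ⟨(i, j'), (hGm _).2 ⟨hj', hi₁, hsub, hSc⟩, hzj', ?_⟩
    intro hcon
    simp only [Nge, mem_iUnion] at hcon
    obtain ⟨i', hi', hzi'⟩ := hcon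
    have := hmax i' hzi'
    omega
  -- the sum
  have hsum : t * ∑ P ∈ G, μ (big 8 τ P.1 P.2 \ Nge ν t τ (P.1 + 1)) ≤
      ENNReal.ofReal (lam - Sc μ ν t τ (k - 5) J) * (θ * ENNReal.ofReal (sd k ^ d)) := by
    calc t * ∑ P ∈ G, μ (big 8 τ P.1 P.2 \ Nge ν t τ (P.1 + 1))
        = ∑ P ∈ G, ENNReal.ofReal (om μ ν t τ P.1 P.2) * (t * ENNReal.ofReal (sd P.1 ^ d)) := by
          rw [Finset.mul_sum]
          refine Finset.sum_congr rfl fun P hP => ?_
          rw [← ofReal_om_mul μ ν t τ P.1 P.2 ((hGm P).1 hP).1]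
          ring
      _ ≤ ∑ P ∈ G, ENNReal.ofReal (om μ ν t τ P.1 P.2) * ν (cube τ P.1 P.2) := by
          refine Finset.sum_le_sum fun P hP => ?_
          exact mul_le_mul' le_rfl ((hGm P).1 hP).1
      _ = ∫⁻ x, ∑ P ∈ G, ENNReal.ofReal (om μ ν t τ P.1 P.2) * (cube τ P.1 P.2).indicator 1 x ∂ν := by
          rw [lintegral_finsetSum]
          · refine Finset.sum_congr rfl fun P _ => ?_
            rw [lintegral_const_mul' _ _ ENNReal.ofReal_ne_top,
              lintegral_indicator_one (measurableSet_cube τ P.1 P.2)]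
          · intro P _
            exact (measurable_one.indicator (measurableSet_cube τ P.1 P.2)).const_mul _
      _ ≤ ∫⁻ x, (big 4 0 k j).indicator
            (fun _ => ENNReal.ofReal (lam - Sc μ ν t τ (k - 5) J)) x ∂ν := by
          refine lintegral_mono fun x => ?_
          by_cases hx : x ∈ big 4 0 k j
          · rw [indicator_of_mem hx]
            refine (light_pointwise μ ν t τ (k + a + 4) G lam (fun P hP => ?_)
              (fun P hP => ((hGm P).1 hP).2.2.2) x).trans ?_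
            · have := ((hGm P).1 hP).2.1
              omega
            · apply ENNReal.ofReal_le_ofReal
              have h1 := Sc_mono μ ν t τ (by omega : k - 5 ≤ k + a + 4) x
              rw [(mem_cube_iff τ (k - 5) J x).1 (hR hx)] at h1
              linarith
          · rw [indicator_of_notMem hx]
            apply le_of_eq
            refine Finset.sum_eq_zero fun P hP => ?_
            rw [indicator_of_notMem (fun h => hx (((hGm P).1 hP).2.2.1 h)), mul_zero]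
      _ = ENNReal.ofReal (lam - Sc μ ν t τ (k - 5) J) * ν (big 4 0 k j) := by
          rw [lintegral_indicator (measurableSet_big 4 0 k j), setLIntegral_const]
      _ ≤ _ := mul_le_mul' le_rfl hcl
  have hsum2 : ∑ P ∈ G, μ (big 8 τ P.1 P.2 \ Nge ν t τ (P.1 + 1)) ≤
      (c0 d)⁻¹ * ENNReal.ofReal ((lam - Sc μ ν t τ (k - 5) J) * sd k ^ d) := by
    rw [ENNReal.ofReal_mul' (pow_nonneg (sd_pos k).le d)]
    have h1 : ∑ P ∈ G, μ (big 8 τ P.1 P.2 \ Nge ν t τ (P.1 + 1)) ≤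
        t⁻¹ * (ENNReal.ofReal (lam - Sc μ ν t τ (k - 5) J) * (θ * ENNReal.ofReal (sd k ^ d))) := by
      rw [mul_comm t⁻¹, ← div_eq_mul_inv, ENNReal.le_div_iff_mul_le (Or.inl ht0) (Or.inl htt), mul_comm]
      exact hsum
    refine h1.trans (le_of_eq ?_)
    rw [ht, ENNReal.mul_inv (Or.inl light_c0_ne_zero) (Or.inl light_c0_ne_top)]
    have h2 : θ⁻¹ * θ = 1 := ENNReal.inv_mul_cancel hθ0 hθ
    calc (c0 d)⁻¹ * θ⁻¹ * (ENNReal.ofReal (lam - Sc μ ν (c0 d * θ) τ (k - 5) J) *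
          (θ * ENNReal.ofReal (sd k ^ d)))
        = (c0 d)⁻¹ * (ENNReal.ofReal (lam - Sc μ ν (c0 d * θ) τ (k - 5) J) *
          ENNReal.ofReal (sd k ^ d)) * (θ⁻¹ * θ) := by ring
      _ = _ := by rw [h2, mul_one]
  calc μ (big 3 0 k j \ Obs τ (Lay μ ν t τ lam) (k + a + 5))
      ≤ μ ((big 3 0 k j \ Nge ν t τ (k + a + 5)) ∪
        ⋃ P ∈ G, (big 8 τ P.1 P.2 \ Nge ν t τ (P.1 + 1))) := measure_mono hcov
    _ ≤ μ (big 3 0 k j \ Nge ν t τ (k + a + 5)) +
        μ (⋃ P ∈ G, (big 8 τ P.1 P.2 \ Nge ν t τ (P.1 + 1))) := measure_union_le _ _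
    _ ≤ _ := by
        refine add_le_add le_rfl ?_
        exact (measure_biUnion_finset_le _ _).trans hsum2

end BDJ
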