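import Pool.Agent.BDJ.HeavyNbr

/-!
# The local masses are summable (row LOCS)

`∑ over (k,j)` in the class `θ` of `μ (big 3 0 k j \ Nge (k+a+5))` is at most `(a+5) * 7^(d+1) * μ univ`: write the sum as the integral over `x`
(w.r.t. `μ`) of the number of pairs `(k,j)` in the class with `x ∈ big 3 0 k j \ Nge ν (c0 d * θ) τ (k+a+5)` (`lintegral_tsum`, the sets are measurable). For fixed
`x`: if `(k,j)` and `(k',j')` are two such pairs with `k' ≥ k+a+5` then `x ∈ Nlev (k')` by `mem_Nlev_of_InCl`, `⊆ Nge (k+a+5)`, contradiction. So all the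
`k` lie in a window of length `a+5`; for each `k` at most `7^(d+1)` indices `j` (`tsum_big_le` with `N = 3`).

`Floc_sum`: the same, summed over the shifts (`(shifts d).card ≤ 2^(d+1)`), after multiplying `Floc` by `sd k ^ d`.
-/

open MeasureTheory Set
open scoped ENNReal

namespace BDJ

variable {d : ℕ}

/-- the set of the local mass -/
theorem locs_meas (ν : Measure (X d)) (t : ℝ≥0∞) (τ : X d) (a k : ℕ) (j : Idx d) :
    MeasurableSet (big 3 0 k j \ Nge ν t τ (k + a + 5)) :=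
  (measurableSet_big 3 0 k j).diff (isOpen_Nge ν t τ (k + a + 5)).measurableSet

open Classical in
theorem locs_point (ν : Measure (X d)) (θ : ℝ≥0∞) (τ : X d) (a : ℕ) (x : X d) :
    ∑' (k : ℕ) (j : Idx d), (if InCl ν θ k j then
      (big 3 0 k j \ Nge ν (c0 d * θ) τ (k + a + 5)).indicator (1 : X d → ℝ≥0∞) x else 0) ≤
    (a + 5) * 7 ^ (d + 1) := by
  -- the terms of a level
  have hlev : ∀ k : ℕ, ∑' j : Idx d, (if InCl ν θ k j then
      (big 3 0 k j \ Nge ν (c0 d * θ) τ (k + a + 5)).indicator (1 : X d → ℝ≥0∞) x else 0) ≤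
      7 ^ (d + 1) := by
    intro k
    have h1 := tsum_big_le 3 (0 : X d) k x
    have h2 : ((2 : ℝ≥0∞) * (3 : ℕ) + 1) ^ (d + 1) = 7 ^ (d + 1) := by
      congr 1
      norm_num
    rw [h2] at h1
    refine le_trans (ENNReal.tsum_le_tsum fun j => ?_) h1
    have h3 : ((3 : ℕ) : ℝ) = 3 := by norm_num
    rw [h3]
    split_ifs
    · exact indicator_le_indicator_of_subset sdiff_subset (fun _ => zero_le) x
    · exact zero_le
  by_cases hK : ∃ k : ℕ, ∃ j : Idx d, InCl ν θ k j ∧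
      x ∈ big 3 0 k j \ Nge ν (c0 d * θ) τ (k + a + 5)
  · have hmin := Nat.find_spec hK
    have hlow : ∀ k, k < Nat.find hK → ¬ ∃ j : Idx d, InCl ν θ k j ∧
      x ∈ big 3 0 k j \ Nge ν (c0 d * θ) τ (k + a + 5) := fun k hk => Nat.find_min hK hk
    obtain ⟨k0, hk0⟩ : ∃ k0, k0 = Nat.find hK := ⟨_, rfl⟩
    rw [← hk0] at hmin hlow
    obtain ⟨j0, hj0, hx0⟩ := hmin
    have hsupp : ∀ k : ℕ, k ∉ Finset.Ico k0 (k0 + (a + 5)) → ∑' j : Idx d, (if InCl ν θ k j then
      (big 3 0 k j \ Nge ν (c0 d * θ) τ (k + a + 5)).indicator (1 : X d → ℝ≥0∞) x else 0) = 0 := by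
      intro k hk
      rw [ENNReal.tsum_eq_zero]
      intro j
      split_ifs with hI
      · apply indicator_of_notMem
        intro hx
        rw [Finset.mem_Ico, not_and_or, not_le, not_lt] at hk
        rcases hk with hk | hk
        · exact hlow k hk ⟨j, hI, hx⟩
        · have h4 : x ∈ Nlev ν (c0 d * θ) τ k := mem_Nlev_of_InCl ν θ τ k j hI hx.1
          exact hx0.2 (Nlev_subset_Nge ν (c0 d * θ) τ (by omega) h4)
      · rfl
    rw [tsum_eq_sum (s := Finset.Ico k0 (k0 + (a + 5))) fun k hk => hsupp k hk]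
    calc ∑ k ∈ Finset.Ico k0 (k0 + (a + 5)), ∑' j : Idx d, (if InCl ν θ k j then
        (big 3 0 k j \ Nge ν (c0 d * θ) τ (k + a + 5)).indicator (1 : X d → ℝ≥0∞) x else 0)
        ≤ ∑ _k ∈ Finset.Ico k0 (k0 + (a + 5)), (7 : ℝ≥0∞) ^ (d + 1) :=
          Finset.sum_le_sum fun k _ => hlev k
      _ = (a + 5) * 7 ^ (d + 1) := by
          rw [Finset.sum_const, Nat.card_Ico, nsmul_eq_mul, Nat.add_sub_cancel_left]
          push_cast
          rfl
  · have h0 : ∑' (k : ℕ) (j : Idx d), (if InCl ν θ k j then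
      (big 3 0 k j \ Nge ν (c0 d * θ) τ (k + a + 5)).indicator (1 : X d → ℝ≥0∞) x else 0) = 0 := by
      rw [ENNReal.tsum_eq_zero]
      intro k
      rw [ENNReal.tsum_eq_zero]
      intro j
      split_ifs with hI
      · exact indicator_of_notMem (fun hx => hK ⟨k, j, hI, hx⟩) _
      · rfl
    rw [h0]
    exact zero_le

open Classical in
theorem local_sum (μ ν : Measure (X d)) (θ : ℝ≥0∞) (τ : X d) (a : ℕ) :
    ∑' (k : ℕ) (j : Idx d),
      (if InCl ν θ k j then μ (big 3 0 k j \ Nge ν (c0 d * θ) τ (k + a + 5)) else 0) ≤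
    (a + 5) * 7 ^ (d + 1) * μ univ := by
  have hterm : ∀ (k : ℕ) (j : Idx d),
      (if InCl ν θ k j then μ (big 3 0 k j \ Nge ν (c0 d * θ) τ (k + a + 5)) else 0) =
      ∫⁻ x, (if InCl ν θ k j then
        (big 3 0 k j \ Nge ν (c0 d * θ) τ (k + a + 5)).indicator (1 : X d → ℝ≥0∞) x else 0) ∂μ := by
    intro k j
    by_cases hI : InCl ν θ k j
    · simp only [if_pos hI]
      rw [lintegral_indicator_one (locs_meas ν (c0 d * θ) τ a k j)]
    · simp only [if_neg hI, lintegral_zero]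
  have hm : ∀ (k : ℕ) (j : Idx d), Measurable fun x => (if InCl ν θ k j then
        (big 3 0 k j \ Nge ν (c0 d * θ) τ (k + a + 5)).indicator (1 : X d → ℝ≥0∞) x else 0) := by
    intro k j
    by_cases hI : InCl ν θ k j
    · simp only [if_pos hI]
      exact measurable_one.indicator (locs_meas ν (c0 d * θ) τ a k j)
    · simp only [if_neg hI]
      exact measurable_const
  calc ∑' (k : ℕ) (j : Idx d),
      (if InCl ν θ k j then μ (big 3 0 k j \ Nge ν (c0 d * θ) τ (k + a + 5)) else 0)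
      = ∑' (k : ℕ) (j : Idx d), ∫⁻ x, (if InCl ν θ k j then
        (big 3 0 k j \ Nge ν (c0 d * θ) τ (k + a + 5)).indicator (1 : X d → ℝ≥0∞) x else 0) ∂μ :=
        tsum_congr fun k => tsum_congr fun j => hterm k j
    _ = ∑' k : ℕ, ∫⁻ x, ∑' j : Idx d, (if InCl ν θ k j then
        (big 3 0 k j \ Nge ν (c0 d * θ) τ (k + a + 5)).indicator (1 : X d → ℝ≥0∞) x else 0) ∂μ :=
        tsum_congr fun k => (lintegral_tsum fun j => (hm k j).aemeasurable).symm
    _ = ∫⁻ x, ∑' (k : ℕ) (j : Idx d), (if InCl ν θ k j then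
        (big 3 0 k j \ Nge ν (c0 d * θ) τ (k + a + 5)).indicator (1 : X d → ℝ≥0∞) x else 0) ∂μ :=
        (lintegral_tsum fun k => (Measurable.ennreal_tsum fun j => hm k j).aemeasurable).symm
    _ ≤ ∫⁻ _x, (a + 5) * 7 ^ (d + 1) ∂μ := lintegral_mono fun x => locs_point ν θ τ a x
    _ = (a + 5) * 7 ^ (d + 1) * μ univ := by rw [lintegral_const]

theorem locs_card : ((shifts d).card : ℝ≥0∞) ≤ 2 ^ (d + 1) := by
  have h : (shifts d).card ≤ 2 ^ (d + 1) := by
    unfold shifts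
    rw [Fintype.card_piFinset, Finset.prod_const, Finset.card_univ, Fintype.card_fin]
    exact Nat.pow_le_pow_left Finset.card_le_two _
  calc ((shifts d).card : ℝ≥0∞) ≤ ((2 ^ (d + 1) : ℕ) : ℝ≥0∞) := by exact_mod_cast h
    _ = 2 ^ (d + 1) := by push_cast; rfl

open Classical in
theorem Floc_sum (μ ν : Measure (X d)) (θ : ℝ≥0∞) (a : ℕ) :
    ∑' (k : ℕ) (j : Idx d),
      (if InCl ν θ k j then ENNReal.ofReal (sd k ^ d) * Floc μ ν (c0 d * θ) a k j else 0) ≤
    2 ^ (d + 1) * ((a + 5) * 7 ^ (d + 1)) * μ univ := by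
  have hterm : ∀ (k : ℕ) (j : Idx d),
      (if InCl ν θ k j then ENNReal.ofReal (sd k ^ d) * Floc μ ν (c0 d * θ) a k j else 0) =
      ∑ τ ∈ shifts d, (if InCl ν θ k j then
        μ (big 3 0 k j \ Nge ν (c0 d * θ) τ (k + a + 5)) else 0) := by
    intro k j
    by_cases hI : InCl ν θ k j
    · simp only [if_pos hI]
      unfold Floc
      have h0 : ENNReal.ofReal (sd k ^ d) ≠ 0 := by
        rw [Ne, ENNReal.ofReal_eq_zero, not_le]
        exact pow_pos (sd_pos k) d
      exact ENNReal.mul_div_cancel h0 ENNReal.ofReal_ne_top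
    · simp only [if_neg hI, Finset.sum_const_zero]
  calc ∑' (k : ℕ) (j : Idx d),
      (if InCl ν θ k j then ENNReal.ofReal (sd k ^ d) * Floc μ ν (c0 d * θ) a k j else 0)
      = ∑' (k : ℕ) (j : Idx d), ∑ τ ∈ shifts d, (if InCl ν θ k j then
        μ (big 3 0 k j \ Nge ν (c0 d * θ) τ (k + a + 5)) else 0) :=
        tsum_congr fun k => tsum_congr fun j => hterm k j
    _ = ∑' k : ℕ, ∑ τ ∈ shifts d, ∑' j : Idx d, (if InCl ν θ k j then
        μ (big 3 0 k j \ Nge ν (c0 d * θ) τ (k + a + 5)) else 0) :=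
        tsum_congr fun k => Summable.tsum_finsetSum fun τ _ => ENNReal.summable
    _ = ∑ τ ∈ shifts d, ∑' (k : ℕ) (j : Idx d), (if InCl ν θ k j then
        μ (big 3 0 k j \ Nge ν (c0 d * θ) τ (k + a + 5)) else 0) :=
        Summable.tsum_finsetSum fun τ _ => ENNReal.summable
    _ ≤ ∑ _τ ∈ shifts d, (a + 5) * 7 ^ (d + 1) * μ univ :=
        Finset.sum_le_sum fun τ _ => local_sum μ ν θ τ a
    _ = (shifts d).card * ((a + 5) * 7 ^ (d + 1) * μ univ) := by
        rw [Finset.sum_const, nsmul_eq_mul]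
    _ ≤ 2 ^ (d + 1) * ((a + 5) * 7 ^ (d + 1) * μ univ) := by
        gcongr
        exact locs_card
    _ = 2 ^ (d + 1) * ((a + 5) * 7 ^ (d + 1)) * μ univ := by ring

end BDJ
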