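import Pool.Agent.BDJ.Omega

/-!
# Oscillation of `Sc` near a cube (row VSUM)

`Sc_le`: for `x ∈ big 4 0 k j ⊆ cube τ (k-5) J`: `S_(k+a+4)(x) - S_(k-5)(x) = ∑_{i ∈ [k-4, k+a+5)} om_i(x)` and each cube `cube τ i (idx τ i x)` meets
`big 4 0 k j` at `x`; so the sum is at most `Vv`.

`Vv_sum`: `sd k ^ d * Vv = ∑_i ∑_{j'} sd k ^ d om(i,j') 1[meets]`, and for `i` in the window `[k-4, k+a+5)`, `sd k ^ d ≤ 2^((a+5) d) sd i ^ d`. For a fixed `(i,j')`:
the levels `k ≥ 5` with `i ∈ [k-4, k+a+5)` are at most `a+9` many, and for each of them the number of `j` with `cube τ i j' ∩ big 4 0 k j` nonempty is at most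
`(16+10)^(d+1)` (each coordinate: the cube `i` is an interval of length at most `16 ρ`, the other one an open interval `(j-4, j+5) ρ`). Then `om_sum`.
-/

open MeasureTheory Set
open scoped ENNReal

namespace BDJ

variable {d : ℕ}

theorem vsum_telescope (μ ν : Measure (X d)) (t : ℝ≥0∞) (τ : X d) (x : X d) (k n : ℕ) :
    Sc μ ν t τ (k + n) (idx τ (k + n) x) =
      Sc μ ν t τ k (idx τ k x) + ∑ i ∈ Finset.Ico (k + 1) (k + n + 1), om μ ν t τ i (idx τ i x) := by
  induction n with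
  | zero => simp
  | succ n ih =>
    rw [← add_assoc, Sc_idx_succ, ih, Finset.sum_Ico_succ_top (by omega : k + 1 ≤ k + n + 1)]
    ring

/-- the cubes of the level `i` which meet `big 4 0 k j` -/
theorem vsum_finite (τ : X d) (i k : ℕ) (j : Idx d) :
    {j' : Idx d | (cube τ i j' ∩ big 4 0 k j).Nonempty}.Finite := by
  refine Set.Finite.subset (Set.finite_Icc
    (fun c : Fin (d + 1) => ⌊(((j c : ℝ) - 4) * sd k - τ c) / sd i⌋ - 1)
    (fun c : Fin (d + 1) => ⌈(((j c : ℝ) + 5) * sd k - τ c) / sd i⌉)) ?_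
  rintro j' ⟨x, hx1, hx2⟩
  have hi := sd_pos i
  constructor
  · intro c
    have h1 := (hx1 c).2
    have h2 := (hx2 c).1
    simp only [Pi.zero_apply, zero_add] at h2
    have h3 : (((j c : ℝ) - 4) * sd k - τ c) / sd i < (j' c : ℝ) + 1 := by
      rw [div_lt_iff₀ hi]
      linarith
    have h4 : ((⌊(((j c : ℝ) - 4) * sd k - τ c) / sd i⌋ : ℤ) : ℝ) < (j' c : ℝ) + 1 :=
      (Int.floor_le _).trans_lt h3
    have h5 : ⌊(((j c : ℝ) - 4) * sd k - τ c) / sd i⌋ < j' c + 1 := by exact_mod_cast h4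
    simp only
    omega
  · intro c
    have h1 := (hx1 c).1
    have h2 := (hx2 c).2
    simp only [Pi.zero_apply, zero_add] at h2
    have h3 : (j' c : ℝ) ≤ (((j c : ℝ) + 5) * sd k - τ c) / sd i := by
      rw [le_div_iff₀ hi]
      linarith
    have h4 : (j' c : ℝ) ≤ ((⌈(((j c : ℝ) + 5) * sd k - τ c) / sd i⌉ : ℤ) : ℝ) :=
      h3.trans (Int.le_ceil _)
    exact_mod_cast h4

open Classical in
/-- the number of cubes of the level `k` whose enlargement meets a cube of a level `i` at least `k - 4` -/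
theorem vsum_count (τ : X d) {i k : ℕ} (hik : k ≤ i + 4) (j' : Idx d) :
    ∑' j : Idx d, (if (cube τ i j' ∩ big 4 0 k j).Nonempty then (1 : ℝ≥0∞) else 0) ≤
      26 ^ (d + 1) := by
  set m : Idx d := fun c => ⌊(τ c + j' c * sd i) / sd k⌋ with hm
  have hi := sd_pos i
  have hk := sd_pos k
  have hsd : sd i ≤ 16 * sd k := by
    have h1 : sd (i + 4) ≤ sd k := sd_anti hik
    rw [sd_add] at h1
    have h2 : sd 4 = 1 / 16 := by
      unfold sd
      norm_num
    rw [h2] at h1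
    linarith
  have hsub : ∀ j : Idx d, (cube τ i j' ∩ big 4 0 k j).Nonempty →
      j ∈ Finset.Icc (fun c => m c - 4) (fun c => m c + 21) := by
    rintro j ⟨x, hx1, hx2⟩
    rw [Finset.mem_Icc]
    constructor
    · intro c
      have h1 := (hx1 c).1
      have h2 := (hx2 c).2
      simp only [Pi.zero_apply, zero_add] at h2
      have h3 : (τ c + j' c * sd i) / sd k < (j c : ℝ) + 5 := by
        rw [div_lt_iff₀ hk]
        linarith
      have h4 : ((m c : ℤ) : ℝ) < (j c : ℝ) + 5 := (Int.floor_le _).trans_lt h3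
      have h5 : m c < j c + 5 := by exact_mod_cast h4
      simp only
      omega
    · intro c
      have h1 := (hx1 c).2
      have h2 := (hx2 c).1
      simp only [Pi.zero_apply, zero_add] at h2
      have h3 : (j c : ℝ) < (τ c + j' c * sd i) / sd k + 20 := by
        rw [← sub_lt_iff_lt_add, lt_div_iff₀ hk]
        nlinarith
      have h4 : (τ c + j' c * sd i) / sd k < ((m c : ℤ) : ℝ) + 1 := Int.lt_floor_add_one _
      have h5 : (j c : ℝ) < (m c : ℝ) + 21 := by linarith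
      have h6 : j c < m c + 21 := by exact_mod_cast h5
      simp only
      omega
  have h1 : ∑' j : Idx d, (if (cube τ i j' ∩ big 4 0 k j).Nonempty then (1 : ℝ≥0∞) else 0) ≤
      ∑' j : Idx d, (if j ∈ Finset.Icc (fun c => m c - 4) (fun c => m c + 21) then (1 : ℝ≥0∞)
        else 0) := by
    apply ENNReal.tsum_le_tsum
    intro j
    by_cases h : (cube τ i j' ∩ big 4 0 k j).Nonempty
    · rw [if_pos h, if_pos (hsub j h)]
    · rw [if_neg h]
      exact zero_le
  refine h1.trans ?_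
  rw [tsum_eq_sum (s := Finset.Icc (fun c => m c - 4) (fun c => m c + 21))
    (fun j hj => if_neg hj)]
  rw [Finset.sum_congr rfl (fun j hj => if_pos hj), Finset.sum_const, nsmul_eq_mul, mul_one,
    Pi.card_Icc]
  have h2 : ∀ c ∈ (Finset.univ : Finset (Fin (d + 1))),
      (Finset.Icc (m c - 4) (m c + 21)).card = 26 := by
    intro c _
    rw [Int.card_Icc]
    omega
  rw [Finset.prod_congr rfl h2, Finset.prod_const, Finset.card_univ, Fintype.card_fin]
  push_cast
  exact le_refl _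

/-- the number of levels -/
theorem vsum_levels (a i : ℕ) (c : ℝ≥0∞) :
    ∑' k : ℕ, (if k ∈ Finset.Icc (i - a - 4) (i + 4) then c else 0) ≤ (a + 9) * c := by
  rw [tsum_eq_sum (s := Finset.Icc (i - a - 4) (i + 4)) (fun j hj => if_neg hj),
    Finset.sum_congr rfl (fun j hj => if_pos hj), Finset.sum_const, nsmul_eq_mul, Nat.card_Icc]
  apply mul_le_mul_left
  have h : i + 4 + 1 - (i - a - 4) ≤ a + 9 := by omega
  exact_mod_cast h

theorem vsum_weight (a : ℕ) {i k : ℕ} (h : i ≤ k + a + 5) :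
    ENNReal.ofReal (sd k ^ d) ≤ 2 ^ ((a + 5) * d) * ENNReal.ofReal (sd i ^ d) := by
  have h1 : sd (k + (a + 5)) ≤ sd i := sd_anti (by omega)
  rw [sd_add] at h1
  have h2 : sd k ≤ 2 ^ (a + 5) * sd i := by
    have h3 := two_pow_mul_sd (a + 5)
    have h4 : (0 : ℝ) < 2 ^ (a + 5) := by positivity
    calc sd k = 2 ^ (a + 5) * (sd k * sd (a + 5)) := by
          rw [mul_left_comm, h3, mul_one]
      _ ≤ 2 ^ (a + 5) * sd i := mul_le_mul_of_nonneg_left h1 h4.le
  have h5 : (2 : ℝ≥0∞) ^ ((a + 5) * d) = ENNReal.ofReal (2 ^ ((a + 5) * d)) := by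
    rw [ENNReal.ofReal_pow (by norm_num)]
    norm_num
  rw [h5, ← ENNReal.ofReal_mul (by positivity)]
  apply ENNReal.ofReal_le_ofReal
  rw [pow_mul, ← mul_pow]
  exact pow_le_pow_left₀ (sd_pos k).le h2 d

theorem vsum_comm (T : ℕ → Idx d → ℕ → Idx d → ℝ≥0∞) :
    ∑' (k : ℕ) (j : Idx d) (i : ℕ) (j' : Idx d), T k j i j' =
      ∑' (i : ℕ) (j' : Idx d) (k : ℕ) (j : Idx d), T k j i j' := by
  calc ∑' (k : ℕ) (j : Idx d) (i : ℕ) (j' : Idx d), T k j i j'
      = ∑' (k : ℕ) (i : ℕ) (j : Idx d) (j' : Idx d), T k j i j' := by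
        apply tsum_congr
        intro k
        exact ENNReal.tsum_comm
    _ = ∑' (i : ℕ) (k : ℕ) (j : Idx d) (j' : Idx d), T k j i j' := ENNReal.tsum_comm
    _ = ∑' (i : ℕ) (k : ℕ) (j' : Idx d) (j : Idx d), T k j i j' := by
        apply tsum_congr
        intro i
        apply tsum_congr
        intro k
        exact ENNReal.tsum_comm
    _ = ∑' (i : ℕ) (j' : Idx d) (k : ℕ) (j : Idx d), T k j i j' := by
        apply tsum_congr
        intro i
        exact ENNReal.tsum_comm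

theorem Sc_le (μ ν : Measure (X d)) (t : ℝ≥0∞) (τ : X d) (a k : ℕ) (hk : 5 ≤ k) (j J : Idx d)
    (hR : big 4 0 k j ⊆ cube τ (k - 5) J) {x : X d} (hx : x ∈ big 4 0 k j) :
    ENNReal.ofReal (Sc μ ν t τ (k + a + 4) (idx τ (k + a + 4) x) - Sc μ ν t τ (k - 5) J) ≤
      Vv μ ν t τ a k j := by
  classical
  have hxJ : idx τ (k - 5) x = J := (mem_cube_iff τ (k - 5) J x).1 (hR hx)
  obtain ⟨k', rfl⟩ : ∃ k', k = k' + 5 := ⟨k - 5, by omega⟩
  have e0 : k' + 5 - 5 = k' := by omega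
  rw [e0] at hxJ ⊢
  have h1 := vsum_telescope μ ν t τ x k' (5 + a + 4)
  have e1 : k' + (5 + a + 4) = k' + 5 + a + 4 := by omega
  rw [e1, hxJ] at h1
  have h2 : Sc μ ν t τ (k' + 5 + a + 4) (idx τ (k' + 5 + a + 4) x) - Sc μ ν t τ k' J =
      ∑ i ∈ Finset.Ico (k' + 1) (k' + 5 + a + 4 + 1), om μ ν t τ i (idx τ i x) := by
    rw [h1]
    ring
  rw [h2, ENNReal.ofReal_sum_of_nonneg (fun i _ => om_nonneg μ ν t τ i _), Vv]
  have e2 : k' + 5 - 4 = k' + 1 := by omega
  rw [e2]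
  apply Finset.sum_le_sum
  intro i _
  refine le_trans ?_ (ENNReal.le_tsum (idx τ i x))
  rw [if_pos ⟨x, mem_cube_idx τ i x, hx⟩]

theorem Vv_lt_top (μ ν : Measure (X d)) [IsFiniteMeasure μ] (t : ℝ≥0∞) (τ : X d) (a k : ℕ)
    (j : Idx d) : Vv μ ν t τ a k j < ∞ := by
  classical
  rw [Vv]
  refine ENNReal.sum_lt_top.2 ?_
  intro i _
  rw [tsum_eq_sum (s := (vsum_finite τ i k j).toFinset)]
  · refine ENNReal.sum_lt_top.2 ?_
    intro j' _
    split_ifs
    · exact ENNReal.ofReal_lt_top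
    · exact ENNReal.zero_lt_top
  · intro j' hj'
    rw [Set.Finite.mem_toFinset] at hj'
    exact if_neg hj'

theorem Vv_sum (μ ν : Measure (X d)) [IsFiniteMeasure μ] (t : ℝ≥0∞) (τ : X d) (a : ℕ) :
    ∑' (k : ℕ) (j : Idx d),
      (if 5 ≤ k then ENNReal.ofReal (sd k ^ d) * Vv μ ν t τ a k j else 0) ≤
    (a + 9) * 26 ^ (d + 1) * 2 ^ ((a + 5) * d) * (17 ^ (d + 1) * μ univ) := by
  classical
  set W : ℕ → Idx d → ℝ≥0∞ := fun i j' =>
    ENNReal.ofReal (om μ ν t τ i j') * ENNReal.ofReal (sd i ^ d) with hW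
  set C : ℝ≥0∞ := 2 ^ ((a + 5) * d) with hC
  set T : ℕ → Idx d → ℕ → Idx d → ℝ≥0∞ := fun k j i j' =>
    if 5 ≤ k ∧ i ∈ Finset.Ico (k - 4) (k + a + 5) then
      (if (cube τ i j' ∩ big 4 0 k j).Nonempty then C * W i j' else 0) else 0 with hT
  have h1 : ∀ (k : ℕ) (j : Idx d),
      (if 5 ≤ k then ENNReal.ofReal (sd k ^ d) * Vv μ ν t τ a k j else 0) ≤
        ∑' (i : ℕ) (j' : Idx d), T k j i j' := by
    intro k j
    by_cases hk : 5 ≤ k
    · rw [if_pos hk, Vv, Finset.mul_sum]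
      refine le_trans ?_ (ENNReal.sum_le_tsum (Finset.Ico (k - 4) (k + a + 5)))
      apply Finset.sum_le_sum
      intro i hi
      rw [← ENNReal.tsum_mul_left]
      apply ENNReal.tsum_le_tsum
      intro j'
      simp only [hT]
      have hcond : 5 ≤ k ∧ i ∈ Finset.Ico (k - 4) (k + a + 5) := ⟨hk, hi⟩
      rw [if_pos hcond]
      by_cases hm : (cube τ i j' ∩ big 4 0 k j).Nonempty
      · rw [if_pos hm, if_pos hm, hW]
        simp only
        rw [mul_left_comm C, mul_comm (ENNReal.ofReal (sd k ^ d))]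
        apply mul_le_mul_right
        exact vsum_weight a (by rw [Finset.mem_Ico] at hi; omega)
      · rw [if_neg hm, if_neg hm, mul_zero]
    · rw [if_neg hk]
      exact zero_le
  have h2 : ∀ (i : ℕ) (j' : Idx d), ∑' (k : ℕ) (j : Idx d), T k j i j' ≤
      (a + 9) * (26 ^ (d + 1) * (C * W i j')) := by
    intro i j'
    refine le_trans ?_ (vsum_levels a i (26 ^ (d + 1) * (C * W i j')))
    apply ENNReal.tsum_le_tsum
    intro k
    by_cases hk : 5 ≤ k ∧ i ∈ Finset.Ico (k - 4) (k + a + 5)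
    · have hk2 := hk.2
      rw [Finset.mem_Ico] at hk2
      rw [if_pos (show k ∈ Finset.Icc (i - a - 4) (i + 4) by
        rw [Finset.mem_Icc]
        omega)]
      have e1 : ∀ j : Idx d, T k j i j' =
          (if (cube τ i j' ∩ big 4 0 k j).Nonempty then (1 : ℝ≥0∞) else 0) * (C * W i j') := by
        intro j
        simp only [hT]
        rw [if_pos hk]
        split_ifs
        · rw [one_mul]
        · rw [zero_mul]
      rw [tsum_congr e1, ENNReal.tsum_mul_right]
      exact mul_le_mul_left (vsum_count τ (by omega) j') _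
    · have e1 : ∀ j : Idx d, T k j i j' = 0 := by
        intro j
        simp only [hT]
        rw [if_neg hk]
      rw [tsum_congr e1, tsum_zero]
      exact zero_le
  calc ∑' (k : ℕ) (j : Idx d),
      (if 5 ≤ k then ENNReal.ofReal (sd k ^ d) * Vv μ ν t τ a k j else 0)
      ≤ ∑' (k : ℕ) (j : Idx d) (i : ℕ) (j' : Idx d), T k j i j' :=
        ENNReal.tsum_le_tsum fun k => ENNReal.tsum_le_tsum fun j => h1 k j
    _ = ∑' (i : ℕ) (j' : Idx d) (k : ℕ) (j : Idx d), T k j i j' := vsum_comm T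
    _ ≤ ∑' (i : ℕ) (j' : Idx d), (a + 9) * (26 ^ (d + 1) * (C * W i j')) :=
        ENNReal.tsum_le_tsum fun i => ENNReal.tsum_le_tsum fun j' => h2 i j'
    _ = (a + 9) * 26 ^ (d + 1) * C * ∑' (i : ℕ) (j' : Idx d), W i j' := by
        rw [← ENNReal.tsum_mul_left]
        apply tsum_congr
        intro i
        rw [← ENNReal.tsum_mul_left]
        apply tsum_congr
        intro j'
        ring
    _ ≤ (a + 9) * 26 ^ (d + 1) * C * (17 ^ (d + 1) * μ univ) :=
        mul_le_mul_right (om_sum μ ν t τ) _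

end BDJ
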