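import Pool.Agent.BDJ.Third
import Pool.Agent.BDJ.LocalSum
import Pool.Agent.BDJ.CostClaim
import Pool.Agent.BDJ.LightSum
import Pool.Agent.BDJ.VSum
import Pool.Agent.BDJ.BlockSum

/-!
# The costs of one density class are summable (row THETA)

Put `t = c0 d * θ`, `μ = volume.withDensity h`. For `(k,j)` in the class, `k ≥ 5`, choose `τ = τ(k,j) ∈ shifts d` and `J` by `exists_shift`. Put
`σ = Sc (k-5) J + (Vv).toReal` (real, `≥ 0`; `Vv < ∞`), `A = 4 * 2^(a*d)`, `B = A * (c0 d)⁻¹`, `F = Floc`. Let `i` be such that `Sub a j i`, `Sparse`. For every real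
`lam > σ`, `hlam` of `light_sum` holds by `Sc_le`; if `b = (k+a,i)` is not blocked by `Obs τ (Lay lam) (k+a+5)`, then by `cost_claim` and `light_sum`
`qc ≤ A * F + B * ofReal(lam - Sc (k-5) J)`. Put `x = qc/B - (F * c0 d + Vv)` (truncated subtraction in `ℝ≥0∞`), so `qc ≤ A F + B Vv + B x`. For
`lam ∈ I = {lam | σ < lam ∧ ofReal (lam - σ) < x}` (Lebesgue measure of `I` is `x`) the cube must be blocked. So for each `τ`
`∑_{(k,j,i) : τ(k,j) = τ} ρ^d x = ∫ ∑ ρ^d 1_I(lam) dlam ≤ ∫ ∑_{blocked at lam} ρ^d dlam ≤ ∫ C ∑_{P ∈ Lay lam} sd P^d dlam ≤ C ∑_P om sd^d ≤ C 17^(d+1) μ univ`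
(`block_sum` with `F` = the finite set `Lay lam`, `lay_integral`, `om_sum`). The terms `A F`, `B Vv` are summed by `Floc_sum`, `Vv_sum` (each `(k,j)` has
`(3 * 2^a)^(d+1)` indices `i`, `encard_Sub`), the term `Floc` of `costQ` by `Floc_sum`.
-/

open MeasureTheory Set
open scoped ENNReal NNReal

namespace BDJ

variable {d : ℕ}

open Classical in
/-- number of sub-cubes -/
theorem theta_count (a : ℕ) (j : Idx d) :
    ∑' i : Idx d, (if Sub a j i then (1 : ℝ≥0∞) else 0) = (3 * 2 ^ a) ^ (d + 1) := by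
  have hf := finite_Sub a j
  have h1 : hf.toFinset.card = (3 * 2 ^ a) ^ (d + 1) := by
    have h2 := encard_Sub a j
    rw [hf.encard_eq_coe_toFinset_card] at h2
    exact_mod_cast h2
  rw [tsum_eq_sum (s := hf.toFinset)]
  · rw [Finset.sum_congr rfl (fun i hi => if_pos (by simpa using hi)), Finset.sum_const,
      nsmul_eq_mul, mul_one, h1]
    push_cast
    rfl
  · intro i hi
    rw [if_neg]
    simpa using hi

theorem theta_vol (σ : ℝ) (x : ℝ≥0∞) :
    MeasurableSet {lam : ℝ | σ ≤ lam ∧ ENNReal.ofReal (lam - σ) < x} ∧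
      volume {lam : ℝ | σ ≤ lam ∧ ENNReal.ofReal (lam - σ) < x} = x := by
  by_cases hx : x = ∞
  · have h : {lam : ℝ | σ ≤ lam ∧ ENNReal.ofReal (lam - σ) < x} = Ici σ := by
      ext lam
      simp [hx]
    rw [h, Real.volume_Ici, hx]
    exact ⟨measurableSet_Ici, rfl⟩
  · have h : {lam : ℝ | σ ≤ lam ∧ ENNReal.ofReal (lam - σ) < x} = Ico σ (σ + x.toReal) := by
      ext lam
      simp only [mem_setOf_eq, mem_Ico]
      refine and_congr_right fun h1 => ?_
      rw [ENNReal.ofReal_lt_iff_lt_toReal (sub_nonneg.2 h1) hx, sub_lt_iff_lt_add']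
    rw [h, Real.volume_Ico, add_sub_cancel_left, ENNReal.ofReal_toReal hx]
    exact ⟨measurableSet_Ico, rfl⟩

/-- the cost of a cube which is not blocked at the height `σ + s` -/
theorem theta_qc {h : X d → ℝ≥0∞} (hh : Measurable h) (ν : Measure (X d)) [IsFiniteMeasure ν]
    [IsFiniteMeasure (volume.withDensity h)] {θ : ℝ≥0∞} (hθ0 : θ ≠ 0) (hθ : θ ≠ ∞) {τ : X d}
    (hτ : τ ∈ shifts d) (a k : ℕ) (hk : 5 ≤ k) (j J i : Idx d)
    (hR : big 4 0 k j ⊆ cube τ (k - 5) J) (hcl : InCl ν θ k j) {L : ℕ}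
    (hL : ∀ i, L < i → ∀ j', ¬ Heavy ν (c0 d * θ) τ i j') (hs : Sub a j i) {s : ℝ} (hs0 : 0 ≤ s)
    (hb : ¬ Blocked (Obs τ (Lay (volume.withDensity h) ν (c0 d * θ) τ
      (Sc (volume.withDensity h) ν (c0 d * θ) τ (k - 5) J +
        (Vv (volume.withDensity h) ν (c0 d * θ) τ a k j).toReal + s)) (k + a + 5)) a k i) :
    qc h a k i ≤ 4 * 2 ^ (a * d) * Floc (volume.withDensity h) ν (c0 d * θ) a k j +
      4 * 2 ^ (a * d) * (c0 d)⁻¹ *
        (Vv (volume.withDensity h) ν (c0 d * θ) τ a k j + ENNReal.ofReal s) := by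
  set μ := volume.withDensity h with hμ
  set t := c0 d * θ with ht
  set V := Vv μ ν t τ a k j with hV
  have hVt : V < ∞ := Vv_lt_top μ ν t τ a k j
  set S := Sc μ ν t τ (k - 5) J with hS
  have hsd : 0 < sd k ^ d := pow_pos (sd_pos k) d
  have hR0 : ENNReal.ofReal (sd k ^ d) ≠ 0 := by
    rw [ENNReal.ofReal_ne_zero_iff]
    exact hsd
  have hRt : ENNReal.ofReal (sd k ^ d) ≠ ∞ := ENNReal.ofReal_ne_top
  have h1 := cost_claim hh (isOpen_Obs τ (Lay μ ν t τ (S + V.toReal + s)) (k + a + 5)) a k j i hs hb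
  have h2 := light_sum μ ν hθ0 hθ τ a k hk j J hR hcl.2 hL (S + V.toReal + s) (by
    intro x hx
    have h3 := Sc_le μ ν t τ a k hk j J hR hx
    rw [ENNReal.ofReal_le_iff_le_toReal hVt.ne] at h3
    linarith)
  have h5 : μ (big 3 0 k j \ Nge ν t τ (k + a + 5)) / ENNReal.ofReal (sd k ^ d) ≤
      Floc μ ν t a k j := by
    unfold Floc
    refine ENNReal.div_le_div_right ?_ _
    exact Finset.single_le_sum (f := fun τ => μ (big 3 0 k j \ Nge ν t τ (k + a + 5)))
      (fun _ _ => zero_le) hτ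
  have h6 : ENNReal.ofReal ((S + V.toReal + s - S) * sd k ^ d) =
      (V + ENNReal.ofReal s) * ENNReal.ofReal (sd k ^ d) := by
    have e : S + V.toReal + s - S = V.toReal + s := by ring
    rw [e, ENNReal.ofReal_mul (add_nonneg ENNReal.toReal_nonneg hs0),
      ENNReal.ofReal_add ENNReal.toReal_nonneg hs0, ENNReal.ofReal_toReal hVt.ne]
  rw [h6] at h2
  calc qc h a k i ≤ 4 * 2 ^ (a * d) * μ (big 3 0 k j \
        Obs τ (Lay μ ν t τ (S + V.toReal + s)) (k + a + 5)) / ENNReal.ofReal (sd k ^ d) := h1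
    _ ≤ 4 * 2 ^ (a * d) * (μ (big 3 0 k j \ Nge ν t τ (k + a + 5)) +
        (c0 d)⁻¹ * ((V + ENNReal.ofReal s) * ENNReal.ofReal (sd k ^ d))) /
          ENNReal.ofReal (sd k ^ d) :=
        ENNReal.div_le_div_right (mul_le_mul' le_rfl h2) _
    _ = 4 * 2 ^ (a * d) * (μ (big 3 0 k j \ Nge ν t τ (k + a + 5)) / ENNReal.ofReal (sd k ^ d)) +
        4 * 2 ^ (a * d) * (c0 d)⁻¹ * (V + ENNReal.ofReal s) *
          (ENNReal.ofReal (sd k ^ d) / ENNReal.ofReal (sd k ^ d)) := by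
        simp only [div_eq_mul_inv]
        ring
    _ = 4 * 2 ^ (a * d) * (μ (big 3 0 k j \ Nge ν t τ (k + a + 5)) / ENNReal.ofReal (sd k ^ d)) +
        4 * 2 ^ (a * d) * (c0 d)⁻¹ * (V + ENNReal.ofReal s) := by
        rw [ENNReal.div_self hR0 hRt, mul_one]
    _ ≤ _ := add_le_add (mul_le_mul' le_rfl h5) le_rfl

open Classical in
/-- integration over the layers -/
theorem theta_layer (μ ν : Measure (X d)) [IsFiniteMeasure μ] [IsFiniteMeasure ν] {t : ℝ≥0∞}
    (ht : t ≠ 0) {τ : X d} (hτ : τ ∈ shifts d) {L : ℕ}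
    (hL : ∀ i, L < i → ∀ j', ¬ Heavy ν t τ i j') (a : ℕ) {η : ℝ≥0∞} (hη : η ≤ 1 / 4)
    (I : ℕ → Idx d → Idx d → Set ℝ) (x : ℕ → Idx d → Idx d → ℝ≥0∞)
    (hI : ∀ k j i, MeasurableSet (I k j i)) (hIv : ∀ k j i, volume (I k j i) = x k j i)
    (P : ℕ → Idx d → Idx d → Prop) (hP : ∀ k j i, P k j i → Sub a j i ∧ Sparse ν t a η k i)
    (hB : ∀ k j i, P k j i → ∀ lam ∈ I k j i,
      Blocked (Obs τ (Lay μ ν t τ lam) (k + a + 5)) a k i) :
    ∑' (k : ℕ) (j : Idx d) (i : Idx d),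
      (if P k j i then ENNReal.ofReal (sd k ^ d) * x k j i else 0) ≤
    4 * 3 ^ (d + 1) * 2 ^ (a * (d + 1)) * (a * 34 ^ d) * (17 ^ (d + 1) * μ univ) := by
  have e1 : ∀ k j i, (if P k j i then ENNReal.ofReal (sd k ^ d) * x k j i else 0) =
      ∫⁻ lam : ℝ, (if P k j i then
        (I k j i).indicator (fun _ => ENNReal.ofReal (sd k ^ d)) lam else 0) := by
    intro k j i
    by_cases h : P k j i
    · simp only [h, if_true]
      rw [lintegral_indicator (hI k j i), setLIntegral_const, hIv]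
    · simp only [h, if_false, lintegral_const, zero_mul]
  have hm : ∀ k j i, Measurable fun lam : ℝ => (if P k j i then
        (I k j i).indicator (fun _ => ENNReal.ofReal (sd k ^ d)) lam else 0) := by
    intro k j i
    by_cases h : P k j i
    · simp only [h, if_true]
      exact measurable_const.indicator (hI k j i)
    · simp only [h, if_false]
      exact measurable_const
  have e2 : ∑' (k : ℕ) (j : Idx d) (i : Idx d),
      (if P k j i then ENNReal.ofReal (sd k ^ d) * x k j i else 0) =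
      ∫⁻ lam : ℝ, ∑' (k : ℕ) (j : Idx d) (i : Idx d), (if P k j i then
        (I k j i).indicator (fun _ => ENNReal.ofReal (sd k ^ d)) lam else 0) := by
    rw [lintegral_tsum fun k => (Measurable.ennreal_tsum fun j =>
      Measurable.ennreal_tsum fun i => hm k j i).aemeasurable]
    refine tsum_congr fun k => ?_
    rw [lintegral_tsum fun j => (Measurable.ennreal_tsum fun i => hm k j i).aemeasurable]
    refine tsum_congr fun j => ?_
    rw [lintegral_tsum fun i => (hm k j i).aemeasurable]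
    exact tsum_congr fun i => e1 k j i
  rw [e2]
  have hfin := finite_heavy ν ht τ hL
  set HF : Finset (ℕ × Idx d) := hfin.toFinset with hHF
  have hCb : (4 * 3 ^ (d + 1) * 2 ^ (a * (d + 1)) * (a * 34 ^ d) : ℝ≥0∞) ≠ ∞ := by
    have h : (4 * 3 ^ (d + 1) * 2 ^ (a * (d + 1)) * (a * 34 ^ d) : ℝ≥0∞) =
        ((4 * 3 ^ (d + 1) * 2 ^ (a * (d + 1)) * (a * 34 ^ d) : ℕ) : ℝ≥0∞) := by
      push_cast
      rfl
    rw [h]
    exact ENNReal.natCast_ne_top _
  calc ∫⁻ lam : ℝ, ∑' (k : ℕ) (j : Idx d) (i : Idx d), (if P k j i then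
        (I k j i).indicator (fun _ => ENNReal.ofReal (sd k ^ d)) lam else 0)
      ≤ ∫⁻ lam : ℝ, 4 * 3 ^ (d + 1) * 2 ^ (a * (d + 1)) * (a * 34 ^ d) *
          ∑ P ∈ HF, (if P ∈ Lay μ ν t τ lam then ENNReal.ofReal (sd P.1 ^ d) else 0) := by
        refine lintegral_mono fun lam => ?_
        have hF : ((HF.filter fun P => P ∈ Lay μ ν t τ lam : Finset (ℕ × Idx d)) :
            Set (ℕ × Idx d)) = Lay μ ν t τ lam := by
          ext Q
          simp only [Finset.coe_filter, mem_setOf_eq, hHF, Set.Finite.mem_toFinset]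
          exact ⟨fun h => h.2, fun h => ⟨Lay_heavy μ ν t τ h, h⟩⟩
        have h3 := block_sum ν t hτ (HF.filter fun P => P ∈ Lay μ ν t τ lam) (by
          intro Q hQ
          have hQ' := (Finset.mem_filter.1 hQ).1
          rw [hHF, Set.Finite.mem_toFinset] at hQ'
          exact hQ') a hη
        rw [hF, Finset.sum_filter] at h3
        refine le_trans ?_ h3
        refine ENNReal.tsum_le_tsum fun k => ENNReal.tsum_le_tsum fun j =>
          ENNReal.tsum_le_tsum fun i => ?_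
        by_cases h : P k j i
        · simp only [h, if_true]
          by_cases hl : lam ∈ I k j i
          · rw [indicator_of_mem hl, if_pos ⟨(hP k j i h).1, (hP k j i h).2, hB k j i h lam hl⟩]
          · rw [indicator_of_notMem hl]
            exact zero_le
        · rw [if_neg h]
          exact zero_le
    _ = 4 * 3 ^ (d + 1) * 2 ^ (a * (d + 1)) * (a * 34 ^ d) *
          ∫⁻ lam : ℝ, ∑ P ∈ HF, (if P ∈ Lay μ ν t τ lam then ENNReal.ofReal (sd P.1 ^ d) else 0) :=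
        lintegral_const_mul' _ _ hCb
    _ ≤ 4 * 3 ^ (d + 1) * 2 ^ (a * (d + 1)) * (a * 34 ^ d) *
          ∑ P ∈ HF, ENNReal.ofReal (om μ ν t τ P.1 P.2) * ENNReal.ofReal (sd P.1 ^ d) :=
        mul_le_mul' le_rfl (lay_integral μ ν t τ HF)
    _ ≤ _ := by
        refine mul_le_mul' le_rfl ?_
        refine le_trans ?_ (om_sum μ ν t τ)
        rw [← ENNReal.tsum_prod (f := fun (k : ℕ) (j : Idx d) =>
          ENNReal.ofReal (om μ ν t τ k j) * ENNReal.ofReal (sd k ^ d))]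
        exact ENNReal.sum_le_tsum HF

/-- the cubes treated with the grid `τ` -/
def theta_P (ν : Measure (X d)) (θ η : ℝ≥0∞) (a : ℕ) (τ : X d) (k : ℕ) (j i : Idx d) : Prop :=
  5 ≤ k ∧ InCl ν θ k j ∧ (∃ J, big 4 0 k j ⊆ cube τ (k - 5) J) ∧ Sub a j i ∧
    Sparse ν (c0 d * θ) a η k i

open Classical in
/-- the ancestor -/
noncomputable def theta_J (τ : X d) (k : ℕ) (j : Idx d) : Idx d :=
  if h : ∃ J, big 4 0 k j ⊆ cube τ (k - 5) J then h.choose else 0

theorem theta_J_spec {τ : X d} {k : ℕ} {j : Idx d} (h : ∃ J, big 4 0 k j ⊆ cube τ (k - 5) J) :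
    big 4 0 k j ⊆ cube τ (k - 5) (theta_J τ k j) := by
  unfold theta_J
  rw [dif_pos h]
  exact h.choose_spec

theorem theta_tsum_mul (a : ℕ) (c : ℕ → Idx d → ℝ≥0∞) :
    open Classical in
    ∑' (k : ℕ) (j : Idx d) (i : Idx d), (if Sub a j i then c k j else 0) =
      (3 * 2 ^ a) ^ (d + 1) * ∑' (k : ℕ) (j : Idx d), c k j := by
  classical
  rw [← ENNReal.tsum_mul_left]
  refine tsum_congr fun k => ?_
  rw [← ENNReal.tsum_mul_left]
  refine tsum_congr fun j => ?_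
  rw [← theta_count a j, ← ENNReal.tsum_mul_right]
  refine tsum_congr fun i => ?_
  split_ifs <;> simp

open Classical in
/-- the sum for one grid -/
theorem theta_tau {h : X d → ℝ≥0∞} (hh : Measurable h) (ν : Measure (X d)) [IsFiniteMeasure ν]
    [IsFiniteMeasure (volume.withDensity h)] {θ : ℝ≥0∞} (hθ0 : θ ≠ 0) (hθ : θ ≠ ∞) {τ : X d}
    (hτ : τ ∈ shifts d) (a : ℕ) {η : ℝ≥0∞} (hη : η ≤ 1 / 4) {L : ℕ}
    (hL : ∀ i, L < i → ∀ j', ¬ Heavy ν (c0 d * θ) τ i j') :
    ∑' (k : ℕ) (j : Idx d) (i : Idx d), (if theta_P ν θ η a τ k j i then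
      ENNReal.ofReal (sd k ^ d) * qc h a k i else 0) ≤
    (4 * 2 ^ (a * d) * ((3 * 2 ^ a) ^ (d + 1) * (2 ^ (d + 1) * ((a + 5) * 7 ^ (d + 1)))) +
      4 * 2 ^ (a * d) * (c0 d)⁻¹ * ((3 * 2 ^ a) ^ (d + 1) *
        ((a + 9) * 26 ^ (d + 1) * 2 ^ ((a + 5) * d) * 17 ^ (d + 1))) +
      4 * 2 ^ (a * d) * (c0 d)⁻¹ * (4 * 3 ^ (d + 1) * 2 ^ (a * (d + 1)) * (a * 34 ^ d) *
        17 ^ (d + 1))) * (volume.withDensity h) univ := by
  set μ := volume.withDensity h with hμ
  set t := c0 d * θ with ht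
  set A : ℝ≥0∞ := 4 * 2 ^ (a * d) with hA
  set B : ℝ≥0∞ := A * (c0 d)⁻¹ with hB
  have hc0 : (c0 d)⁻¹ = 2 * 10 ^ (d + 1) := by
    unfold c0
    rw [inv_inv]
  have hc00 : c0 d ≠ 0 := by
    unfold c0
    rw [ENNReal.inv_ne_zero]
    exact ENNReal.mul_ne_top (by norm_num) (ENNReal.pow_ne_top (by norm_num))
  have hA0 : A ≠ 0 := by
    rw [hA]
    exact mul_ne_zero (by norm_num) (pow_ne_zero _ (by norm_num))
  have hAt : A ≠ ∞ := by
    rw [hA]
    exact ENNReal.mul_ne_top (by norm_num) (ENNReal.pow_ne_top (by norm_num))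
  have hB0 : B ≠ 0 := by
    rw [hB, hc0]
    exact mul_ne_zero hA0 (mul_ne_zero (by norm_num) (pow_ne_zero _ (by norm_num)))
  have hBt : B ≠ ∞ := by
    rw [hB, hc0]
    exact ENNReal.mul_ne_top hAt (ENNReal.mul_ne_top (by norm_num)
      (ENNReal.pow_ne_top (by norm_num)))
  have ht0 : t ≠ 0 := by
    rw [ht]
    exact mul_ne_zero hc00 hθ0
  let F : ℕ → Idx d → ℝ≥0∞ := fun k j => Floc μ ν t a k j
  let V : ℕ → Idx d → ℝ≥0∞ := fun k j => Vv μ ν t τ a k j
  let σ : ℕ → Idx d → ℝ := fun k j => Sc μ ν t τ (k - 5) (theta_J τ k j) + (V k j).toReal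
  let x : ℕ → Idx d → Idx d → ℝ≥0∞ := fun k j i => (qc h a k i - (A * F k j + B * V k j)) / B
  let I : ℕ → Idx d → Idx d → Set ℝ := fun k j i =>
    {lam : ℝ | σ k j ≤ lam ∧ ENNReal.ofReal (lam - σ k j) < x k j i}
  have hx := theta_layer μ ν ht0 hτ hL a hη I x (fun k j i => (theta_vol _ _).1)
    (fun k j i => (theta_vol _ _).2) (theta_P ν θ η a τ) (fun k j i hP => hP.2.2.2) (by
      intro k j i hP lam hlam
      obtain ⟨h5, hcl, hJ, hs, -⟩ := hP
      obtain ⟨h1, h2⟩ := hlam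
      by_contra hb
      have h3 : σ k j + (lam - σ k j) = lam := by ring
      have h4 := theta_qc hh ν hθ0 hθ hτ a k h5 j (theta_J τ k j) i (theta_J_spec hJ) hcl hL hs
        (s := lam - σ k j) (sub_nonneg.2 h1) (by
          change ¬ Blocked (Obs τ (Lay μ ν t τ (σ k j + (lam - σ k j))) (k + a + 5)) a k i
          rw [h3]
          exact hb)
      have h6 : qc h a k i ≤ (A * F k j + B * V k j) + ENNReal.ofReal (lam - σ k j) * B := by
        refine h4.trans (le_of_eq ?_)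
        change A * F k j + B * (V k j + ENNReal.ofReal (lam - σ k j)) = _
        ring
      have h7 : x k j i ≤ ENNReal.ofReal (lam - σ k j) :=
        ENNReal.div_le_of_le_mul (tsub_le_iff_left.2 h6)
      exact absurd h2 (not_lt.2 h7))
  have hterm : ∀ k j i, (if theta_P ν θ η a τ k j i then
      ENNReal.ofReal (sd k ^ d) * qc h a k i else 0) ≤
      ((if Sub a j i then A * (if InCl ν θ k j then ENNReal.ofReal (sd k ^ d) * F k j else 0)
          else 0) +
        (if Sub a j i then B * (if 5 ≤ k then ENNReal.ofReal (sd k ^ d) * V k j else 0) else 0)) +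
        B * (if theta_P ν θ η a τ k j i then ENNReal.ofReal (sd k ^ d) * x k j i else 0) := by
    intro k j i
    by_cases hP : theta_P ν θ η a τ k j i
    · have hP' := hP
      obtain ⟨h5, hcl, hJ, hs, hsp⟩ := hP'
      simp only [if_pos hP, if_pos hs, if_pos hcl, if_pos h5]
      have h1 : qc h a k i ≤ (A * F k j + B * V k j) + B * x k j i := by
        have h2 : B * x k j i = qc h a k i - (A * F k j + B * V k j) :=
          ENNReal.mul_div_cancel hB0 hBt
        rw [h2]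
        exact le_add_tsub
      calc ENNReal.ofReal (sd k ^ d) * qc h a k i ≤
          ENNReal.ofReal (sd k ^ d) * ((A * F k j + B * V k j) + B * x k j i) :=
            mul_le_mul' le_rfl h1
        _ = _ := by ring
    · rw [if_neg hP]
      exact zero_le
  calc ∑' (k : ℕ) (j : Idx d) (i : Idx d), (if theta_P ν θ η a τ k j i then
        ENNReal.ofReal (sd k ^ d) * qc h a k i else 0)
      ≤ ∑' (k : ℕ) (j : Idx d) (i : Idx d),
        (((if Sub a j i then A * (if InCl ν θ k j then ENNReal.ofReal (sd k ^ d) * F k j else 0)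
          else 0) +
        (if Sub a j i then B * (if 5 ≤ k then ENNReal.ofReal (sd k ^ d) * V k j else 0) else 0)) +
        B * (if theta_P ν θ η a τ k j i then ENNReal.ofReal (sd k ^ d) * x k j i else 0)) :=
        ENNReal.tsum_le_tsum fun k => ENNReal.tsum_le_tsum fun j =>
          ENNReal.tsum_le_tsum fun i => hterm k j i
    _ = (∑' (k : ℕ) (j : Idx d) (i : Idx d),
          (if Sub a j i then A * (if InCl ν θ k j then ENNReal.ofReal (sd k ^ d) * F k j else 0)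
            else 0)) +
        (∑' (k : ℕ) (j : Idx d) (i : Idx d),
          (if Sub a j i then B * (if 5 ≤ k then ENNReal.ofReal (sd k ^ d) * V k j else 0) else 0)) +
        B * ∑' (k : ℕ) (j : Idx d) (i : Idx d),
          (if theta_P ν θ η a τ k j i then ENNReal.ofReal (sd k ^ d) * x k j i else 0) := by
        simp only [ENNReal.tsum_add, ENNReal.tsum_mul_left]
    _ = A * ((3 * 2 ^ a) ^ (d + 1) * ∑' (k : ℕ) (j : Idx d),
          (if InCl ν θ k j then ENNReal.ofReal (sd k ^ d) * F k j else 0)) +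
        B * ((3 * 2 ^ a) ^ (d + 1) * ∑' (k : ℕ) (j : Idx d),
          (if 5 ≤ k then ENNReal.ofReal (sd k ^ d) * V k j else 0)) +
        B * ∑' (k : ℕ) (j : Idx d) (i : Idx d),
          (if theta_P ν θ η a τ k j i then ENNReal.ofReal (sd k ^ d) * x k j i else 0) := by
        rw [theta_tsum_mul a fun k j =>
            A * (if InCl ν θ k j then ENNReal.ofReal (sd k ^ d) * F k j else 0),
          theta_tsum_mul a fun k j =>
            B * (if 5 ≤ k then ENNReal.ofReal (sd k ^ d) * V k j else 0)]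
        simp only [ENNReal.tsum_mul_left]
        ring
    _ ≤ A * ((3 * 2 ^ a) ^ (d + 1) * (2 ^ (d + 1) * ((a + 5) * 7 ^ (d + 1)) * μ univ)) +
        B * ((3 * 2 ^ a) ^ (d + 1) *
          ((a + 9) * 26 ^ (d + 1) * 2 ^ ((a + 5) * d) * (17 ^ (d + 1) * μ univ))) +
        B * (4 * 3 ^ (d + 1) * 2 ^ (a * (d + 1)) * (a * 34 ^ d) * (17 ^ (d + 1) * μ univ)) := by
        refine add_le_add (add_le_add ?_ ?_) ?_
        · exact mul_le_mul' le_rfl (mul_le_mul' le_rfl (Floc_sum μ ν θ a))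
        · exact mul_le_mul' le_rfl (mul_le_mul' le_rfl (Vv_sum μ ν t τ a))
        · exact mul_le_mul' le_rfl hx
    _ = _ := by ring

/-- the constant -/
noncomputable def theta_K (d a : ℕ) : ℝ≥0∞ :=
  2 ^ (d + 1) * ((a + 5) * 7 ^ (d + 1)) + (shifts d).card *
    (4 * 2 ^ (a * d) * ((3 * 2 ^ a) ^ (d + 1) * (2 ^ (d + 1) * ((a + 5) * 7 ^ (d + 1)))) +
      4 * 2 ^ (a * d) * (2 * 10 ^ (d + 1)) * ((3 * 2 ^ a) ^ (d + 1) *
        ((a + 9) * 26 ^ (d + 1) * 2 ^ ((a + 5) * d) * 17 ^ (d + 1))) +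
      4 * 2 ^ (a * d) * (2 * 10 ^ (d + 1)) * (4 * 3 ^ (d + 1) * 2 ^ (a * (d + 1)) * (a * 34 ^ d) *
        17 ^ (d + 1)))

theorem theta_K_ne_top (d a : ℕ) : theta_K d a ≠ ∞ := by
  have h : theta_K d a = ((2 ^ (d + 1) * ((a + 5) * 7 ^ (d + 1)) + (shifts d).card *
    (4 * 2 ^ (a * d) * ((3 * 2 ^ a) ^ (d + 1) * (2 ^ (d + 1) * ((a + 5) * 7 ^ (d + 1)))) +
      4 * 2 ^ (a * d) * (2 * 10 ^ (d + 1)) * ((3 * 2 ^ a) ^ (d + 1) *
        ((a + 9) * 26 ^ (d + 1) * 2 ^ ((a + 5) * d) * 17 ^ (d + 1))) +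
      4 * 2 ^ (a * d) * (2 * 10 ^ (d + 1)) * (4 * 3 ^ (d + 1) * 2 ^ (a * (d + 1)) * (a * 34 ^ d) *
        17 ^ (d + 1))) : ℕ) : ℝ≥0∞) := by
    unfold theta_K
    push_cast
    rfl
  rw [h]
  exact ENNReal.natCast_ne_top _

open Classical in
theorem lemma_theta (d a : ℕ) : ∃ C : ℝ≥0, ∀ {h : X d → ℝ≥0∞}, Measurable h →
    ∫⁻ x, h x ≠ ∞ → ∀ (ν : Measure (X d)) [IsFiniteMeasure ν] {θ : ℝ≥0∞}, θ ≠ 0 → θ ≠ ∞ →
    ∀ {η : ℝ≥0∞}, η ≤ 1 / 4 →
    (∃ L : ℕ, ∀ τ ∈ shifts d, ∀ i, L < i → ∀ j, ¬ Heavy ν (c0 d * θ) τ i j) →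
    ∑' (k : ℕ) (j : Idx d), (if 5 ≤ k ∧ InCl ν θ k j then
      ENNReal.ofReal (sd k ^ d) * costQ h ν (c0 d * θ) a η k j else 0) ≤ C * ∫⁻ x, h x := by
  refine ⟨(theta_K d a).toNNReal, ?_⟩
  intro h hh hfin ν _ θ hθ0 hθ η hη hL
  obtain ⟨L, hL⟩ := hL
  rw [ENNReal.coe_toNNReal (theta_K_ne_top d a)]
  have hμf : IsFiniteMeasure (volume.withDensity h) := isFiniteMeasure_withDensity hfin
  have hμu : (volume.withDensity h) univ = ∫⁻ x, h x := by
    rw [withDensity_apply _ MeasurableSet.univ, Measure.restrict_univ]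
  rw [← hμu]
  set μ := volume.withDensity h with hμ
  have hcost : ∀ k j, (if 5 ≤ k ∧ InCl ν θ k j then
      ENNReal.ofReal (sd k ^ d) * costQ h ν (c0 d * θ) a η k j else 0) ≤
      (if InCl ν θ k j then ENNReal.ofReal (sd k ^ d) * Floc μ ν (c0 d * θ) a k j else 0) +
      ∑' i : Idx d, ∑ τ ∈ shifts d, (if theta_P ν θ η a τ k j i then
        ENNReal.ofReal (sd k ^ d) * qc h a k i else 0) := by
    intro k j
    by_cases hc : 5 ≤ k ∧ InCl ν θ k j
    · rw [if_pos hc, if_pos hc.2, costQ, mul_add, ← ENNReal.tsum_mul_left]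
      refine add_le_add le_rfl (ENNReal.tsum_le_tsum fun i => ?_)
      by_cases hs : Sub a j i ∧ Sparse ν (c0 d * θ) a η k i
      · rw [if_pos hs]
        obtain ⟨τ, hτ, J, hJ⟩ := exists_shift k hc.1 j
        have h1 : theta_P ν θ η a τ k j i := ⟨hc.1, hc.2, ⟨J, hJ⟩, hs.1, hs.2⟩
        have h2 := Finset.single_le_sum (f := fun τ => (if theta_P ν θ η a τ k j i then
          ENNReal.ofReal (sd k ^ d) * qc h a k i else 0)) (fun _ _ => zero_le) hτ
        simp only [h1, if_true] at h2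
        exact h2
      · rw [if_neg hs, mul_zero]
        exact zero_le
    · rw [if_neg hc]
      exact zero_le
  have hc0 : (c0 d)⁻¹ = 2 * 10 ^ (d + 1) := by
    unfold c0
    rw [inv_inv]
  calc ∑' (k : ℕ) (j : Idx d), (if 5 ≤ k ∧ InCl ν θ k j then
        ENNReal.ofReal (sd k ^ d) * costQ h ν (c0 d * θ) a η k j else 0)
      ≤ ∑' (k : ℕ) (j : Idx d),
        ((if InCl ν θ k j then ENNReal.ofReal (sd k ^ d) * Floc μ ν (c0 d * θ) a k j else 0) +
        ∑' i : Idx d, ∑ τ ∈ shifts d, (if theta_P ν θ η a τ k j i then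
          ENNReal.ofReal (sd k ^ d) * qc h a k i else 0)) :=
        ENNReal.tsum_le_tsum fun k => ENNReal.tsum_le_tsum fun j => hcost k j
    _ = (∑' (k : ℕ) (j : Idx d),
        (if InCl ν θ k j then ENNReal.ofReal (sd k ^ d) * Floc μ ν (c0 d * θ) a k j else 0)) +
        ∑' (k : ℕ) (j : Idx d) (i : Idx d), ∑ τ ∈ shifts d, (if theta_P ν θ η a τ k j i then
          ENNReal.ofReal (sd k ^ d) * qc h a k i else 0) := by
        simp only [ENNReal.tsum_add]
    _ = (∑' (k : ℕ) (j : Idx d),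
        (if InCl ν θ k j then ENNReal.ofReal (sd k ^ d) * Floc μ ν (c0 d * θ) a k j else 0)) +
        ∑ τ ∈ shifts d, ∑' (k : ℕ) (j : Idx d) (i : Idx d), (if theta_P ν θ η a τ k j i then
          ENNReal.ofReal (sd k ^ d) * qc h a k i else 0) := by
        congr 1
        rw [← Summable.tsum_finsetSum fun _ _ => ENNReal.summable]
        refine tsum_congr fun k => ?_
        rw [← Summable.tsum_finsetSum fun _ _ => ENNReal.summable]
        refine tsum_congr fun j => ?_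
        rw [← Summable.tsum_finsetSum fun _ _ => ENNReal.summable]
    _ ≤ 2 ^ (d + 1) * ((a + 5) * 7 ^ (d + 1)) * μ univ + ∑ τ ∈ shifts d,
        (4 * 2 ^ (a * d) * ((3 * 2 ^ a) ^ (d + 1) * (2 ^ (d + 1) * ((a + 5) * 7 ^ (d + 1)))) +
      4 * 2 ^ (a * d) * (c0 d)⁻¹ * ((3 * 2 ^ a) ^ (d + 1) *
        ((a + 9) * 26 ^ (d + 1) * 2 ^ ((a + 5) * d) * 17 ^ (d + 1))) +
      4 * 2 ^ (a * d) * (c0 d)⁻¹ * (4 * 3 ^ (d + 1) * 2 ^ (a * (d + 1)) * (a * 34 ^ d) *
        17 ^ (d + 1))) * μ univ :=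
        add_le_add (Floc_sum μ ν θ a) (Finset.sum_le_sum fun τ hτ =>
          theta_tau hh ν hθ0 hθ hτ a hη (hL τ hτ))
    _ = theta_K d a * μ univ := by
        rw [Finset.sum_const, nsmul_eq_mul, hc0, theta_K]
        ring

end BDJ
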