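import Pool.Agent.BDJ.Chain
import Pool.Agent.BDJ.LemmaTheta

/-!
# The maximal inequality for strain pairs (row MIS)

`F` a finite family of pairwise disjoint dyadic cubes contained in `Q0 = (k0, j0)`, `5 ≤ k0`, with admissible weights `β` (`Adm F β`), `x S ∈ cube 0 S`. Then
`∑_{S ∈ F} β S * ‖SPQ u S (x S) - SPQ u Q0 (x S)‖ ≤ C ∫_{big 3 Q0} h`.

Proof. We may replace `h` by `h * 1_{big 3 Q0}` (the `SStrain` property on `U = big 3 Q0` is preserved) and assume `∫ h < ∞`.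
`ν = ∑_{S ∈ F} (β S / |S|) • volume.restrict S`: finite (`β S ≤ sd^d` by `Adm` applied to `S` itself), `ν (cube 0 k j) ≤ sd k ^ d` for all `k, j` (`Adm` for the `S ⊆ Q`; if `Q ⊊ S`, `ν(Q) = β S |Q|/|S| ≤ sd(S)^d (sd(Q)/sd(S))^(d+1) ≤ sd(Q)^d`; otherwise disjoint;
dyadic cubes are nested or disjoint), `ν(S) = β S`, `ν ≤ Cν volume`. So `ν(big 4 0 k j) ≤ 10^(d+1) sd k^d =: Θ sd k^d` (`encard_meet_le`), and for each `θ > 0` there are no heavy cubes of large level
(`ν(P) ≤ Cν sd^(d+1) < c0 θ sd^d`).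
Classes: `θ_i = Θ 2^(-i)`, `i ∈ ℕ`: every `(k,j)` with `ν(big 4 0 k j) > 0` is in exactly one class `θ_i`. Only the `S` with `β S ≠ 0` matter; all the ancestors `Q` of such an `S` have
`ν(big 4 Q) ≥ ν(S) > 0`. For such `S` `chain` gives (with `θ r` = class of the ancestor; the sum over the classes dominates)
`‖...‖ ≤ C [ m(S)/sd(S)^d + ∑_{Q : S ⊆ Q ⊆ Q0} ∑_i 1[Q in class θ_i] costQ_i(Q) + m/sd(Q0)^d ]`. Multiply by `β S = ν(S)` and sum over `S`: `∑ β S m(S)/sd(S)^d ≤ ∑ m(S) ≤ m`;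
`∑_S β S ∑_{Q ⊇ S} ... ≤ ∑_Q ν(Q) ∑_i ... ≤ ∑_i θ_i ∑_{Q in class i} sd(Q)^d costQ_i(Q) ≤ ∑_i θ_i C m = 2 Θ C m` (`lemma_theta`; `ν(Q) ≤ ν(big 4 Q) ≤ θ_i sd(Q)^d`; all levels are `≥ k0 ≥ 5`);
`∑ β S / sd(Q0)^d ≤ 1` (`Adm` for `Q0`).
-/

open MeasureTheory Set
open scoped ENNReal NNReal

namespace BDJ

variable {d : ℕ} {V : Type*} [NormedAddCommGroup V] [NormedSpace ℝ V] [FiniteDimensional ℝ V]

theorem mis_nested (τ : X d) {k k' : ℕ} (hk : k ≤ k') (j j' : Idx d) :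
    cube τ k' j' ⊆ cube τ k j ∨ Disjoint (cube τ k' j') (cube τ k j) := by
  obtain ⟨m, rfl⟩ := Nat.exists_eq_add_of_le hk
  by_cases h : anc j' m = j
  · left
    rw [← h]
    exact cube_subset_anc τ k m j'
  · right
    exact (cube_disjoint τ k h).mono_left (cube_subset_anc τ k m j')

theorem mis_level {k k0 : ℕ} {j j0 : Idx d} (h : cube (0 : X d) k j ⊆ cube 0 k0 j0) :
    k0 ≤ k ∧ anc j (k - k0) = j0 := by
  have h1 := measure_mono (μ := volume) h
  have hk := sd_pos k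
  have hk0 := sd_pos k0
  rw [volume_cube, volume_cube, ENNReal.ofReal_le_ofReal_iff (by positivity)] at h1
  have h2 : sd k ≤ sd k0 := le_of_pow_le_pow_left₀ (by omega) hk0.le h1
  have h3 : k0 ≤ k := by
    by_contra hlt
    have h4 : sd k0 ≤ sd (k + 1) := sd_anti (by omega)
    rw [sd_succ] at h4
    linarith
  refine ⟨h3, ?_⟩
  by_contra hne
  have h5 := cube_disjoint (0 : X d) k0 hne
  obtain ⟨x, hx⟩ := cube_nonempty (0 : X d) k j
  have h6 : cube (0 : X d) (k0 + (k - k0)) j ⊆ cube 0 k0 (anc j (k - k0)) :=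
    cube_subset_anc 0 k0 (k - k0) j
  rw [Nat.add_sub_cancel' h3] at h6
  exact disjoint_left.1 h5 (h6 hx) (h hx)

/-- the measure with mass `β Q` spread uniformly on `Q` -/
noncomputable def misNu (F : Finset (ℕ × Idx d)) (β : ℕ × Idx d → ℝ≥0∞) : Measure (X d) :=
  ∑ Q ∈ F, (β Q / ENNReal.ofReal (sd Q.1 ^ (d + 1))) • volume.restrict (cube 0 Q.1 Q.2)

theorem misNu_apply (F : Finset (ℕ × Idx d)) (β : ℕ × Idx d → ℝ≥0∞) (A : Set (X d)) :
    misNu F β A = ∑ Q ∈ F, β Q / ENNReal.ofReal (sd Q.1 ^ (d + 1)) *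
      volume (A ∩ cube 0 Q.1 Q.2) := by
  rw [misNu, Measure.finsetSum_apply]
  refine Finset.sum_congr rfl fun Q _ => ?_
  rw [Measure.smul_apply, Measure.restrict_apply' (measurableSet_cube _ _ _), smul_eq_mul]

theorem mis_sdE_ne_zero (k n : ℕ) : ENNReal.ofReal (sd k ^ n) ≠ 0 := by
  have := sd_pos k
  exact (ENNReal.ofReal_pos.2 (by positivity)).ne'

open Classical in
theorem mis_beta_le {F : Finset (ℕ × Idx d)} {β : ℕ × Idx d → ℝ≥0∞} (hA : Adm F β)
    {Q : ℕ × Idx d} (hQ : Q ∈ F) : β Q ≤ ENNReal.ofReal (sd Q.1 ^ d) := by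
  refine le_trans ?_ (hA Q.1 Q.2)
  have h1 := Finset.single_le_sum (s := F)
    (f := fun S => if cube (0 : X d) S.1 S.2 ⊆ cube 0 Q.1 Q.2 then β S else 0)
    (fun _ _ => zero_le) hQ
  rw [if_pos subset_rfl] at h1
  exact h1

open Classical in
theorem misNu_ge (F : Finset (ℕ × Idx d)) (β : ℕ × Idx d → ℝ≥0∞) (A : Set (X d)) :
    ∑ S ∈ F, (if cube (0 : X d) S.1 S.2 ⊆ A then β S else 0) ≤ misNu F β A := by
  rw [misNu_apply]
  refine Finset.sum_le_sum fun S _ => ?_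
  split_ifs with h
  · rw [inter_eq_self_of_subset_right h, volume_cube, ENNReal.div_mul_cancel
      (mis_sdE_ne_zero _ _) ENNReal.ofReal_ne_top]
  · exact zero_le

theorem misNu_le_vol (F : Finset (ℕ × Idx d)) (β : ℕ × Idx d → ℝ≥0∞) (A : Set (X d)) :
    misNu F β A ≤ (∑ Q ∈ F, β Q / ENNReal.ofReal (sd Q.1 ^ (d + 1))) * volume A := by
  rw [misNu_apply, Finset.sum_mul]
  refine Finset.sum_le_sum fun S _ => ?_
  gcongr
  exact inter_subset_left

theorem mis_const_ne_top {F : Finset (ℕ × Idx d)} {β : ℕ × Idx d → ℝ≥0∞} (hA : Adm F β) :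
    ∑ Q ∈ F, β Q / ENNReal.ofReal (sd Q.1 ^ (d + 1)) ≠ ∞ := by
  refine ENNReal.sum_ne_top.2 fun Q hQ => ?_
  exact ENNReal.div_ne_top (ne_top_of_le_ne_top ENNReal.ofReal_ne_top (mis_beta_le hA hQ))
    (mis_sdE_ne_zero _ _)

theorem misNu_fin {F : Finset (ℕ × Idx d)} {β : ℕ × Idx d → ℝ≥0∞} (hA : Adm F β) :
    IsFiniteMeasure (misNu F β) := by
  refine ⟨?_⟩
  rw [misNu_apply]
  refine lt_top_iff_ne_top.2 (ENNReal.sum_ne_top.2 fun Q hQ => ?_)
  rw [univ_inter, volume_cube]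
  exact ENNReal.mul_ne_top (ENNReal.div_ne_top (ne_top_of_le_ne_top ENNReal.ofReal_ne_top
    (mis_beta_le hA hQ)) (mis_sdE_ne_zero _ _)) ENNReal.ofReal_ne_top

theorem misNu_cube_le {F : Finset (ℕ × Idx d)} {β : ℕ × Idx d → ℝ≥0∞} (hA : Adm F β)
    (hdis : ∀ Q ∈ F, ∀ Q' ∈ F, Q ≠ Q' → Disjoint (cube (0 : X d) Q.1 Q.2) (cube 0 Q'.1 Q'.2))
    (k : ℕ) (j : Idx d) : misNu F β (cube 0 k j) ≤ ENNReal.ofReal (sd k ^ d) := by
  classical
  by_cases hex : ∃ Q ∈ F, cube (0 : X d) k j ⊆ cube 0 Q.1 Q.2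
  · obtain ⟨Q, hQ, hsub⟩ := hex
    have hlev := (mis_level hsub).1
    rw [misNu_apply, Finset.sum_eq_single Q]
    · rw [inter_eq_self_of_subset_left hsub, volume_cube]
      have hQ1 := sd_pos Q.1
      have hk := sd_pos k
      calc β Q / ENNReal.ofReal (sd Q.1 ^ (d + 1)) * ENNReal.ofReal (sd k ^ (d + 1))
          ≤ ENNReal.ofReal (sd Q.1 ^ d) / ENNReal.ofReal (sd Q.1 ^ (d + 1)) *
            ENNReal.ofReal (sd k ^ (d + 1)) := by
            gcongr
            exact mis_beta_le hA hQ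
        _ = ENNReal.ofReal (sd Q.1 ^ d / sd Q.1 ^ (d + 1) * sd k ^ (d + 1)) := by
            rw [← ENNReal.ofReal_div_of_pos (by positivity), ← ENNReal.ofReal_mul (by positivity)]
        _ ≤ ENNReal.ofReal (sd k ^ d) := by
            apply ENNReal.ofReal_le_ofReal
            have h1 : sd Q.1 ^ d / sd Q.1 ^ (d + 1) * sd k ^ (d + 1) =
                sd k / sd Q.1 * sd k ^ d := by
              rw [pow_succ, pow_succ]
              field_simp
            rw [h1]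
            have h2 : sd k / sd Q.1 ≤ 1 := by
              rw [div_le_one hQ1]
              exact sd_anti hlev
            have h3 : 0 ≤ sd k ^ d := by positivity
            nlinarith
    · intro Q' hQ' hne
      have h1 := hdis Q' hQ' Q hQ hne
      have h2 : cube (0 : X d) k j ∩ cube 0 Q'.1 Q'.2 = ∅ := by
        rw [← disjoint_iff_inter_eq_empty]
        exact (h1.mono_right hsub).symm
      rw [h2, measure_empty, mul_zero]
    · intro h
      exact absurd hQ h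
  · refine le_trans ?_ (hA k j)
    rw [misNu_apply]
    refine Finset.sum_le_sum fun Q hQ => ?_
    rcases le_total k Q.1 with hk | hk
    · rcases mis_nested (0 : X d) hk j Q.2 with h1 | h1
      · rw [if_pos h1, inter_eq_self_of_subset_right h1, volume_cube, ENNReal.div_mul_cancel
          (mis_sdE_ne_zero _ _) ENNReal.ofReal_ne_top]
      · rw [disjoint_iff_inter_eq_empty.1 h1.symm, measure_empty, mul_zero]
        exact zero_le
    · rcases mis_nested (0 : X d) hk Q.2 j with h1 | h1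
      · exact absurd ⟨Q, hQ, h1⟩ hex
      · rw [disjoint_iff_inter_eq_empty.1 h1, measure_empty, mul_zero]
        exact zero_le

theorem misNu_big_le {F : Finset (ℕ × Idx d)} {β : ℕ × Idx d → ℝ≥0∞} (hA : Adm F β)
    (hdis : ∀ Q ∈ F, ∀ Q' ∈ F, Q ≠ Q' → Disjoint (cube (0 : X d) Q.1 Q.2) (cube 0 Q'.1 Q'.2))
    (k : ℕ) (j : Idx d) :
    misNu F β (big 4 0 k j) ≤ 10 ^ (d + 1) * ENNReal.ofReal (sd k ^ d) := by
  classical
  rw [measure_eq_tsum _ (0 : X d) k (measurableSet_big _ _ _ _)]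
  have henc := encard_meet_le (0 : X d) k j
  have hfin : {j' : Idx d | (cube 0 k j' ∩ big 4 0 k j).Nonempty}.Finite := by
    apply finite_of_encard_le_coe (k := 10 ^ (d + 1))
    exact_mod_cast henc
  have hcard : hfin.toFinset.card ≤ 10 ^ (d + 1) := by
    rw [hfin.encard_eq_coe_toFinset_card] at henc
    exact_mod_cast henc
  calc ∑' j' : Idx d, misNu F β (big 4 0 k j ∩ cube 0 k j')
      = ∑ j' ∈ hfin.toFinset, misNu F β (big 4 0 k j ∩ cube 0 k j') := by
        apply tsum_eq_sum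
        intro j' hj'
        rw [Finite.mem_toFinset, mem_ofPred_eq, not_nonempty_iff_eq_empty, inter_comm] at hj'
        rw [hj', measure_empty]
    _ ≤ ∑ j' ∈ hfin.toFinset, ENNReal.ofReal (sd k ^ d) := by
        refine Finset.sum_le_sum fun j' _ => ?_
        exact (measure_mono inter_subset_right).trans (misNu_cube_le hA hdis k j')
    _ ≤ 10 ^ (d + 1) * ENNReal.ofReal (sd k ^ d) := by
        rw [Finset.sum_const, nsmul_eq_mul]
        gcongr
        exact_mod_cast hcard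

theorem mis_sd_small {K t : ℝ≥0∞} (hK : K ≠ ∞) (ht : t ≠ 0) :
    ∃ L : ℕ, ∀ i, L < i → K * ENNReal.ofReal (sd i) < t := by
  have h1 : Filter.Tendsto (fun i : ℕ => K * ENNReal.ofReal (sd i)) Filter.atTop (nhds 0) := by
    have h2 : Filter.Tendsto (fun i : ℕ => sd i) Filter.atTop (nhds 0) :=
      tendsto_pow_atTop_nhds_zero_of_lt_one (by norm_num) (by norm_num)
    have h3 : Filter.Tendsto (fun i : ℕ => ENNReal.ofReal (sd i)) Filter.atTop (nhds 0) := by
      have h4 := ENNReal.tendsto_ofReal h2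
      rwa [ENNReal.ofReal_zero] at h4
    have h5 := ENNReal.Tendsto.const_mul h3 (Or.inr hK)
    rwa [mul_zero] at h5
  have h6 := (h1.eventually (gt_mem_nhds (pos_iff_ne_zero.2 ht)))
  obtain ⟨L, hL⟩ := Filter.eventually_atTop.1 h6
  exact ⟨L, fun i hi => hL i hi.le⟩

theorem misNu_heavy {F : Finset (ℕ × Idx d)} {β : ℕ × Idx d → ℝ≥0∞} (hA : Adm F β)
    {t : ℝ≥0∞} (ht : t ≠ 0) :
    ∃ L : ℕ, ∀ τ ∈ shifts d, ∀ i, L < i → ∀ j, ¬ Heavy (misNu F β) t τ i j := by
  obtain ⟨L, hL⟩ := mis_sd_small (mis_const_ne_top hA) ht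
  refine ⟨L, fun τ _ i hi j hh => ?_⟩
  have h1 : t * ENNReal.ofReal (sd i ^ d) ≤
      (∑ Q ∈ F, β Q / ENNReal.ofReal (sd Q.1 ^ (d + 1))) * ENNReal.ofReal (sd i) *
        ENNReal.ofReal (sd i ^ d) := by
    have hi0 := sd_pos i
    calc t * ENNReal.ofReal (sd i ^ d) ≤ misNu F β (cube τ i j) := hh
      _ ≤ (∑ Q ∈ F, β Q / ENNReal.ofReal (sd Q.1 ^ (d + 1))) * volume (cube τ i j) :=
          misNu_le_vol F β _
      _ = _ := by
          rw [volume_cube, pow_succ, mul_comm (sd i ^ d), ENNReal.ofReal_mul hi0.le, mul_assoc]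
  have h2 := (ENNReal.mul_le_mul_iff_left (mis_sdE_ne_zero i d) ENNReal.ofReal_ne_top).1 h1
  exact absurd (hL i hi) (not_lt.2 h2)

/-- the classes -/
noncomputable def misTh (d i : ℕ) : ℝ≥0∞ := 10 ^ (d + 1) * (2 : ℝ≥0∞)⁻¹ ^ i

theorem misTh_ne_zero (d i : ℕ) : misTh d i ≠ 0 := by
  unfold misTh
  apply mul_ne_zero
  · exact pow_ne_zero _ (by norm_num)
  · exact pow_ne_zero _ (by simp)

theorem misTh_ne_top (d i : ℕ) : misTh d i ≠ ∞ := by
  unfold misTh
  apply ENNReal.mul_ne_top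
  · exact ENNReal.pow_ne_top (by norm_num)
  · exact ENNReal.pow_ne_top (by simp)

theorem misTh_tsum (d : ℕ) : ∑' i, misTh d i = 10 ^ (d + 1) * 2 := by
  unfold misTh
  rw [ENNReal.tsum_mul_left, ENNReal.tsum_geometric]
  congr 1
  rw [ENNReal.one_sub_inv_two, inv_inv]

theorem mis_class {ν : Measure (X d)} {k : ℕ} {j : Idx d}
    (h1 : ν (big 4 0 k j) ≤ 10 ^ (d + 1) * ENNReal.ofReal (sd k ^ d))
    (h0 : ν (big 4 0 k j) ≠ 0) : ∃ i, InCl ν (misTh d i) k j := by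
  classical
  have hex : ∃ i : ℕ, misTh d i / 2 * ENNReal.ofReal (sd k ^ d) < ν (big 4 0 k j) := by
    have h2 : Filter.Tendsto (fun i : ℕ => misTh d i / 2 * ENNReal.ofReal (sd k ^ d))
        Filter.atTop (nhds 0) := by
      have h3 : Filter.Tendsto (fun i : ℕ => (2 : ℝ≥0∞)⁻¹ ^ i) Filter.atTop (nhds 0) :=
        ENNReal.tendsto_pow_atTop_nhds_zero_of_lt_one
          (ENNReal.inv_lt_one.2 (by norm_num))
      have h4 := ENNReal.Tendsto.const_mul (a := 10 ^ (d + 1) / 2 * ENNReal.ofReal (sd k ^ d)) h3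
        (Or.inr (ENNReal.mul_ne_top (ENNReal.div_ne_top (ENNReal.pow_ne_top (by norm_num))
          (by norm_num)) ENNReal.ofReal_ne_top))
      rw [mul_zero] at h4
      refine h4.congr fun i => ?_
      unfold misTh
      simp only [div_eq_mul_inv]
      ring
    obtain ⟨i, hi⟩ := (h2.eventually (gt_mem_nhds (pos_iff_ne_zero.2 h0))).exists
    exact ⟨i, hi⟩
  refine ⟨Nat.find hex, Nat.find_spec hex, ?_⟩
  rcases Nat.eq_zero_or_pos (Nat.find hex) with hz | hz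
  · rw [hz]
    unfold misTh
    rw [pow_zero, mul_one]
    exact h1
  · obtain ⟨i, hi⟩ := Nat.exists_eq_succ_of_ne_zero hz.ne'
    have h5 : ¬ (misTh d i / 2 * ENNReal.ofReal (sd k ^ d) < ν (big 4 0 k j)) :=
      Nat.find_min hex (by omega)
    rw [hi]
    have h6 : misTh d (i + 1) = misTh d i / 2 := by
      unfold misTh
      rw [pow_succ (2 : ℝ≥0∞)⁻¹, div_eq_mul_inv, ← mul_assoc]
    rw [Nat.succ_eq_add_one, h6]
    exact not_lt.1 h5

open Classical in
/-- the costs of one class -/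
noncomputable def misG (h : X d → ℝ≥0∞) (ν : Measure (X d)) (a : ℕ) (η : ℝ≥0∞) (i k : ℕ)
    (j : Idx d) : ℝ≥0∞ :=
  if 5 ≤ k ∧ InCl ν (misTh d i) k j then
    costQ h ν (c0 d * misTh d i) a η k j else 0

open Classical in
theorem mis_sum (d a : ℕ) {η : ℝ≥0∞} (hη : η ≤ 1 / 4) : ∃ C : ℝ≥0, ∀ {h : X d → ℝ≥0∞},
    Measurable h → ∫⁻ x, h x ≠ ∞ → ∀ {F : Finset (ℕ × Idx d)} {β : ℕ × Idx d → ℝ≥0∞},
    Adm F β →
    (∀ Q ∈ F, ∀ Q' ∈ F, Q ≠ Q' → Disjoint (cube (0 : X d) Q.1 Q.2) (cube 0 Q'.1 Q'.2)) →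
    ∑ S ∈ F, β S * (∑' (k : ℕ) (j : Idx d), if cube (0 : X d) S.1 S.2 ⊆ cube 0 k j then
      ∑' i, misG h (misNu F β) a η i k j else 0) ≤ C * ∫⁻ x, h x := by
  obtain ⟨C, hC⟩ := lemma_theta d a
  refine ⟨10 ^ (d + 1) * 2 * C, ?_⟩
  intro h hm hfin F β hA hdis
  have := misNu_fin hA
  calc ∑ S ∈ F, β S * (∑' (k : ℕ) (j : Idx d), if cube (0 : X d) S.1 S.2 ⊆ cube 0 k j then
      ∑' i, misG h (misNu F β) a η i k j else 0)
      = ∑ S ∈ F, ∑' (k : ℕ) (j : Idx d), (if cube (0 : X d) S.1 S.2 ⊆ cube 0 k j then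
          β S else 0) * ∑' i, misG h (misNu F β) a η i k j := by
        refine Finset.sum_congr rfl fun S _ => ?_
        rw [← ENNReal.tsum_mul_left]
        refine tsum_congr fun k => ?_
        rw [← ENNReal.tsum_mul_left]
        refine tsum_congr fun j => ?_
        split_ifs <;> simp
    _ = ∑' (k : ℕ) (j : Idx d), (∑ S ∈ F, if cube (0 : X d) S.1 S.2 ⊆ cube 0 k j then
          β S else 0) * ∑' i, misG h (misNu F β) a η i k j := by
        rw [← Summable.tsum_finsetSum (fun _ _ => ENNReal.summable)]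
        refine tsum_congr fun k => ?_
        rw [← Summable.tsum_finsetSum (fun _ _ => ENNReal.summable)]
        refine tsum_congr fun j => ?_
        rw [Finset.sum_mul]
    _ ≤ ∑' (k : ℕ) (j : Idx d), ∑' i, misTh d i * (if 5 ≤ k ∧ InCl (misNu F β) (misTh d i) k j then
          ENNReal.ofReal (sd k ^ d) * costQ h (misNu F β) (c0 d * misTh d i) a η k j else 0) := by
        refine ENNReal.tsum_le_tsum fun k => ENNReal.tsum_le_tsum fun j => ?_
        rw [← ENNReal.tsum_mul_left]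
        refine ENNReal.tsum_le_tsum fun i => ?_
        unfold misG
        split_ifs with hk
        · rw [← mul_assoc]
          gcongr
          refine (misNu_ge F β (cube 0 k j)).trans ?_
          refine (measure_mono ?_).trans hk.2.2
          exact cube_subset_big (by norm_num) _ _ _
        · simp
    _ = ∑' i, misTh d i * ∑' (k : ℕ) (j : Idx d), (if 5 ≤ k ∧ InCl (misNu F β) (misTh d i) k j then
          ENNReal.ofReal (sd k ^ d) * costQ h (misNu F β) (c0 d * misTh d i) a η k j else 0) := by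
        have h1 : ∀ k : ℕ, ∑' (j : Idx d), ∑' i, misTh d i *
            (if 5 ≤ k ∧ InCl (misNu F β) (misTh d i) k j then
            ENNReal.ofReal (sd k ^ d) * costQ h (misNu F β) (c0 d * misTh d i) a η k j else 0) =
            ∑' i, ∑' (j : Idx d), misTh d i *
            (if 5 ≤ k ∧ InCl (misNu F β) (misTh d i) k j then
            ENNReal.ofReal (sd k ^ d) * costQ h (misNu F β) (c0 d * misTh d i) a η k j else 0) :=
          fun k => ENNReal.tsum_comm
        simp_rw [h1]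
        rw [ENNReal.tsum_comm]
        refine tsum_congr fun i => ?_
        simp_rw [ENNReal.tsum_mul_left]
    _ ≤ ∑' i, misTh d i * (C * ∫⁻ x, h x) := by
        refine ENNReal.tsum_le_tsum fun i => ?_
        gcongr
        refine hC hm hfin (misNu F β) (misTh_ne_zero d i) (misTh_ne_top d i) hη ?_
        refine misNu_heavy hA (mul_ne_zero ?_ (misTh_ne_zero d i))
        unfold c0
        exact ENNReal.inv_ne_zero.2 (ENNReal.mul_ne_top (by norm_num)
          (ENNReal.pow_ne_top (by norm_num)))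
    _ = (10 ^ (d + 1) * 2 * C : ℝ≥0) * ∫⁻ x, h x := by
        rw [ENNReal.tsum_mul_right, misTh_tsum]
        push_cast
        ring

theorem mi_strain (S : Slicing d V) : ∃ C : ℝ≥0, ∀ {u : X d → V} {h : X d → ℝ≥0∞} (k0 : ℕ)
    (j0 : Idx d), 5 ≤ k0 → SStrain S u h (big 3 0 k0 j0) →
    ∀ (F : Finset (ℕ × Idx d)) (β : ℕ × Idx d → ℝ≥0∞), Adm F β →
    (∀ Q ∈ F, cube (0 : X d) Q.1 Q.2 ⊆ cube 0 k0 j0) →
    (∀ Q ∈ F, ∀ Q' ∈ F, Q ≠ Q' → Disjoint (cube (0 : X d) Q.1 Q.2) (cube 0 Q'.1 Q'.2)) →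
    ∀ x : ℕ × Idx d → X d, (∀ Q ∈ F, x Q ∈ cube (0 : X d) Q.1 Q.2) →
    ∑ Q ∈ F, β Q * ENNReal.ofReal ‖SPQ S u Q.1 Q.2 (x Q) - SPQ S u k0 j0 (x Q)‖ ≤
      C * ∫⁻ y in big 3 0 k0 j0, h y := by
  classical
  obtain ⟨a, η, Cc, hη, hch⟩ := chain S
  obtain ⟨Ct, hCt⟩ := mis_sum d a hη
  refine ⟨Cc * (1 + Ct + 1) + 1, ?_⟩
  intro u h k0 j0 hk0 hS F β hA hsub hdis x hx
  set U := big (3 : ℝ) (0 : X d) k0 j0 with hUd
  have hUm : MeasurableSet U := measurableSet_big _ _ _ _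
  set m := ∫⁻ y in U, h y with hmd
  rcases eq_or_ne m ∞ with hmt | hmt
  · rw [hmt, ENNReal.mul_top]
    · exact le_top
    · have h1 : (Cc * (1 + Ct + 1) + 1 : ℝ≥0) ≠ 0 := by positivity
      exact_mod_cast h1
  set h' := U.indicator h with hh'd
  have hh' : ∫⁻ y, h' y = m := lintegral_indicator hUm h
  have hS' : SStrain S u h' U := by
    refine ⟨hS.cont, hS.meas.indicator hUm, ?_⟩
    intro i w v s hs hseg
    refine (hS.line i w v s hs hseg).trans (le_of_eq ?_)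
    congr 1
    unfold rm
    apply setLIntegral_congr_fun measurableSet_Icc
    intro r hr
    simp only [hh'd]
    rw [indicator_of_mem (hseg r hr)]
  have := misNu_fin hA
  set ν := misNu F β with hνd
  have key : ∀ Q ∈ F, β Q * ENNReal.ofReal ‖SPQ S u Q.1 Q.2 (x Q) - SPQ S u k0 j0 (x Q)‖ ≤
      Cc * ((∫⁻ y in cube 0 Q.1 Q.2, h' y) + β Q * (∑' (k : ℕ) (j : Idx d),
        if cube (0 : X d) Q.1 Q.2 ⊆ cube 0 k j then ∑' i, misG h' ν a η i k j else 0) +
        β Q * (m / ENNReal.ofReal (sd k0 ^ d))) := by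
    intro Q hQ
    rcases eq_or_ne (β Q) 0 with hb | hb
    · rw [hb, zero_mul]
      exact zero_le
    obtain ⟨hlev, hanc⟩ := mis_level (hsub Q hQ)
    obtain ⟨mm, hmm⟩ := Nat.exists_eq_add_of_le hlev
    have hmm' : Q.1 - k0 = mm := by omega
    rw [hmm'] at hanc
    have hcubA : ∀ r ≤ mm, cube (0 : X d) Q.1 Q.2 ⊆ cube 0 (k0 + r) (anc Q.2 (mm - r)) := by
      intro r hr
      have h1 := cube_subset_anc (0 : X d) (k0 + r) (mm - r) Q.2
      have h2 : k0 + r + (mm - r) = Q.1 := by omega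
      rwa [h2] at h1
    have hcl : ∀ r, r ≤ mm → ∃ i, InCl ν (misTh d i) (k0 + r) (anc Q.2 (mm - r)) := by
      intro r hr
      apply mis_class (misNu_big_le hA hdis _ _)
      have h1 := misNu_ge F β (big 4 0 (k0 + r) (anc Q.2 (mm - r)))
      have h2 := Finset.single_le_sum (s := F)
        (f := fun S => if cube (0 : X d) S.1 S.2 ⊆ big 4 0 (k0 + r) (anc Q.2 (mm - r)) then β S
          else 0) (fun _ _ => zero_le) hQ
      rw [if_pos ((hcubA r hr).trans (cube_subset_big (by norm_num) _ _ _))] at h2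
      exact ((pos_iff_ne_zero.2 hb).trans_le (h2.trans h1)).ne'
    choose! I hI using hcl
    have h1 := hch hS' ν (fun r => misTh d (I r)) k0 mm Q.2 hI (by rw [hanc]) (x Q) (by
      rw [← hmm]
      exact hx Q hQ)
    rw [← hmm, hanc] at h1
    have hE1 : β Q * ((∫⁻ y in cube 0 Q.1 Q.2, h' y) / ENNReal.ofReal (sd Q.1 ^ d)) ≤
        ∫⁻ y in cube 0 Q.1 Q.2, h' y :=
      (mul_le_mul_left (mis_beta_le hA hQ) _).trans ENNReal.mul_div_le
    have hE2 : ∑ r ∈ Finset.range (mm + 1), costQ h' ν (c0 d * misTh d (I r)) a η (k0 + r)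
        (anc Q.2 (mm - r)) ≤ ∑' (k : ℕ) (j : Idx d),
        if cube (0 : X d) Q.1 Q.2 ⊆ cube 0 k j then ∑' i, misG h' ν a η i k j else 0 := by
      set f : ℕ → ℝ≥0∞ := fun k => ∑' (j : Idx d),
        if cube (0 : X d) Q.1 Q.2 ⊆ cube 0 k j then ∑' i, misG h' ν a η i k j else 0 with hf
      calc ∑ r ∈ Finset.range (mm + 1), costQ h' ν (c0 d * misTh d (I r)) a η (k0 + r)
            (anc Q.2 (mm - r)) ≤ ∑ r ∈ Finset.range (mm + 1), f (k0 + r) := by
            refine Finset.sum_le_sum fun r hr => ?_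
            have hr' : r ≤ mm := by
              have := Finset.mem_range.1 hr
              omega
            refine le_trans ?_ (ENNReal.le_tsum (anc Q.2 (mm - r)))
            rw [if_pos (hcubA r hr')]
            refine le_trans ?_ (ENNReal.le_tsum (I r))
            unfold misG
            rw [if_pos ⟨by omega, hI r hr'⟩]
        _ ≤ ∑' r, f (k0 + r) := ENNReal.sum_le_tsum _
        _ ≤ ∑' k, f k := ENNReal.tsum_comp_le_tsum_of_injective (add_right_injective k0) f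
    have hE3 : ∫⁻ y in big 3 0 k0 j0, h' y ≤ m := by
      rw [← hh']
      exact setLIntegral_le_lintegral _ _
    calc β Q * ENNReal.ofReal ‖SPQ S u Q.1 Q.2 (x Q) - SPQ S u k0 j0 (x Q)‖
        ≤ β Q * (Cc * ((∫⁻ y in cube 0 Q.1 Q.2, h' y) / ENNReal.ofReal (sd Q.1 ^ d) +
          ∑ r ∈ Finset.range (mm + 1), costQ h' ν (c0 d * misTh d (I r)) a η (k0 + r)
            (anc Q.2 (mm - r)) +
          (∫⁻ y in big 3 0 k0 j0, h' y) / ENNReal.ofReal (sd k0 ^ d))) := by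
          gcongr
      _ = Cc * (β Q * ((∫⁻ y in cube 0 Q.1 Q.2, h' y) / ENNReal.ofReal (sd Q.1 ^ d)) +
          β Q * ∑ r ∈ Finset.range (mm + 1), costQ h' ν (c0 d * misTh d (I r)) a η (k0 + r)
            (anc Q.2 (mm - r)) +
          β Q * ((∫⁻ y in big 3 0 k0 j0, h' y) / ENNReal.ofReal (sd k0 ^ d))) := by ring
      _ ≤ _ := by gcongr
  have hint : ∑ Q ∈ F, ∫⁻ y in cube 0 Q.1 Q.2, h' y ≤ m := by
    rw [← hh', ← lintegral_biUnion_finset]
    · exact setLIntegral_le_lintegral _ _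
    · intro Q hQ Q' hQ' hne
      exact hdis Q hQ Q' hQ' hne
    · exact fun Q _ => measurableSet_cube _ _ _
  have hbs : ∑ Q ∈ F, β Q ≤ ENNReal.ofReal (sd k0 ^ d) := by
    refine le_trans (Finset.sum_le_sum fun Q hQ => ?_) (hA k0 j0)
    rw [if_pos (hsub Q hQ)]
  calc ∑ Q ∈ F, β Q * ENNReal.ofReal ‖SPQ S u Q.1 Q.2 (x Q) - SPQ S u k0 j0 (x Q)‖
      ≤ ∑ Q ∈ F, Cc * ((∫⁻ y in cube 0 Q.1 Q.2, h' y) + β Q * (∑' (k : ℕ) (j : Idx d),
        if cube (0 : X d) Q.1 Q.2 ⊆ cube 0 k j then ∑' i, misG h' ν a η i k j else 0) +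
        β Q * (m / ENNReal.ofReal (sd k0 ^ d))) := Finset.sum_le_sum key
    _ = Cc * ((∑ Q ∈ F, ∫⁻ y in cube 0 Q.1 Q.2, h' y) +
        ∑ Q ∈ F, β Q * (∑' (k : ℕ) (j : Idx d),
        if cube (0 : X d) Q.1 Q.2 ⊆ cube 0 k j then ∑' i, misG h' ν a η i k j else 0) +
        (∑ Q ∈ F, β Q) * (m / ENNReal.ofReal (sd k0 ^ d))) := by
        rw [← Finset.mul_sum, Finset.sum_add_distrib, Finset.sum_add_distrib, Finset.sum_mul]
    _ ≤ Cc * (m + Ct * m + m) := by
        gcongr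
        · have h2 := hCt (hS'.meas) (by rw [hh']; exact hmt) hA hdis
          rw [hh'] at h2
          exact h2
        · exact (mul_le_mul_left hbs _).trans ENNReal.mul_div_le
    _ ≤ (Cc * (1 + Ct + 1) + 1 : ℝ≥0) * m := by
        push_cast
        rw [add_mul (Cc * (1 + Ct + 1) : ℝ≥0∞)]
        refine le_trans (le_of_eq ?_) le_self_add
        ring

end BDJ
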