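import Pool.Agent.BDJ.MollLine
import Pool.Agent.BDJ.MIs

/-!
# The maximal inequality and the Poincare inequality for `SBV` (row MIBD)

Mollified sequence: `φ n` bump functions with `rOut = 2/(n+1)`-like `→ 0`, `v n`, `h n` as in `MollLine`; `∫_Ω ‖v n - u‖ → 0` by `l1_moll` (applied to the indicator function).

`mi_bd`: apply `mi_strain` to `(v n, h n)` on `U = big 3 0 k0 j0`; the closed neighbourhood of `big 3 Q0` of radius `rOut` is contained in `big 4 Q0 ⊆ Ω` for large `n`. Pass to the limit in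
the finite sum: `SPQ (v n) Q x → SPQ u Q x` for `x` in the cube `Q` by `P_lip` (`Q ⊆ Ω`); for the projection on `Q0` evaluated at `x Q ∈ Q ⊆ Q0` as well.
`kp_bd`: `kp` for `(v n, h n)` on `U = bx c l` gives `p_n ∈ R` with `∫_{bx} ‖v n - p_n‖ ≤ C l ∫_{bx} h n`; `P_lip`, `P_id` turn `p_n` into `P (v n) c l` (with a larger constant):
`∫_{bx} ‖v n - P (v n)‖ ≤ (1 + CP) ∫_{bx} ‖v n - p_n‖`; the right side is `≤ C l m(cthickening (bx c l)) ≤ C l m(bx (c - l) (3 l))` for large `n`; the left side converges to `∫_{bx} ‖u - P u‖` (`L^1` convergence and `P_lip`).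
-/

open MeasureTheory Set Filter
open scoped ENNReal NNReal Topology

namespace BDJ

variable {d : ℕ} {V : Type*} [NormedAddCommGroup V] [NormedSpace ℝ V] [FiniteDimensional ℝ V]

/-- the mollifiers -/
noncomputable def mibd_phi (d : ℕ) (n : ℕ) : ContDiffBump (0 : X d) where
  rIn := 1 / (2 * ((n : ℝ) + 1))
  rOut := 1 / ((n : ℝ) + 1)
  rIn_pos := by positivity
  rIn_lt_rOut := by
    apply one_div_lt_one_div_of_lt
    · positivity
    · have : (0 : ℝ) ≤ n := Nat.cast_nonneg n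
      linarith

theorem mibd_phi_rOut (d n : ℕ) : (mibd_phi d n).rOut = 1 / ((n : ℝ) + 1) := rfl

theorem mibd_phi_tendsto (d : ℕ) : Tendsto (fun n => (mibd_phi d n).rOut) atTop (𝓝 0) :=
  tendsto_one_div_add_atTop_nhds_zero_nat

theorem mibd_rOut_lt (d : ℕ) {ε : ℝ} (hε : 0 < ε) : ∀ᶠ n in atTop, (mibd_phi d n).rOut < ε :=
  (mibd_phi_tendsto d).eventually_lt_const hε

/-- the mollified function -/
noncomputable def mibd_v (Ω : Set (X d)) (u : X d → V) (n : ℕ) : X d → V :=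
  fun x => ∫ y, (mibd_phi d n).normed volume (x - y) • Ω.indicator u y

/-- the mollified measure -/
noncomputable def mibd_h (m : Measure (X d)) (n : ℕ) : X d → ℝ≥0∞ :=
  fun x => ∫⁻ y, ENNReal.ofReal ((mibd_phi d n).normed volume (x - y)) ∂m

theorem mibd_integ {S : Slicing d V} {Ω : Set (X d)} {u : X d → V} {m : Measure (X d)}
    (hu : SBV S Ω u m) : Integrable (Ω.indicator u) :=
  hu.integ.integrable_indicator hu.isOpen.measurableSet

theorem mibd_v_int {S : Slicing d V} {Ω : Set (X d)} {u : X d → V} {m : Measure (X d)}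
    (hu : SBV S Ω u m) (n : ℕ) :
    Integrable (mibd_v Ω u n) := (integrable_moll (mibd_integ hu) (mibd_phi d n)).1

/-- convergence of the mollified functions on subsets of `Ω` -/
theorem mibd_conv {S : Slicing d V} {Ω : Set (X d)} {u : X d → V} {m : Measure (X d)}
    (hu : SBV S Ω u m) {A : Set (X d)} (hA : MeasurableSet A)
    (hAΩ : A ⊆ Ω) :
    Tendsto (fun n => ∫⁻ x in A, ENNReal.ofReal ‖mibd_v Ω u n x - u x‖) atTop (𝓝 0) := by
  have h1 := l1_moll (mibd_integ hu) (mibd_phi d) (mibd_phi_tendsto d)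
  refine tendsto_of_tendsto_of_tendsto_of_le_of_le tendsto_const_nhds h1
    (fun n => zero_le) (fun n => ?_)
  calc ∫⁻ x in A, ENNReal.ofReal ‖mibd_v Ω u n x - u x‖
      = ∫⁻ x in A, ENNReal.ofReal ‖mibd_v Ω u n x - Ω.indicator u x‖ := by
        refine setLIntegral_congr_fun hA fun x hx => ?_
        simp only [indicator_of_mem (hAΩ hx)]
    _ ≤ ∫⁻ x, ENNReal.ofReal ‖mibd_v Ω u n x - Ω.indicator u x‖ := setLIntegral_le_lintegral _ _

theorem mibd_int_norm {A : Set (X d)} {f g : X d → V} (hf : IntegrableOn f A)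
    (hg : IntegrableOn g A) :
    ENNReal.ofReal (∫ x in A, ‖f x - g x‖) = ∫⁻ x in A, ENNReal.ofReal ‖f x - g x‖ :=
  ofReal_integral_eq_lintegral_ofReal (hf.sub hg).norm
    (Eventually.of_forall fun _ => norm_nonneg _)

/-- convergence of the projections -/
theorem mibd_P_conv {S : Slicing d V} {Ω : Set (X d)} {u : X d → V} {m : Measure (X d)}
    (hu : SBV S Ω u m) {c : X d} {l : ℝ} (hl : 0 < l)
    (hΩ : bx c l ⊆ Ω) {x : X d} (hx : x ∈ bx c l) :
    Tendsto (fun n => S.P (mibd_v Ω u n) c l x) atTop (𝓝 (S.P u c l x)) := by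
  have hA := mibd_conv hu (measurableSet_bx c l) hΩ
  have hiu : IntegrableOn u (bx c l) := hu.integ.mono_set hΩ
  have hiv : ∀ n, IntegrableOn (mibd_v Ω u n) (bx c l) := fun n => (mibd_v_int hu n).integrableOn
  have h1 : Tendsto (fun n => ∫ y in bx c l, ‖mibd_v Ω u n y - u y‖) atTop (𝓝 0) := by
    have h2 := (ENNReal.tendsto_toReal ENNReal.zero_ne_top).comp hA
    simp only [ENNReal.toReal_zero] at h2
    refine h2.congr fun n => ?_
    simp only [Function.comp_apply]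
    rw [← mibd_int_norm (hiv n) hiu, ENNReal.toReal_ofReal]
    exact integral_nonneg fun x => norm_nonneg _
  rw [tendsto_iff_norm_sub_tendsto_zero]
  have h3 : Tendsto (fun n => S.CP * ((l ^ (d + 1))⁻¹ * ∫ y in bx c l, ‖mibd_v Ω u n y - u y‖))
      atTop (𝓝 0) := by
    have := (h1.const_mul ((l ^ (d + 1))⁻¹)).const_mul S.CP
    simpa using this
  exact squeeze_zero (fun n => norm_nonneg _)
    (fun n => S.P_lip _ _ c l hl (hiv n) hiu x hx) h3

/-- the closed neighbourhood of a box -/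
theorem mibd_thick {A : Set (X d)} {a b : X d} {r ε : ℝ} (hr : 0 ≤ r) (hrε : r < ε)
    (hA : ∀ x ∈ A, ∀ i, a i ≤ x i ∧ x i ≤ b i) :
    ∀ x ∈ Metric.cthickening r A, ∀ i, a i - ε < x i ∧ x i < b i + ε := by
  intro x hx i
  have h1 : x ∈ Metric.thickening ε A := Metric.cthickening_subset_thickening' (by linarith) hrε A hx
  obtain ⟨z, hz, hxz⟩ := Metric.mem_thickening_iff.1 h1
  have h2 : |x i - z i| < ε := by
    have := dist_le_pi_dist x z i
    rw [Real.dist_eq] at this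
    linarith
  rw [abs_lt] at h2
  have h3 := hA z hz i
  constructor <;> linarith [h3.1, h3.2]

theorem mibd_beta {F : Finset (ℕ × Idx d)} {β : ℕ × Idx d → ℝ≥0∞} (hF : Adm F β)
    {Q : ℕ × Idx d} (hQ : Q ∈ F) : β Q ≠ ∞ := by
  have h := hF Q.1 Q.2
  have h1 : β Q ≤ ENNReal.ofReal (sd Q.1 ^ d) := by
    refine le_trans (le_of_eq ?_) ((Finset.single_le_sum (fun S _ => zero_le) hQ).trans h)
    rw [if_pos subset_rfl]
  exact ne_top_of_le_ne_top ENNReal.ofReal_ne_top h1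

theorem mi_bd (S : Slicing d V) : ∃ C : ℝ≥0, ∀ {Ω : Set (X d)} {u : X d → V} {m : Measure (X d)},
    SBV S Ω u m → ∀ (k0 : ℕ) (j0 : Idx d), 5 ≤ k0 →
    big 4 0 k0 j0 ⊆ Ω →
    ∀ (F : Finset (ℕ × Idx d)) (β : ℕ × Idx d → ℝ≥0∞), Adm F β →
    (∀ Q ∈ F, cube (0 : X d) Q.1 Q.2 ⊆ cube 0 k0 j0) →
    (∀ Q ∈ F, ∀ Q' ∈ F, Q ≠ Q' → Disjoint (cube (0 : X d) Q.1 Q.2) (cube 0 Q'.1 Q'.2)) →
    ∀ x : ℕ × Idx d → X d, (∀ Q ∈ F, x Q ∈ cube (0 : X d) Q.1 Q.2) →
    ∑ Q ∈ F, β Q * ENNReal.ofReal ‖SPQ S u Q.1 Q.2 (x Q) - SPQ S u k0 j0 (x Q)‖ ≤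
      C * m (big 4 0 k0 j0) := by
  obtain ⟨C, hC⟩ := mi_strain S
  refine ⟨C, ?_⟩
  intro Ω u m hu k0 j0 hk0 hΩ F β hβ hF hdis x hx
  have hfin : IsFiniteMeasure m := hu.fin
  have hsd := sd_pos k0
  have hbx : ∀ (k : ℕ) (j : Idx d), cube (0 : X d) k j = bx (fun i => j i * sd k) (sd k) := by
    intro k j
    rw [cube_eq_bx]
    congr 1
    ext i
    simp
  have hcube : cube (0 : X d) k0 j0 ⊆ Ω :=
    (cube_subset_big (by norm_num : (0 : ℝ) < 4) 0 k0 j0).trans hΩ
  have hlim : ∀ (k : ℕ) (j : Idx d), cube (0 : X d) k j ⊆ cube 0 k0 j0 → ∀ z ∈ cube (0 : X d) k j,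
      Tendsto (fun n => SPQ S (mibd_v Ω u n) k j z) atTop (𝓝 (SPQ S u k j z)) := by
    intro k j hk z hz
    refine mibd_P_conv hu (sd_pos k) ?_ ?_
    · rw [← hbx]
      exact hk.trans hcube
    · rw [← hbx]
      exact hz
  refine le_of_tendsto (f := fun n => ∑ Q ∈ F, β Q * ENNReal.ofReal
    ‖SPQ S (mibd_v Ω u n) Q.1 Q.2 (x Q) - SPQ S (mibd_v Ω u n) k0 j0 (x Q)‖) (x := atTop) ?_ ?_
  · refine tendsto_finsetSum _ fun Q hQ => ?_
    refine ENNReal.Tendsto.const_mul ?_ (Or.inr (mibd_beta hβ hQ))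
    refine ENNReal.tendsto_ofReal ?_
    exact ((hlim Q.1 Q.2 (hF Q hQ) (x Q) (hx Q hQ)).sub
      (hlim k0 j0 subset_rfl (x Q) (hF Q hQ (hx Q hQ)))).norm
  · filter_upwards [mibd_rOut_lt d hsd] with n hn
    have hth : Metric.cthickening (mibd_phi d n).rOut (big 3 0 k0 j0) ⊆ big 4 0 k0 j0 := by
      intro y hy i
      have h := mibd_thick (A := big 3 (0 : X d) k0 j0)
        (a := fun i => (j0 i - 3) * sd k0) (b := fun i => (j0 i + 1 + 3) * sd k0)
        (mibd_phi d n).rOut_pos.le hn (fun z hz i => by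
          have := hz i
          simp only [Pi.zero_apply, zero_add] at this
          exact ⟨this.1.le, this.2.le⟩) y hy i
      simp only [Pi.zero_apply, zero_add]
      constructor <;> nlinarith [h.1, h.2]
    have hst : SStrain S (mibd_v Ω u n) (mibd_h m n) (big 3 0 k0 j0) :=
      moll_strain S hu (mibd_phi d n) _ (hth.trans hΩ)
    refine (hC k0 j0 hk0 hst F β hβ hF hdis x hx).trans ?_
    gcongr
    exact (moll_mass (mibd_phi d n) (measurableSet_big 3 0 k0 j0)).trans (measure_mono hth)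

/-- the projections in `L^1` -/
theorem mibd_P_l1 (S : Slicing d V) {f g : X d → V} {c : X d} {l : ℝ} (hl : 0 < l)
    (hf : IntegrableOn f (bx c l)) (hg : IntegrableOn g (bx c l)) :
    ∫⁻ x in bx c l, ENNReal.ofReal ‖S.P f c l x - S.P g c l x‖ ≤
      ENNReal.ofReal |S.CP| * ∫⁻ x in bx c l, ENNReal.ofReal ‖f x - g x‖ := by
  have h0 : 0 ≤ ∫ y in bx c l, ‖f y - g y‖ := integral_nonneg fun x => norm_nonneg _
  have hl' : 0 < l ^ (d + 1) := by positivity
  calc ∫⁻ x in bx c l, ENNReal.ofReal ‖S.P f c l x - S.P g c l x‖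
      ≤ ∫⁻ _ in bx c l, ENNReal.ofReal (|S.CP| * ((l ^ (d + 1))⁻¹ * ∫ y in bx c l, ‖f y - g y‖)) := by
        refine setLIntegral_mono' (measurableSet_bx c l) fun x hx => ?_
        apply ENNReal.ofReal_le_ofReal
        refine (S.P_lip f g c l hl hf hg x hx).trans ?_
        exact mul_le_mul_of_nonneg_right (le_abs_self _) (by positivity)
    _ = ENNReal.ofReal (|S.CP| * ∫ y in bx c l, ‖f y - g y‖) := by
        rw [setLIntegral_const, volume_bx c hl.le, ← ENNReal.ofReal_mul (by positivity)]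
        congr 1
        field_simp
    _ = ENNReal.ofReal |S.CP| * ∫⁻ x in bx c l, ENNReal.ofReal ‖f x - g x‖ := by
        rw [ENNReal.ofReal_mul (abs_nonneg _), mibd_int_norm hf hg]

theorem mibd_tri {A : Set (X d)} {f g k : X d → V} (hf : IntegrableOn f A)
    (hg : IntegrableOn g A) :
    ∫⁻ x in A, ENNReal.ofReal ‖f x - k x‖ ≤
      (∫⁻ x in A, ENNReal.ofReal ‖f x - g x‖) + ∫⁻ x in A, ENNReal.ofReal ‖g x - k x‖ := by
  have hm : AEMeasurable (fun x => ENNReal.ofReal ‖f x - g x‖) (volume.restrict A) :=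
    ((hf.sub hg).norm.aestronglyMeasurable.aemeasurable).ennreal_ofReal
  rw [← lintegral_add_left' hm]
  refine lintegral_mono fun x => ?_
  rw [← ENNReal.ofReal_add (norm_nonneg _) (norm_nonneg _)]
  exact ENNReal.ofReal_le_ofReal (norm_sub_le_norm_sub_add_norm_sub _ _ _)

theorem mibd_symm {A : Set (X d)} (f g : X d → V) :
    ∫⁻ x in A, ENNReal.ofReal ‖f x - g x‖ = ∫⁻ x in A, ENNReal.ofReal ‖g x - f x‖ := by
  simp only [norm_sub_rev]

theorem kp_bd (S : Slicing d V) : ∃ C : ℝ≥0, ∀ {Ω : Set (X d)} {u : X d → V} {m : Measure (X d)},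
    SBV S Ω u m → ∀ (c : X d) (l : ℝ), 0 < l →
    bx (fun i => c i - l) (3 * l) ⊆ Ω →
    ∫⁻ x in bx c l, ENNReal.ofReal ‖u x - S.P u c l x‖ ≤
      C * ENNReal.ofReal l * m (bx (fun i => c i - l) (3 * l)) := by
  obtain ⟨C, hC⟩ := kp S
  refine ⟨(1 + Real.toNNReal |S.CP|) * C, ?_⟩
  intro Ω u m hu c l hl hΩ
  have hfin : IsFiniteMeasure m := hu.fin
  have hsub : bx c l ⊆ bx (fun i => c i - l) (3 * l) := by
    intro x hx i
    have := hx i
    constructor <;> simp only <;> linarith [this.1, this.2]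
  have hbΩ : bx c l ⊆ Ω := hsub.trans hΩ
  have hiu : IntegrableOn u (bx c l) := hu.integ.mono_set hbΩ
  have hiv : ∀ n, IntegrableOn (mibd_v Ω u n) (bx c l) := fun n => (mibd_v_int hu n).integrableOn
  have hA := mibd_conv hu (measurableSet_bx c l) hbΩ
  set B : ℝ≥0∞ := C * ENNReal.ofReal l * m (bx (fun i => c i - l) (3 * l)) with hB
  have hcoe : ((1 + Real.toNNReal |S.CP| : ℝ≥0) : ℝ≥0∞) = 1 + ENNReal.ofReal |S.CP| := by
    push_cast
    rfl
  have key : ∀ᶠ n in atTop, ∫⁻ x in bx c l, ENNReal.ofReal ‖u x - S.P u c l x‖ ≤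
      (1 + ENNReal.ofReal |S.CP|) *
        ((∫⁻ x in bx c l, ENNReal.ofReal ‖mibd_v Ω u n x - u x‖) + B) := by
    filter_upwards [mibd_rOut_lt d hl] with n hn
    have hth : Metric.cthickening (mibd_phi d n).rOut (bx c l) ⊆
        bx (fun i => c i - l) (3 * l) := by
      intro y hy i
      have h := mibd_thick (A := bx c l) (a := c) (b := fun i => c i + l)
        (mibd_phi d n).rOut_pos.le hn (fun z hz i => ⟨(hz i).1, (hz i).2.le⟩) y hy i
      constructor <;> simp only <;> linarith [h.1, h.2]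
    have hst : SStrain S (mibd_v Ω u n) (mibd_h m n) (bx c l) :=
      moll_strain S hu (mibd_phi d n) _ (hth.trans hΩ)
    obtain ⟨p, hp, hpi⟩ := hC hst c l hl subset_rfl
    have hpB : ∫⁻ x in bx c l, ENNReal.ofReal ‖mibd_v Ω u n x - p x‖ ≤ B := by
      refine hpi.trans ?_
      rw [hB]
      gcongr
      exact (moll_mass (mibd_phi d n) (measurableSet_bx c l)).trans (measure_mono hth)
    have hip : IntegrableOn p (bx c l) := by
      refine ((S.R_cont p hp).integrableOn_Icc (a := c) (b := fun i => c i + l)).mono_set ?_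
      intro x hx
      exact ⟨fun i => (hx i).1, fun i => (hx i).2.le⟩
    have h1 : ∫⁻ x in bx c l, ENNReal.ofReal ‖u x - p x‖ ≤
        (∫⁻ x in bx c l, ENNReal.ofReal ‖mibd_v Ω u n x - u x‖) + B := by
      refine (mibd_tri hiu (hiv n)).trans ?_
      rw [mibd_symm u]
      gcongr
    have h2 : ∫⁻ x in bx c l, ENNReal.ofReal ‖p x - S.P u c l x‖ ≤
        ENNReal.ofReal |S.CP| * ∫⁻ x in bx c l, ENNReal.ofReal ‖u x - p x‖ := by
      have h3 := mibd_P_l1 S hl hip hiu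
      rw [S.P_id p hp c l hl, mibd_symm p u] at h3
      exact h3
    calc ∫⁻ x in bx c l, ENNReal.ofReal ‖u x - S.P u c l x‖
        ≤ (∫⁻ x in bx c l, ENNReal.ofReal ‖u x - p x‖) +
            ∫⁻ x in bx c l, ENNReal.ofReal ‖p x - S.P u c l x‖ := mibd_tri hiu hip
      _ ≤ (∫⁻ x in bx c l, ENNReal.ofReal ‖u x - p x‖) +
            ENNReal.ofReal |S.CP| * ∫⁻ x in bx c l, ENNReal.ofReal ‖u x - p x‖ := by gcongr
      _ = (1 + ENNReal.ofReal |S.CP|) * ∫⁻ x in bx c l, ENNReal.ofReal ‖u x - p x‖ := by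
          rw [add_mul, one_mul]
      _ ≤ _ := by gcongr
  have hlim : Tendsto (fun n => (1 + ENNReal.ofReal |S.CP|) *
      ((∫⁻ x in bx c l, ENNReal.ofReal ‖mibd_v Ω u n x - u x‖) + B)) atTop
      (𝓝 ((1 + ENNReal.ofReal |S.CP|) * (0 + B))) :=
    ENNReal.Tendsto.const_mul (hA.add tendsto_const_nhds)
      (Or.inr (ENNReal.add_ne_top.2 ⟨ENNReal.one_ne_top, ENNReal.ofReal_ne_top⟩))
  refine (ge_of_tendsto hlim key).trans (le_of_eq ?_)
  rw [zero_add, hB, ENNReal.coe_mul, hcoe]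
  ring

end BDJ
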