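import Pool.Agent.BDJ.Greedy
import Pool.Agent.BDJ.MIBD

/-!
# Content and Hausdorff measure of the oscillation set (row CONTENT)

`content_osc`: `Q0 = (k0,j0)`, `5 ≤ k0`, `big 4 Q0 ⊆ Ω`. If `x ∈ SOsc S Ω u lam ∩ Q0` there are `k0 ≤ k ≤ K`, `y ∈ cube_K(x)` with `lam < ‖P_K y - P_k y‖`, so one of `‖P_K y - P_{Q0} y‖`,
`‖P_k y - P_{Q0} y‖` is `> lam/2`; here `y ∈ cube_K(x) ⊆ cube_k(x)`. So `x` lies in a dyadic cube `Q ⊆ Q0` with `∃ y ∈ Q, lam/2 < ‖SPQ u Q y - SPQ u Q0 y‖`. Let `G` be the set of the maximal cubes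
with this property (pairwise disjoint, contained in `Q0`). For `F ⊆ G` finite and `β` admissible, `(lam/2) ∑ β ≤ ∑ β Q ofReal‖...‖ ≤ C m(big 4 Q0)` by `mi_bd`, so `greedy` applies with `B = (2C/lam) m(big 4 Q0)`.

`hausdorff_osc`: `W ⊆ Ω` open, `W_j = {x ∈ W : ∀ k ≥ j, big 4 0 k (idx 0 k x) ⊆ W}`, increasing in `j`, `⋃ W_j = W`. For `k ≥ max j 5` cover `SOsc ∩ W_j` by the cubes of level `k` meeting it and each of
these by the families of `content_osc`: the total of `sd^d` is `≤ (2C/lam) ∑_Q m(big 4 Q) ≤ (2C/lam) 9^(d+1) m(W)` (only the `Q` with `big 4 Q ⊆ W`; `tsum_big_le`, `N = 4`). The cubes have diameter `≤ sd k → 0`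
(sup metric) and `diam^d ≤ sd^d`. `MeasureTheory.Measure.hausdorffMeasure_le_liminf_tsum`, then continuity from below (`Monotone.measure_iUnion`). (For `d = 0`: `μH[0]` is the counting measure, `diam^0 = 1` for nonempty sets; the
lemma `hausdorffMeasure_le_liminf_tsum` covers it.)
-/

open MeasureTheory Set Filter
open scoped ENNReal NNReal Topology

namespace BDJ

variable {d : ℕ} {V : Type*} [NormedAddCommGroup V] [NormedSpace ℝ V] [FiniteDimensional ℝ V]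

theorem content_nested (x : X d) {i k : ℕ} (h : i ≤ k) :
    cube (0 : X d) k (idx 0 k x) ⊆ cube 0 i (idx 0 i x) := by
  induction k, h using Nat.le_induction with
  | base => exact le_rfl
  | succ k _ ih =>
    refine Subset.trans ?_ ih
    have h1 := cube_subset_par (0 : X d) k (idx 0 (k + 1) x)
    rwa [par_idx] at h1

/-- the cubes on which the projection differs from the projection on `(k0, j0)` -/
def content_Bad (S : Slicing d V) (u : X d → V) (lam : ℝ) (k0 : ℕ) (j0 : Idx d) (Q : ℕ × Idx d) : Prop :=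
  k0 ≤ Q.1 ∧ cube (0 : X d) Q.1 Q.2 ⊆ cube 0 k0 j0 ∧
    ∃ y ∈ cube (0 : X d) Q.1 Q.2, lam / 2 < ‖SPQ S u Q.1 Q.2 y - SPQ S u k0 j0 y‖

/-- the maximal ones -/
def content_G (S : Slicing d V) (u : X d → V) (lam : ℝ) (k0 : ℕ) (j0 : Idx d) : Set (ℕ × Idx d) :=
  {Q | content_Bad S u lam k0 j0 Q ∧
    ∀ i < Q.1, ∀ x ∈ cube (0 : X d) Q.1 Q.2, ¬ content_Bad S u lam k0 j0 (i, idx 0 i x)}

theorem content_disj (S : Slicing d V) (u : X d → V) (lam : ℝ) (k0 : ℕ) (j0 : Idx d) :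
    ∀ Q ∈ content_G S u lam k0 j0, ∀ Q' ∈ content_G S u lam k0 j0, Q ≠ Q' →
      Disjoint (cube (0 : X d) Q.1 Q.2) (cube 0 Q'.1 Q'.2) := by
  intro Q hQ Q' hQ' hne
  rw [Set.disjoint_left]
  intro x hx hx'
  have e1 := (mem_cube_iff (0 : X d) Q.1 Q.2 x).1 hx
  have e2 := (mem_cube_iff (0 : X d) Q'.1 Q'.2 x).1 hx'
  have hB : content_Bad S u lam k0 j0 (Q.1, idx 0 Q.1 x) := by rw [e1]; exact hQ.1
  have hB' : content_Bad S u lam k0 j0 (Q'.1, idx 0 Q'.1 x) := by rw [e2]; exact hQ'.1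
  rcases lt_trichotomy Q.1 Q'.1 with h | h | h
  · exact hQ'.2 _ h x hx' hB
  · apply hne
    refine Prod.ext h ?_
    rw [← e1, ← e2, h]
  · exact hQ.2 _ h x hx hB'

theorem content_cover (S : Slicing d V) {Ω : Set (X d)} {u : X d → V} {lam : ℝ} {k0 : ℕ} {j0 : Idx d}
    {x : X d} (hx : x ∈ SOsc S Ω u lam) (hx0 : x ∈ cube 0 k0 j0) :
    ∃ Q ∈ content_G S u lam k0 j0, x ∈ cube (0 : X d) Q.1 Q.2 := by
  have hj0 := (mem_cube_iff (0 : X d) k0 j0 x).1 hx0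
  have hex : ∃ k, content_Bad S u lam k0 j0 (k, idx 0 k x) := by
    obtain ⟨k, K, hk, hkK, y, hy, hlt⟩ := hx.2 k0
    have hyk : y ∈ cube (0 : X d) k (idx 0 k x) := content_nested x hkK hy
    have hsub : ∀ l, k0 ≤ l → cube (0 : X d) l (idx 0 l x) ⊆ cube 0 k0 j0 := by
      intro l hl
      rw [← hj0]
      exact content_nested x hl
    by_contra hcon
    push Not at hcon
    have h1 : ‖SPQ S u K (idx 0 K x) y - SPQ S u k0 j0 y‖ ≤ lam / 2 := by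
      by_contra h
      exact hcon K ⟨hk.trans hkK, hsub K (hk.trans hkK), y, hy, not_le.1 h⟩
    have h2 : ‖SPQ S u k (idx 0 k x) y - SPQ S u k0 j0 y‖ ≤ lam / 2 := by
      by_contra h
      exact hcon k ⟨hk, hsub k hk, y, hyk, not_le.1 h⟩
    have h3 : SPQ S u K (idx 0 K x) y - SPQ S u k (idx 0 k x) y =
        (SPQ S u K (idx 0 K x) y - SPQ S u k0 j0 y) - (SPQ S u k (idx 0 k x) y - SPQ S u k0 j0 y) := by
      abel
    rw [h3] at hlt
    have h4 := norm_sub_le (SPQ S u K (idx 0 K x) y - SPQ S u k0 j0 y)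
      (SPQ S u k (idx 0 k x) y - SPQ S u k0 j0 y)
    linarith
  classical
  refine ⟨(Nat.find hex, idx 0 (Nat.find hex) x), ⟨Nat.find_spec hex, ?_⟩, mem_cube_idx _ _ _⟩
  intro i hi y hy
  have e1 := (mem_cube_iff (0 : X d) (Nat.find hex) (idx 0 (Nat.find hex) x) y).1 hy
  have hyi : y ∈ cube (0 : X d) i (idx 0 i x) := content_nested x hi.le hy
  have e2 := (mem_cube_iff (0 : X d) i (idx 0 i x) y).1 hyi
  rw [e2]
  exact Nat.find_min hex hi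

theorem content_osc (S : Slicing d V) : ∃ C : ℝ≥0, ∀ {Ω : Set (X d)} {u : X d → V}
    {m : Measure (X d)}, SBV S Ω u m →
    ∀ (k0 : ℕ) (j0 : Idx d), 5 ≤ k0 →
    big 4 0 k0 j0 ⊆ Ω → ∀ lam : ℝ, 0 < lam →
    ∃ K : Set (ℕ × Idx d), (∀ Q ∈ K, k0 ≤ Q.1) ∧
      SOsc S Ω u lam ∩ cube 0 k0 j0 ⊆ (⋃ Q ∈ K, cube (0 : X d) Q.1 Q.2) ∧
      ∑' Q : K, ENNReal.ofReal (sd (Q : ℕ × Idx d).1 ^ d) ≤
        C / ENNReal.ofReal lam * m (big 4 0 k0 j0) := by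
  obtain ⟨C, hC⟩ := mi_bd S
  refine ⟨2 * C, ?_⟩
  intro Ω u m hu k0 j0 hk0 hbig lam hlam
  set G := content_G S u lam k0 j0 with hG
  have hsub : ∀ Q ∈ G, cube (0 : X d) Q.1 Q.2 ⊆ cube 0 k0 j0 := fun Q hQ => hQ.1.2.1
  have hdisj := content_disj S u lam k0 j0
  have hlam2 : ENNReal.ofReal (lam / 2) ≠ 0 := (ENNReal.ofReal_pos.2 (by linarith)).ne'
  have hB : ∀ (F : Finset (ℕ × Idx d)) (β : ℕ × Idx d → ℝ≥0∞), (∀ Q ∈ F, Q ∈ G) → Adm F β →
      ∑ Q ∈ F, β Q ≤ ((2 * C : ℝ≥0) : ℝ≥0∞) / ENNReal.ofReal lam * m (big 4 0 k0 j0) := by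
    intro F β hF hβ
    have hch : ∀ Q : ℕ × Idx d, ∃ y : X d, Q ∈ F → y ∈ cube (0 : X d) Q.1 Q.2 ∧
        lam / 2 < ‖SPQ S u Q.1 Q.2 y - SPQ S u k0 j0 y‖ := by
      intro Q
      by_cases hQ : Q ∈ F
      · obtain ⟨y, hy1, hy2⟩ := (hF Q hQ).1.2.2
        exact ⟨y, fun _ => ⟨hy1, hy2⟩⟩
      · exact ⟨0, fun h => absurd h hQ⟩
    choose x hx using hch
    have h1 := hC hu k0 j0 hk0 hbig F β hβ (fun Q hQ => hsub Q (hF Q hQ))
      (fun Q hQ Q' hQ' hne => hdisj Q (hF Q hQ) Q' (hF Q' hQ') hne) x (fun Q hQ => (hx Q hQ).1)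
    have h2 : (∑ Q ∈ F, β Q) * ENNReal.ofReal (lam / 2) ≤ C * m (big 4 0 k0 j0) := by
      refine le_trans ?_ h1
      rw [Finset.sum_mul]
      refine Finset.sum_le_sum fun Q hQ => ?_
      gcongr
      exact (hx Q hQ).2.le
    rw [← ENNReal.le_div_iff_mul_le (Or.inl hlam2) (Or.inl ENNReal.ofReal_ne_top)] at h2
    refine h2.trans (le_of_eq ?_)
    have e1 : (ENNReal.ofReal (lam / 2))⁻¹ = 2 * (ENNReal.ofReal lam)⁻¹ := by
      rw [ENNReal.ofReal_div_of_pos (by norm_num : (0 : ℝ) < 2), ENNReal.ofReal_ofNat,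
        ENNReal.inv_div (Or.inl (by norm_num)) (Or.inl (by norm_num)), div_eq_mul_inv]
    rw [div_eq_mul_inv, e1, ENNReal.coe_mul, ENNReal.coe_ofNat, div_eq_mul_inv]
    ring
  obtain ⟨K, hK1, hK2, hK3⟩ := greedy k0 j0 G hsub hdisj _ hB
  refine ⟨K, fun Q hQ => (hK1 Q hQ).1, ?_, hK3⟩
  refine Subset.trans ?_ hK2
  rintro x ⟨hx, hx0⟩
  obtain ⟨Q, hQ, hxQ⟩ := content_cover S hx hx0
  exact mem_iUnion₂.2 ⟨Q, hQ, hxQ⟩

theorem content_ediam (k : ℕ) (j : Idx d) : Metric.ediam (cube (0 : X d) k j) ≤ ENNReal.ofReal (sd k) := by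
  refine Metric.ediam_le fun x hx y hy => ?_
  rw [edist_dist]
  refine ENNReal.ofReal_le_ofReal ?_
  rw [dist_pi_le_iff (sd_pos k).le]
  intro i
  rw [Real.dist_eq, abs_le]
  have h1 := hx i
  have h2 := hy i
  constructor <;> linarith

theorem content_big_sub {x : X d} {k : ℕ} {ε : ℝ} (h : 5 * sd k ≤ ε) :
    big 4 0 k (idx 0 k x) ⊆ Metric.ball x ε := by
  intro y hy
  have hε : 0 < ε := lt_of_lt_of_le (by have := sd_pos k; linarith) h
  rw [Metric.mem_ball, dist_pi_lt_iff hε]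
  intro i
  have h1 := mem_cube_idx (0 : X d) k x i
  have h2 := hy i
  rw [Real.dist_eq, abs_lt]
  constructor <;> nlinarith [sd_pos k]

theorem content_sum (m : Measure (X d)) (W : Set (X d)) (hW : IsOpen W) (k : ℕ) :
    ∑' i : Idx d, m (big 4 0 k i ∩ W) ≤ 9 ^ (d + 1) * m W := by
  have h1 : ∀ i : Idx d, m (big 4 0 k i ∩ W) = ∫⁻ x in W, (big 4 0 k i).indicator (1 : X d → ℝ≥0∞) x ∂m := by
    intro i
    rw [lintegral_indicator_one (measurableSet_big _ _ _ _), Measure.restrict_apply (measurableSet_big _ _ _ _)]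
  simp_rw [h1]
  rw [← lintegral_tsum (fun i => (measurable_one.indicator (measurableSet_big _ _ _ _)).aemeasurable)]
  calc ∫⁻ x in W, ∑' i : Idx d, (big 4 0 k i).indicator (1 : X d → ℝ≥0∞) x ∂m
      ≤ ∫⁻ _ in W, (9 : ℝ≥0∞) ^ (d + 1) ∂m := by
        refine lintegral_mono fun x => ?_
        have h2 := tsum_big_le 4 (0 : X d) k x
        norm_num at h2
        exact h2
    _ = 9 ^ (d + 1) * m W := by rw [setLIntegral_const]

theorem hausdorff_osc (S : Slicing d V) : ∃ C : ℝ≥0, ∀ {Ω : Set (X d)} {u : X d → V}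
    {m : Measure (X d)}, SBV S Ω u m → ∀ lam : ℝ, 0 < lam →
    ∀ W : Set (X d), IsOpen W →
    W ⊆ Ω → μH[(d : ℝ)] (SOsc S Ω u lam ∩ W) ≤ C / ENNReal.ofReal lam * m W := by
  obtain ⟨C, hC⟩ := content_osc S
  refine ⟨C * 9 ^ (d + 1), ?_⟩
  intro Ω u m hu lam hlam W hW hWΩ
  have hch : ∀ (n : ℕ) (i : Idx d), ∃ K : Set (ℕ × Idx d), 5 ≤ n → big 4 0 n i ⊆ W →
      (∀ Q ∈ K, n ≤ Q.1) ∧
      SOsc S Ω u lam ∩ cube 0 n i ⊆ (⋃ Q ∈ K, cube (0 : X d) Q.1 Q.2) ∧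
      ∑' Q : K, ENNReal.ofReal (sd (Q : ℕ × Idx d).1 ^ d) ≤
        C / ENNReal.ofReal lam * m (big 4 0 n i) := by
    intro n i
    by_cases h : 5 ≤ n ∧ big 4 0 n i ⊆ W
    · obtain ⟨K, hK⟩ := hC hu n i h.1 (h.2.trans hWΩ) lam hlam
      exact ⟨K, fun _ _ => hK⟩
    · exact ⟨∅, fun h1 h2 => absurd ⟨h1, h2⟩ h⟩
  choose K0 hK0 using hch
  classical
  set K : ℕ → Idx d → Set (ℕ × Idx d) := fun n i => if 5 ≤ n ∧ big 4 0 n i ⊆ W then K0 n i else ∅ with hKdef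
  have hKpos : ∀ n i, 5 ≤ n ∧ big 4 0 n i ⊆ W → K n i = K0 n i := fun n i h => if_pos h
  have hKneg : ∀ n i, ¬ (5 ≤ n ∧ big 4 0 n i ⊆ W) → K n i = ∅ := fun n i h => if_neg h
  have hlev : ∀ n i, ∀ Q ∈ K n i, n ≤ Q.1 := by
    intro n i Q hQ
    by_cases h : 5 ≤ n ∧ big 4 0 n i ⊆ W
    · rw [hKpos n i h] at hQ
      exact (hK0 n i h.1 h.2).1 Q hQ
    · rw [hKneg n i h] at hQ
      exact absurd hQ (notMem_empty _)
  have hsum : ∀ n i, ∑' Q : K n i, ENNReal.ofReal (sd (Q : ℕ × Idx d).1 ^ d) ≤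
      C / ENNReal.ofReal lam * m (big 4 0 n i ∩ W) := by
    intro n i
    by_cases h : 5 ≤ n ∧ big 4 0 n i ⊆ W
    · rw [hKpos n i h, inter_eq_left.2 h.2]
      exact (hK0 n i h.1 h.2).2.2
    · rw [hKneg n i h]
      simp
  have htot : ∀ n, ∑' q : (Σ i : Idx d, K n i), ENNReal.ofReal (sd (q.2 : ℕ × Idx d).1 ^ d) ≤
      ((C * 9 ^ (d + 1) : ℝ≥0) : ℝ≥0∞) / ENNReal.ofReal lam * m W := by
    intro n
    rw [ENNReal.tsum_sigma (fun (i : Idx d) (Q : K n i) => ENNReal.ofReal (sd (Q : ℕ × Idx d).1 ^ d))]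
    calc ∑' i : Idx d, ∑' Q : K n i, ENNReal.ofReal (sd (Q : ℕ × Idx d).1 ^ d)
        ≤ ∑' i : Idx d, C / ENNReal.ofReal lam * m (big 4 0 n i ∩ W) := ENNReal.tsum_le_tsum (hsum n)
      _ = C / ENNReal.ofReal lam * ∑' i : Idx d, m (big 4 0 n i ∩ W) := ENNReal.tsum_mul_left
      _ ≤ C / ENNReal.ofReal lam * (9 ^ (d + 1) * m W) := by
        gcongr
        exact content_sum m W hW n
      _ = ((C * 9 ^ (d + 1) : ℝ≥0) : ℝ≥0∞) / ENNReal.ofReal lam * m W := by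
        rw [ENNReal.coe_mul, ENNReal.coe_pow, ENNReal.coe_ofNat, div_eq_mul_inv, div_eq_mul_inv]
        ring
  set Wj : ℕ → Set (X d) := fun j => {x ∈ W | ∀ k, j ≤ k → big 4 0 k (idx 0 k x) ⊆ W} with hWj
  have hmono : Monotone fun j => SOsc S Ω u lam ∩ Wj j := by
    intro i j hij x hx
    exact ⟨hx.1, hx.2.1, fun k hk => hx.2.2 k (hij.trans hk)⟩
  have hU : SOsc S Ω u lam ∩ W = ⋃ j, SOsc S Ω u lam ∩ Wj j := by
    rw [← inter_iUnion]
    congr 1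
    refine Subset.antisymm ?_ (iUnion_subset fun j x hx => hx.1)
    intro x hx
    obtain ⟨ε, hε, hball⟩ := Metric.isOpen_iff.1 hW x hx
    obtain ⟨j, hj⟩ := exists_pow_lt_of_lt_one (by linarith : 0 < ε / 5) (by norm_num : (1 / 2 : ℝ) < 1)
    refine mem_iUnion.2 ⟨j, hx, fun k hk => (content_big_sub ?_).trans hball⟩
    have h1 : sd k ≤ sd j := sd_anti hk
    have h2 : sd j < ε / 5 := hj
    linarith
  rw [hU, hmono.measure_iUnion]
  refine iSup_le fun j => ?_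
  have hsd : Tendsto (fun n : ℕ => ENNReal.ofReal (sd n)) atTop (𝓝 0) := by
    rw [← ENNReal.ofReal_zero]
    exact ENNReal.tendsto_ofReal (tendsto_pow_atTop_nhds_zero_of_lt_one (by norm_num) (by norm_num))
  have h1 := Measure.hausdorffMeasure_le_liminf_tsum (X := X d) (β := ℕ) (ι := fun n => Σ i : Idx d, K n i) (d : ℝ)
    (SOsc S Ω u lam ∩ Wj j) (l := atTop) (fun n => ENNReal.ofReal (sd n)) hsd
    (fun n q => cube (0 : X d) (q.2 : ℕ × Idx d).1 (q.2 : ℕ × Idx d).2)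
    (Eventually.of_forall fun n q => (content_ediam _ _).trans
      (ENNReal.ofReal_le_ofReal (sd_anti (hlev n q.1 q.2 q.2.2)))) (by
      filter_upwards [eventually_ge_atTop (max j 5)] with n hn
      rintro x ⟨hx, hxW⟩
      have h5 : 5 ≤ n := (le_max_right j 5).trans hn
      have hb : big 4 0 n (idx 0 n x) ⊆ W := hxW.2 n ((le_max_left j 5).trans hn)
      have h2 := (hK0 n (idx 0 n x) h5 hb).2.1 ⟨hx, mem_cube_idx 0 n x⟩
      obtain ⟨Q, hQ, hxQ⟩ := mem_iUnion₂.1 h2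
      exact mem_iUnion.2 ⟨⟨idx 0 n x, ⟨Q, by rw [hKpos n _ ⟨h5, hb⟩]; exact hQ⟩⟩, hxQ⟩)
  refine h1.trans ?_
  refine (liminf_le_liminf (Eventually.of_forall fun n => ?_) (v := fun _ =>
    ((C * 9 ^ (d + 1) : ℝ≥0) : ℝ≥0∞) / ENNReal.ofReal lam * m W)).trans (le_of_eq (liminf_const _))
  refine le_trans (ENNReal.tsum_le_tsum fun q => ?_) (htot n)
  rw [ENNReal.rpow_natCast, ENNReal.ofReal_pow (sd_pos _).le]
  gcongr
  exact content_ediam _ _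

end BDJ
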