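import Mathlib

/-!
# Definitions for the weak-type maximal inequality of functions of bounded deformation

The ambient space is `X d = Fin (d+1) → ℝ` with the sup norm; dimension `n = d + 1`.
-/

open MeasureTheory Set
open scoped ENNReal

namespace BDJ

/-- the ambient space `ℝ^(d+1)` -/
abbrev X (d : ℕ) : Type := Fin (d + 1) → ℝ

/-- the space of slopes `ℝ^d` -/
abbrev Y (d : ℕ) : Type := Fin d → ℝ

/-- indices of dyadic cubes -/
abbrev Idx (d : ℕ) : Type := Fin (d + 1) → ℤ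

variable {d : ℕ}

/-- the slopes `[-1,1]^d` -/
def slopes (d : ℕ) : Set (Y d) := Set.Icc (fun _ => (-1 : ℝ)) (fun _ => 1)

/-- the direction `(1, m)` -/
def dir (m : Y d) : X d := Fin.cons (α := fun _ => ℝ) 1 m

/-- the side length `2^(-k)` -/
noncomputable def sd (k : ℕ) : ℝ := (1 / 2 : ℝ) ^ k

/-- half-open cube of level `k` and index `j` in the dyadic grid shifted by `τ` -/
def cube (τ : X d) (k : ℕ) (j : Idx d) : Set (X d) :=
  {x | ∀ i, τ i + j i * sd k ≤ x i ∧ x i < τ i + (j i + 1) * sd k}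

/-- the open cube obtained from `cube τ k j` by enlarging by `a` side lengths on each side -/
def big (a : ℝ) (τ : X d) (k : ℕ) (j : Idx d) : Set (X d) :=
  {x | ∀ i, τ i + (j i - a) * sd k < x i ∧ x i < τ i + (j i + 1 + a) * sd k}

/-- index of the cube of level `k` containing `x` -/
noncomputable def idx (τ : X d) (k : ℕ) (x : X d) : Idx d := fun i => ⌊(2 : ℝ) ^ k * (x i - τ i)⌋

/-- the index of the dyadic parent -/
def par (j : Idx d) : Idx d := fun i => j i / 2

/-- the shifts of the grids: all vectors with entries in `{0, 1/3}` -/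
noncomputable def shifts (d : ℕ) : Finset (X d) := Fintype.piFinset (fun _ => {0, 1 / 3})

/-- `cube 0 (k+a) i` is one of the sub-cubes of the threefold enlargement of `cube 0 k j` -/
def Sub (a : ℕ) (j i : Idx d) : Prop := ∀ c, 2 ^ a * (j c - 1) ≤ i c ∧ i c < 2 ^ a * (j c + 2)

/-- mass of `h` along the segment `{w + s v : 0 ≤ s ≤ ℓ}` -/
noncomputable def rm (h : X d → ℝ≥0∞) (ℓ : ℝ) (w v : X d) : ℝ≥0∞ :=
  ∫⁻ s in Set.Icc 0 ℓ, h (w + s • v)

/-- heavy cubes -/
def Heavy (ν : Measure (X d)) (t : ℝ≥0∞) (τ : X d) (k : ℕ) (j : Idx d) : Prop :=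
  t * ENNReal.ofReal (sd k ^ d) ≤ ν (cube τ k j)

/-- union of the enlarged heavy cubes of level `k` -/
def Nlev (ν : Measure (X d)) (t : ℝ≥0∞) (τ : X d) (k : ℕ) : Set (X d) :=
  ⋃ (j : Idx d) (_ : Heavy ν t τ k j), big 8 τ k j

/-- union of the enlarged heavy cubes of level at least `k` -/
def Nge (ν : Measure (X d)) (t : ℝ≥0∞) (τ : X d) (k : ℕ) : Set (X d) :=
  ⋃ (i : ℕ) (_ : k ≤ i), Nlev ν t τ i

/-- the same for all shifted grids together -/
def Nall (ν : Measure (X d)) (t : ℝ≥0∞) (k : ℕ) : Set (X d) :=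
  ⋃ τ ∈ shifts d, Nge ν t τ k

/-- density class `θ` -/
def InCl (ν : Measure (X d)) (θ : ℝ≥0∞) (k : ℕ) (j : Idx d) : Prop :=
  θ / 2 * ENNReal.ofReal (sd k ^ d) < ν (big 4 0 k j) ∧
    ν (big 4 0 k j) ≤ θ * ENNReal.ofReal (sd k ^ d)

/-- Lebesgue measure on pairs (point, slope) -/
noncomputable def vp (d : ℕ) : Measure (X d × Y d) := (volume : Measure (X d)).prod volume

/-- the sub-cube `b` (level `k + a`, index `i`) is sparse: the short segments through `9b` mostly
miss the near-level region -/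
def Sparse (ν : Measure (X d)) (t : ℝ≥0∞) (a : ℕ) (η : ℝ≥0∞) (k : ℕ) (i : Idx d) : Prop :=
  vp d {p | p.1 ∈ big 4 0 (k + a) i ∧ p.2 ∈ slopes d ∧
      ∃ s ∈ Icc (-(6 * sd (k + a))) (6 * sd (k + a)), p.1 + s • dir p.2 ∈ Nall ν t (k + a + 5)}
    ≤ η * ENNReal.ofReal (sd (k + a) ^ (d + 1))

/-- measure of the pairs (point of the sub-cube, slope) whose ray (forward, backward) of length
`2^(-k)` has mass at most `q` -/
noncomputable def goodm (h : X d → ℝ≥0∞) (a k : ℕ) (i : Idx d) (q : ℝ≥0∞) : ℝ≥0∞ :=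
  vp d {p | p.1 ∈ cube 0 (k + a) i ∧ p.2 ∈ slopes d ∧ rm h (sd k) p.1 (dir p.2) ≤ q} +
    vp d {p | p.1 ∈ cube 0 (k + a) i ∧ p.2 ∈ slopes d ∧ rm h (sd k) p.1 (-dir p.2) ≤ q}

/-- the cost of the sub-cube: a quantile of the ray masses -/
noncomputable def qc (h : X d → ℝ≥0∞) (a k : ℕ) (i : Idx d) : ℝ≥0∞ :=
  sInf {q | vp d (cube 0 (k + a) i ×ˢ slopes d) / 4 ≤ goodm h a k i q}

/-- the local mass outside the near-level region, normalised -/
noncomputable def Floc (μ ν : Measure (X d)) (t : ℝ≥0∞) (a k : ℕ) (j : Idx d) : ℝ≥0∞ :=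
  (∑ τ ∈ shifts d, μ (big 3 0 k j \ Nge ν t τ (k + a + 5))) / ENNReal.ofReal (sd k ^ d)

open Classical in
/-- total cost of a cube `Q` of level `k`, index `j` -/
noncomputable def costQ (h : X d → ℝ≥0∞) (ν : Measure (X d)) (t : ℝ≥0∞) (a : ℕ) (η : ℝ≥0∞)
    (k : ℕ) (j : Idx d) : ℝ≥0∞ :=
  Floc (volume.withDensity h) ν t a k j +
    ∑' i : Idx d, if Sub a j i ∧ Sparse ν t a η k i then qc h a k i else 0

/-- the ratio between the threshold for heavy cubes and the class -/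
noncomputable def c0 (d : ℕ) : ℝ≥0∞ := (2 * 10 ^ (d + 1))⁻¹

/-- both rays of length `L` from `w`, in the directions `v` and `-v`, meet `O` -/
def HitBoth (O : Set (X d)) (L : ℝ) (w v : X d) : Prop :=
  (∃ s ∈ Icc 0 L, w + s • v ∈ O) ∧ ∃ s ∈ Icc 0 L, w + s • (-v) ∈ O

/-- the sub-cube of level `k + a`, index `i`, is blocked by `O`: for more than half of the pairs
(point, slope) both rays of length `2^(-k)` meet `O` -/
def Blocked (O : Set (X d)) (a k : ℕ) (i : Idx d) : Prop :=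
  vp d (cube 0 (k + a) i ×ˢ slopes d) / 2 <
    vp d {p | p.1 ∈ cube 0 (k + a) i ∧ p.2 ∈ slopes d ∧ HitBoth O (sd k) p.1 (dir p.2)}

open Classical in
/-- the mass seen at the level `k` by the cube `j`, normalised -/
noncomputable def om (μ ν : Measure (X d)) (t : ℝ≥0∞) (τ : X d) (k : ℕ) (j : Idx d) : ℝ :=
  if Heavy ν t τ k j then (μ (big 8 τ k j \ Nge ν t τ (k + 1))).toReal / sd k ^ d else 0

/-- sum of `om` over the ancestors (from level `0` on) -/
noncomputable def Sc (μ ν : Measure (X d)) (t : ℝ≥0∞) (τ : X d) : ℕ → Idx d → ℝ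
  | 0, j => om μ ν t τ 0 j
  | k + 1, j => Sc μ ν t τ k (par j) + om μ ν t τ (k + 1) j

/-- the layer of height `lam` -/
def Lay (μ ν : Measure (X d)) (t : ℝ≥0∞) (τ : X d) (lam : ℝ) : Set (ℕ × Idx d) :=
  {P | Sc μ ν t τ P.1 P.2 - om μ ν t τ P.1 P.2 ≤ lam ∧ lam < Sc μ ν t τ P.1 P.2}

/-- union of the enlarged cubes of a family, of level at least `k` -/
def Obs (τ : X d) (P : Set (ℕ × Idx d)) (k : ℕ) : Set (X d) :=
  ⋃ (q : ℕ × Idx d) (_ : q ∈ P) (_ : k ≤ q.1), big 8 τ q.1 q.2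

/-- `(w, v)` is flagged at level `k`: the short segment misses the obstacles, both rays hit them -/
def Flag (τ : X d) (P : Set (ℕ × Idx d)) (a k : ℕ) (w v : X d) : Prop :=
  (∀ s ∈ Icc (-(6 * sd (k + a))) (6 * sd (k + a)), w + s • v ∉ Obs τ P (k + a + 5)) ∧
    HitBoth (Obs τ P (k + a + 5)) (sd k) w v

open Classical in
/-- oscillation of `Sc` near the cube `j` of level `k` -/
noncomputable def Vv (μ ν : Measure (X d)) (t : ℝ≥0∞) (τ : X d) (a k : ℕ) (j : Idx d) : ℝ≥0∞ :=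
  ∑ i ∈ Finset.Ico (k - 4) (k + a + 5), ∑' j' : Idx d,
    if (cube τ i j' ∩ big 4 0 k j).Nonempty then ENNReal.ofReal (om μ ν t τ i j') else 0

/-- half-open box with lower corner `c` and side `l` -/
def bx (c : X d) (l : ℝ) : Set (X d) := {x | ∀ i, c i ≤ x i ∧ x i < c i + l}

/-- reference simplex -/
noncomputable def zref (i : Fin (d + 2)) : X d :=
  fun c => if c = 0 then ((i : ℕ) : ℝ) else if (c : ℕ) = (i : ℕ) then 1 / 2 else 0

/-- dot product on `X d` -/
def dot (u v : X d) : ℝ := ∑ i, u i * v i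

/-- infinitesimal rigid motions -/
def IsRigid (p : X d → X d) : Prop :=
  ∃ (c : X d) (A : X d →ₗ[ℝ] X d), (∀ v, dot (A v) v = 0) ∧ ∀ x, p x = c + A x

/-- `h` controls the longitudinal increments of `u` along the segments contained in `U` -/
structure StrainPair (u : X d → X d) (h : X d → ℝ≥0∞) (U : Set (X d)) : Prop where
  cont : Continuous u
  meas : Measurable h
  line : ∀ (w v : X d) (s : ℝ), 0 ≤ s → (∀ r ∈ Icc 0 s, w + r • v ∈ U) →
    ENNReal.ofReal |dot (u (w + s • v) - u w) v| ≤ ENNReal.ofReal ((d + 1) * ‖v‖ ^ 2) * rm h s w v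

/-- the rigid motion `p` fits `u` on the set `b` up to `T`, outside a fraction `ς` of `b` -/
def Fits (u : X d → X d) (b : Set (X d)) (p : X d → X d) (T : ℝ) (ς : ℝ≥0∞) : Prop :=
  IsRigid p ∧ volume {x ∈ b | T < ‖u x - p x‖} ≤ ς * volume b

/-- projection of `u` onto the infinitesimal rigid motions on the box `bx c l` -/
noncomputable def Pr (u : X d → X d) (c : X d) (l : ℝ) : X d → X d := fun x i =>
  (l ^ (d + 1))⁻¹ * (∫ y in bx c l, u y i) +
    ∑ j, (6 / l ^ 2 * ((l ^ (d + 1))⁻¹ *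
      ∫ y in bx c l, (u y i * (y j - (c j + l / 2)) - u y j * (y i - (c i + l / 2))))) *
        (x j - (c j + l / 2))

/-- projection on the dyadic cube `cube 0 k j` -/
noncomputable def PrQ (u : X d → X d) (k : ℕ) (j : Idx d) : X d → X d :=
  Pr u (fun i => j i * sd k) (sd k)

/-- weights `β` on a family `F` of dyadic cubes which are admissible: the total weight inside every
dyadic cube is at most the `d`-th power of its side -/
def Adm (F : Finset (ℕ × Idx d)) (β : ℕ × Idx d → ℝ≥0∞) : Prop :=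
  open Classical in ∀ (k : ℕ) (j : Idx d),
    (∑ S ∈ F, if cube 0 S.1 S.2 ⊆ cube 0 k j then β S else 0) ≤ ENNReal.ofReal (sd k ^ d)

/-- `u` has bounded deformation on the open set `Ω ⊆ X d`, with strain `g m`, `m = |Eu|` (only
scalar test functions times `v ⊗ v` are used) -/
structure BDX (Ω : Set (X d)) (u : X d → X d) (m : Measure (X d))
    (g : X d → X d → X d → ℝ) : Prop where
  isOpen : IsOpen Ω
  integ : IntegrableOn u Ω
  fin : IsFiniteMeasure m
  meas : ∀ v, Measurable fun x => g x v v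
  bound : ∀ v, ∀ᵐ x ∂m, |g x v v| ≤ (d + 1) * ‖v‖ ^ 2
  eq : ∀ (ψ : X d → ℝ) (v : X d), ContDiff ℝ (⊤ : ℕ∞) ψ → HasCompactSupport ψ → tsupport ψ ⊆ Ω →
    ∫ x, ψ x * g x v v ∂m = -∫ x in Ω, dot (u x) v * fderiv ℝ ψ x v

end BDJ
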