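import Pool.Agent.BDJ.Sl

/-!
# Sets of finite Hausdorff measure and zero density are null (row DENS)

`m` finite, `F` with `μH[d] F < ∞`, `m(ball x r)/r^d → 0` for every `x ∈ F`. Then `m F = 0`. Proof: let `t > 0` real, `F_j = {x ∈ F : ∀ r ∈ (0, 1/(j+1)), m(ball x r) ≤ t r^d}`, increasing with union `F`. For `δ` small
there are sets `U_i` covering `F_j` with `diam U_i ≤ δ`, `∑ diam(U_i)^d ≤ μH[d] F + 1` (definition of the Hausdorff measure: `hausdorffMeasure_apply`, take the supremum at the scale `δ`). We may take each `U_i` meeting `F_j` at `x_i`;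
`U_i ⊆ ball x_i r` for all `r > diam U_i`, so `m U_i ≤ t diam(U_i)^d` by letting `r` decrease to `diam U_i`. So `m F_j ≤ t (μH[d] F + 1)`; let `j → ∞` (continuity from below for the outer measure,
`Monotone.measure_iUnion`), then `t → 0`.
-/

open MeasureTheory Set Filter
open scoped ENNReal NNReal Topology

namespace BDJ

variable {d : ℕ}

theorem dens_ball {m : Measure (X d)} {x : X d} {U : Set (X d)} {D δ t : ℝ} (hD : 0 ≤ D) (hδ : D < δ)
    (hU : ∀ y ∈ U, dist y x ≤ D)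
    (h : ∀ r : ℝ, 0 < r → r < δ → m (Metric.ball x r) ≤ ENNReal.ofReal (t * r ^ d)) :
    m U ≤ ENNReal.ofReal (t * D ^ d) := by
  have hc : Continuous fun r : ℝ => ENNReal.ofReal (t * r ^ d) :=
    ENNReal.continuous_ofReal.comp (continuous_const.mul (continuous_pow d))
  have h1 : Tendsto (fun r : ℝ => ENNReal.ofReal (t * r ^ d)) (𝓝[>] D) (𝓝 (ENNReal.ofReal (t * D ^ d))) :=
    hc.continuousWithinAt
  refine ge_of_tendsto h1 ?_
  filter_upwards [Ioo_mem_nhdsGT hδ] with r hr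
  refine le_trans (measure_mono ?_) (h r (lt_of_le_of_lt hD hr.1) hr.2)
  intro y hy
  exact Metric.mem_ball.2 (lt_of_le_of_lt (hU y hy) hr.1)

theorem dens_part {m : Measure (X d)} {F : Set (X d)} {δ t : ℝ} (hδ : 0 < δ) (ht : 0 ≤ t)
    (hF : μH[(d : ℝ)] F < ∞)
    (h : ∀ x ∈ F, ∀ r : ℝ, 0 < r → r < δ → m (Metric.ball x r) ≤ ENNReal.ofReal (t * r ^ d)) :
    m F ≤ ENNReal.ofReal t * (μH[(d : ℝ)] F + 1) := by
  have h1 : (⨅ (u : ℕ → Set (X d)) (_ : F ⊆ ⋃ n, u n) (_ : ∀ n, Metric.ediam (u n) ≤ ENNReal.ofReal (δ / 2)),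
      ∑' n, ⨆ _ : (u n).Nonempty, Metric.ediam (u n) ^ (d : ℝ)) < μH[(d : ℝ)] F + 1 := by
    refine lt_of_le_of_lt ?_ (ENNReal.lt_add_right hF.ne one_ne_zero)
    rw [Measure.hausdorffMeasure_apply]
    exact le_iSup₂_of_le (ENNReal.ofReal (δ / 2)) (ENNReal.ofReal_pos.2 (by linarith)) le_rfl
  simp only [iInf_lt_iff] at h1
  obtain ⟨u, hu1, hu2, hu3⟩ := h1
  have key : ∀ n, m (F ∩ u n) ≤ ENNReal.ofReal t * ⨆ _ : (u n).Nonempty, Metric.ediam (u n) ^ (d : ℝ) := by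
    intro n
    rcases (F ∩ u n).eq_empty_or_nonempty with h0 | ⟨x, hxF, hxu⟩
    · rw [h0, measure_empty]
      exact zero_le
    · have hne : (u n).Nonempty := ⟨x, hxu⟩
      rw [iSup_pos hne]
      set D : ℝ := (Metric.ediam (u n)).toReal with hD
      have hfin : Metric.ediam (u n) ≠ ∞ := ne_top_of_le_ne_top ENNReal.ofReal_ne_top (hu2 n)
      have hDδ : D < δ := by
        have h2 : D ≤ δ / 2 := by
          rw [hD]
          exact ENNReal.toReal_le_of_le_ofReal (by linarith) (hu2 n)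
        linarith
      have hdist : ∀ y ∈ F ∩ u n, dist y x ≤ D := by
        rintro y ⟨_, hy⟩
        rw [hD, dist_edist]
        exact ENNReal.toReal_mono hfin (Metric.edist_le_ediam_of_mem hy hxu)
      have h3 := dens_ball (m := m) ENNReal.toReal_nonneg hDδ hdist (h x hxF)
      refine h3.trans (le_of_eq ?_)
      rw [ENNReal.ofReal_mul ht, ENNReal.ofReal_pow ENNReal.toReal_nonneg, ENNReal.ofReal_toReal hfin,
        ENNReal.rpow_natCast]
  calc m F ≤ m (⋃ n, F ∩ u n) := by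
        refine measure_mono ?_
        rw [← inter_iUnion]
        exact subset_inter le_rfl hu1
    _ ≤ ∑' n, m (F ∩ u n) := measure_iUnion_le _
    _ ≤ ∑' n, ENNReal.ofReal t * ⨆ _ : (u n).Nonempty, Metric.ediam (u n) ^ (d : ℝ) :=
        ENNReal.tsum_le_tsum key
    _ = ENNReal.ofReal t * ∑' n, ⨆ _ : (u n).Nonempty, Metric.ediam (u n) ^ (d : ℝ) := ENNReal.tsum_mul_left
    _ ≤ ENNReal.ofReal t * (μH[(d : ℝ)] F + 1) := by gcongr

theorem dens_le {m : Measure (X d)} {F : Set (X d)} {t : ℝ} (ht : 0 < t)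
    (hF : μH[(d : ℝ)] F < ∞)
    (h : ∀ x ∈ F, Tendsto (fun r : ℝ => m (Metric.ball x r) / ENNReal.ofReal (r ^ d)) (𝓝[>] 0) (𝓝 0)) :
    m F ≤ ENNReal.ofReal t * (μH[(d : ℝ)] F + 1) := by
  set G : ℕ → Set (X d) := fun j => {x ∈ F | ∀ r : ℝ, 0 < r → r < 1 / ((j : ℝ) + 1) →
    m (Metric.ball x r) ≤ ENNReal.ofReal (t * r ^ d)} with hG
  have hmono : Monotone G := by
    intro i j hij x hx
    refine ⟨hx.1, fun r hr hrj => hx.2 r hr (lt_of_lt_of_le hrj ?_)⟩
    exact one_div_le_one_div_of_le (by positivity) (by gcongr)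
  have hU : F = ⋃ j, G j := by
    refine Subset.antisymm ?_ (iUnion_subset fun j x hx => hx.1)
    intro x hx
    have h1 := (h x hx).eventually (gt_mem_nhds (ENNReal.ofReal_pos.2 ht))
    rw [eventually_iff, mem_nhdsGT_iff_exists_Ioo_subset] at h1
    obtain ⟨a, ha, hsub⟩ := h1
    obtain ⟨j, hj⟩ := exists_nat_one_div_lt (mem_Ioi.1 ha)
    refine mem_iUnion.2 ⟨j, hx, fun r hr hrj => ?_⟩
    have h2 : m (Metric.ball x r) / ENNReal.ofReal (r ^ d) < ENNReal.ofReal t :=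
      hsub (⟨hr, hrj.trans hj⟩ : r ∈ Ioo 0 a)
    have h3 := (ENNReal.div_le_iff (ENNReal.ofReal_pos.2 (pow_pos hr d)).ne' ENNReal.ofReal_ne_top).1 h2.le
    rwa [← ENNReal.ofReal_mul ht.le] at h3
  have hle : ∀ j, m (G j) ≤ ENNReal.ofReal t * (μH[(d : ℝ)] F + 1) := by
    intro j
    have hsub : G j ⊆ F := fun x hx => hx.1
    have h1 := dens_part (m := m) (F := G j) (δ := 1 / ((j : ℝ) + 1)) (by positivity) ht.le
      (lt_of_le_of_lt (measure_mono hsub) hF) (fun x hx => hx.2)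
    refine h1.trans ?_
    gcongr
  rw [hU, hmono.measure_iUnion, ← hU]
  exact iSup_le hle

theorem null_of_density {m : Measure (X d)} [IsFiniteMeasure m] {F : Set (X d)}
    (hF : μH[(d : ℝ)] F < ∞)
    (h : ∀ x ∈ F, Tendsto (fun r : ℝ => m (Metric.ball x r) / ENNReal.ofReal (r ^ d)) (𝓝[>] 0) (𝓝 0)) :
    m F = 0 := by
  have hfin : μH[(d : ℝ)] F + 1 ≠ ∞ := ENNReal.add_ne_top.2 ⟨hF.ne, ENNReal.one_ne_top⟩
  have h1 : Tendsto (fun t : ℝ => ENNReal.ofReal t * (μH[(d : ℝ)] F + 1)) (𝓝[>] 0)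
      (𝓝 (ENNReal.ofReal 0 * (μH[(d : ℝ)] F + 1))) := by
    refine ENNReal.Tendsto.mul_const ?_ (Or.inr hfin)
    exact ENNReal.continuous_ofReal.continuousWithinAt
  rw [ENNReal.ofReal_zero, zero_mul] at h1
  refine le_antisymm (ge_of_tendsto h1 ?_) zero_le
  filter_upwards [self_mem_nhdsWithin] with t ht
  exact dens_le ht hF h

end BDJ
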