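import Pool.Agent.BDJ.Content
import Pool.Agent.BDJ.Density
import Pool.Agent.BDJ.ApproxCont

/-!
# The main theorem on `X d` (row FINX)

`Su \ Th ⊆ ⋃_n (SOsc S Ω u (1/(n+1)) \ Th)` by `approx_cont`. For `F = SOsc S Ω u lam \ Th Ω m`: `μH[d] F ≤ μH[d] (SOsc ∩ Ω) ≤ (C/lam) m Ω < ∞`; `null_of_density` gives `m F = 0`; for every open `W ⊇ F` (replace by `W ∩ Ω`),
`μH[d] F ≤ (C/lam) m W`, and by outer regularity of the finite measure `m` the infimum over `W` of `m W` is `m F = 0`. So `μH[d] F = 0`.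
-/

open MeasureTheory Set Filter
open scoped ENNReal NNReal Topology

namespace BDJ

variable {d : ℕ} {V : Type*} [NormedAddCommGroup V] [NormedSpace ℝ V] [FiniteDimensional ℝ V]

theorem finx_one (S : Slicing d V) {Ω : Set (X d)} {u : X d → V} {m : Measure (X d)} (hu : SBV S Ω u m) {lam : ℝ} (hlam : 0 < lam) :
    μH[(d : ℝ)] (SOsc S Ω u lam \ Th Ω m) = 0 := by
  obtain ⟨C, hC⟩ := hausdorff_osc S
  have hfin : IsFiniteMeasure m := hu.fin
  set c : ℝ≥0∞ := (C : ℝ≥0∞) / ENNReal.ofReal lam with hc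
  have hctop : c ≠ ∞ := by
    rw [hc]
    exact ENNReal.div_ne_top ENNReal.coe_ne_top (ENNReal.ofReal_pos.2 hlam).ne'
  set F : Set (X d) := SOsc S Ω u lam \ Th Ω m with hFdef
  have hFΩ : F ⊆ Ω := fun x hx => hx.1.1
  have h1 : μH[(d : ℝ)] F ≤ c * m Ω := by
    refine le_trans (measure_mono ?_) (hC hu lam hlam Ω hu.isOpen (le_refl _))
    intro x hx
    exact ⟨hx.1, hFΩ hx⟩
  have h2 : μH[(d : ℝ)] F < ∞ :=
    lt_of_le_of_lt h1 (ENNReal.mul_lt_top hctop.lt_top (measure_lt_top m Ω))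
  have h3 : m F = 0 := by
    refine null_of_density h2 ?_
    intro x hx
    by_contra hno
    exact hx.2 ⟨hFΩ hx, hno⟩
  have h4 : ∀ n : ℕ, μH[(d : ℝ)] F ≤ c * ((n : ℝ≥0∞)⁻¹) := by
    intro n
    have hε : ((n : ℝ≥0∞)⁻¹) ≠ 0 := ENNReal.inv_ne_zero.2 (ENNReal.natCast_ne_top n)
    obtain ⟨W, hFW, hWo, hW⟩ := F.exists_isOpen_le_add m hε
    rw [h3, zero_add] at hW
    have h5 := hC hu lam hlam (W ∩ Ω) (hWo.inter hu.isOpen) inter_subset_right
    refine le_trans (measure_mono ?_) (h5.trans ?_)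
    · intro x hx
      exact ⟨hx.1, hFW hx, hFΩ hx⟩
    · exact mul_le_mul_right ((measure_mono inter_subset_left).trans hW) _
  have h6 : Tendsto (fun n : ℕ => c * ((n : ℝ≥0∞)⁻¹)) atTop (𝓝 (c * 0)) :=
    ENNReal.Tendsto.const_mul ENNReal.tendsto_inv_nat_nhds_zero (Or.inr hctop)
  rw [mul_zero] at h6
  exact le_antisymm (ge_of_tendsto' h6 h4) zero_le

theorem main_X (S : Slicing d V) {Ω : Set (X d)} {u : X d → V} {m : Measure (X d)} (hu : SBV S Ω u m) : μH[(d : ℝ)] (Su Ω u \ Th Ω m) = 0 := by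
  have hsub : Su Ω u \ Th Ω m ⊆ ⋃ n : ℕ, (SOsc S Ω u (1 / ((n : ℝ) + 1)) \ Th Ω m) := by
    intro x hx
    have hxΩ : x ∈ Ω := hx.1.1
    by_contra hno
    rw [mem_iUnion] at hno
    push Not at hno
    refine approx_cont S hu hxΩ hx.2 ?_ hx.1
    intro lam hlam hmem
    obtain ⟨n, hn⟩ := exists_nat_one_div_lt hlam
    apply hno n
    refine ⟨⟨hxΩ, ?_⟩, hx.2⟩
    intro k0
    obtain ⟨k, K, h1, h2, y, hy, h3⟩ := hmem.2 k0
    exact ⟨k, K, h1, h2, y, hy, hn.trans h3⟩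
  refine measure_mono_null hsub ?_
  rw [measure_iUnion_null_iff]
  intro n
  exact finx_one S hu (by positivity)

end BDJ
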