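import Pool.Agent.BDJ.GridB

/-!
# Integrals of ray masses (row RAY)

`ray_int`: for a fixed direction `v` with `v 0 = 1` and a cube `b = cube 0 k i`,
`∫_{w ∈ b} (∫_0^L g(w + s v) ds + ∫_0^L g(w - s v) ds) dw ≤ side(b) * ∫ g`. Proof (Tonelli, translation invariance `z = w + s v`):
the left side is (up to the null set `s = 0`) `∫_{s ∈ [-L,L]} ∫_z 1_b(z - s v) g(z) = ∫_z g(z) * |{s ∈ [-L,L] : z - s v ∈ b}|`, and
`{s : z - s v ∈ b}` is contained in `{s : (z - s v) 0 ∈ an interval of length sd k}`, of length at most `sd k` since `v 0 = 1`.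

`short_int`: for any measurable `A`: for each `s`, `∫_{w ∈ A} g(w + s v) dw ≤ ∫ g`; integrate over `s ∈ [-L, L]`.
`measurable_rm`: joint measurability of `(w, v) ↦ rm h ℓ w v` (`Measurable.lintegral_prod_right'`).
-/

open MeasureTheory Set
open scoped ENNReal

namespace BDJ

variable {d : ℕ}

theorem measurable_rm {h : X d → ℝ≥0∞} (hh : Measurable h) (ℓ : ℝ) :
    Measurable fun p : X d × X d => rm h ℓ p.1 p.2 := by
  have h1 : Measurable fun q : (X d × X d) × ℝ => h (q.1.1 + q.2 • q.1.2) := by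
    apply hh.comp
    fun_prop
  exact h1.lintegral_prod_right' (ν := volume.restrict (Icc 0 ℓ))

theorem ray_meas_line {g : X d → ℝ≥0∞} (hg : Measurable g) (v : X d) :
    Measurable fun p : X d × ℝ => g (p.1 + p.2 • v) := by
  apply hg.comp
  fun_prop

/-- the two half-rays are bounded by the whole line -/
theorem ray_line {g : X d → ℝ≥0∞} (hg : Measurable g) (w v : X d) (L : ℝ) :
    rm g L w v + rm g L w (-v) ≤ ∫⁻ s : ℝ, g (w + s • v) := by
  have hf : Measurable fun s : ℝ => g (w + s • v) := by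
    apply hg.comp
    fun_prop
  have h1 : rm g L w v ≤ ∫⁻ s in (Iio (0 : ℝ))ᶜ, g (w + s • v) := by
    rw [compl_Iio]
    exact lintegral_mono_set Icc_subset_Ici_self
  have h2 : rm g L w (-v) ≤ ∫⁻ s in Iio (0 : ℝ), g (w + s • v) := by
    have e1 : rm g L w (-v) = ∫⁻ s in Ioc 0 L, g (w + s • (-v)) := by
      rw [rm]
      exact setLIntegral_congr Ioc_ae_eq_Icc.symm
    have e2 : ∫⁻ s in Ioc 0 L, g (w + s • (-v)) ≤ ∫⁻ s in Ioi (0 : ℝ), g (w + s • (-v)) :=
      lintegral_mono_set Ioc_subset_Ioi_self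
    have e3 : ∫⁻ s in Ioi (0 : ℝ), g (w + s • (-v)) = ∫⁻ s in Iio (0 : ℝ), g (w + s • v) := by
      rw [← lintegral_indicator measurableSet_Ioi, ← lintegral_indicator measurableSet_Iio,
        ← lintegral_neg_eq_self (μ := volume) ((Iio (0 : ℝ)).indicator fun s => g (w + s • v))]
      congr 1
      ext s
      by_cases hs : 0 < s
      · have hs' : -s ∈ Iio (0 : ℝ) := by simpa using hs
        rw [indicator_of_mem (show s ∈ Ioi (0 : ℝ) from hs), indicator_of_mem hs', smul_neg, neg_smul]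
      · have hs' : -s ∉ Iio (0 : ℝ) := by simpa using hs
        rw [indicator_of_notMem (show s ∉ Ioi (0 : ℝ) from hs), indicator_of_notMem hs']
    rw [e1]
    exact e2.trans e3.le
  calc rm g L w v + rm g L w (-v) ≤
      (∫⁻ s in (Iio (0 : ℝ))ᶜ, g (w + s • v)) + (∫⁻ s in Iio (0 : ℝ), g (w + s • v)) :=
        add_le_add h1 h2
    _ = (∫⁻ s in Iio (0 : ℝ), g (w + s • v)) + (∫⁻ s in (Iio (0 : ℝ))ᶜ, g (w + s • v)) :=
        add_comm _ _
    _ = ∫⁻ s : ℝ, g (w + s • v) := lintegral_add_compl _ measurableSet_Iio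

/-- the times spent in the cube -/
theorem ray_time (k : ℕ) (i : Idx d) (v : X d) (hv : v 0 = 1) (z : X d) :
    ∫⁻ s : ℝ, (cube 0 k i).indicator (1 : X d → ℝ≥0∞) (z - s • v) ≤ ENNReal.ofReal (sd k) := by
  have h1 : ∀ s : ℝ, (cube 0 k i).indicator (1 : X d → ℝ≥0∞) (z - s • v) ≤
      (Ioc (z 0 - (i 0 + 1) * sd k) (z 0 - i 0 * sd k)).indicator (1 : ℝ → ℝ≥0∞) s := by
    intro s
    by_cases hs : z - s • v ∈ cube 0 k i
    · have h2 := hs 0
      simp only [Pi.zero_apply, zero_add, Pi.sub_apply, Pi.smul_apply, hv, smul_eq_mul,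
        mul_one] at h2
      rw [indicator_of_mem hs, indicator_of_mem]
      · rfl
      · constructor <;> linarith [h2.1, h2.2]
    · rw [indicator_of_notMem hs]
      exact zero_le
  refine (lintegral_mono h1).trans ?_
  rw [lintegral_indicator_one measurableSet_Ioc, Real.volume_Ioc]
  apply ENNReal.ofReal_le_ofReal
  linarith

theorem ray_int {g : X d → ℝ≥0∞} (hg : Measurable g) (k : ℕ) (i : Idx d) (v : X d) (hv : v 0 = 1)
    {L : ℝ} (hL : 0 ≤ L) :
    ∫⁻ w in cube 0 k i, (rm g L w v + rm g L w (-v)) ≤ ENNReal.ofReal (sd k) * ∫⁻ x, g x := by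
  have hb := measurableSet_cube (0 : X d) k i
  have hm := ray_meas_line hg v
  have h1 : ∫⁻ w in cube 0 k i, (rm g L w v + rm g L w (-v)) ≤
      ∫⁻ w in cube 0 k i, ∫⁻ s : ℝ, g (w + s • v) :=
    lintegral_mono fun w => ray_line hg w v L
  have h2 : ∫⁻ w in cube 0 k i, ∫⁻ s : ℝ, g (w + s • v) =
      ∫⁻ s : ℝ, ∫⁻ w in cube 0 k i, g (w + s • v) :=
    lintegral_lintegral_swap hm.aemeasurable
  have h3 : ∀ s : ℝ, ∫⁻ w in cube 0 k i, g (w + s • v) =
      ∫⁻ z, (cube 0 k i).indicator (1 : X d → ℝ≥0∞) (z - s • v) * g z := by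
    intro s
    rw [← lintegral_indicator hb]
    rw [← lintegral_add_right_eq_self (μ := volume)
      (fun z => (cube 0 k i).indicator (1 : X d → ℝ≥0∞) (z - s • v) * g z) (s • v)]
    congr 1
    ext w
    rw [add_sub_cancel_right]
    by_cases hw : w ∈ cube 0 k i
    · rw [indicator_of_mem hw, indicator_of_mem hw, Pi.one_apply, one_mul]
    · rw [indicator_of_notMem hw, indicator_of_notMem hw, zero_mul]
  have hm2 : Measurable fun p : ℝ × X d =>
      (cube 0 k i).indicator (1 : X d → ℝ≥0∞) (p.2 - p.1 • v) * g p.2 := by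
    refine Measurable.mul ?_ (hg.comp measurable_snd)
    refine (measurable_one.indicator hb).comp ?_
    fun_prop
  have h4 : ∫⁻ s : ℝ, ∫⁻ z, (cube 0 k i).indicator (1 : X d → ℝ≥0∞) (z - s • v) * g z =
      ∫⁻ z, ∫⁻ s : ℝ, (cube 0 k i).indicator (1 : X d → ℝ≥0∞) (z - s • v) * g z :=
    lintegral_lintegral_swap hm2.aemeasurable
  calc ∫⁻ w in cube 0 k i, (rm g L w v + rm g L w (-v)) ≤
      ∫⁻ w in cube 0 k i, ∫⁻ s : ℝ, g (w + s • v) := h1
    _ = ∫⁻ s : ℝ, ∫⁻ w in cube 0 k i, g (w + s • v) := h2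
    _ = ∫⁻ s : ℝ, ∫⁻ z, (cube 0 k i).indicator (1 : X d → ℝ≥0∞) (z - s • v) * g z :=
        lintegral_congr h3
    _ = ∫⁻ z, ∫⁻ s : ℝ, (cube 0 k i).indicator (1 : X d → ℝ≥0∞) (z - s • v) * g z := h4
    _ ≤ ∫⁻ z, ENNReal.ofReal (sd k) * g z := by
        apply lintegral_mono
        intro z
        have hm3 : Measurable fun s : ℝ =>
            (cube 0 k i).indicator (1 : X d → ℝ≥0∞) (z - s • v) := by
          refine (measurable_one.indicator hb).comp ?_
          fun_prop
        simp only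
        rw [lintegral_mul_const _ hm3]
        exact mul_le_mul_left (ray_time k i v hv z) (g z)
    _ = ENNReal.ofReal (sd k) * ∫⁻ x, g x := lintegral_const_mul _ hg

theorem short_int {g : X d → ℝ≥0∞} (hg : Measurable g) (v : X d) {L : ℝ} (hL : 0 ≤ L)
    {A : Set (X d)} (hA : MeasurableSet A) :
    ∫⁻ w in A, (rm g L w v + rm g L w (-v)) ≤ ENNReal.ofReal (2 * L) * ∫⁻ x, g x := by
  have key : ∀ u : X d, ∫⁻ w in A, rm g L w u ≤ ENNReal.ofReal L * ∫⁻ x, g x := by
    intro u
    calc ∫⁻ w in A, rm g L w u ≤ ∫⁻ w, rm g L w u := setLIntegral_le_lintegral _ _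
      _ = ∫⁻ s in Icc 0 L, ∫⁻ w, g (w + s • u) :=
          lintegral_lintegral_swap (ray_meas_line hg u).aemeasurable
      _ = ∫⁻ s in Icc 0 L, ∫⁻ w, g w := by
          apply lintegral_congr
          intro s
          exact lintegral_add_right_eq_self g (s • u)
      _ = ENNReal.ofReal L * ∫⁻ x, g x := by
          rw [setLIntegral_const, Real.volume_Icc, sub_zero, mul_comm]
  have hm : Measurable fun w : X d => rm g L w v := by
    have := measurable_rm hg L
    exact this.comp (measurable_id.prodMk measurable_const)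
  rw [lintegral_add_left hm]
  refine (add_le_add (key v) (key (-v))).trans ?_
  rw [two_mul, ENNReal.ofReal_add hL hL, add_mul]

/-- `rm` is monotone in the length -/
theorem rm_mono (h : X d → ℝ≥0∞) {ℓ ℓ' : ℝ} (hl : ℓ ≤ ℓ') (w v : X d) :
    rm h ℓ w v ≤ rm h ℓ' w v := by
  exact lintegral_mono_set (Icc_subset_Icc_right hl)

/-- if the segment avoids `O` then the mass of `h` equals the mass of `h` restricted to the complement -/
theorem rm_congr {h g : X d → ℝ≥0∞} {ℓ : ℝ} {w v : X d}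
    (H : ∀ s ∈ Icc 0 ℓ, h (w + s • v) = g (w + s • v)) : rm h ℓ w v = rm g ℓ w v := by
  exact setLIntegral_congr_fun measurableSet_Icc H

end BDJ
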