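import Pool.Agent.BDJ.Sl
import Pool.Agent.BDJ.Sel
import Pool.Agent.BDJ.RayInt
import Pool.Agent.BDJ.Shear

/-!
# A rigid map fits `u` on most of a sparse sub-cube (row FIT)

`b = (k+a, i)` sparse sub-cube of `(k,j)`, lower corner `cb = (i c * l)`, `l = sd (k+a)`, `ρ = sd k`, `n = d+1`, `M = slopes d`, `𝒩 = Nall ν t (k+a+5)`, `μ = volume.withDensity h`.

Base cubes. `o = cb - 3 l e_0` (the cube `o + l [0,1]^n` lies three sides below `b`); `B_β` = closed cube with centre `o + l * z0 β` and half-side `δ l`, `β : Fin nb`. They lie in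
`big 4 0 (k+a) i`. For `x ∈ b`, `y ∈ B_β` : `z = x - y` has `2 l < z 0 < 4 l` and `|z c| ≤ l` for `c ≠ 0` (so `z = s • dir m`, `m ∈ M`, `0 < s ≤ 6 l`); for `rel β β'`, `y ∈ B_β`, `y' ∈ B_β'`:
`|y c - y' c| ≤ |y 0 - y' 0| ≤ l` for all `c` (`rel_cone`, scaled), so `y - y' = s • dir m` with `m ∈ M`, `0 < |s| ≤ l`, except when `y = y'` (null set of pairs, or trivially fine).

Bad set. `Bad ⊆ X × Y`: the set of `(w,m)`, `w ∈ big 4 0 (k+a) i`, `m ∈ M`, such that the short segment `w + [-6l,6l] dir m` meets `𝒩`, or the mass of `h 1_{big 3 Q \ 𝒩}` on it (`rm` forward plus `rm` backward, length `6 l`)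
exceeds `K1 F`. The first part has measure `≤ η0 l^n` (sparse); the second, by `short_int` and Markov, `≤ 2^d * 12 l * μ(big 3 Q \ 𝒩)/(K1 F) ≤ η0 l^n` if
`K1 = 12 * 2^d * 2^(a d) / η0` (use `Nge ⊆ Nall`, so `μ(big 3 Q \ 𝒩) ≤ Floc * ρ^d ≤ F ρ^d`, and `l^d = 2^(-a d) ρ^d`). If `(w,m)` is not bad, the short segment is
in `big 3 Q \ 𝒩` (`a ≥ 3`) and its mass is `≤ K1 F`, so for `|s| ≤ 6 l`, `|e i (s dir m) (u(w + s dir m) - u w)| ≤ |s|^deg C0 K1 F ≤ (6 l)^deg C0 K1 F`.
Pairs `(w, w')` with `w ∈ big 4 0 (k+a) i`, `w' = w + s dir m`, `0 < |s| ≤ 6 l`, `(w,m)` bad: measure `≤ 2 (6l)^n vp(Bad) ≤ 2 * 6^n l^n 2 η0 l^n` by `polar` for each fixed `w` (and its reflection).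
Compared with `|b| |B_β| = l^n (2 δ l)^n` and `|B_β| |B_β'|`, the fraction is `≤ C(S) η0 =: ς'`, as small as we want.

Selection (`sel`, `N = nb`): unary bad sets = {y ∈ B_β : the bad `x ∈ b` for `y` have measure > sqrt(ς') |b|} (measure `≤ sqrt(ς') |B_β|`; pairs taken as `w = y`, `w' = x`), binary bad sets = the bad pairs for `rel β β'` (empty otherwise). So there are
`y β ∈ B_β` with all related pairs good, and all `x ∈ b` except a set of measure `≤ nb sqrt(ς') |b| ≤ ς |b|` good with all the `y β`. Apply `S.la` with `U β = u (y β)`,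
`D = B = 6^deg C0 K1 F`: `‖u x - p x‖ ≤ 2 CL D` for the good `x` (`‖x - o‖ ≤ 4 l`). So `K = 2 |CL| 6^deg C0 K1 + 1` works.
-/

open MeasureTheory Set
open scoped ENNReal NNReal

namespace BDJ

variable {d : ℕ} {V : Type*} [NormedAddCommGroup V] [NormedSpace ℝ V] [FiniteDimensional ℝ V]

/-- the slope of a vector -/
noncomputable def fitSl (z : X d) : Y d := fun c => z c.succ / z 0

theorem fit_smul_dir {z : X d} (h : z 0 ≠ 0) : z 0 • dir (fitSl z) = z := by
  funext c
  refine Fin.cases ?_ (fun c => ?_) c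
  · rw [Pi.smul_apply, dir_zero, smul_eq_mul, mul_one]
  · rw [Pi.smul_apply, dir_succ, smul_eq_mul, fitSl, mul_div_cancel₀ _ h]

theorem fit_sl_mem {z : X d} (h : z 0 ≠ 0) (hz : ∀ c, |z c| ≤ |z 0|) : fitSl z ∈ slopes d := by
  have h0 : 0 < |z 0| := abs_pos.2 h
  rw [slopes, Set.mem_Icc]
  have h1 : ∀ c, |fitSl z c| ≤ 1 := fun c => by
    unfold fitSl
    rw [abs_div, div_le_one h0]
    exact hz _
  exact ⟨fun c => (abs_le.1 (h1 c)).1, fun c => (abs_le.1 (h1 c)).2⟩

theorem fit_sl_smul {s : ℝ} (hs : s ≠ 0) (m : Y d) : fitSl (s • dir m) = m := by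
  funext c
  rw [fitSl, Pi.smul_apply, Pi.smul_apply, dir_zero, dir_succ, smul_eq_mul, smul_eq_mul, mul_one,
    mul_div_cancel_left₀ _ hs]

theorem fit_sl_neg (z : X d) : fitSl (-z) = fitSl z := by
  funext c
  rw [fitSl, fitSl, Pi.neg_apply, Pi.neg_apply, neg_div_neg_eq]

theorem fit_measurable_sl : Measurable (fitSl : X d → Y d) := by
  unfold fitSl
  exact measurable_pi_lambda _ fun c => (measurable_pi_apply _).div (measurable_pi_apply _)

theorem fit_half {A : Set (Y d)} (hA : MeasurableSet A) {L : ℝ} (hL : 0 ≤ L) :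
    volume {z : X d | 0 < z 0 ∧ z 0 ≤ L ∧ fitSl z ∈ A} ≤
      ENNReal.ofReal (L ^ (d + 1)) * volume A := by
  have hm1 : MeasurableSet {z : X d | z 0 ≤ L ∧ fitSl z ∈ A} :=
    ((measurable_pi_apply 0) measurableSet_Iic).inter (fit_measurable_sl hA)
  set f : X d → ℝ≥0∞ := {z : X d | z 0 ≤ L ∧ fitSl z ∈ A}.indicator 1 with hf
  have hfm : Measurable f := measurable_one.indicator hm1
  have e1 : volume {z : X d | 0 < z 0 ∧ z 0 ≤ L ∧ fitSl z ∈ A} =
      ∫⁻ z in {z : X d | 0 < z 0}, f z := by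
    rw [hf, lintegral_indicator_one hm1, Measure.restrict_apply hm1]
    congr 1
    ext z
    simp only [Set.mem_inter_iff, Set.mem_ofPred_eq]
    tauto
  have e2 : ∀ s ∈ Ioi (0 : ℝ), ENNReal.ofReal (s ^ d) * ∫⁻ m : Y d, f (s • dir m) ≤
      (Ioc (0 : ℝ) L).indicator (fun _ => ENNReal.ofReal (L ^ d) * volume A) s := by
    intro s hs
    have hs0 : 0 < s := hs
    by_cases hsL : s ≤ L
    · rw [Set.indicator_of_mem (show s ∈ Ioc (0 : ℝ) L from ⟨hs0, hsL⟩)]
      have e3 : ∫⁻ m : Y d, f (s • dir m) ≤ volume A := by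
        rw [← lintegral_indicator_one hA]
        refine lintegral_mono fun m => ?_
        by_cases hm : m ∈ A
        · rw [Set.indicator_of_mem hm, hf]
          exact Set.indicator_le_self' (fun _ _ => zero_le) _
        · rw [hf, Set.indicator_of_notMem]
          · exact zero_le
          · rintro ⟨-, h2⟩
            rw [fit_sl_smul hs0.ne'] at h2
            exact hm h2
      gcongr
    · have e3 : ∫⁻ m : Y d, f (s • dir m) = 0 := by
        rw [lintegral_eq_zero_of_ae_eq_zero]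
        refine Filter.Eventually.of_forall fun m => ?_
        show f (s • dir m) = 0
        rw [hf, Set.indicator_of_notMem]
        · rintro ⟨h1, -⟩
          rw [Pi.smul_apply, dir_zero, smul_eq_mul, mul_one] at h1
          exact hsL h1
      rw [e3, mul_zero]
      exact zero_le
  rw [e1, polar hfm]
  calc ∫⁻ s in Ioi (0 : ℝ), ENNReal.ofReal (s ^ d) * ∫⁻ m : Y d, f (s • dir m)
      ≤ ∫⁻ s in Ioi (0 : ℝ), (Ioc (0 : ℝ) L).indicator
          (fun _ => ENNReal.ofReal (L ^ d) * volume A) s :=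
        setLIntegral_mono' measurableSet_Ioi e2
    _ ≤ ∫⁻ s, (Ioc (0 : ℝ) L).indicator (fun _ => ENNReal.ofReal (L ^ d) * volume A) s :=
        setLIntegral_le_lintegral _ _
    _ = ENNReal.ofReal (L ^ d) * volume A * ENNReal.ofReal L := by
        rw [lintegral_indicator measurableSet_Ioc, setLIntegral_const, Real.volume_Ioc, sub_zero]
    _ = _ := by
        rw [pow_succ, ENNReal.ofReal_mul (pow_nonneg hL d)]
        ring

/-- the bad pairs of points -/
def fitP (B : Set (X d × Y d)) (L : ℝ) : Set (X d × X d) :=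
  {q | (q.2 - q.1) 0 ≠ 0 ∧ |(q.2 - q.1) 0| ≤ L ∧ (q.1, fitSl (q.2 - q.1)) ∈ B}

theorem fit_measurable_P {B : Set (X d × Y d)} (hB : MeasurableSet B) (L : ℝ) :
    MeasurableSet (fitP B L) := by
  have h1 : Measurable fun q : X d × X d => (q.2 - q.1) 0 :=
    (measurable_pi_apply 0).comp (measurable_snd.sub measurable_fst)
  have h2 : Measurable fun q : X d × X d => (q.1, fitSl (q.2 - q.1)) :=
    measurable_fst.prodMk (fit_measurable_sl.comp (measurable_snd.sub measurable_fst))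
  exact (h1 (measurableSet_singleton 0).compl).inter ((h1.abs measurableSet_Iic).inter (h2 hB))

theorem fit_full {A : Set (Y d)} (hA : MeasurableSet A) {L : ℝ} (hL : 0 ≤ L) :
    volume {z : X d | z 0 ≠ 0 ∧ |z 0| ≤ L ∧ fitSl z ∈ A} ≤
      2 * ENNReal.ofReal (L ^ (d + 1)) * volume A := by
  have h1 : {z : X d | z 0 ≠ 0 ∧ |z 0| ≤ L ∧ fitSl z ∈ A} ⊆
      {z : X d | 0 < z 0 ∧ z 0 ≤ L ∧ fitSl z ∈ A} ∪
      (fun z => -z) ⁻¹' {z : X d | 0 < z 0 ∧ z 0 ≤ L ∧ fitSl z ∈ A} := by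
    rintro z ⟨h0, h2, h3⟩
    rcases lt_or_gt_of_ne h0 with h4 | h4
    · right
      refine ⟨?_, ?_, ?_⟩
      · show 0 < -z 0
        linarith
      · show -z 0 ≤ L
        rw [abs_of_neg h4] at h2
        exact h2
      · show fitSl (-z) ∈ A
        rw [fit_sl_neg]
        exact h3
    · left
      rw [abs_of_pos h4] at h2
      exact ⟨h4, h2, h3⟩
  have hm : MeasurableSet {z : X d | 0 < z 0 ∧ z 0 ≤ L ∧ fitSl z ∈ A} :=
    ((measurable_pi_apply 0) measurableSet_Ioi).inter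
      (((measurable_pi_apply 0) measurableSet_Iic).inter (fit_measurable_sl hA))
  have h2 : volume ((fun z : X d => -z) ⁻¹' {z : X d | 0 < z 0 ∧ z 0 ≤ L ∧ fitSl z ∈ A}) =
      volume {z : X d | 0 < z 0 ∧ z 0 ≤ L ∧ fitSl z ∈ A} :=
    (Measure.measurePreserving_neg (volume : Measure (X d))).measure_preimage hm.nullMeasurableSet
  calc _ ≤ _ := measure_mono h1
    _ ≤ _ := measure_union_le _ _
    _ ≤ ENNReal.ofReal (L ^ (d + 1)) * volume A + ENNReal.ofReal (L ^ (d + 1)) * volume A := by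
        rw [h2]
        exact add_le_add (fit_half hA hL) (fit_half hA hL)
    _ = _ := by ring

theorem fit_P_measure {B : Set (X d × Y d)} (hB : MeasurableSet B) {L : ℝ} (hL : 0 ≤ L) :
    ((volume : Measure (X d)).prod volume) (fitP B L) ≤
      2 * ENNReal.ofReal (L ^ (d + 1)) * vp d B := by
  rw [Measure.prod_apply (fit_measurable_P hB L), vp, Measure.prod_apply hB,
    ← lintegral_const_mul _ (measurable_measure_prodMk_left hB)]
  refine lintegral_mono fun w => ?_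
  have e1 : Prod.mk w ⁻¹' fitP B L =
      (fun w' => w' - w) ⁻¹' {z : X d | z 0 ≠ 0 ∧ |z 0| ≤ L ∧ fitSl z ∈ Prod.mk w ⁻¹' B} := by
    ext w'
    rfl
  have hA : MeasurableSet (Prod.mk w ⁻¹' B) := measurable_prodMk_left hB
  simp only [sub_eq_add_neg] at e1
  rw [e1, measure_preimage_add_right]
  exact fit_full hA hL

/-- the density restricted to the free part of `big 3` -/
noncomputable def fitG (h : X d → ℝ≥0∞) (ν : Measure (X d)) (t : ℝ≥0∞) (a k : ℕ) (j : Idx d) :
    X d → ℝ≥0∞ := (big 3 0 k j \ Nall ν t (k + a + 5)).indicator h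

theorem fit_measurable_G {h : X d → ℝ≥0∞} (hh : Measurable h) (ν : Measure (X d)) (t : ℝ≥0∞)
    (a k : ℕ) (j : Idx d) : Measurable (fitG h ν t a k j) :=
  hh.indicator ((measurableSet_big _ _ _ _).diff (isOpen_Nall _ _ _).measurableSet)

/-- the short masses -/
noncomputable def fitF (h : X d → ℝ≥0∞) (ν : Measure (X d)) (t : ℝ≥0∞) (a k : ℕ) (j : Idx d)
    (p : X d × Y d) : ℝ≥0∞ :=
  rm (fitG h ν t a k j) (6 * sd (k + a)) p.1 (dir p.2) +
    rm (fitG h ν t a k j) (6 * sd (k + a)) p.1 (-dir p.2)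

theorem fit_measurable_F {h : X d → ℝ≥0∞} (hh : Measurable h) (ν : Measure (X d)) (t : ℝ≥0∞)
    (a k : ℕ) (j : Idx d) : Measurable (fitF h ν t a k j) := by
  have h1 := measurable_rm (fit_measurable_G hh ν t a k j) (6 * sd (k + a))
  have hd : Measurable (dir : Y d → X d) := continuous_dir.measurable
  exact (h1.comp (measurable_fst.prodMk (hd.comp measurable_snd))).add
    (h1.comp (measurable_fst.prodMk (hd.comp measurable_snd).neg))

/-- the bad pairs (point, slope) -/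
def fitBad (h : X d → ℝ≥0∞) (ν : Measure (X d)) (t : ℝ≥0∞) (a k : ℕ) (j i : Idx d) (T : ℝ≥0∞) :
    Set (X d × Y d) :=
  {p | p.1 ∈ big 4 0 (k + a) i ∧ p.2 ∈ slopes d ∧
      ∃ s ∈ Icc (-(6 * sd (k + a))) (6 * sd (k + a)), p.1 + s • dir p.2 ∈ Nall ν t (k + a + 5)} ∪
  {p | p.1 ∈ big 4 0 (k + a) i ∧ p.2 ∈ slopes d ∧ T ≤ fitF h ν t a k j p}

theorem fit_mass {h : X d → ℝ≥0∞} {ν : Measure (X d)} {t : ℝ≥0∞} {a k : ℕ} {j : Idx d} {F : ℝ}
    (hF : 0 < F) (hl : Floc (volume.withDensity h) ν t a k j ≤ ENNReal.ofReal F) :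
    ∫⁻ x, fitG h ν t a k j x ≤ ENNReal.ofReal (F * sd k ^ d) := by
  have hm : MeasurableSet (big 3 0 k j \ Nall ν t (k + a + 5)) :=
    (measurableSet_big _ _ _ _).diff (isOpen_Nall _ _ _).measurableSet
  have hsd : 0 < sd k ^ d := pow_pos (sd_pos k) d
  unfold fitG
  rw [lintegral_indicator hm, ← withDensity_apply _ hm]
  rw [Floc, ENNReal.div_le_iff (ENNReal.ofReal_pos.2 hsd).ne' ENNReal.ofReal_ne_top,
    ← ENNReal.ofReal_mul hF.le] at hl
  refine le_trans ?_ hl
  refine le_trans (measure_mono (sdiff_subset_sdiff_right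
    (Nge_subset_Nall ν t zero_mem_shifts (k + a + 5)))) ?_
  exact Finset.single_le_sum (f := fun τ => (volume.withDensity h) (big 3 0 k j \ Nge ν t τ (k + a + 5)))
    (fun _ _ => zero_le) zero_mem_shifts

theorem fit_F_int {h : X d → ℝ≥0∞} (hh : Measurable h) (ν : Measure (X d)) (t : ℝ≥0∞)
    (a k : ℕ) (j i : Idx d) :
    ∫⁻ p in (big 4 0 (k + a) i ×ˢ slopes d), fitF h ν t a k j p ∂(vp d) ≤
      ENNReal.ofReal (12 * sd (k + a)) * (∫⁻ x, fitG h ν t a k j x) * 2 ^ d := by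
  rw [vp, ← Measure.prod_restrict, lintegral_prod_symm' _ (fit_measurable_F hh ν t a k j)]
  have hl : 0 ≤ 6 * sd (k + a) := by
    have := sd_pos (k + a)
    linarith
  calc ∫⁻ m in slopes d, ∫⁻ w in big 4 0 (k + a) i, fitF h ν t a k j (w, m)
      ≤ ∫⁻ m in slopes d, ENNReal.ofReal (2 * (6 * sd (k + a))) * ∫⁻ x, fitG h ν t a k j x := by
        refine lintegral_mono fun m => ?_
        exact short_int (fit_measurable_G hh ν t a k j) (dir m) hl (measurableSet_big _ _ _ _)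
    _ = _ := by
        rw [lintegral_const, Measure.restrict_apply MeasurableSet.univ, univ_inter, volume_slopes]
        congr 3
        ring

theorem fit_bad_measure {h : X d → ℝ≥0∞} (hh : Measurable h) {ν : Measure (X d)} {t : ℝ≥0∞}
    {a k : ℕ} {j i : Idx d} {F η : ℝ} (hη : 0 < η) (hF : 0 < F)
    (hl : Floc (volume.withDensity h) ν t a k j ≤ ENNReal.ofReal F)
    (hsp : Sparse ν t a (ENNReal.ofReal η) k i) :
    vp d (fitBad h ν t a k j i (ENNReal.ofReal (12 * 2 ^ d * (2 ^ a) ^ d / η * F))) ≤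
      ENNReal.ofReal (2 * η * sd (k + a) ^ (d + 1)) := by
  set K1 : ℝ := 12 * 2 ^ d * (2 ^ a) ^ d / η with hK1
  have hK1p : 0 < K1 := by positivity
  have hT : 0 < K1 * F := mul_pos hK1p hF
  have hl0 := sd_pos (k + a)
  have hk0 := sd_pos k
  have hA : MeasurableSet (big 4 0 (k + a) i ×ˢ slopes d : Set (X d × Y d)) :=
    (measurableSet_big _ _ _ _).prod measurableSet_slopes
  have h1 := mul_meas_ge_le_lintegral (μ := (vp d).restrict (big 4 0 (k + a) i ×ˢ slopes d))
    (fit_measurable_F hh ν t a k j) (ENNReal.ofReal (K1 * F))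
  have hm2 : MeasurableSet {p : X d × Y d | ENNReal.ofReal (K1 * F) ≤ fitF h ν t a k j p} :=
    measurableSet_le measurable_const (fit_measurable_F hh ν t a k j)
  rw [Measure.restrict_apply hm2] at h1
  have h2 := h1.trans (fit_F_int hh ν t a k j i)
  have h3 := fit_mass hF hl
  have e1 : ENNReal.ofReal (12 * sd (k + a)) * ENNReal.ofReal (F * sd k ^ d) * 2 ^ d =
      ENNReal.ofReal (K1 * F) * ENNReal.ofReal (η * sd (k + a) ^ (d + 1)) := by
    have e2 : (2 : ℝ≥0∞) ^ d = ENNReal.ofReal (2 ^ d) := by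
      rw [ENNReal.ofReal_pow (by norm_num), ENNReal.ofReal_ofNat]
    rw [e2, ← ENNReal.ofReal_mul (by positivity), ← ENNReal.ofReal_mul (by positivity),
      ← ENNReal.ofReal_mul hT.le]
    congr 1
    have e3 : sd (k + a) ^ d * (2 ^ a) ^ d = sd k ^ d := by
      rw [← mul_pow, sd_add, mul_assoc, mul_comm (sd a), two_pow_mul_sd, mul_one]
    rw [hK1, pow_succ, ← e3]
    field_simp
  have h4 : ENNReal.ofReal (K1 * F) * (vp d) ({p : X d × Y d |
      ENNReal.ofReal (K1 * F) ≤ fitF h ν t a k j p} ∩ big 4 0 (k + a) i ×ˢ slopes d) ≤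
      ENNReal.ofReal (K1 * F) * ENNReal.ofReal (η * sd (k + a) ^ (d + 1)) := by
    rw [← e1]
    refine h2.trans ?_
    gcongr
  have h5 := (ENNReal.mul_le_mul_iff_right (ENNReal.ofReal_pos.2 hT).ne'
    ENNReal.ofReal_ne_top).1 h4
  have h6 : {p : X d × Y d | p.1 ∈ big 4 0 (k + a) i ∧ p.2 ∈ slopes d ∧
      ENNReal.ofReal (K1 * F) ≤ fitF h ν t a k j p} ⊆ {p : X d × Y d |
      ENNReal.ofReal (K1 * F) ≤ fitF h ν t a k j p} ∩ big 4 0 (k + a) i ×ˢ slopes d :=
    fun p hp => ⟨hp.2.2, hp.1, hp.2.1⟩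
  have h7 : ENNReal.ofReal η * ENNReal.ofReal (sd (k + a) ^ (d + 1)) =
      ENNReal.ofReal (η * sd (k + a) ^ (d + 1)) := (ENNReal.ofReal_mul hη.le).symm
  calc _ ≤ _ := measure_union_le _ _
    _ ≤ ENNReal.ofReal (η * sd (k + a) ^ (d + 1)) + ENNReal.ofReal (η * sd (k + a) ^ (d + 1)) := by
        refine add_le_add ?_ ((measure_mono h6).trans h5)
        rw [← h7]
        exact hsp
    _ = _ := by
        rw [← ENNReal.ofReal_add (by positivity) (by positivity)]
        congr 1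
        ring

theorem fit_seg {a k : ℕ} {j i : Idx d} (ha : 3 ≤ a) (h : Sub a j i) {w v : X d}
    (hw : w ∈ big 4 0 (k + a) i) (hv : ‖v‖ ≤ 6 * sd (k + a)) : w + v ∈ big 3 0 k j := by
  intro c
  have hk0 := sd_pos k
  have hla : sd (k + a) * 2 ^ a = sd k := by
    rw [sd_add, mul_assoc, mul_comm (sd a), two_pow_mul_sd, mul_one]
  have hl8 : sd (k + a) * 8 ≤ sd k := by
    rw [← hla]
    have h8 : (8 : ℝ) ≤ 2 ^ a := by
      calc (8 : ℝ) = 2 ^ 3 := by norm_num
        _ ≤ 2 ^ a := pow_le_pow_right₀ (by norm_num) ha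
    have := sd_pos (k + a)
    nlinarith
  have hl0 := sd_pos (k + a)
  obtain ⟨h1, h2⟩ := h c
  obtain ⟨h3, h4⟩ := hw c
  have hvc : |v c| ≤ 6 * sd (k + a) := (norm_le_pi_norm v c).trans hv
  obtain ⟨h5, h6⟩ := abs_le.1 hvc
  have h7 : ((2 : ℝ) ^ a * (j c - 1)) ≤ i c := by exact_mod_cast h1
  have h8 : (i c : ℝ) + 1 ≤ (2 : ℝ) ^ a * (j c + 2) := by exact_mod_cast h2
  have h9 : (j c - 1) * sd k ≤ i c * sd (k + a) := by
    calc ((j c : ℝ) - 1) * sd k = (2 ^ a * (j c - 1)) * sd (k + a) := by rw [← hla]; ring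
      _ ≤ _ := mul_le_mul_of_nonneg_right h7 hl0.le
  have h10 : ((i c : ℝ) + 1) * sd (k + a) ≤ (j c + 2) * sd k := by
    calc ((i c : ℝ) + 1) * sd (k + a) ≤ (2 ^ a * (j c + 2)) * sd (k + a) :=
          mul_le_mul_of_nonneg_right h8 hl0.le
      _ = _ := by rw [← hla]; ring
  have z0 : (0 : X d) c = 0 := rfl
  rw [z0, zero_add] at h3 h4
  rw [z0, zero_add, zero_add, Pi.add_apply]
  constructor
  · nlinarith
  · nlinarith

omit [FiniteDimensional ℝ V] in
theorem fit_core (S : Slicing d V) {u : X d → V} {h : X d → ℝ≥0∞} {U : Set (X d)}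
    (hS : SStrain S u h U) {ν : Measure (X d)} {t : ℝ≥0∞} {a k : ℕ} {j : Idx d}
    (hU : big 3 0 k j ⊆ U) {w v : X d} (hv : ‖v‖ = 1) {L T : ℝ} (hT : 0 ≤ T)
    (hseg : ∀ r ∈ Icc 0 L, w + r • v ∈ big 3 0 k j \ Nall ν t (k + a + 5))
    (hm : rm (fitG h ν t a k j) L w v ≤ ENNReal.ofReal T) {s : ℝ} (hs0 : 0 ≤ s) (hsL : s ≤ L)
    (i' : Fin S.N) :
    |S.e i' (s • v) (u (w + s • v) - u w)| ≤ L ^ S.deg * (S.C0 * T) := by
  have h1 := hS.line i' w v s hs0 (fun r hr => hU (hseg r ⟨hr.1, hr.2.trans hsL⟩).1)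
  have h2 : rm h s w v ≤ ENNReal.ofReal T := by
    have e : rm h s w v = rm (fitG h ν t a k j) s w v := by
      refine rm_congr fun r hr => ?_
      unfold fitG
      rw [Set.indicator_of_mem (hseg r ⟨hr.1, hr.2.trans hsL⟩)]
    rw [e]
    exact (rm_mono _ hsL w v).trans hm
  rw [hv, one_pow, mul_one] at h1
  have h3 : ENNReal.ofReal |S.e i' v (u (w + s • v) - u w)| ≤ ENNReal.ofReal (S.C0 * T) := by
    rw [ENNReal.ofReal_mul S.C0_pos.le]
    refine h1.trans ?_
    gcongr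
  have h4 : |S.e i' v (u (w + s • v) - u w)| ≤ S.C0 * T :=
    (ENNReal.ofReal_le_ofReal_iff (mul_nonneg S.C0_pos.le hT)).1 h3
  rw [S.e_smul]
  rw [show (s ^ S.deg • S.e i' v) (u (w + s • v) - u w) =
    s ^ S.deg * (S.e i' v (u (w + s • v) - u w)) from rfl]
  rw [abs_mul, abs_of_nonneg (pow_nonneg hs0 _)]
  exact mul_le_mul (pow_le_pow_left₀ hs0 hsL _) h4 (abs_nonneg _)
    (pow_nonneg (hs0.trans hsL) _)

omit [FiniteDimensional ℝ V] in
theorem fit_good (S : Slicing d V) {u : X d → V} {h : X d → ℝ≥0∞} {U : Set (X d)}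
    (hS : SStrain S u h U) {ν : Measure (X d)} {t : ℝ≥0∞} {a k : ℕ} (ha : 3 ≤ a) {j i : Idx d}
    (hU : big 3 0 k j ⊆ U) (hsub : Sub a j i) {w : X d} {m : Y d} (hw : w ∈ big 4 0 (k + a) i)
    (hmm : m ∈ slopes d) {T : ℝ} (hT : 0 ≤ T)
    (hnb : (w, m) ∉ fitBad h ν t a k j i (ENNReal.ofReal T)) {s : ℝ}
    (hs : |s| ≤ 6 * sd (k + a)) (i' : Fin S.N) :
    |S.e i' (s • dir m) (u (w + s • dir m) - u w)| ≤ (6 * sd (k + a)) ^ S.deg * (S.C0 * T) := by
  have hl0 := sd_pos (k + a)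
  have hnd := norm_dir_le hmm
  have hN : ∀ r ∈ Icc (-(6 * sd (k + a))) (6 * sd (k + a)),
      w + r • dir m ∈ big 3 0 k j \ Nall ν t (k + a + 5) := by
    intro r hr
    refine ⟨fit_seg ha hsub hw ?_, fun hc => hnb (Or.inl ⟨hw, hmm, r, hr, hc⟩)⟩
    rw [norm_smul, hnd, mul_one, Real.norm_eq_abs]
    exact abs_le.2 hr
  have hF : fitF h ν t a k j (w, m) ≤ ENNReal.ofReal T := by
    by_contra hc
    exact hnb (Or.inr ⟨hw, hmm, (not_le.1 hc).le⟩)
  obtain ⟨hs1, hs2⟩ := abs_le.1 hs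
  rcases le_total 0 s with h0 | h0
  · exact fit_core S hS hU hnd hT (fun r hr => hN r ⟨by linarith [hr.1], hr.2⟩)
      (le_trans le_self_add hF) h0 hs2 i'
  · have h1 := fit_core S hS (a := a) hU (v := -dir m) (by rw [norm_neg, hnd]) hT
      (fun r hr => by
        have := hN (-r) ⟨by linarith [hr.2], by linarith [hr.1]⟩
        rw [neg_smul] at this
        rw [smul_neg]
        exact this)
      (le_trans le_add_self hF) (s := -s) (by linarith) (by linarith) i'
    rw [neg_smul_neg] at h1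
    exact h1

theorem fit_vol_box (p : X d) {r : ℝ} (hr : 0 ≤ r) :
    volume {y : X d | ∀ c, |y c - p c| ≤ r} = ENNReal.ofReal ((2 * r) ^ (d + 1)) := by
  have e : {y : X d | ∀ c, |y c - p c| ≤ r} = Metric.closedBall p r := by
    ext y
    rw [Metric.mem_closedBall, dist_pi_le_iff hr]
    rfl
  rw [e, Real.volume_pi_closedBall p hr, Fintype.card_fin]

theorem fit_meas_box (p : X d) (r : ℝ) : MeasurableSet {y : X d | ∀ c, |y c - p c| ≤ r} := by
  have e : {y : X d | ∀ c, |y c - p c| ≤ r} = ⋂ c, {y : X d | |y c - p c| ≤ r} := by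
    ext y
    simp
  rw [e]
  exact MeasurableSet.iInter fun c =>
    measurableSet_le ((measurable_pi_apply c).sub measurable_const).abs measurable_const

theorem fit_cheb {E : Set (X d × X d)} (hE : MeasurableSet E) {A b : Set (X d)}
    (c : ℝ≥0∞) :
    c * volume (A ∩ {y | c ≤ (volume.restrict b) (Prod.mk y ⁻¹' E)}) ≤
      ((volume : Measure (X d)).prod volume) E := by
  have hm : MeasurableSet {y : X d | c ≤ (volume.restrict b) (Prod.mk y ⁻¹' E)} :=
    measurableSet_le measurable_const (measurable_measure_prodMk_left hE)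
  have h1 := mul_meas_ge_le_lintegral (μ := (volume : Measure (X d)).restrict A)
    (measurable_measure_prodMk_left (ν := (volume : Measure (X d)).restrict b) hE) c
  rw [Measure.restrict_apply hm] at h1
  rw [inter_comm]
  refine h1.trans ?_
  rw [Measure.prod_apply hE]
  calc ∫⁻ y in A, (volume.restrict b) (Prod.mk y ⁻¹' E)
      ≤ ∫⁻ y, (volume.restrict b) (Prod.mk y ⁻¹' E) := setLIntegral_le_lintegral _ _
    _ ≤ _ := lintegral_mono fun y => Measure.restrict_apply_le _ _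

omit [FiniteDimensional ℝ V] in
theorem fit_neg (S : Slicing d V) (i' : Fin S.N) (z : X d) (v : V) :
    |S.e i' (-z) (-v)| = |S.e i' z v| := by
  have h1 : S.e i' (-z) = (-1 : ℝ) ^ S.deg • S.e i' z := by
    rw [← S.e_smul, neg_one_smul]
  rw [h1, map_neg, abs_neg]
  rw [show ((-1 : ℝ) ^ S.deg • S.e i' z) v = (-1) ^ S.deg * (S.e i' z v) from rfl, abs_mul,
    abs_pow, abs_neg, abs_one, one_pow, one_mul]

omit [FiniteDimensional ℝ V] in
theorem fit_pair (S : Slicing d V) {u : X d → V} {h : X d → ℝ≥0∞} {U : Set (X d)}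
    (hS : SStrain S u h U) {ν : Measure (X d)} {t : ℝ≥0∞} {a k : ℕ} (ha : 3 ≤ a) {j i : Idx d}
    (hU : big 3 0 k j ⊆ U) (hsub : Sub a j i) {T : ℝ} (hT : 0 ≤ T) {B : Set (X d × Y d)}
    (hB : fitBad h ν t a k j i (ENNReal.ofReal T) ⊆ B) {w w' : X d} (hw : w ∈ big 4 0 (k + a) i)
    (hE : (w, w') ∉ fitP B (6 * sd (k + a))) (hc : ∀ c, |w' c - w c| ≤ |w' 0 - w 0|)
    (h6 : |w' 0 - w 0| ≤ 6 * sd (k + a)) (i' : Fin S.N) :
    |S.e i' (w' - w) (u w' - u w)| ≤ (6 * sd (k + a)) ^ S.deg * (S.C0 * T) := by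
  have hl0 := sd_pos (k + a)
  by_cases h0 : (w' - w) 0 = 0
  · have h1 : w' = w := by
      funext c
      have h2 := hc c
      have h3 : w' 0 - w 0 = 0 := h0
      rw [h3, abs_zero] at h2
      exact sub_eq_zero.1 (abs_nonpos_iff.1 h2)
    rw [h1, sub_self, sub_self, map_zero, abs_zero]
    exact mul_nonneg (pow_nonneg (by linarith) _) (mul_nonneg S.C0_pos.le hT)
  · have hsl : fitSl (w' - w) ∈ slopes d := fit_sl_mem h0 hc
    have hnb : (w, fitSl (w' - w)) ∉ fitBad h ν t a k j i (ENNReal.ofReal T) :=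
      fun hc' => hE ⟨h0, h6, hB hc'⟩
    have h1 := fit_good S hS ha hU hsub hw hsl hT hnb (s := (w' - w) 0) h6 i'
    rw [fit_smul_dir h0, add_sub_cancel] at h1
    exact h1

/-- the corner of the base cube -/
noncomputable def fitO (l : ℝ) (i : Idx d) : X d := fun c => i c * l - (if c = 0 then 3 * l else 0)

omit [FiniteDimensional ℝ V] in
theorem fit_base (S : Slicing d V) {l : ℝ} (hl : 0 < l) (i : Idx d) {β : Fin S.nb} {y : X d}
    (hy : ∀ c, |y c - (fitO l i c + l * S.z0 β c)| ≤ S.δ * l) (c : Fin (d + 1)) :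
    fitO l i c < y c ∧ y c < fitO l i c + l := by
  obtain ⟨h1, h2⟩ := S.z0_mem β c
  obtain ⟨h3, h4⟩ := abs_le.1 (hy c)
  have h5 : S.δ * l < l * S.z0 β c := by nlinarith
  have h6 : l * S.z0 β c < l * (1 - S.δ) := mul_lt_mul_of_pos_left h2 hl
  constructor
  · linarith
  · nlinarith

omit [FiniteDimensional ℝ V] in
theorem fit_base_big (S : Slicing d V) {k : ℕ} (i : Idx d) {β : Fin S.nb} {y : X d}
    (hy : ∀ c, |y c - (fitO (sd k) i c + sd k * S.z0 β c)| ≤ S.δ * sd k) : y ∈ big 4 0 k i := by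
  intro c
  have hl := sd_pos k
  obtain ⟨h1, h2⟩ := fit_base S hl i hy c
  have z0 : (0 : X d) c = 0 := rfl
  rw [z0, zero_add, zero_add]
  unfold fitO at h1 h2
  split_ifs at h1 h2 <;> constructor <;> nlinarith

omit [FiniteDimensional ℝ V] in
theorem fit_geo (S : Slicing d V) {k : ℕ} (i : Idx d) {β : Fin S.nb} {x y : X d}
    (hy : ∀ c, |y c - (fitO (sd k) i c + sd k * S.z0 β c)| ≤ S.δ * sd k) (hx : x ∈ cube 0 k i) :
    (∀ c, |x c - y c| ≤ |x 0 - y 0|) ∧ |x 0 - y 0| ≤ 6 * sd k := by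
  have hl := sd_pos k
  have z0 : ∀ c, (0 : X d) c = 0 := fun _ => rfl
  obtain ⟨h1, h2⟩ := fit_base S hl i hy 0
  obtain ⟨h3, h4⟩ := hx 0
  rw [z0, zero_add] at h3 h4
  unfold fitO at h1 h2
  rw [if_pos rfl] at h1 h2
  have h5 : 2 * sd k < x 0 - y 0 := by nlinarith
  have h6 : x 0 - y 0 < 4 * sd k := by nlinarith
  have h7 : |x 0 - y 0| = x 0 - y 0 := abs_of_pos (by linarith)
  refine ⟨fun c => ?_, by rw [h7]; linarith⟩
  by_cases hc : c = 0
  · rw [hc]
  · obtain ⟨h8, h9⟩ := fit_base S hl i hy c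
    obtain ⟨h10, h11⟩ := hx c
    rw [z0, zero_add] at h10 h11
    unfold fitO at h8 h9
    rw [if_neg hc] at h8 h9
    rw [h7, abs_le]
    constructor <;> nlinarith

omit [FiniteDimensional ℝ V] in
theorem fit_geo2 (S : Slicing d V) {l : ℝ} (hl : 0 < l) (i : Idx d) {β β' : Fin S.nb} {y y' : X d}
    (hr : S.rel β β')
    (hy : ∀ c, |y c - (fitO l i c + l * S.z0 β c)| ≤ S.δ * l)
    (hy' : ∀ c, |y' c - (fitO l i c + l * S.z0 β' c)| ≤ S.δ * l) :
    (∀ c, |y c - y' c| ≤ |y 0 - y' 0|) ∧ |y 0 - y' 0| ≤ 6 * l := by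
  have h1 := S.rel_cone β β' hr (fun c => (y c - fitO l i c) / l) (fun c => (y' c - fitO l i c) / l)
    (fun c => by
      have e : (y c - fitO l i c) / l - S.z0 β c = (y c - (fitO l i c + l * S.z0 β c)) / l := by
        field_simp
        ring
      rw [e, abs_div, abs_of_pos hl, div_le_iff₀ hl]
      exact hy c)
    (fun c => by
      have e : (y' c - fitO l i c) / l - S.z0 β' c = (y' c - (fitO l i c + l * S.z0 β' c)) / l := by
        field_simp
        ring
      rw [e, abs_div, abs_of_pos hl, div_le_iff₀ hl]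
      exact hy' c)
  have e2 : ∀ c, |(y c - fitO l i c) / l - (y' c - fitO l i c) / l| = |y c - y' c| / l := by
    intro c
    rw [← sub_div, abs_div, abs_of_pos hl]
    congr 2
    ring
  refine ⟨fun c => ?_, ?_⟩
  · have h2 := h1 c
    rw [e2, e2] at h2
    exact (div_le_div_iff_of_pos_right hl).1 h2
  · obtain ⟨h3, h4⟩ := fit_base S hl i hy 0
    obtain ⟨h5, h6⟩ := fit_base S hl i hy' 0
    rw [abs_le]
    constructor <;> linarith

theorem fit_sparse (S : Slicing d V) {ς : ℝ≥0∞} (hς : ς ≠ 0) :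
    ∃ η0 : ℝ≥0∞, η0 ≠ 0 ∧ η0 ≤ 1 / 4 ∧
    ∀ a : ℕ, 3 ≤ a → ∃ K : ℝ, 0 < K ∧ ∀ {u : X d → V} {h : X d → ℝ≥0∞} {U : Set (X d)},
    SStrain S u h U → ∀ (ν : Measure (X d)) (t : ℝ≥0∞) (k : ℕ) (j i : Idx d),
    big 3 0 k j ⊆ U → Sub a j i → Sparse ν t a η0 k i → ∀ F : ℝ, 0 < F →
    Floc (volume.withDensity h) ν t a k j ≤ ENNReal.ofReal F →
    ∃ p, SFits S u (cube 0 (k + a) i) p (K * F) ς := by
  -- the constants
  set ς' : ℝ := (min ς 1).toReal with hς'
  have hmin : min ς 1 ≠ ∞ := ne_top_of_le_ne_top ENNReal.one_ne_top (min_le_right _ _)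
  have hς'0 : 0 < ς' :=
    ENNReal.toReal_pos (lt_min (pos_iff_ne_zero.2 hς) one_pos).ne' hmin
  have hς'le : ENNReal.ofReal ς' ≤ ς := by
    rw [hς', ENNReal.ofReal_toReal hmin]
    exact min_le_left _ _
  set N : ℝ := (S.nb : ℝ) with hN
  have hN0 : 0 ≤ N := Nat.cast_nonneg _
  set s1 : ℝ := ς' / (N + 1) with hs1
  have hs1p : 0 < s1 := by positivity
  set s2 : ℝ := 1 / (N + N ^ 2 + 1) with hs2
  have hs2p : 0 < s2 := by positivity
  have hδ := S.δ_pos
  set q : ℝ := (2 * S.δ) ^ (d + 1) with hq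
  have hqp : 0 < q := by positivity
  set η : ℝ := min (1 / 4) (min (s1 * s2 * q / (4 * 6 ^ (d + 1))) (s2 * q * q / (4 * 6 ^ (d + 1))))
    with hη
  have hηp : 0 < η := by positivity
  have hη1 : 4 * 6 ^ (d + 1) * η ≤ s1 * s2 * q := by
    have h1 : η ≤ s1 * s2 * q / (4 * 6 ^ (d + 1)) := (min_le_right _ _).trans (min_le_left _ _)
    rw [le_div_iff₀ (by positivity)] at h1
    linarith
  have hη2 : 4 * 6 ^ (d + 1) * η ≤ s2 * q * q := by
    have h1 : η ≤ s2 * q * q / (4 * 6 ^ (d + 1)) := (min_le_right _ _).trans (min_le_right _ _)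
    rw [le_div_iff₀ (by positivity)] at h1
    linarith
  refine ⟨ENNReal.ofReal η, (ENNReal.ofReal_pos.2 hηp).ne', ?_, fun a ha => ?_⟩
  · have h1 : ENNReal.ofReal η ≤ ENNReal.ofReal (1 / 4) := ENNReal.ofReal_le_ofReal (min_le_left _ _)
    refine h1.trans (le_of_eq ?_)
    rw [one_div, ENNReal.ofReal_inv_of_pos (by norm_num), ENNReal.ofReal_ofNat, one_div]
  set K1 : ℝ := 12 * 2 ^ d * (2 ^ a) ^ d / η with hK1
  have hK1p : 0 < K1 := by positivity
  refine ⟨2 * |S.CL| * (6 ^ S.deg * (S.C0 * K1)) + 1, by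
    have := S.C0_pos
    positivity, ?_⟩
  intro u h U hS ν t k j i hU hsub hsp F hF hl
  have hT : 0 ≤ K1 * F := (mul_pos hK1p hF).le
  have hl0 := sd_pos (k + a)
  set l : ℝ := sd (k + a) with hldef
  -- the bad sets
  set Bad := fitBad h ν t a k j i (ENNReal.ofReal (K1 * F)) with hBad
  set B := toMeasurable (vp d) Bad with hBdef
  have hBm : MeasurableSet B := measurableSet_toMeasurable _ _
  have hBs : Bad ⊆ B := subset_toMeasurable _ _
  have hBv : vp d B ≤ ENNReal.ofReal (2 * η * l ^ (d + 1)) := by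
    rw [hBdef, measure_toMeasurable]
    exact fit_bad_measure hS.meas hηp hF hl hsp
  set E := fitP B (6 * l) with hE
  have hEm : MeasurableSet E := fit_measurable_P hBm _
  have hEv : ((volume : Measure (X d)).prod volume) E ≤
      ENNReal.ofReal (4 * 6 ^ (d + 1) * η * (l ^ (d + 1) * l ^ (d + 1))) := by
    refine (fit_P_measure hBm (by linarith)).trans ?_
    calc 2 * ENNReal.ofReal ((6 * l) ^ (d + 1)) * vp d B
        ≤ 2 * ENNReal.ofReal ((6 * l) ^ (d + 1)) * ENNReal.ofReal (2 * η * l ^ (d + 1)) := by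
          gcongr
      _ = _ := by
          rw [show (2 : ℝ≥0∞) = ENNReal.ofReal 2 by rw [ENNReal.ofReal_ofNat],
            ← ENNReal.ofReal_mul (by norm_num), ← ENNReal.ofReal_mul (by positivity)]
          congr 1
          rw [mul_pow]
          ring
  -- the boxes
  set b := cube 0 (k + a) i with hb
  have hbv : volume b = ENNReal.ofReal (l ^ (d + 1)) := volume_cube _ _ _
  set Bx : Fin S.nb → Set (X d) := fun β =>
    {y | ∀ c, |y c - (fitO l i c + l * S.z0 β c)| ≤ S.δ * l} with hBx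
  have hBxv : ∀ β, volume (Bx β) = ENNReal.ofReal (q * l ^ (d + 1)) := by
    intro β
    rw [hBx]
    have e1 : (2 * (S.δ * l)) ^ (d + 1) = q * l ^ (d + 1) := by
      rw [hq, ← mul_pow]
      ring
    rw [← e1]
    exact fit_vol_box (fun c => fitO l i c + l * S.z0 β c) (by positivity)
  have hBxm : ∀ β, MeasurableSet (Bx β) := fun β =>
    fit_meas_box (fun c => fitO l i c + l * S.z0 β c) _
  have hvp : 0 < q * l ^ (d + 1) := by positivity
  set cc : ℝ≥0∞ := ENNReal.ofReal (s1 * l ^ (d + 1)) with hcc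
  have hccp : 0 < s1 * l ^ (d + 1) := by positivity
  set Un : Fin S.nb → Set (X d) := fun _ => {y | cc ≤ (volume.restrict b) (Prod.mk y ⁻¹' E)}
    with hUn
  classical
  set Bi : Fin S.nb → Fin S.nb → Set (X d × X d) := fun β β' => if S.rel β β' then E else ∅
    with hBi
  obtain ⟨y, hy1, hy2⟩ := sel Bx hBxm (fun β => by
      rw [hBxv]
      exact (ENNReal.ofReal_pos.2 hvp).ne') (fun β => by
      rw [hBxv]
      exact ENNReal.ofReal_ne_top) Un
    (fun _ => measurableSet_le measurable_const (measurable_measure_prodMk_left hEm)) Bi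
    (fun β β' => by
      rw [hBi]
      dsimp only
      split_ifs
      · exact hEm
      · exact MeasurableSet.empty) (ς := ENNReal.ofReal s2)
    (by
      rw [show (S.nb : ℝ≥0∞) = ENNReal.ofReal N by rw [hN, ENNReal.ofReal_natCast],
        ← ENNReal.ofReal_pow hN0, ← ENNReal.ofReal_add hN0 (by positivity),
        ← ENNReal.ofReal_mul (by positivity), ← ENNReal.ofReal_one,
        ENNReal.ofReal_lt_ofReal_iff one_pos, hs2, mul_one_div, div_lt_one (by positivity)]
      linarith)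
    (fun β => by
      have h1 := fit_cheb hEm (A := Bx β) (b := b) cc
      have h2 := h1.trans hEv
      have h3 : ENNReal.ofReal (4 * 6 ^ (d + 1) * η * (l ^ (d + 1) * l ^ (d + 1))) ≤
          cc * (ENNReal.ofReal s2 * volume (Bx β)) := by
        rw [hBxv, hcc, ← ENNReal.ofReal_mul hs2p.le, ← ENNReal.ofReal_mul hccp.le]
        refine ENNReal.ofReal_le_ofReal ?_
        calc 4 * 6 ^ (d + 1) * η * (l ^ (d + 1) * l ^ (d + 1))
            ≤ s1 * s2 * q * (l ^ (d + 1) * l ^ (d + 1)) :=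
              mul_le_mul_of_nonneg_right hη1 (by positivity)
          _ = _ := by ring
      exact (ENNReal.mul_le_mul_iff_right (ENNReal.ofReal_pos.2 hccp).ne'
        ENNReal.ofReal_ne_top).1 (h2.trans h3))
    (fun β β' _ => by
      have h1 : ((volume : Measure (X d)).prod volume) ((Bx β ×ˢ Bx β') ∩ Bi β β') ≤
          ((volume : Measure (X d)).prod volume) E := by
        refine measure_mono ?_
        rw [hBi]
        dsimp only
        split_ifs
        · exact inter_subset_right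
        · rw [inter_empty]
          exact empty_subset _
      refine (h1.trans hEv).trans ?_
      rw [hBxv, hBxv, ← ENNReal.ofReal_mul hvp.le, ← ENNReal.ofReal_mul hs2p.le]
      refine ENNReal.ofReal_le_ofReal ?_
      calc 4 * 6 ^ (d + 1) * η * (l ^ (d + 1) * l ^ (d + 1))
          ≤ s2 * q * q * (l ^ (d + 1) * l ^ (d + 1)) :=
            mul_le_mul_of_nonneg_right hη2 (by positivity)
        _ = _ := by ring)
  have hyB : ∀ β c, |y β c - (fitO l i c + l * S.z0 β c)| ≤ S.δ * l := fun β => (hy1 β).1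
  have hybig : ∀ β, y β ∈ big 4 0 (k + a) i := fun β => fit_base_big S i (hyB β)
  -- the linear algebra
  have hDl : (6 * l) ^ S.deg * (S.C0 * (K1 * F)) = 6 ^ S.deg * (S.C0 * (K1 * F)) * l ^ S.deg := by
    rw [mul_pow]
    ring
  obtain ⟨p, hpR, hp⟩ := S.la l hl0 (fitO l i) y hyB (fun β => u (y β))
    (6 ^ S.deg * (S.C0 * (K1 * F))) (fun β β' hr i' => by
      by_cases hββ : β = β'
      · rw [hββ, sub_self, sub_self, map_zero, abs_zero]
        have := S.C0_pos
        positivity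
      · have h1 := hy2 β β' hββ
        rw [hBi] at h1
        dsimp only at h1
        rw [if_pos hr] at h1
        obtain ⟨h2, h3⟩ := fit_geo2 S hl0 i hr (hyB β) (hyB β')
        have h4 := fit_pair S hS ha hU hsub hT hBs (hybig β) h1 (fun c => by
          rw [abs_sub_comm (y β' c), abs_sub_comm (y β' 0)]
          exact h2 c) (by
          rw [abs_sub_comm]
          exact h3) i'
        rw [← hDl, ← fit_neg, neg_sub, neg_sub]
        exact h4)
  refine ⟨p, hpR, ?_⟩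
  -- the bad points of `b`
  have hsubset : {x ∈ b | (2 * |S.CL| * (6 ^ S.deg * (S.C0 * K1)) + 1) * F < ‖u x - p x‖} ⊆
      ⋃ β, (Prod.mk (y β) ⁻¹' E) ∩ b := by
    rintro x ⟨hxb, hx⟩
    by_contra hcon
    rw [mem_iUnion] at hcon
    push Not at hcon
    have h1 : ∀ β, (y β, x) ∉ E := fun β hc => hcon β ⟨hc, hxb⟩
    have h2 := hp x (u x) (6 ^ S.deg * (S.C0 * (K1 * F))) (by
      rw [pi_norm_le_iff_of_nonneg (by linarith)]
      intro c
      have z0 : (0 : X d) c = 0 := rfl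
      obtain ⟨h3, h4⟩ := hxb c
      rw [z0, zero_add, ← hldef] at h3 h4
      rw [Pi.sub_apply, Real.norm_eq_abs, abs_le, fitO]
      split_ifs <;> constructor <;> nlinarith) (fun β i' => by
        obtain ⟨h3, h4⟩ := fit_geo S i (hyB β) hxb
        have h5 := fit_pair S hS ha hU hsub hT hBs (hybig β) (h1 β) h3 h4 i'
        rw [← hDl]
        exact h5)
    have h3 : S.CL * (6 ^ S.deg * (S.C0 * (K1 * F)) + 6 ^ S.deg * (S.C0 * (K1 * F))) ≤
        (2 * |S.CL| * (6 ^ S.deg * (S.C0 * K1)) + 1) * F := by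
      have h4 : 0 ≤ 6 ^ S.deg * (S.C0 * (K1 * F)) := by
        have := S.C0_pos
        positivity
      have h5 : S.CL * (6 ^ S.deg * (S.C0 * (K1 * F)) + 6 ^ S.deg * (S.C0 * (K1 * F))) ≤
          |S.CL| * (6 ^ S.deg * (S.C0 * (K1 * F)) + 6 ^ S.deg * (S.C0 * (K1 * F))) :=
        mul_le_mul_of_nonneg_right (le_abs_self _) (by linarith)
      have h6 : (2 * |S.CL| * (6 ^ S.deg * (S.C0 * K1)) + 1) * F =
          |S.CL| * (6 ^ S.deg * (S.C0 * (K1 * F)) + 6 ^ S.deg * (S.C0 * (K1 * F))) + F := by ring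
      linarith
    linarith
  have hcc2 : cc = ENNReal.ofReal s1 * volume b := by
    rw [hcc, hbv, ← ENNReal.ofReal_mul hs1p.le]
  calc volume {x ∈ b | (2 * |S.CL| * (6 ^ S.deg * (S.C0 * K1)) + 1) * F < ‖u x - p x‖}
      ≤ volume (⋃ β, (Prod.mk (y β) ⁻¹' E) ∩ b) := measure_mono hsubset
    _ ≤ ∑ β, volume ((Prod.mk (y β) ⁻¹' E) ∩ b) := measure_iUnion_fintype_le _ _
    _ ≤ ∑ _β : Fin S.nb, cc := by
        refine Finset.sum_le_sum fun β _ => ?_
        have h1 := (hy1 β).2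
        rw [hUn] at h1
        have h2 : (volume.restrict b) (Prod.mk (y β) ⁻¹' E) < cc := not_le.1 h1
        rw [Measure.restrict_apply (measurable_prodMk_left hEm)] at h2
        exact h2.le
    _ = (S.nb : ℝ≥0∞) * (ENNReal.ofReal s1 * volume b) := by
        rw [Finset.sum_const, Finset.card_univ, Fintype.card_fin, nsmul_eq_mul, hcc2]
    _ ≤ ς * volume b := by
        rw [← mul_assoc]
        gcongr
        refine le_trans ?_ hς'le
        rw [show (S.nb : ℝ≥0∞) = ENNReal.ofReal N by rw [hN, ENNReal.ofReal_natCast],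
          ← ENNReal.ofReal_mul hN0]
        refine ENNReal.ofReal_le_ofReal ?_
        rw [hs1, mul_div_assoc', div_le_iff₀ (by positivity)]
        nlinarith

end BDJ
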