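import Pool.Agent.BDJ.GenSpan

/-!
# Minimal configurations: approximate data on finitely many points extend (row GEN-F)

`A0 = obx d (1/4)`, `D0 = obx d (3/4)`, `AD = A0 ∪ D0`. All the pairs `(x,y) ∈ D0 × A0` satisfy `x - y ∈ cone d` (`|x 0 - y 0| ≥ 7/16`, the other differences are `≤ 1/16`), and the cone is symmetric (`- cone = cone`, `e i (-z) = ± e i z`).

By `gen_span_box` (`ρ = 1`, `O = A0` and `O = D0`) there are finite `Y ⊆ A0`, `X0 ⊆ D0` such that for `x ∈ D0`: (`e i (x - y) v = 0` for all `y ∈ Y`, `i`) implies `v = 0`, and for `y ∈ A0`: (`e i (x - y) v = 0` for all `x ∈ X0`, `i`) implies `v = 0`.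

For a finite set `Z` with `Y ∪ X0 ∪ Y0 ⊆ Z ⊆ AD` let `K(Z)` be the vector space of the `U : X d → V` vanishing outside `Z` with `Rel Z U` (finite-dimensional). For `Z ⊆ Z'` the restriction `K(Z') → K(Z)` is injective (if `U` vanishes on `Z ⊇ Y ∪ X0` then, for `x ∈ Z' ∩ D0`,
`e i (x - y) (U x) = 0` for all `y ∈ Y`, so `U x = 0`; similarly for `x ∈ A0`). So `finrank K(Z') ≤ finrank K(Z)`. Choose `Z` with minimal `finrank K(Z)`. Then for all `Z' ⊇ Z` the restriction is bijective. Given `U` with `Rel Z U`, for each `x ∈ AD` let `p x` be the value at `x` of the unique extension of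
`U` to `Z ∪ {x}`. For `x, x' ∈ AD` the extension to `Z ∪ {x,x'}` restricts to both, so `Rel AD p`.
-/

open MeasureTheory Set
open scoped ENNReal NNReal

namespace BDJ

variable {d : ℕ} {V : Type*} [NormedAddCommGroup V] [NormedSpace ℝ V] [FiniteDimensional ℝ V]

theorem gmin_cone {x y : X d} (hx : x ∈ obx d (3 / 4)) (hy : y ∈ obx d (1 / 4)) :
    x - y ∈ cone d := by
  have h0 := abs_lt.1 hx.1
  have h1 := abs_lt.1 hy.1
  have h2 : 7 / 16 < x 0 - y 0 := by linarith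
  refine ⟨fun c hc => ?_, ?_⟩
  · have h3 := abs_lt.1 (hx.2 c hc)
    have h4 := abs_lt.1 (hy.2 c hc)
    rw [Pi.sub_apply, Pi.sub_apply, abs_of_pos (by linarith : (0 : ℝ) < x 0 - y 0), abs_lt]
    constructor <;> linarith
  · show x 0 - y 0 ≠ 0
    intro h
    linarith

theorem gmin_cone_neg {z : X d} (hz : z ∈ cone d) : -z ∈ cone d := by
  refine ⟨fun c hc => ?_, ?_⟩
  · rw [Pi.neg_apply, Pi.neg_apply, abs_neg, abs_neg]
    exact hz.1 c hc
  · show -z 0 ≠ 0
    exact neg_ne_zero.2 hz.2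

theorem gmin_cone' {x y : X d} (hx : x ∈ obx d (3 / 4)) (hy : y ∈ obx d (1 / 4)) :
    y - x ∈ cone d := by
  rw [← neg_sub]
  exact gmin_cone_neg (gmin_cone hx hy)

theorem gmin_norm {t : ℝ} (ht : 0 ≤ t) (ht' : t ≤ 3 / 4) {x : X d} (hx : x ∈ obx d t) : ‖x‖ ≤ 1 := by
  rw [pi_norm_le_iff_of_nonneg zero_le_one]
  intro c
  rw [Real.norm_eq_abs]
  by_cases hc : c = 0
  · subst hc
    have h1 := abs_lt.1 hx.1
    rw [abs_le]
    constructor <;> linarith
  · have h1 := abs_lt.1 (hx.2 c hc)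
    rw [abs_le]
    constructor <;> linarith

theorem gmin_open (t : ℝ) : IsOpen (obx d t) := by
  have h1 : obx d t = {x | |x 0 - t| < 1 / 32} ∩ ⋂ c : Fin (d + 1), {x | c ≠ 0 → |x c - 1 / 2| < 1 / 32} := by
    ext x
    rw [Set.mem_inter_iff, Set.mem_iInter]
    rfl
  rw [h1]
  refine IsOpen.inter (isOpen_lt (by fun_prop) continuous_const) (isOpen_iInter_of_finite fun c => ?_)
  by_cases hc : c = 0
  · simp [hc]
  · have : {x : X d | c ≠ 0 → |x c - 1 / 2| < 1 / 32} = {x | |x c - 1 / 2| < 1 / 32} := by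
      ext x
      simp [hc]
    rw [this]
    exact isOpen_lt (by fun_prop) continuous_const

theorem gmin_nonempty (t : ℝ) : (obx d t).Nonempty := by
  refine ⟨fun c => if c = 0 then t else 1 / 2, ?_, fun c hc => ?_⟩
  · simp
  · simp [hc]

/-- finite sets of base points which determine the values -/
theorem gmin_span (S : SData d V) (t : ℝ) : ∃ Y : Finset (X d), (Y : Set (X d)) ⊆ obx d t ∧
    ∀ x : X d, ‖x‖ ≤ 1 → ∀ v : V, (∀ y ∈ Y, ∀ i, S.e i (x - y) v = 0) → v = 0 := by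
  obtain ⟨Y, c, hY, hc, h⟩ := gen_span_box S 1 (gmin_open (d := d) t) (gmin_nonempty t)
  refine ⟨Y, hY, fun x hx v hv => ?_⟩
  rcases h x hx v 0 (fun y hy i => by rw [hv y hy i, abs_zero]) with h1 | h1
  · have h2 : ‖v‖ ≤ 0 := by
      by_contra h3
      have := mul_pos hc (not_le.1 h3)
      linarith
    exact norm_le_zero_iff.1 h2
  · exact h1

/-- the solutions on a finite set -/
def gK (S : SData d V) (Z : Finset (X d)) : Submodule ℝ (Z → V) where
  carrier := {U | ∀ x y : Z, (x : X d) - y ∈ cone d → ∀ i, S.e i ((x : X d) - y) (U x - U y) = 0}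
  zero_mem' := fun x y _ i => by simp
  add_mem' := by
    intro U U' h h' x y hxy i
    have h1 := h x y hxy i
    have h2 := h' x y hxy i
    have h3 : (U + U') x - (U + U') y = (U x - U y) + (U' x - U' y) := by
      rw [Pi.add_apply, Pi.add_apply]
      abel
    rw [h3, map_add, h1, h2, add_zero]
  smul_mem' := by
    intro c U h x y hxy i
    rw [Pi.smul_apply, Pi.smul_apply, ← smul_sub, map_smul, h x y hxy i, smul_zero]

/-- restriction -/
def gres (S : SData d V) {Z Z' : Finset (X d)} (h : Z ⊆ Z') : gK S Z' →ₗ[ℝ] gK S Z :=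
  LinearMap.restrict (LinearMap.funLeft ℝ V (fun z : Z => (⟨z, h z.2⟩ : Z')))
    fun _ hU x y hxy i => hU ⟨x, h x.2⟩ ⟨y, h y.2⟩ hxy i

theorem gres_apply (S : SData d V) {Z Z' : Finset (X d)} (h : Z ⊆ Z') (U : gK S Z') (z : Z) :
    (gres S h U : Z → V) z = (U : Z' → V) ⟨z, h z.2⟩ := rfl

/-- the values on `Z` determine the values everywhere -/
theorem gmin_unique (S : SData d V) {Y X0 Z Z' : Finset (X d)}
    (hY : (Y : Set (X d)) ⊆ obx d (1 / 4))
    (hYs : ∀ x : X d, ‖x‖ ≤ 1 → ∀ v : V, (∀ y ∈ Y, ∀ i, S.e i (x - y) v = 0) → v = 0)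
    (hX : (X0 : Set (X d)) ⊆ obx d (3 / 4))
    (hXs : ∀ x : X d, ‖x‖ ≤ 1 → ∀ v : V, (∀ y ∈ X0, ∀ i, S.e i (x - y) v = 0) → v = 0)
    (hYZ : Y ⊆ Z) (hXZ : X0 ⊆ Z) (hZ' : (Z' : Set (X d)) ⊆ AD d) (h : Z ⊆ Z')
    {U : Z' → V} (hU : U ∈ gK S Z') (h0 : ∀ z : Z, U ⟨z, h z.2⟩ = 0) : U = 0 := by
  funext x
  rcases hZ' x.2 with hx | hx
  · refine hXs x (gmin_norm (by norm_num) (by norm_num) hx) _ fun y hy i => ?_
    have h1 := hU x ⟨y, h (hXZ hy)⟩ (gmin_cone' (hX hy) hx) i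
    rwa [h0 ⟨y, hXZ hy⟩, sub_zero] at h1
  · refine hYs x (gmin_norm (by norm_num) (by norm_num) hx) _ fun y hy i => ?_
    have h1 := hU x ⟨y, h (hYZ hy)⟩ (gmin_cone hx (hY hy)) i
    rwa [h0 ⟨y, hYZ hy⟩, sub_zero] at h1

theorem gen_min (S : SData d V) (Y0 : Finset (X d)) (hY : (Y0 : Set (X d)) ⊆ AD d) :
    ∃ Z : Finset (X d), Y0 ⊆ Z ∧ (Z : Set (X d)) ⊆ AD d ∧
      ∀ U : X d → V, S.Rel (Z : Set (X d)) U →
        ∃ p : X d → V, (∀ z ∈ Z, p z = U z) ∧ S.Rel (AD d) p := by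
  classical
  obtain ⟨Y, hY1, hYs⟩ := gmin_span S (1 / 4)
  obtain ⟨X0, hX1, hXs⟩ := gmin_span S (3 / 4)
  -- the admissible sets
  let Adm : Finset (X d) → Prop := fun Z => Y ⊆ Z ∧ X0 ⊆ Z ∧ Y0 ⊆ Z ∧ (Z : Set (X d)) ⊆ AD d
  have hAdm : ∃ n : ℕ, ∃ Z : Finset (X d), Adm Z ∧ Module.finrank ℝ (gK S Z) = n := by
    refine ⟨_, Y ∪ X0 ∪ Y0, ⟨?_, ?_, ?_, ?_⟩, rfl⟩
    · exact Finset.subset_union_left.trans Finset.subset_union_left
    · exact Finset.subset_union_right.trans Finset.subset_union_left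
    · exact Finset.subset_union_right
    · rw [Finset.coe_union, Finset.coe_union]
      exact union_subset (union_subset (hY1.trans subset_union_left) (hX1.trans subset_union_right)) hY
  obtain ⟨Z, ⟨hZ1, hZ2, hZ3, hZ4⟩, hZn⟩ := Nat.find_spec hAdm
  have hmin : ∀ Z' : Finset (X d), Adm Z' → Module.finrank ℝ (gK S Z) ≤ Module.finrank ℝ (gK S Z') := by
    intro Z' hZ'
    rw [hZn]
    exact Nat.find_min' hAdm ⟨Z', hZ', rfl⟩
  have huniq : ∀ Z' : Finset (X d), (h : Z ⊆ Z') → (Z' : Set (X d)) ⊆ AD d →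
      Function.Injective (gres S h) := by
    intro Z' h hZ'
    rw [← LinearMap.ker_eq_bot, LinearMap.ker_eq_bot']
    intro U hU
    apply Subtype.ext
    refine gmin_unique S hY1 hYs hX1 hXs hZ1 hZ2 hZ' h U.2 fun z => ?_
    rw [← gres_apply S h U z, hU]
    rfl
  have hsurj : ∀ Z' : Finset (X d), (h : Z ⊆ Z') → (Z' : Set (X d)) ⊆ AD d →
      Function.Surjective (gres S h) := by
    intro Z' h hZ'
    have h1 := LinearMap.finrank_le_finrank_of_injective (huniq Z' h hZ')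
    have h2 := hmin Z' ⟨hZ1.trans h, hZ2.trans h, hZ3.trans h, hZ'⟩
    exact (LinearMap.injective_iff_surjective_of_finrank_eq_finrank (le_antisymm h1 h2)).1
      (huniq Z' h hZ')
  refine ⟨Z, hZ3, hZ4, fun U hU => ?_⟩
  let U₀ : gK S Z := ⟨fun z => U z, fun x y hxy i => hU x x.2 y y.2 hxy i⟩
  have hins : ∀ x ∈ AD d, ((insert x Z : Finset (X d)) : Set (X d)) ⊆ AD d := by
    intro x hx
    rw [Finset.coe_insert]
    exact insert_subset hx hZ4
  have hext : ∀ x ∈ AD d, ∃ W : gK S (insert x Z), gres S (Finset.subset_insert x Z) W = U₀ :=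
    fun x hx => hsurj _ _ (hins x hx) U₀
  let p : X d → V := fun x => if hx : x ∈ AD d then
    (hext x hx).choose.1 ⟨x, Finset.mem_insert_self x Z⟩ else 0
  -- every extension has the value `p`
  have hp : ∀ (Z' : Finset (X d)) (h : Z ⊆ Z') (hZ' : (Z' : Set (X d)) ⊆ AD d) (W : gK S Z'),
      gres S h W = U₀ → ∀ x : Z', (W : Z' → V) x = p x := by
    intro Z' h hZ' W hW x
    have hx : (x : X d) ∈ AD d := hZ' x.2
    have h1 : insert (x : X d) Z ⊆ Z' := Finset.insert_subset x.2 h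
    have h2 : gres S h1 W = (hext x hx).choose := by
      apply huniq _ (Finset.subset_insert _ _) (hins x hx)
      rw [(hext x hx).choose_spec, ← hW]
      rfl
    show _ = if hx : (x : X d) ∈ AD d then
      (hext x hx).choose.1 ⟨x, Finset.mem_insert_self _ Z⟩ else 0
    rw [dif_pos hx, ← h2]
    rfl
  refine ⟨p, fun z hz => ?_, ?_⟩
  · have h1 := hp Z (Finset.Subset.refl Z) hZ4 U₀ rfl ⟨z, hz⟩
    rw [← h1]
  · intro x hx y hy hxy i
    have hxy' : ((insert x (insert y Z) : Finset (X d)) : Set (X d)) ⊆ AD d := by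
      rw [Finset.coe_insert]
      exact insert_subset hx (hins y hy)
    have hsub : Z ⊆ insert x (insert y Z) :=
      (Finset.subset_insert _ _).trans (Finset.subset_insert _ _)
    obtain ⟨W, hW⟩ := hsurj _ hsub hxy' U₀
    have h1 := hp _ hsub hxy' W hW ⟨x, Finset.mem_insert_self _ _⟩
    have h2 := hp _ hsub hxy' W hW ⟨y, Finset.mem_insert_of_mem (Finset.mem_insert_self _ _)⟩
    have h3 := W.2 ⟨x, Finset.mem_insert_self _ _⟩
      ⟨y, Finset.mem_insert_of_mem (Finset.mem_insert_self _ _)⟩ hxy i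
    rw [h1, h2] at h3
    exact h3

end BDJ
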