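import Pool.Agent.BDJ.GenTop

/-!
# Exact solutions are rigid (row GEN-G2): see the docstring of `GenPoly`, part (G2)
-/

open MeasureTheory Set
open scoped ENNReal NNReal

namespace BDJ

variable {d : ℕ} {V : Type*} [NormedAddCommGroup V] [NormedSpace ℝ V] [FiniteDimensional ℝ V]

/-- Lagrange interpolation at the nodes `v 0, ..., v M` for a polynomial of degree at most `M` -/
theorem gq_lagrange (M : ℕ) (v : ℕ → ℝ) (hv : Set.InjOn v (Finset.range (M + 1) : Finset ℕ))
    (P : Polynomial ℝ) (hP : P.natDegree ≤ M) (t : ℝ) :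
    P.eval t = ∑ k ∈ Finset.range (M + 1), P.eval (v k) *
      (Lagrange.basis (Finset.range (M + 1)) v k).eval t := by
  have h := Lagrange.eq_interpolate (s := Finset.range (M + 1)) (v := v) (f := P) hv (by
    rw [Finset.card_range]
    refine lt_of_le_of_lt Polynomial.degree_le_natDegree ?_
    exact_mod_cast Nat.lt_succ_of_le hP)
  conv_lhs => rw [h]
  rw [Lagrange.interpolate_apply, Polynomial.eval_finsetSum]
  refine Finset.sum_congr rfl fun k _ => ?_
  rw [Polynomial.eval_mul, Polynomial.eval_C]

/-- degree of the Lagrange polynomials -/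
theorem gq_basis_deg (M : ℕ) (v : ℕ → ℝ) (hv : Set.InjOn v (Finset.range (M + 1) : Finset ℕ))
    {k : ℕ} (hk : k ∈ Finset.range (M + 1)) :
    (Lagrange.basis (Finset.range (M + 1)) v k).natDegree ≤ M := by
  have h := Lagrange.degree_basis hv hk
  rw [Finset.card_range] at h
  refine Polynomial.natDegree_le_iff_degree_le.2 ?_
  rw [h]
  simp

/-- local interpolation, the coordinates one after the other -/
theorem gq_local {n : ℕ} (M : ℕ) (tc : Fin n → ℝ) {r : ℝ} (hr : 0 < r) (f : (Fin n → ℝ) → ℝ)
    (hf : ∀ (c : Fin n) (x : Fin n → ℝ), (∀ j, |x j - tc j| < r) → ∃ P : Polynomial ℝ,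
      P.natDegree ≤ M ∧ ∀ t : ℝ, |t - tc c| < r → f (Function.update x c t) = P.eval t)
    (s : Finset (Fin n)) :
    ∃ g : (Fin n → ℝ) → ℝ, (∀ x, (∀ j, |x j - tc j| < r) → g x = f x) ∧
      (∀ c ∈ s, ∀ x : Fin n → ℝ, (∀ j, j ∉ s → |x j - tc j| < r) → ∃ P : Polynomial ℝ,
        P.natDegree ≤ M ∧ ∀ t : ℝ, g (Function.update x c t) = P.eval t) ∧
      ∀ c, c ∉ s → ∀ x : Fin n → ℝ, (∀ j, j ∉ s → |x j - tc j| < r) → ∃ P : Polynomial ℝ,
        P.natDegree ≤ M ∧ ∀ t : ℝ, |t - tc c| < r → g (Function.update x c t) = P.eval t := by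
  classical
  induction s using Finset.induction_on with
  | empty =>
    refine ⟨f, fun x _ => rfl, fun c hc => absurd hc (Finset.notMem_empty c), fun c _ x hx => ?_⟩
    exact hf c x fun j => hx j (Finset.notMem_empty j)
  | insert c0 s hc0 ih =>
    obtain ⟨g, g1, g2, g3⟩ := ih
    let v : ℕ → ℝ := fun k => tc c0 + r * (k / (M + 1))
    have hM : (0 : ℝ) < (M : ℝ) + 1 := by positivity
    have hv : Set.InjOn v (Finset.range (M + 1) : Finset ℕ) := by
      intro a _ b _ hab
      have h1 : r * ((a : ℝ) / (M + 1)) = r * ((b : ℝ) / (M + 1)) := add_left_cancel hab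
      have h2 : (a : ℝ) / (M + 1) = (b : ℝ) / (M + 1) := mul_left_cancel₀ hr.ne' h1
      have h3 : (a : ℝ) = b := by
        field_simp at h2
        exact h2
      exact_mod_cast h3
    have hvr : ∀ k ∈ Finset.range (M + 1), |v k - tc c0| < r := by
      intro k hk
      have h1 : (k : ℝ) < M + 1 := by exact_mod_cast Finset.mem_range.1 hk
      have h2 : v k - tc c0 = r * (k / (M + 1)) := by simp [v]
      rw [h2, abs_of_nonneg (by positivity)]
      calc r * (k / (M + 1)) < r * 1 := by
            apply mul_lt_mul_of_pos_left _ hr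
            rw [div_lt_one hM]
            exact h1
        _ = r := mul_one r
    let B : ℕ → Polynomial ℝ := fun k => Lagrange.basis (Finset.range (M + 1)) v k
    refine ⟨fun x => ∑ k ∈ Finset.range (M + 1), g (Function.update x c0 (v k)) * (B k).eval (x c0),
      ?_, ?_, ?_⟩
    · intro x hx
      obtain ⟨P, hP, hPe⟩ := g3 c0 hc0 x fun j _ => hx j
      have h1 : g x = P.eval (x c0) := by
        have := hPe (x c0) (hx c0)
        rwa [Function.update_eq_self] at this
      rw [← g1 x hx, h1, gq_lagrange M v hv P hP]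
      refine Finset.sum_congr rfl fun k hk => ?_
      rw [hPe (v k) (hvr k hk)]
    · intro c hc x hx
      have hx' : ∀ k ∈ Finset.range (M + 1), ∀ j, j ∉ s →
          |Function.update x c0 (v k) j - tc j| < r := by
        intro k hk j hj
        by_cases hjc : j = c0
        · subst hjc
          rw [Function.update_self]
          exact hvr k hk
        · rw [Function.update_of_ne hjc]
          exact hx j (by simp [hjc, hj])
      rcases Finset.mem_insert.1 hc with rfl | hcs
      · refine ⟨∑ k ∈ Finset.range (M + 1), Polynomial.C (g (Function.update x c (v k))) * B k,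
          ?_, ?_⟩
        · refine Polynomial.natDegree_sum_le_of_forall_le _ _ fun k hk => ?_
          exact (Polynomial.natDegree_C_mul_le _ _).trans (gq_basis_deg M v hv hk)
        · intro t
          rw [Polynomial.eval_finsetSum]
          refine Finset.sum_congr rfl fun k _ => ?_
          rw [Polynomial.eval_mul, Polynomial.eval_C, Function.update_self, Function.update_idem]
      · have hne : c ≠ c0 := fun h => hc0 (h ▸ hcs)
        have hch : ∀ k : ℕ, ∃ P : Polynomial ℝ, k ∈ Finset.range (M + 1) → P.natDegree ≤ M ∧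
            ∀ t : ℝ, g (Function.update (Function.update x c0 (v k)) c t) = P.eval t := by
          intro k
          by_cases hk : k ∈ Finset.range (M + 1)
          · obtain ⟨P, h⟩ := g2 c hcs _ (hx' k hk)
            exact ⟨P, fun _ => h⟩
          · exact ⟨0, fun h => absurd h hk⟩
        choose P hP using hch
        refine ⟨∑ k ∈ Finset.range (M + 1), Polynomial.C ((B k).eval (x c0)) * P k, ?_, ?_⟩
        · refine Polynomial.natDegree_sum_le_of_forall_le _ _ fun k hk => ?_
          exact (Polynomial.natDegree_C_mul_le _ _).trans (hP k hk).1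
        · intro t
          rw [Polynomial.eval_finsetSum]
          refine Finset.sum_congr rfl fun k hk => ?_
          rw [Polynomial.eval_mul, Polynomial.eval_C, Function.update_of_ne hne.symm,
            Function.update_comm hne, (hP k hk).2 t, mul_comm]
    · intro c hc x hx
      rw [Finset.mem_insert, not_or] at hc
      obtain ⟨hne, hcs⟩ := hc
      have hx' : ∀ k ∈ Finset.range (M + 1), ∀ j, j ∉ s →
          |Function.update x c0 (v k) j - tc j| < r := by
        intro k hk j hj
        by_cases hjc : j = c0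
        · subst hjc
          rw [Function.update_self]
          exact hvr k hk
        · rw [Function.update_of_ne hjc]
          exact hx j (by simp [hjc, hj])
      have hch : ∀ k : ℕ, ∃ P : Polynomial ℝ, k ∈ Finset.range (M + 1) → P.natDegree ≤ M ∧
          ∀ t : ℝ, |t - tc c| < r →
            g (Function.update (Function.update x c0 (v k)) c t) = P.eval t := by
        intro k
        by_cases hk : k ∈ Finset.range (M + 1)
        · obtain ⟨P, h⟩ := g3 c hcs _ (hx' k hk)
          exact ⟨P, fun _ => h⟩
        · exact ⟨0, fun h => absurd h hk⟩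
      choose P hP using hch
      refine ⟨∑ k ∈ Finset.range (M + 1), Polynomial.C ((B k).eval (x c0)) * P k, ?_, ?_⟩
      · refine Polynomial.natDegree_sum_le_of_forall_le _ _ fun k hk => ?_
        exact (Polynomial.natDegree_C_mul_le _ _).trans (hP k hk).1
      · intro t ht
        rw [Polynomial.eval_finsetSum]
        refine Finset.sum_congr rfl fun k hk => ?_
        rw [Polynomial.eval_mul, Polynomial.eval_C, Function.update_of_ne (Ne.symm hne),
          Function.update_comm hne, (hP k hk).2 t ht, mul_comm]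

/-- the centre of the upper box -/
noncomputable def gq_tc (d : ℕ) : X d := fun c => if c = 0 then 3 / 4 else 1 / 2

theorem gq_mem_obx {x : X d} : x ∈ obx d (3 / 4) ↔ ∀ j, |x j - gq_tc d j| < 1 / 32 := by
  constructor
  · rintro ⟨h1, h2⟩ j
    by_cases hj : j = 0
    · subst hj
      simpa [gq_tc] using h1
    · have := h2 j hj
      simpa [gq_tc, hj] using this
  · intro h
    refine ⟨?_, fun c hc => ?_⟩
    · have := h 0
      simpa [gq_tc] using this
    · have := h c
      simpa [gq_tc, hc] using this

theorem gen_poly (S : SData d V) {p : X d → V} (hp : S.Rel (AD d) p) :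
    ∃ q ∈ S.R (Module.finrank ℝ V), ∀ x ∈ AD d, q x = p x := by
  classical
  set M := Module.finrank ℝ V with hM
  let b := Module.finBasis ℝ V
  let co : Fin (Module.finrank ℝ V) → (V →L[ℝ] ℝ) := fun j => LinearMap.toContinuousLinearMap (b.coord j)
  -- interpolation of the coordinates
  have hg : ∀ j, ∃ g : X d → ℝ, SepPoly M g ∧ ∀ x ∈ obx d (3 / 4), g x = co j (p x) := by
    intro j
    obtain ⟨g, g1, g2, -⟩ := gq_local (n := d + 1) M (gq_tc d) (r := 1 / 32) (by norm_num)
      (fun x => co j (p x)) (by
        intro c x hx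
        have hx' : x ∈ obx d (3 / 4) := gq_mem_obx.2 hx
        obtain ⟨P, hP, hPe⟩ := gen_top S hp (co j) c hx'
        refine ⟨P, hP, fun t ht => hPe t (gq_mem_obx.2 fun i => ?_)⟩
        by_cases hi : i = c
        · subst hi
          rw [Function.update_self]
          exact ht
        · rw [Function.update_of_ne hi]
          exact hx i) Finset.univ
    refine ⟨g, fun i x => g2 i (Finset.mem_univ i) x fun j hj => absurd (Finset.mem_univ j) hj,
      fun x hx => g1 x (gq_mem_obx.1 hx)⟩
  choose g hg1 hg2 using hg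
  let q : X d → V := fun x => ∑ j, g j x • b j
  have hqp : ∀ x ∈ obx d (3 / 4), q x = p x := by
    intro x hx
    change ∑ j, g j x • b j = p x
    have h1 : ∑ j, g j x • b j = ∑ j, b.repr (p x) j • b j := by
      refine Finset.sum_congr rfl fun j _ => ?_
      rw [hg2 j x hx]
      rfl
    rw [h1, b.sum_repr]
  have hq1 : ∀ ℓ : V →L[ℝ] ℝ, SepPoly M fun x => ℓ (q x) := by
    intro ℓ
    have h1 : (fun x => ℓ (q x)) = fun x => ∑ j, ℓ (b j) * g j x := by
      funext x
      change ℓ (∑ j, g j x • b j) = _
      rw [map_sum]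
      exact Finset.sum_congr rfl fun j _ => by rw [map_smul, smul_eq_mul, mul_comm]
    rw [h1]
    exact SepPoly.sum _ fun j _ => (hg1 j).const_mul _
  -- small boxes
  let O1 : Set (X d) := {w | ∀ j, |w j - gq_tc d j| < 1 / 64}
  let O2 : Set (X d) := cone d ∩ {z | ∀ j, |z j| < 1 / 64}
  have hO1 : IsOpen O1 := by
    have : O1 = ⋂ j : Fin (d + 1), {w : X d | |w j - gq_tc d j| < 1 / 64} := by
      ext w
      simp [O1]
    rw [this]
    exact isOpen_iInter_of_finite fun j => isOpen_lt (by fun_prop) continuous_const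
  have hO1' : O1.Nonempty := ⟨gq_tc d, fun j => by simp⟩
  have hO2 : IsOpen O2 := by
    refine gp_isOpen_cone.inter ?_
    have : {z : X d | ∀ j, |z j| < 1 / 64} = ⋂ j : Fin (d + 1), {z : X d | |z j| < 1 / 64} := by
      ext w
      simp
    rw [this]
    exact isOpen_iInter_of_finite fun j => isOpen_lt (by fun_prop) continuous_const
  have hO2' : O2.Nonempty := by
    refine ⟨Pi.single 0 (1 / 128), ⟨fun c hc => ?_, ?_⟩, fun j => ?_⟩
    · rw [Pi.single_eq_of_ne hc, Pi.single_eq_same]
      norm_num
    · simp
    · by_cases hj : j = 0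
      · subst hj
        rw [Pi.single_eq_same]
        norm_num
      · rw [Pi.single_eq_of_ne hj]
        norm_num
  have hsmall : ∀ i, ∀ z ∈ O2, ∀ w ∈ O1, S.e i z (q (w + z) - q w) = 0 := by
    intro i z hz w hw
    have hw' : w ∈ obx d (3 / 4) := gq_mem_obx.2 fun j => (hw j).trans (by norm_num)
    have hwz : w + z ∈ obx d (3 / 4) := by
      refine gq_mem_obx.2 fun j => ?_
      have h1 := abs_lt.1 (hw j)
      have h2 := abs_lt.1 (hz.2 j)
      rw [Pi.add_apply, abs_lt]
      constructor <;> linarith [h1.1, h1.2, h2.1, h2.2]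
    have h3 := hp (w + z) (Or.inr hwz) w (Or.inr hw') (by rw [add_sub_cancel_left]; exact hz.1) i
    rw [add_sub_cancel_left] at h3
    rw [hqp _ hwz, hqp _ hw']
    exact h3
  have hsmall2 : ∀ i, ∀ z ∈ O2, ∀ w, S.e i z (q (w + z) - q w) = 0 := by
    intro i z hz w
    have h1 : SepPoly M fun w : X d => S.e i z (q (w + z) - q w) := by
      have h2 : (fun w : X d => S.e i z (q (w + z) - q w)) =
          fun w : X d => S.e i z (q (z + (1 : ℝ) • w)) + (-1) * S.e i z (q w) := by
        funext w
        rw [map_sub, one_smul, add_comm w z]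
        ring
      rw [h2]
      exact ((hq1 (S.e i z)).comp_affine z 1).add ((hq1 (S.e i z)).const_mul (-1))
    exact sepPoly_eq_zero h1 hO1 hO1' (fun w hw => hsmall i z hz w hw) w
  have hall : ∀ (i : Fin S.N) (w z : X d), S.e i z (q (w + z) - q w) = 0 := by
    intro i w z
    have h1 : SepPoly (S.deg + M) fun z : X d => S.e i z (q (w + z) - q w) := by
      have h2 : (fun z : X d => S.e i z (q (w + z) - q w)) =
          fun z : X d => ∑ j, S.e i z (b j) * (g j (w + (1 : ℝ) • z) + (-g j w)) := by
        funext z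
        have h3 : q (w + z) - q w = ∑ j, (g j (w + z) - g j w) • b j := by
          change ∑ j, g j (w + z) • b j - ∑ j, g j w • b j = _
          rw [← Finset.sum_sub_distrib]
          exact Finset.sum_congr rfl fun j _ => by rw [sub_smul]
        rw [h3, map_sum]
        refine Finset.sum_congr rfl fun j _ => ?_
        rw [map_smul, smul_eq_mul, one_smul]
        ring
      rw [h2]
      exact SepPoly.sum _ fun j _ => (S.e_sep i (b j)).mul
        (((hg1 j).comp_affine w 1).add (sepPoly_const M _))
    exact sepPoly_eq_zero h1 hO2 hO2' (fun z hz => hsmall2 i z hz w) z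
  refine ⟨q, ⟨hq1, hall⟩, fun y hy => ?_⟩
  rcases hy with hy | hy
  · -- the lower box
    rw [← sub_eq_zero]
    refine S.span _ fun i z => ?_
    have hO3 : IsOpen ((fun z : X d => y + z) ⁻¹' obx d (3 / 4)) :=
      (gp_isOpen_obx (3 / 4)).preimage (by fun_prop)
    have hO3' : ((fun z : X d => y + z) ⁻¹' obx d (3 / 4)).Nonempty := by
      refine ⟨gq_tc d - y, ?_⟩
      change y + (gq_tc d - y) ∈ obx d (3 / 4)
      rw [add_sub_cancel]
      exact gq_mem_obx.2 fun j => by simp
    refine sepPoly_eq_zero (S.e_sep i (q y - p y)) hO3 hO3' (fun z hz => ?_) z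
    have hz' : y + z ∈ obx d (3 / 4) := hz
    have h1 := hp (y + z) (Or.inr hz') y (Or.inl hy) (gp_cone_boxes hz' hy) i
    rw [add_sub_cancel_left] at h1
    have h2 := hall i y z
    rw [← hqp _ hz', map_sub] at h1
    rw [map_sub] at h2
    change S.e i z (q y - p y) = 0
    rw [map_sub]
    linarith
  · exact hqp y hy

end BDJ
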