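import Pool.Agent.BDJ.GenTR

/-!
# Projection onto the rigid maps of slicing data (row GEN-D)

`R = S.R M` is finite-dimensional: a map `p ∈ R` is determined by its values at the grid points `{0,...,M}^n` (`sepPoly_interp` applied to `ℓ ∘ p`, `ℓ` in a separating finite family of functionals).
On the unit box `Q1 = bx 0 1` consider the symmetric bilinear form `b(p,q) = ∫_{Q1} ∑_k ℓ_k(p) ℓ_k(q)` (`ℓ_k` coordinates in a basis of `V`), positive definite on `R` (elements of `R` are continuous, vanish identically if they vanish on `Q1`, `sepPoly_eq_zero`).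
So there is a basis `r_m` of `R` and a dual basis `r'_m ∈ R`, `p = ∑_m b(p, r'_m) r_m` for `p ∈ R`. Put `P1 u = ∑_m (∫_{Q1} ∑_k ℓ_k(u) ℓ_k(r'_m)) r_m` and
`P u c l x = P1 (y ↦ u (c + l y)) ((x - c)/l)`. `R` is invariant under `p ↦ p(c + l ·)` for `l ≠ 0` (`e_smul`, `SepPoly.comp_affine`), which gives `P_id`. `P_lip`: the functions `r_m`, `r'_m` are bounded on `[0,1]^n`, the change of variables
gives `∫_{Q1} ‖u(c + l y)‖ dy = l^(-n) ∫_{bx c l} ‖u‖`. (For `l ≤ 0` define `P u c l = 0`, or use the same formula: `P_mem` must hold for all `l`; take `P u c l = 0` if `l ≤ 0`.)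
-/

open MeasureTheory Set
open scoped ENNReal NNReal

namespace BDJ

variable {d : ℕ} {V : Type*} [NormedAddCommGroup V] [NormedSpace ℝ V] [FiniteDimensional ℝ V]

theorem gp_zero_of_forall {v : V} (h : ∀ ℓ : V →L[ℝ] ℝ, ℓ v = 0) : v = 0 := by
  by_contra hv
  obtain ⟨g, hg⟩ := SeparatingDual.exists_ne_zero (R := ℝ) hv
  exact hg (h g)

/-- a rigid map vanishing at the grid points vanishes -/
theorem gp_grid (S : SData d V) (M : ℕ) {p : X d → V} (hp : p ∈ S.R M)
    (h : ∀ k : Fin (d + 1) → Fin (M + 1), p (fun i => ((k i : ℕ) : ℝ)) = 0) : p = 0 := by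
  funext x
  apply gp_zero_of_forall
  intro ℓ
  have h1 := sepPoly_interp (hp.1 ℓ) x
  rw [h1]
  apply Finset.sum_eq_zero
  intro k _
  rw [h k, map_zero, mul_zero]

theorem gen_finite (S : SData d V) (M : ℕ) : FiniteDimensional ℝ (S.R M) := by
  have : FiniteDimensional ℝ ((Fin (d + 1) → Fin (M + 1)) → V) := inferInstance
  let ev : S.R M →ₗ[ℝ] ((Fin (d + 1) → Fin (M + 1)) → V) :=
    { toFun := fun p k => (p : X d → V) (fun i => ((k i : ℕ) : ℝ))
      map_add' := fun p q => rfl
      map_smul' := fun c p => rfl }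
  apply FiniteDimensional.of_injective ev
  rw [injective_iff_map_eq_zero]
  intro p hp
  apply Subtype.ext
  exact gp_grid S M p.2 fun k => congrFun hp k

/-- the affine change of variables -/
theorem gp_comp (S : SData d V) (M : ℕ) {p : X d → V} (hp : p ∈ S.R M) (a : X d) {l : ℝ}
    (hl : l ≠ 0) : (fun x => p (a + l • x)) ∈ S.R M := by
  refine ⟨fun ℓ => (hp.1 ℓ).comp_affine a l, fun i w z => ?_⟩
  have h1 := hp.2 i (a + l • w) (l • z)
  rw [S.e_smul] at h1
  have h2 : a + l • w + l • z = a + l • (w + z) := by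
    rw [smul_add]
    abel
  rw [h2] at h1
  rw [ContinuousLinearMap.smul_apply, smul_eq_mul] at h1
  exact (mul_eq_zero.1 h1).resolve_left (pow_ne_zero _ hl)

theorem gp_cont (S : SData d V) (M : ℕ) {p : X d → V} (hp : p ∈ S.R M) : Continuous p := by
  set b := Module.finBasis ℝ V
  have h1 : p = fun x => ∑ k, (LinearMap.toContinuousLinearMap (b.coord k)) (p x) • b k := by
    funext x
    simp only [LinearMap.coe_toContinuousLinearMap', Module.Basis.coord_apply]
    exact (b.sum_repr (p x)).symm
  rw [h1]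
  apply continuous_finsetSum
  intro k _
  exact (hp.1 _).continuous.smul continuous_const

theorem gp_mem_bx (c : X d) {l : ℝ} (hl : 0 < l) (y : X d) : c + l • y ∈ bx c l ↔ y ∈ bx (0 : X d) 1 := by
  simp only [bx, mem_ofPred_eq, Pi.add_apply, Pi.smul_apply, smul_eq_mul, Pi.zero_apply, zero_add]
  refine forall_congr' fun i => ?_
  constructor
  · rintro ⟨h1, h2⟩
    constructor
    · by_contra h
      have := mul_neg_of_pos_of_neg hl (not_le.1 h)
      linarith
    · by_contra h
      have := mul_le_mul_of_nonneg_left (not_lt.1 h) hl.le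
      linarith
  · rintro ⟨h1, h2⟩
    constructor
    · have := mul_nonneg hl.le h1
      linarith
    · have := mul_lt_mul_of_pos_left h2 hl
      linarith

theorem gp_integrableOn (S : SData d V) (M : ℕ) {p : X d → V} (hp : p ∈ S.R M) (c : X d) (l : ℝ) :
    IntegrableOn p (bx c l) := by
  have h1 : bx c l ⊆ Set.Icc c (fun i => c i + l) := by
    intro x hx
    exact ⟨fun i => (hx i).1, fun i => (hx i).2.le⟩
  exact ((gp_cont S M hp).continuousOn.integrableOn_compact isCompact_Icc).mono_set h1

theorem gp_ind {W : Type*} [Zero W] (f : X d → W) (c : X d) {l : ℝ} (hl : 0 < l) (y : X d) :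
    (bx (0 : X d) 1).indicator (fun y => f (c + l • y)) y = (bx c l).indicator f (c + l • y) := by
  by_cases h : y ∈ bx (0 : X d) 1
  · rw [indicator_of_mem h, indicator_of_mem ((gp_mem_bx c hl y).2 h)]
  · rw [indicator_of_notMem h, indicator_of_notMem fun h' => h ((gp_mem_bx c hl y).1 h')]

theorem gp_integrable {u : X d → V} {c : X d} {l : ℝ} (hl : 0 < l) (hu : IntegrableOn u (bx c l)) :
    IntegrableOn (fun y => u (c + l • y)) (bx (0 : X d) 1) := by
  rw [← integrable_indicator_iff (measurableSet_bx 0 1)]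
  have h1 : (bx (0 : X d) 1).indicator (fun y => u (c + l • y)) =
      fun y => (bx c l).indicator u (c + l • y) := funext fun y => gp_ind u c hl y
  rw [h1]
  have h2 : Integrable ((bx c l).indicator u) := (integrable_indicator_iff (measurableSet_bx c l)).2 hu
  exact Integrable.comp_smul (f := fun z => (bx c l).indicator u (c + z)) (h2.comp_add_left c) hl.ne'

theorem gp_change {f : X d → ℝ} {c : X d} {l : ℝ} (hl : 0 < l) :
    ∫ y in bx (0 : X d) 1, f (c + l • y) = (l ^ (d + 1))⁻¹ * ∫ y in bx c l, f y := by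
  rw [← integral_indicator (measurableSet_bx 0 1), ← integral_indicator (measurableSet_bx c l)]
  have h1 : (bx (0 : X d) 1).indicator (fun y => f (c + l • y)) =
      fun y => (fun z => (bx c l).indicator f (c + z)) (l • y) := funext fun y => gp_ind f c hl y
  rw [h1, Measure.integral_comp_smul, integral_add_left_eq_self]
  rw [Module.finrank_fintype_fun_eq_card, Fintype.card_fin, smul_eq_mul, abs_of_pos (by positivity)]

/-- a rigid map which vanishes almost everywhere on the unit box vanishes -/
theorem gp_ae_zero (S : SData d V) (M : ℕ) {p : X d → V} (hp : p ∈ S.R M)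
    (h : p =ᵐ[volume.restrict (bx (0 : X d) 1)] 0) : p = 0 := by
  set O : Set (X d) := Set.pi univ fun _ => Ioo (0 : ℝ) 1 with hO
  have hOo : IsOpen O := isOpen_set_pi finite_univ fun _ _ => isOpen_Ioo
  have hOb : O ⊆ bx (0 : X d) 1 := by
    intro x hx i
    have := hx i (mem_univ i)
    simp only [Pi.zero_apply, zero_add]
    exact ⟨this.1.le, this.2⟩
  have hne : O.Nonempty := ⟨fun _ => 1 / 2, fun i _ => ⟨by norm_num, by norm_num⟩⟩
  have h1 : p =ᵐ[volume.restrict O] 0 := ae_restrict_of_ae_restrict_of_subset hOb h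
  have h2 : EqOn p 0 O :=
    Measure.eqOn_open_of_ae_eq h1 hOo (gp_cont S M hp).continuousOn continuousOn_const
  funext x
  apply gp_zero_of_forall
  intro ℓ
  refine sepPoly_eq_zero (hp.1 ℓ) hOo hne ?_ x
  intro y hy
  rw [h2 hy, Pi.zero_apply, map_zero]

theorem gen_proj (S : SData d V) (M : ℕ) : ∃ (P : (X d → V) → X d → ℝ → (X d → V)) (CP : ℝ),
    (∀ u c l, P u c l ∈ S.R M) ∧ (∀ p ∈ S.R M, ∀ c l, 0 < l → P p c l = p) ∧
    (∀ (u v : X d → V) (c : X d) (l : ℝ), 0 < l → IntegrableOn u (bx c l) →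
      IntegrableOn v (bx c l) → ∀ x ∈ bx c l,
      ‖P u c l x - P v c l x‖ ≤ CP * ((l ^ (d + 1))⁻¹ * ∫ y in bx c l, ‖u y - v y‖)) := by
  classical
  have : FiniteDimensional ℝ (S.R M) := gen_finite S M
  set μ : Measure (X d) := volume.restrict (bx (0 : X d) 1) with hμ
  have hRi : ∀ p : S.R M, Integrable (p : X d → V) μ := fun p => gp_integrableOn S M p.2 0 1
  let f : S.R M →ₗ[ℝ] (X d →₁[μ] V) :=
    { toFun := fun p => (hRi p).toL1 _
      map_add' := fun p q => Integrable.toL1_add _ _ (hRi p) (hRi q)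
      map_smul' := fun c p => Integrable.toL1_smul _ (hRi p) c }
  have hfinj : Function.Injective f := by
    rw [injective_iff_map_eq_zero]
    intro p hp
    apply Subtype.ext
    apply gp_ae_zero S M p.2
    have h1 : (hRi p).toL1 _ = (integrable_zero (X d) V μ).toL1 _ := by
      rw [show (integrable_zero (X d) V μ).toL1 _ = (0 : X d →₁[μ] V) from Integrable.toL1_zero _]
      exact hp
    exact (Integrable.toL1_eq_toL1_iff _ _ _ _).1 h1
  set m := Module.finrank ℝ (S.R M)
  let b : Module.Basis (Fin m) ℝ (S.R M) := Module.finBasis ℝ (S.R M)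
  let e : S.R M ≃ₗ[ℝ] (Fin m → ℝ) := b.equivFun
  let f' : (Fin m → ℝ) →ₗ[ℝ] (X d →₁[μ] V) := f ∘ₗ e.symm.toLinearMap
  have hf' : Function.Injective f' := hfinj.comp e.symm.injective
  let E : (Fin m → ℝ) ≃ₗ[ℝ] LinearMap.range f' := LinearEquiv.ofInjective f' hf'
  have : FiniteDimensional ℝ (LinearMap.range f') := inferInstance
  let E' : LinearMap.range f' →L[ℝ] (Fin m → ℝ) := LinearMap.toContinuousLinearMap E.symm.toLinearMap
  obtain ⟨g, hg⟩ := E'.exist_extension_of_finiteDimensional_range
  have hgf : ∀ p : S.R M, g (f p) = e p := by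
    intro p
    have h1 : f p = ((E (e p) : LinearMap.range f') : X d →₁[μ] V) := by
      change f p = f' (e p)
      simp only [f', LinearMap.comp_apply, LinearEquiv.coe_coe, LinearEquiv.symm_apply_apply]
    have h2 : g ((E (e p) : LinearMap.range f') : X d →₁[μ] V) = E' (E (e p)) := by
      rw [hg]
      rfl
    rw [h1, h2]
    simp only [E', LinearMap.coe_toContinuousLinearMap', LinearEquiv.coe_coe,
      LinearEquiv.symm_apply_apply]
  -- the sup norm on the closed box
  let K : Set (X d) := Icc (0 : X d) (fun _ => 1)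
  have hK : IsCompact K := isCompact_Icc
  have : CompactSpace K := isCompact_iff_compactSpace.1 hK
  let h : (Fin m → ℝ) →ₗ[ℝ] C(K, V) :=
    { toFun := fun y => ⟨fun x => (e.symm y : X d → V) x,
        (gp_cont S M (e.symm y).2).comp continuous_subtype_val⟩
      map_add' := fun y y' => by
        ext x
        simp only [map_add, Submodule.coe_add, Pi.add_apply, ContinuousMap.coe_mk,
          ContinuousMap.add_apply]
      map_smul' := fun c y => by
        ext x
        simp only [map_smul, Submodule.coe_smul, Pi.smul_apply, ContinuousMap.coe_mk,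
          ContinuousMap.smul_apply, RingHom.id_apply] }
  let h' : (Fin m → ℝ) →L[ℝ] C(K, V) := LinearMap.toContinuousLinearMap h
  have hh : ∀ (y : Fin m → ℝ) (x : X d), x ∈ bx (0 : X d) 1 →
      ‖(e.symm y : X d → V) x‖ ≤ ‖h'‖ * ‖y‖ := by
    intro y x hx
    have hxK : x ∈ K := ⟨fun i => (hx i).1, fun i => by
      have := (hx i).2
      simp only [Pi.zero_apply, zero_add] at this
      exact this.le⟩
    have h1 : (e.symm y : X d → V) x = h' y ⟨x, hxK⟩ := rfl
    rw [h1]
    exact ((h' y).norm_coe_le_norm _).trans (h'.le_opNorm y)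
  refine ⟨fun u c l => if hh : 0 < l ∧ Integrable (fun y => u (c + l • y)) μ then
      fun x => (e.symm (g (hh.2.toL1 _)) : X d → V) (-(l⁻¹ • c) + l⁻¹ • x) else 0,
    ‖h'‖ * ‖g‖, ?_, ?_, ?_⟩
  · intro u c l
    dsimp only
    split_ifs with hc
    · exact gp_comp S M (e.symm (g (hc.2.toL1 _))).2 _ (inv_ne_zero hc.1.ne')
    · exact (S.R M).zero_mem
  · intro p hp c l hl
    have hi : Integrable (fun y => p (c + l • y)) μ := gp_integrable hl (gp_integrableOn S M hp c l)
    dsimp only
    rw [dif_pos ⟨hl, hi⟩]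
    let q : S.R M := ⟨fun y => p (c + l • y), gp_comp S M hp c hl.ne'⟩
    have h1 : hi.toL1 _ = f q := rfl
    funext x
    rw [h1, hgf, LinearEquiv.symm_apply_apply]
    change p (c + l • (-(l⁻¹ • c) + l⁻¹ • x)) = p x
    rw [smul_add, smul_neg, smul_smul, smul_smul, mul_inv_cancel₀ hl.ne', one_smul, one_smul]
    congr 1
    abel
  · intro u v c l hl hu hv x hx
    have hiu : Integrable (fun y => u (c + l • y)) μ := gp_integrable hl hu
    have hiv : Integrable (fun y => v (c + l • y)) μ := gp_integrable hl hv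
    dsimp only
    rw [dif_pos ⟨hl, hiu⟩, dif_pos ⟨hl, hiv⟩]
    set y0 : X d := -(l⁻¹ • c) + l⁻¹ • x with hy0
    have hxy : c + l • y0 = x := by
      rw [hy0, smul_add, smul_neg, smul_smul, smul_smul, mul_inv_cancel₀ hl.ne', one_smul, one_smul]
      abel
    have hy : y0 ∈ bx (0 : X d) 1 := by
      rw [← gp_mem_bx c hl, hxy]
      exact hx
    have h1 : (e.symm (g (hiu.toL1 _)) : X d → V) y0 - (e.symm (g (hiv.toL1 _)) : X d → V) y0 =
        (e.symm (g ((hiu.sub hiv).toL1 _)) : X d → V) y0 := by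
      rw [Integrable.toL1_sub _ _ hiu hiv, map_sub, map_sub]
      rfl
    rw [h1]
    refine (hh _ _ hy).trans ?_
    rw [mul_assoc]
    refine mul_le_mul_of_nonneg_left ?_ (norm_nonneg _)
    refine (g.le_opNorm _).trans ?_
    refine mul_le_mul_of_nonneg_left ?_ (norm_nonneg _)
    rw [L1.norm_of_fun_eq_integral_norm, ← gp_change (f := fun y => ‖u y - v y‖) hl]
    exact le_refl _

end BDJ
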