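import Pool.Agent.BDJ.GenMin
import Pool.Agent.BDJ.GenPoly2
import Pool.Agent.BDJ.GenProj

/-!
# Stability under perturbation of the base points (row GEN-H)

`M = finrank ℝ V`, `R = S.R M` (finite-dimensional, `gen_finite`). By `gen_span_box` (`ρ = 9`, `O = obx d (1/4)`) choose `Y0`; `gen_min` gives `Z ⊇ Y0`; enumerate `Z` as `z0 : Fin nb → X d` (injective). `rel b b' := z0 b - z0 b' ∈ cone d`. By `gen_min`, `gen_poly`: every `U : Fin nb → V` with
`e i (z0 b - z0 b') (U b - U b') = 0` for related pairs is of the form `U b = q (z0 b)`, `q ∈ R` (*).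

For `y` near `z0` (`|y b c - z0 b c| ≤ δ`): let `ev_y : R → (Fin nb → V)` evaluation at `y`, `L_y : (Fin nb → V) → ((b,b',i) related → ℝ)`, `L_y U = e i (y b - y b') (U b - U b')`; `L_y ∘ ev_y = 0`. Both depend continuously on `y`. At `y = z0`: `ker L = range ev` by (*), and `ev` is injective (a `q ∈ R` vanishing on `Z ⊇ Y0` vanishes:
`e i (x - y)(q x) = 0` for `y ∈ Y0`, `‖x‖ ≤ 9`, so `q x = 0`; identity theorem). Choose a complement `N` of `range ev_{z0}`. The map `R × N → (Fin nb → V)`, `(q, w) ↦ ev_y q + w` is bijective at `y = z0`, hence bijective with uniformly bounded inverse for `δ` small; `L_{z0}` is bounded below on `N`, so `L_y` is bounded below on `N` uniformly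
for `δ` small. Hence for every `U` there is `q ∈ R` with `max_b ‖U b - q (y b)‖ ≤ C max |L_y U|` (**). (Alternatively, by contradiction with sequences `y_m → z0` and compactness of the unit sphere.)

The field `la`, first for `l = 1`, `o = 0`: `D` bounds `|L_y U|`, `q` from (**). For `‖x‖ ≤ 8`, `v`, `B` as in the statement: `η = v - q x` satisfies
`|e i (x - y b) η| ≤ |e i (x - y b) (v - U b)| + |e i (x - y b) (U b - q (y b))| + 0 ≤ B + C D` for all `b`, and the functionals `e i (x - y b)`, `y b` near the points of `Y0`, are norming uniformly for `‖x‖ ≤ 9` (`gen_span_box` and continuity, `δ` small): `‖η‖ ≤ C (B + D)`.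
Make sure that there are related pairs (add one point of each of the two boxes to `Y0`), so that the hypotheses force `0 ≤ D`, `0 ≤ B` (here `0 < S.N` is used).
General `l`, `o`: rescale (`x ↦ (x - o)/l`; `R` is invariant; `e i (l z) = l^deg e i z`).
-/

open MeasureTheory Set
open scoped ENNReal NNReal

namespace BDJ

variable {d : ℕ} {V : Type*} [NormedAddCommGroup V] [NormedSpace ℝ V] [FiniteDimensional ℝ V]

theorem la_cont (S : SData d V) {M : ℕ} {q : X d → V} (hq : q ∈ S.R M) : Continuous q := by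
  let b := Module.finBasis ℝ V
  let e : V ≃L[ℝ] (Fin (Module.finrank ℝ V) → ℝ) := b.equivFun.toContinuousLinearEquiv
  have h1 : Continuous fun x => e (q x) :=
    continuous_pi fun k => (hq.1 ((ContinuousLinearMap.proj (R := ℝ) (φ := fun _ => ℝ) k).comp
      (e : V →L[ℝ] (Fin (Module.finrank ℝ V) → ℝ)))).continuous
  have h2 := e.symm.continuous.comp h1
  have h3 : (e.symm ∘ fun x => e (q x)) = q := by
    funext x
    exact e.symm_apply_apply (q x)
  rwa [h3] at h2

/-- sum of the defects -/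
noncomputable def laPhi (S : SData d V) {nb : ℕ} (rel : Fin nb → Fin nb → Prop)
    (y : Fin nb → X d) (U : Fin nb → V) : ℝ :=
  open Classical in
  ∑ b, ∑ b', ∑ i, if rel b b' then |S.e i (y b - y b') (U b - U b')| else 0

theorem laPhi_nonneg (S : SData d V) {nb : ℕ} (rel : Fin nb → Fin nb → Prop)
    (y : Fin nb → X d) (U : Fin nb → V) : 0 ≤ laPhi S rel y U := by
  classical
  refine Finset.sum_nonneg fun b _ => Finset.sum_nonneg fun b' _ => Finset.sum_nonneg fun i _ => ?_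
  split_ifs
  · exact abs_nonneg _
  · exact le_rfl

theorem laPhi_cont (S : SData d V) {nb : ℕ} (rel : Fin nb → Fin nb → Prop) :
    Continuous fun P : (Fin nb → X d) × (Fin nb → V) => laPhi S rel P.1 P.2 := by
  classical
  unfold laPhi
  refine continuous_finsetSum _ fun b _ => continuous_finsetSum _ fun b' _ =>
    continuous_finsetSum _ fun i _ => ?_
  by_cases h : rel b b'
  · simp only [h, if_true]
    refine continuous_abs.comp ?_
    have h1 : Continuous fun P : (Fin nb → X d) × (Fin nb → V) => S.e i (P.1 b - P.1 b') :=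
      (gen_e_contDiff S i).continuous.comp (by fun_prop)
    exact h1.clm_apply (by fun_prop)
  · simp only [h, if_false]
    exact continuous_const

theorem laPhi_smul (S : SData d V) {nb : ℕ} (rel : Fin nb → Fin nb → Prop)
    (y : Fin nb → X d) (U : Fin nb → V) {c : ℝ} (hc : 0 ≤ c) :
    laPhi S rel y (c • U) = c * laPhi S rel y U := by
  classical
  unfold laPhi
  simp only [Finset.mul_sum]
  refine Finset.sum_congr rfl fun b _ => Finset.sum_congr rfl fun b' _ =>
    Finset.sum_congr rfl fun i _ => ?_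
  split_ifs
  · rw [Pi.smul_apply, Pi.smul_apply, ← smul_sub, map_smul, smul_eq_mul, abs_mul, abs_of_nonneg hc]
  · rw [mul_zero]

theorem laPhi_le (S : SData d V) {nb : ℕ} (rel : Fin nb → Fin nb → Prop)
    (y : Fin nb → X d) (U : Fin nb → V) {D : ℝ} (hD : 0 ≤ D)
    (h : ∀ b b', rel b b' → ∀ i, |S.e i (y b - y b') (U b - U b')| ≤ D) :
    laPhi S rel y U ≤ nb * nb * S.N * D := by
  classical
  have h1 : laPhi S rel y U ≤ ∑ _b : Fin nb, ∑ _b' : Fin nb, ∑ _i : Fin S.N, D := by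
    refine Finset.sum_le_sum fun b _ => Finset.sum_le_sum fun b' _ => Finset.sum_le_sum fun i _ => ?_
    split_ifs with hr
    · exact h b b' hr i
    · exact hD
  refine h1.trans (le_of_eq ?_)
  simp only [Finset.sum_const, Finset.card_univ, Fintype.card_fin, nsmul_eq_mul]
  ring

/-- rigid maps have no defect -/
theorem laPhi_sub (S : SData d V) {nb : ℕ} (rel : Fin nb → Fin nb → Prop)
    (y : Fin nb → X d) (U : Fin nb → V) {M : ℕ} {q : X d → V} (hq : q ∈ S.R M) :
    laPhi S rel y (U - fun b => q (y b)) = laPhi S rel y U := by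
  classical
  unfold laPhi
  refine Finset.sum_congr rfl fun b _ => Finset.sum_congr rfl fun b' _ =>
    Finset.sum_congr rfl fun i _ => ?_
  have h1 := hq.2 i (y b') (y b - y b')
  rw [add_sub_cancel] at h1
  have h2 : (U - fun b => q (y b)) b - (U - fun b => q (y b)) b' =
      (U b - U b') - (q (y b) - q (y b')) := by
    rw [Pi.sub_apply, Pi.sub_apply]
    abel
  rw [h2, map_sub, h1, sub_zero]

theorem la_key (S : SData d V) (M : ℕ) {nb : ℕ} (z0 : Fin nb → X d)
    (rel : Fin nb → Fin nb → Prop)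
    (hext : ∀ U : Fin nb → V, (∀ b b', rel b b' → ∀ i, S.e i (z0 b - z0 b') (U b - U b') = 0) →
      ∃ q ∈ S.R M, ∀ b, q (z0 b) = U b) :
    ∃ δ : ℝ, 0 < δ ∧ ∃ c : ℝ, 0 < c ∧ ∀ y : Fin nb → X d, ‖y - z0‖ ≤ δ → ∀ U : Fin nb → V,
      (∀ q ∈ S.R M, ‖U‖ ≤ 2 * ‖U - fun b => q (y b)‖) → c * ‖U‖ ≤ laPhi S rel y U := by
  classical
  let K : Set ((Fin nb → X d) × (Fin nb → V)) :=
    (Metric.closedBall z0 1 ×ˢ Metric.sphere (0 : Fin nb → V) 1) ∩
      ⋂ q : S.R M, {P | 1 ≤ 2 * ‖P.2 - fun b => q.1 (P.1 b)‖}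
  have hK : IsCompact K := by
    refine ((isCompact_closedBall z0 1).prod (isCompact_sphere _ 1)).inter_right
      (isClosed_iInter fun q => ?_)
    have hqc := la_cont S q.2
    refine isClosed_le continuous_const (continuous_const.mul (Continuous.norm ?_))
    refine continuous_snd.sub (continuous_pi fun b => hqc.comp ?_)
    exact (continuous_apply b).comp continuous_fst
  obtain ⟨c, hc, h⟩ := hK.exists_forall_le'
    (f := fun P : (Fin nb → X d) × (Fin nb → V) => laPhi S rel P.1 P.2 + ‖P.1 - z0‖) (a := 0)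
    ((laPhi_cont S rel).add (by fun_prop)).continuousOn (by
      rintro ⟨y, U⟩ ⟨⟨-, hU⟩, hq⟩
      rw [Set.mem_iInter] at hq
      show 0 < laPhi S rel y U + ‖y - z0‖
      by_contra hle
      have h1 := laPhi_nonneg S rel y U
      have h2 := norm_nonneg (y - z0)
      have h3 : laPhi S rel y U = 0 := by linarith
      have h4 : ‖y - z0‖ = 0 := by linarith
      have h5 : y = z0 := sub_eq_zero.1 (norm_eq_zero.1 h4)
      subst h5
      have hnn : ∀ b b' i, (0 : ℝ) ≤ if rel b b' then |S.e i (y b - y b') (U b - U b')| else 0 := by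
        intro b b' i
        by_cases hr : rel b b'
        · rw [if_pos hr]
          exact abs_nonneg _
        · rw [if_neg hr]
      obtain ⟨q, hqR, hqe⟩ := hext U (fun b b' hr i => by
        have h6 := (Finset.sum_eq_zero_iff_of_nonneg (fun b _ => Finset.sum_nonneg fun b' _ =>
          Finset.sum_nonneg fun i _ => hnn b b' i)).1 h3 b (Finset.mem_univ b)
        have h7 := (Finset.sum_eq_zero_iff_of_nonneg (fun b' _ =>
          Finset.sum_nonneg fun i _ => hnn b b' i)).1 h6 b' (Finset.mem_univ b')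
        have h8 := (Finset.sum_eq_zero_iff_of_nonneg (fun i _ => hnn b b' i)).1 h7 i (Finset.mem_univ i)
        rw [if_pos hr] at h8
        exact abs_eq_zero.1 h8)
      have h9 : (1 : ℝ) ≤ 2 * ‖U - fun b => q (y b)‖ := hq ⟨q, hqR⟩
      have h10 : (fun b => q (y b)) = U := funext hqe
      rw [h10, sub_self, norm_zero, mul_zero] at h9
      linarith)
  refine ⟨min (c / 2) 1, lt_min (half_pos hc) one_pos, c / 2, half_pos hc, ?_⟩
  intro y hy U hU
  by_cases hU0 : U = 0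
  · rw [hU0, norm_zero, mul_zero]
    exact laPhi_nonneg S rel y 0
  have hn : 0 < ‖U‖ := norm_pos_iff.2 hU0
  have hmem : (y, ‖U‖⁻¹ • U) ∈ K := by
    refine ⟨⟨?_, ?_⟩, ?_⟩
    · rw [Metric.mem_closedBall, dist_eq_norm]
      exact hy.trans (min_le_right _ _)
    · rw [mem_sphere_zero_iff_norm, norm_smul, norm_inv, norm_norm, inv_mul_cancel₀ hn.ne']
    · rw [Set.mem_iInter]
      intro q
      show (1 : ℝ) ≤ 2 * ‖‖U‖⁻¹ • U - fun b => q.1 (y b)‖
      have h1 := hU (‖U‖ • q.1) ((S.R M).smul_mem _ q.2)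
      have h2 : (‖U‖⁻¹ • U - fun b => q.1 (y b)) =
          ‖U‖⁻¹ • (U - fun b => (‖U‖ • q.1) (y b)) := by
        funext b
        simp only [Pi.sub_apply, Pi.smul_apply, smul_sub, smul_smul, inv_mul_cancel₀ hn.ne', one_smul]
      rw [h2, norm_smul, norm_inv, norm_norm]
      have h3 : ‖U‖⁻¹ * ‖U‖ ≤ ‖U‖⁻¹ * (2 * ‖U - fun b => (‖U‖ • q.1) (y b)‖) :=
        mul_le_mul_of_nonneg_left h1 (inv_nonneg.2 hn.le)
      rw [inv_mul_cancel₀ hn.ne'] at h3
      linarith
  have h1 := h _ hmem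
  have h2 : c ≤ ‖U‖⁻¹ * laPhi S rel y U + ‖y - z0‖ := by
    rw [← laPhi_smul S rel y U (inv_nonneg.2 hn.le)]
    exact h1
  have h3 : ‖y - z0‖ ≤ c / 2 := hy.trans (min_le_left _ _)
  have h4 : c / 2 ≤ ‖U‖⁻¹ * laPhi S rel y U := by linarith
  calc c / 2 * ‖U‖ ≤ ‖U‖⁻¹ * laPhi S rel y U * ‖U‖ := mul_le_mul_of_nonneg_right h4 hn.le
    _ = laPhi S rel y U := by field_simp

/-- approximate solutions at perturbed points are close to rigid maps -/
theorem la_solve (S : SData d V) (M : ℕ) {nb : ℕ} (z0 : Fin nb → X d)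
    (rel : Fin nb → Fin nb → Prop)
    (hext : ∀ U : Fin nb → V, (∀ b b', rel b b' → ∀ i, S.e i (z0 b - z0 b') (U b - U b') = 0) →
      ∃ q ∈ S.R M, ∀ b, q (z0 b) = U b) :
    ∃ δ : ℝ, 0 < δ ∧ ∃ C : ℝ, 0 ≤ C ∧ ∀ y : Fin nb → X d, ‖y - z0‖ ≤ δ → ∀ (U : Fin nb → V) (D : ℝ),
      0 ≤ D → (∀ b b', rel b b' → ∀ i, |S.e i (y b - y b') (U b - U b')| ≤ D) →
      ∃ q ∈ S.R M, ∀ b, ‖U b - q (y b)‖ ≤ C * D := by
  obtain ⟨δ, hδ, c, hc, h⟩ := la_key S M z0 rel hext
  refine ⟨δ, hδ, c⁻¹ * (nb * nb * S.N), by positivity, ?_⟩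
  intro y hy U D hD hU
  let F : Submodule ℝ (Fin nb → V) := (S.R M).map (LinearMap.funLeft ℝ V y)
  have hFne : (F : Set (Fin nb → V)).Nonempty := ⟨0, F.zero_mem⟩
  have hF : IsClosed (F : Set (Fin nb → V)) := F.closed_of_finiteDimensional
  have hDC : 0 ≤ c⁻¹ * (nb * nb * S.N) * D := by positivity
  by_cases hm : Metric.infDist U F = 0
  · have h1 : U ∈ F := (hF.mem_iff_infDist_zero hFne).2 hm
    obtain ⟨q, hq, hqU⟩ := h1
    refine ⟨q, hq, fun b => ?_⟩
    have h2 : U b = q (y b) := by rw [← hqU]; rfl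
    rw [h2, sub_self, norm_zero]
    exact hDC
  · have hm' : 0 < Metric.infDist U F := lt_of_le_of_ne Metric.infDist_nonneg (Ne.symm hm)
    obtain ⟨W, ⟨q, hq, hqW⟩, hW⟩ := (Metric.infDist_lt_iff hFne).1
      (show Metric.infDist U F < 2 * Metric.infDist U F by linarith)
    have hWq : W = fun b => q (y b) := by rw [← hqW]; rfl
    subst hWq
    refine ⟨q, hq, fun b => ?_⟩
    have h1 := h y hy (U - fun b => q (y b)) (fun q' hq' => by
      have h2 : (fun b => (q + q') (y b)) ∈ (F : Set (Fin nb → V)) :=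
        ⟨q + q', (S.R M).add_mem hq hq', rfl⟩
      have h3 := Metric.infDist_le_dist_of_mem (x := U) h2
      have h4 : (U - fun b => q (y b)) - (fun b => q' (y b)) = U - fun b => (q + q') (y b) := by
        funext b
        simp only [Pi.sub_apply, Pi.add_apply]
        abel
      rw [h4, ← dist_eq_norm, ← dist_eq_norm]
      linarith)
    rw [laPhi_sub S rel y U hq] at h1
    have h2 := laPhi_le S rel y U hD hU
    have h3 : ‖U - fun b => q (y b)‖ ≤ c⁻¹ * (nb * nb * S.N) * D := by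
      rw [mul_assoc, ← div_eq_inv_mul, le_div_iff₀ hc, mul_comm]
      exact h1.trans h2
    exact (norm_le_pi_norm (U - fun b => q (y b)) b).trans h3

theorem la_unif (S : SData d V) (ρ : ℝ) {ε : ℝ} (hε : 0 < ε) : ∃ δ : ℝ, 0 < δ ∧
    ∀ (i : Fin S.N) (z z' : X d), ‖z‖ ≤ ρ → ‖z'‖ ≤ ρ → ‖z - z'‖ ≤ δ → ∀ v : V,
      |S.e i z v - S.e i z' v| ≤ ε * ‖v‖ := by
  have h1 : Continuous fun z : X d => fun i : Fin S.N => S.e i z :=
    continuous_pi fun i => (gen_e_contDiff S i).continuous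
  have h2 : UniformContinuousOn (fun z : X d => fun i : Fin S.N => S.e i z)
      (Metric.closedBall 0 ρ) :=
    (isCompact_closedBall (0 : X d) ρ).uniformContinuousOn_of_continuous h1.continuousOn
  rw [Metric.uniformContinuousOn_iff] at h2
  obtain ⟨δ, hδ, h⟩ := h2 ε hε
  refine ⟨δ / 2, half_pos hδ, ?_⟩
  intro i z z' hz hz' hzz v
  have h3 := h z (by rwa [mem_closedBall_zero_iff]) z' (by rwa [mem_closedBall_zero_iff])
    (by rw [dist_eq_norm]; linarith)
  have h4 : ‖S.e i z - S.e i z'‖ ≤ ε := by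
    have h5 := (dist_pi_lt_iff hε).1 h3 i
    rw [dist_eq_norm] at h5
    exact h5.le
  have h6 := (S.e i z - S.e i z').le_opNorm v
  rw [Real.norm_eq_abs, _root_.sub_apply] at h6
  exact h6.trans (mul_le_mul_of_nonneg_right h4 (norm_nonneg v))

theorem la_finmin {ι : Type*} [Finite ι] (f : ι → ℝ) (h : ∀ i, 0 < f i) :
    ∃ ε : ℝ, 0 < ε ∧ ∀ i, ε ≤ f i := by
  rcases isEmpty_or_nonempty ι with hι | hι
  · exact ⟨1, one_pos, fun i => (hι.false i).elim⟩
  · obtain ⟨i, hi⟩ := Finite.exists_min f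
    exact ⟨f i, h i, hi⟩

theorem la_coord {x : X d} (hx : x ∈ AD d) (c : Fin (d + 1)) : 7 / 32 < x c ∧ x c < 25 / 32 := by
  rcases hx with hx | hx
  · by_cases hc : c = 0
    · subst hc
      have h1 := abs_lt.1 hx.1
      constructor <;> linarith
    · have h1 := abs_lt.1 (hx.2 c hc)
      constructor <;> linarith
  · by_cases hc : c = 0
    · subst hc
      have h1 := abs_lt.1 hx.1
      constructor <;> linarith
    · have h1 := abs_lt.1 (hx.2 c hc)
      constructor <;> linarith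

theorem la_norm_sub {nb : ℕ} {y z0 : Fin nb → X d} {δ : ℝ} (hδ : 0 ≤ δ)
    (h : ∀ b c, |y b c - z0 b c| ≤ δ) : ‖y - z0‖ ≤ δ := by
  rw [pi_norm_le_iff_of_nonneg hδ]
  intro b
  rw [pi_norm_le_iff_of_nonneg hδ]
  intro c
  exact h b c

theorem la_one (S : SData d V) (hN : 0 < S.N) : ∃ (nb : ℕ) (z0 : Fin nb → X d) (δ : ℝ)
    (rel : Fin nb → Fin nb → Prop) (CL : ℝ), 0 < δ ∧
    (∀ (b : Fin nb) (c : Fin (d + 1)), δ < z0 b c ∧ z0 b c < 1 - δ) ∧
    (∀ b b', rel b b' → ∀ y y' : X d, (∀ c, |y c - z0 b c| ≤ δ) → (∀ c, |y' c - z0 b' c| ≤ δ) →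
      ∀ c, |y c - y' c| ≤ |y 0 - y' 0|) ∧
    (∀ (y : Fin nb → X d), (∀ b c, |y b c - z0 b c| ≤ δ) → ∀ (U : Fin nb → V) (D : ℝ),
      (∀ b b', rel b b' → ∀ i, |S.e i (y b - y b') (U b - U b')| ≤ D) →
      ∃ p ∈ S.R (Module.finrank ℝ V), ∀ (x : X d) (v : V) (B : ℝ), ‖x‖ ≤ 8 →
        (∀ b i, |S.e i (x - y b) (v - U b)| ≤ B) → ‖v - p x‖ ≤ CL * (B + D)) := by
  classical
  set M := Module.finrank ℝ V with hM
  obtain ⟨Y0, c0, hY0, hc0, hnorm⟩ := gen_span_box S 9 (gmin_open (d := d) (1 / 4))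
    (gmin_nonempty (1 / 4))
  obtain ⟨a1, ha1⟩ := gmin_nonempty (d := d) (1 / 4)
  obtain ⟨a3, ha3⟩ := gmin_nonempty (d := d) (3 / 4)
  have hY0' : ((insert a1 (insert a3 Y0) : Finset (X d)) : Set (X d)) ⊆ AD d := by
    rw [Finset.coe_insert, Finset.coe_insert]
    exact insert_subset (Or.inl ha1) (insert_subset (Or.inr ha3) (hY0.trans subset_union_left))
  obtain ⟨Z, hYZ, hZA, hZ⟩ := gen_min S _ hY0'
  let en := Z.equivFin
  let z0 : Fin Z.card → X d := fun b => (en.symm b : X d)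
  have hz0A : ∀ b, z0 b ∈ AD d := fun b => hZA (en.symm b).2
  have hz0e : ∀ z ∈ Z, ∃ b, z0 b = z := fun z hz => ⟨en ⟨z, hz⟩, by
    show ((en.symm (en ⟨z, hz⟩) : Z) : X d) = z
    rw [Equiv.symm_apply_apply]⟩
  let rel : Fin Z.card → Fin Z.card → Prop := fun b b' => z0 b - z0 b' ∈ cone d
  have hext : ∀ U : Fin Z.card → V,
      (∀ b b', rel b b' → ∀ i, S.e i (z0 b - z0 b') (U b - U b') = 0) →
      ∃ q ∈ S.R M, ∀ b, q (z0 b) = U b := by
    intro U hU
    let U' : X d → V := fun x => if h : x ∈ Z then U (en ⟨x, h⟩) else 0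
    have hU'z : ∀ b, U' (z0 b) = U b := by
      intro b
      have h1 : z0 b ∈ Z := (en.symm b).2
      show (if h : z0 b ∈ Z then U (en ⟨z0 b, h⟩) else 0) = U b
      rw [dif_pos h1]
      congr 1
      exact en.apply_symm_apply b
    have hrel : S.Rel (Z : Set (X d)) U' := by
      intro x hx y hy hxy i
      obtain ⟨b, rfl⟩ := hz0e x hx
      obtain ⟨b', rfl⟩ := hz0e y hy
      rw [hU'z, hU'z]
      exact hU b b' hxy i
    obtain ⟨p, hp1, hp2⟩ := hZ U' hrel
    obtain ⟨q, hq, hqp⟩ := gen_poly S hp2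
    refine ⟨q, hq, fun b => ?_⟩
    rw [hqp _ (hz0A b), hp1 _ (en.symm b).2]
    exact hU'z b
  obtain ⟨δ1, hδ1, C1, hC1, hsol⟩ := la_solve S M z0 rel hext
  obtain ⟨δ2, hδ2, hunif⟩ := la_unif S 12 (half_pos hc0)
  obtain ⟨ε, hε, hgap⟩ := la_finmin (fun t : Fin Z.card × Fin Z.card × Fin (d + 1) =>
    if rel t.1 t.2.1 ∧ t.2.2 ≠ 0 then
      |(z0 t.1 - z0 t.2.1) 0| - |(z0 t.1 - z0 t.2.1) t.2.2| else (1 : ℝ)) (by
      rintro ⟨b, b', c⟩
      show 0 < if rel b b' ∧ c ≠ 0 then |(z0 b - z0 b') 0| - |(z0 b - z0 b') c| else (1 : ℝ)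
      split_ifs with h
      · exact sub_pos.2 (h.1.1 c h.2)
      · exact one_pos)
  obtain ⟨CE, hCE⟩ := gen_e_bound S
  set δ : ℝ := min δ1 (min δ2 (min (ε / 4) (1 / 16))) with hδdef
  have hd1 : δ ≤ δ1 := min_le_left _ _
  have hd2 : δ ≤ δ2 := (min_le_right _ _).trans (min_le_left _ _)
  have hd3 : δ ≤ ε / 4 := (min_le_right _ _).trans ((min_le_right _ _).trans (min_le_left _ _))
  have hd4 : δ ≤ 1 / 16 := (min_le_right _ _).trans ((min_le_right _ _).trans (min_le_right _ _))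
  have hδ : 0 < δ := lt_min hδ1 (lt_min hδ2 (lt_min (by positivity) (by norm_num)))
  obtain ⟨b1, hb1⟩ := hz0e a1 (hYZ (Finset.mem_insert_self _ _))
  obtain ⟨b3, hb3⟩ := hz0e a3 (hYZ (Finset.mem_insert_of_mem (Finset.mem_insert_self _ _)))
  let i0 : Fin S.N := ⟨0, hN⟩
  refine ⟨Z.card, z0, δ, rel, 2 / c0 * (1 + max CE 0 * 12 ^ S.deg * C1), hδ, ?_, ?_, ?_⟩
  · intro b c
    have h1 := la_coord (hz0A b) c
    constructor
    · linarith [h1.1]
    · linarith [h1.2]
  · intro b b' hr y y' hy hy' c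
    by_cases hc : c = 0
    · rw [hc]
    have h1 : ε ≤ |(z0 b - z0 b') 0| - |(z0 b - z0 b') c| := by
      have := hgap (b, b', c)
      rwa [if_pos ⟨hr, hc⟩] at this
    have h2 : |y c - y' c| ≤ |(z0 b - z0 b') c| + 2 * δ := by
      have h3 : y c - y' c = (z0 b - z0 b') c + ((y c - z0 b c) - (y' c - z0 b' c)) := by
        rw [Pi.sub_apply]
        ring
      rw [h3]
      refine (abs_add_le _ _).trans ?_
      have := abs_sub (y c - z0 b c) (y' c - z0 b' c)
      linarith [hy c, hy' c]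
    have h4 : |(z0 b - z0 b') 0| ≤ |y 0 - y' 0| + 2 * δ := by
      have h5 : (z0 b - z0 b') 0 = (y 0 - y' 0) - ((y 0 - z0 b 0) - (y' 0 - z0 b' 0)) := by
        rw [Pi.sub_apply]
        ring
      rw [h5]
      refine (abs_sub _ _).trans ?_
      have := abs_sub (y 0 - z0 b 0) (y' 0 - z0 b' 0)
      linarith [hy 0, hy' 0]
    linarith
  · intro y hy U D hUD
    have hD : 0 ≤ D := by
      have h1 : rel b3 b1 := by
        show z0 b3 - z0 b1 ∈ cone d
        rw [hb1, hb3]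
        exact gmin_cone ha3 ha1
      exact (abs_nonneg _).trans (hUD b3 b1 h1 i0)
    have hyz : ‖y - z0‖ ≤ δ := la_norm_sub hδ.le hy
    obtain ⟨q, hq, hqU⟩ := hsol y (hyz.trans hd1) U D hD hUD
    refine ⟨q, hq, ?_⟩
    intro x v B hx hB
    have hB0 : 0 ≤ B := (abs_nonneg _).trans (hB b1 i0)
    set C' : ℝ := max CE 0 * 12 ^ S.deg * C1 with hC'
    have hC'0 : 0 ≤ C' := by positivity
    have hyb : ∀ b, ‖y b - z0 b‖ ≤ δ := fun b => (norm_le_pi_norm (y - z0) b).trans hyz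
    have hzb : ∀ b, ‖z0 b‖ ≤ 1 := by
      intro b
      rw [pi_norm_le_iff_of_nonneg zero_le_one]
      intro c
      have := la_coord (hz0A b) c
      rw [Real.norm_eq_abs, abs_le]
      constructor <;> linarith [this.1, this.2]
    have hnyb : ∀ b, ‖y b‖ ≤ 2 := by
      intro b
      have h1 : y b = (y b - z0 b) + z0 b := by abel
      rw [h1]
      refine (norm_add_le _ _).trans ?_
      linarith [hyb b, hzb b]
    have hxy : ∀ b, ‖x - y b‖ ≤ 12 := fun b => by
      refine (norm_sub_le _ _).trans ?_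
      linarith [hnyb b]
    have hxz : ∀ b, ‖x - z0 b‖ ≤ 12 := fun b => by
      refine (norm_sub_le _ _).trans ?_
      linarith [hzb b]
    have hmain : ∀ b i, |S.e i (x - y b) (v - q x)| ≤ B + C' * D := by
      intro b i
      have h1 := hq.2 i (y b) (x - y b)
      rw [add_sub_cancel] at h1
      have h2 : v - q x = (v - U b) + (U b - q (y b)) - (q x - q (y b)) := by abel
      rw [h2, map_sub, map_add, h1, sub_zero]
      refine (abs_add_le _ _).trans (add_le_add (hB b i) ?_)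
      refine (hCE i _ _).trans ?_
      calc CE * ‖x - y b‖ ^ S.deg * ‖U b - q (y b)‖
          ≤ max CE 0 * 12 ^ S.deg * (C1 * D) := by
            have h3 : ‖x - y b‖ ^ S.deg ≤ 12 ^ S.deg :=
              pow_le_pow_left₀ (norm_nonneg _) (hxy b) _
            have h4 : CE * ‖x - y b‖ ^ S.deg ≤ max CE 0 * 12 ^ S.deg :=
              mul_le_mul (le_max_left _ _) h3 (by positivity) (le_max_right _ _)
            exact mul_le_mul h4 (hqU b) (norm_nonneg _) (by positivity)
        _ = C' * D := by rw [hC']; ring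
    have hfin : ∀ z ∈ Y0, ∀ i, |S.e i (x - z) (v - q x)| ≤
        B + C' * D + c0 / 2 * ‖v - q x‖ := by
      intro z hz i
      obtain ⟨b, rfl⟩ := hz0e z (hYZ (Finset.mem_insert_of_mem (Finset.mem_insert_of_mem hz)))
      have h1 : ‖(x - z0 b) - (x - y b)‖ ≤ δ2 := by
        have h2 : (x - z0 b) - (x - y b) = y b - z0 b := by abel
        rw [h2]
        exact (hyb b).trans hd2
      have h3 := hunif i (x - z0 b) (x - y b) (hxz b) (hxy b) h1 (v - q x)
      have h4 := hmain b i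
      have h5 : S.e i (x - z0 b) (v - q x) = S.e i (x - y b) (v - q x) +
          (S.e i (x - z0 b) (v - q x) - S.e i (x - y b) (v - q x)) := by ring
      rw [h5]
      refine (abs_add_le _ _).trans (add_le_add h4 h3)
    have hpos : 0 ≤ 2 / c0 * (1 + C') * (B + D) := by positivity
    rcases hnorm x (by linarith) (v - q x) _ hfin with h1 | h1
    · have h2 : c0 / 2 * ‖v - q x‖ ≤ B + C' * D := by linarith
      have h3 : ‖v - q x‖ ≤ 2 / c0 * (B + C' * D) := by
        have h4 : ‖v - q x‖ = 2 / c0 * (c0 / 2 * ‖v - q x‖) := by field_simp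
        rw [h4]
        exact mul_le_mul_of_nonneg_left h2 (by positivity)
      have h5 : B + C' * D ≤ (1 + C') * (B + D) := by nlinarith [mul_nonneg hC'0 hB0]
      have h6 : 2 / c0 * (B + C' * D) ≤ 2 / c0 * ((1 + C') * (B + D)) :=
        mul_le_mul_of_nonneg_left h5 (by positivity)
      calc ‖v - q x‖ ≤ 2 / c0 * (B + C' * D) := h3
        _ ≤ 2 / c0 * ((1 + C') * (B + D)) := h6
        _ = 2 / c0 * (1 + C') * (B + D) := by ring
    · rw [h1, norm_zero]
      exact hpos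

theorem gen_la (S : SData d V) (hN : 0 < S.N) : ∃ (nb : ℕ) (z0 : Fin nb → X d) (δ : ℝ)
    (rel : Fin nb → Fin nb → Prop) (CL : ℝ), 0 < δ ∧
    (∀ (b : Fin nb) (c : Fin (d + 1)), δ < z0 b c ∧ z0 b c < 1 - δ) ∧
    (∀ b b', rel b b' → ∀ y y' : X d, (∀ c, |y c - z0 b c| ≤ δ) → (∀ c, |y' c - z0 b' c| ≤ δ) →
      ∀ c, |y c - y' c| ≤ |y 0 - y' 0|) ∧
    (∀ (l : ℝ), 0 < l → ∀ (o : X d) (y : Fin nb → X d),
      (∀ b c, |y b c - (o c + l * z0 b c)| ≤ δ * l) →
      ∀ (U : Fin nb → V) (D : ℝ),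
      (∀ b b', rel b b' → ∀ i, |S.e i (y b - y b') (U b - U b')| ≤ D * l ^ S.deg) →
      ∃ p ∈ S.R (Module.finrank ℝ V), ∀ (x : X d) (v : V) (B : ℝ), ‖x - o‖ ≤ 8 * l →
        (∀ b i, |S.e i (x - y b) (v - U b)| ≤ B * l ^ S.deg) → ‖v - p x‖ ≤ CL * (B + D)) := by
  obtain ⟨nb, z0, δ, rel, CL, hδ, h1, h2, h3⟩ := la_one S hN
  refine ⟨nb, z0, δ, rel, CL, hδ, h1, h2, ?_⟩
  intro l hl o y hy U D hU
  have hl0 : l ≠ 0 := hl.ne'
  have hscale : ∀ (i : Fin S.N) (z : X d) (v : V) (B : ℝ), |S.e i z v| ≤ B * l ^ S.deg →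
      |S.e i (l⁻¹ • z) v| ≤ B := by
    intro i z v B h
    rw [S.e_smul, _root_.smul_apply, smul_eq_mul, abs_mul, abs_pow,
      abs_of_pos (inv_pos.2 hl), inv_pow]
    rw [inv_mul_le_iff₀ (pow_pos hl _), mul_comm]
    exact h
  let y' : Fin nb → X d := fun b => l⁻¹ • (y b - o)
  have hy' : ∀ b c, |y' b c - z0 b c| ≤ δ := by
    intro b c
    have h4 : y' b c - z0 b c = l⁻¹ * (y b c - (o c + l * z0 b c)) := by
      show l⁻¹ * (y b c - o c) - z0 b c = _
      field_simp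
      ring
    rw [h4, abs_mul, abs_of_pos (inv_pos.2 hl), inv_mul_le_iff₀ hl, mul_comm l δ]
    exact hy b c
  obtain ⟨q, hq, hqx⟩ := h3 y' hy' U D (fun b b' hr i => by
    have h5 : y' b - y' b' = l⁻¹ • (y b - y b') := by
      show l⁻¹ • (y b - o) - l⁻¹ • (y b' - o) = _
      rw [← smul_sub]
      congr 1
      abel
    rw [h5]
    exact hscale i _ _ _ (hU b b' hr i))
  refine ⟨fun x => q (l⁻¹ • (x - o)), ⟨fun ℓ => ?_, fun i w z => ?_⟩, ?_⟩
  · have h4 := (hq.1 ℓ).comp_affine (-(l⁻¹ • o)) l⁻¹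
    have h5 : (fun x : X d => ℓ (q (l⁻¹ • (x - o)))) = fun x => ℓ (q (-(l⁻¹ • o) + l⁻¹ • x)) := by
      funext x
      rw [smul_sub]
      congr 2
      abel
    rw [h5]
    exact h4
  · have h4 := hq.2 i (l⁻¹ • (w - o)) (l⁻¹ • z)
    have h5 : l⁻¹ • (w - o) + l⁻¹ • z = l⁻¹ • (w + z - o) := by
      rw [← smul_add]
      congr 1
      abel
    rw [h5, S.e_smul, _root_.smul_apply, smul_eq_mul] at h4
    exact (mul_eq_zero.1 h4).resolve_left (pow_ne_zero _ (inv_ne_zero hl0))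
  · intro x v B hx hB
    refine hqx (l⁻¹ • (x - o)) v B ?_ fun b i => ?_
    · rw [norm_smul, norm_inv, Real.norm_eq_abs, abs_of_pos hl, inv_mul_le_iff₀ hl, mul_comm l 8]
      exact hx
    · have h5 : l⁻¹ • (x - o) - y' b = l⁻¹ • (x - y b) := by
        show l⁻¹ • (x - o) - l⁻¹ • (y b - o) = _
        rw [← smul_sub]
        congr 1
        abel
      rw [h5]
      exact hscale i _ _ _ (hB b i)

end BDJ
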