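import Pool.Agent.BDJ.GenSpan

/-!
# Exact solutions on the two boxes are polynomials (row GEN-G1: gen_smooth, gen_deriv)

Let `S.Rel (AD d) p`, `A0 = obx d (1/4)`, `D0 = obx d (3/4)`, `M = finrank ℝ V`.

(G1a) `gen_smooth`: `p` is smooth on the open box `D0`. By `gen_span_box` (`ρ = 1`, `O = A0`) there is a finite `Y ⊆ A0` such that for `x ∈ D0` the functionals `e i (x - y)`, `y ∈ Y`, separate `V`, and `e i (x - y) (p x) = e i (x - y) (p y)`. Near `x0 ∈ D0` choose `dim V` of these functionals which form a basis of the dual at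
`x0`; the linear map `L x = (e i_k (x - y_k))_k : V → ℝ^M` depends smoothly on `x` and is invertible near `x0`, `p x = (L x)⁻¹ (e i_k (x - y_k) (p y_k))_k` (`contDiffAt_map_inverse`).

(G1b) `gen_deriv`: for `x ∈ D0` and all `z`: `e i z (fderiv p x z) = 0`. For `z ∈ cone` by differentiating `e i (s z)(p (x + s z) - p x) = 0` (`s` small); for all `z` by `sepPoly_eq_zero` (the function `z ↦ e i z (fderiv p x z)` is `SepPoly`, the cone is open).

(G1c) `gen_top`: `M`-th derivative in a coordinate direction vanishes. Let `𝒞` = the functions `q`, smooth on `D0`, with `e i z (fderiv q x z) = 0` for all `x ∈ D0`, `z`, `i`. If `q ∈ 𝒞` then `x ↦ fderiv q x h ∈ 𝒞` (symmetry of second derivatives: differentiate the identity in `x` in the direction `h`). Let `(i_k, h_k)`, `k = 1..M` be such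
that the `e i_k h_k` separate `V` (possible by `span`); the same for all small perturbations of the `h_k`. Then `D_{h_1} ... D_{h_M} p = 0` on `D0`: by commutativity put `D_{h_k}` outermost: `e i_k h_k (D_{h_1}...D_{h_M} p x) = 0` for every `k`. Replace, one after the other, `h_k` by `h_k + ε e_c` and subtract: `D_{e_c}^M p = 0`.

(G2) `gen_poly`: so on every segment of `D0` parallel to a coordinate axis `ℓ ∘ p` is a polynomial of degree `< M` (zero `M`-th derivative); tensor Lagrange interpolation at nodes inside `D0` defines `q : X d → V` with all `ℓ ∘ q` `SepPoly M` and `q = p` on `D0`. For `z` small in the cone and `w` with `w, w + z ∈ D0`: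
`e i z (q (w+z) - q w) = 0`; by `sepPoly_eq_zero` in `w` for fixed `z`, then in `z` for fixed `w`, this holds for all `w, z`: `q ∈ S.R M`. For `y ∈ A0`, `x ∈ D0`: `e i (x - y) (q y - p y) = e i (x-y) (q x - p x) = 0`, so by `sepPoly_eq_zero` and `span`, `q y = p y`.
-/

open MeasureTheory Set
open scoped ENNReal NNReal

namespace BDJ

variable {d : ℕ} {V : Type*} [NormedAddCommGroup V] [NormedSpace ℝ V] [FiniteDimensional ℝ V]

theorem gp_isOpen_obx (t : ℝ) : IsOpen (obx d t) := by
  have h : obx d t = {x : X d | |x 0 - t| < 1 / 32} ∩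
      ⋂ c : Fin (d + 1), {x : X d | c ≠ 0 → |x c - 1 / 2| < 1 / 32} := by
    ext x
    simp only [obx, Set.mem_ofPred_eq, Set.mem_inter_iff, Set.mem_iInter]
  rw [h]
  refine IsOpen.inter ?_ (isOpen_iInter_of_finite fun c => ?_)
  · exact isOpen_lt (by fun_prop) continuous_const
  · by_cases hc : c = 0
    · have : {x : X d | c ≠ 0 → |x c - 1 / 2| < 1 / 32} = Set.univ := by
        ext x
        simp [hc]
      rw [this]
      exact isOpen_univ
    · have : {x : X d | c ≠ 0 → |x c - 1 / 2| < 1 / 32} = {x : X d | |x c - 1 / 2| < 1 / 32} := by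
        ext x
        simp [hc]
      rw [this]
      exact isOpen_lt (by fun_prop) continuous_const

theorem gp_isOpen_cone : IsOpen (cone d) := by
  have h : cone d = (⋂ c : Fin (d + 1), {z : X d | c ≠ 0 → |z c| < |z 0|}) ∩ {z : X d | z 0 ≠ 0} := by
    ext x
    simp only [cone, Set.mem_ofPred_eq, Set.mem_inter_iff, Set.mem_iInter]
  rw [h]
  refine IsOpen.inter (isOpen_iInter_of_finite fun c => ?_) ?_
  · by_cases hc : c = 0
    · have : {z : X d | c ≠ 0 → |z c| < |z 0|} = Set.univ := by
        ext x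
        simp [hc]
      rw [this]
      exact isOpen_univ
    · have : {z : X d | c ≠ 0 → |z c| < |z 0|} = {z : X d | |z c| < |z 0|} := by
        ext x
        simp [hc]
      rw [this]
      exact isOpen_lt (by fun_prop) (by fun_prop)
  · exact isOpen_ne_fun (by fun_prop) continuous_const

theorem gp_cone_smul {z : X d} (hz : z ∈ cone d) {s : ℝ} (hs : s ≠ 0) : s • z ∈ cone d := by
  obtain ⟨h1, h2⟩ := hz
  refine ⟨fun c hc => ?_, ?_⟩
  · simp only [Pi.smul_apply, smul_eq_mul, abs_mul]
    exact mul_lt_mul_of_pos_left (h1 c hc) (abs_pos.2 hs)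
  · simp only [Set.mem_ofPred_eq, Pi.smul_apply, smul_eq_mul]
    exact mul_ne_zero hs h2

theorem gp_cone_nonempty : (cone d).Nonempty := by
  refine ⟨Pi.single 0 1, fun c hc => ?_, ?_⟩
  · rw [Pi.single_eq_of_ne hc, Pi.single_eq_same]
    norm_num
  · simp

/-- points of the upper box and of the lower box are in conical position -/
theorem gp_cone_boxes {x y : X d} (hx : x ∈ obx d (3 / 4)) (hy : y ∈ obx d (1 / 4)) :
    x - y ∈ cone d := by
  obtain ⟨h1, h2⟩ := hx
  obtain ⟨h3, h4⟩ := hy
  rw [abs_lt] at h1 h3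
  have h0 : 7 / 16 < x 0 - y 0 := by linarith [h1.1, h3.2]
  refine ⟨fun c hc => ?_, ?_⟩
  · have h5 := abs_lt.1 (h2 c hc)
    have h6 := abs_lt.1 (h4 c hc)
    simp only [Pi.sub_apply]
    rw [abs_of_pos (show 0 < x 0 - y 0 by linarith), abs_lt]
    constructor <;> linarith [h5.1, h5.2, h6.1, h6.2]
  · simp only [Set.mem_ofPred_eq, Pi.sub_apply]
    linarith

theorem gp_norm_le {x : X d} (hx : x ∈ obx d (3 / 4)) : ‖x‖ ≤ 1 := by
  rw [pi_norm_le_iff_of_nonneg zero_le_one]
  intro c
  rw [Real.norm_eq_abs, abs_le]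
  by_cases hc : c = 0
  · subst hc
    have := abs_lt.1 hx.1
    constructor <;> linarith [this.1, this.2]
  · have := abs_lt.1 (hx.2 c hc)
    constructor <;> linarith [this.1, this.2]

theorem gen_smooth (S : SData d V) {p : X d → V} (hp : S.Rel (AD d) p) :
    ContDiffOn ℝ (⊤ : ℕ∞) p (obx d (3 / 4)) := by
  have : CompleteSpace V := FiniteDimensional.complete ℝ V
  have hA0 : (obx d (1 / 4)).Nonempty := by
    refine ⟨fun c => if c = 0 then 1 / 4 else 1 / 2, ?_, fun c hc => ?_⟩
    · simp
    · change |(if c = 0 then (1 : ℝ) / 4 else 1 / 2) - 1 / 2| < 1 / 32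
      rw [if_neg hc]; norm_num
  obtain ⟨Y, c0, hY, hc0, hsp⟩ := gen_span_box S 1 (gp_isOpen_obx (d := d) (1 / 4)) hA0
  -- the functionals
  let ι := Y × Fin S.N
  let L : X d → V →L[ℝ] (ι → ℝ) := fun x => ContinuousLinearMap.pi fun k : ι => S.e k.2 (x - k.1.1)
  let b : X d → (ι → ℝ) := fun x k => S.e k.2 (x - k.1.1) (p k.1.1)
  have hLb : ∀ x ∈ obx d (3 / 4), L x (p x) = b x := by
    intro x hx
    funext k
    have h := hp x (Or.inr hx) k.1.1 (Or.inl (hY k.1.2)) (gp_cone_boxes hx (hY k.1.2)) k.2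
    rw [map_sub, sub_eq_zero] at h
    exact h
  intro x0 hx0
  have hinj : Function.Injective (L x0 : V →ₗ[ℝ] (ι → ℝ)) := by
    rw [← LinearMap.ker_eq_bot, LinearMap.ker_eq_bot']
    intro v hv
    have hv' : ∀ y ∈ Y, ∀ i, |S.e i (x0 - y) v| ≤ 0 := by
      intro y hy i
      have h1 := congrFun hv (⟨y, hy⟩, i)
      have h2 : S.e i (x0 - y) v = 0 := h1
      rw [h2, abs_zero]
    rcases hsp x0 (gp_norm_le hx0) v 0 hv' with h | h
    · have h3 : ‖v‖ ≤ 0 := by
        by_contra hcon
        push Not at hcon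
        have := mul_pos hc0 hcon
        linarith
      exact norm_le_zero_iff.1 h3
    · exact h
  obtain ⟨K0, hK0⟩ := LinearMap.exists_leftInverse_of_injective (L x0 : V →ₗ[ℝ] (ι → ℝ))
    (LinearMap.ker_eq_bot.2 hinj)
  let K : (ι → ℝ) →L[ℝ] V := LinearMap.toContinuousLinearMap K0
  let A : X d → V →L[ℝ] V := fun x => K.comp (L x)
  have hAx0 : A x0 = 1 := by
    ext v
    exact LinearMap.congr_fun hK0 v
  have hAsm : ContDiff ℝ (⊤ : ℕ∞) A := by
    rw [contDiff_clm_apply_iff]
    intro v
    change ContDiff ℝ (⊤ : ℕ∞) fun x => K (L x v)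
    refine K.contDiff.comp (contDiff_pi.2 fun k => ?_)
    change ContDiff ℝ (⊤ : ℕ∞) fun x => S.e k.2 (x - k.1.1) v
    exact ((gen_e_contDiff S k.2).comp (contDiff_id.sub contDiff_const)).clm_apply contDiff_const
  have hbsm : ContDiff ℝ (⊤ : ℕ∞) fun x => K (b x) := by
    refine K.contDiff.comp (contDiff_pi.2 fun k => ?_)
    exact ((gen_e_contDiff S k.2).comp (contDiff_id.sub contDiff_const)).clm_apply contDiff_const
  have hunit : IsUnit (A x0) := by rw [hAx0]; exact isUnit_one
  have hev : ∀ᶠ x in nhds x0, IsUnit (A x) :=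
    hAsm.continuous.continuousAt.eventually (Units.isOpen.mem_nhds hunit)
  have hinv : ContDiffAt ℝ (⊤ : ℕ∞) (fun x => Ring.inverse (A x) (K (b x))) x0 := by
    obtain ⟨u, hu⟩ := hunit
    have h1 : ContDiffAt ℝ (⊤ : ℕ∞) (fun x => Ring.inverse (A x)) x0 := by
      have h2 := contDiffAt_ringInverse ℝ u (n := ((⊤ : ℕ∞) : WithTop ℕ∞))
      rw [hu] at h2
      exact h2.comp x0 hAsm.contDiffAt
    exact h1.clm_apply hbsm.contDiffAt
  refine hinv.contDiffWithinAt.congr_of_eventuallyEq ?_ ?_
  · filter_upwards [mem_nhdsWithin_of_mem_nhds hev, self_mem_nhdsWithin] with x hx1 hx2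
    have h1 : K (b x) = A x (p x) := by
      change K (b x) = K (L x (p x))
      rw [hLb x hx2]
    have h2 : Ring.inverse (A x) * A x = 1 := Ring.inverse_mul_cancel _ hx1
    rw [h1, ← mul_apply_eq_comp, h2, one_apply_eq_self]
  · have h1 : K (b x0) = A x0 (p x0) := by
      change K (b x0) = K (L x0 (p x0))
      rw [hLb x0 hx0]
    have h2 : Ring.inverse (A x0) * A x0 = 1 := Ring.inverse_mul_cancel _ hunit
    rw [h1, ← mul_apply_eq_comp, h2, one_apply_eq_self]

theorem gen_deriv (S : SData d V) {p : X d → V} (hp : S.Rel (AD d) p) {x : X d}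
    (hx : x ∈ obx d (3 / 4)) (i : Fin S.N) (z : X d) : S.e i z (fderiv ℝ p x z) = 0 := by
  have hdiff : DifferentiableAt ℝ p x :=
    ((gen_smooth S hp).differentiableOn (by simp) x hx).differentiableAt
      ((gp_isOpen_obx (d := d) (3 / 4)).mem_nhds hx)
  -- directions in the cone
  have hcone : ∀ z ∈ cone d, S.e i z (fderiv ℝ p x z) = 0 := by
    intro z hz
    have hline : HasDerivAt (fun s : ℝ => x + s • z) z 0 := by
      have h1 : HasDerivAt (fun s : ℝ => s • z) ((1 : ℝ) • z) 0 := (hasDerivAt_id (0 : ℝ)).smul_const z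
      rw [one_smul] at h1
      exact h1.const_add x
    have hx0 : x + (0 : ℝ) • z = x := by rw [zero_smul, add_zero]
    have h2 : HasFDerivAt p (fderiv ℝ p x) (x + (0 : ℝ) • z) := by
      rw [hx0]; exact hdiff.hasFDerivAt
    have h3 : HasDerivAt (fun s : ℝ => p (x + s • z)) (fderiv ℝ p x z) 0 :=
      h2.comp_hasDerivAt (0 : ℝ) hline
    have h4 : HasDerivAt (fun s : ℝ => S.e i z (p (x + s • z))) (S.e i z (fderiv ℝ p x z)) 0 :=
      (S.e i z).hasFDerivAt.comp_hasDerivAt (0 : ℝ) h3
    have h5 : ∀ᶠ s : ℝ in nhds 0, S.e i z (p (x + s • z)) = S.e i z (p x) := by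
      have hmem : (fun s : ℝ => x + s • z) 0 ∈ obx d (3 / 4) := by
        simpa using hx
      have h6 : ∀ᶠ s : ℝ in nhds 0, x + s • z ∈ obx d (3 / 4) :=
        hline.continuousAt.eventually ((gp_isOpen_obx (d := d) (3 / 4)).mem_nhds hmem)
      filter_upwards [h6] with s hs
      by_cases hs0 : s = 0
      · rw [hs0, hx0]
      · have h7 := hp (x + s • z) (Or.inr hs) x (Or.inr hx)
          (by rw [add_sub_cancel_left]; exact gp_cone_smul hz hs0) i
        rw [add_sub_cancel_left, S.e_smul] at h7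
        have h8 : s ^ S.deg * (S.e i z (p (x + s • z) - p x)) = 0 := h7
        rcases mul_eq_zero.1 h8 with h9 | h9
        · exact absurd h9 (pow_ne_zero _ hs0)
        · rw [map_sub, sub_eq_zero] at h9
          exact h9
    have h10 : HasDerivAt (fun _ : ℝ => S.e i z (p x)) (S.e i z (fderiv ℝ p x z)) 0 :=
      h4.congr_of_eventuallyEq (Filter.EventuallyEq.symm h5)
    exact h10.unique (hasDerivAt_const (0 : ℝ) _)
  -- all directions
  have hsep : SepPoly (1 + S.deg) (fun z : X d => S.e i z (fderiv ℝ p x z)) := by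
    have h1 : (fun z : X d => S.e i z (fderiv ℝ p x z)) =
        fun z : X d => ∑ c : Fin (d + 1), z c * S.e i z (fderiv ℝ p x (Pi.single c 1)) := by
      funext z
      have h2 : fderiv ℝ p x z = ∑ c : Fin (d + 1), z c • fderiv ℝ p x (Pi.single c 1) := by
        conv_lhs => rw [pi_eq_sum_univ' z]
        rw [map_sum]
        refine Finset.sum_congr rfl fun c _ => ?_
        rw [map_smul]
      rw [h2, map_sum]
      exact Finset.sum_congr rfl fun c _ => by rw [map_smul, smul_eq_mul]
    rw [h1]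
    exact SepPoly.sum _ fun c _ => (sepPoly_coord c).mul (S.e_sep i _)
  exact sepPoly_eq_zero hsep gp_isOpen_cone gp_cone_nonempty hcone z

end BDJ
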