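import Pool.Agent.BDJ.Op
import Pool.Agent.BDJ.FinalX

/-!
# From `X d` to Euclidean space and operators (row TRANS)

`S : Slicing d V`, `B : Fin (d+1) → (V →L W)`, and for every index `i` and direction `z` there is `η ∈ W` with `⟪η, B j v⟫ = z j * S.e i z v` and `‖η‖ ≤ C0 ‖z‖^(deg+1)` (sup norm of `z`).

Let `φ : E (d+1) → X d` be the coordinate map (`WithLp.ofLp`; measurable equivalence, volume preserving: `EuclideanSpace.volume_preserving_measurableEquiv` or `PiLp.volume_preserving_ofLp`), `u' = u ∘ φ⁻¹`, `Ω' = φ(Ω)`,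
`m' = (Bu.variation).map φ`. Claim: `SBV S Ω' u' m'`. For a test function `ψ` on `X d` supported in `Ω'`, `Φ x = ψ(φ x) • η` is a test function in `Ω`, `∂_j Φ = (∂_j ψ)(φ x) • η`, so `IsBV.eq` gives
`Bu.integral Φ = - ∫_Ω ∑ j, ∂_jψ ⟪η, B j u⟫ = - ∫_Ω ∑ j, ∂_jψ z_j e_i(z)(u) = - ∫_{Ω'} (fderiv ψ z) e_i(z)(u')`, and `|Bu.integral Φ| ≤ ∫ ‖Φ‖ d|Bu| = ‖η‖ ∫ |ψ| dm'` (`VectorMeasure.norm_integral_le_integral_norm` or similar; the operator norm of `innerSL` is `≤ 1`;
`variation_transpose_le`).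

`main_X` gives `μH[d] (Su Ω' u' \ Th Ω' m') = 0` on `X d`. The map `φ` sends `discSet Ω u \ densSet Ω Bu` into `Su Ω' u' \ Th Ω' m'`: the Euclidean ball satisfies
`ball_E x r ⊆ φ⁻¹(ball_X (φ x) r) ⊆ ball_E x (sqrt(d+1) r)` (in the sup metric the ball is the cube), and the measures of the balls are `c r^(d+1)`, `(2r)^(d+1)`. (a) `limsup |Bu|(ball_E x r)/r^d = 0` implies `m'(ball_X r)/r^d → 0`. (b) averages over `ball_X` tending to `0`
imply averages over `ball_E` tending to `0`. Finally `φ⁻¹` is Lipschitz (constant `sqrt(d+1)`), so `μH[d]` of the preimage of a null set is `0` (`LipschitzWith.hausdorffMeasure_image_le`).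
-/

open MeasureTheory Set Filter
open scoped ENNReal NNReal Topology InnerProductSpace

namespace BDJ

/-- the coordinate map -/
noncomputable def trans_L (d : ℕ) : E (d + 1) ≃L[ℝ] X d := EuclideanSpace.equiv (Fin (d + 1)) ℝ

theorem trans_mpL (d : ℕ) : MeasurePreserving (trans_L d) :=
  PiLp.volume_preserving_ofLp (Fin (d + 1))

theorem trans_mpS (d : ℕ) : MeasurePreserving (trans_L d).symm :=
  PiLp.volume_preserving_toLp (Fin (d + 1))

theorem trans_embL (d : ℕ) : MeasurableEmbedding (trans_L d) :=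
  (trans_L d).toHomeomorph.measurableEmbedding

theorem trans_embS (d : ℕ) : MeasurableEmbedding (trans_L d).symm :=
  (trans_L d).symm.toHomeomorph.measurableEmbedding

theorem trans_single (d : ℕ) (j : Fin (d + 1)) :
    trans_L d (EuclideanSpace.single j 1) = Pi.single j 1 := by
  ext i
  simp [trans_L, Pi.single_apply]

theorem trans_sum {d : ℕ} (f : X d →L[ℝ] ℝ) (v : X d) :
    ∑ j, f (Pi.single j 1) * v j = f v := by
  have h := f.toLinearMap.pi_apply_eq_sum_univ v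
  have h2 : f v = ∑ i, v i • f fun j => if i = j then 1 else 0 := h
  rw [h2]
  refine Finset.sum_congr rfl fun j _ => ?_
  rw [smul_eq_mul, mul_comm]
  congr 2
  ext i
  by_cases hij : j = i
  · subst hij
    simp
  · rw [if_neg hij, Pi.single_eq_of_ne (Ne.symm hij)]

section
variable {d : ℕ} {V W : Type*} [NormedAddCommGroup V] [InnerProductSpace ℝ V]
  [NormedAddCommGroup W] [InnerProductSpace ℝ W]

theorem trans_SBV (S : Slicing d V) (B : Fin (d + 1) → V →L[ℝ] W)
    (hη : ∀ (i : Fin S.N) (z : X d), ∃ η : W, ‖η‖ ≤ S.C0 * ‖z‖ ^ (S.deg + 1) ∧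
      ∀ (j : Fin (d + 1)) (v : V), ⟪η, B j v⟫_ℝ = z j * S.e i z v)
    {Ω : Set (E (d + 1))} (hΩ : IsOpen Ω) {u : E (d + 1) → V} {Bu : VectorMeasure (E (d + 1)) W}
    (h : IsBV B Ω u Bu) :
    SBV S ((trans_L d).symm ⁻¹' Ω) (fun y => u ((trans_L d).symm y))
      (Bu.variation.map (trans_L d)) := by
  have hfin : IsFiniteMeasure Bu.variation := ⟨h.finite⟩
  refine ⟨hΩ.preimage (trans_L d).symm.continuous, ?_, ?_, ?_⟩
  · exact ((trans_mpS d).integrableOn_comp_preimage (trans_embS d)).2 h.integrable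
  · exact Measure.isFiniteMeasure_map _ _
  · intro i ψ v hψ hψc hψs
    obtain ⟨η, hη1, hη2⟩ := hη i v
    have hψL : ContDiff ℝ (⊤ : ℕ∞) (fun x => ψ (trans_L d x)) :=
      hψ.comp (trans_L d).contDiff
    have hts : tsupport (fun x => ψ (trans_L d x)) = (trans_L d) ⁻¹' (tsupport ψ) :=
      tsupport_comp_eq_preimage ψ (trans_L d).toHomeomorph
    have key := h.eq (fun x => ψ (trans_L d x) • η) (hψL.smul contDiff_const)
      ((hψc.comp_homeomorph (trans_L d).toHomeomorph).smul_right)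
      (by
        refine (tsupport_smul_subset_left _ _).trans ?_
        rw [hts]
        intro x hx
        have := hψs hx
        simpa using this)
    have hfd : ∀ (x : E (d + 1)) (j : Fin (d + 1)),
        fderiv ℝ (fun x => ψ (trans_L d x) • η) x (EuclideanSpace.single j 1) =
          (fderiv ℝ ψ (trans_L d x) (Pi.single j 1)) • η := by
      intro x j
      have h1 : HasFDerivAt ψ (fderiv ℝ ψ (trans_L d x)) (trans_L d x) :=
        ((hψ.differentiable (by simp)) _).hasFDerivAt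
      have h2 := (h1.comp x (trans_L d).hasFDerivAt).smul_const η
      have h3 : HasFDerivAt (fun x => ψ (trans_L d x) • η) _ x := h2
      rw [h3.fderiv]
      simp only [ContinuousLinearMap.smulRight_apply, ContinuousLinearMap.comp_apply,
        ContinuousLinearEquiv.coe_coe]
      rw [trans_single]
    have hint : ∀ x : E (d + 1), ∑ j, ⟪fderiv ℝ (fun x => ψ (trans_L d x) • η) x
        (EuclideanSpace.single j 1), B j (u x)⟫_ℝ =
        S.e i v (u x) * fderiv ℝ ψ (trans_L d x) v := by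
      intro x
      rw [← trans_sum (fderiv ℝ ψ (trans_L d x)) v, Finset.mul_sum]
      refine Finset.sum_congr rfl fun j _ => ?_
      rw [hfd, real_inner_smul_left, hη2]
      ring
    have hcv := (trans_mpS d).setIntegral_preimage_emb (trans_embS d)
      (fun x => S.e i v (u x) * fderiv ℝ ψ (trans_L d x) v) Ω
    simp only [ContinuousLinearEquiv.apply_symm_apply] at hcv
    rw [hcv]
    simp only [hint] at key
    rw [← abs_neg, ← key, ← Real.norm_eq_abs]
    refine (VectorMeasure.norm_integral_le_integral_norm).trans ?_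
    have h4 : ∫ x, |ψ x| ∂(Bu.variation.map (trans_L d)) =
        ∫ x, |ψ (trans_L d x)| ∂Bu.variation := (trans_embL d).integral_map _
    rw [h4]
    have h5 : ∫ x, ‖ψ (trans_L d x) • η‖ ∂Bu.variation =
        ‖η‖ * ∫ x, |ψ (trans_L d x)| ∂Bu.variation := by
      rw [← integral_const_mul]
      refine integral_congr_ae (Eventually.of_forall fun x => ?_)
      simp only [norm_smul, Real.norm_eq_abs]
      ring
    rw [h5]
    have h6 : 0 ≤ ∫ x, |ψ (trans_L d x)| ∂Bu.variation :=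
      integral_nonneg fun x => abs_nonneg _
    calc ‖(innerSL ℝ : W →L⋆[ℝ] W →L[ℝ] ℝ)‖ * (‖η‖ * ∫ x, |ψ (trans_L d x)| ∂Bu.variation)
        ≤ 1 * (‖η‖ * ∫ x, |ψ (trans_L d x)| ∂Bu.variation) :=
          mul_le_mul_of_nonneg_right (norm_innerSL_le ℝ) (by positivity)
      _ = ‖η‖ * ∫ x, |ψ (trans_L d x)| ∂Bu.variation := one_mul _
      _ ≤ _ := mul_le_mul_of_nonneg_right hη1 h6

end

theorem trans_K1 (d : ℕ) : ∃ K : ℝ, 0 < K ∧ ∀ x y : E (d + 1),
    dist (trans_L d x) (trans_L d y) ≤ K * dist x y := by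
  refine ⟨‖((trans_L d) : E (d + 1) →L[ℝ] X d)‖ + 1, by positivity, fun x y => ?_⟩
  have h1 := ((trans_L d) : E (d + 1) →L[ℝ] X d).le_opNorm (x - y)
  rw [dist_eq_norm, dist_eq_norm, ← map_sub]
  have h2 : (0 : ℝ) ≤ ‖x - y‖ := norm_nonneg _
  have h3 : ‖(trans_L d) (x - y)‖ ≤ ‖((trans_L d) : E (d + 1) →L[ℝ] X d)‖ * ‖x - y‖ := h1
  nlinarith

theorem trans_K2 (d : ℕ) : ∃ K : ℝ, 0 < K ∧ ∀ x y : E (d + 1),
    dist x y ≤ K * dist (trans_L d x) (trans_L d y) := by
  refine ⟨‖((trans_L d).symm : X d →L[ℝ] E (d + 1))‖ + 1, by positivity, fun x y => ?_⟩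
  have h1 := ((trans_L d).symm : X d →L[ℝ] E (d + 1)).le_opNorm (trans_L d x - trans_L d y)
  rw [dist_eq_norm, dist_eq_norm]
  have h4 : ((trans_L d).symm : X d →L[ℝ] E (d + 1)) (trans_L d x - trans_L d y) = x - y := by
    rw [← map_sub]
    exact (trans_L d).symm_apply_apply _
  rw [h4] at h1
  have h2 : (0 : ℝ) ≤ ‖trans_L d x - trans_L d y‖ := norm_nonneg _
  nlinarith

theorem trans_scale {K : ℝ} (hK : 0 < K) :
    Tendsto (fun r : ℝ => K * r) (𝓝[>] 0) (𝓝[>] 0) := by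
  rw [tendsto_nhdsWithin_iff]
  constructor
  · have : Tendsto (fun r : ℝ => K * r) (𝓝 0) (𝓝 (K * 0)) :=
      (continuous_const.mul continuous_id).tendsto 0
    rw [mul_zero] at this
    exact this.mono_left nhdsWithin_le_nhds
  · filter_upwards [self_mem_nhdsWithin] with r hr
    exact mul_pos hK hr

/-- densities -/
theorem trans_dens {d : ℕ} (μ : Measure (E (d + 1))) (x : E (d + 1))
    (h : ¬ 0 < limsup (fun r : ℝ => μ (Metric.ball x r) / ENNReal.ofReal (r ^ (d + 1 - 1)))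
      (𝓝[>] 0)) :
    Tendsto (fun r : ℝ => (μ.map (trans_L d)) (Metric.ball (trans_L d x) r) /
      ENNReal.ofReal (r ^ d)) (𝓝[>] 0) (𝓝 0) := by
  obtain ⟨K, hK, hdist⟩ := trans_K2 d
  have h0 : limsup (fun r : ℝ => μ (Metric.ball x r) / ENNReal.ofReal (r ^ (d + 1 - 1)))
      (𝓝[>] 0) = 0 := le_antisymm (not_lt.1 h) zero_le
  have h1 : Tendsto (fun r : ℝ => μ (Metric.ball x r) / ENNReal.ofReal (r ^ (d + 1 - 1)))
      (𝓝[>] 0) (𝓝 0) :=
    tendsto_of_le_liminf_of_limsup_le zero_le h0.le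
  have h2 := h1.comp (trans_scale hK)
  have h3 := ENNReal.Tendsto.const_mul (a := ENNReal.ofReal (K ^ d)) h2
    (Or.inr ENNReal.ofReal_ne_top)
  rw [mul_zero] at h3
  refine tendsto_of_tendsto_of_tendsto_of_le_of_le' tendsto_const_nhds h3
    (Eventually.of_forall fun _ => zero_le) ?_
  filter_upwards [self_mem_nhdsWithin] with r hr
  have hr' : (0 : ℝ) < r := hr
  have h4 : (μ.map (trans_L d)) (Metric.ball (trans_L d x) r) ≤ μ (Metric.ball x (K * r)) := by
    rw [(trans_embL d).map_apply]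
    refine measure_mono fun y hy => ?_
    rw [mem_preimage, Metric.mem_ball] at hy
    rw [Metric.mem_ball]
    exact (hdist y x).trans_lt (mul_lt_mul_of_pos_left hy hK)
  have hKd : ENNReal.ofReal (K ^ d) ≠ 0 := (ENNReal.ofReal_pos.2 (by positivity)).ne'
  have hrd : ENNReal.ofReal (r ^ d) ≠ 0 := (ENNReal.ofReal_pos.2 (by positivity)).ne'
  simp only [Function.comp_apply, Nat.add_sub_cancel]
  rw [mul_pow, ENNReal.ofReal_mul (by positivity), ENNReal.div_eq_inv_mul, ENNReal.div_eq_inv_mul,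
    ENNReal.mul_inv (Or.inl hKd) (Or.inl ENNReal.ofReal_ne_top), ← mul_assoc, ← mul_assoc,
    ENNReal.mul_inv_cancel hKd ENNReal.ofReal_ne_top, one_mul]
  gcongr

/-- averages -/
theorem trans_avg {d : ℕ} {V : Type*} [NormedAddCommGroup V] (u : E (d + 1) → V) (z : V)
    (x : E (d + 1))
    (h : Tendsto (fun r : ℝ => (volume (Metric.ball (trans_L d x) r))⁻¹ *
      ∫⁻ y in Metric.ball (trans_L d x) r, ENNReal.ofReal ‖u ((trans_L d).symm y) - z‖)
      (𝓝[>] 0) (𝓝 0)) :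
    Tendsto (fun r : ℝ => (volume (Metric.ball x r))⁻¹ *
      ∫⁻ y in Metric.ball x r, ‖u y - z‖ₑ) (𝓝[>] 0) (𝓝 0) := by
  obtain ⟨K, hK, hdist⟩ := trans_K1 d
  set a : ℝ≥0∞ := volume (Metric.ball (0 : X d) 1) with ha
  set b : ℝ≥0∞ := volume (Metric.ball (0 : E (d + 1)) 1) with hb
  have ha0 : a ≠ 0 := (Metric.measure_ball_pos volume _ one_pos).ne'
  have hat : a ≠ ∞ := measure_ball_lt_top.ne
  have hb0 : b ≠ 0 := (Metric.measure_ball_pos volume _ one_pos).ne'
  have hbt : b ≠ ∞ := measure_ball_lt_top.ne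
  have hk0 : ENNReal.ofReal (K ^ (d + 1)) ≠ 0 := (ENNReal.ofReal_pos.2 (by positivity)).ne'
  have h2 := h.comp (trans_scale hK)
  have h3 := ENNReal.Tendsto.const_mul (a := ENNReal.ofReal (K ^ (d + 1)) * a * b⁻¹) h2
    (Or.inr (ENNReal.mul_ne_top (ENNReal.mul_ne_top ENNReal.ofReal_ne_top hat)
      (ENNReal.inv_ne_top.2 hb0)))
  rw [mul_zero] at h3
  refine tendsto_of_tendsto_of_tendsto_of_le_of_le' tendsto_const_nhds h3
    (Eventually.of_forall fun _ => zero_le) ?_
  filter_upwards [self_mem_nhdsWithin] with r hr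
  have hr' : (0 : ℝ) < r := hr
  have hp0 : ENNReal.ofReal (r ^ (d + 1)) ≠ 0 := (ENNReal.ofReal_pos.2 (by positivity)).ne'
  have hv1 : volume (Metric.ball x r) = ENNReal.ofReal (r ^ (d + 1)) * b := by
    rw [Measure.addHaar_ball volume x hr'.le]
    simp [hb]
  have hv2 : volume (Metric.ball (trans_L d x) (K * r)) =
      ENNReal.ofReal (K ^ (d + 1)) * ENNReal.ofReal (r ^ (d + 1)) * a := by
    rw [Measure.addHaar_ball volume (trans_L d x) (by positivity : 0 ≤ K * r),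
      ← ENNReal.ofReal_mul (by positivity), ← mul_pow]
    simp [ha]
  have hcv := (trans_mpL d).setLIntegral_comp_preimage_emb (trans_embL d)
    (fun y => ENNReal.ofReal ‖u ((trans_L d).symm y) - z‖) (Metric.ball (trans_L d x) (K * r))
  simp only [ContinuousLinearEquiv.symm_apply_apply] at hcv
  have hle : ∫⁻ y in Metric.ball x r, ‖u y - z‖ₑ ≤
      ∫⁻ y in Metric.ball (trans_L d x) (K * r),
        ENNReal.ofReal ‖u ((trans_L d).symm y) - z‖ := by
    rw [← hcv]
    simp only [ofReal_norm]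
    refine lintegral_mono_set fun y hy => ?_
    rw [Metric.mem_ball] at hy
    rw [mem_preimage, Metric.mem_ball]
    exact (hdist y x).trans_lt (mul_lt_mul_of_pos_left hy hK)
  simp only [Function.comp_apply]
  rw [hv1, hv2]
  have hinv : (ENNReal.ofReal (r ^ (d + 1)) * b)⁻¹ =
      ENNReal.ofReal (K ^ (d + 1)) * a * b⁻¹ *
        (ENNReal.ofReal (K ^ (d + 1)) * ENNReal.ofReal (r ^ (d + 1)) * a)⁻¹ := by
    rw [ENNReal.mul_inv (Or.inl hp0) (Or.inl ENNReal.ofReal_ne_top),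
      ENNReal.mul_inv (Or.inr hat) (Or.inr ha0),
      ENNReal.mul_inv (Or.inl hk0) (Or.inl ENNReal.ofReal_ne_top)]
    have e1 := ENNReal.mul_inv_cancel hk0 ENNReal.ofReal_ne_top
    have e2 := ENNReal.mul_inv_cancel ha0 hat
    calc (ENNReal.ofReal (r ^ (d + 1)))⁻¹ * b⁻¹
        = (ENNReal.ofReal (K ^ (d + 1)) * (ENNReal.ofReal (K ^ (d + 1)))⁻¹) * (a * a⁻¹) *
          ((ENNReal.ofReal (r ^ (d + 1)))⁻¹ * b⁻¹) := by rw [e1, e2, one_mul, one_mul]
      _ = _ := by ring
  rw [hinv, mul_assoc]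
  gcongr

variable {d : ℕ} {V W : Type*} [NormedAddCommGroup V] [InnerProductSpace ℝ V]
  [FiniteDimensional ℝ V] [NormedAddCommGroup W] [InnerProductSpace ℝ W] [FiniteDimensional ℝ W]

theorem transfer (S : Slicing d V) (B : Fin (d + 1) → V →L[ℝ] W)
    (hη : ∀ (i : Fin S.N) (z : X d), ∃ η : W, ‖η‖ ≤ S.C0 * ‖z‖ ^ (S.deg + 1) ∧
      ∀ (j : Fin (d + 1)) (v : V), ⟪η, B j v⟫_ℝ = z j * S.e i z v)
    {Ω : Set (E (d + 1))} (hΩ : IsOpen Ω) {u : E (d + 1) → V} {Bu : VectorMeasure (E (d + 1)) W}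
    (h : IsBV B Ω u Bu) :
    μH[(d : ℝ)] (discSet Ω u \ densSet Ω Bu) = 0 := by
  have hS := trans_SBV S B hη hΩ h
  have hX := main_X S hS
  have hsub : discSet Ω u \ densSet Ω Bu ⊆ (trans_L d).symm ''
      (Su ((trans_L d).symm ⁻¹' Ω) (fun y => u ((trans_L d).symm y)) \
        Th ((trans_L d).symm ⁻¹' Ω) (Bu.variation.map (trans_L d))) := by
    rintro x ⟨⟨hxΩ, hx1⟩, hx2⟩
    refine ⟨trans_L d x, ⟨⟨?_, ?_⟩, ?_⟩, (trans_L d).symm_apply_apply x⟩
    · rw [mem_preimage, (trans_L d).symm_apply_apply]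
      exact hxΩ
    · rintro ⟨z, hz⟩
      exact hx1 ⟨z, trans_avg u z x hz⟩
    · rintro ⟨_, hth⟩
      apply hth
      refine trans_dens Bu.variation x fun hpos => hx2 ⟨hxΩ, hpos⟩
  have h1 := ((trans_L d).symm.lipschitz).hausdorffMeasure_image_le (d := (d : ℝ))
    (Nat.cast_nonneg d) (Su ((trans_L d).symm ⁻¹' Ω) (fun y => u ((trans_L d).symm y)) \
        Th ((trans_L d).symm ⁻¹' Ω) (Bu.variation.map (trans_L d)))
  rw [hX, mul_zero] at h1
  exact measure_mono_null hsub (le_antisymm h1 zero_le)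

end BDJ
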