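import Pool.Agent.BDJ.GenPert
import Pool.Agent.BDJ.Transfer

/-!
# Slicing systems from slicing data; the theorem for sliceable operators (row GEN-I)

`exists_slicing`: fields from `gen_e_contDiff`, `gen_e_bound`, `gen_la`, `gen_af`, `gen_tr`, `gen_proj`, with `R = S.R (finrank ℝ V)`. `sliceable_main`: if `S.N = 0` then `V` is trivial (`span`) and `discSet Ω u` is empty; otherwise `exists_slicing` (replace `C0` by `max C0 1`) and `transfer`.
-/

open MeasureTheory Set
open scoped ENNReal NNReal InnerProductSpace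

namespace BDJ

theorem gsl_zero_of_forall {V : Type*} [NormedAddCommGroup V] [NormedSpace ℝ V] {v : V}
    (h : ∀ ℓ : V →L[ℝ] ℝ, ℓ v = 0) : v = 0 := by
  by_contra hv
  obtain ⟨g, hg⟩ := SeparatingDual.exists_ne_zero (R := ℝ) hv
  exact hg (h g)

/-- rigid maps are continuous -/
theorem gsl_cont {d : ℕ} {V : Type*} [NormedAddCommGroup V] [NormedSpace ℝ V]
    [FiniteDimensional ℝ V] (S : SData d V) (M : ℕ) {p : X d → V} (hp : p ∈ S.R M) :
    Continuous p := by
  set b := Module.finBasis ℝ V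
  have h1 : p = fun x => ∑ k, (LinearMap.toContinuousLinearMap (b.coord k)) (p x) • b k := by
    funext x
    simp only [LinearMap.coe_toContinuousLinearMap', Module.Basis.coord_apply]
    exact (b.sum_repr (p x)).symm
  rw [h1]
  apply continuous_finsetSum
  intro k _
  exact (hp.1 _).continuous.smul continuous_const

theorem exists_slicing {d : ℕ} {V : Type*} [NormedAddCommGroup V] [NormedSpace ℝ V]
    [FiniteDimensional ℝ V] (S : SData d V) (hN : 0 < S.N) (C0 : ℝ) (hC : 0 < C0) :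
    ∃ S' : Slicing d V, S'.deg = S.deg ∧ S'.C0 = C0 ∧
      ∀ i : Fin S'.N, ∃ i' : Fin S.N, ∀ z v, S'.e i z v = S.e i' z v := by
  obtain ⟨CE, hCE⟩ := gen_e_bound S
  obtain ⟨nb, z0, δ, rel, CL, hδ, hz0, hrel, hla⟩ := gen_la S hN
  obtain ⟨P, CP, hPm, hPi, hPl⟩ := gen_proj S (Module.finrank ℝ V)
  exact ⟨{
    N := S.N
    e := S.e
    deg := S.deg
    e_cont := fun i => (gen_e_contDiff S i).continuous
    e_smul := S.e_smul
    CE := CE
    e_bound := hCE
    C0 := C0
    C0_pos := hC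
    R := (S.R (Module.finrank ℝ V) : Set (X d → V))
    R_sub := fun p hp q hq => (S.R (Module.finrank ℝ V)).sub_mem hp hq
    R_cont := fun p hp => gsl_cont S _ hp
    R_inv := fun p hp => hp.2
    nb := nb
    z0 := z0
    δ := δ
    δ_pos := hδ
    z0_mem := hz0
    rel := rel
    rel_cone := hrel
    CL := CL
    la := hla
    af := fun κ ρ hκ => gen_af S (Module.finrank ℝ V) κ ρ hκ
    tr := fun κ ρ hκ => gen_tr S hN (Module.finrank ℝ V) κ ρ hκ
    P := P
    P_mem := hPm
    P_id := hPi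
    CP := CP
    P_lip := hPl }, rfl, rfl, fun i => ⟨i, fun _ _ => rfl⟩⟩

/-- **Sliceable operators.** -/
theorem sliceable_main {d : ℕ} {V W : Type*} [NormedAddCommGroup V] [InnerProductSpace ℝ V]
    [FiniteDimensional ℝ V] [NormedAddCommGroup W] [InnerProductSpace ℝ W] [FiniteDimensional ℝ W]
    (B : Fin (d + 1) → V →L[ℝ] W) (S : SData d V) (C0 : ℝ)
    (hη : ∀ (i : Fin S.N) (z : X d), ∃ η : W, ‖η‖ ≤ C0 * ‖z‖ ^ (S.deg + 1) ∧
      ∀ (j : Fin (d + 1)) (v : V), ⟪η, B j v⟫_ℝ = z j * S.e i z v)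
    {Ω : Set (E (d + 1))} (hΩ : IsOpen Ω) {u : E (d + 1) → V} {Bu : VectorMeasure (E (d + 1)) W}
    (h : IsBV B Ω u Bu) :
    μH[(d : ℝ)] (discSet Ω u \ densSet Ω Bu) = 0 := by
  rcases Nat.eq_zero_or_pos S.N with hN | hN
  · have h0 : ∀ v : V, v = 0 := fun v =>
      S.span v fun i z => absurd i.2 (by omega)
    have h1 : discSet Ω u = ∅ := by
      rw [Set.eq_empty_iff_forall_notMem]
      rintro x ⟨_, hx⟩
      apply hx
      refine ⟨0, ?_⟩
      have h2 : (fun r : ℝ => (volume (Metric.ball x r))⁻¹ *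
          ∫⁻ y in Metric.ball x r, ‖u y - 0‖ₑ) = fun _ => (0 : ℝ≥0∞) := by
        funext r
        have h3 : ∀ y, ‖u y - 0‖ₑ = 0 := fun y => by
          rw [h0 (u y - 0), enorm_zero]
        simp only [h3, lintegral_zero, mul_zero]
      rw [h2]
      exact tendsto_const_nhds
    rw [h1, Set.empty_sdiff, measure_empty]
  · obtain ⟨S', hdeg, hC0, he⟩ := exists_slicing S hN (max C0 1) (lt_max_of_lt_right one_pos)
    refine transfer S' B ?_ hΩ h
    intro i z
    obtain ⟨i', hi'⟩ := he i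
    obtain ⟨η, hη1, hη2⟩ := hη i' z
    refine ⟨η, ?_, fun j v => ?_⟩
    · rw [hC0, hdeg]
      exact hη1.trans (mul_le_mul_of_nonneg_right (le_max_left _ _) (by positivity))
    · rw [hη2 j v, hi' z v]

end BDJ
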