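import Pool.Agent.BDJ.SData

/-!
# Finite spanning sets of base points (row GEN-E)

For every open nonempty `O` and every `ρ` there are finitely many `y ∈ O` such that, uniformly for `‖x‖ ≤ ρ`, the functionals `e i (x - y)` are norming. Proof: for `(x,v)` in the compact set `closedBall 0 ρ × unit sphere of V` there are `y ∈ O`, `i` with
`e i (x - y) v ≠ 0` (otherwise `z ↦ e i z v` vanishes on the open set `x - O`, hence everywhere by `sepPoly_eq_zero`, contradiction with `span`); the sets `{(x,v) : |e i (x - y) v| > 0}` are open (joint continuity: `e i z v` is continuous in `z` for each `v`, linear in `v`,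
`V` finite-dimensional: `gen_joint`); take a finite subcover, `Y` = the `y` used, and the minimum over the compact set of the continuous positive function `max_{y ∈ Y, i} |e i (x - y) v|`; homogeneity in `v`.
(If `V` is trivial, `Y = ∅` works.)
-/

open MeasureTheory Set
open scoped ENNReal NNReal

namespace BDJ

variable {d : ℕ} {V : Type*} [NormedAddCommGroup V] [NormedSpace ℝ V] [FiniteDimensional ℝ V]

/-- the functionals depend smoothly, in particular continuously, on the direction -/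
theorem gen_e_contDiff (S : SData d V) (i : Fin S.N) : ContDiff ℝ (⊤ : ℕ∞) (S.e i) := by
  refine contDiff_clm_apply_iff.2 fun v => ?_
  exact (S.e_sep i v).contDiff

theorem gen_e_bound (S : SData d V) : ∃ CE : ℝ, ∀ (i : Fin S.N) (z : X d) (v : V),
    |S.e i z v| ≤ CE * ‖z‖ ^ S.deg * ‖v‖ := by
  have h1 : ∀ i : Fin S.N, ∃ C : ℝ, ∀ z ∈ Metric.closedBall (0 : X d) 1, ‖S.e i z‖ ≤ C := fun i =>
    (isCompact_closedBall (0 : X d) 1).exists_bound_of_continuousOn
      (gen_e_contDiff S i).continuous.continuousOn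
  choose C hC using h1
  have hC0 : ∀ i, 0 ≤ C i := fun i =>
    (norm_nonneg _).trans (hC i 0 (Metric.mem_closedBall_self zero_le_one))
  refine ⟨∑ i, C i, fun i z v => ?_⟩
  have hle : C i ≤ ∑ j, C j := Finset.single_le_sum (fun j _ => hC0 j) (Finset.mem_univ i)
  have key : ‖S.e i z‖ ≤ C i * ‖z‖ ^ S.deg := by
    by_cases hz : z = 0
    · subst hz
      rcases Nat.eq_zero_or_pos S.deg with hd | hd
      · rw [hd, pow_zero, mul_one]
        exact hC i 0 (Metric.mem_closedBall_self zero_le_one)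
      · have h2 := S.e_smul i 0 0
        rw [zero_smul, zero_pow hd.ne', zero_smul] at h2
        rw [h2, norm_zero]
        exact mul_nonneg (hC0 i) (pow_nonneg (norm_nonneg _) _)
    · have hz' : ‖z‖ ≠ 0 := norm_ne_zero_iff.2 hz
      have h2 := S.e_smul i ‖z‖ (‖z‖⁻¹ • z)
      rw [smul_smul, mul_inv_cancel₀ hz', one_smul] at h2
      rw [h2, norm_smul, norm_pow, norm_norm, mul_comm]
      refine mul_le_mul_of_nonneg_right (hC i _ ?_) (pow_nonneg (norm_nonneg _) _)
      rw [mem_closedBall_zero_iff, norm_smul, norm_inv, norm_norm, inv_mul_cancel₀ hz']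
  calc |S.e i z v| = ‖S.e i z v‖ := (Real.norm_eq_abs _).symm
    _ ≤ ‖S.e i z‖ * ‖v‖ := (S.e i z).le_opNorm v
    _ ≤ (C i * ‖z‖ ^ S.deg) * ‖v‖ := mul_le_mul_of_nonneg_right key (norm_nonneg _)
    _ ≤ ((∑ j, C j) * ‖z‖ ^ S.deg) * ‖v‖ :=
      mul_le_mul_of_nonneg_right (mul_le_mul_of_nonneg_right hle (pow_nonneg (norm_nonneg _) _))
        (norm_nonneg _)

theorem genspan_joint (S : SData d V) (i : Fin S.N) : Continuous fun q : X d × V => S.e i q.1 q.2 :=
  ((gen_e_contDiff S i).continuous.comp continuous_fst).clm_apply continuous_snd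

theorem genspan_joint' (S : SData d V) (i : Fin S.N) (y : X d) :
    Continuous fun q : X d × V => S.e i (q.1 - y) q.2 :=
  (genspan_joint S i).comp ((continuous_fst.sub continuous_const).prodMk continuous_snd)

omit [FiniteDimensional ℝ V] in
theorem genspan_exists (S : SData d V) {O : Set (X d)} (hO : IsOpen O) (hne : O.Nonempty) (x : X d)
    {v : V} (hv : v ≠ 0) : ∃ y ∈ O, ∃ i, S.e i (x - y) v ≠ 0 := by
  by_contra hc
  push Not at hc
  apply hv
  refine S.span v fun i z => ?_
  have ho : IsOpen ((fun z : X d => x - z) ⁻¹' O) := hO.preimage (continuous_const.sub continuous_id)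
  obtain ⟨y, hy⟩ := hne
  refine sepPoly_eq_zero (S.e_sep i v) ho ⟨x - y, ?_⟩ (fun w hw => ?_) z
  · show x - (x - y) ∈ O
    rwa [sub_sub_cancel]
  · have := hc (x - w) hw i
    rwa [sub_sub_cancel] at this

theorem gen_span_box (S : SData d V) (ρ : ℝ) {O : Set (X d)} (hO : IsOpen O) (hne : O.Nonempty) :
    ∃ (Y : Finset (X d)) (c : ℝ), (Y : Set (X d)) ⊆ O ∧ 0 < c ∧ ∀ x : X d, ‖x‖ ≤ ρ → ∀ (v : V) (T : ℝ),
      (∀ y ∈ Y, ∀ i, |S.e i (x - y) v| ≤ T) → c * ‖v‖ ≤ T ∨ v = 0 := by
  have hK : IsCompact (Metric.closedBall (0 : X d) ρ ×ˢ Metric.sphere (0 : V) 1) :=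
    haveI := FiniteDimensional.proper_real V
    (isCompact_closedBall _ _).prod (isCompact_sphere _ _)
  obtain ⟨b, hbO, hbf, hbK⟩ := hK.elim_finite_subcover_image (b := O)
    (c := fun y => ⋃ i : Fin S.N, {q : X d × V | S.e i (q.1 - y) q.2 ≠ 0})
    (fun y _ => isOpen_iUnion fun i => (isOpen_compl_singleton.preimage (genspan_joint' S i y)))
    (fun q hq => by
      have hv : q.2 ≠ 0 := by
        intro h
        have := hq.2
        rw [h, mem_sphere_zero_iff_norm, norm_zero] at this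
        exact zero_ne_one this
      obtain ⟨y, hy, i, hi⟩ := genspan_exists S hO hne q.1 hv
      exact mem_iUnion₂.2 ⟨y, hy, mem_iUnion.2 ⟨i, hi⟩⟩)
  refine ⟨hbf.toFinset, ?_⟩
  rcases (Metric.closedBall (0 : X d) ρ ×ˢ Metric.sphere (0 : V) 1).eq_empty_or_nonempty with hE | hN
  · refine ⟨1, ?_, one_pos, fun x hx v T _ => ?_⟩
    · rw [hbf.coe_toFinset]
      exact hbO
    · right
      by_contra hv
      have hmem : (x, ‖v‖⁻¹ • v) ∈ Metric.closedBall (0 : X d) ρ ×ˢ Metric.sphere (0 : V) 1 := by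
        refine ⟨mem_closedBall_zero_iff.2 hx, ?_⟩
        rw [mem_sphere_zero_iff_norm, norm_smul, norm_inv, norm_norm, inv_mul_cancel₀ (norm_ne_zero_iff.2 hv)]
      rw [hE] at hmem
      exact hmem
  · have hcont : Continuous fun q : X d × V => ∑ y ∈ hbf.toFinset, ∑ i, |S.e i (q.1 - y) q.2| :=
      continuous_finsetSum _ fun y _ => continuous_finsetSum _ fun i _ => (genspan_joint' S i y).abs
    obtain ⟨q0, hq0, hmin⟩ := hK.exists_isMinOn hN hcont.continuousOn
    obtain ⟨m, hm⟩ : ∃ m : ℝ, m = ∑ y ∈ hbf.toFinset, ∑ i, |S.e i (q0.1 - y) q0.2| := ⟨_, rfl⟩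
    have hm0 : 0 < m := by
      obtain ⟨y, hy, hi⟩ := mem_iUnion₂.1 (hbK hq0)
      obtain ⟨i, hi⟩ := mem_iUnion.1 hi
      rw [hm]
      refine lt_of_lt_of_le (abs_pos.2 hi) ?_
      refine le_trans (Finset.single_le_sum (f := fun i => |S.e i (q0.1 - y) q0.2|)
        (fun j _ => abs_nonneg _) (Finset.mem_univ i)) ?_
      exact Finset.single_le_sum (f := fun y => ∑ i, |S.e i (q0.1 - y) q0.2|)
        (fun y _ => Finset.sum_nonneg fun j _ => abs_nonneg _) (hbf.mem_toFinset.2 hy)
    have hP : 0 < ((hbf.toFinset.card : ℝ) * S.N + 1) := by positivity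
    refine ⟨m / ((hbf.toFinset.card : ℝ) * S.N + 1), ?_, div_pos hm0 hP, fun x hx v T hT => ?_⟩
    · rw [hbf.coe_toFinset]
      exact hbO
    · by_cases hv : v = 0
      · exact Or.inr hv
      left
      have hv0 : 0 < ‖v‖ := norm_pos_iff.2 hv
      have hmem : (x, ‖v‖⁻¹ • v) ∈ Metric.closedBall (0 : X d) ρ ×ˢ Metric.sphere (0 : V) 1 := by
        refine ⟨mem_closedBall_zero_iff.2 hx, ?_⟩
        rw [mem_sphere_zero_iff_norm, norm_smul, norm_inv, norm_norm, inv_mul_cancel₀ hv0.ne']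
      have h1 : m ≤ ∑ y ∈ hbf.toFinset, ∑ i, |S.e i (x - y) (‖v‖⁻¹ • v)| := by
        have h0 := isMinOn_iff.1 hmin (x, ‖v‖⁻¹ • v) hmem
        dsimp only at h0
        rw [hm]
        exact h0
      have h2 : ∑ y ∈ hbf.toFinset, ∑ i, |S.e i (x - y) (‖v‖⁻¹ • v)| =
          ‖v‖⁻¹ * ∑ y ∈ hbf.toFinset, ∑ i, |S.e i (x - y) v| := by
        rw [Finset.mul_sum]
        refine Finset.sum_congr rfl fun y _ => ?_
        rw [Finset.mul_sum]
        refine Finset.sum_congr rfl fun i _ => ?_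
        rw [map_smul, smul_eq_mul, abs_mul, abs_of_pos (inv_pos.2 hv0)]
      have h3 : ∑ y ∈ hbf.toFinset, ∑ i, |S.e i (x - y) v| ≤ (hbf.toFinset.card : ℝ) * S.N * T := by
        calc ∑ y ∈ hbf.toFinset, ∑ i, |S.e i (x - y) v|
            ≤ ∑ y ∈ hbf.toFinset, ∑ _i : Fin S.N, T :=
              Finset.sum_le_sum fun y hy => Finset.sum_le_sum fun i _ => hT y hy i
          _ = (hbf.toFinset.card : ℝ) * S.N * T := by
            rw [Finset.sum_const, Finset.sum_const, Finset.card_univ, Fintype.card_fin, nsmul_eq_mul,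
              nsmul_eq_mul, mul_assoc]
      have h4 : m * ‖v‖ ≤ (hbf.toFinset.card : ℝ) * S.N * T := by
        rw [h2] at h1
        have h5 := mul_le_mul_of_nonneg_right h1 hv0.le
        have h6 : ‖v‖⁻¹ * (∑ y ∈ hbf.toFinset, ∑ i, |S.e i (x - y) v|) * ‖v‖ =
            ∑ y ∈ hbf.toFinset, ∑ i, |S.e i (x - y) v| := by
          field_simp
        rw [h6] at h5
        exact h5.trans h3
      have h5 : 0 < m * ‖v‖ := mul_pos hm0 hv0
      have h6 : 0 ≤ (hbf.toFinset.card : ℝ) * S.N := by positivity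
      have h7 : 0 ≤ T := by
        by_contra hc
        push Not at hc
        nlinarith
      rw [div_mul_eq_mul_div, div_le_iff₀ hP]
      nlinarith

end BDJ
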