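import Pool.Agent.BDJ.SData

/-!
# The fields `af` and `tr` for slicing data (row GEN-C)

`gen_af`: apply `remez` to `ℓ ∘ q` for `ℓ` in a finite norming family of functionals: `‖v‖ ≤ C max_k |ℓ_k v|` (`V` finite-dimensional; e.g. coordinates in a basis), `|ℓ_k v| ≤ C ‖v‖`.

`gen_norm`: there is `C` with `‖v‖ ≤ C T` whenever `|e i z v| ≤ T` for all `i` and all `‖z‖ ≤ 1`: `v ↦ sup_{i, ‖z‖ ≤ 1} |e i z v|` is a norm on the finite-dimensional space `V` by `span` and homogeneity (or choose finitely many `(i_k, z_k)`, `‖z_k‖ ≤ 1`, with trivial common kernel;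
the linear map `v ↦ (e i_k z_k v)_k` is injective, hence bounded below).

`gen_tr`: `Φ_i(w,w') = e i (w' - w) (q w')`. Suppose `|Φ_i| ≤ T l^deg` for all `i` on a subset `G` of `bx c l × bx c' l'` of measure `≥ κ |.||.|`. The set `W'` of `w' ∈ bx c' l'` whose section has measure `≥ (κ/2)|bx c l|` has measure `≥ (κ/2) |bx c' l'|`. For `w' ∈ W'`
the function `w ↦ Φ_i(w,w')` is `SepPoly deg`, so by `remez` `|Φ_i(w,w')| ≤ C T l^deg` for `‖w - c‖ ≤ ρ' l` (`ρ'` large enough to contain, for every `w'` in `bx c' l'`, the ball of radius `l` about `w'`). So `|e i ζ (q w')| ≤ C T l^deg` for all `‖ζ‖ ≤ l`, that is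
`|e i ζ (q w')| ≤ C T` for `‖ζ‖ ≤ 1` (homogeneity), so `‖q w'‖ ≤ C T` by `gen_norm`, for `w' ∈ W'`; conclude by `gen_af` on `bx c' l'`. (No need of the second Remez step. `T ≥ 0` because `0 < S.N` and the set has positive measure.)
-/

open MeasureTheory Set
open scoped ENNReal NNReal

namespace BDJ

variable {d : ℕ} {V : Type*} [NormedAddCommGroup V] [NormedSpace ℝ V] [FiniteDimensional ℝ V]

/-- the coordinate functionals of a basis -/
theorem gentr_basis (V : Type*) [NormedAddCommGroup V] [NormedSpace ℝ V] [FiniteDimensional ℝ V] :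
    ∃ (n : ℕ) (b : Fin n → V) (ℓ : Fin n → V →L[ℝ] ℝ), ∀ v : V, v = ∑ k, ℓ k v • b k := by
  refine ⟨Module.finrank ℝ V, Module.finBasis ℝ V,
    fun k => LinearMap.toContinuousLinearMap ((Module.finBasis ℝ V).coord k), fun v => ?_⟩
  exact ((Module.finBasis ℝ V).sum_repr v).symm

/-- continuity of the functionals along continuous maps -/
theorem gentr_cont (S : SData d V) (i : Fin S.N) {Y : Type*} [TopologicalSpace Y] {z : Y → X d}
    (hz : Continuous z) {v : Y → V} (hv : Continuous v) : Continuous fun y => S.e i (z y) (v y) := by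
  obtain ⟨n, b, ℓ, hb⟩ := gentr_basis V
  have h1 : ∀ y, S.e i (z y) (v y) = ∑ k, ℓ k (v y) * S.e i (z y) (b k) := by
    intro y
    conv_lhs => rw [hb (v y)]
    rw [map_sum]
    refine Finset.sum_congr rfl fun k _ => ?_
    rw [map_smul, smul_eq_mul]
  simp only [h1]
  refine continuous_finsetSum _ fun k _ => ?_
  exact ((ℓ k).continuous.comp hv).mul ((S.e_sep i (b k)).continuous.comp hz)

theorem gentr_q_cont (S : SData d V) {M : ℕ} {q : X d → V} (hq : q ∈ S.R M) : Continuous q := by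
  obtain ⟨n, b, ℓ, hb⟩ := gentr_basis V
  have h1 : q = fun x => ∑ k, ℓ k (q x) • b k := by
    funext x
    exact hb (q x)
  rw [h1]
  refine continuous_finsetSum _ fun k _ => ?_
  exact ((hq.1 (ℓ k)).continuous).smul continuous_const

/-- many good second coordinates -/
theorem gentr_fubini {κ : ℝ} (hκ : 0 < κ) {c c' : X d} {l l' : ℝ} (hl : 0 < l) (hl' : 0 < l')
    (H : Set (X d × X d)) (hH : MeasurableSet H)
    (hm : ENNReal.ofReal κ * (volume (bx c l) * volume (bx c' l')) ≤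
      (volume.prod volume) {p : X d × X d | p.1 ∈ bx c l ∧ p.2 ∈ bx c' l' ∧ p ∈ H}) :
    ENNReal.ofReal (κ / 2) * volume (bx c' l') ≤ volume {w' ∈ bx c' l' |
      ENNReal.ofReal (κ / 2) * volume (bx c l) ≤ volume {w ∈ bx c l | (w, w') ∈ H}} := by
  set B := volume (bx c l) with hB
  set B' := volume (bx c' l') with hB'
  have hBf : B ≠ ∞ := by rw [hB, volume_bx c hl.le]; exact ENNReal.ofReal_ne_top
  have hB'f : B' ≠ ∞ := by rw [hB', volume_bx c' hl'.le]; exact ENNReal.ofReal_ne_top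
  have hB0 : B ≠ 0 := by
    rw [hB, volume_bx c hl.le]
    exact (ENNReal.ofReal_pos.2 (by positivity)).ne'
  set G : Set (X d × X d) := {p | p.1 ∈ bx c l ∧ p.2 ∈ bx c' l' ∧ p ∈ H} with hG
  have hGm : MeasurableSet G := by
    have h1 : MeasurableSet {p : X d × X d | p.1 ∈ bx c l} :=
      measurable_fst (measurableSet_bx c l)
    have h2 : MeasurableSet {p : X d × X d | p.2 ∈ bx c' l'} :=
      measurable_snd (measurableSet_bx c' l')
    exact h1.inter (h2.inter hH)
  set W := {w' ∈ bx c' l' |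
      ENNReal.ofReal (κ / 2) * B ≤ volume {w ∈ bx c l | (w, w') ∈ H}} with hW
  have hφ : Measurable fun w' : X d => volume ((fun w : X d => (w, w')) ⁻¹' G) :=
    measurable_measure_prodMk_right hGm
  have hsec : ∀ w' ∈ bx c' l', (fun w : X d => (w, w')) ⁻¹' G = {w ∈ bx c l | (w, w') ∈ H} := by
    intro w' hw'
    ext w
    constructor
    · rintro ⟨h1, -, h3⟩; exact ⟨h1, h3⟩
    · rintro ⟨h1, h3⟩; exact ⟨h1, hw', h3⟩
  have hWm : MeasurableSet W := by
    have : W = bx c' l' ∩ {w' | ENNReal.ofReal (κ / 2) * B ≤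
        volume ((fun w : X d => (w, w')) ⁻¹' G)} := by
      ext w'
      constructor
      · rintro ⟨h1, h2⟩
        refine ⟨h1, ?_⟩
        rw [mem_ofPred_eq, hsec w' h1]; exact h2
      · rintro ⟨h1, h2⟩
        rw [mem_ofPred_eq, hsec w' h1] at h2
        exact ⟨h1, h2⟩
    rw [this]
    exact (measurableSet_bx c' l').inter (measurableSet_le measurable_const hφ)
  have hbound : ∀ w' : X d, volume ((fun w : X d => (w, w')) ⁻¹' G) ≤
      (bx c' l').indicator (fun _ => ENNReal.ofReal (κ / 2) * B) w' +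
        W.indicator (fun _ => B) w' := by
    intro w'
    by_cases h1 : w' ∈ bx c' l'
    · by_cases h2 : w' ∈ W
      · rw [indicator_of_mem h2]
        refine le_trans ?_ le_add_self
        rw [hsec w' h1]
        exact measure_mono (fun w hw => hw.1)
      · rw [indicator_of_notMem h2, add_zero, indicator_of_mem h1, hsec w' h1]
        by_contra h3
        exact h2 ⟨h1, (not_le.1 h3).le⟩
    · have : (fun w : X d => (w, w')) ⁻¹' G = ∅ := by
        ext w
        constructor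
        · rintro ⟨-, h, -⟩; exact (h1 h).elim
        · intro h; exact h.elim
      rw [this, measure_empty]
      exact zero_le
  have hint : (volume.prod volume) G ≤ ENNReal.ofReal (κ / 2) * B * B' + B * volume W := by
    rw [Measure.prod_apply_symm hGm]
    calc ∫⁻ w', volume ((fun w : X d => (w, w')) ⁻¹' G)
        ≤ ∫⁻ w', ((bx c' l').indicator (fun _ => ENNReal.ofReal (κ / 2) * B) w' +
            W.indicator (fun _ => B) w') := lintegral_mono hbound
      _ = ENNReal.ofReal (κ / 2) * B * B' + B * volume W := by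
          rw [lintegral_add_left (measurable_const.indicator (measurableSet_bx c' l')),
            lintegral_indicator_const (measurableSet_bx c' l'),
            lintegral_indicator_const hWm]
  have h4 := hm.trans hint
  have hκ2 : ENNReal.ofReal κ = ENNReal.ofReal (κ / 2) + ENNReal.ofReal (κ / 2) := by
    rw [← ENNReal.ofReal_add (by positivity) (by positivity)]
    congr 1; ring
  have h5 : ENNReal.ofReal (κ / 2) * B * B' + ENNReal.ofReal (κ / 2) * B * B' ≤
      ENNReal.ofReal (κ / 2) * B * B' + B * volume W := by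
    calc _ = ENNReal.ofReal κ * (B * B') := by rw [hκ2]; ring
      _ ≤ _ := h4
  have hfin : ENNReal.ofReal (κ / 2) * B * B' ≠ ∞ :=
    ENNReal.mul_ne_top (ENNReal.mul_ne_top ENNReal.ofReal_ne_top hBf) hB'f
  have h6 : ENNReal.ofReal (κ / 2) * B * B' ≤ B * volume W :=
    (ENNReal.add_le_add_iff_left hfin).1 h5
  have h7 : B * (ENNReal.ofReal (κ / 2) * B') ≤ B * volume W := by
    calc _ = ENNReal.ofReal (κ / 2) * B * B' := by ring
      _ ≤ _ := h6
  exact (ENNReal.mul_le_mul_iff_right hB0 hBf).1 h7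

theorem gen_norm (S : SData d V) : ∃ C : ℝ, 0 < C ∧ ∀ (v : V) (T : ℝ), 0 ≤ T →
    (∀ (i : Fin S.N) (z : X d), ‖z‖ ≤ 1 → |S.e i z v| ≤ T) → ‖v‖ ≤ C * T := by
  have hker : ∀ v : V, v ≠ 0 → ∃ (i : Fin S.N) (z : X d), ‖z‖ ≤ 1 ∧ S.e i z v ≠ 0 := by
    intro v hv
    by_contra hcon
    push Not at hcon
    apply hv
    refine S.span v fun i z => ?_
    have hs : 0 < ‖z‖ + 1 := by positivity
    have h1 : z = (‖z‖ + 1) • ((‖z‖ + 1)⁻¹ • z) := by
      rw [smul_smul, mul_inv_cancel₀ hs.ne', one_smul]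
    have h2 : ‖(‖z‖ + 1)⁻¹ • z‖ ≤ 1 := by
      rw [norm_smul, norm_inv, Real.norm_of_nonneg hs.le, inv_mul_le_iff₀ hs]
      linarith
    rw [h1, S.e_smul, smul_apply, hcon i _ h2, smul_zero]
  have hcomp : IsCompact (Metric.sphere (0 : V) 1) := by
    have : ProperSpace V := FiniteDimensional.proper ℝ V
    exact isCompact_sphere 0 1
  have hP : ∃ C : ℝ, 0 < C ∧ ∀ v ∈ Metric.sphere (0 : V) 1, ∀ T : ℝ, 0 ≤ T →
      (∀ (i : Fin S.N) (z : X d), ‖z‖ ≤ 1 → |S.e i z v| ≤ T) → 1 ≤ C * T := by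
    refine hcomp.induction_on (p := fun A : Set V => ∃ C : ℝ, 0 < C ∧ ∀ v ∈ A, ∀ T : ℝ, 0 ≤ T →
      (∀ (i : Fin S.N) (z : X d), ‖z‖ ≤ 1 → |S.e i z v| ≤ T) → 1 ≤ C * T) ?_ ?_ ?_ ?_
    · exact ⟨1, one_pos, fun v hv => absurd hv (Set.notMem_empty v)⟩
    · rintro A A' hA ⟨C, hC, h⟩
      exact ⟨C, hC, fun v hv => h v (hA hv)⟩
    · rintro A A' ⟨C, hC, h⟩ ⟨C', hC', h'⟩
      refine ⟨C + C', by positivity, ?_⟩
      rintro v (hv | hv) T hT hvT
      · have := h v hv T hT hvT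
        nlinarith
      · have := h' v hv T hT hvT
        nlinarith
    · intro v hv
      have hv0 : v ≠ 0 := by
        rintro rfl
        simp at hv
      obtain ⟨i, z, hz, hne⟩ := hker v hv0
      have hpos : 0 < |S.e i z v| := abs_pos.2 hne
      refine ⟨{u | |S.e i z v| / 2 < |S.e i z u|}, ?_, 2 / |S.e i z v|, by positivity, ?_⟩
      · refine mem_nhdsWithin_of_mem_nhds (IsOpen.mem_nhds ?_ ?_)
        · exact isOpen_lt continuous_const (S.e i z).continuous.abs
        · change |S.e i z v| / 2 < |S.e i z v|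
          linarith
      · intro u hu T _ hT
        have h1 : |S.e i z v| / 2 < |S.e i z u| := hu
        have h2 := hT i z hz
        rw [div_mul_eq_mul_div, one_le_div hpos]
        linarith
  obtain ⟨C, hC, h⟩ := hP
  refine ⟨C, hC, fun v T hT hvT => ?_⟩
  by_cases hv : v = 0
  · rw [hv, norm_zero]
    positivity
  · have hn : 0 < ‖v‖ := norm_pos_iff.2 hv
    have h1 := h (‖v‖⁻¹ • v) (by
      rw [mem_sphere_zero_iff_norm, norm_smul, norm_inv, norm_norm, inv_mul_cancel₀ hn.ne'])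
      (T / ‖v‖) (by positivity) (fun i z hz => by
        rw [map_smul, smul_eq_mul, abs_mul, abs_inv, abs_norm, inv_mul_eq_div]
        exact div_le_div_of_nonneg_right (hvT i z hz) hn.le)
    rw [← mul_div_assoc, one_le_div hn] at h1
    exact h1

theorem gen_af (S : SData d V) (M : ℕ) (κ ρ : ℝ) (hκ : 0 < κ) : ∃ C : ℝ, 0 < C ∧
    ∀ (c : X d) (l : ℝ), 0 < l → ∀ q ∈ S.R M, ∀ T : ℝ,
    ENNReal.ofReal κ * volume (bx c l) ≤ volume {x ∈ bx c l | ‖q x‖ ≤ T} →
    ∀ x : X d, ‖x - c‖ ≤ ρ * l → ‖q x‖ ≤ C * T := by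
  obtain ⟨C0, hC0, h0⟩ := remez (d + 1) M hκ ρ
  obtain ⟨n, b, ℓ, hb⟩ := gentr_basis V
  refine ⟨C0 * (∑ k, ‖ℓ k‖ * ‖b k‖) + 1, by positivity, ?_⟩
  intro c l hl q hq T hm x hx
  have hvol : ENNReal.ofReal κ * volume (bx c l) = ENNReal.ofReal (κ * l ^ (d + 1)) := by
    rw [volume_bx c hl.le, ← ENNReal.ofReal_mul hκ.le]
  have hT : 0 ≤ T := by
    have hpos : 0 < volume {x ∈ bx c l | ‖q x‖ ≤ T} := by
      refine lt_of_lt_of_le ?_ hm
      rw [hvol, ENNReal.ofReal_pos]
      positivity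
    obtain ⟨y, -, hy⟩ := nonempty_of_measure_ne_zero hpos.ne'
    exact (norm_nonneg _).trans hy
  have hk : ∀ k, |ℓ k (q x)| ≤ C0 * (‖ℓ k‖ * T) := by
    intro k
    refine h0 c l hl (fun y => ℓ k (q y)) (hq.1 (ℓ k)) (‖ℓ k‖ * T) ?_ x ?_
    · rw [← hvol]
      refine hm.trans (measure_mono ?_)
      rintro y ⟨hy, hyT⟩
      refine ⟨hy, ?_⟩
      have := (ℓ k).le_opNorm (q y)
      rw [Real.norm_eq_abs] at this
      exact this.trans (mul_le_mul_of_nonneg_left hyT (norm_nonneg _))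
    · intro i
      have := (norm_le_pi_norm (x - c) i).trans hx
      rwa [Pi.sub_apply, Real.norm_eq_abs] at this
  calc ‖q x‖ = ‖∑ k, ℓ k (q x) • b k‖ := by rw [← hb (q x)]
    _ ≤ ∑ k, ‖ℓ k (q x) • b k‖ := norm_sum_le _ _
    _ ≤ ∑ k, C0 * (‖ℓ k‖ * T) * ‖b k‖ := by
        refine Finset.sum_le_sum fun k _ => ?_
        rw [norm_smul, Real.norm_eq_abs]
        exact mul_le_mul_of_nonneg_right (hk k) (norm_nonneg _)
    _ = C0 * (∑ k, ‖ℓ k‖ * ‖b k‖) * T := by
        rw [Finset.mul_sum, Finset.sum_mul]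
        refine Finset.sum_congr rfl fun k _ => ?_
        ring
    _ ≤ (C0 * (∑ k, ‖ℓ k‖ * ‖b k‖) + 1) * T := by linarith

theorem gen_tr (S : SData d V) (hN : 0 < S.N) (M : ℕ) (κ ρ : ℝ) (hκ : 0 < κ) : ∃ C : ℝ, 0 < C ∧
    ∀ (c c' : X d) (l l' : ℝ), 0 < l → l ≤ l' → l' ≤ 2 * l →
    ‖c - c'‖ ≤ ρ * l → ∀ q ∈ S.R M, ∀ T : ℝ,
    ENNReal.ofReal κ * (volume (bx c l) * volume (bx c' l')) ≤
      (volume.prod volume) {p : X d × X d | p.1 ∈ bx c l ∧ p.2 ∈ bx c' l' ∧
        ∀ i, |S.e i (p.2 - p.1) (q p.2)| ≤ T * l ^ S.deg} →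
    ∀ x : X d, ‖x - c‖ ≤ ρ * l → ‖q x‖ ≤ C * T := by
  have hκ2 : 0 < κ / 2 := by positivity
  obtain ⟨C1, hC1, h1⟩ := remez (d + 1) S.deg hκ2 (|ρ| + 3)
  obtain ⟨C2, hC2, h2⟩ := gen_norm S
  obtain ⟨C3, hC3, h3⟩ := gen_af S M (κ / 2) (2 * |ρ|) hκ2
  refine ⟨C3 * (C2 * C1), by positivity, ?_⟩
  intro c c' l l' hl hll' hl2 hcc q hq T hm x hx
  have hl' : 0 < l' := lt_of_lt_of_le hl hll'
  have hqc := gentr_q_cont S hq
  have hmeas : MeasurableSet {p : X d × X d | ∀ i, |S.e i (p.2 - p.1) (q p.2)| ≤ T * l ^ S.deg} := by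
    have : {p : X d × X d | ∀ i, |S.e i (p.2 - p.1) (q p.2)| ≤ T * l ^ S.deg} =
        ⋂ i, {p : X d × X d | |S.e i (p.2 - p.1) (q p.2)| ≤ T * l ^ S.deg} := by
      ext p
      simp
    rw [this]
    refine MeasurableSet.iInter fun i => ?_
    refine (isClosed_le ?_ continuous_const).measurableSet
    exact (gentr_cont S i (continuous_snd.sub continuous_fst) (hqc.comp continuous_snd)).abs
  have hW := gentr_fubini hκ hl hl' _ hmeas hm
  -- T is nonneg
  have hT : 0 ≤ T := by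
    have hpos : 0 < (volume.prod volume) {p : X d × X d | p.1 ∈ bx c l ∧ p.2 ∈ bx c' l' ∧
        ∀ i, |S.e i (p.2 - p.1) (q p.2)| ≤ T * l ^ S.deg} := by
      refine lt_of_lt_of_le ?_ hm
      rw [volume_bx c hl.le, volume_bx c' hl'.le, ← ENNReal.ofReal_mul (by positivity),
        ← ENNReal.ofReal_mul hκ.le, ENNReal.ofReal_pos]
      positivity
    obtain ⟨p, -, -, hp⟩ := nonempty_of_measure_ne_zero hpos.ne'
    have h := (abs_nonneg _).trans (hp ⟨0, hN⟩)
    by_contra hneg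
    have : T * l ^ S.deg < 0 := mul_neg_of_neg_of_pos (not_le.1 hneg) (by positivity)
    linarith
  have hR : 0 ≤ ρ := by
    by_contra hneg
    have : ρ * l < 0 := mul_neg_of_neg_of_pos (not_le.1 hneg) hl
    linarith [norm_nonneg (x - c)]
  have hρ : |ρ| = ρ := abs_of_nonneg hR
  have step2 : ∀ w' ∈ {w' ∈ bx c' l' | ENNReal.ofReal (κ / 2) * volume (bx c l) ≤
      volume {w ∈ bx c l | (w, w') ∈ {p : X d × X d |
        ∀ i, |S.e i (p.2 - p.1) (q p.2)| ≤ T * l ^ S.deg}}}, ‖q w'‖ ≤ C2 * (C1 * T) := by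
    rintro w' ⟨hw'1, hw'⟩
    refine h2 _ _ (by positivity) fun i z hz => ?_
    have hsep : SepPoly S.deg (fun w : X d => S.e i (w' + (-1 : ℝ) • w) (q w')) :=
      (S.e_sep i (q w')).comp_affine w' (-1)
    have h := h1 c l hl _ hsep (T * l ^ S.deg) ?_ (w' - l • z) ?_
    · have e1 : w' + (-1 : ℝ) • (w' - l • z) = l • z := by
        rw [neg_one_smul]
        abel
      rw [e1, S.e_smul, smul_apply, smul_eq_mul, abs_mul,
        abs_of_nonneg (by positivity : 0 ≤ l ^ S.deg)] at h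
      have hlp : 0 < l ^ S.deg := by positivity
      refine le_of_mul_le_mul_left (h.trans (le_of_eq ?_)) hlp
      ring
    · have hvol : ENNReal.ofReal (κ / 2 * l ^ (d + 1)) = ENNReal.ofReal (κ / 2) * volume (bx c l) := by
        rw [volume_bx c hl.le, ← ENNReal.ofReal_mul hκ2.le]
      rw [hvol]
      refine hw'.trans (measure_mono ?_)
      rintro w ⟨hw1, hw2⟩
      refine ⟨hw1, ?_⟩
      have e2 : w' + (-1 : ℝ) • w = w' - w := by
        rw [neg_one_smul]
        abel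
      change |S.e i (w' + (-1 : ℝ) • w) (q w')| ≤ _
      rw [e2]
      exact hw2 i
    · intro j
      rw [Pi.sub_apply, Pi.smul_apply, smul_eq_mul, hρ]
      have a1 := hw'1 j
      have a2 := (norm_le_pi_norm (c - c') j).trans hcc
      rw [Pi.sub_apply, Real.norm_eq_abs, abs_le] at a2
      have a3 := (norm_le_pi_norm z j).trans hz
      rw [Real.norm_eq_abs, abs_le] at a3
      have a4 : l * z j ≤ l * 1 := mul_le_mul_of_nonneg_left a3.2 hl.le
      have a5 : l * (-1) ≤ l * z j := mul_le_mul_of_nonneg_left a3.1 hl.le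
      rw [abs_le]
      constructor
      · linarith [a1.1, a2.2]
      · linarith [a1.2, a2.1]
  have h6 := h3 c' l' hl' q hq (C2 * (C1 * T)) ?_ x ?_
  · calc ‖q x‖ ≤ C3 * (C2 * (C1 * T)) := h6
      _ = _ := by ring
  · refine hW.trans (measure_mono ?_)
    intro y hy
    exact ⟨hy.1, step2 y hy⟩
  · rw [hρ]
    have h7 : x - c' = (x - c) + (c - c') := by abel
    rw [h7]
    have h8 := norm_add_le (x - c) (c - c')
    have h9 : ρ * l ≤ ρ * l' := mul_le_mul_of_nonneg_left hll' hR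
    linarith

end BDJ
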