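import Pool.Agent.BDJ.GenPoly

/-!
# Vanishing of the top derivatives (row GEN-G3): see the docstring of `GenPoly`, part (G1c)
-/

open MeasureTheory Set
open scoped ENNReal NNReal

namespace BDJ

variable {d : ℕ} {V : Type*} [NormedAddCommGroup V] [NormedSpace ℝ V] [FiniteDimensional ℝ V]

theorem gtop_isOpen (d : ℕ) (t : ℝ) : IsOpen (obx d t) := by
  have h1 : IsOpen {x : X d | |x 0 - t| < 1 / 32} :=
    isOpen_lt (by fun_prop) continuous_const
  have h2 : IsOpen {x : X d | ∀ c : Fin (d + 1), c ≠ 0 → |x c - 1 / 2| < 1 / 32} := by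
    have : {x : X d | ∀ c : Fin (d + 1), c ≠ 0 → |x c - 1 / 2| < 1 / 32}
        = ⋂ c : Fin (d + 1), {x : X d | c ≠ 0 → |x c - 1 / 2| < 1 / 32} := by
      ext x; simp
    rw [this]
    refine isOpen_iInter_of_finite fun c => ?_
    by_cases hc : c = 0
    · simp [hc]
    · simp only [ne_eq, hc, not_false_eq_true, forall_const]
      exact isOpen_lt (by fun_prop) continuous_const
  exact h1.inter h2

/-- iterated directional derivatives -/
noncomputable def gtopD (p : X d → V) : List (X d) → X d → V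
  | [] => p
  | h :: hs => fun x => fderiv ℝ (gtopD p hs) x h

theorem gtopD_smooth {O : Set (X d)} (hO : IsOpen O) {p : X d → V}
    (hp : ContDiffOn ℝ (⊤ : ℕ∞) p O) : ∀ hs : List (X d), ContDiffOn ℝ (⊤ : ℕ∞) (gtopD p hs) O
  | [] => hp
  | h :: hs => by
    have h1 : ContDiffOn ℝ (⊤ : ℕ∞) (fderiv ℝ (gtopD p hs)) O :=
      (gtopD_smooth hO hp hs).fderiv_of_isOpen hO (by simp)
    exact h1.clm_apply contDiffOn_const

theorem gtop_snd {O : Set (X d)} (hO : IsOpen O) {q : X d → V}
    (hq : ContDiffOn ℝ (⊤ : ℕ∞) q O) {x : X d} (hx : x ∈ O) (a b : X d) :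
    fderiv ℝ (fun y => fderiv ℝ q y b) x a = fderiv ℝ (fderiv ℝ q) x a b := by
  have h1 : ContDiffOn ℝ (⊤ : ℕ∞) (fderiv ℝ q) O := hq.fderiv_of_isOpen hO (by simp)
  have h2 : DifferentiableAt ℝ (fderiv ℝ q) x :=
    (h1.contDiffAt (hO.mem_nhds hx)).differentiableAt (by simp)
  have h3 := h2.hasFDerivAt.clm_apply (hasFDerivAt_const b x)
  rw [h3.fderiv]
  simp

theorem gtop_symm {O : Set (X d)} (hO : IsOpen O) {q : X d → V}
    (hq : ContDiffOn ℝ (⊤ : ℕ∞) q O) {x : X d} (hx : x ∈ O) (a b : X d) :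
    fderiv ℝ (fderiv ℝ q) x a b = fderiv ℝ (fderiv ℝ q) x b a :=
  (hq.contDiffAt (hO.mem_nhds hx)).isSymmSndFDerivAt (by
    rw [minSmoothness_of_isRCLikeNormedField]
    exact WithTop.coe_le_coe.mpr (le_top : (2 : ℕ∞) ≤ ⊤)) a b

theorem gtopD_perm {O : Set (X d)} (hO : IsOpen O) {p : X d → V}
    (hp : ContDiffOn ℝ (⊤ : ℕ∞) p O) {l l' : List (X d)} (h : l.Perm l') :
    ∀ x ∈ O, gtopD p l x = gtopD p l' x := by
  induction h with
  | nil => intro x _; rfl
  | cons a _ ih =>
    intro x hx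
    show fderiv ℝ _ x a = fderiv ℝ _ x a
    rw [Filter.EventuallyEq.fderiv_eq (Filter.mem_of_superset (hO.mem_nhds hx) ih)]
  | swap a b l =>
    intro x hx
    show fderiv ℝ (fun y => fderiv ℝ (gtopD p l) y a) x b = fderiv ℝ (fun y => fderiv ℝ (gtopD p l) y b) x a
    rw [gtop_snd hO (gtopD_smooth hO hp l) hx, gtop_snd hO (gtopD_smooth hO hp l) hx,
      gtop_symm hO (gtopD_smooth hO hp l) hx]
  | trans _ _ ih1 ih2 => intro x hx; rw [ih1 x hx, ih2 x hx]

theorem gtop_C {S : SData d V} {O : Set (X d)} (hO : IsOpen O) {q : X d → V}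
    (hq : ContDiffOn ℝ (⊤ : ℕ∞) q O) (h0 : ∀ x ∈ O, ∀ i z, S.e i z (fderiv ℝ q x z) = 0)
    (h : X d) {x : X d} (hx : x ∈ O) (i : Fin S.N) (z : X d) :
    S.e i z (fderiv ℝ (fun y => fderiv ℝ q y h) x z) = 0 := by
  rw [gtop_snd hO hq hx, gtop_symm hO hq hx]
  rw [← gtop_snd hO hq hx]
  have h1 : ContDiffOn ℝ (⊤ : ℕ∞) (fderiv ℝ q) O := hq.fderiv_of_isOpen hO (by simp)
  have h2 : DifferentiableAt ℝ (fun y => fderiv ℝ q y z) x :=
    ((h1.clm_apply contDiffOn_const).contDiffAt (hO.mem_nhds hx)).differentiableAt (by simp)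
  have h3 : fderiv ℝ (fun y => S.e i z (fderiv ℝ q y z)) x
      = (S.e i z).comp (fderiv ℝ (fun y => fderiv ℝ q y z) x) := by
    have := (S.e i z).hasFDerivAt.comp x h2.hasFDerivAt
    exact this.fderiv
  have h4 : fderiv ℝ (fun y => S.e i z (fderiv ℝ q y z)) x = 0 := by
    have : (fun y => S.e i z (fderiv ℝ q y z)) =ᶠ[nhds x] fun _ => (0 : ℝ) :=
      Filter.mem_of_superset (hO.mem_nhds hx) fun y hy => h0 y hy i z
    rw [this.fderiv_eq]
    simp
  have h5 := congrArg (fun L : X d →L[ℝ] ℝ => L h) h3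
  rw [h4] at h5
  simpa using h5.symm

theorem gtop_CD {S : SData d V} {O : Set (X d)} (hO : IsOpen O) {p : X d → V}
    (hp : ContDiffOn ℝ (⊤ : ℕ∞) p O) (h0 : ∀ x ∈ O, ∀ i z, S.e i z (fderiv ℝ p x z) = 0) :
    ∀ hs : List (X d), ∀ x ∈ O, ∀ i z, S.e i z (fderiv ℝ (gtopD p hs) x z) = 0
  | [] => h0
  | h :: hs => fun x hx i z =>
    gtop_C hO (gtopD_smooth hO hp hs) (gtop_CD hO hp h0 hs) h hx i z

/-- selection of functionals -/
theorem gtop_sel (S : SData d V) : ∀ (n : ℕ) (W : Submodule ℝ V), Module.finrank ℝ W ≤ n →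
    ∃ L : List (Fin S.N × X d), L.length ≤ n ∧
      ∀ v ∈ W, (∀ a ∈ L, S.e a.1 a.2 v = 0) → v = 0 := by
  intro n
  induction n with
  | zero =>
    intro W hW
    refine ⟨[], le_rfl, fun v hv _ => ?_⟩
    have : W = ⊥ := Submodule.finrank_eq_zero.mp (Nat.le_zero.mp hW)
    rw [this] at hv
    exact (Submodule.mem_bot ℝ).mp hv
  | succ n ih =>
    intro W hW
    by_cases hb : ∀ v ∈ W, v = 0
    · exact ⟨[], Nat.zero_le _, fun v hv _ => hb v hv⟩
    push Not at hb
    obtain ⟨v, hv, hv0⟩ := hb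
    have : ∃ i z, S.e i z v ≠ 0 := by
      by_contra hcon
      push Not at hcon
      exact hv0 (S.span v hcon)
    obtain ⟨i, z, hiz⟩ := this
    have hlt : W ⊓ LinearMap.ker (S.e i z : V →ₗ[ℝ] ℝ) < W := by
      refine lt_of_le_of_ne inf_le_left fun he => ?_
      have : v ∈ W ⊓ LinearMap.ker (S.e i z : V →ₗ[ℝ] ℝ) := by rw [he]; exact hv
      exact hiz this.2
    have h1 := Submodule.finrank_lt_finrank_of_lt hlt
    obtain ⟨L, hL, hL2⟩ := ih (W ⊓ LinearMap.ker (S.e i z : V →ₗ[ℝ] ℝ)) (by omega)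
    refine ⟨(i, z) :: L, by simpa using hL, fun w hw hw2 => ?_⟩
    refine hL2 w ⟨hw, ?_⟩ fun a ha => hw2 a (List.mem_cons_of_mem _ ha)
    exact hw2 (i, z) (List.mem_cons_self)

/-- openness of the separation property -/
theorem gtop_open (S : SData d V) (L0 : List (Fin S.N × X d))
    (hL : ∀ v : V, (∀ a ∈ L0, S.e a.1 a.2 v = 0) → v = 0) :
    ∃ ε : ℝ, 0 < ε ∧ ∀ L : List (Fin S.N × X d),
      List.Forall₂ (fun a b : Fin S.N × X d => a.1 = b.1 ∧ ‖a.2 - b.2‖ < ε) L L0 →
      ∀ v : V, (∀ a ∈ L, S.e a.1 a.2 v = 0) → v = 0 := by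
  -- the constant
  have hc : ∃ c : ℝ, 0 < c ∧ ∀ v : V, c * ‖v‖ ≤ (L0.map fun a => |S.e a.1 a.2 v|).sum := by
    have hcont : Continuous fun v : V => (L0.map fun a => |S.e a.1 a.2 v|).sum := by
      clear hL
      induction L0 with
      | nil => simpa using continuous_const
      | cons a L0 ih =>
        simp only [List.map_cons, List.sum_cons]
        exact ((S.e a.1 a.2).continuous.abs).add ih
    have hnn : ∀ v : V, 0 ≤ (L0.map fun a => |S.e a.1 a.2 v|).sum := by
      intro v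
      refine List.sum_nonneg fun y hy => ?_
      obtain ⟨a, -, rfl⟩ := List.mem_map.mp hy
      exact abs_nonneg _
    have hpos : ∀ v : V, v ≠ 0 → 0 < (L0.map fun a => |S.e a.1 a.2 v|).sum := by
      intro v hv
      refine lt_of_le_of_ne (hnn v) fun he => hv (hL v fun a ha => ?_)
      have h1 : |S.e a.1 a.2 v| ≤ (L0.map fun a => |S.e a.1 a.2 v|).sum :=
        List.single_le_sum (fun y hy => by
          obtain ⟨b, -, rfl⟩ := List.mem_map.mp hy
          exact abs_nonneg _) _ (List.mem_map.mpr ⟨a, ha, rfl⟩)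
      rw [← he] at h1
      exact abs_nonpos_iff.mp h1
    by_cases htriv : ∀ v : V, v = 0
    · refine ⟨1, one_pos, fun v => ?_⟩
      rw [htriv v]
      simpa using hnn 0
    push Not at htriv
    obtain ⟨v0, hv0⟩ := htriv
    have hcomp : IsCompact (Metric.sphere (0 : V) 1) := by
      have : ProperSpace V := FiniteDimensional.proper ℝ V
      exact isCompact_sphere 0 1
    have hne : (Metric.sphere (0 : V) 1).Nonempty := by
      refine ⟨‖v0‖⁻¹ • v0, ?_⟩
      simp [norm_smul, inv_mul_cancel₀ (norm_ne_zero_iff.mpr hv0)]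
    obtain ⟨u, hu, hmin⟩ := hcomp.exists_isMinOn hne hcont.continuousOn
    have hu0 : u ≠ 0 := by
      rintro rfl
      simp at hu
    refine ⟨_, hpos u hu0, fun v => ?_⟩
    by_cases hv : v = 0
    · rw [hv]; simpa using hnn 0
    have h1 : (L0.map fun a => |S.e a.1 a.2 u|).sum
        ≤ (L0.map fun a => |S.e a.1 a.2 (‖v‖⁻¹ • v)|).sum := by
      refine hmin ?_
      simp [norm_smul, inv_mul_cancel₀ (norm_ne_zero_iff.mpr hv)]
    have h2 : (L0.map fun a => |S.e a.1 a.2 (‖v‖⁻¹ • v)|).sum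
        = ‖v‖⁻¹ * (L0.map fun a => |S.e a.1 a.2 v|).sum := by
      rw [← List.sum_map_mul_left]
      congr 1
      refine List.map_congr_left fun a _ => ?_
      rw [map_smul, smul_eq_mul, abs_mul, abs_of_nonneg (inv_nonneg.mpr (norm_nonneg v))]
    rw [h2] at h1
    have hvp : 0 < ‖v‖ := norm_pos_iff.mpr hv
    calc (L0.map fun a => |S.e a.1 a.2 u|).sum * ‖v‖
        ≤ (‖v‖⁻¹ * (L0.map fun a => |S.e a.1 a.2 v|).sum) * ‖v‖ :=
          mul_le_mul_of_nonneg_right h1 hvp.le
      _ = (L0.map fun a => |S.e a.1 a.2 v|).sum := by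
          field_simp
  obtain ⟨c, hc0, hc⟩ := hc
  -- uniform continuity
  have hεf : ∀ δ : ℝ, 0 < δ → ∃ ε : ℝ, 0 < ε ∧ ∀ b ∈ L0, ∀ h : X d, ‖h - b.2‖ < ε →
      ‖S.e b.1 h - S.e b.1 b.2‖ ≤ δ := by
    intro δ hδ
    clear hL hc
    induction L0 with
    | nil => exact ⟨1, one_pos, by simp⟩
    | cons b L0 ih =>
      obtain ⟨ε1, h1, h2⟩ := ih
      have hcb := (gen_e_contDiff S b.1).continuous.continuousAt (x := b.2)
      rw [Metric.continuousAt_iff] at hcb
      obtain ⟨ε2, h3, h4⟩ := hcb δ hδ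
      refine ⟨min ε1 ε2, lt_min h1 h3, fun b' hb' h hh => ?_⟩
      rcases List.mem_cons.mp hb' with rfl | hb'
      · have := h4 (x := h) (by rw [dist_eq_norm]; exact lt_of_lt_of_le hh (min_le_right _ _))
        rw [dist_eq_norm] at this
        exact this.le
      · exact h2 b' hb' h (lt_of_lt_of_le hh (min_le_left _ _))
  obtain ⟨ε, hε0, hε⟩ := hεf (c / (2 * (L0.length + 1))) (by positivity)
  refine ⟨ε, hε0, fun L hLL v hv => ?_⟩
  have hsum : (L0.map fun a => |S.e a.1 a.2 v|).sum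
      ≤ L0.length * (c / (2 * (L0.length + 1)) * ‖v‖) := by
    generalize hδ : c / (2 * ((L0.length : ℝ) + 1)) = δ at *
    clear hδ hc hL hεf
    induction hLL with
    | nil => simp
    | @cons a b L L0 hab _ ih =>
      simp only [List.map_cons, List.sum_cons, List.length_cons]
      have h1 := ih (fun a ha => hv a (List.mem_cons_of_mem _ ha))
        (fun b hb => hε b (List.mem_cons_of_mem _ hb))
      have h2 : |S.e b.1 b.2 v| ≤ δ * ‖v‖ := by
        have h3 := hv a (List.mem_cons_self)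
        have h4 := hε b (List.mem_cons_self) a.2 hab.2
        rw [hab.1] at h3
        have h5 : S.e b.1 b.2 v = -((S.e b.1 a.2 - S.e b.1 b.2) v) := by
          rw [sub_apply, h3]; ring
        rw [h5, abs_neg]
        calc |(S.e b.1 a.2 - S.e b.1 b.2) v| ≤ ‖S.e b.1 a.2 - S.e b.1 b.2‖ * ‖v‖ := by
              rw [← Real.norm_eq_abs]; exact ContinuousLinearMap.le_opNorm _ _
          _ ≤ δ * ‖v‖ := mul_le_mul_of_nonneg_right h4 (norm_nonneg v)
      push_cast
      linarith
  by_contra hv0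
  have hvp : 0 < ‖v‖ := norm_pos_iff.mpr hv0
  have h1 := (hc v).trans hsum
  have h2 : (L0.length : ℝ) * (c / (2 * (L0.length + 1)) * ‖v‖) < c * ‖v‖ := by
    have hl : (0 : ℝ) ≤ L0.length := Nat.cast_nonneg _
    have h3 : (L0.length : ℝ) * (c / (2 * (L0.length + 1))) < c := by
      rw [mul_div_assoc', div_lt_iff₀ (by positivity)]
      nlinarith
    nlinarith
  linarith

theorem gtop_near (S : SData d V) {O : Set (X d)} (hO : IsOpen O) {p : X d → V}
    (hp : ContDiffOn ℝ (⊤ : ℕ∞) p O) (h0 : ∀ x ∈ O, ∀ i z, S.e i z (fderiv ℝ p x z) = 0)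
    (L : List (Fin S.N × X d))
    (hL : ∀ v : V, (∀ a ∈ L, S.e a.1 a.2 v = 0) → v = 0) {x : X d} (hx : x ∈ O) :
    gtopD p (L.map Prod.snd) x = 0 := by
  refine hL _ fun a ha => ?_
  obtain ⟨L1, L2, rfl⟩ := List.append_of_mem ha
  have hperm : ((L1 ++ a :: L2).map Prod.snd).Perm (a.2 :: ((L1 ++ L2).map Prod.snd)) := by
    have := (List.perm_middle (a := a) (l₁ := L1) (l₂ := L2)).map Prod.snd
    simpa using this
  rw [gtopD_perm hO hp hperm x hx]
  exact gtop_CD hO hp h0 _ x hx a.1 a.2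

/-- replacing the directions one after the other -/
theorem gtop_repl {N : ℕ} {O : Set (X d)} (hO : IsOpen O) {p : X d → V}
    (hp : ContDiffOn ℝ (⊤ : ℕ∞) p O) (L0 : List (Fin N × X d)) {ε : ℝ} (hε : 0 < ε)
    (H : ∀ L : List (Fin N × X d),
      List.Forall₂ (fun a b : Fin N × X d => a.1 = b.1 ∧ ‖a.2 - b.2‖ < ε) L L0 →
      ∀ x ∈ O, gtopD p (L.map Prod.snd) x = 0) (e : X d) :
    ∀ j : ℕ, j ≤ L0.length → ∀ L1 : List (Fin N × X d),
      List.Forall₂ (fun a b : Fin N × X d => a.1 = b.1 ∧ ‖a.2 - b.2‖ < ε) L1 (L0.drop j) →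
      ∀ x ∈ O, gtopD p (L1.map Prod.snd ++ List.replicate j e) x = 0 := by
  intro j
  induction j with
  | zero =>
    intro _ L1 hL1 x hx
    simpa using H L1 (by simpa using hL1) x hx
  | succ j ih =>
    intro hj L1 hL1 x hx
    have hlt : j < L0.length := by omega
    have hdrop : L0.drop j = L0[j] :: L0.drop (j + 1) := List.drop_eq_getElem_cons hlt
    obtain ⟨s, hs0, hs⟩ : ∃ s : ℝ, 0 < s ∧ ‖s • e‖ < ε := by
      refine ⟨ε / (2 * (‖e‖ + 1)), by positivity, ?_⟩
      rw [norm_smul, Real.norm_of_nonneg (by positivity), div_mul_eq_mul_div,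
        div_lt_iff₀ (by positivity)]
      nlinarith [norm_nonneg e]
    have h1 := ih (by omega) (L0[j] :: L1) (by
      rw [hdrop]
      exact List.Forall₂.cons ⟨rfl, by simpa using hε⟩ hL1) x hx
    have h2 := ih (by omega) ((L0[j].1, L0[j].2 + s • e) :: L1) (by
      rw [hdrop]
      exact List.Forall₂.cons ⟨rfl, by simpa using hs⟩ hL1) x hx
    have h3 : gtopD p (L0[j].2 :: (L1.map Prod.snd ++ List.replicate j e)) x = 0 := by
      simpa using h1
    have h4 : gtopD p ((L0[j].2 + s • e) :: (L1.map Prod.snd ++ List.replicate j e)) x = 0 := by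
      simpa using h2
    have h5 : gtopD p (e :: (L1.map Prod.snd ++ List.replicate j e)) x = 0 := by
      have h6 : fderiv ℝ (gtopD p (L1.map Prod.snd ++ List.replicate j e)) x L0[j].2 = 0 := h3
      have h7 : fderiv ℝ (gtopD p (L1.map Prod.snd ++ List.replicate j e)) x
        (L0[j].2 + s • e) = 0 := h4
      rw [map_add, h6, zero_add, map_smul] at h7
      exact (smul_eq_zero.mp h7).resolve_left hs0.ne'
    have hperm : (L1.map Prod.snd ++ List.replicate (j + 1) e).Perm
        (e :: (L1.map Prod.snd ++ List.replicate j e)) := by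
      rw [List.replicate_succ]
      exact List.perm_middle
    rw [gtopD_perm hO hp hperm x hx, h5]

theorem gtop_antider (P : Polynomial ℝ) : ∃ Q : Polynomial ℝ,
    Q.natDegree ≤ P.natDegree + 1 ∧ Polynomial.derivative Q = P := by
  refine ⟨P.sum fun n a => Polynomial.monomial (n + 1) (a / (n + 1)), ?_, ?_⟩
  · rw [Polynomial.sum]
    refine Polynomial.natDegree_sum_le_of_forall_le _ _ fun n hn => ?_
    refine (Polynomial.natDegree_monomial_le _).trans ?_
    have := Polynomial.le_natDegree_of_mem_supp n hn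
    omega
  · rw [Polynomial.sum, Polynomial.derivative_sum]
    conv_rhs => rw [← Polynomial.sum_monomial_eq P, Polynomial.sum]
    refine Finset.sum_congr rfl fun n _ => ?_
    rw [Polynomial.derivative_monomial]
    have : ((n : ℝ) + 1) ≠ 0 := by positivity
    simp only [Nat.add_sub_cancel]
    congr 1
    push_cast
    field_simp

theorem gtop_ordConn (d : ℕ) (t : ℝ) (x : X d) (c : Fin (d + 1)) :
    {s : ℝ | Function.update x c s ∈ obx d t}.OrdConnected := by
  refine ⟨fun s1 h1 s2 h2 s hs => ?_⟩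
  refine ⟨?_, fun c' hc' => ?_⟩
  · by_cases h : (0 : Fin (d + 1)) = c
    · have e1 := h1.1
      have e2 := h2.1
      rw [← h] at e1 e2 ⊢
      rw [Function.update_self] at e1 e2 ⊢
      rw [abs_lt] at e1 e2 ⊢
      exact ⟨by linarith [hs.1], by linarith [hs.2]⟩
    · have e1 := h1.1
      rw [Function.update_of_ne h] at e1 ⊢
      exact e1
  · by_cases h : c' = c
    · have e1 := h1.2 c' hc'
      have e2 := h2.2 c' hc'
      rw [h] at e1 e2 ⊢
      rw [Function.update_self] at e1 e2 ⊢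
      rw [abs_lt] at e1 e2 ⊢
      exact ⟨by linarith [hs.1], by linarith [hs.2]⟩
    · have e1 := h1.2 c' hc'
      rw [Function.update_of_ne h] at e1 ⊢
      exact e1

/-- on the segments of the upper box parallel to an axis, `ℓ ∘ p` is a polynomial of degree at most `finrank V` -/
theorem gen_top (S : SData d V) {p : X d → V} (hp : S.Rel (AD d) p) (ℓ : V →L[ℝ] ℝ)
    (c : Fin (d + 1)) {x : X d} (hx : x ∈ obx d (3 / 4)) :
    ∃ P : Polynomial ℝ, P.natDegree ≤ Module.finrank ℝ V ∧
      ∀ t : ℝ, Function.update x c t ∈ obx d (3 / 4) → ℓ (p (Function.update x c t)) = P.eval t := by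
  have hO : IsOpen (obx d (3 / 4)) := gtop_isOpen d (3 / 4)
  have hsm := gen_smooth S hp
  have h0 : ∀ x ∈ obx d (3 / 4), ∀ i z, S.e i z (fderiv ℝ p x z) = 0 :=
    fun x hx i z => gen_deriv S hp hx i z
  obtain ⟨L0, hL0, hL0'⟩ := gtop_sel S (Module.finrank ℝ V) ⊤ (by rw [finrank_top])
  have hgood : ∀ v : V, (∀ a ∈ L0, S.e a.1 a.2 v = 0) → v = 0 := fun v hv =>
    hL0' v Submodule.mem_top hv
  obtain ⟨ε, hε, hopen⟩ := gtop_open S L0 hgood
  have hrep := gtop_repl hO hsm L0 hε (fun L hL x hx =>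
    gtop_near S hO hsm h0 L (hopen L hL) hx) (Pi.single c 1) L0.length le_rfl [] (by simp)
  simp only [List.map_nil, List.nil_append] at hrep
  set e : X d := Pi.single c 1 with he
  set J : Set ℝ := {s : ℝ | Function.update x c s ∈ obx d (3 / 4)} with hJ
  have hJo : IsOpen J := by
    have hcont : Continuous fun s : ℝ => Function.update x c s :=
      continuous_const.update c continuous_id
    exact hO.preimage hcont
  have hJc : IsPreconnected J := (gtop_ordConn d (3 / 4) x c).isPreconnected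
  have hder : ∀ j : ℕ, ∀ t ∈ J, HasDerivAt
      (fun t => ℓ (gtopD p (List.replicate j e) (Function.update x c t)))
      (ℓ (gtopD p (List.replicate (j + 1) e) (Function.update x c t))) t := by
    intro j t ht
    have h1 : DifferentiableAt ℝ (gtopD p (List.replicate j e)) (Function.update x c t) :=
      ((gtopD_smooth hO hsm _).contDiffAt (hO.mem_nhds ht)).differentiableAt (by simp)
    have h2 : HasDerivAt (Function.update x c) (Pi.single c (1 : ℝ)) t := hasDerivAt_update x c t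
    have h3 := h1.hasFDerivAt.comp_hasDerivAt t h2
    have h4 := ℓ.hasFDerivAt.comp_hasDerivAt t h3
    exact h4
  have key : ∀ k : ℕ, k ≤ L0.length → ∃ P : Polynomial ℝ, P.natDegree ≤ k ∧
      ∀ t ∈ J, ℓ (gtopD p (List.replicate (L0.length - k) e) (Function.update x c t))
        = P.eval t := by
    intro k
    induction k with
    | zero =>
      intro _
      refine ⟨0, by simp, fun t ht => ?_⟩
      rw [Nat.sub_zero, hrep _ ht]
      simp
    | succ k ih =>
      intro hk
      obtain ⟨P, hP, hPe⟩ := ih (by omega)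
      obtain ⟨Q, hQ, hQd⟩ := gtop_antider P
      have hj : L0.length - k = (L0.length - (k + 1)) + 1 := by omega
      rw [hj] at hPe
      set g : ℝ → ℝ := fun t => ℓ (gtopD p (List.replicate (L0.length - (k + 1)) e)
        (Function.update x c t)) with hg
      have hd : ∀ t ∈ J, HasDerivAt (fun t => g t - Q.eval t) 0 t := by
        intro t ht
        have h1 := hder (L0.length - (k + 1)) t ht
        have h2 := Q.hasDerivAt t
        have h3 := h1.sub h2
        rw [hQd, hPe t ht, sub_self] at h3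
        exact h3
      obtain ⟨a, ha⟩ := hJo.exists_is_const_of_deriv_eq_zero hJc
        (f := fun t => g t - Q.eval t)
        (fun t ht => (hd t ht).differentiableAt.differentiableWithinAt)
        (fun t ht => (hd t ht).deriv)
      refine ⟨Q + Polynomial.C a, ?_, fun t ht => ?_⟩
      · refine (Polynomial.natDegree_add_le _ _).trans ?_
        rw [Polynomial.natDegree_C]
        omega
      · have := ha t ht
        simp only [Polynomial.eval_add, Polynomial.eval_C]
        show g t = _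
        linarith
  obtain ⟨P, hP, hPe⟩ := key L0.length le_rfl
  refine ⟨P, hP.trans hL0, fun t ht => ?_⟩
  have := hPe t ht
  rw [Nat.sub_self] at this
  exact this

end BDJ
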