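import Pool.Agent.BDJ.GridB

/-!
# Greedy weights and tight cubes (row GREEDY)

`S : ℕ → Option`-free formulation: a countable family `𝒮` of pairwise disjoint dyadic cubes. If for every finite subfamily `F` and every admissible `β` on `F` the total weight is `≤ B`, then
the union of `𝒮` is covered by countably many dyadic cubes `𝒞`, each contained in `Q0 = (k0, j0)` (all the members of `𝒮` are) with `∑_{𝒞} sd^d ≤ B`.

Proof. Enumerate `𝒮 = {S_0, S_1, ...}` (a subset of the countable type `ℕ × Idx d`). Define `β(S_n)` recursively: the minimum over the (finitely many) dyadic cubes `Q = (k,j) ⊇ S_n`,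
`k ≤ level(S_n)`, of `sd(Q)^d - ∑_{i < n, S_i ⊆ Q} β(S_i)`. By induction `β` is admissible on `{S_0..S_n}`. The minimum is attained at some `Q ⊇ S_n`, which is then TIGHT at the stage `n`:
`∑_{i ≤ n, S_i ⊆ Q} β(S_i) = sd(Q)^d` (and then all later `S_i ⊆ Q` get weight `0`). If `Q` is not contained in `Q0` then `Q ⊋ Q0` (nested) and the total inside `Q` is the total inside `Q0`, at most
`sd(Q0)^d ≤ sd(Q)^d`; if `d ≥ 1` it is `<`, so not tight, if `d = 0`, replace `Q` by `Q0` which is then tight too. So every `S_n` is contained in a tight cube inside `Q0`.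
Let `𝒞` be the set of the maximal tight cubes contained in `Q0` (levels are `≥ k0`, so maximal ones exist): pairwise disjoint, cover `⋃ 𝒮`. For a finite subset `𝒞'` of `𝒞`, at a late
stage `n`, `∑_{Q ∈ 𝒞'} sd(Q)^d = ∑_{Q ∈ 𝒞'} ∑_{i ≤ n, S_i ⊆ Q} β(S_i) ≤ ∑_{i ≤ n} β(S_i) ≤ B`. So the total is `≤ B`.
-/

open MeasureTheory Set
open scoped ENNReal NNReal

namespace BDJ

variable {d : ℕ}

/-- nestedness of dyadic cubes -/
theorem greedy_nested {k l : ℕ} {j i : Idx d} (h : k ≤ l) {x : X d} (hx : x ∈ cube (0 : X d) k j)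
    (hx' : x ∈ cube (0 : X d) l i) : cube (0 : X d) l i ⊆ cube 0 k j := by
  have key : ∀ (m : ℕ) (y z : X d), idx 0 (k + m) y = idx 0 (k + m) z →
      idx (0 : X d) k y = idx 0 k z := by
    intro m
    induction m with
    | zero => intro y z hyz; simpa using hyz
    | succ m ih =>
      intro y z hyz
      refine ih y z ?_
      rw [← par_idx, ← par_idx (0 : X d) (k + m) z]
      exact congrArg par hyz
  intro y hy
  obtain ⟨m, rfl⟩ := Nat.exists_eq_add_of_le h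
  rw [mem_cube_iff] at hx hx' hy ⊢
  rw [← hx]
  exact key m y x (hy.trans hx'.symm)

theorem greedy_level {k l : ℕ} {j i : Idx d} (h : cube (0 : X d) l i ⊆ cube 0 k j) : k ≤ l := by
  by_contra hlt
  push Not at hlt
  have h1 := measure_mono (μ := (volume : Measure (X d))) h
  rw [volume_cube, volume_cube] at h1
  have h2 : sd l ^ (d + 1) ≤ sd k ^ (d + 1) :=
    (ENNReal.ofReal_le_ofReal_iff (pow_nonneg (sd_pos k).le _)).mp h1
  have h3 : sd l ≤ sd k := le_of_pow_le_pow_left₀ (Nat.succ_ne_zero d) (sd_pos k).le h2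
  have h4 : sd k ≤ sd (l + 1) := sd_anti hlt
  rw [sd_succ] at h4
  have h5 := sd_pos l
  linarith

/-- admissible weights on `G` -/
def greedyB (G : Set (ℕ × Idx d)) : Set (ℕ × Idx d → ℝ≥0∞) :=
  {β | ∀ F : Finset (ℕ × Idx d), (∀ S ∈ F, S ∈ G) → Adm F β}

open Classical in
/-- total weight in the cube `Q` -/
noncomputable def greedyT (G : Set (ℕ × Idx d)) (β : ℕ × Idx d → ℝ≥0∞) (Q : ℕ × Idx d) : ℝ≥0∞ :=
  ∑' S : ℕ × Idx d, if S ∈ G ∧ cube (0 : X d) S.1 S.2 ⊆ cube 0 Q.1 Q.2 then β S else 0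

theorem greedyT_le {G : Set (ℕ × Idx d)} {β : ℕ × Idx d → ℝ≥0∞} (hβ : β ∈ greedyB G)
    (Q : ℕ × Idx d) : greedyT G β Q ≤ ENNReal.ofReal (sd Q.1 ^ d) := by
  classical
  unfold greedyT
  rw [ENNReal.tsum_eq_iSup_sum]
  refine iSup_le fun F => ?_
  have h := hβ (F.filter (· ∈ G)) (fun S hS => (Finset.mem_filter.mp hS).2) Q.1 Q.2
  refine le_trans (le_of_eq ?_) h
  rw [Finset.sum_filter]
  refine Finset.sum_congr rfl fun S _ => ?_
  by_cases h1 : S ∈ G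
  · by_cases h2 : cube (0 : X d) S.1 S.2 ⊆ cube 0 Q.1 Q.2
    · rw [if_pos ⟨h1, h2⟩, if_pos h1, if_pos h2]
    · rw [if_neg (fun h => h2 h.2), if_pos h1, if_neg h2]
  · rw [if_neg (fun h => h1 h.1), if_neg h1]

theorem greedy_max (G : Set (ℕ × Idx d)) :
    ∃ β ∈ greedyB G, ∀ β' ∈ greedyB G, β ≤ β' → β' ≤ β := by
  classical
  have h := zorn_le₀ (greedyB G) ?_
  · obtain ⟨β, hβ⟩ := h
    exact ⟨β, hβ.1, fun β' h1 h2 => hβ.2 h1 h2⟩
  intro c hc hchain
  refine ⟨fun S => ⨆ β : c, (β : ℕ × Idx d → ℝ≥0∞) S, ?_, ?_⟩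
  · intro F hF k j
    have h1 : (∑ S ∈ F, if cube (0 : X d) S.1 S.2 ⊆ cube 0 k j then
        (⨆ β : c, (β : ℕ × Idx d → ℝ≥0∞) S) else 0) =
        ∑ S ∈ F, ⨆ β : c, (if cube (0 : X d) S.1 S.2 ⊆ cube 0 k j then
          (β : ℕ × Idx d → ℝ≥0∞) S else 0) := by
      refine Finset.sum_congr rfl fun S _ => ?_
      split_ifs with h
      · rfl
      · simp
    rw [h1, ENNReal.finsetSum_iSup]
    · exact iSup_le fun β => hc β.2 F hF k j
    · intro β β'
      rcases hchain.total β.2 β'.2 with hle | hle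
      · refine ⟨β', fun S => ⟨?_, le_rfl⟩⟩
        split_ifs
        · exact hle S
        · exact le_rfl
      · refine ⟨β, fun S => ⟨le_rfl, ?_⟩⟩
        split_ifs
        · exact hle S
        · exact le_rfl
  · intro β hβ S
    exact le_iSup (fun β : c => (β : ℕ × Idx d → ℝ≥0∞) S) ⟨β, hβ⟩

theorem greedy_tight {G : Set (ℕ × Idx d)} {β : ℕ × Idx d → ℝ≥0∞} (hβ : β ∈ greedyB G)
    (hmax : ∀ β' ∈ greedyB G, β ≤ β' → β' ≤ β) {S : ℕ × Idx d} (hS : S ∈ G) :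
    ∃ Q : ℕ × Idx d, cube (0 : X d) S.1 S.2 ⊆ cube 0 Q.1 Q.2 ∧
      greedyT G β Q = ENNReal.ofReal (sd Q.1 ^ d) := by
  classical
  by_contra hno
  push Not at hno
  obtain ⟨x, hx⟩ := cube_nonempty (0 : X d) S.1 S.2
  let A : ℕ → ℕ × Idx d := fun k => (k, idx 0 k x)
  have hA : ∀ k ≤ S.1, cube (0 : X d) S.1 S.2 ⊆ cube 0 (A k).1 (A k).2 :=
    fun k hk => greedy_nested hk (mem_cube_idx 0 k x) hx
  have hlt : ∀ k ≤ S.1, greedyT G β (A k) < ENNReal.ofReal (sd k ^ d) :=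
    fun k hk => lt_of_le_of_ne (greedyT_le hβ (A k)) (hno (A k) (hA k hk))
  -- the slack
  obtain ⟨ε, hε, hε'⟩ : ∃ ε : ℝ≥0∞, 0 < ε ∧ ∀ k ≤ S.1,
      greedyT G β (A k) + ε ≤ ENNReal.ofReal (sd k ^ d) := by
    refine ⟨(Finset.range (S.1 + 1)).inf' ⟨0, by simp⟩
      (fun k => ENNReal.ofReal (sd k ^ d) - greedyT G β (A k)), ?_, ?_⟩
    · rw [Finset.lt_inf'_iff]
      intro k hk
      exact tsub_pos_of_lt (hlt k (by simpa [Nat.lt_succ_iff] using hk))
    · intro k hk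
      have h1 : (Finset.range (S.1 + 1)).inf' ⟨0, by simp⟩
          (fun k => ENNReal.ofReal (sd k ^ d) - greedyT G β (A k)) ≤
          ENNReal.ofReal (sd k ^ d) - greedyT G β (A k) :=
        Finset.inf'_le _ (by simpa [Nat.lt_succ_iff] using hk)
      calc _ ≤ greedyT G β (A k) + (ENNReal.ofReal (sd k ^ d) - greedyT G β (A k)) := by gcongr
        _ = _ := add_tsub_cancel_of_le (hlt k hk).le
  let β' : ℕ × Idx d → ℝ≥0∞ := fun R => β R + if R = S then ε else 0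
  have hβ' : β' ∈ greedyB G := by
    intro F hF k j
    have h1 : (∑ R ∈ F, if cube (0 : X d) R.1 R.2 ⊆ cube 0 k j then β' R else 0) =
        (∑ R ∈ F, if cube (0 : X d) R.1 R.2 ⊆ cube 0 k j then β R else 0) +
        ∑ R ∈ F, if R = S ∧ cube (0 : X d) S.1 S.2 ⊆ cube 0 k j then ε else 0 := by
      rw [← Finset.sum_add_distrib]
      refine Finset.sum_congr rfl fun R _ => ?_
      simp only [β']
      by_cases h2 : R = S
      · subst h2
        split_ifs <;> simp_all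
      · split_ifs <;> simp_all
    rw [h1]
    by_cases hc : cube (0 : X d) S.1 S.2 ⊆ cube 0 k j
    · have hk : k ≤ S.1 := greedy_level hc
      have hj : (k, j) = A k := by
        refine Prod.ext rfl ?_
        exact ((mem_cube_iff _ _ _ _).mp (hc hx)).symm
      have h3 : (∑ R ∈ F, if cube (0 : X d) R.1 R.2 ⊆ cube 0 k j then β R else 0) ≤
          greedyT G β (A k) := by
        rw [← hj]
        unfold greedyT
        refine le_trans (le_of_eq ?_) (ENNReal.sum_le_tsum F)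
        refine Finset.sum_congr rfl fun R hR => ?_
        by_cases h4 : cube (0 : X d) R.1 R.2 ⊆ cube 0 k j
        · rw [if_pos h4, if_pos ⟨hF R hR, h4⟩]
        · rw [if_neg h4, if_neg (fun h => h4 h.2)]
      have h5 : (∑ R ∈ F, if R = S ∧ cube (0 : X d) S.1 S.2 ⊆ cube 0 k j then ε else 0) ≤ ε := by
        simp only [hc, and_true, Finset.sum_ite_eq']
        split_ifs
        · exact le_rfl
        · exact zero_le
      exact (add_le_add h3 h5).trans (hε' k hk)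
    · simp only [hc, and_false, if_false, Finset.sum_const_zero, add_zero]
      exact hβ F hF k j
  have h6 := hmax β' hβ' (fun R => le_self_add) S
  simp only [β', if_true] at h6
  have h7 : β S ≤ ENNReal.ofReal (sd S.1 ^ d) := by
    refine le_trans ?_ (greedyT_le hβ S)
    unfold greedyT
    refine le_trans ?_ (ENNReal.le_tsum S)
    rw [if_pos ⟨hS, subset_rfl⟩]
  have h8 : β S ≠ ⊤ := ne_top_of_le_ne_top ENNReal.ofReal_ne_top h7
  have h9 : β S < β S + ε := ENNReal.lt_add_right h8 hε.ne'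
  exact absurd h6 (not_le.mpr h9)

theorem greedy (k0 : ℕ) (j0 : Idx d) (G : Set (ℕ × Idx d))
    (hG : ∀ S ∈ G, cube (0 : X d) S.1 S.2 ⊆ cube 0 k0 j0)
    (hdisj : ∀ S ∈ G, ∀ S' ∈ G, S ≠ S' → Disjoint (cube (0 : X d) S.1 S.2) (cube 0 S'.1 S'.2))
    (B : ℝ≥0∞)
    (hB : ∀ (F : Finset (ℕ × Idx d)) (β : ℕ × Idx d → ℝ≥0∞), (∀ S ∈ F, S ∈ G) → Adm F β →
      ∑ S ∈ F, β S ≤ B) :
    ∃ K : Set (ℕ × Idx d), (∀ Q ∈ K, k0 ≤ Q.1 ∧ cube (0 : X d) Q.1 Q.2 ⊆ cube 0 k0 j0) ∧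
      (⋃ S ∈ G, cube (0 : X d) S.1 S.2) ⊆ (⋃ Q ∈ K, cube (0 : X d) Q.1 Q.2) ∧
      ∑' Q : K, ENNReal.ofReal (sd (Q : ℕ × Idx d).1 ^ d) ≤ B := by
  classical
  have hT : ∀ β ∈ greedyB G, ∀ Q, greedyT G β Q ≤ ENNReal.ofReal (sd Q.1 ^ d) :=
    fun β hβ Q => greedyT_le hβ Q
  obtain ⟨β, hβ, hmax⟩ := greedy_max G
  have htight : ∀ S ∈ G, ∃ Q : ℕ × Idx d, cube (0 : X d) S.1 S.2 ⊆ cube 0 Q.1 Q.2 ∧
      greedyT G β Q = ENNReal.ofReal (sd Q.1 ^ d) := fun S hS => greedy_tight hβ hmax hS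
  have htot : ∑' S : ℕ × Idx d, (if S ∈ G then β S else 0) ≤ B := by
    rw [ENNReal.tsum_eq_iSup_sum]
    refine iSup_le fun F => ?_
    rw [← Finset.sum_filter]
    refine hB (F.filter (· ∈ G)) β (fun S hS => (Finset.mem_filter.mp hS).2) ?_
    exact hβ _ (fun S hS => (Finset.mem_filter.mp hS).2)
  -- tight cubes inside `Q0`
  let P : Set (ℕ × Idx d) := {Q | k0 ≤ Q.1 ∧ cube (0 : X d) Q.1 Q.2 ⊆ cube 0 k0 j0 ∧
    greedyT G β Q = ENNReal.ofReal (sd Q.1 ^ d)}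
  let K : Set (ℕ × Idx d) := {Q | Q ∈ P ∧ ∀ Q' ∈ P,
    cube (0 : X d) Q.1 Q.2 ⊆ cube 0 Q'.1 Q'.2 → Q' = Q}
  have hP : ∀ S ∈ G, ∃ Q ∈ P, cube (0 : X d) S.1 S.2 ⊆ cube 0 Q.1 Q.2 := by
    intro S hS
    obtain ⟨Q, hSQ, hQ⟩ := htight S hS
    obtain ⟨x, hx⟩ := cube_nonempty (0 : X d) S.1 S.2
    rcases le_or_gt k0 Q.1 with h | h
    · exact ⟨Q, ⟨h, greedy_nested h (hG S hS hx) (hSQ hx), hQ⟩, hSQ⟩
    · have hsub : cube (0 : X d) k0 j0 ⊆ cube 0 Q.1 Q.2 :=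
        greedy_nested h.le (hSQ hx) (hG S hS hx)
      refine ⟨(k0, j0), ⟨le_rfl, subset_rfl, ?_⟩, hG S hS⟩
      have h1 : greedyT G β (k0, j0) = greedyT G β Q := by
        unfold greedyT
        refine tsum_congr fun R => ?_
        by_cases hR : R ∈ G
        · rw [if_pos ⟨hR, hG R hR⟩, if_pos ⟨hR, (hG R hR).trans hsub⟩]
        · rw [if_neg (fun h => hR h.1), if_neg (fun h => hR h.1)]
      refine le_antisymm (hT β hβ _) ?_
      rw [h1, hQ]
      exact ENNReal.ofReal_le_ofReal (pow_le_pow_left₀ (sd_pos _).le (sd_anti h.le) d)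
  have hK : ∀ Q ∈ P, ∃ Q' ∈ K, cube (0 : X d) Q.1 Q.2 ⊆ cube 0 Q'.1 Q'.2 := by
    intro Q hQ
    have hex : ∃ n : ℕ, ∃ Q' ∈ P, cube (0 : X d) Q.1 Q.2 ⊆ cube 0 Q'.1 Q'.2 ∧ Q'.1 = n :=
      ⟨Q.1, Q, hQ, subset_rfl, rfl⟩
    obtain ⟨Q', hQ', hsub, hn⟩ := Nat.find_spec hex
    refine ⟨Q', ⟨hQ', fun R hR hR' => ?_⟩, hsub⟩
    have h1 : Q'.1 ≤ R.1 := by
      rw [hn]
      exact Nat.find_min' hex ⟨R, hR, hsub.trans hR', rfl⟩
    have h2 : R.1 ≤ Q'.1 := greedy_level hR'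
    have h3 : Q'.1 = R.1 := le_antisymm h1 h2
    obtain ⟨x, hx⟩ := cube_nonempty (0 : X d) Q'.1 Q'.2
    have h4 := (mem_cube_iff _ _ _ _).mp hx
    have h5 := (mem_cube_iff _ _ _ _).mp (hR' hx)
    rw [← h3, h4] at h5
    exact Prod.ext h3.symm h5.symm
  have huniq : ∀ S : ℕ × Idx d, ∀ Q ∈ K, ∀ Q' ∈ K, cube (0 : X d) S.1 S.2 ⊆ cube 0 Q.1 Q.2 →
      cube (0 : X d) S.1 S.2 ⊆ cube 0 Q'.1 Q'.2 → Q = Q' := by
    intro S Q hQ Q' hQ' h1 h2
    obtain ⟨x, hx⟩ := cube_nonempty (0 : X d) S.1 S.2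
    rcases le_total Q.1 Q'.1 with h | h
    · exact hQ'.2 Q hQ.1 (greedy_nested h (h1 hx) (h2 hx))
    · exact (hQ.2 Q' hQ'.1 (greedy_nested h (h2 hx) (h1 hx))).symm
  refine ⟨K, fun Q hQ => ⟨hQ.1.1, hQ.1.2.1⟩, ?_, ?_⟩
  · intro x hx
    simp only [mem_iUnion, exists_prop] at hx ⊢
    obtain ⟨S, hS, hxS⟩ := hx
    obtain ⟨Q, hQ, h1⟩ := hP S hS
    obtain ⟨Q', hQ', h2⟩ := hK Q hQ
    exact ⟨Q', hQ', h2 (h1 hxS)⟩
  · calc ∑' Q : K, ENNReal.ofReal (sd (Q : ℕ × Idx d).1 ^ d)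
        = ∑' Q : K, ∑' S : ℕ × Idx d, (if S ∈ G ∧ cube (0 : X d) S.1 S.2 ⊆
            cube 0 (Q : ℕ × Idx d).1 (Q : ℕ × Idx d).2 then β S else 0) :=
          tsum_congr fun Q => (Q.2.1.2.2).symm
      _ = ∑' S : ℕ × Idx d, ∑' Q : K, (if S ∈ G ∧ cube (0 : X d) S.1 S.2 ⊆
            cube 0 (Q : ℕ × Idx d).1 (Q : ℕ × Idx d).2 then β S else 0) := ENNReal.tsum_comm
      _ ≤ ∑' S : ℕ × Idx d, (if S ∈ G then β S else 0) := by
          refine ENNReal.tsum_le_tsum fun S => ?_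
          by_cases hS : S ∈ G
          · rw [if_pos hS]
            by_cases hex : ∃ Q : K, cube (0 : X d) S.1 S.2 ⊆
                cube 0 (Q : ℕ × Idx d).1 (Q : ℕ × Idx d).2
            · obtain ⟨Q, hQ⟩ := hex
              rw [tsum_eq_single Q]
              · exact le_of_eq (if_pos ⟨hS, hQ⟩)
              · intro Q' hQ'
                refine if_neg fun h => hQ' ?_
                exact Subtype.ext (huniq S _ Q'.2 _ Q.2 h.2 hQ)
            · have h0 : ∀ Q : K, (if S ∈ G ∧ cube (0 : X d) S.1 S.2 ⊆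
                  cube 0 (Q : ℕ × Idx d).1 (Q : ℕ × Idx d).2 then β S else 0) = 0 :=
                fun Q => if_neg fun h => hex ⟨Q, h.2⟩
              simp only [h0, tsum_zero]
              exact zero_le
          · have h0 : ∀ Q : K, (if S ∈ G ∧ cube (0 : X d) S.1 S.2 ⊆
                cube 0 (Q : ℕ × Idx d).1 (Q : ℕ × Idx d).2 then β S else 0) = 0 :=
              fun Q => if_neg fun h => hS h.1
            simp only [h0, tsum_zero]
            exact zero_le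
      _ ≤ B := htot

end BDJ
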