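import Pool.Agent.BDJ.Defs

/-!
# Grid facts (row GRID-A)

All statements are elementary. `cube τ k j` is the half-open cube of side `sd k = 2^(-k)` with lower corner `τ + j * sd k`;
`big a τ k j` is the open cube enlarged by `a` sides on every side; `idx τ k x` is the index of the cube containing `x`.
-/

open MeasureTheory Set
open scoped ENNReal

namespace BDJ

variable {d : ℕ}

theorem sd_pos (k : ℕ) : 0 < sd k := by
  unfold sd
  positivity

theorem sd_zero : sd 0 = 1 := by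
  simp [sd]

theorem sd_succ (k : ℕ) : sd (k + 1) = sd k / 2 := by
  unfold sd
  ring

theorem sd_add (k a : ℕ) : sd (k + a) = sd k * sd a := by
  unfold sd
  exact pow_add _ _ _

theorem sd_le_one (k : ℕ) : sd k ≤ 1 := by
  unfold sd
  exact pow_le_one₀ (by norm_num) (by norm_num)

theorem sd_anti {k l : ℕ} (h : k ≤ l) : sd l ≤ sd k := by
  unfold sd
  exact pow_le_pow_of_le_one (by norm_num) (by norm_num) h

theorem two_pow_mul_sd (k : ℕ) : (2 : ℝ) ^ k * sd k = 1 := by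
  unfold sd
  rw [← mul_pow]
  norm_num

theorem grid_mul_le (k : ℕ) (a b : ℝ) : a * sd k ≤ b ↔ a ≤ (2 : ℝ) ^ k * b := by
  have h1 := two_pow_mul_sd k
  have h2 : b = (2 : ℝ) ^ k * b * sd k := by linear_combination -b * h1
  constructor
  · intro h
    rw [h2] at h
    exact le_of_mul_le_mul_right h (sd_pos k)
  · intro h
    rw [h2]
    exact mul_le_mul_of_nonneg_right h (sd_pos k).le

theorem grid_lt_mul (k : ℕ) (a b : ℝ) : b < a * sd k ↔ (2 : ℝ) ^ k * b < a := by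
  rw [← not_le, ← not_le, grid_mul_le]

theorem grid_half (a : ℝ) : ⌊2 * a⌋ / 2 = ⌊a⌋ := by
  symm
  rw [Int.floor_eq_iff]
  have h1 := Int.floor_le (2 * a)
  have h2 := Int.lt_floor_add_one (2 * a)
  have e1 : 2 * (⌊2 * a⌋ / 2) ≤ ⌊2 * a⌋ := by omega
  have e2 : ⌊2 * a⌋ ≤ 2 * (⌊2 * a⌋ / 2) + 1 := by omega
  have e1' : 2 * (((⌊2 * a⌋ / 2 : ℤ)) : ℝ) ≤ (⌊2 * a⌋ : ℝ) := by exact_mod_cast e1
  have e2' : (⌊2 * a⌋ : ℝ) ≤ 2 * (((⌊2 * a⌋ / 2 : ℤ)) : ℝ) + 1 := by exact_mod_cast e2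
  exact ⟨by linarith, by linarith⟩

theorem grid_big_eq (a : ℝ) (τ : X d) (k : ℕ) (j : Idx d) : big a τ k j =
    Set.univ.pi fun i => Ioo (τ i + (j i - a) * sd k) (τ i + (j i + 1 + a) * sd k) := by
  ext x
  simp [big, Set.mem_pi]

theorem grid_bx_eq (c : X d) (l : ℝ) : bx c l = Set.univ.pi fun i => Ico (c i) (c i + l) := by
  ext x
  simp [bx, Set.mem_pi]

theorem mem_cube_iff (τ : X d) (k : ℕ) (j : Idx d) (x : X d) : x ∈ cube τ k j ↔ idx τ k x = j := by
  constructor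
  · intro h
    funext i
    obtain ⟨h1, h2⟩ := h i
    change ⌊(2 : ℝ) ^ k * (x i - τ i)⌋ = j i
    rw [Int.floor_eq_iff, ← grid_mul_le, ← grid_lt_mul]
    exact ⟨by linarith, by linarith⟩
  · intro h i
    have h3 : ⌊(2 : ℝ) ^ k * (x i - τ i)⌋ = j i := congrFun h i
    rw [Int.floor_eq_iff, ← grid_mul_le, ← grid_lt_mul] at h3
    exact ⟨by linarith [h3.1], by linarith [h3.2]⟩

theorem mem_cube_idx (τ : X d) (k : ℕ) (x : X d) : x ∈ cube τ k (idx τ k x) := by
  exact (mem_cube_iff τ k _ x).2 rfl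

theorem par_idx (τ : X d) (k : ℕ) (x : X d) : par (idx τ (k + 1) x) = idx τ k x := by
  funext i
  change ⌊(2 : ℝ) ^ (k + 1) * (x i - τ i)⌋ / 2 = ⌊(2 : ℝ) ^ k * (x i - τ i)⌋
  have h1 : (2 : ℝ) ^ (k + 1) * (x i - τ i) = 2 * ((2 : ℝ) ^ k * (x i - τ i)) := by ring
  rw [h1]
  exact grid_half _

theorem cube_subset_par (τ : X d) (k : ℕ) (j : Idx d) : cube τ (k + 1) j ⊆ cube τ k (par j) := by
  intro x hx
  rw [mem_cube_iff] at hx ⊢
  rw [← par_idx, hx]

theorem big_subset_par {a : ℝ} (ha : 0 ≤ a) (τ : X d) (k : ℕ) (j : Idx d) :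
    big a τ (k + 1) j ⊆ big a τ k (par j) := by
  intro x hx i
  obtain ⟨h1, h2⟩ := hx i
  have hs := sd_pos k
  rw [sd_succ] at h1 h2
  have e1 : 2 * (j i / 2) ≤ j i := by omega
  have e2 : j i ≤ 2 * (j i / 2) + 1 := by omega
  have e1' : 2 * (((j i / 2 : ℤ)) : ℝ) ≤ j i := by exact_mod_cast e1
  have e2' : (j i : ℝ) ≤ 2 * (((j i / 2 : ℤ)) : ℝ) + 1 := by exact_mod_cast e2
  change τ i + ((((j i / 2 : ℤ)) : ℝ) - a) * sd k < x i ∧
    x i < τ i + ((((j i / 2 : ℤ)) : ℝ) + 1 + a) * sd k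
  constructor
  · have h3 : ((((j i / 2 : ℤ)) : ℝ) - a) * sd k ≤ (j i - a) / 2 * sd k := by
      apply mul_le_mul_of_nonneg_right _ hs.le
      linarith
    have h4 : ((j i : ℝ) - a) * (sd k / 2) = (j i - a) / 2 * sd k := by ring
    linarith
  · have h3 : ((j i : ℝ) + 1 + a) / 2 * sd k ≤ ((((j i / 2 : ℤ)) : ℝ) + 1 + a) * sd k := by
      apply mul_le_mul_of_nonneg_right _ hs.le
      linarith
    have h4 : ((j i : ℝ) + 1 + a) * (sd k / 2) = (j i + 1 + a) / 2 * sd k := by ring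
    linarith

theorem cube_subset_big {a : ℝ} (ha : 0 < a) (τ : X d) (k : ℕ) (j : Idx d) :
    cube τ k j ⊆ big a τ k j := by
  intro x hx i
  obtain ⟨h1, h2⟩ := hx i
  have hs := mul_pos ha (sd_pos k)
  constructor
  · have h4 : ((j i : ℝ) - a) * sd k = j i * sd k - a * sd k := by ring
    linarith
  · have h4 : ((j i : ℝ) + 1 + a) * sd k = (j i + 1) * sd k + a * sd k := by ring
    linarith

theorem big_mono {a b : ℝ} (h : a ≤ b) (τ : X d) (k : ℕ) (j : Idx d) :
    big a τ k j ⊆ big b τ k j := by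
  intro x hx i
  obtain ⟨h1, h2⟩ := hx i
  have hs := mul_le_mul_of_nonneg_right h (sd_pos k).le
  constructor
  · have h4 : ((j i : ℝ) - a) * sd k = j i * sd k - a * sd k := by ring
    have h5 : ((j i : ℝ) - b) * sd k = j i * sd k - b * sd k := by ring
    linarith
  · have h4 : ((j i : ℝ) + 1 + a) * sd k = (j i + 1) * sd k + a * sd k := by ring
    have h5 : ((j i : ℝ) + 1 + b) * sd k = (j i + 1) * sd k + b * sd k := by ring
    linarith

theorem cube_nonempty (τ : X d) (k : ℕ) (j : Idx d) : (cube τ k j).Nonempty := by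
  refine ⟨fun i => τ i + j i * sd k, fun i => ⟨le_rfl, ?_⟩⟩
  have hs := sd_pos k
  have h4 : ((j i : ℝ) + 1) * sd k = j i * sd k + sd k := by ring
  change τ i + j i * sd k < τ i + (j i + 1) * sd k
  linarith

theorem cube_disjoint (τ : X d) (k : ℕ) {j j' : Idx d} (h : j ≠ j') :
    Disjoint (cube τ k j) (cube τ k j') := by
  rw [Set.disjoint_left]
  intro x hx hx'
  rw [mem_cube_iff] at hx hx'
  exact h (hx.symm.trans hx')

theorem iUnion_cube (τ : X d) (k : ℕ) : ⋃ j : Idx d, cube τ k j = univ := by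
  rw [Set.eq_univ_iff_forall]
  intro x
  exact mem_iUnion.2 ⟨idx τ k x, mem_cube_idx τ k x⟩

theorem measurableSet_cube (τ : X d) (k : ℕ) (j : Idx d) : MeasurableSet (cube τ k j) := by
  have h : cube τ k j = Set.univ.pi fun i => Ico (τ i + j i * sd k) (τ i + (j i + 1) * sd k) := by
    ext x
    simp [cube, Set.mem_pi]
  rw [h]
  exact MeasurableSet.univ_pi fun i => measurableSet_Ico

theorem isOpen_big (a : ℝ) (τ : X d) (k : ℕ) (j : Idx d) : IsOpen (big a τ k j) := by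
  rw [grid_big_eq]
  exact isOpen_set_pi finite_univ fun i _ => isOpen_Ioo

theorem measurableSet_big (a : ℝ) (τ : X d) (k : ℕ) (j : Idx d) : MeasurableSet (big a τ k j) := by
  exact (isOpen_big a τ k j).measurableSet

theorem measurableSet_bx (c : X d) (l : ℝ) : MeasurableSet (bx c l) := by
  rw [grid_bx_eq]
  exact MeasurableSet.univ_pi fun i => measurableSet_Ico

theorem convex_big (a : ℝ) (τ : X d) (k : ℕ) (j : Idx d) : Convex ℝ (big a τ k j) := by
  rw [grid_big_eq]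
  exact convex_pi fun i _ => convex_Ioo _ _

theorem convex_bx (c : X d) (l : ℝ) : Convex ℝ (bx c l) := by
  rw [grid_bx_eq]
  exact convex_pi fun i _ => convex_Ico _ _

theorem cube_eq_bx (τ : X d) (k : ℕ) (j : Idx d) :
    cube τ k j = bx (fun i => τ i + j i * sd k) (sd k) := by
  ext x
  refine forall_congr' fun i => ?_
  have h : τ i + ((j i : ℝ) + 1) * sd k = τ i + j i * sd k + sd k := by ring
  rw [h]

theorem isOpen_Nlev (ν : Measure (X d)) (t : ℝ≥0∞) (τ : X d) (k : ℕ) : IsOpen (Nlev ν t τ k) := by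
  exact isOpen_iUnion fun j => isOpen_iUnion fun _ => isOpen_big 8 τ k j

theorem isOpen_Nge (ν : Measure (X d)) (t : ℝ≥0∞) (τ : X d) (k : ℕ) : IsOpen (Nge ν t τ k) := by
  exact isOpen_iUnion fun i => isOpen_iUnion fun _ => isOpen_Nlev ν t τ i

theorem isOpen_Nall (ν : Measure (X d)) (t : ℝ≥0∞) (k : ℕ) : IsOpen (Nall ν t k) := by
  exact isOpen_iUnion fun τ => isOpen_iUnion fun _ => isOpen_Nge ν t τ k

theorem isOpen_Obs (τ : X d) (P : Set (ℕ × Idx d)) (k : ℕ) : IsOpen (Obs τ P k) := by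
  exact isOpen_iUnion fun q => isOpen_iUnion fun _ => isOpen_iUnion fun _ => isOpen_big 8 τ q.1 q.2

theorem Nlev_subset_Nge (ν : Measure (X d)) (t : ℝ≥0∞) (τ : X d) {k i : ℕ} (h : k ≤ i) :
    Nlev ν t τ i ⊆ Nge ν t τ k := by
  exact subset_iUnion₂_of_subset i h subset_rfl

theorem Nge_anti (ν : Measure (X d)) (t : ℝ≥0∞) (τ : X d) {k i : ℕ} (h : k ≤ i) :
    Nge ν t τ i ⊆ Nge ν t τ k := by
  exact iUnion₂_subset fun l hl => Nlev_subset_Nge ν t τ (h.trans hl)

theorem Nge_subset_Nall (ν : Measure (X d)) (t : ℝ≥0∞) {τ : X d} (hτ : τ ∈ shifts d) (k : ℕ) :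
    Nge ν t τ k ⊆ Nall ν t k := by
  exact subset_iUnion₂_of_subset τ hτ subset_rfl

theorem zero_mem_shifts : (0 : X d) ∈ shifts d := by
  simp [shifts]

theorem dir_zero (m : Y d) : dir m 0 = 1 := by
  rfl

theorem dir_succ (m : Y d) (c : Fin d) : dir m c.succ = m c := by
  rfl

theorem norm_dir_le {m : Y d} (hm : m ∈ slopes d) : ‖dir m‖ = 1 := by
  apply le_antisymm
  · rw [pi_norm_le_iff_of_nonneg zero_le_one]
    intro i
    refine Fin.cases ?_ (fun c => ?_) i
    · rw [dir_zero, norm_one]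
    · rw [dir_succ, Real.norm_eq_abs, abs_le]
      exact ⟨hm.1 c, hm.2 c⟩
  · have h := norm_le_pi_norm (dir m) 0
    rw [dir_zero, norm_one] at h
    exact h

theorem continuous_dir : Continuous (dir : Y d → X d) := by
  refine continuous_pi fun i => ?_
  refine Fin.cases ?_ (fun c => ?_) i
  · simp only [dir_zero]
    exact continuous_const
  · simp only [dir_succ]
    exact continuous_apply c

theorem measurableSet_slopes : MeasurableSet (slopes d) := by
  exact measurableSet_Icc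

/-- the sub-cubes of the threefold enlargement, as sets -/
theorem cube_subset_of_Sub {a k : ℕ} {j i : Idx d} (h : Sub a j i) {x : X d}
    (hx : x ∈ cube 0 (k + a) i) (c : Fin (d + 1)) :
    (j c - 1) * sd k ≤ x c ∧ x c < (j c + 2) * sd k := by
  obtain ⟨h1, h2⟩ := hx c
  obtain ⟨h3, h4⟩ := h c
  have h3' : (2 : ℝ) ^ a * (j c - 1) ≤ i c := by exact_mod_cast h3
  have h4' : (i c : ℝ) + 1 ≤ 2 ^ a * (j c + 2) := by
    have : i c + 1 ≤ 2 ^ a * (j c + 2) := by omega
    exact_mod_cast this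
  have hs := sd_pos (k + a)
  have ha := two_pow_mul_sd a
  have h5 : ((j c : ℝ) - 1) * sd k = (2 : ℝ) ^ a * (j c - 1) * sd (k + a) := by
    rw [sd_add]
    linear_combination -(((j c : ℝ) - 1) * sd k) * ha
  have h6 : ((j c : ℝ) + 2) * sd k = (2 : ℝ) ^ a * (j c + 2) * sd (k + a) := by
    rw [sd_add]
    linear_combination -(((j c : ℝ) + 2) * sd k) * ha
  have h7 := mul_le_mul_of_nonneg_right h3' hs.le
  have h8 := mul_le_mul_of_nonneg_right h4' hs.le
  simp only [Pi.zero_apply, zero_add] at h1 h2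
  constructor
  · linarith
  · linarith

/-- the point of the threefold enlargement lies in a sub-cube -/
theorem exists_Sub {a k : ℕ} {j : Idx d} {x : X d}
    (hx : ∀ c, (j c - 1) * sd k ≤ x c ∧ x c < (j c + 2) * sd k) : Sub a j (idx 0 (k + a) x) := by
  intro c
  obtain ⟨h1, h2⟩ := hx c
  have hk := two_pow_mul_sd k
  have h3 : (2 : ℝ) ^ (k + a) * (((j c : ℝ) - 1) * sd k) = 2 ^ a * (j c - 1) := by
    rw [pow_add]
    linear_combination (2 ^ a * ((j c : ℝ) - 1)) * hk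
  have h4 : (2 : ℝ) ^ (k + a) * (((j c : ℝ) + 2) * sd k) = 2 ^ a * (j c + 2) := by
    rw [pow_add]
    linear_combination (2 ^ a * ((j c : ℝ) + 2)) * hk
  have hp : (0 : ℝ) < 2 ^ (k + a) := by positivity
  change 2 ^ a * (j c - 1) ≤ ⌊(2 : ℝ) ^ (k + a) * (x c - (0 : X d) c)⌋ ∧
    ⌊(2 : ℝ) ^ (k + a) * (x c - (0 : X d) c)⌋ < 2 ^ a * (j c + 2)
  rw [Int.le_floor, Int.floor_lt]
  push_cast
  rw [← h3, ← h4, Pi.zero_apply, sub_zero]
  exact ⟨mul_le_mul_of_nonneg_left h1 hp.le, mul_lt_mul_of_pos_left h2 hp⟩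

/-- points at distance at most `2^(-k)` from a sub-cube lie in `big 3` -/
theorem mem_big_three_of_Sub {a k : ℕ} {j i : Idx d} (h : Sub a j i) {x z : X d}
    (hx : x ∈ cube 0 (k + a) i) (hz : ‖z - x‖ ≤ sd k) : z ∈ big 3 0 k j := by
  intro c
  obtain ⟨h1, h2⟩ := cube_subset_of_Sub h hx c
  have h3 := (norm_le_pi_norm (z - x) c).trans hz
  rw [Pi.sub_apply, Real.norm_eq_abs, abs_le] at h3
  have hs := sd_pos k
  rw [Pi.zero_apply, zero_add, zero_add]
  have e1 : ((j c : ℝ) - 3) * sd k = j c * sd k - 3 * sd k := by ring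
  have e2 : ((j c : ℝ) - 1) * sd k = j c * sd k - sd k := by ring
  have e3 : ((j c : ℝ) + 2) * sd k = j c * sd k + 2 * sd k := by ring
  have e4 : ((j c : ℝ) + 1 + 3) * sd k = j c * sd k + 4 * sd k := by ring
  constructor
  · linarith [h3.1]
  · linarith [h3.2]

/-- a small heavy cube whose enlargement meets `big 3 0 k j` lies in `big 4 0 k j` -/
theorem cube_subset_big_four {τ : X d} {i k : ℕ} (hi : k + 5 ≤ i) {j' j : Idx d} {z : X d}
    (hz : z ∈ big 8 τ i j') (hz' : z ∈ big 3 0 k j) : cube τ i j' ⊆ big 4 0 k j := by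
  intro x hx c
  obtain ⟨h1, h2⟩ := hx c
  obtain ⟨h3, h4⟩ := hz c
  obtain ⟨h5, h6⟩ := hz' c
  have hs := sd_pos k
  have hi' : sd i ≤ sd k / 32 := by
    have e1 := sd_anti hi
    have e2 : sd (k + 5) = sd k / 32 := by
      rw [sd_add]
      unfold sd
      ring
    linarith
  rw [Pi.zero_apply, zero_add] at h5 h6 ⊢
  rw [zero_add]
  have e1 : ((j' c : ℝ) - 8) * sd i = j' c * sd i - 8 * sd i := by ring
  have e2 : ((j' c : ℝ) + 1) * sd i = j' c * sd i + sd i := by ring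
  have e3 : ((j' c : ℝ) + 1 + 8) * sd i = j' c * sd i + 9 * sd i := by ring
  have e4 : ((j c : ℝ) - 3) * sd k = j c * sd k - 3 * sd k := by ring
  have e5 : ((j c : ℝ) - 4) * sd k = j c * sd k - 4 * sd k := by ring
  have e6 : ((j c : ℝ) + 1 + 3) * sd k = j c * sd k + 4 * sd k := by ring
  have e7 : ((j c : ℝ) + 1 + 4) * sd k = j c * sd k + 5 * sd k := by ring
  constructor
  · linarith
  · linarith

end BDJ
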