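import Pool.Agent.BDJ.GridB

/-!
# Points near a cube of the class `θ` are near a heavy cube of the same level (row HNBR)

Let `InCl ν θ k j`, `x ∈ big 3 0 k j`. The cubes `cube τ k j'` meeting `big 4 0 k j` are at most `10^(d+1)` (`encard_meet_le`), and they cover
`big 4 0 k j`. If none of them were heavy (threshold `c0 d * θ`, `c0 d = 1/(2 * 10^(d+1))`), then
`ν (big 4 0 k j) ≤ 10^(d+1) * c0 d * θ * ρ^d = θ/2 * ρ^d`, contradiction with `InCl` (note `θ ≠ ∞` by `InCl`; strictness comes from the definition).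
So some heavy `cube τ k j'` meets `big 4 0 k j`, at a point `y`. In each coordinate `|x c - y c| < 8 ρ` (`x c` is within `3.5 ρ` and `y c` within `4.5 ρ`
of the centre of the cube `j`), hence `x ∈ big 8 τ k j'`.
-/

open MeasureTheory Set
open scoped ENNReal

namespace BDJ

variable {d : ℕ}

theorem hnbr_c0 (d : ℕ) : (10 : ℝ≥0∞) ^ (d + 1) * c0 d = 2⁻¹ := by
  unfold c0
  have h10 : (10 : ℝ≥0∞) ^ (d + 1) ≠ 0 := pow_ne_zero _ (by norm_num)
  have h10' : (10 : ℝ≥0∞) ^ (d + 1) ≠ ⊤ := ENNReal.pow_ne_top (by norm_num)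
  rw [ENNReal.mul_inv (Or.inr h10') (Or.inr h10)]
  rw [mul_comm, mul_assoc, ENNReal.inv_mul_cancel h10 h10', mul_one]

theorem mem_Nlev_of_InCl (ν : Measure (X d)) (θ : ℝ≥0∞) (τ : X d) (k : ℕ) (j : Idx d)
    (h : InCl ν θ k j) {x : X d} (hx : x ∈ big 3 0 k j) : x ∈ Nlev ν (c0 d * θ) τ k := by
  set S : Set (Idx d) := {j' : Idx d | (cube τ k j' ∩ big 4 0 k j).Nonempty} with hS
  have hcard : S.encard ≤ 10 ^ (d + 1) := encard_meet_le τ k j
  have hfin : S.Finite := by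
    rw [← Set.encard_lt_top_iff]
    refine lt_of_le_of_lt hcard ?_
    have : ((10 : ℕ∞) ^ (d + 1)) = ((10 ^ (d + 1) : ℕ) : ℕ∞) := by push_cast; rfl
    rw [this]
    exact ENat.coe_lt_top _
  have hex : ∃ j' ∈ S, Heavy ν (c0 d * θ) τ k j' := by
    by_contra hno
    push Not at hno
    have hcov : big 4 0 k j ⊆ ⋃ j' ∈ hfin.toFinset, cube τ k j' := by
      intro y hy
      rw [Set.mem_iUnion₂]
      refine ⟨idx τ k y, ?_, mem_cube_idx τ k y⟩
      rw [Set.Finite.mem_toFinset]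
      exact ⟨y, mem_cube_idx τ k y, hy⟩
    have h1 : ν (big 4 0 k j) ≤ ∑ j' ∈ hfin.toFinset, ν (cube τ k j') :=
      (measure_mono hcov).trans (measure_biUnion_finset_le _ _)
    have h2 : ∑ j' ∈ hfin.toFinset, ν (cube τ k j') ≤
        ∑ _j' ∈ hfin.toFinset, c0 d * θ * ENNReal.ofReal (sd k ^ d) := by
      refine Finset.sum_le_sum ?_
      intro j' hj'
      rw [Set.Finite.mem_toFinset] at hj'
      have := hno j' hj'
      unfold Heavy at this
      exact (not_le.1 this).le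
    rw [Finset.sum_const, nsmul_eq_mul] at h2
    have h3 : ((hfin.toFinset.card : ℕ) : ℝ≥0∞) ≤ 10 ^ (d + 1) := by
      have e1 : hfin.toFinset.card ≤ 10 ^ (d + 1) := by
        rw [hfin.encard_eq_coe_toFinset_card] at hcard
        exact_mod_cast hcard
      exact_mod_cast e1
    have h4 : ν (big 4 0 k j) ≤ θ / 2 * ENNReal.ofReal (sd k ^ d) := by
      calc ν (big 4 0 k j) ≤ (hfin.toFinset.card : ℝ≥0∞) * (c0 d * θ * ENNReal.ofReal (sd k ^ d)) :=
            h1.trans h2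
        _ ≤ 10 ^ (d + 1) * (c0 d * θ * ENNReal.ofReal (sd k ^ d)) := by gcongr
        _ = (10 ^ (d + 1) * c0 d) * θ * ENNReal.ofReal (sd k ^ d) := by ring
        _ = θ / 2 * ENNReal.ofReal (sd k ^ d) := by
          rw [hnbr_c0, ENNReal.div_eq_inv_mul]
    exact absurd h.1 (not_lt.2 h4)
  obtain ⟨j', ⟨y, hy1, hy2⟩, hj'⟩ := hex
  unfold Nlev
  rw [Set.mem_iUnion₂]
  refine ⟨j', hj', ?_⟩
  intro c
  have a1 := hy1 c
  have a2 := hy2 c
  have a3 := hx c
  simp only [Pi.zero_apply, zero_add] at a2 a3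
  have hs := sd_pos k
  constructor
  · nlinarith [a1.1, a1.2, a2.1, a2.2, a3.1, a3.2]
  · nlinarith [a1.1, a1.2, a2.1, a2.2, a3.1, a3.2]

end BDJ
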