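import Pool.Agent.BDJ.Defs

/-!
# Mollifiers converge in `L^1` (row L1M)

`u` integrable, `φ n` bump functions at `0` with outer radius tending to `0`, `ψ_n = (φ n).normed volume`. Then `∫ ‖ψ_n * u - u‖ → 0`. Proof: given `ε`, choose `f` continuous with compact support with `∫ ‖u - f‖ ≤ ε`
(`MeasureTheory.Integrable.exists_hasCompactSupport_lintegral_sub_le` or similar); `∫ ‖ψ_n * (u - f)‖ ≤ ∫ ‖u - f‖` (Tonelli, `∫ ψ_n = 1`); `‖ψ_n * f - f‖ ≤ sup_{‖x-y‖ ≤ rOut} ‖f x - f y‖ → 0` uniformly (uniform continuity), with support in a fixed compact set.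
-/

open MeasureTheory Set Filter
open scoped ENNReal NNReal Topology

namespace BDJ

variable {d : ℕ} {V : Type*} [NormedAddCommGroup V] [NormedSpace ℝ V] [FiniteDimensional ℝ V]

theorem l1m_le_of_dist {a b : V} {e : ℝ} (h : dist a b ≤ e) : ‖a - b‖ₑ ≤ ENNReal.ofReal e := by
  rw [← ofReal_norm, ← dist_eq_norm]
  exact ENNReal.ofReal_le_ofReal h

theorem l1m_conv (ψ : ContDiffBump (0 : X d)) (u : X d → V) (x : X d) :
    ∫ y, ψ.normed volume (x - y) • u y =
      convolution (ψ.normed volume) u (ContinuousLinearMap.lsmul ℝ ℝ) volume x :=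
  convolution_lsmul_swap.symm

theorem l1m_integrable {u : X d → V} (hu : Integrable u) (φ : ContDiffBump (0 : X d)) :
    Integrable (fun x => ∫ y, φ.normed volume (x - y) • u y) ∧
      Continuous (fun x => ∫ y, φ.normed volume (x - y) • u y) := by
  have h1 : (fun x => ∫ y, φ.normed volume (x - y) • u y) =
      convolution (φ.normed volume) u (ContinuousLinearMap.lsmul ℝ ℝ) volume :=
    funext fun x => l1m_conv φ u x
  rw [h1]
  exact ⟨φ.integrable_normed.integrable_convolution _ hu,
    φ.hasCompactSupport_normed.continuous_convolution_left _ φ.continuous_normed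
      hu.locallyIntegrable⟩

theorem l1m_mass (ψ : ContDiffBump (0 : X d)) (y : X d) :
    ∫⁻ x, ‖ψ.normed volume (x - y)‖ₑ = 1 := by
  rw [lintegral_sub_right_eq_self (μ := volume) (fun x => ‖ψ.normed volume x‖ₑ) y]
  have h1 : ∀ x, ‖ψ.normed volume x‖ₑ = ENNReal.ofReal (ψ.normed volume x) := fun x =>
    Real.enorm_of_nonneg (ψ.nonneg_normed x)
  simp only [h1]
  rw [← ofReal_integral_eq_lintegral_ofReal ψ.integrable_normed
    (Eventually.of_forall ψ.nonneg_normed), ψ.integral_normed, ENNReal.ofReal_one]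

/-- the convolution is a contraction -/
theorem l1m_contr {g : X d → V} (hg : Integrable g) (ψ : ContDiffBump (0 : X d)) :
    ∫⁻ x, ‖∫ y, ψ.normed volume (x - y) • g y‖ₑ ≤ ∫⁻ y, ‖g y‖ₑ := by
  have h1 : ∀ x, ‖∫ y, ψ.normed volume (x - y) • g y‖ₑ ≤
      ∫⁻ y, ‖ψ.normed volume (x - y)‖ₑ * ‖g y‖ₑ := by
    intro x
    refine (enorm_integral_le_lintegral_enorm _).trans ?_
    apply le_of_eq
    apply lintegral_congr
    intro y
    rw [enorm_smul]
  have hψ : Measurable fun p : X d × X d => ‖ψ.normed volume (p.1 - p.2)‖ₑ := by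
    have : Continuous fun p : X d × X d => ψ.normed volume (p.1 - p.2) :=
      ψ.continuous_normed.comp (continuous_fst.sub continuous_snd)
    exact this.measurable.enorm
  have hg2 : AEMeasurable (fun p : X d × X d => ‖g p.2‖ₑ) (volume.prod volume) :=
    (hg.aestronglyMeasurable.comp_snd (μ := volume)).enorm
  calc ∫⁻ x, ‖∫ y, ψ.normed volume (x - y) • g y‖ₑ
      ≤ ∫⁻ x, ∫⁻ y, ‖ψ.normed volume (x - y)‖ₑ * ‖g y‖ₑ := lintegral_mono h1
    _ = ∫⁻ y, ∫⁻ x, ‖ψ.normed volume (x - y)‖ₑ * ‖g y‖ₑ :=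
        lintegral_lintegral_swap (hψ.aemeasurable.mul hg2)
    _ = ∫⁻ y, ‖g y‖ₑ := by
        apply lintegral_congr
        intro y
        have hm : Measurable fun x : X d => ‖ψ.normed volume (x - y)‖ₑ := by
          have : Continuous fun x : X d => ψ.normed volume (x - y) :=
            ψ.continuous_normed.comp (continuous_id.sub continuous_const)
          exact this.measurable.enorm
        rw [lintegral_mul_const _ hm, l1m_mass, one_mul]

/-- the case of a continuous function with compact support -/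
theorem l1m_cont {f : X d → V} (hf : Continuous f) (hs : HasCompactSupport f)
    (φ : ℕ → ContDiffBump (0 : X d)) (hφ : Tendsto (fun n => (φ n).rOut) atTop (𝓝 0))
    {ε : ℝ≥0∞} (hε : ε ≠ 0) :
    ∀ᶠ n in atTop, ∫⁻ x, ‖(∫ y, (φ n).normed volume (x - y) • f y) - f x‖ₑ ≤ ε := by
  obtain ⟨R, hR⟩ := hs.isCompact.isBounded.subset_closedBall (0 : X d)
  have hvol : volume (Metric.closedBall (0 : X d) (R + 1)) ≠ ∞ :=
    (isCompact_closedBall (0 : X d) (R + 1)).measure_lt_top.ne
  obtain ⟨e, he0, he⟩ : ∃ e : ℝ, 0 < e ∧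
      ENNReal.ofReal e * volume (Metric.closedBall (0 : X d) (R + 1)) ≤ ε := by
    by_cases htop : ε = ∞
    · exact ⟨1, one_pos, by rw [htop]; exact le_top⟩
    obtain ⟨w, hw0, hw⟩ : ∃ w : ℝ, 0 ≤ w ∧
        volume (Metric.closedBall (0 : X d) (R + 1)) = ENNReal.ofReal w :=
      ⟨_, ENNReal.toReal_nonneg, (ENNReal.ofReal_toReal hvol).symm⟩
    have hε0 : 0 < ε.toReal := ENNReal.toReal_pos hε htop
    refine ⟨ε.toReal / (w + 1), by positivity, ?_⟩
    rw [hw, ← ENNReal.ofReal_mul' hw0]
    conv_rhs => rw [← ENNReal.ofReal_toReal htop]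
    apply ENNReal.ofReal_le_ofReal
    rw [div_mul_eq_mul_div, div_le_iff₀ (by linarith)]
    nlinarith
  have huc : UniformContinuous f := hs.uniformContinuous_of_continuous hf
  obtain ⟨δ, hδ, hδf⟩ := Metric.uniformContinuous_iff.1 huc e he0
  have hsmall : ∀ᶠ n in atTop, (φ n).rOut < min δ 1 :=
    hφ.eventually (gt_mem_nhds (lt_min hδ one_pos))
  filter_upwards [hsmall] with n hn
  have hn1 : (φ n).rOut < δ := hn.trans_le (min_le_left _ _)
  have hn2 : (φ n).rOut < 1 := hn.trans_le (min_le_right _ _)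
  have hfm : AEStronglyMeasurable f volume := hf.aestronglyMeasurable
  have hzero : ∀ y : X d, R < ‖y‖ → f y = 0 := by
    intro y hy
    by_contra h
    have h1 : y ∈ tsupport f := subset_tsupport f h
    have h2 := hR h1
    rw [mem_closedBall_zero_iff] at h2
    linarith
  have hpt : ∀ x, ‖(∫ y, (φ n).normed volume (x - y) • f y) - f x‖ₑ ≤
      (Metric.closedBall (0 : X d) (R + 1)).indicator (fun _ => ENNReal.ofReal e) x := by
    intro x
    rw [l1m_conv]
    by_cases hx : x ∈ Metric.closedBall (0 : X d) (R + 1)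
    · rw [indicator_of_mem hx]
      have h1 := (φ n).dist_normed_convolution_le (μ := volume) (g := f) (x₀ := x) (ε := e) hfm
        (fun y hy => (hδf ((Metric.mem_ball.1 hy).trans hn1)).le)
      exact l1m_le_of_dist h1
    · rw [indicator_of_notMem hx]
      have h1 := (φ n).dist_normed_convolution_le (μ := volume) (g := f) (x₀ := x) (ε := 0) hfm
        (fun y hy => by
          rw [mem_closedBall_zero_iff, not_le] at hx
          have hxy : ‖x‖ ≤ ‖y‖ + 1 := by
            have h3 : dist y x < 1 := (Metric.mem_ball.1 hy).trans hn2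
            have h4 : ‖x‖ ≤ ‖y‖ + ‖y - x‖ := by
              have := norm_sub_le y (y - x)
              rwa [sub_sub_cancel] at this
            rw [dist_eq_norm] at h3
            linarith
          rw [hzero x (by linarith), hzero y (by linarith), dist_self])
      have h2 := l1m_le_of_dist h1
      rwa [ENNReal.ofReal_zero] at h2
  refine (lintegral_mono hpt).trans ?_
  rw [lintegral_indicator_const Metric.isClosed_closedBall.measurableSet]
  exact he

theorem l1_moll {u : X d → V} (hu : Integrable u) (φ : ℕ → ContDiffBump (0 : X d))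
    (hφ : Tendsto (fun n => (φ n).rOut) atTop (𝓝 0)) :
    Tendsto (fun n => ∫⁻ x, ENNReal.ofReal ‖(∫ y, (φ n).normed volume (x - y) • u y) - u x‖) atTop
      (𝓝 0) := by
  rw [ENNReal.tendsto_atTop_zero]
  intro ε hε
  have hε3 : ε / 3 ≠ 0 := by
    rw [ne_eq, ENNReal.div_eq_zero_iff, not_or]
    exact ⟨hε.ne', by norm_num⟩
  obtain ⟨f, hfs, hfe, hfc, hfi⟩ := hu.exists_hasCompactSupport_lintegral_sub_le hε3
  obtain ⟨N, hN⟩ := eventually_atTop.1 (l1m_cont hfc hfs φ hφ hε3)
  refine ⟨N, fun n hn => ?_⟩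
  have hg : Integrable (fun y => u y - f y) := hu.sub hfi
  have hint : ∀ (w : X d → V), Integrable w → ∀ x,
      Integrable fun y => (φ n).normed volume (x - y) • w y := by
    intro w hw x
    obtain ⟨C, hC⟩ := (φ n).hasCompactSupport_normed.exists_bound_of_continuous
      ((φ n).continuous_normed (μ := volume))
    refine hw.bdd_smul C ?_ (Eventually.of_forall fun y => hC (x - y))
    exact ((φ n).continuous_normed.comp (continuous_const.sub continuous_id)).aestronglyMeasurable
  have hsplit : ∀ x, ENNReal.ofReal ‖(∫ y, (φ n).normed volume (x - y) • u y) - u x‖ ≤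
      ‖∫ y, (φ n).normed volume (x - y) • (u y - f y)‖ₑ +
      ‖(∫ y, (φ n).normed volume (x - y) • f y) - f x‖ₑ + ‖u x - f x‖ₑ := by
    intro x
    have e1 : (∫ y, (φ n).normed volume (x - y) • u y) - u x =
        (∫ y, (φ n).normed volume (x - y) • (u y - f y)) +
        ((∫ y, (φ n).normed volume (x - y) • f y) - f x) - (u x - f x) := by
      have e2 : (∫ y, (φ n).normed volume (x - y) • (u y - f y)) =
          (∫ y, (φ n).normed volume (x - y) • u y) - ∫ y, (φ n).normed volume (x - y) • f y := by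
        rw [← integral_sub (hint u hu x) (hint f hfi x)]
        congr 1
        ext1 y
        rw [smul_sub]
      rw [e2]
      abel
    rw [ofReal_norm, e1]
    refine (enorm_sub_le).trans ?_
    gcongr
    exact enorm_add_le _ _
  have hm1 : Measurable fun x => ‖∫ y, (φ n).normed volume (x - y) • (u y - f y)‖ₑ :=
    (l1m_integrable hg (φ n)).2.enorm.measurable
  have hm2 : Measurable fun x => ‖(∫ y, (φ n).normed volume (x - y) • f y) - f x‖ₑ :=
    ((l1m_integrable hfi (φ n)).2.sub hfc).enorm.measurable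
  calc ∫⁻ x, ENNReal.ofReal ‖(∫ y, (φ n).normed volume (x - y) • u y) - u x‖
      ≤ ∫⁻ x, (‖∫ y, (φ n).normed volume (x - y) • (u y - f y)‖ₑ +
      ‖(∫ y, (φ n).normed volume (x - y) • f y) - f x‖ₑ + ‖u x - f x‖ₑ) := lintegral_mono hsplit
    _ = (∫⁻ x, ‖∫ y, (φ n).normed volume (x - y) • (u y - f y)‖ₑ) +
      (∫⁻ x, ‖(∫ y, (φ n).normed volume (x - y) • f y) - f x‖ₑ) + ∫⁻ x, ‖u x - f x‖ₑ := by
        have hm12 : Measurable fun x => ‖∫ y, (φ n).normed volume (x - y) • (u y - f y)‖ₑ +
            ‖(∫ y, (φ n).normed volume (x - y) • f y) - f x‖ₑ := hm1.add hm2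
        rw [lintegral_add_left hm12, lintegral_add_left hm1]
    _ ≤ ε / 3 + ε / 3 + ε / 3 :=
        add_le_add (add_le_add ((l1m_contr hg (φ n)).trans hfe) (hN n hn)) hfe
    _ = ε := ENNReal.add_thirds ε

theorem integrable_moll {u : X d → V} (hu : Integrable u) (φ : ContDiffBump (0 : X d)) :
    Integrable (fun x => ∫ y, φ.normed volume (x - y) • u y) ∧
      Continuous (fun x => ∫ y, φ.normed volume (x - y) • u y) := by
  exact l1m_integrable hu φ

end BDJ
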