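import Pool.Agent.BDJ.Sl
import Pool.Agent.BDJ.L1Moll

/-!
# The mollified pair is a strain pair (row MOLL)

`SBV S Ω u m`. `φ` a bump function at `0` of outer radius `ε`, `ψ = φ.normed volume` (nonnegative, smooth, integral 1, support in the closed ball of radius `ε`),
`v x = ∫ y, ψ(x - y) • (Ω.indicator u y)`, `h x = ∫⁻ y, ofReal (ψ(x - y)) ∂m`.

(1) `v` is continuous (`integrable_moll`), `h` is measurable (continuous). If the closed `ε`-neighbourhood of `U` is contained in `Ω`, then `(v, h)` is a strain pair on `U`: for `x ∈ U`, direction `z`, index `i`: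
`d/ds (S.e i z (v (x + s z))) = ∫_Ω (fderiv ψ (x + s z - y) z) * S.e i z (u y) dy = - ∫_Ω (fderiv_y[ψ(x + s z - ·)](y) z) * S.e i z (u y) dy`, and by `SBV.ineq` with the test
function `y ↦ ψ(x + s z - y)`, whose support is in the closed ball of radius `ε` about `x + s z ∈ U`, so in `Ω` and compact, the absolute value is `≤ C0 ‖z‖^(deg+1) ∫ ψ(x + s z - y) dm(y) = C0 ‖z‖^(deg+1) h(x + s z)`. Integrate in `s` from `0` to `s`
(fundamental theorem of calculus; everything is smooth) and compare with `rm h s x z`.
(2) `∫_A h ≤ m (cthickening ε A)`, by Tonelli (`m` is finite): `∫_A ofReal ψ(x - y) dx ≤ 1`, and it is `0` unless `y` is within `ε` of `A`.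
-/

open MeasureTheory Set Filter
open scoped ENNReal NNReal Topology

namespace BDJ

variable {d : ℕ} {V : Type*} [NormedAddCommGroup V] [NormedSpace ℝ V] [FiniteDimensional ℝ V]

/-- smoothness and bounds of the kernel -/
theorem moll_smooth (φ : ContDiffBump (0 : X d)) :
    ContDiff ℝ (⊤ : ℕ∞) (φ.normed volume) := φ.contDiff_normed

theorem moll_bdd (φ : ContDiffBump (0 : X d)) : ∃ C : ℝ, ∀ x, ‖φ.normed volume x‖ ≤ C :=
  φ.hasCompactSupport_normed.exists_bound_of_continuous φ.continuous_normed

theorem moll_fderiv_cont (φ : ContDiffBump (0 : X d)) :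
    Continuous (fderiv ℝ (φ.normed volume)) :=
  (moll_smooth φ).continuous_fderiv (by simp)

theorem moll_fderiv_bdd (φ : ContDiffBump (0 : X d)) (z : X d) :
    ∃ C : ℝ, ∀ x, ‖fderiv ℝ (φ.normed volume) x z‖ ≤ C := by
  obtain ⟨C, hC⟩ := (φ.hasCompactSupport_normed (μ := volume)).fderiv (𝕜 := ℝ)
    |>.exists_bound_of_continuous (moll_fderiv_cont φ)
  refine ⟨C * ‖z‖, fun x => ?_⟩
  exact ((fderiv ℝ (φ.normed volume) x).le_opNorm z).trans
    (mul_le_mul_of_nonneg_right (hC x) (norm_nonneg z))

/-- the test function `y ↦ ψ (p - y)` -/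
theorem moll_test (φ : ContDiffBump (0 : X d)) (p : X d) :
    ContDiff ℝ (⊤ : ℕ∞) (fun y => φ.normed volume (p - y)) ∧
    HasCompactSupport (fun y => φ.normed volume (p - y)) ∧
    tsupport (fun y => φ.normed volume (p - y)) ⊆ Metric.closedBall p φ.rOut ∧
    ∀ y z : X d, fderiv ℝ (fun y => φ.normed volume (p - y)) y z =
      -fderiv ℝ (φ.normed volume) (p - y) z := by
  have hs : Function.support (fun y => φ.normed volume (p - y)) ⊆ Metric.closedBall p φ.rOut := by
    intro y hy
    have h1 : p - y ∈ Function.support (φ.normed volume) := hy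
    rw [φ.support_normed_eq, mem_ball_zero_iff] at h1
    rw [Metric.mem_closedBall, dist_comm, dist_eq_norm]
    exact h1.le
  refine ⟨?_, ?_, ?_, ?_⟩
  · exact (moll_smooth φ).comp (contDiff_const.sub contDiff_id)
  · exact HasCompactSupport.of_support_subset_isCompact (isCompact_closedBall p φ.rOut) hs
  · exact closure_minimal hs Metric.isClosed_closedBall
  · intro y z
    have h1 : HasFDerivAt (fun y : X d => p - y) (-(ContinuousLinearMap.id ℝ (X d))) y :=
      (hasFDerivAt_id y).const_sub p
    have h2 : HasFDerivAt (φ.normed volume) (fderiv ℝ (φ.normed volume) (p - y)) (p - y) :=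
      ((moll_smooth φ).differentiable (by simp)).differentiableAt.hasFDerivAt
    have h3 : HasFDerivAt (fun y => φ.normed volume (p - y)) _ y := h2.comp y h1
    rw [h3.fderiv]
    simp

theorem moll_strain (S : Slicing d V) {Ω : Set (X d)} {u : X d → V} {m : Measure (X d)}
    (hu : SBV S Ω u m) (φ : ContDiffBump (0 : X d))
    (U : Set (X d)) (hU : Metric.cthickening φ.rOut U ⊆ Ω) :
    SStrain S (fun x => ∫ y, φ.normed volume (x - y) • Ω.indicator u y)
      (fun x => ∫⁻ y, ENNReal.ofReal (φ.normed volume (x - y)) ∂m) U := by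
  have hfin : IsFiniteMeasure m := hu.fin
  have hΩ : MeasurableSet Ω := hu.isOpen.measurableSet
  have hint : Integrable (Ω.indicator u) := hu.integ.integrable_indicator hΩ
  have hψc : Continuous (φ.normed (volume : Measure (X d))) := φ.continuous_normed
  refine ⟨(integrable_moll hint φ).2, ?_, ?_⟩
  · have h1 : Measurable fun p : X d × X d =>
        ENNReal.ofReal (φ.normed (volume : Measure (X d)) (p.1 - p.2)) :=
      ENNReal.measurable_ofReal.comp (hψc.measurable.comp (measurable_fst.sub measurable_snd))
    exact h1.lintegral_prod_right'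
  · intro i w z s hs hseg
    set ψ : X d → ℝ := φ.normed volume with hψ
    obtain ⟨Cb, hCb⟩ := moll_bdd φ
    obtain ⟨Cd, hCd⟩ := moll_fderiv_bdd φ z
    set e : V →L[ℝ] ℝ := S.e i z with he
    have heu : IntegrableOn (fun y => e (u y)) Ω := e.integrable_comp hu.integ
    -- the functional of the mollified function
    have hev : ∀ x : X d, e (∫ y, ψ (x - y) • Ω.indicator u y) = ∫ y in Ω, ψ (x - y) * e (u y) := by
      intro x
      have hi : Integrable (fun y => ψ (x - y) • Ω.indicator u y) := by
        refine hint.bdd_smul Cb ?_ ?_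
        · have hc : Continuous fun y : X d => ψ (x - y) := hψc.comp (by fun_prop)
          exact hc.aestronglyMeasurable
        · exact Eventually.of_forall fun y => hCb _
      rw [← e.integral_comp_comm hi, ← integral_indicator hΩ]
      refine integral_congr_ae (Eventually.of_forall fun y => ?_)
      by_cases hy : y ∈ Ω
      · simp [hy]
      · simp [hy]
    -- the derivative
    set I : ℝ → ℝ := fun r => ∫ y in Ω, fderiv ℝ ψ (w + r • z - y) z * e (u y) with hI
    have hbnd : ∀ r ∈ Icc 0 s, ENNReal.ofReal |I r| ≤
        ENNReal.ofReal (S.C0 * ‖z‖ ^ (S.deg + 1)) *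
          ∫⁻ y, ENNReal.ofReal (ψ (w + r • z - y)) ∂m := by
      intro r hr
      obtain ⟨t1, t2, t3, t4⟩ := moll_test φ (w + r • z)
      have hsub : tsupport (fun y => ψ (w + r • z - y)) ⊆ Ω :=
        (t3.trans (Metric.closedBall_subset_cthickening (hseg r hr) _)).trans hU
      have h5 := hu.ineq i (fun y => ψ (w + r • z - y)) z t1 t2 hsub
      have h6 : I r = -∫ y in Ω, S.e i z (u y) * fderiv ℝ (fun y => ψ (w + r • z - y)) y z := by
        rw [hI, ← integral_neg]
        refine integral_congr_ae (Eventually.of_forall fun y => ?_)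
        simp only
        rw [t4 y z]
        ring
      have hCC : 0 ≤ S.C0 * ‖z‖ ^ (S.deg + 1) := mul_nonneg S.C0_pos.le (by positivity)
      have hc1 : Continuous fun y : X d => ψ (w + r • z - y) := hψc.comp (by fun_prop)
      have hi1 : Integrable (fun y => ψ (w + r • z - y)) m :=
        Integrable.of_bound hc1.aestronglyMeasurable Cb (Eventually.of_forall fun y => hCb _)
      have habs : ∫ y, |ψ (w + r • z - y)| ∂m = ∫ y, ψ (w + r • z - y) ∂m :=
        integral_congr_ae (Eventually.of_forall fun y => abs_of_nonneg (φ.nonneg_normed _))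
      rw [habs] at h5
      rw [h6, abs_neg, ← ofReal_integral_eq_lintegral_ofReal hi1
        (Eventually.of_forall fun y => φ.nonneg_normed _), ← ENNReal.ofReal_mul hCC]
      exact ENNReal.ofReal_le_ofReal h5
    -- the fundamental theorem of calculus and Fubini
    have hftc : ∀ y : X d, ψ (w + s • z - y) - ψ (w - y) =
        ∫ r in Ioc 0 s, fderiv ℝ ψ (w + r • z - y) z := by
      intro y
      have hd : ∀ r : ℝ, HasDerivAt (fun r : ℝ => ψ (w + r • z - y))
          (fderiv ℝ ψ (w + r • z - y) z) r := by
        intro r
        have h1 : HasDerivAt (fun r : ℝ => w + r • z - y) z r := by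
          have := ((hasDerivAt_id r).smul_const z).const_add w |>.sub_const y
          simpa using this
        have h2 : HasFDerivAt ψ (fderiv ℝ ψ (w + r • z - y)) (w + r • z - y) :=
          ((moll_smooth φ).differentiable (by simp)).differentiableAt.hasFDerivAt
        exact h2.comp_hasDerivAt r h1
      have hc : Continuous fun r : ℝ => fderiv ℝ ψ (w + r • z - y) z := by
        have h3 : Continuous fun r : ℝ => fderiv ℝ ψ (w + r • z - y) :=
          (moll_fderiv_cont φ).comp (by fun_prop)
        exact h3.clm_apply continuous_const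
      rw [← intervalIntegral.integral_of_le hs,
        intervalIntegral.integral_eq_sub_of_hasDerivAt (fun r _ => hd r)
          (hc.intervalIntegrable 0 s)]
      simp
    have hprod : Integrable (Function.uncurry fun (r : ℝ) (y : X d) =>
        fderiv ℝ ψ (w + r • z - y) z * e (u y))
        (((volume : Measure ℝ).restrict (Ioc 0 s)).prod (volume.restrict Ω)) := by
      have h1 : Integrable (fun q : ℝ × X d => e (u q.2))
          (((volume : Measure ℝ).restrict (Ioc 0 s)).prod (volume.restrict Ω)) :=
        Integrable.comp_snd (f := fun y => e (u y)) heu _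
      refine h1.bdd_mul (c := Cd) ?_ ?_
      · have h3 : Continuous fun q : ℝ × X d => fderiv ℝ ψ (w + q.1 • z - q.2) :=
          (moll_fderiv_cont φ).comp (by fun_prop)
        exact (h3.clm_apply continuous_const).aestronglyMeasurable
      · exact Eventually.of_forall fun q => hCd _
    have hmain : e ((∫ y, ψ (w + s • z - y) • Ω.indicator u y) -
        ∫ y, ψ (w - y) • Ω.indicator u y) = ∫ r in Ioc 0 s, I r := by
      have hi : ∀ x : X d, IntegrableOn (fun y => ψ (x - y) * e (u y)) Ω := by
        intro x
        refine Integrable.bdd_mul (c := Cb) heu ?_ ?_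
        · have hc : Continuous fun y : X d => ψ (x - y) := hψc.comp (by fun_prop)
          exact hc.aestronglyMeasurable
        · exact Eventually.of_forall fun y => hCb _
      rw [map_sub, hev, hev, ← integral_sub (hi _) (hi _), hI, integral_integral_swap hprod]
      refine integral_congr_ae (Eventually.of_forall fun y => ?_)
      simp only
      rw [← sub_mul, hftc y, integral_mul_const]
    change ENNReal.ofReal |e ((∫ y, ψ (w + s • z - y) • Ω.indicator u y) -
        ∫ y, ψ (w - y) • Ω.indicator u y)| ≤ _
    rw [hmain, ← Real.norm_eq_abs, ofReal_norm]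
    refine (enorm_integral_le_lintegral_enorm _).trans ?_
    unfold rm
    have hmeas : Measurable fun r : ℝ => ∫⁻ y, ENNReal.ofReal (ψ (w + r • z - y)) ∂m := by
      have h1 : Measurable fun q : ℝ × X d => ENNReal.ofReal (ψ (w + q.1 • z - q.2)) :=
        ENNReal.measurable_ofReal.comp (hψc.measurable.comp (by fun_prop))
      exact h1.lintegral_prod_right'
    rw [← lintegral_const_mul _ hmeas]
    refine (lintegral_mono_set Ioc_subset_Icc_self).trans ?_
    refine setLIntegral_mono' measurableSet_Icc fun r hr => ?_
    rw [← ofReal_norm, Real.norm_eq_abs]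
    exact hbnd r hr

theorem moll_mass {m : Measure (X d)} [IsFiniteMeasure m] (φ : ContDiffBump (0 : X d))
    {A : Set (X d)} (hA : MeasurableSet A) :
    ∫⁻ x in A, ∫⁻ y, ENNReal.ofReal (φ.normed volume (x - y)) ∂m ≤
      m (Metric.cthickening φ.rOut A) := by
  have hψc : Continuous (φ.normed (volume : Measure (X d))) := φ.continuous_normed
  have h1 : Measurable fun p : X d × X d =>
      ENNReal.ofReal (φ.normed (volume : Measure (X d)) (p.1 - p.2)) :=
    ENNReal.measurable_ofReal.comp (hψc.measurable.comp (measurable_fst.sub measurable_snd))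
  rw [lintegral_lintegral_swap h1.aemeasurable]
  have h2 : ∀ y : X d, ∫⁻ x in A, ENNReal.ofReal (φ.normed (volume : Measure (X d)) (x - y)) ≤
      (Metric.cthickening φ.rOut A).indicator 1 y := by
    intro y
    by_cases hy : y ∈ Metric.cthickening φ.rOut A
    · rw [indicator_of_mem hy]
      refine (setLIntegral_le_lintegral _ _).trans ?_
      rw [lintegral_sub_right_eq_self (fun x => ENNReal.ofReal (φ.normed (volume : Measure (X d)) x)) y,
        ← ofReal_integral_eq_lintegral_ofReal φ.integrable_normed
          (Eventually.of_forall fun x => φ.nonneg_normed x), φ.integral_normed]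
      simp
    · rw [indicator_of_notMem hy]
      have h3 : ∀ x ∈ A, ENNReal.ofReal (φ.normed (volume : Measure (X d)) (x - y)) = 0 := by
        intro x hx
        have h4 : x - y ∉ Function.support (φ.normed (volume : Measure (X d))) := by
          rw [φ.support_normed_eq, mem_ball_zero_iff]
          intro h5
          apply hy
          apply Metric.closedBall_subset_cthickening hx φ.rOut
          rw [Metric.mem_closedBall, dist_comm, dist_eq_norm]
          exact h5.le
        rw [Function.notMem_support.1 h4, ENNReal.ofReal_zero]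
      rw [setLIntegral_congr_fun hA h3]
      simp
  refine (lintegral_mono h2).trans ?_
  rw [lintegral_indicator_one Metric.isClosed_cthickening.measurableSet]

end BDJ
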