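import Pool.Agent.BDJ.GridB

/-!
# The masses `om`, the partial sums `Sc` and the layers (row OMEGA)

`om μ ν t τ k j = μ(W)/ρ^d` with `W = big 8 τ k j \ Nge ν t τ (k+1)` if `cube τ k j` is heavy, `0` otherwise.

* `om_sum`: for a fixed point `x` all the heavy cubes `(k,j)` with `x ∈ W(k,j)` have the same level (if `k < k'` and `x ∈ big 8 τ k' j'`, `(k',j')` heavy, then
  `x ∈ Nge (k+1)`), and for one level there are at most `17^(d+1)` of them (`tsum_big_le`, `N = 8`). Integrate (`lintegral_tsum`).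
* `Lay_heavy`: an element of a layer has `om > 0`, hence is heavy.
* `finite_heavy`: if `ν` is finite, `0 < t`, and there are no heavy cubes of level `> L`, there are finitely many heavy cubes: at each level `k ≤ L`,
  `(number) * t * sd k ^ d ≤ ν univ` (disjoint cubes).
* `exists_Lay`: if `Sc (k₁) ≤ lam < Sc (k₂)` along a chain of ancestors then some cube of the chain between (level in `(k₁, k₂]`) is in the layer.
* `Sc_mono`: `Sc` does not decrease towards descendants.
* `lay_integral`: for a finite family of cubes containing all heavy ones, `∫_{lam ∈ (0,∞)} ∑_{P ∈ Lay lam} sd^d = ∑ om * sd^d`; stated as an inequality.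
-/

open MeasureTheory Set
open scoped ENNReal

namespace BDJ

variable {d : ℕ}

theorem om_nonneg (μ ν : Measure (X d)) (t : ℝ≥0∞) (τ : X d) (k : ℕ) (j : Idx d) :
    0 ≤ om μ ν t τ k j := by
  unfold om
  split_ifs
  · exact div_nonneg ENNReal.toReal_nonneg (pow_nonneg (sd_pos k).le d)
  · exact le_refl 0

/-- in terms of measures: `ofReal (om) * sd k ^ d = μ W` for heavy cubes -/
theorem ofReal_om_mul (μ ν : Measure (X d)) [IsFiniteMeasure μ] (t : ℝ≥0∞) (τ : X d) (k : ℕ)
    (j : Idx d) (hh : Heavy ν t τ k j) :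
    ENNReal.ofReal (om μ ν t τ k j) * ENNReal.ofReal (sd k ^ d) =
      μ (big 8 τ k j \ Nge ν t τ (k + 1)) := by
  have h1 : 0 < sd k ^ d := pow_pos (sd_pos k) d
  rw [← ENNReal.ofReal_mul (om_nonneg μ ν t τ k j)]
  unfold om
  rw [if_pos hh, div_mul_cancel₀ _ h1.ne', ENNReal.ofReal_toReal (measure_ne_top μ _)]

theorem om_sum (μ ν : Measure (X d)) [IsFiniteMeasure μ] (t : ℝ≥0∞) (τ : X d) :
    ∑' (k : ℕ) (j : Idx d), ENNReal.ofReal (om μ ν t τ k j) * ENNReal.ofReal (sd k ^ d) ≤
      17 ^ (d + 1) * μ univ := by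
  classical
  set S : ℕ → Idx d → Set (X d) := fun k j =>
    if Heavy ν t τ k j then big 8 τ k j \ Nge ν t τ (k + 1) else ∅ with hS
  have hSm : ∀ k j, MeasurableSet (S k j) := by
    intro k j
    simp only [hS]
    split_ifs
    · exact (measurableSet_big 8 τ k j).diff (isOpen_Nge ν t τ (k + 1)).measurableSet
    · exact MeasurableSet.empty
  have hterm : ∀ k j, ENNReal.ofReal (om μ ν t τ k j) * ENNReal.ofReal (sd k ^ d) =
      ∫⁻ x, (S k j).indicator (1 : X d → ℝ≥0∞) x ∂μ := by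
    intro k j
    rw [lintegral_indicator_one (hSm k j)]
    by_cases hh : Heavy ν t τ k j
    · rw [ofReal_om_mul μ ν t τ k j hh]
      simp only [hS]
      rw [if_pos hh]
    · have h0 : om μ ν t τ k j = 0 := by
        unfold om
        rw [if_neg hh]
      simp only [hS]
      rw [if_neg hh, h0]
      simp
  have hpt : ∀ x : X d, ∑' (k : ℕ) (j : Idx d), (S k j).indicator (1 : X d → ℝ≥0∞) x ≤
      17 ^ (d + 1) := by
    intro x
    by_cases hex : ∃ k0 j0, x ∈ S k0 j0
    · obtain ⟨k0, j0, h0⟩ := hex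
      have key : ∀ (k k' : ℕ) (j j' : Idx d), k < k' → x ∈ S k j → x ∈ S k' j' → False := by
        intro k k' j j' hkk h1 h2
        simp only [hS] at h1 h2
        by_cases hh1 : Heavy ν t τ k j
        · by_cases hh2 : Heavy ν t τ k' j'
          · rw [if_pos hh1] at h1
            rw [if_pos hh2] at h2
            apply h1.2
            apply Nlev_subset_Nge ν t τ (k := k + 1) (i := k') hkk
            unfold Nlev
            exact mem_iUnion₂.2 ⟨j', hh2, h2.1⟩
          · rw [if_neg hh2] at h2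
            exact h2
        · rw [if_neg hh1] at h1
          exact h1
      rw [tsum_eq_single k0]
      · refine le_trans (ENNReal.tsum_le_tsum fun j => ?_) (le_trans (tsum_big_le 8 τ k0 x) ?_)
        · apply indicator_le_indicator_of_subset
          · simp only [hS]
            split_ifs
            · exact sdiff_subset
            · exact empty_subset _
          · intro y
            exact zero_le
        · have : (2 * ((8 : ℕ) : ℝ≥0∞) + 1) = 17 := by norm_num
          rw [this]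
      · intro k hk
        rw [ENNReal.tsum_eq_zero]
        intro j
        rw [indicator_of_notMem]
        intro hx
        rcases lt_or_gt_of_ne hk with h | h
        · exact key k k0 j j0 h hx h0
        · exact key k0 k j0 j h h0 hx
    · have h0 : ∑' (k : ℕ) (j : Idx d), (S k j).indicator (1 : X d → ℝ≥0∞) x = 0 := by
        rw [ENNReal.tsum_eq_zero]
        intro k
        rw [ENNReal.tsum_eq_zero]
        intro j
        rw [indicator_of_notMem]
        intro hx
        exact hex ⟨k, j, hx⟩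
      rw [h0]
      exact zero_le
  have hind : ∀ k j, Measurable fun x : X d => (S k j).indicator (1 : X d → ℝ≥0∞) x :=
    fun k j => measurable_one.indicator (hSm k j)
  calc ∑' (k : ℕ) (j : Idx d), ENNReal.ofReal (om μ ν t τ k j) * ENNReal.ofReal (sd k ^ d)
      = ∑' (k : ℕ) (j : Idx d), ∫⁻ x, (S k j).indicator (1 : X d → ℝ≥0∞) x ∂μ := by
        simp only [hterm]
    _ = ∑' (k : ℕ), ∫⁻ x, ∑' (j : Idx d), (S k j).indicator (1 : X d → ℝ≥0∞) x ∂μ := by
        congr 1
        funext k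
        rw [lintegral_tsum fun j => (hind k j).aemeasurable]
    _ = ∫⁻ x, ∑' (k : ℕ) (j : Idx d), (S k j).indicator (1 : X d → ℝ≥0∞) x ∂μ := by
        rw [lintegral_tsum]
        intro k
        exact (Measurable.ennreal_tsum fun j => hind k j).aemeasurable
    _ ≤ ∫⁻ _, 17 ^ (d + 1) ∂μ := lintegral_mono hpt
    _ = 17 ^ (d + 1) * μ univ := by rw [lintegral_const]

theorem Sc_nonneg (μ ν : Measure (X d)) (t : ℝ≥0∞) (τ : X d) (k : ℕ) (j : Idx d) :
    0 ≤ Sc μ ν t τ k j := by
  induction k generalizing j with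
  | zero => exact om_nonneg μ ν t τ 0 j
  | succ k ih => exact add_nonneg (ih (par j)) (om_nonneg μ ν t τ (k + 1) j)

theorem Sc_idx_succ (μ ν : Measure (X d)) (t : ℝ≥0∞) (τ : X d) (k : ℕ) (x : X d) :
    Sc μ ν t τ (k + 1) (idx τ (k + 1) x) =
      Sc μ ν t τ k (idx τ k x) + om μ ν t τ (k + 1) (idx τ (k + 1) x) := by
  change Sc μ ν t τ k (par (idx τ (k + 1) x)) + om μ ν t τ (k + 1) (idx τ (k + 1) x) = _
  rw [par_idx]

theorem Sc_mono (μ ν : Measure (X d)) (t : ℝ≥0∞) (τ : X d) {k k' : ℕ} (hk : k ≤ k') (x : X d) :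
    Sc μ ν t τ k (idx τ k x) ≤ Sc μ ν t τ k' (idx τ k' x) := by
  induction k', hk using Nat.le_induction with
  | base => exact le_refl _
  | succ n hn ih =>
    rw [Sc_idx_succ]
    have := om_nonneg μ ν t τ (n + 1) (idx τ (n + 1) x)
    linarith

theorem Lay_heavy (μ ν : Measure (X d)) (t : ℝ≥0∞) (τ : X d) {lam : ℝ} {P : ℕ × Idx d}
    (hP : P ∈ Lay μ ν t τ lam) : Heavy ν t τ P.1 P.2 := by
  by_contra hh
  have h0 : om μ ν t τ P.1 P.2 = 0 := by
    unfold om
    rw [if_neg hh]
  have h1 : Sc μ ν t τ P.1 P.2 - om μ ν t τ P.1 P.2 ≤ lam := hP.1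
  have h2 : lam < Sc μ ν t τ P.1 P.2 := hP.2
  rw [h0, sub_zero] at h1
  exact absurd h2 (not_lt.2 h1)

theorem finite_heavy (ν : Measure (X d)) [IsFiniteMeasure ν] {t : ℝ≥0∞} (ht : t ≠ 0) (τ : X d)
    {L : ℕ} (hL : ∀ i, L < i → ∀ j, ¬ Heavy ν t τ i j) :
    {P : ℕ × Idx d | Heavy ν t τ P.1 P.2}.Finite := by
  have h1 : ∀ k : ℕ, {j : Idx d | Heavy ν t τ k j}.Finite := by
    intro k
    have hpos : 0 < t * ENNReal.ofReal (sd k ^ d) := by
      refine pos_iff_ne_zero.2 (mul_ne_zero ht ?_)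
      exact (ENNReal.ofReal_pos.2 (pow_pos (sd_pos k) d)).ne'
    exact Measure.finite_const_le_meas_of_disjoint_iUnion ν hpos (As := fun j => cube τ k j)
      (fun j => measurableSet_cube τ k j) (fun j j' hj => cube_disjoint τ k hj)
      (measure_ne_top ν _)
  have h2 : {P : ℕ × Idx d | Heavy ν t τ P.1 P.2} ⊆
      ⋃ k ∈ Iic L, (fun j : Idx d => (k, j)) '' {j : Idx d | Heavy ν t τ k j} := by
    rintro ⟨k, j⟩ hP
    have hk : k ≤ L := by
      by_contra hk
      exact hL k (not_le.1 hk) j hP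
    exact mem_iUnion₂.2 ⟨k, hk, ⟨j, hP, rfl⟩⟩
  exact ((finite_Iic L).biUnion fun k _ => (h1 k).image _).subset h2

theorem exists_Lay (μ ν : Measure (X d)) (t : ℝ≥0∞) (τ : X d) {k k' : ℕ} (hk : k ≤ k') (x : X d)
    {lam : ℝ} (h1 : Sc μ ν t τ k (idx τ k x) ≤ lam) (h2 : lam < Sc μ ν t τ k' (idx τ k' x)) :
    ∃ i, k < i ∧ i ≤ k' ∧ (i, idx τ i x) ∈ Lay μ ν t τ lam := by
  classical
  have hne : k ≠ k' := by
    rintro rfl
    exact absurd h2 (not_lt.2 h1)
  have hlt : k < k' := lt_of_le_of_ne hk hne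
  have hex : ∃ i, k < i ∧ lam < Sc μ ν t τ i (idx τ i x) := ⟨k', hlt, h2⟩
  obtain ⟨hi1, hi2⟩ := Nat.find_spec hex
  set i := Nat.find hex with hi
  have hik : i ≤ k' := Nat.find_min' hex ⟨hlt, h2⟩
  obtain ⟨m, hm⟩ : ∃ m, i = m + 1 := ⟨i - 1, by omega⟩
  have h3 : Sc μ ν t τ m (idx τ m x) ≤ lam := by
    by_cases hkm : k = m
    · rw [← hkm]
      exact h1
    · by_contra h4
      exact Nat.find_min hex (m := m) (by rw [← hi]; omega) ⟨by omega, not_le.1 h4⟩
  refine ⟨i, hi1, hik, ?_, hi2⟩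
  change Sc μ ν t τ i (idx τ i x) - om μ ν t τ i (idx τ i x) ≤ lam
  rw [hm, Sc_idx_succ]
  linarith

open Classical in
/-- layer-cake identity, as an inequality. For each `(k,j)` the set of `lam` with `(k,j) ∈ Lay lam` is `[Sc - om, Sc)`, of length `om`. -/
theorem lay_integral (μ ν : Measure (X d)) (t : ℝ≥0∞) (τ : X d) (F : Finset (ℕ × Idx d)) :
    ∫⁻ lam : ℝ, ∑ P ∈ F, (if P ∈ Lay μ ν t τ lam then ENNReal.ofReal (sd P.1 ^ d) else 0) ≤
      ∑ P ∈ F, ENNReal.ofReal (om μ ν t τ P.1 P.2) * ENNReal.ofReal (sd P.1 ^ d) := by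
  have hI : ∀ P : ℕ × Idx d, (fun lam : ℝ => if P ∈ Lay μ ν t τ lam then
      ENNReal.ofReal (sd P.1 ^ d) else 0) =
      (Ico (Sc μ ν t τ P.1 P.2 - om μ ν t τ P.1 P.2) (Sc μ ν t τ P.1 P.2)).indicator
        (fun _ => ENNReal.ofReal (sd P.1 ^ d)) := by
    intro P
    funext lam
    by_cases h : P ∈ Lay μ ν t τ lam
    · rw [if_pos h, indicator_of_mem]
      exact ⟨h.1, h.2⟩
    · rw [if_neg h, indicator_of_notMem]
      intro h'
      exact h ⟨h'.1, h'.2⟩
  rw [lintegral_finsetSum]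
  · refine Finset.sum_le_sum fun P _ => ?_
    rw [hI P, lintegral_indicator_const measurableSet_Ico, Real.volume_Ico, sub_sub_cancel,
      mul_comm]
  · intro P _
    rw [hI P]
    exact measurable_const.indicator measurableSet_Ico

end BDJ
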