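import Mathlib

/-!
# First-order operators with constant coefficients, functions of bounded `B`-variation
-/

open MeasureTheory Set Filter
open scoped ENNReal NNReal Topology InnerProductSpace

namespace BDJ

/-- Euclidean space `ℝ^n` -/
abbrev E (n : ℕ) : Type := EuclideanSpace ℝ (Fin n)

section
variable {n : ℕ} {V W : Type*} [NormedAddCommGroup V] [InnerProductSpace ℝ V]
  [NormedAddCommGroup W] [InnerProductSpace ℝ W]

/-- `u` is a function of bounded `B`-variation on `Ω`, `B[D] = ∑ j, B j ∂_j`, and the vector measure `Bu` is its distributional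
`B`-gradient: `∫ φ · dBu = ∫_Ω B*φ · u = - ∫_Ω ∑ j, ⟪∂_j φ, B j u⟫` for all test functions `φ ∈ C_c^∞(Ω; W)`. -/
structure IsBV (B : Fin n → V →L[ℝ] W) (Ω : Set (E n)) (u : E n → V)
    (Bu : VectorMeasure (E n) W) : Prop where
  integrable : IntegrableOn u Ω
  finite : Bu.variation univ < ∞
  eq : ∀ φ : E n → W, ContDiff ℝ (⊤ : ℕ∞) φ → HasCompactSupport φ → tsupport φ ⊆ Ω →
    Bu.integral φ (innerSL ℝ) =
      -∫ x in Ω, ∑ j, ⟪fderiv ℝ φ x (EuclideanSpace.single j 1), B j (u x)⟫_ℝ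

/-- the approximate discontinuity set `S_u` -/
def discSet (Ω : Set (E n)) (u : E n → V) : Set (E n) :=
  {x ∈ Ω | ¬ ∃ z : V, Tendsto (fun r : ℝ => (volume (Metric.ball x r))⁻¹ *
    ∫⁻ y in Metric.ball x r, ‖u y - z‖ₑ) (𝓝[>] 0) (𝓝 0)}

/-- the set `Θ_u` of the points of positive upper `(n-1)`-density of `|Bu|` -/
def densSet (Ω : Set (E n)) (Bu : VectorMeasure (E n) W) : Set (E n) :=
  {x ∈ Ω | 0 < limsup (fun r : ℝ => Bu.variation (Metric.ball x r) / ENNReal.ofReal (r ^ (n - 1)))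
    (𝓝[>] 0)}

/-- `B[D]` is `ℂ`-elliptic: the complexified symbol `∑ j, ξ_j B j` is injective on `V + iV` for every `ξ ∈ ℂ^n`, `ξ ≠ 0` (real and imaginary
parts of `(∑ j, ξ_j B j) (a + i b) = 0`) -/
def CElliptic (B : Fin n → V →L[ℝ] W) : Prop :=
  ∀ ξ : Fin n → ℂ, ξ ≠ 0 → ∀ a b : V,
    (∑ j, ((ξ j).re • B j a - (ξ j).im • B j b)) = 0 →
    (∑ j, ((ξ j).im • B j a + (ξ j).re • B j b)) = 0 → a = 0 ∧ b = 0

end

/-- the symmetric matrix `(e_j ⊗ v + v ⊗ e_j)/2`, with the entries `(δ_{pj} v_q + δ_{qj} v_p)/2` -/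
noncomputable def symMat (n : ℕ) (j : Fin n) (v : E n) : EuclideanSpace ℝ (Fin n × Fin n) :=
  WithLp.toLp 2 fun p => ((if p.1 = j then v p.2 else 0) + (if p.2 = j then v p.1 else 0)) / 2

theorem symMat_isLinearMap (n : ℕ) (j : Fin n) : IsLinearMap ℝ (symMat n j) where
  map_add v w := by
    ext p
    simp only [symMat, PiLp.add_apply]
    split_ifs <;> ring
  map_smul c v := by
    ext p
    simp only [symMat, PiLp.smul_apply, smul_eq_mul]
    split_ifs <;> ring

theorem symMat_continuous (n : ℕ) (j : Fin n) : Continuous (symMat n j) :=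
  (IsLinearMap.mk' (symMat n j) (symMat_isLinearMap n j)).continuous_of_finiteDimensional

/-- the symmetric gradient `E u = (∇u + ∇uᵀ)/2` on `ℝ^n`, as a first-order operator: `B j v = (e_j ⊗ v + v ⊗ e_j)/2`, an `n × n` matrix with the
Frobenius inner product -/
noncomputable def symGrad (n : ℕ) (j : Fin n) : E n →L[ℝ] EuclideanSpace ℝ (Fin n × Fin n) :=
  ⟨IsLinearMap.mk' (symMat n j) (symMat_isLinearMap n j), symMat_continuous n j⟩

end BDJ
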