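import Pool.Agent.BDJ.Grid

/-!
# The packing lemma on a line (row PACKL)

One-dimensional statement. `I` a finite family of intervals `A i` with levels `lev i`. A point `t` is flagged at level `k` (`ρ = 2^(-k)`, `l = 2^(-a) ρ`) if
the window `[t - 6 l, t + 6 l]` misses all the intervals of level `≥ k + r`, while both `[t, t + ρ]` and `[t - ρ, t]` meet some interval of level `≥ k + r`.
Then `∑_k 2^k |flagged at level k| ≤ a * (number of nonempty intervals)`.

Proof. Let `t` be flagged at level `k`. The intervals of level `≥ k+r` meeting `[t - ρ, t]` lie to the left of `t - 6 l` (they are intervals, and miss the window), so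
`e i := sSup (A i) ≤ t - 6 l`, `e i ≥ t - ρ`; choose one, `i`, with the largest `e i` (finite family): say that `t` is assigned to `i`. So
`t ∈ [e i + 6 l, e i + ρ]`, an interval of length `≤ ρ = 2^(-k)`: `2^k |{t assigned to i at level k}| ≤ 1`.
For a given `i` the levels `k` at which some `t` is assigned to `i` lie in a window of length `a`: suppose `t` at level `k` and `t'` at level `k' < k` are both assigned
to `i` (`ρ' = 2^(-k')`, `l' = 2^(-a) ρ'`). At level `k` there is an interval of level `≥ k + r ≥ k' + r` with a point `q ∈ [t, t + ρ]`, so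
`e i < q ≤ e i + 2 ρ` . At level `k'` there is no point of any interval of level `≥ k' + r` in `(e i, t' + 6 l']`: such a point `q'` misses the window of `t'`, so
`q' < t' - 6 l'`, and `q' > e i ≥ t' - ρ'`, so its interval meets `[t' - ρ', t']`, its sup is `≤ e i` by maximality, contradiction. Hence
`q > t' + 6 l' ≥ e i + 12 l'`, so `2 ρ > 12 * 2^(-a) ρ'`, `2^(k-k') < 2^a / 6`, so `k - k' < a`.
Measurability is never needed (only outer measure, `measure_mono`, finite unions).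
-/

open MeasureTheory Set
open scoped ENNReal

namespace BDJ

/-- the point `t` is flagged at level `k` -/
def packl_flag {ι : Type*} (I : Finset ι) (lev : ι → ℕ) (A : ι → Set ℝ) (a r k : ℕ) : Set ℝ :=
  {t : ℝ |
      (∀ i ∈ I, k + r ≤ lev i → ∀ s ∈ Icc (t - 6 * sd (k + a)) (t + 6 * sd (k + a)), s ∉ A i) ∧
      (∃ i ∈ I, k + r ≤ lev i ∧ ∃ s ∈ Icc t (t + sd k), s ∈ A i) ∧
      (∃ i ∈ I, k + r ≤ lev i ∧ ∃ s ∈ Icc (t - sd k) t, s ∈ A i)}

/-- the point `t` is assigned to the interval `i` at level `k` -/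
def packl_asg {ι : Type*} (I : Finset ι) (lev : ι → ℕ) (A : ι → Set ℝ) (a r k : ℕ) (i : ι) : Set ℝ :=
  {t : ℝ | t ∈ packl_flag I lev A a r k ∧ t - sd k ≤ sSup (A i) ∧ sSup (A i) ≤ t - 6 * sd (k + a) ∧
    ∀ j ∈ I, k + r ≤ lev j → (∃ s ∈ Icc (t - sd k) t, s ∈ A j) → sSup (A j) ≤ sSup (A i)}

theorem packl_left {ι : Type*} (I : Finset ι) (lev : ι → ℕ) (A : ι → Set ℝ)
    (hA : ∀ i ∈ I, (A i).OrdConnected) {a r k : ℕ} {t : ℝ}
    (h : ∀ i ∈ I, k + r ≤ lev i → ∀ s ∈ Icc (t - 6 * sd (k + a)) (t + 6 * sd (k + a)), s ∉ A i)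
    {i : ι} (hi : i ∈ I) (hl : k + r ≤ lev i) {s : ℝ} (hs : s ≤ t) (hsA : s ∈ A i) {x : ℝ}
    (hx : x ∈ A i) : x < t - 6 * sd (k + a) := by
  have hl0 := sd_pos (k + a)
  by_contra hcon
  push Not at hcon
  have h1 : s < t - 6 * sd (k + a) := by
    by_contra h2
    push Not at h2
    exact h i hi hl s ⟨h2, by linarith⟩ hsA
  have h3 : t - 6 * sd (k + a) ∈ A i := (hA i hi).out hsA hx ⟨h1.le, hcon⟩
  exact h i hi hl _ ⟨le_rfl, by linarith⟩ h3

theorem packl_window {ι : Type*} (I : Finset ι) (lev : ι → ℕ) (A : ι → Set ℝ)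
    (hA : ∀ i ∈ I, (A i).OrdConnected) {a r k k' : ℕ} {t t' : ℝ} {i : ι}
    (ht : t ∈ packl_asg I lev A a r k i) (ht' : t' ∈ packl_asg I lev A a r k' i) (hk : k' ≤ k) :
    k < k' + a := by
  obtain ⟨⟨h1, ⟨j, hj, hjl, q, hq, hqA⟩, h3⟩, h4, h5, h6⟩ := ht
  obtain ⟨⟨g1, g2, g3⟩, g4, g5, g6⟩ := ht'
  have hl0 := sd_pos (k + a)
  have hl0' := sd_pos (k' + a)
  have hqe : sSup (A i) < q := by
    have := hq.1
    linarith
  have hjl' : k' + r ≤ lev j := by omega
  have key : t' + 6 * sd (k' + a) < q := by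
    by_contra hcon
    push Not at hcon
    have e1 : q < t' - 6 * sd (k' + a) := by
      by_contra h2
      push Not at h2
      exact g1 j hj hjl' q ⟨h2, hcon⟩ hqA
    have e2 : t' - sd k' ≤ q := by linarith
    have e3 : q ≤ t' := by linarith
    have e4 := g6 j hj hjl' ⟨q, ⟨e2, e3⟩, hqA⟩
    have e5 : q ≤ sSup (A j) := by
      refine le_csSup ⟨t' - 6 * sd (k' + a), fun x hx => ?_⟩ hqA
      exact (packl_left I lev A hA g1 hj hjl' e3 hqA hx).le
    linarith
  by_contra hcon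
  push Not at hcon
  have h7 : sd k ≤ sd (k' + a) := sd_anti hcon
  have h8 := hq.2
  linarith

theorem packl_exists {ι : Type*} (I : Finset ι) (lev : ι → ℕ) (A : ι → Set ℝ)
    (hA : ∀ i ∈ I, (A i).OrdConnected) {a r k : ℕ} {t : ℝ} (ht : t ∈ packl_flag I lev A a r k) :
    ∃ i ∈ I, (A i).Nonempty ∧ t ∈ packl_asg I lev A a r k i := by
  classical
  have ht0 := ht
  obtain ⟨h1, h2, ⟨i0, hi0, hl0, s0, hs0, hsA0⟩⟩ := ht
  obtain ⟨i, hi, hmax⟩ := Finset.exists_max_image
    (I.filter fun i => k + r ≤ lev i ∧ ∃ s ∈ Icc (t - sd k) t, s ∈ A i) (fun i => sSup (A i))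
    ⟨i0, Finset.mem_filter.2 ⟨hi0, hl0, s0, hs0, hsA0⟩⟩
  rw [Finset.mem_filter] at hi
  obtain ⟨hiI, hil, s, hs, hsA⟩ := hi
  have hlt : ∀ x ∈ A i, x ≤ t - 6 * sd (k + a) := fun x hx =>
    (packl_left I lev A hA h1 hiI hil hs.2 hsA hx).le
  refine ⟨i, hiI, ⟨s, hsA⟩, ht0, ?_, ?_, ?_⟩
  · exact hs.1.trans (le_csSup ⟨_, hlt⟩ hsA)
  · exact csSup_le ⟨s, hsA⟩ hlt
  · intro j hj hjl hjs
    exact hmax j (Finset.mem_filter.2 ⟨hj, hjl, hjs⟩)

theorem packl_tsum {a : ℕ} {p : ℕ → Prop} [DecidablePred p] (h : ∀ k k', p k → p k' → k' ≤ k → k < k' + a) :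
    ∑' k, (if p k then (1 : ℝ≥0∞) else 0) ≤ a := by
  classical
  by_cases hp : ∃ k, p k
  · have hk0 := Nat.find_spec hp
    set k0 := Nat.find hp with hk0def
    rw [tsum_eq_sum (s := Finset.Ico k0 (k0 + a))]
    · calc ∑ k ∈ Finset.Ico k0 (k0 + a), (if p k then (1 : ℝ≥0∞) else 0)
          ≤ ∑ k ∈ Finset.Ico k0 (k0 + a), (1 : ℝ≥0∞) := by
            refine Finset.sum_le_sum fun k _ => ?_
            split_ifs
            · exact le_rfl
            · exact zero_le
        _ = a := by simp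
    · intro k hk
      rw [if_neg]
      intro hpk
      apply hk
      rw [Finset.mem_Ico]
      have h1 : k0 ≤ k := Nat.find_min' hp hpk
      exact ⟨h1, h k k0 hpk hk0 h1⟩
  · push Not at hp
    simp [hp]

open Classical in
theorem pack_line {ι : Type*} (I : Finset ι) (lev : ι → ℕ) (A : ι → Set ℝ)
    (hA : ∀ i ∈ I, (A i).OrdConnected) (a r : ℕ) :
    ∑' k : ℕ, ENNReal.ofReal (2 ^ k) * volume {t : ℝ |
      (∀ i ∈ I, k + r ≤ lev i → ∀ s ∈ Icc (t - 6 * sd (k + a)) (t + 6 * sd (k + a)), s ∉ A i) ∧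
      (∃ i ∈ I, k + r ≤ lev i ∧ ∃ s ∈ Icc t (t + sd k), s ∈ A i) ∧
      (∃ i ∈ I, k + r ≤ lev i ∧ ∃ s ∈ Icc (t - sd k) t, s ∈ A i)} ≤
    a * (I.filter fun i => (A i).Nonempty).card := by
  set I' := I.filter fun i => (A i).Nonempty with hI'
  have h1 : ∀ k i, ENNReal.ofReal (2 ^ k) * volume (packl_asg I lev A a r k i) ≤
      if (packl_asg I lev A a r k i).Nonempty then 1 else 0 := by
    intro k i
    split_ifs with hne
    · have h2 : packl_asg I lev A a r k i ⊆ Icc (sSup (A i) + 6 * sd (k + a)) (sSup (A i) + sd k) := by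
        rintro t ⟨_, h3, h4, _⟩
        constructor <;> linarith
      calc ENNReal.ofReal (2 ^ k) * volume (packl_asg I lev A a r k i)
          ≤ ENNReal.ofReal (2 ^ k) * ENNReal.ofReal (sd k) := by
            gcongr
            refine (measure_mono h2).trans ?_
            rw [Real.volume_Icc]
            refine ENNReal.ofReal_le_ofReal ?_
            have := sd_pos (k + a)
            linarith
        _ = 1 := by
            rw [← ENNReal.ofReal_mul (by positivity), two_pow_mul_sd, ENNReal.ofReal_one]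
    · rw [not_nonempty_iff_eq_empty] at hne
      rw [hne, measure_empty, mul_zero]
  have h2 : ∀ k, ENNReal.ofReal (2 ^ k) * volume (packl_flag I lev A a r k) ≤
      ∑ i ∈ I', (if (packl_asg I lev A a r k i).Nonempty then (1 : ℝ≥0∞) else 0) := by
    intro k
    have h3 : packl_flag I lev A a r k ⊆ ⋃ i ∈ I', packl_asg I lev A a r k i := by
      intro t ht
      obtain ⟨i, hi, hne, hti⟩ := packl_exists I lev A hA ht
      simp only [mem_iUnion]
      exact ⟨i, Finset.mem_filter.2 ⟨hi, hne⟩, hti⟩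
    calc ENNReal.ofReal (2 ^ k) * volume (packl_flag I lev A a r k)
        ≤ ENNReal.ofReal (2 ^ k) * ∑ i ∈ I', volume (packl_asg I lev A a r k i) := by
          gcongr
          exact (measure_mono h3).trans (measure_biUnion_finset_le _ _)
      _ = ∑ i ∈ I', ENNReal.ofReal (2 ^ k) * volume (packl_asg I lev A a r k i) := by
          rw [Finset.mul_sum]
      _ ≤ _ := Finset.sum_le_sum fun i _ => h1 k i
  calc _ ≤ ∑' k : ℕ, ∑ i ∈ I', (if (packl_asg I lev A a r k i).Nonempty then (1 : ℝ≥0∞) else 0) :=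
        ENNReal.tsum_le_tsum h2
    _ = ∑ i ∈ I', ∑' k : ℕ, (if (packl_asg I lev A a r k i).Nonempty then (1 : ℝ≥0∞) else 0) :=
        Summable.tsum_finsetSum fun i _ => ENNReal.summable
    _ ≤ ∑ i ∈ I', (a : ℝ≥0∞) := by
        refine Finset.sum_le_sum fun i _ => packl_tsum ?_
        rintro k k' ⟨t, ht⟩ ⟨t', ht'⟩ hk
        exact packl_window I lev A hA ht ht' hk
    _ = a * I'.card := by
        rw [Finset.sum_const, nsmul_eq_mul, mul_comm]

end BDJ
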