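import Pool.Agent.BDJ.Sl
import Pool.Agent.BDJ.CostClaim
import Pool.Agent.BDJ.Shear

/-!
# Choice of the next sub-cube (row PAIRS)

Level `k+1` cube `j`, its parent `j' = par j` at level `k`; `ρ = sd (k+1)`, `ρ' = sd k = 2ρ`, `l = sd (k+1+a)`, `l' = sd (k+a) = 2 l`; `b = cube 0 (k+1+a) i`, `Sub a j i`, `n = d+1`.
`q > qc h a (k+1) i`, so `goodm h a (k+1) i q ≥ |b| 2^d / 4` (`le_goodm_of_qc_lt`, `vp_cube`).

For `(w, w')`, `z = w' - w`, `z 0 ≠ 0`, the slope is `m(z) = (z (succ c) / z 0)_c`, `z = z 0 • dir m(z)`.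
`G_+ = {(w,w') : w ∈ b, ρ/2 ≤ z 0 ≤ ρ, m(z) ∈ M, rm h ρ w (dir m(z)) ≤ q}`, `G_- = {(w,w') : w ∈ b, ρ/2 ≤ -z 0 ≤ ρ, m(z) ∈ M, rm h ρ w (-dir m(z)) ≤ q}`.
By `polar` for fixed `w` (for `G_-` after `z ↦ -z`): `|G_+| + |G_-| ≥ (ρ/2)(ρ/2)^d goodm ≥ (ρ/2)^n |b| 2^d/4 = ρ^n |b| / 8`.
In both cases `w' = w + s • v` with `v = ± dir m`, `s = |z 0| ∈ [ρ/2, ρ]`, and the mass of the segment from `w` to `w'` is at most `q`, so by `line`
(the segment is in `big 3 0 k j'`), `|e i (w' - w) (u w' - u w)| = s^deg |e i v (u w' - u w)| ≤ ρ^deg C0 q` (`‖v‖ = 1`).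
All the `w'` lie in the half-open threefold enlargement of `(k,j')`, which is the disjoint union of the `(3*2^a)^n` sub-cubes `i'` with `Sub a j' i'`, each of volume `l'^n`.
If the sub-cubes with index in `N` (total volume `≤ (ρ')^n / 2^(n+4) = ρ^n/16`) are removed, the remaining `i'` carry `≥ ρ^n |b|/16` of `G_+ ∪ G_-`, so
one of them satisfies `|(G_+ ∪ G_-) ∩ (b × b')| ≥ (ρ^n |b|/16) / (3 * 2^a)^n = |b| |b'| / (16 * 6^n)`, since `l'^n = (2 * 2^(-a) ρ)^n`.
-/

open MeasureTheory Set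
open scoped ENNReal NNReal

namespace BDJ

variable {d : ℕ} {V : Type*} [NormedAddCommGroup V] [NormedSpace ℝ V] [FiniteDimensional ℝ V]

/-- slope of a vector -/
noncomputable def pairs_sl (z : X d) : Y d := fun c => z c.succ / z 0

theorem pairs_sl_smul {s : ℝ} (hs : s ≠ 0) (m : Y d) : pairs_sl (s • dir m) = m := by
  funext c
  simp [pairs_sl, dir_zero, dir_succ, hs]

theorem pairs_smul_sl {z : X d} (hz : z 0 ≠ 0) : z 0 • dir (pairs_sl z) = z := by
  funext c
  refine Fin.cases ?_ (fun c => ?_) c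
  · simp [dir_zero]
  · simp only [Pi.smul_apply, dir_succ, pairs_sl, smul_eq_mul]
    field_simp

theorem pairs_sl_neg (z : X d) : pairs_sl (-z) = pairs_sl z := by
  funext c
  simp [pairs_sl, neg_div_neg_eq]

theorem pairs_measurable_sl : Measurable (pairs_sl : X d → Y d) := by
  apply measurable_pi_lambda
  intro c
  exact (measurable_pi_apply _).div (measurable_pi_apply _)

theorem pairs_meas_D {A : Set (Y d)} (hA : MeasurableSet A) (ρ : ℝ) :
    MeasurableSet {z : X d | ρ / 2 ≤ z 0 ∧ z 0 ≤ ρ ∧ pairs_sl z ∈ A} := by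
  have h0 : Measurable fun z : X d => z 0 := measurable_pi_apply 0
  have h1 : MeasurableSet {z : X d | ρ / 2 ≤ z 0} := measurableSet_le measurable_const h0
  have h2 : MeasurableSet {z : X d | z 0 ≤ ρ} := measurableSet_le h0 measurable_const
  exact h1.inter (h2.inter (pairs_measurable_sl hA))

theorem pairs_pol1 {A : Set (Y d)} (hA : MeasurableSet A) {ρ : ℝ} (hρ : 0 < ρ) :
    ENNReal.ofReal ((ρ / 2) ^ (d + 1)) * volume A ≤
      volume {z : X d | ρ / 2 ≤ z 0 ∧ z 0 ≤ ρ ∧ pairs_sl z ∈ A} := by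
  set D := {z : X d | ρ / 2 ≤ z 0 ∧ z 0 ≤ ρ ∧ pairs_sl z ∈ A} with hD
  have hDm : MeasurableSet D := pairs_meas_D hA ρ
  have hDs : D ⊆ {z : X d | 0 < z 0} := by
    intro z hz
    have := hz.1
    show 0 < z 0
    linarith
  have e1 : volume D = ∫⁻ z in {z : X d | 0 < z 0}, D.indicator 1 z := by
    rw [lintegral_indicator_one hDm, Measure.restrict_apply hDm, inter_eq_left.mpr hDs]
  have hf : Measurable (D.indicator (1 : X d → ℝ≥0∞)) := measurable_one.indicator hDm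
  rw [e1, polar hf]
  have h3 : ∀ s ∈ Icc (ρ / 2) ρ, ENNReal.ofReal ((ρ / 2) ^ d) * volume A ≤
      ENNReal.ofReal (s ^ d) * ∫⁻ m : Y d, D.indicator 1 (s • dir m) := by
    intro s hs
    have hs0 : 0 < s := by linarith [hs.1]
    have e2 : ∀ m : Y d, D.indicator (1 : X d → ℝ≥0∞) (s • dir m) =
        A.indicator (1 : Y d → ℝ≥0∞) m := by
      intro m
      by_cases hm : m ∈ A
      · have : s • dir m ∈ D := by
          refine ⟨?_, ?_, ?_⟩
          · simpa [dir_zero] using hs.1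
          · simpa [dir_zero] using hs.2
          · rw [pairs_sl_smul hs0.ne']; exact hm
        rw [indicator_of_mem this, indicator_of_mem hm]
        rfl
      · have : s • dir m ∉ D := by
          intro h
          apply hm
          have := h.2.2
          rwa [pairs_sl_smul hs0.ne'] at this
        rw [indicator_of_notMem this, indicator_of_notMem hm]
    have e3 : ∫⁻ m : Y d, D.indicator (1 : X d → ℝ≥0∞) (s • dir m) = volume A := by
      rw [← lintegral_indicator_one hA]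
      exact lintegral_congr e2
    rw [e3]
    gcongr
    exact hs.1
  calc ENNReal.ofReal ((ρ / 2) ^ (d + 1)) * volume A
      = ∫⁻ s in Icc (ρ / 2) ρ, ENNReal.ofReal ((ρ / 2) ^ d) * volume A := by
        rw [setLIntegral_const, Real.volume_Icc]
        have : ρ - ρ / 2 = ρ / 2 := by ring
        rw [this, pow_succ, ENNReal.ofReal_mul (by positivity)]
        ring
    _ ≤ ∫⁻ s in Icc (ρ / 2) ρ, ENNReal.ofReal (s ^ d) * ∫⁻ m : Y d, D.indicator 1 (s • dir m) :=
        setLIntegral_mono' measurableSet_Icc h3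
    _ ≤ ∫⁻ s in Ioi (0 : ℝ), ENNReal.ofReal (s ^ d) * ∫⁻ m : Y d, D.indicator 1 (s • dir m) := by
        apply lintegral_mono_set
        intro s hs
        show 0 < s
        linarith [hs.1]

theorem pairs_pol2 {A : Set (Y d)} (hA : MeasurableSet A) {ρ : ℝ} (hρ : 0 < ρ) {σ : ℝ}
    (hσ : σ = 1 ∨ σ = -1) : ENNReal.ofReal ((ρ / 2) ^ (d + 1)) * volume A ≤
      volume {z : X d | ρ / 2 ≤ σ * z 0 ∧ σ * z 0 ≤ ρ ∧ pairs_sl z ∈ A} := by
  rcases hσ with rfl | rfl
  · simpa only [one_mul] using pairs_pol1 hA hρ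
  · have e1 : {z : X d | ρ / 2 ≤ (-1) * z 0 ∧ (-1) * z 0 ≤ ρ ∧ pairs_sl z ∈ A} =
        Neg.neg ⁻¹' {z : X d | ρ / 2 ≤ z 0 ∧ z 0 ≤ ρ ∧ pairs_sl z ∈ A} := by
      ext z
      simp only [mem_ofPred_eq, mem_preimage, Pi.neg_apply, pairs_sl_neg, neg_mul, one_mul]
    rw [e1, Measure.measure_preimage_neg]
    exact pairs_pol1 hA hρ

theorem pairs_meas_D2 (σ : ℝ) {A : Set (Y d)} (hA : MeasurableSet A) (ρ : ℝ) :
    MeasurableSet {z : X d | ρ / 2 ≤ σ * z 0 ∧ σ * z 0 ≤ ρ ∧ pairs_sl z ∈ A} := by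
  have h00 : Measurable fun z : X d => z 0 := measurable_pi_apply 0
  have h0 : Measurable fun z : X d => σ * z 0 := h00.const_mul σ
  have h1 : MeasurableSet {z : X d | ρ / 2 ≤ σ * z 0} := measurableSet_le measurable_const h0
  have h2 : MeasurableSet {z : X d | σ * z 0 ≤ ρ} := measurableSet_le h0 measurable_const
  exact h1.inter (h2.inter (pairs_measurable_sl hA))

/-- the pairs of points given by pairs (point, slope) -/
def pairs_G (σ ρ : ℝ) (A : Set (X d × Y d)) : Set (X d × X d) :=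
  {p | ρ / 2 ≤ σ * (p.2 - p.1) 0 ∧ σ * (p.2 - p.1) 0 ≤ ρ ∧ (p.1, pairs_sl (p.2 - p.1)) ∈ A}

theorem pairs_meas_G (σ ρ : ℝ) {A : Set (X d × Y d)} (hA : MeasurableSet A) :
    MeasurableSet (pairs_G σ ρ A) := by
  have h00 : Measurable fun p : X d × X d => p.2 - p.1 := measurable_snd.sub measurable_fst
  have h0 : Measurable fun p : X d × X d => σ * (p.2 - p.1) 0 :=
    ((measurable_pi_apply 0).comp h00).const_mul σ
  have h1 : MeasurableSet {p : X d × X d | ρ / 2 ≤ σ * (p.2 - p.1) 0} :=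
    measurableSet_le measurable_const h0
  have h2 : MeasurableSet {p : X d × X d | σ * (p.2 - p.1) 0 ≤ ρ} :=
    measurableSet_le h0 measurable_const
  have h3 : Measurable fun p : X d × X d => (p.1, pairs_sl (p.2 - p.1)) :=
    measurable_fst.prodMk (pairs_measurable_sl.comp h00)
  exact h1.inter (h2.inter (h3 hA))

theorem pairs_prod {A : Set (X d × Y d)} (hA : MeasurableSet A) {ρ : ℝ} (hρ : 0 < ρ) {σ : ℝ}
    (hσ : σ = 1 ∨ σ = -1) : ENNReal.ofReal ((ρ / 2) ^ (d + 1)) * vp d A ≤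
      (volume.prod volume) (pairs_G σ ρ A) := by
  rw [vp, Measure.prod_apply hA, Measure.prod_apply (pairs_meas_G σ ρ hA),
    ← lintegral_const_mul _ (measurable_measure_prodMk_left hA)]
  apply lintegral_mono
  intro w
  have hAw : MeasurableSet (Prod.mk w ⁻¹' A) := measurable_prodMk_left hA
  have h1 := pairs_pol2 hAw hρ hσ
  have e1 : Prod.mk w ⁻¹' (pairs_G σ ρ A) = (fun h => h - w) ⁻¹'
      {z : X d | ρ / 2 ≤ σ * z 0 ∧ σ * z 0 ≤ ρ ∧ pairs_sl z ∈ Prod.mk w ⁻¹' A} := by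
    ext w'
    rfl
  show ENNReal.ofReal ((ρ / 2) ^ (d + 1)) * volume (Prod.mk w ⁻¹' A) ≤
    volume (Prod.mk w ⁻¹' (pairs_G σ ρ A))
  have e2 := (measurePreserving_sub_right (volume : Measure (X d)) w).measure_preimage
    (pairs_meas_D2 σ hAw ρ).nullMeasurableSet
  rw [e1, e2]
  exact h1

theorem pairs_norm_dir {σ : ℝ} (hσ : σ = 1 ∨ σ = -1) {m : Y d} (hm : m ∈ slopes d) :
    ‖σ • dir m‖ = 1 := by
  rcases hσ with rfl | rfl
  · rw [one_smul, norm_dir_le hm]
  · rw [neg_smul, one_smul, norm_neg, norm_dir_le hm]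

theorem pairs_sub {a k : ℕ} {j i : Idx d} (hs : Sub a j i) {w w' : X d}
    (hw : w ∈ cube 0 (k + 1 + a) i) (hz : ‖w' - w‖ ≤ sd (k + 1)) :
    Sub a (par j) (idx 0 (k + a) w') := by
  apply exists_Sub
  intro c
  have h1 := cube_subset_of_Sub hs hw c
  have h2 : |w' c - w c| ≤ sd (k + 1) := by
    have := norm_le_pi_norm (w' - w) c
    rw [Pi.sub_apply, Real.norm_eq_abs] at this
    exact this.trans hz
  have h3 := abs_le.mp h2
  have hsd : 0 < sd (k + 1) := sd_pos _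
  have hk : sd k = 2 * sd (k + 1) := by rw [sd_succ]; ring
  have h4 : 2 * (par j c) ≤ j c ∧ j c ≤ 2 * (par j c) + 1 := by
    simp only [par]
    omega
  have h5 : (2 : ℝ) * (par j c : ℤ) ≤ j c := by exact_mod_cast h4.1
  have h6 : (j c : ℝ) ≤ 2 * (par j c : ℤ) + 1 := by exact_mod_cast h4.2
  rw [hk]
  constructor
  · nlinarith [h1.1, h3.1]
  · nlinarith [h1.2, h3.2]

omit [FiniteDimensional ℝ V] in
theorem pairs_point (S : Slicing d V) {u : X d → V} {h : X d → ℝ≥0∞} {U : Set (X d)}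
    (hsp : SStrain S u h U) {a k : ℕ} {j i : Idx d} (hU : big 3 0 k (par j) ⊆ U)
    (hs : Sub a j i) {q : ℝ} (hq : 0 < q) {σ : ℝ} (hσ : σ = 1 ∨ σ = -1) {w : X d} {m : Y d}
    {s : ℝ} (hw : w ∈ cube 0 (k + 1 + a) i) (hm : m ∈ slopes d) (hs0 : 0 ≤ s)
    (hs1 : s ≤ sd (k + 1)) (hr : rm h (sd (k + 1)) w (σ • dir m) ≤ ENNReal.ofReal q)
    (β : Fin S.N) : |S.e β (s • (σ • dir m)) (u (w + s • (σ • dir m)) - u w)| ≤
      S.C0 * q * sd k ^ S.deg := by
  have hv := pairs_norm_dir hσ hm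
  have hseg : ∀ r ∈ Icc 0 s, w + r • (σ • dir m) ∈ U := by
    intro r hr
    apply hU
    apply big_subset_par (by norm_num)
    apply mem_big_three_of_Sub hs hw
    rw [add_sub_cancel_left, norm_smul, hv, mul_one, Real.norm_eq_abs, abs_of_nonneg hr.1]
    exact hr.2.trans hs1
  have h1 := hsp.line β w (σ • dir m) s hs0 hseg
  rw [hv, one_pow, mul_one] at h1
  have h2 : ENNReal.ofReal |S.e β (σ • dir m) (u (w + s • (σ • dir m)) - u w)| ≤
      ENNReal.ofReal (S.C0 * q) := by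
    rw [ENNReal.ofReal_mul S.C0_pos.le]
    refine h1.trans ?_
    gcongr
    exact (rm_mono h hs1 w _).trans hr
  have h3 := (ENNReal.ofReal_le_ofReal_iff (mul_nonneg S.C0_pos.le hq.le)).mp h2
  rw [S.e_smul, _root_.smul_apply, smul_eq_mul, abs_mul, abs_of_nonneg (by positivity)]
  have h4 : s ^ S.deg ≤ sd k ^ S.deg :=
    pow_le_pow_left₀ hs0 (hs1.trans (sd_anti (Nat.le_succ k))) _
  calc s ^ S.deg * |S.e β (σ • dir m) (u (w + s • (σ • dir m)) - u w)|
      ≤ sd k ^ S.deg * (S.C0 * q) :=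
        mul_le_mul h4 h3 (abs_nonneg _) (pow_nonneg (sd_pos k).le _)
    _ = S.C0 * q * sd k ^ S.deg := by ring

theorem pairs_meas_A {h : X d → ℝ≥0∞} (hh : Measurable h) (σ ρ : ℝ) (q : ℝ≥0∞) {b : Set (X d)}
    (hb : MeasurableSet b) : MeasurableSet {p : X d × Y d | p.1 ∈ b ∧ p.2 ∈ slopes d ∧
      rm h ρ p.1 (σ • dir p.2) ≤ q} := by
  have h1 : Measurable fun p : X d × Y d => rm h ρ p.1 (σ • dir p.2) :=
    (measurable_rm hh ρ).comp
      (measurable_fst.prodMk ((continuous_dir.measurable.comp measurable_snd).const_smul σ))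
  exact (measurable_fst hb).inter ((measurable_snd measurableSet_slopes).inter
    (measurableSet_le h1 measurable_const))

theorem pairs (S : Slicing d V) {u : X d → V} {h : X d → ℝ≥0∞} {U : Set (X d)}
    (hsp : SStrain S u h U)
    (a k : ℕ) (j i : Idx d) (hU : big 3 0 k (par j) ⊆ U) (hs : Sub a j i)
    {q : ℝ} (hq : qc h a (k + 1) i < ENNReal.ofReal q)
    (N : Set (Idx d)) (hN : ∑' i' : N, volume (cube (0 : X d) (k + a) i') ≤
      ENNReal.ofReal (sd k ^ (d + 1) / 2 ^ (d + 5))) :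
    ∃ i' : Idx d, i' ∉ N ∧ Sub a (par j) i' ∧
      (16 * 6 ^ (d + 1) : ℝ≥0∞)⁻¹ *
          (volume (cube (0 : X d) (k + 1 + a) i) * volume (cube (0 : X d) (k + a) i')) ≤
        (volume.prod volume) {p : X d × X d | p.1 ∈ cube 0 (k + 1 + a) i ∧ p.2 ∈ cube 0 (k + a) i' ∧
          ∀ β, |S.e β (p.2 - p.1) (u p.2 - u p.1)| ≤ S.C0 * q * sd k ^ S.deg} := by
  classical
  have hq' : 0 < ENNReal.ofReal q := lt_of_le_of_lt zero_le hq
  have hq0 : 0 < q := ENNReal.ofReal_pos.mp hq'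
  have hρ : 0 < sd (k + 1) := sd_pos _
  have hgood := le_goodm_of_qc_lt a (k + 1) i hq
  set b := cube (0 : X d) (k + 1 + a) i with hb
  have hbm : MeasurableSet b := measurableSet_cube _ _ _
  set A : ℝ → Set (X d × Y d) := fun σ => {p : X d × Y d | p.1 ∈ b ∧ p.2 ∈ slopes d ∧
      rm h (sd (k + 1)) p.1 (σ • dir p.2) ≤ ENNReal.ofReal q} with hA
  have hAm : ∀ σ, MeasurableSet (A σ) := fun σ => pairs_meas_A hsp.meas σ _ _ hbm
  have hgood2 : goodm h a (k + 1) i (ENNReal.ofReal q) = vp d (A 1) + vp d (A (-1)) := by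
    simp only [goodm, hA, one_smul, neg_smul]
    rfl
  set G : ℝ → Set (X d × X d) := fun σ => pairs_G σ (sd (k + 1)) (A σ) with hG
  have hGm : ∀ σ, MeasurableSet (G σ) := fun σ => pairs_meas_G σ _ (hAm σ)
  set T : Idx d → Set (X d × X d) := fun i' => {p : X d × X d | p.1 ∈ b ∧
    p.2 ∈ cube 0 (k + a) i' ∧
      ∀ β, |S.e β (p.2 - p.1) (u p.2 - u p.1)| ≤ S.C0 * q * sd k ^ S.deg} with hT
  -- inclusion
  have hincl : ∀ σ : ℝ, (σ = 1 ∨ σ = -1) → G σ ⊆ ⋃ i' ∈ (finite_Sub a (par j)).toFinset, T i' := by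
    intro σ hσ p hp
    obtain ⟨hp1, hp2, hp3⟩ := hp
    obtain ⟨hw, hm, hr⟩ := hp3
    have hσ2 : σ * σ = 1 := by rcases hσ with rfl | rfl <;> norm_num
    set z := p.2 - p.1 with hz
    have hz0 : z 0 ≠ 0 := by
      intro h0
      rw [h0, mul_zero] at hp1
      linarith
    have hzz : (σ * z 0) • (σ • dir (pairs_sl z)) = z := by
      rw [smul_smul]
      have : σ * z 0 * σ = z 0 := by linear_combination (z 0) * hσ2
      rw [this, pairs_smul_sl hz0]
    have hs0 : 0 ≤ σ * z 0 := by linarith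
    have hp2' : p.2 = p.1 + (σ * z 0) • (σ • dir (pairs_sl z)) := by
      rw [hzz, hz]; abel
    have hnz : ‖z‖ ≤ sd (k + 1) := by
      rw [← hzz, norm_smul, pairs_norm_dir hσ hm, mul_one, Real.norm_eq_abs, abs_of_nonneg hs0]
      exact hp2
    rw [mem_iUnion₂]
    refine ⟨idx 0 (k + a) p.2, ?_, ?_⟩
    · rw [Set.Finite.mem_toFinset]
      exact pairs_sub hs hw hnz
    · refine ⟨hw, mem_cube_idx _ _ _, ?_⟩
      intro β
      have := pairs_point S hsp hU hs hq0 hσ hw hm hs0 hp2 hr β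
      rw [← hp2', hzz] at this
      exact this
  have hdisj : Disjoint (G 1) (G (-1)) := by
    rw [Set.disjoint_left]
    intro p hp hp'
    have h1 := hp.1
    have h2 := hp'.1
    simp only [one_mul, neg_mul] at h1 h2
    linarith
  have hlow : ENNReal.ofReal ((sd (k + 1) / 2) ^ (d + 1)) * (vp d (b ×ˢ slopes d) / 4) ≤
      ∑ i' ∈ (finite_Sub a (par j)).toFinset, (volume.prod volume) (T i') := by
    calc ENNReal.ofReal ((sd (k + 1) / 2) ^ (d + 1)) * (vp d (b ×ˢ slopes d) / 4)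
        ≤ ENNReal.ofReal ((sd (k + 1) / 2) ^ (d + 1)) * (vp d (A 1) + vp d (A (-1))) := by
          rw [← hgood2]
          exact mul_le_mul_right hgood _
      _ ≤ (volume.prod volume) (G 1) + (volume.prod volume) (G (-1)) := by
          rw [mul_add]
          exact add_le_add (pairs_prod (hAm 1) hρ (Or.inl rfl)) (pairs_prod (hAm (-1)) hρ (Or.inr rfl))
      _ = (volume.prod volume) (G 1 ∪ G (-1)) := (measure_union hdisj (hGm (-1))).symm
      _ ≤ (volume.prod volume) (⋃ i' ∈ (finite_Sub a (par j)).toFinset, T i') :=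
          measure_mono (union_subset (hincl 1 (Or.inl rfl)) (hincl (-1) (Or.inr rfl)))
      _ ≤ ∑ i' ∈ (finite_Sub a (par j)).toFinset, (volume.prod volume) (T i') :=
          measure_biUnion_finset_le _ _
  -- counting
  by_contra hcon
  push Not at hcon
  set F := (finite_Sub a (par j)).toFinset with hF
  set l := sd (k + 1 + a) with hl
  set ρ := sd (k + 1) with hρdef
  have hl0 : 0 < l := sd_pos _
  have hsk : sd k = 2 * ρ := by rw [hρdef, sd_succ]; ring
  have hll : sd (k + a) = 2 * ρ * sd a := by rw [sd_add, hsk]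
  have hvb : volume b = ENNReal.ofReal (l ^ (d + 1)) := volume_cube _ _ _
  have hvb' : ∀ i', volume (cube (0 : X d) (k + a) i') = ENNReal.ofReal (sd (k + a) ^ (d + 1)) :=
    fun i' => volume_cube _ _ _
  have hlow2 : ENNReal.ofReal ((ρ / 2) ^ (d + 1)) * (vp d (b ×ˢ slopes d) / 4) =
      ENNReal.ofReal (ρ ^ (d + 1) * l ^ (d + 1) / 16) +
        ENNReal.ofReal (ρ ^ (d + 1) * l ^ (d + 1) / 16) := by
    rw [hb, vp_cube]
    have e2 : (2 : ℝ≥0∞) ^ d = ENNReal.ofReal ((2 : ℝ) ^ d) := by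
      rw [ENNReal.ofReal_pow (by norm_num)]
      norm_num
    have e4 : (4 : ℝ≥0∞) = ENNReal.ofReal 4 := by norm_num
    rw [e2, e4, ← ENNReal.ofReal_mul (by positivity), ← ENNReal.ofReal_div_of_pos (by norm_num),
      ← ENNReal.ofReal_mul (by positivity), ← ENNReal.ofReal_add (by positivity) (by positivity)]
    congr 1
    rw [div_pow, pow_succ 2 d]
    field_simp
    ring
  rw [hlow2] at hlow
  have hsplit : ∑ i' ∈ F, (volume.prod volume) (T i') =
      ∑ i' ∈ F with i' ∈ N, (volume.prod volume) (T i') +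
        ∑ i' ∈ F with i' ∉ N, (volume.prod volume) (T i') :=
    (Finset.sum_filter_add_sum_filter_not _ _ _).symm
  have hTle : ∀ i', (volume.prod volume) (T i') ≤ volume b * volume (cube (0 : X d) (k + a) i') := by
    intro i'
    rw [← Measure.prod_prod]
    apply measure_mono
    intro p hp
    exact ⟨hp.1, hp.2.1⟩
  have hpart1 : ∑ i' ∈ F with i' ∈ N, (volume.prod volume) (T i') ≤
      ENNReal.ofReal (ρ ^ (d + 1) * l ^ (d + 1) / 16) := by
    calc ∑ i' ∈ F with i' ∈ N, (volume.prod volume) (T i')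
        ≤ ∑ i' ∈ F with i' ∈ N, volume b * volume (cube (0 : X d) (k + a) i') :=
          Finset.sum_le_sum fun i' _ => hTle i'
      _ = volume b * ∑ i' ∈ F with i' ∈ N, volume (cube (0 : X d) (k + a) i') := by
          rw [Finset.mul_sum]
      _ ≤ volume b * ∑' i' : N, volume (cube (0 : X d) (k + a) i') := by
          apply mul_le_mul_right
          rw [tsum_subtype N (fun i' => volume (cube (0 : X d) (k + a) i'))]
          calc ∑ i' ∈ F with i' ∈ N, volume (cube (0 : X d) (k + a) i')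
              = ∑ i' ∈ F with i' ∈ N, N.indicator (fun i' => volume (cube (0 : X d) (k + a) i')) i' := by
                apply Finset.sum_congr rfl
                intro i' hi'
                rw [indicator_of_mem (Finset.mem_filter.mp hi').2]
            _ ≤ _ := ENNReal.sum_le_tsum _
      _ ≤ volume b * ENNReal.ofReal (sd k ^ (d + 1) / 2 ^ (d + 5)) := mul_le_mul_right hN _
      _ = ENNReal.ofReal (ρ ^ (d + 1) * l ^ (d + 1) / 16) := by
          rw [hvb, ← ENNReal.ofReal_mul (by positivity), hsk, mul_pow]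
          congr 1
          have : (2 : ℝ) ^ (d + 5) = 2 ^ (d + 1) * 16 := by
            rw [show d + 5 = d + 1 + 4 by ring, pow_add]; norm_num
          rw [this]
          field_simp
  have hκ : (16 * 6 ^ (d + 1) : ℝ≥0∞)⁻¹ = ENNReal.ofReal (1 / (16 * 6 ^ (d + 1))) := by
    rw [one_div, ENNReal.ofReal_inv_of_pos (by positivity), ENNReal.ofReal_mul (by norm_num),
      ENNReal.ofReal_pow (by norm_num)]
    norm_num
  have hcard : (F.card : ℝ≥0∞) = ENNReal.ofReal ((3 * 2 ^ a) ^ (d + 1)) := by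
    have h1 := encard_Sub a (par j)
    rw [← Set.Finite.coe_toFinset (finite_Sub a (par j)), Set.encard_coe_eq_coe_finsetCard] at h1
    have h2 : F.card = (3 * 2 ^ a) ^ (d + 1) := by exact_mod_cast h1
    rw [h2]
    have : ((3 * 2 ^ a) ^ (d + 1) : ℝ) = (((3 * 2 ^ a) ^ (d + 1) : ℕ) : ℝ) := by push_cast; ring
    rw [this, ENNReal.ofReal_natCast]
  have hpart2 : ∀ i', ENNReal.ofReal ((3 * 2 ^ a) ^ (d + 1)) *
      ((16 * 6 ^ (d + 1) : ℝ≥0∞)⁻¹ * (volume b * volume (cube (0 : X d) (k + a) i'))) =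
      ENNReal.ofReal (ρ ^ (d + 1) * l ^ (d + 1) / 16) := by
    intro i'
    rw [hκ, hvb, hvb', ← ENNReal.ofReal_mul (by positivity), ← ENNReal.ofReal_mul (by positivity),
      ← ENNReal.ofReal_mul (by positivity)]
    congr 1
    have h2a : (2 : ℝ) ^ a * sd a = 1 := two_pow_mul_sd a
    have h3 : (3 * 2 ^ a : ℝ) ^ (d + 1) * sd (k + a) ^ (d + 1) = 6 ^ (d + 1) * ρ ^ (d + 1) := by
      rw [← mul_pow, ← mul_pow]
      congr 1
      rw [hll]
      linear_combination 6 * ρ * h2a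
    have h4 : (3 * 2 ^ a : ℝ) ^ (d + 1) * (1 / (16 * 6 ^ (d + 1)) * (l ^ (d + 1) * sd (k + a) ^ (d + 1)))
        = (3 * 2 ^ a : ℝ) ^ (d + 1) * sd (k + a) ^ (d + 1) * (1 / (16 * 6 ^ (d + 1)) * l ^ (d + 1)) := by
      ring
    rw [h4, h3]
    field_simp
  set Fn := F.filter (fun i' => i' ∉ N) with hFn
  have hpos : 0 < ENNReal.ofReal (ρ ^ (d + 1) * l ^ (d + 1) / 16) :=
    ENNReal.ofReal_pos.mpr (by positivity)
  have hfin : ENNReal.ofReal (ρ ^ (d + 1) * l ^ (d + 1) / 16) ≠ ⊤ := ENNReal.ofReal_ne_top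
  have hlt : ∑ i' ∈ Fn, (volume.prod volume) (T i') <
      ENNReal.ofReal (ρ ^ (d + 1) * l ^ (d + 1) / 16) := by
    rcases Finset.eq_empty_or_nonempty Fn with he | hne
    · rw [he, Finset.sum_empty]
      exact hpos
    · have h1 : ∑ i' ∈ Fn, (volume.prod volume) (T i') <
          ∑ i' ∈ Fn, (16 * 6 ^ (d + 1) : ℝ≥0∞)⁻¹ *
            (volume b * volume (cube (0 : X d) (k + a) i')) := by
        apply ENNReal.sum_lt_sum_of_nonempty hne
        intro i' hi'
        obtain ⟨hi1, hi2⟩ := Finset.mem_filter.mp hi'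
        exact hcon i' hi2 ((Set.Finite.mem_toFinset _).mp hi1)
      refine lt_of_lt_of_le h1 ?_
      have h2 : ∑ i' ∈ Fn, (16 * 6 ^ (d + 1) : ℝ≥0∞)⁻¹ *
            (volume b * volume (cube (0 : X d) (k + a) i')) =
          (Fn.card : ℝ≥0∞) * ((16 * 6 ^ (d + 1) : ℝ≥0∞)⁻¹ *
            (volume b * ENNReal.ofReal (sd (k + a) ^ (d + 1)))) := by
        rw [← nsmul_eq_mul, ← Finset.sum_const]
        apply Finset.sum_congr rfl
        intro i' _
        rw [hvb']
      rw [h2, ← hpart2 i, hvb']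
      apply mul_le_mul_left
      rw [← hcard]
      exact_mod_cast Finset.card_filter_le _ _
  have hfinal : ∑ i' ∈ F, (volume.prod volume) (T i') <
      ENNReal.ofReal (ρ ^ (d + 1) * l ^ (d + 1) / 16) +
        ENNReal.ofReal (ρ ^ (d + 1) * l ^ (d + 1) / 16) := by
    rw [hsplit]
    exact ENNReal.add_lt_add_of_le_of_lt (ne_top_of_le_ne_top hfin hpart1) hpart1 hlt
  exact absurd hlow (not_le.mpr hfinal)

end BDJ
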