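import Mathlib

/-!
# A lemma on pencils of matrices (row PL-A)

`A0, A1` complex matrices with `K` rows and `M` columns such that `(a • A0 + b • A1) v = 0` with `(a,b) ≠ 0` implies `v = 0`. If a vector `w` belongs to the range of `A1 - s • A0` for every `s ∈ ℂ`, then `w = 0`.

Proof. For each injective `J : Fin M → Fin K` (choice of `M` rows) let `D_J(s) = det (A1 - s A0)_J`, `N_J(s) = adj((A1 - s A0)_J) w_J ∈ ℂ[s]^M`. If `(A1 - s A0) v(s) = w` then `D_J(s) v(s) = N_J(s)` (Cramer). For every `s` the matrix `A1 - s A0` has rank `M`, so some `D_J(s) ≠ 0`: the polynomials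
`D_J ∈ ℂ[s]` have no common root, so (PID, algebraically closed) there are `c_J ∈ ℂ[s]` with `∑_J c_J D_J = 1`. Put `V(s) = ∑_J c_J(s) N_J(s)`, a polynomial vector; `V(s) = ∑ c_J(s) D_J(s) v(s) = v(s)`. So `(A1 - s A0) V(s) = w` for all `s`, an identity of polynomial vectors. If `V ≠ 0`,
let `V_m s^m` be its leading term: the coefficient of `s^(m+1)` on the left is `- A0 V_m`, and it is `0` on the right since `m + 1 ≥ 1`; so `A0 V_m = 0`, `V_m = 0` (take `(a,b) = (1,0)`), contradiction. So `V = 0`, `w = 0`.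
-/

namespace BDJ

open Polynomial in
/-- the pencil as a polynomial matrix -/
noncomputable def pencil_mat {K M : ℕ} (A0 A1 : Matrix (Fin K) (Fin M) ℂ) :
    Matrix (Fin K) (Fin M) ℂ[X] := Matrix.of fun k j => C (A1 k j) - X * C (A0 k j)

open Polynomial in
theorem pencil_eval {K M : ℕ} (A0 A1 : Matrix (Fin K) (Fin M) ℂ) (s : ℂ) (y : Fin M → ℂ[X])
    (k : Fin K) : ((pencil_mat A0 A1).mulVec y k).eval s =
      (A1 - s • A0).mulVec (fun j => (y j).eval s) k := by
  simp only [Matrix.mulVec, dotProduct, eval_finsetSum, pencil_mat, Matrix.of_apply, eval_mul,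
    eval_sub, eval_C, eval_X, Matrix.sub_apply, Matrix.smul_apply, smul_eq_mul]

open Polynomial in
theorem pencil_div {n : ℕ} (s : ℂ) (x : Fin n → ℂ[X]) (h : ∀ k, (x k).eval s = 0) :
    ∃ x' : Fin n → ℂ[X], x = (X - C s) • x' := by
  have h1 : ∀ k, ∃ q, x k = (X - C s) * q := fun k => dvd_iff_isRoot.2 (h k)
  choose x' hx' using h1
  exact ⟨x', funext fun k => by rw [hx' k]; rfl⟩

open Polynomial in
/-- a polynomial solution vanishes -/
theorem pencil_fin {K M : ℕ} (A0 A1 : Matrix (Fin K) (Fin M) ℂ)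
    (hinj : ∀ v : Fin M → ℂ, A0.mulVec v = 0 → v = 0) (w : Fin K → ℂ) (V : Fin M → ℂ[X])
    (hV : (pencil_mat A0 A1).mulVec V = fun k => C (w k)) : V = 0 := by
  have key : ∀ n : ℕ, (∀ j, (V j).coeff (n + 1) = 0) → ∀ j, (V j).coeff n = 0 := by
    intro n hn
    have h1 : A0.mulVec (fun j => (V j).coeff n) = 0 := by
      funext k
      have h2 := congrArg (fun p : ℂ[X] => p.coeff (n + 1)) (congrFun hV k)
      simp only [Matrix.mulVec, dotProduct, finsetSum_coeff, pencil_mat, Matrix.of_apply,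
        coeff_C_succ] at h2
      have h3 : ∀ j, ((C (A1 k j) - X * C (A0 k j)) * V j).coeff (n + 1) =
          - (A0 k j * (V j).coeff n) := by
        intro j
        rw [sub_mul, coeff_sub, coeff_C_mul, hn j, mul_zero, zero_sub, mul_assoc, coeff_X_mul,
          coeff_C_mul]
      rw [Finset.sum_congr rfl fun j _ => h3 j, Finset.sum_neg_distrib, neg_eq_zero] at h2
      simpa [Matrix.mulVec, dotProduct] using h2
    intro j
    exact congrFun (hinj _ h1) j
  have key2 : ∀ m n : ℕ, (∀ j, (V j).coeff (n + m) = 0) → ∀ j, (V j).coeff n = 0 := by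
    intro m
    induction m with
    | zero => exact fun n hn => hn
    | succ m ih =>
      intro n hn
      refine ih n (key (n + m) hn)
  funext j
  ext n
  rw [Pi.zero_apply, coeff_zero]
  refine key2 (∑ i, (V i).natDegree + 1) n (fun i => ?_) j
  apply coeff_eq_zero_of_natDegree_lt
  have h1 : (V i).natDegree ≤ ∑ i, (V i).natDegree :=
    Finset.single_le_sum (f := fun i => (V i).natDegree) (fun _ _ => Nat.zero_le _)
      (Finset.mem_univ i)
  omega

open Polynomial in
/-- the range contains the constant vector -/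
theorem pencil_range {K M : ℕ} (A0 A1 : Matrix (Fin K) (Fin M) ℂ)
    (hinj : ∀ s : ℂ, ∀ v : Fin M → ℂ, (A1 - s • A0).mulVec v = 0 → v = 0)
    (w : Fin K → ℂ) (hw : ∀ s : ℂ, ∃ v : Fin M → ℂ, (A1 - s • A0).mulVec v = w) :
    ∃ V : Fin M → ℂ[X], (pencil_mat A0 A1).mulVec V = fun k => C (w k) := by
  set f : (Fin M → ℂ[X]) →ₗ[ℂ[X]] (Fin K → ℂ[X]) := (pencil_mat A0 A1).mulVecLin with hf
  set N : Submodule ℂ[X] (Fin K → ℂ[X]) := LinearMap.range f with hN
  have htor1 : ∀ (s : ℂ) (q : (Fin K → ℂ[X]) ⧸ N), (X - C s) • q = 0 → q = 0 := by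
    intro s q hq
    obtain ⟨x, rfl⟩ := N.mkQ_surjective q
    rw [← map_smul, Submodule.mkQ_apply, Submodule.Quotient.mk_eq_zero] at hq
    obtain ⟨y, hy⟩ := hq
    have h1 : ∀ j, (y j).eval s = 0 := by
      have h2 : (A1 - s • A0).mulVec (fun j => (y j).eval s) = 0 := by
        funext k
        rw [← pencil_eval]
        have h3 : (pencil_mat A0 A1).mulVec y = (X - C s) • x := hy
        rw [h3]
        simp
      exact fun j => congrFun (hinj s _ h2) j
    obtain ⟨y', hy'⟩ := pencil_div s y h1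
    have h4 : (X - C s) • f y' = (X - C s) • x := by
      rw [← map_smul, ← hy', hy]
    have h5 : f y' = x := by
      funext k
      have h6 := congrFun h4 k
      simp only [Pi.smul_apply, smul_eq_mul] at h6
      exact mul_left_cancel₀ (X_sub_C_ne_zero s) h6
    rw [Submodule.mkQ_apply, Submodule.Quotient.mk_eq_zero]
    exact ⟨y', h5⟩
  have htor : ∀ (n : ℕ) (p : ℂ[X]), p.natDegree = n → p ≠ 0 →
      ∀ q : (Fin K → ℂ[X]) ⧸ N, p • q = 0 → q = 0 := by
    intro n
    induction n with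
    | zero =>
      intro p hp hp0 q hq
      rw [eq_C_of_natDegree_eq_zero hp] at hq hp0
      have hc : p.coeff 0 ≠ 0 := fun h => hp0 (by rw [h, C_0])
      have h1 : C (p.coeff 0)⁻¹ • (C (p.coeff 0) • q) = q := by
        rw [smul_smul, ← C_mul, inv_mul_cancel₀ hc, C_1, one_smul]
      rw [← h1, hq, smul_zero]
    | succ n ih =>
      intro p hp hp0 q hq
      obtain ⟨s, hs⟩ := IsAlgClosed.exists_root p (by
        intro h
        have := natDegree_eq_zero_iff_degree_le_zero.2 h.le
        omega)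
      obtain ⟨p', hp'⟩ := dvd_iff_isRoot.2 hs
      have hp'0 : p' ≠ 0 := by
        rintro rfl
        rw [mul_zero] at hp'
        exact hp0 hp'
      have hdeg : p'.natDegree = n := by
        have h1 := congrArg natDegree hp'
        rw [natDegree_mul (X_sub_C_ne_zero s) hp'0, natDegree_X_sub_C, hp] at h1
        omega
      rw [hp', mul_smul] at hq
      exact ih p' hdeg hp'0 q (htor1 s _ hq)
  have : Module.IsTorsionFree ℂ[X] ((Fin K → ℂ[X]) ⧸ N) := by
    refine Module.IsTorsionFree.of_smul_eq_zero fun p q h => ?_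
    by_cases hp : p = 0
    · exact Or.inl hp
    · exact Or.inr (htor _ p rfl hp q h)
  have hfree : Module.Free ℂ[X] ((Fin K → ℂ[X]) ⧸ N) := Module.free_of_finite_type_torsion_free'
  set b := Module.Free.chooseBasis ℂ[X] ((Fin K → ℂ[X]) ⧸ N) with hb
  have hzero : N.mkQ (fun k => C (w k)) = 0 := by
    apply b.ext_elem
    intro i
    rw [map_zero, Finsupp.zero_apply]
    apply Polynomial.funext
    intro s
    obtain ⟨v, hv⟩ := hw s
    obtain ⟨x', hx'⟩ := pencil_div s ((fun k => C (w k)) - f fun j => C (v j)) (by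
      intro k
      have h1 : (f (fun j => C (v j)) k).eval s =
          (A1 - s • A0).mulVec (fun j => (C (v j)).eval s) k := pencil_eval A0 A1 s _ k
      rw [Pi.sub_apply, eval_sub, h1]
      simp only [eval_C]
      rw [hv, sub_self])
    have h2 : N.mkQ (fun k => C (w k)) = (X - C s) • N.mkQ x' := by
      rw [← map_smul, ← hx', map_sub]
      have h3 : N.mkQ (f fun j => C (v j)) = 0 := by
        rw [Submodule.mkQ_apply, Submodule.Quotient.mk_eq_zero]
        exact ⟨_, rfl⟩
      rw [h3, sub_zero]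
    rw [h2, map_smul, Finsupp.smul_apply, smul_eq_mul, eval_mul, eval_sub, eval_X, eval_C,
      sub_self, zero_mul, eval_zero]
  rw [Submodule.mkQ_apply, Submodule.Quotient.mk_eq_zero] at hzero
  obtain ⟨V, hV⟩ := hzero
  exact ⟨V, hV⟩

theorem pencil {K M : ℕ} (A0 A1 : Matrix (Fin K) (Fin M) ℂ)
    (hinj : ∀ a b : ℂ, (a ≠ 0 ∨ b ≠ 0) → ∀ v : Fin M → ℂ, (a • A0 + b • A1).mulVec v = 0 → v = 0)
    (w : Fin K → ℂ) (hw : ∀ s : ℂ, ∃ v : Fin M → ℂ, (A1 - s • A0).mulVec v = w) : w = 0 := by
  have h1 : ∀ s : ℂ, ∀ v : Fin M → ℂ, (A1 - s • A0).mulVec v = 0 → v = 0 := by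
    intro s v hv
    refine hinj (-s) 1 (Or.inr one_ne_zero) v ?_
    rw [one_smul, neg_smul, neg_add_eq_sub]
    exact hv
  have h0 : ∀ v : Fin M → ℂ, A0.mulVec v = 0 → v = 0 := by
    intro v hv
    refine hinj 1 0 (Or.inl one_ne_zero) v ?_
    rw [one_smul, zero_smul, add_zero]
    exact hv
  obtain ⟨V, hV⟩ := pencil_range A0 A1 h1 w hw
  have hV0 := pencil_fin A0 A1 h0 w V hV
  rw [hV0, Matrix.mulVec_zero] at hV
  funext k
  have h2 := congrFun hV k
  exact (Polynomial.C_eq_zero.1 h2.symm)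

end BDJ
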