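import Pool.Agent.BDJ.PlaneA
import Pool.Agent.BDJ.GenSl

/-!
# All `ℂ`-elliptic operators in the plane are sliceable (row PL-C)

`B : Fin 2 → (V →L W)` `ℂ`-elliptic. Choose orthonormal bases (`stdOrthonormalBasis`): `M = dim V`, `K = dim W`, real matrices `A j` (`K × M`) of `B j`: `A j k c = ⟪w k, B j (v c)⟫`. For `J : Fin (M+1) → Fin K` let `η_J(z) = ∑ k, mnr (A 0) (A 1) J z (Pi.single k 1) • w k ∈ W`, so that
`⟪η_J(z), x⟫ = mnr J z (coordinates of x)`. With `g_j(v) = ⟪η_J(z), B j v⟫`: `mnr_self` says `z 1 g_0 = z 0 g_1`. Put `e_J(z) v = z 0 g_0(v) + z 1 g_1(v)`, homogeneous polynomial of degree `M + 1` in `z`, and `η'_J(z) = (z 0 ² + z 1 ²) η_J(z)`: then `⟪η'_J(z), B j v⟫ = z j e_J(z) v`,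
`‖η'_J(z)‖ ≤ C0 ‖z‖^(M+2)` (homogeneous of degree `M + 2`, continuous, bounded on the unit sphere; finitely many `J`). So `deg = M+1`, index set: the functions `Fin (M+1) → Fin K` (finite, `Fintype.equivFin`).

`span`: let `e_J(z) v = 0` for all `J`, `z`. Then `mnr J z (coordinates of B j v) = g_j(v) = 0` for all `z ≠ 0`, `J`, `j` (as `|z|² g_j = z_j e_J`), and for `z = 0` by continuity (or homogeneity; if `M = 0`, `V` is trivial). So `mnr_span` gives `B j v = 0` for `j = 0, 1` and ellipticity gives `v = 0`.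
-/

open MeasureTheory Set
open scoped ENNReal NNReal InnerProductSpace

namespace BDJ

variable {V W : Type*} [NormedAddCommGroup V] [InnerProductSpace ℝ V]
    [FiniteDimensional ℝ V] [NormedAddCommGroup W] [InnerProductSpace ℝ W] [FiniteDimensional ℝ W]

/-- the matrix of `B j` in orthonormal bases -/
noncomputable def plane_A (B : Fin 2 → V →L[ℝ] W) (j : Fin 2) :
    Matrix (Fin (Module.finrank ℝ W)) (Fin (Module.finrank ℝ V)) ℝ :=
  Matrix.of fun k c => ⟪stdOrthonormalBasis ℝ W k, B j (stdOrthonormalBasis ℝ V c)⟫_ℝ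

/-- coordinates -/
noncomputable def plane_c (x : W) : Fin (Module.finrank ℝ W) → ℝ :=
  fun k => ⟪stdOrthonormalBasis ℝ W k, x⟫_ℝ

theorem plane_c_add (x y : W) : plane_c (x + y) = plane_c x + plane_c y := by
  funext k
  simp only [plane_c, inner_add_right, Pi.add_apply]

theorem plane_c_smul (a : ℝ) (x : W) : plane_c (a • x) = a • plane_c x := by
  funext k
  simp only [plane_c, real_inner_smul_right, Pi.smul_apply, smul_eq_mul]

theorem plane_sum (x : W) : ∑ k, plane_c x k • stdOrthonormalBasis ℝ W k = x :=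
  (stdOrthonormalBasis ℝ W).sum_repr' x

theorem plane_c_eq_zero {x : W} (h : plane_c x = 0) : x = 0 := by
  rw [← plane_sum x, h]
  simp

theorem plane_c_basis (c : Fin (Module.finrank ℝ V) → ℝ) :
    plane_c (∑ i, c i • stdOrthonormalBasis ℝ V i) = c := by
  funext k
  simp only [plane_c]
  exact (stdOrthonormalBasis ℝ V).orthonormal.inner_right_fintype c k

theorem plane_mulVec (B : Fin 2 → V →L[ℝ] W) (j : Fin 2) (v : V) :
    (plane_A B j).mulVec (plane_c v) = plane_c (B j v) := by
  funext k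
  have h1 : B j v = ∑ c, plane_c v c • B j (stdOrthonormalBasis ℝ V c) := by
    conv_lhs => rw [← plane_sum v]
    rw [map_sum]
    refine Finset.sum_congr rfl fun c _ => ?_
    rw [map_smul]
  simp only [Matrix.mulVec, dotProduct, plane_A, Matrix.of_apply]
  conv_rhs => rw [h1]
  simp only [plane_c, inner_sum, real_inner_smul_right]
  refine Finset.sum_congr rfl fun c _ => ?_
  ring

/-- the minor as a functional -/
noncomputable def plane_eta (B : Fin 2 → V →L[ℝ] W)
    (J : Fin (Module.finrank ℝ V + 1) → Fin (Module.finrank ℝ W)) (z : Fin 2 → ℝ) : W :=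
  ∑ k, mnr (plane_A B 0) (plane_A B 1) J z (Pi.single k 1) • stdOrthonormalBasis ℝ W k

theorem plane_mnr_sum (B : Fin 2 → V →L[ℝ] W)
    (J : Fin (Module.finrank ℝ V + 1) → Fin (Module.finrank ℝ W)) (z : Fin 2 → ℝ)
    (b : Fin (Module.finrank ℝ W) → ℝ) :
    mnr (plane_A B 0) (plane_A B 1) J z b =
      ∑ k, b k * mnr (plane_A B 0) (plane_A B 1) J z (Pi.single k 1) := by
  set L : (Fin (Module.finrank ℝ W) → ℝ) →ₗ[ℝ] ℝ :=
    { toFun := mnr (plane_A B 0) (plane_A B 1) J z
      map_add' := mnr_add _ _ J z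
      map_smul' := fun c b => mnr_smul _ _ J z c b } with hL
  have h := L.pi_apply_eq_sum_univ b
  have h2 : ∀ k : Fin (Module.finrank ℝ W),
      (fun j => if k = j then (1 : ℝ) else 0) = (Pi.single k 1 : Fin (Module.finrank ℝ W) → ℝ) := by
    intro k
    funext j
    rw [Pi.single_apply]
    by_cases hkj : k = j
    · rw [if_pos hkj, if_pos hkj.symm]
    · rw [if_neg hkj, if_neg (Ne.symm hkj)]
  simp only [h2] at h
  exact h

theorem plane_eta_inner (B : Fin 2 → V →L[ℝ] W)
    (J : Fin (Module.finrank ℝ V + 1) → Fin (Module.finrank ℝ W)) (z : Fin 2 → ℝ) (x : W) :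
    ⟪plane_eta B J z, x⟫_ℝ = mnr (plane_A B 0) (plane_A B 1) J z (plane_c x) := by
  rw [plane_mnr_sum, plane_eta, sum_inner]
  refine Finset.sum_congr rfl fun k _ => ?_
  rw [real_inner_smul_left, plane_c]
  ring

theorem plane_rel (B : Fin 2 → V →L[ℝ] W)
    (J : Fin (Module.finrank ℝ V + 1) → Fin (Module.finrank ℝ W)) (z : Fin 2 → ℝ) (v : V) :
    z 1 * ⟪plane_eta B J z, B 0 v⟫_ℝ = z 0 * ⟪plane_eta B J z, B 1 v⟫_ℝ := by
  have h := mnr_self (plane_A B 0) (plane_A B 1) J z (plane_c v)
  rw [Matrix.add_mulVec, Matrix.smul_mulVec, Matrix.smul_mulVec, plane_mulVec, plane_mulVec,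
    mnr_add, mnr_smul, mnr_smul, ← plane_eta_inner, ← plane_eta_inner] at h
  linarith

theorem plane_eta_homog (B : Fin 2 → V →L[ℝ] W)
    (J : Fin (Module.finrank ℝ V + 1) → Fin (Module.finrank ℝ W)) (s : ℝ) (z : Fin 2 → ℝ) :
    plane_eta B J (s • z) = s ^ (Module.finrank ℝ V) • plane_eta B J z := by
  rw [plane_eta, plane_eta, Finset.smul_sum]
  refine Finset.sum_congr rfl fun k _ => ?_
  rw [mnr_homog, mul_smul]

theorem plane_eta_cont (B : Fin 2 → V →L[ℝ] W)
    (J : Fin (Module.finrank ℝ V + 1) → Fin (Module.finrank ℝ W)) :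
    Continuous (plane_eta B J) := by
  unfold plane_eta
  refine continuous_finsetSum _ fun k _ => ?_
  exact (SepPoly.continuous (mnr_sepPoly (plane_A B 0) (plane_A B 1) J (Pi.single k 1))).smul
    continuous_const

/-- bound for homogeneous continuous functions -/
theorem plane_bound {F : Type*} [NormedAddCommGroup F] [NormedSpace ℝ F] {m : ℕ} (hm : 0 < m)
    (f : X 1 → F) (hf : Continuous f) (hs : ∀ (s : ℝ) (z : X 1), f (s • z) = s ^ m • f z) :
    ∃ C : ℝ, ∀ z, ‖f z‖ ≤ C * ‖z‖ ^ m := by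
  obtain ⟨C, hC⟩ := (isCompact_sphere (0 : X 1) 1).exists_bound_of_continuousOn hf.continuousOn
  refine ⟨C, fun z => ?_⟩
  rcases eq_or_ne z 0 with rfl | hz
  · have h0 := hs 0 0
    rw [zero_smul, zero_pow hm.ne', zero_smul] at h0
    rw [h0, norm_zero, norm_zero, zero_pow hm.ne', mul_zero]
  · have hz' : ‖z‖ ≠ 0 := norm_ne_zero_iff.2 hz
    have h1 := hC (‖z‖⁻¹ • z) (by
      rw [mem_sphere_zero_iff_norm, norm_smul, norm_inv, norm_norm, inv_mul_cancel₀ hz'])
    have h2 := hs ‖z‖ (‖z‖⁻¹ • z)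
    rw [smul_smul, mul_inv_cancel₀ hz', one_smul] at h2
    rw [h2, norm_smul, norm_pow, norm_norm, mul_comm]
    exact mul_le_mul_of_nonneg_right h1 (by positivity)

/-- the functional -/
noncomputable def plane_e (B : Fin 2 → V →L[ℝ] W)
    (J : Fin (Module.finrank ℝ V + 1) → Fin (Module.finrank ℝ W)) (z : Fin 2 → ℝ) : V →L[ℝ] ℝ :=
  (innerSL ℝ (plane_eta B J z)).comp (z 0 • B 0 + z 1 • B 1)

theorem plane_e_apply (B : Fin 2 → V →L[ℝ] W)
    (J : Fin (Module.finrank ℝ V + 1) → Fin (Module.finrank ℝ W)) (z : Fin 2 → ℝ) (v : V) :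
    plane_e B J z v = z 0 * ⟪plane_eta B J z, B 0 v⟫_ℝ + z 1 * ⟪plane_eta B J z, B 1 v⟫_ℝ := by
  simp only [plane_e, ContinuousLinearMap.comp_apply, _root_.add_apply,
    _root_.smul_apply, innerSL_apply_apply, inner_add_right, real_inner_smul_right]

theorem plane_key (B : Fin 2 → V →L[ℝ] W)
    (J : Fin (Module.finrank ℝ V + 1) → Fin (Module.finrank ℝ W)) (z : Fin 2 → ℝ) (v : V)
    (j : Fin 2) : (z 0 ^ 2 + z 1 ^ 2) * ⟪plane_eta B J z, B j v⟫_ℝ = z j * plane_e B J z v := by
  have h := plane_rel B J z v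
  rw [plane_e_apply]
  fin_cases j
  · simp only [Fin.zero_eta, Fin.isValue]
    linear_combination z 1 * h
  · simp only [Fin.mk_one, Fin.isValue]
    linear_combination -z 0 * h

theorem plane_inj (B : Fin 2 → V →L[ℝ] W) (hB : CElliptic B) (a b : ℂ) (hab : a ≠ 0 ∨ b ≠ 0)
    (v : Fin (Module.finrank ℝ V) → ℂ)
    (hv : (a • (plane_A B 0).map (algebraMap ℝ ℂ) +
      b • (plane_A B 1).map (algebraMap ℝ ℂ)).mulVec v = 0) : v = 0 := by
  set x : V := ∑ c, (v c).re • stdOrthonormalBasis ℝ V c with hx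
  set y : V := ∑ c, (v c).im • stdOrthonormalBasis ℝ V c with hy
  have hcx : plane_c x = fun c => (v c).re := plane_c_basis _
  have hcy : plane_c y = fun c => (v c).im := plane_c_basis _
  have hk : ∀ k, a * (∑ c, ((plane_A B 0 k c : ℝ) : ℂ) * v c) +
      b * (∑ c, ((plane_A B 1 k c : ℝ) : ℂ) * v c) = 0 := by
    intro k
    have h1 := congrFun hv k
    simp only [Matrix.mulVec, dotProduct, Matrix.add_apply, Matrix.smul_apply, Matrix.map_apply,
      smul_eq_mul, Pi.zero_apply, Complex.coe_algebraMap] at h1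
    rw [Finset.mul_sum, Finset.mul_sum, ← Finset.sum_add_distrib, ← h1]
    refine Finset.sum_congr rfl fun c _ => ?_
    ring
  have hre : ∀ (j : Fin 2) k, (∑ c, ((plane_A B j k c : ℝ) : ℂ) * v c).re =
      plane_c (B j x) k := by
    intro j k
    rw [← plane_mulVec, hcx, Complex.re_sum]
    simp only [Matrix.mulVec, dotProduct, Complex.re_ofReal_mul]
  have him : ∀ (j : Fin 2) k, (∑ c, ((plane_A B j k c : ℝ) : ℂ) * v c).im =
      plane_c (B j y) k := by
    intro j k
    rw [← plane_mulVec, hcy, Complex.im_sum]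
    simp only [Matrix.mulVec, dotProduct, Complex.im_ofReal_mul]
  have hξ : (![a, b] : Fin 2 → ℂ) ≠ 0 := by
    intro h0
    have ha := congrFun h0 0
    have hb := congrFun h0 1
    simp at ha hb
    rcases hab with h | h
    · exact h ha
    · exact h hb
  obtain ⟨h1, h2⟩ := hB ![a, b] hξ x y (by
    rw [Fin.sum_univ_two]
    apply plane_c_eq_zero
    funext k
    have h3 := congrArg Complex.re (hk k)
    rw [Complex.add_re, Complex.mul_re, Complex.mul_re, hre, hre, him, him, Complex.zero_re] at h3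
    simp only [Matrix.cons_val_zero, Matrix.cons_val_one, sub_eq_add_neg, ← neg_smul,
      plane_c_add, plane_c_smul, Pi.add_apply, Pi.smul_apply, smul_eq_mul, Pi.zero_apply]
    linarith) (by
    rw [Fin.sum_univ_two]
    apply plane_c_eq_zero
    funext k
    have h3 := congrArg Complex.im (hk k)
    rw [Complex.add_im, Complex.mul_im, Complex.mul_im, hre, hre, him, him, Complex.zero_im] at h3
    simp only [Matrix.cons_val_zero, Matrix.cons_val_one,
      plane_c_add, plane_c_smul, Pi.add_apply, Pi.smul_apply, smul_eq_mul, Pi.zero_apply]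
    linarith)
  funext c
  apply Complex.ext
  · rw [← congrFun hcx c, h1]
    simp [plane_c]
  · rw [← congrFun hcy c, h2]
    simp [plane_c]

theorem plane_span (B : Fin 2 → V →L[ℝ] W) (hB : CElliptic B) (v : V)
    (h : ∀ (J : Fin (Module.finrank ℝ V + 1) → Fin (Module.finrank ℝ W)) (z : Fin 2 → ℝ),
      plane_e B J z v = 0) : v = 0 := by
  rcases Nat.eq_zero_or_pos (Module.finrank ℝ V) with hM | hM
  · have : Subsingleton V := Module.finrank_zero_iff.1 hM
    exact Subsingleton.elim _ _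
  · have hB0 : ∀ j, B j v = 0 := by
      intro j
      apply plane_c_eq_zero
      apply mnr_span (plane_A B 0) (plane_A B 1) (plane_inj B hB)
      intro J z
      rcases eq_or_ne z 0 with rfl | hz
      · have h1 := mnr_homog (plane_A B 0) (plane_A B 1) J 0 0 (plane_c (B j v))
        rw [zero_smul, zero_pow hM.ne', zero_mul] at h1
        exact h1
      · have h1 := plane_key B J z v j
        rw [h J z, mul_zero, plane_eta_inner] at h1
        have h2 : z 0 ^ 2 + z 1 ^ 2 ≠ 0 := by
          intro h3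
          apply hz
          have h4 : z 0 = 0 := by nlinarith [sq_nonneg (z 0), sq_nonneg (z 1)]
          have h5 : z 1 = 0 := by nlinarith [sq_nonneg (z 0), sq_nonneg (z 1)]
          funext i
          fin_cases i
          · exact h4
          · exact h5
        exact (mul_eq_zero.1 h1).resolve_left h2
    have hξ : (![1, 0] : Fin 2 → ℂ) ≠ 0 := by
      intro h0
      have ha := congrFun h0 0
      simp at ha
    exact (hB ![1, 0] hξ v 0 (by simp [hB0]) (by simp [hB0])).1

/-- the slicing data -/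
noncomputable def plane_S (B : Fin 2 → V →L[ℝ] W) (hB : CElliptic B) : SData 1 V where
  N := Fintype.card (Fin (Module.finrank ℝ V + 1) → Fin (Module.finrank ℝ W))
  e i z := plane_e B ((Fintype.equivFin _).symm i) z
  deg := Module.finrank ℝ V + 1
  e_smul i s z := by
    ext v
    rw [_root_.smul_apply, plane_e_apply, plane_e_apply, plane_eta_homog,
      real_inner_smul_left, real_inner_smul_left]
    simp only [Pi.smul_apply, smul_eq_mul]
    ring
  e_sep i v := by
    have h1 : (fun z : X 1 => plane_e B ((Fintype.equivFin _).symm i) z v) = fun z =>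
        z 0 * mnr (plane_A B 0) (plane_A B 1) ((Fintype.equivFin _).symm i) z (plane_c (B 0 v)) +
        z 1 * mnr (plane_A B 0) (plane_A B 1) ((Fintype.equivFin _).symm i) z
          (plane_c (B 1 v)) := by
      funext z
      rw [plane_e_apply, plane_eta_inner, plane_eta_inner]
    rw [h1]
    exact (((sepPoly_coord 0).mul (mnr_sepPoly _ _ _ _)).add
      ((sepPoly_coord 1).mul (mnr_sepPoly _ _ _ _))).mono (Nat.add_comm _ _).le
  span v h := by
    refine plane_span B hB v fun J z => ?_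
    have h1 := h (Fintype.equivFin _ J) z
    rw [Equiv.symm_apply_apply] at h1
    exact h1

theorem exists_sdata_plane (B : Fin (1 + 1) → V →L[ℝ] W) (hB : CElliptic B) :
    ∃ (S : SData 1 V) (C0 : ℝ), ∀ (i : Fin S.N) (z : X 1), ∃ η : W, ‖η‖ ≤ C0 * ‖z‖ ^ (S.deg + 1) ∧
      ∀ (j : Fin (1 + 1)) (v : V), ⟪η, B j v⟫_ℝ = z j * S.e i z v := by
  have hb : ∀ J : Fin (Module.finrank ℝ V + 1) → Fin (Module.finrank ℝ W), ∃ C : ℝ, ∀ z : X 1,
      ‖(z 0 ^ 2 + z 1 ^ 2) • plane_eta B J z‖ ≤ C * ‖z‖ ^ (Module.finrank ℝ V + 1 + 1) := by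
    intro J
    refine plane_bound (m := Module.finrank ℝ V + 1 + 1) (by omega) _ ?_ ?_
    · exact (((continuous_apply 0).pow 2).add ((continuous_apply 1).pow 2)).smul
        (plane_eta_cont B J)
    · intro s z
      rw [plane_eta_homog, smul_smul, smul_smul]
      congr 1
      simp only [Pi.smul_apply, smul_eq_mul]
      ring
  choose C hC using hb
  refine ⟨plane_S B hB, ∑ J, |C J|, fun i z => ?_⟩
  set J := (Fintype.equivFin (Fin (Module.finrank ℝ V + 1) → Fin (Module.finrank ℝ W))).symm i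
    with hJ
  refine ⟨(z 0 ^ 2 + z 1 ^ 2) • plane_eta B J z, ?_, ?_⟩
  · refine (hC J z).trans ?_
    have h1 : C J ≤ ∑ J, |C J| := (le_abs_self _).trans
      (Finset.single_le_sum (f := fun J => |C J|) (fun _ _ => abs_nonneg _) (Finset.mem_univ J))
    exact mul_le_mul_of_nonneg_right h1 (by positivity)
  · intro j v
    rw [real_inner_smul_left]
    exact plane_key B J z v j

/-- **All `ℂ`-elliptic operators in the plane.** -/
theorem plane_main (B : Fin 2 → V →L[ℝ] W) (hB : CElliptic B)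
    {Ω : Set (E 2)} (hΩ : IsOpen Ω) {u : E 2 → V} {Bu : VectorMeasure (E 2) W} (h : IsBV B Ω u Bu) :
    μH[1] (discSet Ω u \ densSet Ω Bu) = 0 := by
  obtain ⟨S, C0, hη⟩ := exists_sdata_plane B hB
  have h1 := sliceable_main (d := 1) B S C0 hη hΩ h
  rwa [Nat.cast_one] at h1

end BDJ
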