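import Pool.Agent.BDJ.GridB

/-!
# Functions which are polynomial in each variable (row GEN-A)

`SepPoly D f`: on every line parallel to a coordinate axis `f` is a polynomial of degree at most `D`. This is the only notion of polynomial used.
`sepPoly_interp`: tensor product Lagrange interpolation at the nodes `0, 1, ..., D` in every variable (induct on the number of variables already interpolated: replace one coordinate at a time by
`f (update x i t) = ∑_k f (update x i k) L_k(t)`, `L_k = Lagrange basis`). Consequences: smoothness.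
-/

open MeasureTheory Set
open scoped ENNReal NNReal

namespace BDJ

/-- polynomial of degree at most `D` in each variable -/
def SepPoly {n : ℕ} (D : ℕ) (f : (Fin n → ℝ) → ℝ) : Prop :=
  ∀ (i : Fin n) (x : Fin n → ℝ), ∃ P : Polynomial ℝ, P.natDegree ≤ D ∧
    ∀ t : ℝ, f (Function.update x i t) = P.eval t

/-- the `k`-th Lagrange basis polynomial at the nodes `0, ..., D` -/
noncomputable def lag (D : ℕ) (k : Fin (D + 1)) : Polynomial ℝ :=
  Lagrange.basis Finset.univ (fun j : Fin (D + 1) => ((j : ℕ) : ℝ)) k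

variable {n : ℕ}

theorem SepPoly.mono {D D' : ℕ} (h : D ≤ D') {f : (Fin n → ℝ) → ℝ} (hf : SepPoly D f) :
    SepPoly D' f := by
  intro i x
  obtain ⟨P, h1, h2⟩ := hf i x
  exact ⟨P, h1.trans h, h2⟩

theorem sepPoly_const (D : ℕ) (c : ℝ) : SepPoly D (fun _ : Fin n → ℝ => c) := by
  intro i x
  exact ⟨Polynomial.C c, by simp, by simp⟩

theorem sepPoly_coord (i : Fin n) : SepPoly 1 (fun x : Fin n → ℝ => x i) := by
  intro j x
  by_cases h : i = j
  · subst h
    exact ⟨Polynomial.X, by simp, by simp⟩
  · exact ⟨Polynomial.C (x i), by simp, by simp [Function.update_of_ne h]⟩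

theorem SepPoly.add {D : ℕ} {f g : (Fin n → ℝ) → ℝ} (hf : SepPoly D f) (hg : SepPoly D g) :
    SepPoly D (fun x => f x + g x) := by
  intro i x
  obtain ⟨P, h1, h2⟩ := hf i x
  obtain ⟨Q, h3, h4⟩ := hg i x
  refine ⟨P + Q, (Polynomial.natDegree_add_le _ _).trans (max_le h1 h3), fun t => ?_⟩
  simp only [Polynomial.eval_add, h2, h4]

theorem SepPoly.const_mul {D : ℕ} {f : (Fin n → ℝ) → ℝ} (hf : SepPoly D f) (c : ℝ) :
    SepPoly D (fun x => c * f x) := by
  intro i x
  obtain ⟨P, h1, h2⟩ := hf i x
  refine ⟨Polynomial.C c * P, (Polynomial.natDegree_C_mul_le _ _).trans h1, fun t => ?_⟩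
  simp only [Polynomial.eval_mul, Polynomial.eval_C, h2]

theorem SepPoly.mul {D D' : ℕ} {f g : (Fin n → ℝ) → ℝ} (hf : SepPoly D f) (hg : SepPoly D' g) :
    SepPoly (D + D') (fun x => f x * g x) := by
  intro i x
  obtain ⟨P, h1, h2⟩ := hf i x
  obtain ⟨Q, h3, h4⟩ := hg i x
  refine ⟨P * Q, Polynomial.natDegree_mul_le.trans (Nat.add_le_add h1 h3), fun t => ?_⟩
  simp only [Polynomial.eval_mul, h2, h4]

theorem SepPoly.sum {ι : Type*} (s : Finset ι) {D : ℕ} {f : ι → (Fin n → ℝ) → ℝ}
    (hf : ∀ i ∈ s, SepPoly D (f i)) : SepPoly D (fun x => ∑ i ∈ s, f i x) := by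
  intro i x
  classical
  have h : ∀ j ∈ s, ∃ P : Polynomial ℝ, P.natDegree ≤ D ∧
      ∀ t : ℝ, f j (Function.update x i t) = P.eval t := fun j hj => hf j hj i x
  choose! P hP1 hP2 using h
  refine ⟨∑ j ∈ s, P j, Polynomial.natDegree_sum_le_of_forall_le _ _ fun j hj => hP1 j hj,
    fun t => ?_⟩
  rw [Polynomial.eval_finsetSum]
  exact Finset.sum_congr rfl fun j hj => hP2 j hj t

/-- affine change of variables (homothety and translation) -/
theorem SepPoly.comp_affine {D : ℕ} {f : (Fin n → ℝ) → ℝ} (hf : SepPoly D f) (a : Fin n → ℝ)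
    (l : ℝ) : SepPoly D (fun x => f (a + l • x)) := by
  intro i x
  obtain ⟨P, h1, h2⟩ := hf i (a + l • x)
  refine ⟨P.comp (Polynomial.C (a i) + Polynomial.C l * Polynomial.X), ?_, fun t => ?_⟩
  · refine Polynomial.natDegree_comp_le.trans ?_
    have h3 : (Polynomial.C (a i) + Polynomial.C l * Polynomial.X).natDegree ≤ 1 := by
      refine (Polynomial.natDegree_add_le _ _).trans (max_le (by simp) ?_)
      exact (Polynomial.natDegree_C_mul_le _ _).trans (by simp)
    exact (Nat.mul_le_mul h1 h3).trans (by simp)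
  · have h4 : a + l • Function.update x i t =
        Function.update (a + l • x) i (a i + l * t) := by
      funext j
      by_cases hj : j = i
      · subst hj
        simp
      · simp [Function.update_of_ne hj]
    show f (a + l • Function.update x i t) = _
    rw [h4, h2, Polynomial.eval_comp]
    simp

theorem lag_eval (D : ℕ) (k m : Fin (D + 1)) :
    (lag D k).eval ((m : ℕ) : ℝ) = if k = m then 1 else 0 := by
  have hinj : Set.InjOn (fun j : Fin (D + 1) => ((j : ℕ) : ℝ)) (Finset.univ : Finset (Fin (D + 1))) := by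
    intro a _ b _ hab
    have hab' : ((a : ℕ) : ℝ) = ((b : ℕ) : ℝ) := hab
    exact Fin.ext (by exact_mod_cast hab')
  unfold lag
  split_ifs with h
  · subst h
    exact Lagrange.eval_basis_self hinj (Finset.mem_univ k)
  · exact Lagrange.eval_basis_of_ne (v := fun j : Fin (D + 1) => ((j : ℕ) : ℝ)) h
      (Finset.mem_univ m)

theorem lag_natDegree (D : ℕ) (k : Fin (D + 1)) : (lag D k).natDegree ≤ D := by
  have hinj : Set.InjOn (fun j : Fin (D + 1) => ((j : ℕ) : ℝ)) (Finset.univ : Finset (Fin (D + 1))) := by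
    intro a _ b _ hab
    have hab' : ((a : ℕ) : ℝ) = ((b : ℕ) : ℝ) := hab
    exact Fin.ext (by exact_mod_cast hab')
  unfold lag
  rw [Lagrange.natDegree_basis hinj (Finset.mem_univ k)]
  simp

/-- a function polynomial in each variable which vanishes on the grid vanishes -/
theorem sepPoly_zero {D : ℕ} {f : (Fin n → ℝ) → ℝ} (hf : SepPoly D f)
    (h0 : ∀ k : Fin n → Fin (D + 1), f (fun i => ((k i : ℕ) : ℝ)) = 0) (x : Fin n → ℝ) :
    f x = 0 := by
  classical
  have key : ∀ s : Finset (Fin n), ∀ y : Fin n → ℝ,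
      (∀ i, i ∉ s → ∃ k : Fin (D + 1), y i = ((k : ℕ) : ℝ)) → f y = 0 := by
    intro s
    induction s using Finset.induction_on with
    | empty =>
      intro y hy
      choose k hk using fun i => hy i (Finset.notMem_empty i)
      have : y = fun i => ((k i : ℕ) : ℝ) := funext hk
      rw [this]
      exact h0 k
    | insert i s _ ih =>
      intro y hy
      obtain ⟨P, hP1, hP2⟩ := hf i y
      have hP0 : P = 0 := by
        refine Polynomial.eq_zero_of_natDegree_lt_card_of_eval_eq_zero P
          (f := fun j : Fin (D + 1) => ((j : ℕ) : ℝ)) ?_ (fun m => ?_) ?_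
        · intro a b hab
          have hab' : ((a : ℕ) : ℝ) = ((b : ℕ) : ℝ) := hab
          exact Fin.ext (by exact_mod_cast hab')
        · rw [← hP2]
          refine ih _ fun j hj => ?_
          by_cases hji : j = i
          · subst hji
            exact ⟨m, by simp⟩
          · rw [Function.update_of_ne hji]
            exact hy j (by simp [hji, hj])
        · rw [Fintype.card_fin]
          omega
      have h1 := hP2 (y i)
      rw [Function.update_eq_self, hP0, Polynomial.eval_zero] at h1
      exact h1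
  exact key Finset.univ x fun i hi => absurd (Finset.mem_univ i) hi

theorem sepPoly_lag (D : ℕ) (k : Fin n → Fin (D + 1)) (c : ℝ) :
    SepPoly D (fun x : Fin n → ℝ => (∏ i, (lag D (k i)).eval (x i)) * c) := by
  classical
  intro i x
  refine ⟨Polynomial.C ((∏ j ∈ Finset.univ.erase i, (lag D (k j)).eval (x j)) * c) * lag D (k i),
    (Polynomial.natDegree_C_mul_le _ _).trans (lag_natDegree D _), fun t => ?_⟩
  have h1 : ∏ j, (lag D (k j)).eval (Function.update x i t j) =
      (lag D (k i)).eval t * ∏ j ∈ Finset.univ.erase i, (lag D (k j)).eval (x j) := by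
    rw [← Finset.mul_prod_erase _ _ (Finset.mem_univ i), Function.update_self]
    congr 1
    refine Finset.prod_congr rfl fun j hj => ?_
    rw [Function.update_of_ne (Finset.ne_of_mem_erase hj)]
  show (∏ j, (lag D (k j)).eval (Function.update x i t j)) * c = _
  rw [h1, Polynomial.eval_mul, Polynomial.eval_C]
  ring

theorem sepPoly_interp {D : ℕ} {f : (Fin n → ℝ) → ℝ} (hf : SepPoly D f) (x : Fin n → ℝ) :
    f x = ∑ k : Fin n → Fin (D + 1), (∏ i, (lag D (k i)).eval (x i)) *
      f (fun i => ((k i : ℕ) : ℝ)) := by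
  classical
  set F : (Fin n → ℝ) → ℝ := fun x => ∑ k : Fin n → Fin (D + 1),
    (∏ i, (lag D (k i)).eval (x i)) * f (fun i => ((k i : ℕ) : ℝ)) with hF
  have h1 : SepPoly D F := SepPoly.sum _ fun k _ => sepPoly_lag D k _
  have h2 : SepPoly D (fun x => f x + (-1) * F x) := hf.add (h1.const_mul (-1))
  have h3 := sepPoly_zero h2 (fun m => ?_) x
  · have h4 : f x + (-1) * F x = 0 := h3
    show f x = F x
    linarith
  · have h5 : F (fun i => ((m i : ℕ) : ℝ)) = f (fun i => ((m i : ℕ) : ℝ)) := by
      rw [hF]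
      show ∑ k : Fin n → Fin (D + 1), (∏ i, (lag D (k i)).eval ((m i : ℕ) : ℝ)) *
        f (fun i => ((k i : ℕ) : ℝ)) = _
      rw [Finset.sum_eq_single m]
      · rw [Finset.prod_eq_one, one_mul]
        intro i _
        rw [lag_eval, if_pos rfl]
      · intro k _ hk
        obtain ⟨i, hi⟩ := Function.ne_iff.1 hk
        rw [Finset.prod_eq_zero (Finset.mem_univ i), zero_mul]
        rw [lag_eval, if_neg hi]
      · intro h
        exact absurd (Finset.mem_univ m) h
    show f _ + (-1) * F _ = 0
    rw [h5]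
    ring

theorem SepPoly.contDiff {D : ℕ} {f : (Fin n → ℝ) → ℝ} (hf : SepPoly D f) :
    ContDiff ℝ (⊤ : ℕ∞) f := by
  have h : f = fun x => ∑ k : Fin n → Fin (D + 1), (∏ i, (lag D (k i)).eval (x i)) *
      f (fun i => ((k i : ℕ) : ℝ)) := funext fun x => sepPoly_interp hf x
  rw [h]
  refine ContDiff.sum fun k _ => ContDiff.mul (contDiff_prod fun i _ => ?_) contDiff_const
  have h1 : ContDiff ℝ (⊤ : ℕ∞) fun t : ℝ => (lag D (k i)).eval t := by
    have h2 := Polynomial.contDiff_aeval (𝕜 := ℝ) (lag D (k i)) (⊤ : ℕ∞)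
    simpa using h2
  exact h1.comp (contDiff_apply ℝ ℝ i)

theorem SepPoly.continuous {D : ℕ} {f : (Fin n → ℝ) → ℝ} (hf : SepPoly D f) : Continuous f := by
  exact hf.contDiff.continuous

end BDJ
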