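import Pool.Agent.BDJ.Pencil
import Pool.Agent.BDJ.PolyFn

/-!
# Minors of the pencil (row PL-B)

`A0, A1` real matrices, `K` rows, `M` columns; `A(z) = - z 1 • A0 + z 0 • A1` for `z ∈ ℝ²`; for `J : Fin (M+1) → Fin K` and `b ∈ ℝ^K`, `mnr A0 A1 J z b = det [b | A(z)]` (rows `J`, first column `b`).

* linear in `b`, homogeneous of degree `M` and `SepPoly M` in `z` (Leibniz formula / each entry of the columns `≥ 1` is linear in `z`), `mnr_self`: it vanishes for `b = A(z) v` (the first column is a combination of the others).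
* `mnr_eq_dot`: there is a vector `mv J z ∈ ℝ^K` with `mnr J z b = ∑ k, mv J z k * b k` (Laplace expansion, or simply linearity in `b`: `mv J z k = mnr J z (Pi.single k 1)`).
* `mnr_span`: if the complexified pencil is injective (`hinj`) and all `mnr J z b = 0` then `b = 0`: for `z = (1,s)`, `s` real, the determinants are polynomials in `s` with real coefficients vanishing for all real `s`, so they vanish for all complex `s`; since `A1 - s A0` has rank `M` over `ℂ`, `b` is in its range over `ℂ`
  (the rank of `[b | A]` is at most `M`: if the columns `b, A` were linearly independent some `(M+1)`-minor would be nonzero). Apply `pencil`.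
-/

open MeasureTheory Set
open scoped ENNReal NNReal

namespace BDJ

/-- the `(M+1)`-minor with first column `b` -/
noncomputable def mnr {K M : ℕ} (A0 A1 : Matrix (Fin K) (Fin M) ℝ) (J : Fin (M + 1) → Fin K)
    (z : Fin 2 → ℝ) (b : Fin K → ℝ) : ℝ :=
  Matrix.det (Matrix.of fun (r c : Fin (M + 1)) =>
    (Fin.cons (α := fun _ => ℝ) (b (J r)) (fun c' : Fin M => -z 1 * A0 (J r) c' + z 0 * A1 (J r) c') c))

variable {K M : ℕ} (A0 A1 : Matrix (Fin K) (Fin M) ℝ)

/-- the matrix with first column replaced -/
private theorem plb_upd (J : Fin (M + 1) → Fin K) (z : Fin 2 → ℝ) (b : Fin K → ℝ) :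
    mnr A0 A1 J z b = Matrix.det (Matrix.updateCol (Matrix.of fun (r c : Fin (M + 1)) =>
      (Fin.cons (α := fun _ => ℝ) 0
        (fun c' : Fin M => -z 1 * A0 (J r) c' + z 0 * A1 (J r) c') c)) 0 (fun r => b (J r))) := by
  unfold mnr
  congr 1
  ext r c
  refine Fin.cases ?_ (fun c' => ?_) c
  · simp
  · rw [Matrix.updateCol_ne (Fin.succ_ne_zero c')]
    simp

theorem mnr_add (J : Fin (M + 1) → Fin K) (z : Fin 2 → ℝ) (b b' : Fin K → ℝ) :
    mnr A0 A1 J z (b + b') = mnr A0 A1 J z b + mnr A0 A1 J z b' := by
  rw [plb_upd, plb_upd, plb_upd, ← Matrix.det_updateCol_add]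
  rfl

theorem mnr_smul (J : Fin (M + 1) → Fin K) (z : Fin 2 → ℝ) (c : ℝ) (b : Fin K → ℝ) :
    mnr A0 A1 J z (c • b) = c * mnr A0 A1 J z b := by
  rw [plb_upd, plb_upd, ← Matrix.det_updateCol_smul]
  rfl

theorem mnr_homog (J : Fin (M + 1) → Fin K) (s : ℝ) (z : Fin 2 → ℝ) (b : Fin K → ℝ) :
    mnr A0 A1 J (s • z) b = s ^ M * mnr A0 A1 J z b := by
  have h : (Matrix.of fun (r c : Fin (M + 1)) =>
      (Fin.cons (α := fun _ => ℝ) (b (J r))
        (fun c' : Fin M => -(s • z) 1 * A0 (J r) c' + (s • z) 0 * A1 (J r) c') c)) =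
      (Matrix.of fun (r c : Fin (M + 1)) =>
      (Fin.cons (α := fun _ => ℝ) (b (J r))
        (fun c' : Fin M => -z 1 * A0 (J r) c' + z 0 * A1 (J r) c') c)) *
      Matrix.diagonal (Fin.cons (α := fun _ => ℝ) 1 (fun _ => s)) := by
    ext r c
    rw [Matrix.mul_diagonal]
    refine Fin.cases ?_ (fun c' => ?_) c
    · simp
    · simp only [Matrix.of_apply, Fin.cons_succ, Pi.smul_apply, smul_eq_mul]
      ring
  unfold mnr
  rw [h, Matrix.det_mul, Matrix.det_diagonal, Fin.prod_univ_succ]
  simp only [Fin.cons_zero, Fin.cons_succ, Finset.prod_const, Finset.card_univ, Fintype.card_fin,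
    one_mul]
  ring

private theorem plb_prod {n : ℕ} {ι : Type*} (s : Finset ι) (f : ι → (Fin n → ℝ) → ℝ)
    (hf : ∀ i ∈ s, SepPoly 1 (f i)) : SepPoly s.card (fun x => ∏ i ∈ s, f i x) := by
  classical
  induction s using Finset.induction_on with
  | empty => simpa using sepPoly_const (n := n) 0 1
  | insert a s ha ih =>
    rw [Finset.card_insert_of_notMem ha, add_comm]
    simp only [Finset.prod_insert ha]
    exact SepPoly.mul (hf a (Finset.mem_insert_self a s))
      (ih fun i hi => hf i (Finset.mem_insert_of_mem hi))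

theorem mnr_sepPoly (J : Fin (M + 1) → Fin K) (b : Fin K → ℝ) :
    SepPoly M (fun z : Fin 2 → ℝ => mnr A0 A1 J z b) := by
  have h : (fun z : Fin 2 → ℝ => mnr A0 A1 J z b) = fun z => ∑ σ : Equiv.Perm (Fin (M + 1)),
      (((Equiv.Perm.sign σ : ℤ) : ℝ) * b (J (σ 0))) *
        ∏ c' : Fin M, (-z 1 * A0 (J (σ c'.succ)) c' + z 0 * A1 (J (σ c'.succ)) c') := by
    funext z
    unfold mnr
    rw [Matrix.det_apply]
    refine Finset.sum_congr rfl fun σ _ => ?_
    rw [Fin.prod_univ_succ]
    simp only [Matrix.of_apply, Fin.cons_zero, Fin.cons_succ]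
    rw [Units.smul_def, zsmul_eq_mul]
    ring
  rw [h]
  refine SepPoly.sum _ fun σ _ => ?_
  refine SepPoly.const_mul ?_ _
  have h1 := plb_prod (n := 2) (Finset.univ : Finset (Fin M))
    (fun c' z => -z 1 * A0 (J (σ c'.succ)) c' + z 0 * A1 (J (σ c'.succ)) c') (by
      intro c' _
      have e1 := (sepPoly_coord (n := 2) 1).const_mul (-A0 (J (σ c'.succ)) c')
      have e2 := (sepPoly_coord (n := 2) 0).const_mul (A1 (J (σ c'.succ)) c')
      have e3 := e1.add e2
      have e4 : (fun z : Fin 2 → ℝ =>
          -z 1 * A0 (J (σ c'.succ)) c' + z 0 * A1 (J (σ c'.succ)) c') =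
          fun z => -A0 (J (σ c'.succ)) c' * z 1 + A1 (J (σ c'.succ)) c' * z 0 := by
        funext z; ring
      rw [e4]
      exact e3)
  simpa using h1

theorem mnr_self (J : Fin (M + 1) → Fin K) (z : Fin 2 → ℝ) (v : Fin M → ℝ) :
    mnr A0 A1 J z ((-z 1 • A0 + z 0 • A1).mulVec v) = 0 := by
  unfold mnr
  rw [← Matrix.exists_mulVec_eq_zero_iff]
  refine ⟨Fin.cons (α := fun _ => ℝ) (-1) v, ?_, ?_⟩
  · intro h
    have := congrFun h 0
    simp at this
  · funext r
    simp only [Matrix.mulVec, dotProduct, Fin.sum_univ_succ, Matrix.of_apply, Fin.cons_zero,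
      Fin.cons_succ, Matrix.add_apply, Matrix.smul_apply, smul_eq_mul, Pi.zero_apply]
    ring

private theorem plb_minor {K M : ℕ} (B : Matrix (Fin K) (Fin M) ℂ)
    (hB : ∀ w : Fin M → ℂ, B.mulVec w = 0 → w = 0) :
    ∃ J : Fin M → Fin K, (B.submatrix J id).det ≠ 0 := by
  classical
  have hrank : B.rank = M := by
    unfold Matrix.rank
    rw [LinearMap.finrank_range_of_inj, Module.finrank_fin_fun]
    rw [← LinearMap.ker_eq_bot, LinearMap.ker_eq_bot']
    intro w hw
    exact hB w (by simpa using hw)
  obtain ⟨κ, a, ha, hspan, hli⟩ := exists_linearIndependent' ℂ B.row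
  have : Finite κ := Finite.of_injective a ha
  letI : Fintype κ := Fintype.ofFinite κ
  have hcard : Fintype.card κ = M := by
    have h1 := finrank_span_eq_card hli
    rw [hspan, ← Matrix.rank_eq_finrank_span_row, hrank] at h1
    exact h1.symm
  let e : Fin M ≃ κ := (Fintype.equivFinOfCardEq hcard).symm
  refine ⟨a ∘ e, ?_⟩
  have h2 : LinearIndependent ℂ (B.submatrix (a ∘ e) id).row := by
    have := hli.comp e e.injective
    exact this
  rw [Matrix.linearIndependent_rows_iff_isUnit, Matrix.isUnit_iff_isUnit_det] at h2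
  exact h2.ne_zero

theorem mnr_span
    (hinj : ∀ a b : ℂ, (a ≠ 0 ∨ b ≠ 0) → ∀ v : Fin M → ℂ,
      (a • A0.map (algebraMap ℝ ℂ) + b • A1.map (algebraMap ℝ ℂ)).mulVec v = 0 → v = 0)
    (b : Fin K → ℝ) (h : ∀ (J : Fin (M + 1) → Fin K) (z : Fin 2 → ℝ), mnr A0 A1 J z b = 0) :
    b = 0 := by
  classical
  set A0' := A0.map (algebraMap ℝ ℂ) with hA0
  set A1' := A1.map (algebraMap ℝ ℂ) with hA1
  set b' : Fin K → ℂ := fun k => (b k : ℂ) with hb'
  have key : b' = 0 := by
    apply pencil A0' A1' hinj
    intro s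
    by_contra hcon
    push Not at hcon
    -- the polynomial matrix
    have hzero : ∀ J : Fin (M + 1) → Fin K,
        (Matrix.of fun (r c : Fin (M + 1)) => (Fin.cons (α := fun _ => ℂ) (b' (J r))
          (fun c' : Fin M => (A1' - s • A0') (J r) c') c)).det = 0 := by
      intro J
      set Q : Matrix (Fin (M + 1)) (Fin (M + 1)) (Polynomial ℝ) :=
        Matrix.of fun (r c : Fin (M + 1)) => (Fin.cons (α := fun _ => Polynomial ℝ)
          (Polynomial.C (b (J r))) (fun c' : Fin M => -Polynomial.X * Polynomial.C (A0 (J r) c') +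
            Polynomial.C (A1 (J r) c')) c) with hQ
      have hQ0 : Q.det = 0 := by
        apply Polynomial.funext
        intro x
        rw [Polynomial.eval_zero, ← Polynomial.coe_evalRingHom, RingHom.map_det]
        have h1 := h J ![1, x]
        unfold mnr at h1
        rw [← h1]
        congr 1
        ext r c
        refine Fin.cases ?_ (fun c' => ?_) c
        · simp [hQ]
        · simp [hQ]
          ring
      have h2 : (Polynomial.aeval s) Q.det = 0 := by rw [hQ0, map_zero]
      rw [← AlgHom.coe_toRingHom, RingHom.map_det] at h2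
      rw [← h2]
      congr 1
      ext r c
      refine Fin.cases ?_ (fun c' => ?_) c
      · simp [hQ, hb']
      · simp [hQ, hA0, hA1]
        ring
    obtain ⟨J, hJ⟩ := plb_minor (K := K) (M := M + 1)
      (Matrix.of fun (k : Fin K) (c : Fin (M + 1)) => (Fin.cons (α := fun _ => ℂ) (b' k)
          (fun c' : Fin M => (A1' - s • A0') k c') c)) (by
        intro w hw
        have h3 : ∀ k, b' k * w 0 + ((A1' - s • A0').mulVec (fun c' => w c'.succ)) k = 0 := by
          intro k
          have := congrFun hw k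
          simp only [Matrix.mulVec, dotProduct, Fin.sum_univ_succ, Matrix.of_apply, Fin.cons_zero,
            Fin.cons_succ, Pi.zero_apply] at this
          exact this
        have hw0 : w 0 = 0 := by
          by_contra hne
          apply hcon (-(w 0)⁻¹ • (fun c' => w c'.succ))
          rw [Matrix.mulVec_smul]
          funext k
          have := h3 k
          simp only [Pi.smul_apply, smul_eq_mul]
          have h4 : ((A1' - s • A0').mulVec (fun c' => w c'.succ)) k = -(b' k * w 0) := by
            linear_combination this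
          rw [h4]
          field_simp
        have h5 : (fun c' : Fin M => w c'.succ) = 0 := by
          apply hinj (-s) 1 (Or.inr one_ne_zero)
          funext k
          have := h3 k
          rw [hw0, mul_zero, zero_add] at this
          rw [Pi.zero_apply, ← this]
          congr 2
          rw [one_smul, neg_smul]
          abel
        funext c
        refine Fin.cases ?_ (fun c' => ?_) c
        · exact hw0
        · exact congrFun h5 c')
    exact hJ (hzero J)
  funext k
  have := congrFun key k
  simpa [hb'] using this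

end BDJ
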