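import Pool.Agent.BDJ.PolyFn

/-!
# Remez type inequalities (row GEN-B)

`remez1` (one variable): the set `G = {t ∈ [a,a+l) : |P t| ≤ T}` has measure `≥ κ l`; choose greedily `D+1` points of `G` with pairwise distances `≥ g = κ l/(2(D+2))` (after choosing `m ≤ D` points the intervals of radius `g` around them
cover measure at most `2 g m < κ l`). Lagrange interpolation at these points: `|P t| ≤ (D+1) T ((ρ+1) l/g)^D` for `|t - a| ≤ ρ l` (Mathlib: `Lagrange.eq_interpolate_of_eval_eq` etc.).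

`remez` (n variables) by induction on `n` and Fubini (`volume_preserving_piFinSuccAbove` at `0`, or `Fin.cons`): `G = {x ∈ box : |f x| ≤ T}`; the set `W'` of the `y ∈ box'` (last `n` variables) such that the section `{t : (t,y) ∈ G}` has measure
`≥ (κ/2) l` has measure `≥ (κ/2) l^n`; for `y ∈ W'`, `|f(t,y)| ≤ C T` for all `|t - c 0| ≤ ρ' l`; then for each such `t`, `f(t,·)` is `SepPoly` in `n` variables and bounded by `C T` on `W'`; induction hypothesis. (`T < 0`: the set is empty, the hypothesis fails.)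

`sepPoly_eq_zero`: identity theorem (`T = 0`).
-/

open MeasureTheory Set
open scoped ENNReal NNReal

namespace BDJ

/-- greedy choice of separated points -/
theorem remez_greedy {G : Set ℝ} {g : ℝ} (hg : 0 < g) {V : ℝ≥0∞} (hG : V ≤ volume G) :
    ∀ m : ℕ, ENNReal.ofReal (2 * g * m) < V →
      ∃ s : Finset ℝ, (s : Set ℝ) ⊆ G ∧ s.card = m + 1 ∧
        ∀ x ∈ s, ∀ y ∈ s, x ≠ y → g ≤ |x - y| := by
  intro m
  induction m with
  | zero =>
    intro h
    have h1 : 0 < volume G := by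
      refine lt_of_lt_of_le ?_ hG
      simpa using h
    obtain ⟨x, hx⟩ := nonempty_of_measure_ne_zero h1.ne'
    refine ⟨{x}, by simpa using hx, by simp, ?_⟩
    intro y hy z hz hne
    rw [Finset.mem_singleton] at hy hz
    exact absurd (hy.trans hz.symm) hne
  | succ m ih =>
    intro h
    have hm : ENNReal.ofReal (2 * g * m) < V := by
      refine lt_of_le_of_lt (ENNReal.ofReal_le_ofReal ?_) h
      have : (m : ℝ) ≤ ((m + 1 : ℕ) : ℝ) := by exact_mod_cast Nat.le_succ m
      exact mul_le_mul_of_nonneg_left this (by positivity)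
    obtain ⟨s, hs, hc, hsep⟩ := ih hm
    have hvol : volume (⋃ x ∈ s, Metric.ball x g) ≤ ENNReal.ofReal (2 * g * (m + 1 : ℕ)) := by
      refine (measure_biUnion_finset_le _ _).trans ?_
      simp only [Real.volume_ball, Finset.sum_const, hc, nsmul_eq_mul]
      rw [mul_comm (2 * g) ((m + 1 : ℕ) : ℝ), ENNReal.ofReal_mul (Nat.cast_nonneg _),
        ENNReal.ofReal_natCast]
    obtain ⟨x, hx, hxn⟩ : ∃ x ∈ G, x ∉ ⋃ x ∈ s, Metric.ball x g := by
      by_contra hcon
      push Not at hcon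
      have h1 : volume G ≤ volume (⋃ x ∈ s, Metric.ball x g) := measure_mono hcon
      exact absurd (hG.trans (h1.trans hvol)) (not_le.2 h)
    have hxs : ∀ y ∈ s, g ≤ |x - y| := by
      intro y hy
      by_contra hlt
      apply hxn
      rw [mem_iUnion₂]
      exact ⟨y, hy, by rw [Metric.mem_ball, Real.dist_eq]; exact not_le.1 hlt⟩
    have hxn' : x ∉ s := by
      intro h1
      have := hxs x h1
      rw [sub_self, abs_zero] at this
      linarith
    refine ⟨insert x s, ?_, ?_, ?_⟩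
    · rw [Finset.coe_insert]
      exact insert_subset hx hs
    · rw [Finset.card_insert_of_notMem hxn', hc]
    · intro y hy z hz hne
      rw [Finset.mem_insert] at hy hz
      rcases hy with rfl | hy <;> rcases hz with rfl | hz
      · exact absurd rfl hne
      · exact hxs z hz
      · rw [abs_sub_comm]
        exact hxs y hy
      · exact hsep y hy z hz hne

theorem remez1 (D : ℕ) {κ : ℝ} (hκ : 0 < κ) (ρ : ℝ) : ∃ C : ℝ, 0 < C ∧ ∀ (a l : ℝ), 0 < l →
    ∀ P : Polynomial ℝ, P.natDegree ≤ D → ∀ T : ℝ,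
    ENNReal.ofReal (κ * l) ≤ volume {t ∈ Ico a (a + l) | |P.eval t| ≤ T} →
    ∀ t : ℝ, |t - a| ≤ ρ * l → |P.eval t| ≤ C * T := by
  classical
  have hR : 0 < (|ρ| + 1) * (2 * (D + 1)) / κ := by positivity
  refine ⟨(D + 1) * ((|ρ| + 1) * (2 * (D + 1)) / κ) ^ D, by positivity, ?_⟩
  intro a l hl P hP T hG t ht
  set g : ℝ := κ * l / (2 * (D + 1)) with hgdef
  have hg : 0 < g := by positivity
  obtain ⟨s, hs, hc, hsep⟩ := remez_greedy hg hG D (by
    rw [ENNReal.ofReal_lt_ofReal_iff (by positivity), hgdef]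
    have h1 : 2 * (κ * l / (2 * ((D : ℝ) + 1))) * D = κ * l * (D / (D + 1)) := by
      field_simp
    rw [h1]
    have h2 : (D : ℝ) / (D + 1) < 1 := by
      rw [div_lt_one (by positivity)]
      linarith
    have h3 : 0 < κ * l := by positivity
    nlinarith)
  have hne : s.Nonempty := Finset.card_pos.1 (by omega)
  obtain ⟨x₀, hx₀⟩ := hne
  have hT : 0 ≤ T := (abs_nonneg _).trans (hs hx₀).2
  have hdeg : P.degree < s.card := by
    rw [hc]
    refine lt_of_le_of_lt Polynomial.degree_le_natDegree ?_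
    exact_mod_cast Nat.lt_succ_of_le hP
  have heq := Lagrange.eq_interpolate (v := fun x : ℝ => x) (s := s)
    (fun _ _ _ _ h => h) hdeg
  rw [heq, Lagrange.interpolate_apply, Polynomial.eval_finsetSum]
  refine (Finset.abs_sum_le_sum_abs _ _).trans ?_
  have hterm : ∀ x ∈ s, |(Polynomial.C (P.eval x) * Lagrange.basis s (fun x : ℝ => x) x).eval t| ≤
      T * ((|ρ| + 1) * (2 * (D + 1)) / κ) ^ D := by
    intro x hx
    rw [Polynomial.eval_mul, Polynomial.eval_C, abs_mul]
    refine mul_le_mul (hs hx).2 ?_ (abs_nonneg _) hT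
    rw [Lagrange.basis, Polynomial.eval_prod, Finset.abs_prod]
    have hcard : (s.erase x).card = D := by rw [Finset.card_erase_of_mem hx, hc]; rfl
    rw [← hcard, ← Finset.prod_const]
    refine Finset.prod_le_prod (fun _ _ => abs_nonneg _) fun y hy => ?_
    rw [Finset.mem_erase] at hy
    rw [Lagrange.basisDivisor, Polynomial.eval_mul, Polynomial.eval_C, Polynomial.eval_sub,
      Polynomial.eval_X, Polynomial.eval_C, abs_mul, abs_inv]
    have h1 : g ≤ |x - y| := hsep x hx y hy.2 (Ne.symm hy.1)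
    have h2 : |t - y| ≤ (|ρ| + 1) * l := by
      have h3 : |t - y| ≤ |t - a| + |y - a| := by
        have := abs_sub_le t a y
        rwa [abs_sub_comm a y] at this
      have h4 : |y - a| ≤ l := by
        have h5 := (hs hy.2).1
        rw [abs_of_nonneg (by linarith [h5.1])]
        linarith [h5.2]
      have h6 : ρ * l ≤ |ρ| * l := mul_le_mul_of_nonneg_right (le_abs_self ρ) hl.le
      linarith
    calc |x - y|⁻¹ * |t - y| ≤ g⁻¹ * ((|ρ| + 1) * l) := by gcongr
      _ = (|ρ| + 1) * (2 * (((s.erase x).card : ℝ) + 1)) / κ := by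
        rw [hgdef, hcard]
        field_simp
  refine (Finset.sum_le_sum hterm).trans (le_of_eq ?_)
  rw [Finset.sum_const, hc, nsmul_eq_mul]
  push_cast
  ring

theorem remez_meas {n : ℕ} (c : Fin (n + 1) → ℝ) {l κ : ℝ} (hl : 0 < l) (hκ : 0 < κ)
    {f : (Fin (n + 1) → ℝ) → ℝ} (hf : Continuous f) {T : ℝ}
    (hG : ENNReal.ofReal (κ * l ^ (n + 1)) ≤
      volume {x : Fin (n + 1) → ℝ | (∀ i, c i ≤ x i ∧ x i < c i + l) ∧ |f x| ≤ T}) :
    ENNReal.ofReal (κ / 2 * l ^ n) ≤
      volume {y : Fin n → ℝ | (∀ i : Fin n, c i.succ ≤ y i ∧ y i < c i.succ + l) ∧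
        ENNReal.ofReal (κ / 2 * l) ≤
          volume {t ∈ Ico (c 0) (c 0 + l) | |f (Fin.cons t y)| ≤ T}} := by
  set G : Set (Fin (n + 1) → ℝ) := {x | (∀ i, c i ≤ x i ∧ x i < c i + l) ∧ |f x| ≤ T} with hGdef
  set B : Set (Fin n → ℝ) := Set.univ.pi fun i => Ico (c i.succ) (c i.succ + l) with hB
  set W : Set (Fin n → ℝ) := {y | (∀ i : Fin n, c i.succ ≤ y i ∧ y i < c i.succ + l) ∧
        ENNReal.ofReal (κ / 2 * l) ≤
          volume {t ∈ Ico (c 0) (c 0 + l) | |f (Fin.cons t y)| ≤ T}} with hW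
  have hGm : MeasurableSet G := by
    have h1 : G = (Set.univ.pi fun i => Ico (c i) (c i + l)) ∩ {x | |f x| ≤ T} := by
      ext x
      rw [hGdef, Set.mem_inter_iff, Set.mem_univ_pi]
      rfl
    rw [h1]
    exact (MeasurableSet.univ_pi fun i => measurableSet_Ico).inter
      (measurableSet_le hf.abs.measurable measurable_const)
  have hBm : MeasurableSet B := MeasurableSet.univ_pi fun i => measurableSet_Ico
  have hmp := (volume_preserving_piFinSuccAbove (fun _ : Fin (n + 1) => ℝ) 0).symm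
  have hvol : volume G = ∫⁻ y : Fin n → ℝ, volume {t : ℝ | Fin.cons t y ∈ G} := by
    rw [← hmp.measure_preimage_equiv, Measure.volume_eq_prod,
      Measure.prod_apply_symm ((MeasurableEquiv.measurableSet_preimage _).2 hGm)]
    refine lintegral_congr fun y => ?_
    congr 1
    ext t
    rw [Set.mem_preimage, Set.mem_preimage]
    have : (MeasurableEquiv.piFinSuccAbove (fun _ : Fin (n + 1) => ℝ) 0).symm (t, y) =
        Fin.cons t y := by
      exact Fin.insertNth_zero' t y
    rw [this]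
    rfl
  have hsec : ∀ y : Fin n → ℝ, volume {t : ℝ | (Fin.cons t y : Fin (n + 1) → ℝ) ∈ G} ≤
      W.indicator (fun _ => ENNReal.ofReal l) y + B.indicator (fun _ => ENNReal.ofReal (κ / 2 * l)) y := by
    intro y
    have hset : {t : ℝ | (Fin.cons t y : Fin (n + 1) → ℝ) ∈ G} ⊆
        {t ∈ Ico (c 0) (c 0 + l) | |f (Fin.cons t y)| ≤ T} := by
      rintro t ⟨h1, h2⟩
      exact ⟨h1 0, h2⟩
    by_cases hy : y ∈ B
    · rw [indicator_of_mem hy]
      by_cases hyW : y ∈ W
      · rw [indicator_of_mem hyW]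
        refine le_trans ?_ le_self_add
        refine (measure_mono (hset.trans fun t ht => ht.1)).trans ?_
        rw [Real.volume_Ico, add_sub_cancel_left]
      · rw [indicator_of_notMem hyW, zero_add]
        refine (measure_mono hset).trans ?_
        by_contra hlt
        exact hyW ⟨fun i => (Set.mem_univ_pi.1 hy) i, (not_le.1 hlt).le⟩
    · have : {t : ℝ | (Fin.cons t y : Fin (n + 1) → ℝ) ∈ G} = ∅ := by
        rw [Set.eq_empty_iff_forall_notMem]
        rintro t ⟨h1, -⟩
        exact hy (Set.mem_univ_pi.2 fun i => h1 i.succ)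
      rw [this, measure_empty]
      exact zero_le
  have hmain : ENNReal.ofReal (κ * l ^ (n + 1)) ≤
      ENNReal.ofReal l * volume W + ENNReal.ofReal (κ / 2 * l) * ENNReal.ofReal (l ^ n) := by
    refine hG.trans (hvol.trans_le ((lintegral_mono hsec).trans ?_))
    rw [lintegral_add_right _ (measurable_const.indicator hBm)]
    refine add_le_add (lintegral_indicator_const_le _ _) ?_
    rw [lintegral_indicator_const hBm, hB, Real.volume_pi_Ico]
    simp only [add_sub_cancel_left, Finset.prod_const, Finset.card_univ, Fintype.card_fin]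
    rw [ENNReal.ofReal_pow hl.le]
  by_contra hlt
  rw [not_le] at hlt
  have h1 : ENNReal.ofReal l * volume W < ENNReal.ofReal l * ENNReal.ofReal (κ / 2 * l ^ n) :=
    ENNReal.mul_lt_mul_right (ENNReal.ofReal_pos.2 hl).ne' ENNReal.ofReal_ne_top hlt
  have h2 := ENNReal.add_lt_add_right (a := ENNReal.ofReal (κ / 2 * l) * ENNReal.ofReal (l ^ n))
    (ENNReal.mul_ne_top ENNReal.ofReal_ne_top ENNReal.ofReal_ne_top) h1
  refine absurd (hmain.trans_lt h2) (not_lt.2 (le_of_eq ?_))
  rw [← ENNReal.ofReal_mul hl.le, ← ENNReal.ofReal_mul (by positivity),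
    ← ENNReal.ofReal_add (by positivity) (by positivity)]
  congr 1
  ring

theorem remez (n D : ℕ) {κ : ℝ} (hκ : 0 < κ) (ρ : ℝ) : ∃ C : ℝ, 0 < C ∧
    ∀ (c : Fin n → ℝ) (l : ℝ), 0 < l → ∀ f : (Fin n → ℝ) → ℝ, SepPoly D f → ∀ T : ℝ,
    ENNReal.ofReal (κ * l ^ n) ≤
      volume {x : Fin n → ℝ | (∀ i, c i ≤ x i ∧ x i < c i + l) ∧ |f x| ≤ T} →
    ∀ x : Fin n → ℝ, (∀ i, |x i - c i| ≤ ρ * l) → |f x| ≤ C * T := by
  induction n generalizing κ with
  | zero =>
    refine ⟨1, one_pos, ?_⟩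
    intro c l hl f hf T hG x hx
    rw [one_mul]
    have h1 : 0 < volume {x : Fin 0 → ℝ | (∀ i, c i ≤ x i ∧ x i < c i + l) ∧ |f x| ≤ T} := by
      refine lt_of_lt_of_le ?_ hG
      rw [pow_zero, mul_one]
      exact ENNReal.ofReal_pos.2 hκ
    obtain ⟨y, hy⟩ := nonempty_of_measure_ne_zero h1.ne'
    rw [Subsingleton.elim x y]
    exact hy.2
  | succ n ih =>
    obtain ⟨C₁, hC₁, h₁⟩ := remez1 D (half_pos hκ) ρ
    obtain ⟨C₂, hC₂, h₂⟩ := ih (half_pos hκ)
    refine ⟨C₂ * C₁, mul_pos hC₂ hC₁, ?_⟩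
    intro c l hl f hf T hG x hx
    have hW := remez_meas c hl hκ hf.continuous hG
    have hx' : x = Fin.cons (x 0) (Fin.tail x) := (Fin.cons_self_tail x).symm
    have hsec : SepPoly D (fun y : Fin n → ℝ => f (Fin.cons (x 0) y)) := by
      intro i y
      obtain ⟨P, hP, hPe⟩ := hf i.succ (Fin.cons (x 0) y)
      refine ⟨P, hP, fun t => ?_⟩
      show f (Fin.cons (x 0) (Function.update y i t)) = _
      rw [← hPe t, Fin.cons_update]
    have h3 := h₂ (fun i => c i.succ) l hl _ hsec (C₁ * T) (hW.trans (measure_mono ?_))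
      (Fin.tail x) (fun i => hx i.succ)
    · rw [hx', mul_assoc]
      exact h3
    · rintro y ⟨hy1, hy2⟩
      refine ⟨hy1, ?_⟩
      obtain ⟨P, hP, hPe⟩ := hf 0 (Fin.cons 0 y)
      have hPe' : ∀ t, f (Fin.cons t y) = P.eval t := by
        intro t
        rw [← hPe t, Fin.update_cons_zero]
      show |f (Fin.cons (x 0) y)| ≤ C₁ * T
      rw [hPe']
      refine h₁ (c 0) l hl P hP T ?_ (x 0) (hx 0)
      simpa only [hPe'] using hy2

theorem sepPoly_eq_zero {n D : ℕ} {f : (Fin n → ℝ) → ℝ} (hf : SepPoly D f) {O : Set (Fin n → ℝ)}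
    (hO : IsOpen O) (hne : O.Nonempty) (h0 : ∀ x ∈ O, f x = 0) (x : Fin n → ℝ) : f x = 0 := by
  obtain ⟨x₀, hx₀⟩ := hne
  obtain ⟨ε, hε, hball⟩ := Metric.isOpen_iff.1 hO x₀ hx₀
  set l : ℝ := ε / 2 with hl
  have hl0 : 0 < l := half_pos hε
  obtain ⟨C, hC, h⟩ := remez n D (one_pos : (0 : ℝ) < 1) (‖x - x₀‖ / l)
  have h1 := h x₀ l hl0 f hf 0 ?_ x ?_
  · rw [mul_zero] at h1
    exact abs_nonpos_iff.1 h1
  · have hsub : (Set.univ.pi fun i => Ico (x₀ i) (x₀ i + l)) ⊆
        {x : Fin n → ℝ | (∀ i, x₀ i ≤ x i ∧ x i < x₀ i + l) ∧ |f x| ≤ 0} := by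
      intro y hy
      rw [Set.mem_univ_pi] at hy
      refine ⟨fun i => hy i, ?_⟩
      rw [h0 y, abs_zero]
      apply hball
      rw [Metric.mem_ball]
      refine lt_of_le_of_lt ((dist_pi_le_iff hl0.le).2 fun i => ?_) (half_lt_self hε)
      rw [Real.dist_eq, abs_of_nonneg (by linarith [(hy i).1])]
      linarith [(hy i).2]
    refine le_trans (le_of_eq ?_) (measure_mono hsub)
    rw [Real.volume_pi_Ico, one_mul]
    simp only [add_sub_cancel_left, Finset.prod_const, Finset.card_univ, Fintype.card_fin]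
    rw [ENNReal.ofReal_pow hl0.le]
  · intro i
    rw [div_mul_cancel₀ _ hl0.ne']
    exact norm_le_pi_norm (x - x₀) i

end BDJ
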