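import Pool.Agent.BDJ.Defs

/-!
# Slicing systems

A slicing system consists of functionals `e i z` on the target space `V`, depending on a direction `z`, together with the class `R` of the maps which are
invariant along all lines (`rigid` maps) and the quantitative finite-dimensional facts about them. Examples: the symmetric gradient (`V = ℝ^n`, `e z v = v . z`, `R` = infinitesimal rigid
motions), all `ℂ`-elliptic operators in the plane. All the analysis is done for an abstract slicing system.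
-/

open MeasureTheory Set Filter
open scoped ENNReal NNReal Topology

namespace BDJ

structure Slicing (d : ℕ) (V : Type*) [NormedAddCommGroup V] [NormedSpace ℝ V] where
  /-- number of functionals per direction -/
  N : ℕ
  /-- the functionals -/
  e : Fin N → X d → V →L[ℝ] ℝ
  /-- their degree of homogeneity in the direction -/
  deg : ℕ
  e_cont : ∀ i, Continuous (e i)
  e_smul : ∀ (i : Fin N) (s : ℝ) (z : X d), e i (s • z) = s ^ deg • e i z
  /-- bound of the functionals -/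
  CE : ℝ
  e_bound : ∀ (i : Fin N) (z : X d) (v : V), |e i z v| ≤ CE * ‖z‖ ^ deg * ‖v‖
  /-- constant in the control of the increments -/
  C0 : ℝ
  C0_pos : 0 < C0
  /-- the rigid maps -/
  R : Set (X d → V)
  R_sub : ∀ p ∈ R, ∀ q ∈ R, (fun x => p x - q x) ∈ R
  R_cont : ∀ p ∈ R, Continuous p
  R_inv : ∀ p ∈ R, ∀ (i : Fin N) (w z : X d), e i z (p (w + z) - p w) = 0
  /-- base points in the unit cube, their pairs used, and the reconstruction of rigid maps -/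
  nb : ℕ
  z0 : Fin nb → X d
  δ : ℝ
  δ_pos : 0 < δ
  z0_mem : ∀ (b : Fin nb) (c : Fin (d + 1)), δ < z0 b c ∧ z0 b c < 1 - δ
  rel : Fin nb → Fin nb → Prop
  rel_cone : ∀ b b', rel b b' → ∀ y y' : X d, (∀ c, |y c - z0 b c| ≤ δ) → (∀ c, |y' c - z0 b' c| ≤ δ) →
    ∀ c, |y c - y' c| ≤ |y 0 - y' 0|
  CL : ℝ
  la : ∀ (l : ℝ), 0 < l → ∀ (o : X d) (y : Fin nb → X d), (∀ b c, |y b c - (o c + l * z0 b c)| ≤ δ * l) →
    ∀ (U : Fin nb → V) (D : ℝ),
    (∀ b b', rel b b' → ∀ i, |e i (y b - y b') (U b - U b')| ≤ D * l ^ deg) →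
    ∃ p ∈ R, ∀ (x : X d) (v : V) (B : ℝ), ‖x - o‖ ≤ 8 * l →
      (∀ b i, |e i (x - y b) (v - U b)| ≤ B * l ^ deg) → ‖v - p x‖ ≤ CL * (B + D)
  /-- rigid maps small on a part of a box -/
  af : ∀ (κ ρ : ℝ), 0 < κ → ∃ C : ℝ, 0 < C ∧ ∀ (c : X d) (l : ℝ), 0 < l → ∀ q ∈ R, ∀ T : ℝ,
    ENNReal.ofReal κ * volume (bx c l) ≤ volume {x ∈ bx c l | ‖q x‖ ≤ T} →
    ∀ x : X d, ‖x - c‖ ≤ ρ * l → ‖q x‖ ≤ C * T
  /-- transfer between two boxes -/
  tr : ∀ (κ ρ : ℝ), 0 < κ → ∃ C : ℝ, 0 < C ∧ ∀ (c c' : X d) (l l' : ℝ), 0 < l → l ≤ l' → l' ≤ 2 * l →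
    ‖c - c'‖ ≤ ρ * l → ∀ q ∈ R, ∀ T : ℝ,
    ENNReal.ofReal κ * (volume (bx c l) * volume (bx c' l')) ≤
      (volume.prod volume) {p : X d × X d | p.1 ∈ bx c l ∧ p.2 ∈ bx c' l' ∧
        ∀ i, |e i (p.2 - p.1) (q p.2)| ≤ T * l ^ deg} →
    ∀ x : X d, ‖x - c‖ ≤ ρ * l → ‖q x‖ ≤ C * T
  /-- the projection onto rigid maps on a box -/
  P : (X d → V) → X d → ℝ → (X d → V)
  P_mem : ∀ u c l, P u c l ∈ R
  P_id : ∀ p ∈ R, ∀ c l, 0 < l → P p c l = p
  CP : ℝ
  P_lip : ∀ (u v : X d → V) (c : X d) (l : ℝ), 0 < l → IntegrableOn u (bx c l) →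
    IntegrableOn v (bx c l) → ∀ x ∈ bx c l,
    ‖P u c l x - P v c l x‖ ≤ CP * ((l ^ (d + 1))⁻¹ * ∫ y in bx c l, ‖u y - v y‖)

section
variable {d : ℕ} {V : Type*} [NormedAddCommGroup V] [NormedSpace ℝ V]

/-- `h` controls the increments of `u` along the segments contained in `U` -/
structure SStrain (S : Slicing d V) (u : X d → V) (h : X d → ℝ≥0∞) (U : Set (X d)) : Prop where
  cont : Continuous u
  meas : Measurable h
  line : ∀ (i : Fin S.N) (w v : X d) (s : ℝ), 0 ≤ s → (∀ r ∈ Icc 0 s, w + r • v ∈ U) →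
    ENNReal.ofReal |S.e i v (u (w + s • v) - u w)| ≤
      ENNReal.ofReal (S.C0 * ‖v‖ ^ (S.deg + 1)) * rm h s w v

/-- the rigid map `p` fits `u` on the set `b` up to `T`, outside a fraction `ς` of `b` -/
def SFits (S : Slicing d V) (u : X d → V) (b : Set (X d)) (p : X d → V) (T : ℝ) (ς : ℝ≥0∞) : Prop :=
  p ∈ S.R ∧ volume {x ∈ b | T < ‖u x - p x‖} ≤ ς * volume b

/-- projection on the dyadic cube `cube 0 k j` -/
noncomputable def SPQ (S : Slicing d V) (u : X d → V) (k : ℕ) (j : Idx d) : X d → V :=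
  S.P u (fun i => j i * sd k) (sd k)

/-- `u` has bounded variation for the slicing system on the open set `Ω`, with variation controlled by `m`: weak form of
`|∂_v (e i v (u))| ≤ C0 ‖v‖^(deg+1) m` -/
structure SBV (S : Slicing d V) (Ω : Set (X d)) (u : X d → V) (m : Measure (X d)) : Prop where
  isOpen : IsOpen Ω
  integ : IntegrableOn u Ω
  fin : IsFiniteMeasure m
  ineq : ∀ (i : Fin S.N) (ψ : X d → ℝ) (v : X d), ContDiff ℝ (⊤ : ℕ∞) ψ → HasCompactSupport ψ →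
    tsupport ψ ⊆ Ω →
    |∫ x in Ω, S.e i v (u x) * fderiv ℝ ψ x v| ≤ S.C0 * ‖v‖ ^ (S.deg + 1) * ∫ x, |ψ x| ∂m

/-- the approximate discontinuity set -/
def Su (Ω : Set (X d)) (u : X d → V) : Set (X d) :=
  {x ∈ Ω | ¬ ∃ z : V, Tendsto (fun r : ℝ => (volume (Metric.ball x r))⁻¹ *
    ∫⁻ y in Metric.ball x r, ENNReal.ofReal ‖u y - z‖) (𝓝[>] 0) (𝓝 0)}

/-- the points where the rigid maps `SPQ S u k (idx 0 k x)` oscillate by more than `lam` at
arbitrarily small scales -/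
def SOsc (S : Slicing d V) (Ω : Set (X d)) (u : X d → V) (lam : ℝ) : Set (X d) :=
  {x ∈ Ω | ∀ k0 : ℕ, ∃ k K : ℕ, k0 ≤ k ∧ k ≤ K ∧ ∃ y ∈ cube 0 K (idx 0 K x),
    lam < ‖SPQ S u K (idx 0 K x) y - SPQ S u k (idx 0 k x) y‖}

/-- the points of `Ω` where `m` has positive upper `d`-dimensional density -/
def Th (Ω : Set (X d)) (m : Measure (X d)) : Set (X d) :=
  {x ∈ Ω | ¬ Tendsto (fun r : ℝ => m (Metric.ball x r) / ENNReal.ofReal (r ^ d)) (𝓝[>] 0) (𝓝 0)}

/-- the ancestor `m` levels up -/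
def anc (j : Idx d) (m : ℕ) : Idx d := par^[m] j

end

end BDJ
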