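import Pool.Agent.BDJ.Remez
import Pool.Agent.BDJ.Sl

/-!
# Slicing data (definitions)

Input of the general construction: homogeneous polynomial families of functionals with trivial common kernel.
-/

open MeasureTheory Set
open scoped ENNReal NNReal

namespace BDJ

/-- functionals `e i z` on `V`, homogeneous of degree `deg` and polynomial in the direction `z`, with trivial common kernel -/
structure SData (d : ℕ) (V : Type*) [NormedAddCommGroup V] [NormedSpace ℝ V] where
  N : ℕ
  e : Fin N → X d → V →L[ℝ] ℝ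
  deg : ℕ
  e_smul : ∀ (i : Fin N) (s : ℝ) (z : X d), e i (s • z) = s ^ deg • e i z
  e_sep : ∀ (i : Fin N) (v : V), SepPoly deg (fun z => e i z v)
  span : ∀ v : V, (∀ i z, e i z v = 0) → v = 0

variable {d : ℕ} {V : Type*} [NormedAddCommGroup V] [NormedSpace ℝ V]

/-- the rigid maps of slicing data, with polynomial degree at most `M` in each variable -/
def SData.R (S : SData d V) (M : ℕ) : Submodule ℝ (X d → V) where
  carrier := {p | (∀ ℓ : V →L[ℝ] ℝ, SepPoly M (fun x => ℓ (p x))) ∧
    ∀ (i : Fin S.N) (w z : X d), S.e i z (p (w + z) - p w) = 0}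
  zero_mem' := ⟨fun ℓ => by simpa using sepPoly_const M 0, fun i w z => by simp⟩
  add_mem' := by
    rintro p q ⟨h1, h2⟩ ⟨h3, h4⟩
    refine ⟨fun ℓ => ?_, fun i w z => ?_⟩
    · simpa using (h1 ℓ).add (h3 ℓ)
    · have := h2 i w z
      have := h4 i w z
      simp only [map_sub, Pi.add_apply, map_add] at *
      linarith
  smul_mem' := by
    rintro c p ⟨h1, h2⟩
    refine ⟨fun ℓ => ?_, fun i w z => ?_⟩
    · simpa using (h1 ℓ).const_mul c
    · have := h2 i w z
      simp only [map_sub, Pi.smul_apply, map_smul, smul_eq_mul] at *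
      rw [← mul_sub, this, mul_zero]

/-- the open cone of directions around the axis `0` -/
def cone (d : ℕ) : Set (X d) := {z | ∀ c : Fin (d + 1), c ≠ 0 → |z c| < |z 0|} ∩ {z | z 0 ≠ 0}

/-- the relations between the values at two points in conical position, within a set `A` -/
def SData.Rel (S : SData d V) (A : Set (X d)) (p : X d → V) : Prop :=
  ∀ x ∈ A, ∀ y ∈ A, x - y ∈ cone d → ∀ i, S.e i (x - y) (p x - p y) = 0

/-- open box of half-side `1/32` around `(t, 1/2, ..., 1/2)` -/
def obx (d : ℕ) (t : ℝ) : Set (X d) := {x | |x 0 - t| < 1 / 32 ∧ ∀ c : Fin (d + 1), c ≠ 0 → |x c - 1 / 2| < 1 / 32}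

/-- the two boxes used: lower box (around height `1/4`) and upper box (around height `3/4`) -/
def AD (d : ℕ) : Set (X d) := obx d (1 / 4) ∪ obx d (3 / 4)

end BDJ
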