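import Pool.Agent.BDJ.Plane
import Pool.Agent.BDJ.BDFinal

/-!
# Operators that can be sliced on lines
-/

open MeasureTheory Set
open scoped ENNReal NNReal InnerProductSpace

namespace BDJ

section
variable {n : ℕ} {V W : Type*} [NormedAddCommGroup V] [InnerProductSpace ℝ V]
  [NormedAddCommGroup W] [InnerProductSpace ℝ W]

/-- the conclusion: `H^(n-1)(S_u \ Θ_u) = 0` for every open `Ω` and every function `u` of bounded `B`-variation on `Ω` -/
def NullJump (B : Fin n → V →L[ℝ] W) : Prop :=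
  ∀ (Ω : Set (E n)) (u : E n → V) (Bu : VectorMeasure (E n) W), IsOpen Ω → IsBV B Ω u Bu →
    μH[(n : ℝ) - 1] (discSet Ω u \ densSet Ω Bu) = 0

/-- `B[D]` can be sliced on lines: for every `v ≠ 0` there is a family `p` of functionals on `V` depending on the direction `z ∈ ℝ^n` as a
homogeneous polynomial (`w ↦ p w` linear with polynomial values), not all vanishing at `v`, such that for every direction `z` the tensor
`z ⊗ p(z)` belongs to the range of the adjoint of the symbol: `⟪η, B_j w⟫ = z_j p(z)(w)` for some `η ∈ W` and all `j`, `w`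
(so the derivative of the scalar function `p(z)(u)` in the direction `z` is the component `⟪η, Bu⟫` of `Bu`). -/
def Sliceable (B : Fin n → V →L[ℝ] W) : Prop :=
  ∀ v : V, v ≠ 0 → ∃ (k : ℕ) (p : V →ₗ[ℝ] MvPolynomial (Fin n) ℝ),
    (∀ w, (p w).IsHomogeneous k) ∧ p v ≠ 0 ∧
    ∀ z : Fin n → ℝ, ∃ η : W, ∀ (j : Fin n) (w : V),
      ⟪η, B j w⟫_ℝ = z j * MvPolynomial.eval z (p w)

end

theorem slop_degree_sum {n K : ℕ} {φ : MvPolynomial (Fin n) ℝ} (h : φ.IsHomogeneous K)
    {m : Fin n →₀ ℕ} (hm : m ∈ φ.support) : ∑ i, m i = K := by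
  have h1 := h.degree_eq_sum_deg_support hm
  rw [h1]
  exact (Finset.sum_subset (Finset.subset_univ _) fun i _ hi => by
    simpa using hi).symm

theorem slop_eval {n : ℕ} (φ : MvPolynomial (Fin n) ℝ) (z : Fin n → ℝ) :
    MvPolynomial.eval z φ = ∑ m ∈ φ.support, φ.coeff m * ∏ i, z i ^ m i :=
  MvPolynomial.eval_eq' z φ

theorem slop_eval_smul {n K : ℕ} {φ : MvPolynomial (Fin n) ℝ} (h : φ.IsHomogeneous K)
    (s : ℝ) (z : Fin n → ℝ) :
    MvPolynomial.eval (s • z) φ = s ^ K * MvPolynomial.eval z φ := by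
  rw [slop_eval, slop_eval, Finset.mul_sum]
  refine Finset.sum_congr rfl fun m hm => ?_
  have h1 := slop_degree_sum h hm
  simp only [Pi.smul_apply, smul_eq_mul, mul_pow, Finset.prod_mul_distrib]
  rw [Finset.prod_pow_eq_pow_sum, h1]
  ring

theorem slop_eval_bound {n K : ℕ} {φ : MvPolynomial (Fin n) ℝ} (h : φ.IsHomogeneous K) :
    ∃ C : ℝ, 0 ≤ C ∧ ∀ z : Fin n → ℝ, |MvPolynomial.eval z φ| ≤ C * ‖z‖ ^ K := by
  refine ⟨∑ m ∈ φ.support, |φ.coeff m|, Finset.sum_nonneg fun _ _ => abs_nonneg _, fun z => ?_⟩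
  rw [slop_eval, Finset.sum_mul]
  refine (Finset.abs_sum_le_sum_abs _ _).trans (Finset.sum_le_sum fun m hm => ?_)
  rw [abs_mul]
  refine mul_le_mul_of_nonneg_left ?_ (abs_nonneg _)
  rw [Finset.abs_prod, ← slop_degree_sum h hm, ← Finset.prod_pow_eq_pow_sum]
  refine Finset.prod_le_prod (fun i _ => abs_nonneg _) fun i _ => ?_
  rw [abs_pow]
  exact pow_le_pow_left₀ (abs_nonneg _) (norm_le_pi_norm z i) _

theorem slop_sepPoly {n K : ℕ} {φ : MvPolynomial (Fin n) ℝ} (h : φ.IsHomogeneous K) :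
    SepPoly K (fun z : Fin n → ℝ => MvPolynomial.eval z φ) := by
  intro i x
  refine ⟨∑ m ∈ φ.support, Polynomial.C (φ.coeff m * ∏ j ∈ Finset.univ.erase i, x j ^ m j) *
    Polynomial.X ^ m i, ?_, fun t => ?_⟩
  · refine Polynomial.natDegree_sum_le_of_forall_le _ _ fun m hm => ?_
    refine (Polynomial.natDegree_C_mul_X_pow_le _ _).trans ?_
    rw [← slop_degree_sum h hm]
    exact Finset.single_le_sum (f := fun i => m i) (fun _ _ => Nat.zero_le _) (Finset.mem_univ i)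
  · simp only
    rw [slop_eval, Polynomial.eval_finsetSum]
    refine Finset.sum_congr rfl fun m hm => ?_
    simp only [Polynomial.eval_mul, Polynomial.eval_C, Polynomial.eval_pow, Polynomial.eval_X]
    rw [← Finset.mul_prod_erase Finset.univ _ (Finset.mem_univ i)]
    have h2 : ∏ j ∈ Finset.univ.erase i, Function.update x i t j ^ m j =
        ∏ j ∈ Finset.univ.erase i, x j ^ m j := by
      refine Finset.prod_congr rfl fun j hj => ?_
      rw [Function.update_of_ne (Finset.ne_of_mem_erase hj)]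
    rw [h2, Function.update_self]
    ring

section
variable {d : ℕ} {V W : Type*} [NormedAddCommGroup V] [InnerProductSpace ℝ V]
  [FiniteDimensional ℝ V] [NormedAddCommGroup W] [InnerProductSpace ℝ W] [FiniteDimensional ℝ W]

/-- the condition on a single family `p` of degree `k` -/
def slop_good {n : ℕ} (B : Fin n → V →L[ℝ] W) (k : ℕ) (p : V →ₗ[ℝ] MvPolynomial (Fin n) ℝ) : Prop :=
  (∀ w, (p w).IsHomogeneous k) ∧ ∀ z : Fin n → ℝ, ∃ η : W, ∀ (j : Fin n) (w : V),
      ⟪η, B j w⟫_ℝ = z j * MvPolynomial.eval z (p w)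

/-- finitely many families are enough -/
theorem slop_finite {n : ℕ} (B : Fin n → V →L[ℝ] W) (hB : Sliceable B) (r : ℕ) :
    ∀ U : Submodule ℝ V, Module.finrank ℝ U = r →
    ∃ (N : ℕ) (k : Fin N → ℕ) (p : Fin N → V →ₗ[ℝ] MvPolynomial (Fin n) ℝ),
      (∀ i, slop_good B (k i) (p i)) ∧ ∀ v ∈ U, (∀ i, p i v = 0) → v = 0 := by
  induction r using Nat.strong_induction_on with
  | _ r ih =>
    intro U hU
    by_cases h0 : U = ⊥
    · refine ⟨0, fun i => i.elim0, fun i => i.elim0, fun i => i.elim0, fun v hv _ => ?_⟩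
      rw [h0] at hv
      simpa using hv
    · obtain ⟨v, hv, hv0⟩ := Submodule.exists_mem_ne_zero_of_ne_bot h0
      obtain ⟨k, p, h1, h2, h3⟩ := hB v hv0
      have hlt : U ⊓ LinearMap.ker p < U := by
        refine lt_of_le_of_ne inf_le_left fun h => h2 ?_
        have h4 : v ∈ U ⊓ LinearMap.ker p := by rw [h]; exact hv
        exact (LinearMap.mem_ker.1 h4.2)
      obtain ⟨N, k', p', h5, h6⟩ := ih (Module.finrank ℝ (U ⊓ LinearMap.ker p : Submodule ℝ V))
        (by rw [← hU]; exact Submodule.finrank_lt_finrank_of_lt hlt) _ rfl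
      refine ⟨N + 1, Fin.cons k k', Fin.cons p p', fun i => ?_, fun w hw h7 => ?_⟩
      · refine Fin.cases ?_ (fun i => ?_) i
        · exact ⟨h1, h3⟩
        · simpa using h5 i
      · refine h6 w ⟨hw, LinearMap.mem_ker.2 (by simpa using h7 0)⟩ fun i => ?_
        simpa using h7 i.succ

/-- multiplication by a power of the coordinate `0` raises the degree -/
theorem slop_raise {d : ℕ} {B : Fin (d + 1) → V →L[ℝ] W} {k : ℕ}
    {p : V →ₗ[ℝ] MvPolynomial (Fin (d + 1)) ℝ} (h : slop_good B k p) {K : ℕ} (hK : k ≤ K) :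
    slop_good B K ((LinearMap.mulLeft ℝ (MvPolynomial.X 0 ^ (K - k))).comp p) := by
  refine ⟨fun w => ?_, fun z => ?_⟩
  · have h1 := (MvPolynomial.isHomogeneous_X_pow (R := ℝ) (0 : Fin (d + 1)) (K - k)).mul (h.1 w)
    have h2 : K - k + k = K := by omega
    rw [h2] at h1
    simpa using h1
  · obtain ⟨η, hη⟩ := h.2 z
    refine ⟨z 0 ^ (K - k) • η, fun j w => ?_⟩
    rw [real_inner_smul_left, hη j w]
    simp only [LinearMap.comp_apply, LinearMap.mulLeft_apply, map_mul, map_pow,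
      MvPolynomial.eval_X]
    ring

/-- the solution `η` can be chosen with the natural bound -/
theorem slop_bound {n : ℕ} (B : Fin n → V →L[ℝ] W) {K : ℕ} {p : V →ₗ[ℝ] MvPolynomial (Fin n) ℝ}
    (h : slop_good B K p) : ∃ C : ℝ, 0 ≤ C ∧ ∀ z : Fin n → ℝ, ∃ η : W, ‖η‖ ≤ C * ‖z‖ ^ (K + 1) ∧
      ∀ (j : Fin n) (w : V), ⟪η, B j w⟫_ℝ = z j * MvPolynomial.eval z (p w) := by
  set b := Module.finBasis ℝ V
  let T : W →ₗ[ℝ] (Fin n × Fin (Module.finrank ℝ V) → ℝ) :=
    LinearMap.pi fun q => (innerₗ W).flip (B q.1 (b q.2))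
  have hT : ∀ η q, T η q = ⟪η, B q.1 (b q.2)⟫_ℝ := fun η q => rfl
  obtain ⟨g, hg⟩ := T.rangeRestrict.exists_rightInverse_of_surjective
    (LinearMap.range_rangeRestrict T)
  have hb : ∀ a, ∃ C : ℝ, 0 ≤ C ∧ ∀ z : Fin n → ℝ,
      |MvPolynomial.eval z (p (b a))| ≤ C * ‖z‖ ^ K := fun a => slop_eval_bound (h.1 _)
  choose C hC0 hC using hb
  set G : LinearMap.range T →L[ℝ] W := LinearMap.toContinuousLinearMap g with hG
  refine ⟨‖G‖ * ∑ a, C a, mul_nonneg G.opNorm_nonneg (Finset.sum_nonneg fun a _ => hC0 a),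
    fun z => ?_⟩
  obtain ⟨η0, hη0⟩ := h.2 z
  have hy : T η0 ∈ LinearMap.range T := ⟨η0, rfl⟩
  refine ⟨G ⟨T η0, hy⟩, ?_, ?_⟩
  · refine (G.le_opNorm _).trans ?_
    rw [mul_assoc]
    refine mul_le_mul_of_nonneg_left ?_ G.opNorm_nonneg
    have h1 : ‖(⟨T η0, hy⟩ : LinearMap.range T)‖ = ‖T η0‖ := rfl
    rw [h1]
    have h2 : 0 ≤ (∑ a, C a) * ‖z‖ ^ (K + 1) :=
      mul_nonneg (Finset.sum_nonneg fun a _ => hC0 a) (by positivity)
    refine (pi_norm_le_iff_of_nonneg h2).2 fun q => ?_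
    rw [hT, hη0, norm_mul, Real.norm_eq_abs (MvPolynomial.eval z _)]
    calc ‖z q.1‖ * |MvPolynomial.eval z (p (b q.2))|
        ≤ ‖z‖ * (C q.2 * ‖z‖ ^ K) :=
          mul_le_mul (norm_le_pi_norm z q.1) (hC q.2 z) (abs_nonneg _) (norm_nonneg _)
      _ = C q.2 * ‖z‖ ^ (K + 1) := by ring
      _ ≤ (∑ a, C a) * ‖z‖ ^ (K + 1) := by
          refine mul_le_mul_of_nonneg_right ?_ (by positivity)
          exact Finset.single_le_sum (f := C) (fun a _ => hC0 a) (Finset.mem_univ q.2)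
  · have h3 : T (G ⟨T η0, hy⟩) = T η0 := by
      have h4 : T.rangeRestrict (g ⟨T η0, hy⟩) = ⟨T η0, hy⟩ := by
        exact LinearMap.congr_fun hg ⟨T η0, hy⟩
      exact congrArg Subtype.val h4
    intro j w
    have h7 : ∀ w : V, ⟪G ⟨T η0, hy⟩, B j w⟫_ℝ = ⟪η0, B j w⟫_ℝ := by
      have h8 : ((innerₗ W (G ⟨T η0, hy⟩)).comp (B j : V →ₗ[ℝ] W)) =
          ((innerₗ W η0).comp (B j : V →ₗ[ℝ] W)) := by
        refine b.ext fun a => ?_
        have h9 := congrFun h3 (j, a)
        rw [hT, hT] at h9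
        simpa using h9
      intro w
      have h10 := LinearMap.congr_fun h8 w
      simpa using h10
    rw [h7 w, hη0 j w]

theorem exists_sdata_of_sliceable (B : Fin (d + 1) → V →L[ℝ] W) (hB : Sliceable B) :
    ∃ (S : SData d V) (C0 : ℝ), ∀ (i : Fin S.N) (z : X d), ∃ η : W, ‖η‖ ≤ C0 * ‖z‖ ^ (S.deg + 1) ∧
      ∀ (j : Fin (d + 1)) (v : V), ⟪η, B j v⟫_ℝ = z j * S.e i z v := by
  obtain ⟨N, k, p, h1, h2⟩ := slop_finite B hB _ ⊤ rfl
  set K : ℕ := ∑ i, k i with hK
  have hk : ∀ i, k i ≤ K := fun i =>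
    Finset.single_le_sum (f := k) (fun _ _ => Nat.zero_le _) (Finset.mem_univ i)
  set q : Fin N → V →ₗ[ℝ] MvPolynomial (Fin (d + 1)) ℝ := fun i =>
    (LinearMap.mulLeft ℝ (MvPolynomial.X 0 ^ (K - k i))).comp (p i) with hq
  have hgood : ∀ i, slop_good B K (q i) := fun i => slop_raise (h1 i) (hk i)
  have hbd := fun i => slop_bound B (hgood i)
  choose C hC0 hC using hbd
  refine ⟨{ N := N
            e := fun i z => LinearMap.toContinuousLinearMap
              ((MvPolynomial.aeval z : MvPolynomial (Fin (d + 1)) ℝ →ₐ[ℝ] ℝ).toLinearMap.comp (q i))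
            deg := K
            e_smul := ?_
            e_sep := ?_
            span := ?_ }, ∑ i, C i, ?_⟩
  · intro i s z
    ext v
    have h3 := slop_eval_smul ((hgood i).1 v) s z
    simpa [MvPolynomial.aeval_eq_eval] using h3
  · intro i v
    have h3 := slop_sepPoly ((hgood i).1 v)
    simpa [MvPolynomial.aeval_eq_eval] using h3
  · intro v hv
    refine h2 v Submodule.mem_top fun i => ?_
    have h3 : q i v = 0 := by
      refine MvPolynomial.funext fun z => ?_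
      have h4 := hv i z
      simpa [MvPolynomial.aeval_eq_eval] using h4
    have h5 : (MvPolynomial.X 0 ^ (K - k i) : MvPolynomial (Fin (d + 1)) ℝ) * p i v = 0 := by
      simpa [hq] using h3
    exact (mul_eq_zero.1 h5).resolve_left (pow_ne_zero _ (MvPolynomial.X_ne_zero 0))
  · intro i z
    obtain ⟨η, h3, h4⟩ := hC i z
    refine ⟨η, h3.trans (mul_le_mul_of_nonneg_right ?_ (by positivity)), fun j v => ?_⟩
    · exact Finset.single_le_sum (f := C) (fun a _ => hC0 a) (Finset.mem_univ i)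
    · rw [h4 j v]
      simp [MvPolynomial.aeval_eq_eval]

/-- **Operators that can be sliced on lines.** -/
theorem sliceable_null {n : ℕ} (hn : 1 ≤ n) (B : Fin n → V →L[ℝ] W) (hB : Sliceable B) :
    NullJump B := by
  intro Ω u Bu hΩ h
  obtain ⟨d, rfl⟩ : ∃ d, n = d + 1 := ⟨n - 1, by omega⟩
  obtain ⟨S, C0, hη⟩ := exists_sdata_of_sliceable B hB
  have h1 := sliceable_main B S C0 hη hΩ h
  have h2 : (((d + 1 : ℕ) : ℝ) - 1) = (d : ℝ) := by push_cast; ring
  rw [h2]
  exact h1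

/-- **`ℂ`-elliptic operators in the plane.** -/
theorem plane_null (B : Fin 2 → V →L[ℝ] W) (hB : CElliptic B) : NullJump B := by
  intro Ω u Bu hΩ h
  have h1 := plane_main B hB hΩ h
  have h2 : (((2 : ℕ) : ℝ) - 1) = 1 := by norm_num
  rw [h2]
  exact h1

end

/-- **Functions of bounded deformation.** -/
theorem symGrad_null {n : ℕ} (hn : 1 ≤ n) : NullJump (symGrad n) := by
  intro Ω u Eu hΩ h
  obtain ⟨d, rfl⟩ : ∃ d, n = d + 1 := ⟨n - 1, by omega⟩
  have h1 : (((d + 1 : ℕ) : ℝ) - 1) = (d : ℝ) := by push_cast; ring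
  rw [h1]
  exact bd_main d hΩ h

end BDJ
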