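import Pool.Agent.BDJ.Pairs
import Pool.Agent.BDJ.Abund
import Pool.Agent.BDJ.FitSparse

/-!
# One step of the chain (row STEP)

Fix `κ1 = 1/(16 * 6^(d+1))`, `ς = κ1/8`. `η = η0(S, ς)` from `fit_sparse` (so `η ≤ 1/4`), then `a ≥ 3` so large that `abund` gives: total volume of the non-sparse sub-cubes of a cube of
level `k` in a class is `≤ (C/η) 2^(-a) sd k^(d+1) ≤ sd k^(d+1)/2^(d+5)` (and `< sd k ^(d+1)`).

First part: apply `pairs` with `N` = the indices `i'` with `Sub a (par j) i'` and not `Sparse` at the level `k`, then `fit_sparse` to the sparse `b' = (k+a, i')`: `p'` fits `u` on `b'` up to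
`K F'` outside a fraction `ς`. Remove from the set of good pairs those with `T < ‖u w - p w‖` or `K F' < ‖u w' - p' w'‖`: the rest has measure `≥ (κ1 - 2ς)|b||b'| ≥ (κ1/2) |b||b'|`. For
such a pair: with `q0 = p - p'`, `z = w' - w`: `e β z (p' w' - p w') = e β z (u w' - u w) + e β z (p' w' - u w') + e β z (u w - p w) + e β z (p w - p w')`, the last term vanishes
(`R_inv`), so `|e β z (q0 w')| ≤ C0 q sd k^deg + CE ‖z‖^deg (K F' + T) ≤ C (q + F' + T) l^deg`, `l = sd (k+1+a)` (`‖z‖ ≤ 4 sd k`, `sd k = 2^(a+1) l`). `S.tr` (with `ρ` large, depending on `a`) gives the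
bound of `‖p x - p' x‖` for `x ∈ big 3 0 k (par j)`.

Second part (start): a first sparse sub-cube inside the cube itself: the sub-cubes contained in `cube 0 k j` have total volume `sd k^(d+1)`, more than the non-sparse ones.
-/

open MeasureTheory Set
open scoped ENNReal NNReal

namespace BDJ

variable {d : ℕ} {V : Type*} [NormedAddCommGroup V] [NormedSpace ℝ V] [FiniteDimensional ℝ V]

theorem step_nest (a k : ℕ) (i : Idx d) : ∃ j' : Idx d, cube (0 : X d) (k + a) i ⊆ cube 0 k j' := by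
  induction a generalizing i with
  | zero => exact ⟨i, subset_rfl⟩
  | succ a ih =>
    obtain ⟨j', hj'⟩ := ih (par i)
    exact ⟨j', (cube_subset_par 0 (k + a) i).trans hj'⟩

/-- the total volume of the sub-cubes which are not sparse -/
theorem step_N (d : ℕ) {η : ℝ≥0∞} (hη : η ≠ 0) (hη' : η ≠ ⊤) : ∃ a : ℕ, 3 ≤ a ∧
    ∀ (ν : Measure (X d)) [IsFiniteMeasure ν] (θ : ℝ≥0∞) (k : ℕ) (j : Idx d), InCl ν θ k j →
    ∑' i' : {i : Idx d | Sub a j i ∧ ¬ Sparse ν (c0 d * θ) a η k i},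
      volume (cube (0 : X d) (k + a) (i' : Idx d)) ≤
      ENNReal.ofReal (sd k ^ (d + 1) / 2 ^ (d + 5)) := by
  classical
  obtain ⟨C, hC⟩ := abund d
  have hηr : 0 < η.toReal := ENNReal.toReal_pos hη hη'
  obtain ⟨n, hn⟩ := exists_pow_lt_of_lt_one (y := (1 / 2 : ℝ))
    (show 0 < η.toReal / 2 ^ (d + 5) / ((C : ℝ) + 1) by positivity) (by norm_num)
  refine ⟨max 3 n, le_max_left _ _, ?_⟩
  intro ν _ θ k j hcl
  have h1 := hC ν θ (max 3 n) (le_max_left _ _) η k j hcl
  set a := max 3 n with ha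
  have hsa : sd a ≤ η.toReal / 2 ^ (d + 5) / ((C : ℝ) + 1) := by
    calc sd a ≤ sd n := sd_anti (le_max_right _ _)
      _ ≤ _ := hn.le
  have hsa0 : 0 < sd a := sd_pos a
  have hCs : (C : ℝ) * sd a ≤ η.toReal / 2 ^ (d + 5) := by
    have h2 : ((C : ℝ) + 1) * sd a ≤ η.toReal / 2 ^ (d + 5) := by
      rw [mul_comm]
      exact (le_div_iff₀ (by positivity)).mp hsa
    nlinarith
  have e1 : ∑' i' : {i : Idx d | Sub a j i ∧ ¬ Sparse ν (c0 d * θ) a η k i},
      volume (cube (0 : X d) (k + a) (i' : Idx d)) =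
      ∑' i : Idx d, (if Sub a j i ∧ ¬ Sparse ν (c0 d * θ) a η k i
      then ENNReal.ofReal (sd (k + a) ^ (d + 1)) else 0) := by
    rw [tsum_subtype {i : Idx d | Sub a j i ∧ ¬ Sparse ν (c0 d * θ) a η k i}
      (fun i => volume (cube (0 : X d) (k + a) i))]
    apply tsum_congr
    intro i
    by_cases h : Sub a j i ∧ ¬ Sparse ν (c0 d * θ) a η k i
    · rw [indicator_of_mem (show i ∈ {i : Idx d | Sub a j i ∧ ¬ Sparse ν (c0 d * θ) a η k i} from h),
        if_pos h, volume_cube]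
    · rw [indicator_of_notMem (show i ∉ {i : Idx d | Sub a j i ∧ ¬ Sparse ν (c0 d * θ) a η k i} from h),
        if_neg h]
  rw [e1]
  have hsk : 0 < sd k := sd_pos k
  have h3 : η * ∑' i : Idx d, (if Sub a j i ∧ ¬ Sparse ν (c0 d * θ) a η k i
      then ENNReal.ofReal (sd (k + a) ^ (d + 1)) else 0) ≤
      η * ENNReal.ofReal (sd k ^ (d + 1) / 2 ^ (d + 5)) := by
    refine h1.trans ?_
    have e2 : (C : ℝ≥0∞) = ENNReal.ofReal (C : ℝ) := ENNReal.ofReal_coe_nnreal.symm
    have e3 : η * ENNReal.ofReal (sd k ^ (d + 1) / 2 ^ (d + 5)) =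
        ENNReal.ofReal (η.toReal * (sd k ^ (d + 1) / 2 ^ (d + 5))) := by
      rw [ENNReal.ofReal_mul hηr.le, ENNReal.ofReal_toReal hη']
    rw [e3, e2, ← ENNReal.ofReal_mul (by positivity)]
    apply ENNReal.ofReal_le_ofReal
    have h4 : (C : ℝ) * sd a * sd k ^ (d + 1) ≤ η.toReal / 2 ^ (d + 5) * sd k ^ (d + 1) :=
      mul_le_mul_of_nonneg_right hCs (by positivity)
    calc (C : ℝ) * (sd a * sd k ^ (d + 1)) = (C : ℝ) * sd a * sd k ^ (d + 1) := by ring
      _ ≤ η.toReal / 2 ^ (d + 5) * sd k ^ (d + 1) := h4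
      _ = η.toReal * (sd k ^ (d + 1) / 2 ^ (d + 5)) := by ring
  exact (ENNReal.mul_le_mul_iff_right hη hη').mp h3

/-- removing the bad points from the good pairs -/
theorem step_meas {b b' B1 B2 : Set (X d)} {G G' : Set (X d × X d)} {κ : ℝ} (hκ : 0 < κ)
    (hb : volume b ≠ ⊤) (hb' : volume b' ≠ ⊤)
    (hG : ENNReal.ofReal κ * (volume b * volume b') ≤ (volume.prod volume) G)
    (h1 : volume B1 ≤ ENNReal.ofReal (κ / 8) * volume b)
    (h2 : volume B2 ≤ ENNReal.ofReal (κ / 8) * volume b')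
    (hs : G ⊆ G' ∪ (B1 ×ˢ b' ∪ b ×ˢ B2)) :
    ENNReal.ofReal (κ / 2) * (volume b * volume b') ≤ (volume.prod volume) G' := by
  set B := volume b * volume b' with hB
  have hBt : B ≠ ⊤ := ENNReal.mul_ne_top hb hb'
  have h3 : (volume.prod volume) (B1 ×ˢ b') ≤ ENNReal.ofReal (κ / 8) * B := by
    rw [Measure.prod_prod, hB, ← mul_assoc]
    exact mul_le_mul_left h1 _
  have h4 : (volume.prod volume) (b ×ˢ B2) ≤ ENNReal.ofReal (κ / 8) * B := by
    rw [Measure.prod_prod, hB]
    calc volume b * volume B2 ≤ volume b * (ENNReal.ofReal (κ / 8) * volume b') :=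
          mul_le_mul_right h2 _
      _ = ENNReal.ofReal (κ / 8) * (volume b * volume b') := by ring
  have h5 : ENNReal.ofReal κ * B ≤ (volume.prod volume) G' +
      (ENNReal.ofReal (κ / 8) * B + ENNReal.ofReal (κ / 8) * B) := by
    refine hG.trans ((measure_mono hs).trans ((measure_union_le _ _).trans ?_))
    gcongr
    exact (measure_union_le _ _).trans (add_le_add h3 h4)
  have h6 : ENNReal.ofReal (κ / 2) * B + (ENNReal.ofReal (κ / 8) * B + ENNReal.ofReal (κ / 8) * B) ≤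
      ENNReal.ofReal κ * B := by
    rw [← add_mul, ← add_mul, ← ENNReal.ofReal_add (by positivity) (by positivity),
      ← ENNReal.ofReal_add (by positivity) (by positivity)]
    apply mul_le_mul_left
    apply ENNReal.ofReal_le_ofReal
    linarith
  have h7 : ENNReal.ofReal (κ / 8) * B + ENNReal.ofReal (κ / 8) * B ≠ ⊤ := by
    apply ENNReal.add_ne_top.mpr
    exact ⟨ENNReal.mul_ne_top ENNReal.ofReal_ne_top hBt, ENNReal.mul_ne_top ENNReal.ofReal_ne_top hBt⟩
  exact (ENNReal.add_le_add_iff_right h7).mp (h6.trans h5)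

theorem step_fine {a k : ℕ} {j i : Idx d} (hs : Sub a j i) {w : X d}
    (hw : w ∈ cube 0 (k + 1 + a) i) (c : Fin (d + 1)) :
    ((par j c : ℤ) - 1) * sd k ≤ w c ∧ w c < ((par j c : ℤ) + 2) * sd k := by
  have h1 := cube_subset_of_Sub hs hw c
  have hsd : 0 < sd (k + 1) := sd_pos _
  have hk : sd k = 2 * sd (k + 1) := by rw [sd_succ]; ring
  have h4 : 2 * (par j c) ≤ j c ∧ j c ≤ 2 * (par j c) + 1 := by
    simp only [par]
    omega
  have h5 : (2 : ℝ) * (par j c : ℤ) ≤ j c := by exact_mod_cast h4.1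
  have h6 : (j c : ℝ) ≤ 2 * (par j c : ℤ) + 1 := by exact_mod_cast h4.2
  rw [hk]
  constructor
  · nlinarith [h1.1]
  · nlinarith [h1.2]

omit [FiniteDimensional ℝ V] in
/-- the pointwise estimate -/
theorem step_point (S : Slicing d V) {u : X d → V} {p p' : X d → V} (hp : p ∈ S.R)
    {w w' : X d} {T T' q L : ℝ} (hT : 0 ≤ T) (hT' : 0 ≤ T') (h1 : ‖u w - p w‖ ≤ T)
    (h2 : ‖u w' - p' w'‖ ≤ T') (hL : 0 ≤ L)
    (hz : ‖w' - w‖ ≤ 4 * L) (β : Fin S.N)
    (h3 : |S.e β (w' - w) (u w' - u w)| ≤ S.C0 * q * L ^ S.deg) :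
    |S.e β (w' - w) (p w' - p' w')| ≤ (|S.CE| * 4 ^ S.deg * (T + T') + S.C0 * q) * L ^ S.deg := by
  have hR := S.R_inv p hp β w (w' - w)
  rw [add_sub_cancel] at hR
  have e1 : p w' - p' w' = (p w' - p w) + (u w' - p' w') - (u w' - u w) - (u w - p w) := by abel
  rw [e1, map_sub, map_sub, map_add, hR, zero_add]
  have hpow : ‖w' - w‖ ^ S.deg ≤ 4 ^ S.deg * L ^ S.deg := by
    rw [← mul_pow]
    exact pow_le_pow_left₀ (norm_nonneg _) hz _
  have hb : ∀ (v : V) (t : ℝ), 0 ≤ t → ‖v‖ ≤ t → |S.e β (w' - w) v| ≤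
      |S.CE| * (4 ^ S.deg * L ^ S.deg) * t := by
    intro v t ht hv
    refine (S.e_bound β (w' - w) v).trans ?_
    calc S.CE * ‖w' - w‖ ^ S.deg * ‖v‖ ≤ |S.CE| * ‖w' - w‖ ^ S.deg * ‖v‖ := by
          gcongr
          exact le_abs_self _
      _ ≤ |S.CE| * (4 ^ S.deg * L ^ S.deg) * t := by
          gcongr
  have a1 := hb _ T hT h1
  have a2 := hb _ T' hT' h2
  have a3 : |S.e β (w' - w) (u w' - p' w') - S.e β (w' - w) (u w' - u w) -
      S.e β (w' - w) (u w - p w)| ≤ |S.e β (w' - w) (u w' - p' w')| +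
        |S.e β (w' - w) (u w' - u w)| + |S.e β (w' - w) (u w - p w)| := by
    refine (abs_sub _ _).trans ?_
    gcongr
    exact abs_sub _ _
  refine a3.trans ?_
  calc |S.e β (w' - w) (u w' - p' w')| + |S.e β (w' - w) (u w' - u w)| +
        |S.e β (w' - w) (u w - p w)|
      ≤ |S.CE| * (4 ^ S.deg * L ^ S.deg) * T' + S.C0 * q * L ^ S.deg +
        |S.CE| * (4 ^ S.deg * L ^ S.deg) * T := by gcongr
    _ = (|S.CE| * 4 ^ S.deg * (T + T') + S.C0 * q) * L ^ S.deg := by ring

/-- the constants used in the chain: `a`, `η`, `ς` -/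
theorem step (S : Slicing d V) : ∃ (a : ℕ) (η ς : ℝ≥0∞) (C : ℝ), 3 ≤ a ∧ η ≤ 1 / 4 ∧ ς ≠ 0 ∧
    ς ≤ 1 / 8 ∧ 0 < C ∧
    -- one step
    (∀ {u : X d → V} {h : X d → ℝ≥0∞} {U : Set (X d)}, SStrain S u h U →
      ∀ (ν : Measure (X d)) [IsFiniteMeasure ν] (θ : ℝ≥0∞) (k : ℕ) (j i : Idx d),
      big 3 0 k (par j) ⊆ U → InCl ν θ k (par j) → Sub a j i →
      ∀ (p : X d → V) (T q F : ℝ), 0 ≤ T → SFits S u (cube 0 (k + 1 + a) i) p T ς →
      qc h a (k + 1) i < ENNReal.ofReal q → 0 < F →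
      Floc (volume.withDensity h) ν (c0 d * θ) a k (par j) ≤ ENNReal.ofReal F →
      ∃ (i' : Idx d) (p' : X d → V), Sub a (par j) i' ∧ Sparse ν (c0 d * θ) a η k i' ∧
        SFits S u (cube 0 (k + a) i') p' (C * F) ς ∧
        ∀ x ∈ big 3 0 k (par j), ‖p x - p' x‖ ≤ C * (T + q + F)) ∧
    -- start
    (∀ (ν : Measure (X d)) [IsFiniteMeasure ν] (θ : ℝ≥0∞) (k : ℕ) (j : Idx d), InCl ν θ k j →
      ∃ i : Idx d, Sub a j i ∧ cube (0 : X d) (k + a) i ⊆ cube 0 k j ∧
        Sparse ν (c0 d * θ) a η k i) := by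
  classical
  set κ : ℝ := 1 / (16 * 6 ^ (d + 1)) with hκ
  have hκ0 : 0 < κ := by positivity
  have hκ1 : κ ≤ 1 := by
    rw [hκ, div_le_one (by positivity)]
    have : (1 : ℝ) ≤ 6 ^ (d + 1) := one_le_pow₀ (by norm_num)
    linarith
  have hκE : (16 * 6 ^ (d + 1) : ℝ≥0∞)⁻¹ = ENNReal.ofReal κ := by
    rw [hκ, one_div, ENNReal.ofReal_inv_of_pos (by positivity), ENNReal.ofReal_mul (by norm_num),
      ENNReal.ofReal_pow (by norm_num)]
    norm_num
  set ς : ℝ≥0∞ := ENNReal.ofReal (κ / 8) with hςdef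
  have hς : ς ≠ 0 := (ENNReal.ofReal_pos.mpr (by positivity)).ne'
  have hς8 : ς ≤ 1 / 8 := by
    have : (1 / 8 : ℝ≥0∞) = ENNReal.ofReal (1 / 8) := by
      rw [ENNReal.ofReal_div_of_pos (by norm_num)]
      norm_num
    rw [this]
    apply ENNReal.ofReal_le_ofReal
    linarith
  obtain ⟨η, hη, hη4, hfit⟩ := fit_sparse S hς
  have hηt : η ≠ ⊤ := ne_top_of_le_ne_top (by norm_num) hη4
  obtain ⟨a, ha3, haN⟩ := step_N d hη hηt
  obtain ⟨K, hK, hfitK⟩ := hfit a ha3
  obtain ⟨Ct, hCt, htr⟩ := S.tr (κ / 2) (2 ^ (a + 4)) (by positivity)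
  set M : ℝ := (|S.CE| * 4 ^ S.deg * (1 + K) + S.C0) * (2 ^ (a + 1)) ^ S.deg with hM
  have hM0 : 0 ≤ M := by
    have := S.C0_pos
    positivity
  refine ⟨a, η, ς, K + Ct * M + 1, ha3, hη4, hς, hς8, by positivity, ?_, ?_⟩
  · intro u h U hsp ν _ θ k j i hU hcl hs p T q F hT hpf hq hF hFl
    have hq0 : 0 < q := ENNReal.ofReal_pos.mp (lt_of_le_of_lt zero_le hq)
    obtain ⟨i', hi'N, hi's, hpair⟩ := pairs S hsp a k j i hU hs hq
      {i' : Idx d | Sub a (par j) i' ∧ ¬ Sparse ν (c0 d * θ) a η k i'} (haN ν θ k (par j) hcl)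
    have hsparse : Sparse ν (c0 d * θ) a η k i' := by
      by_contra hns
      exact hi'N ⟨hi's, hns⟩
    obtain ⟨p', hp'⟩ := hfitK hsp ν (c0 d * θ) k (par j) i' hU hi's hsparse F hF hFl
    have hKC : K * F ≤ (K + Ct * M + 1) * F := by
      apply mul_le_mul_of_nonneg_right _ hF.le
      have : 0 ≤ Ct * M := by positivity
      linarith
    refine ⟨i', p', hi's, hsparse, ⟨hp'.1, ?_⟩, ?_⟩
    · refine le_trans (measure_mono ?_) hp'.2
      intro x hx
      exact ⟨hx.1, lt_of_le_of_lt hKC hx.2⟩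
    · intro x hx
      set b := cube (0 : X d) (k + 1 + a) i with hb
      set b' := cube (0 : X d) (k + a) i' with hb'
      set l := sd (k + 1 + a) with hl
      have hl0 : 0 < l := sd_pos _
      have hsk0 : 0 < sd k := sd_pos k
      have hll : sd (k + a) = 2 * l := by
        rw [hl, sd_add, sd_add, sd_succ]; ring
      have hskl : sd k = 2 ^ (a + 1) * l := by
        have h2a : (2 : ℝ) ^ a * sd a = 1 := two_pow_mul_sd a
        rw [hl, sd_add, sd_succ, pow_succ]
        linear_combination (-sd k) * h2a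
      set c : X d := fun r => (0 : X d) r + i r * sd (k + 1 + a) with hc
      set c' : X d := fun r => (0 : X d) r + i' r * sd (k + a) with hc'
      have hbx : b = bx c l := cube_eq_bx _ _ _
      have hbx' : b' = bx c' (2 * l) := by
        rw [← hll]; exact cube_eq_bx _ _ _
      have hcb : c ∈ b := by
        rw [hbx]
        intro r
        exact ⟨le_rfl, by linarith⟩
      have hcb' : c' ∈ b' := by
        rw [hbx']
        intro r
        exact ⟨le_rfl, by linarith⟩
      -- distances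
      have hdist : ∀ w ∈ b, ∀ w' ∈ b', ‖w' - w‖ ≤ 4 * sd k := by
        intro w hw w' hw'
        rw [pi_norm_le_iff_of_nonneg (by positivity)]
        intro r
        have h1 := step_fine hs hw r
        have h2 := cube_subset_of_Sub hi's hw' r
        rw [Pi.sub_apply, Real.norm_eq_abs, abs_le]
        constructor
        · nlinarith [h1.1, h1.2, h2.1, h2.2]
        · nlinarith [h1.1, h1.2, h2.1, h2.2]
      have hρl : (2 : ℝ) ^ (a + 4) * l = 8 * sd k := by
        rw [hskl, show a + 4 = a + 1 + 3 by ring, pow_add]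
        ring
      have hcc : ‖c - c'‖ ≤ 2 ^ (a + 4) * l := by
        rw [hρl, ← norm_neg, neg_sub]
        have := hdist c hcb c' hcb'
        linarith
      have hxc : ‖x - c‖ ≤ 2 ^ (a + 4) * l := by
        rw [hρl, pi_norm_le_iff_of_nonneg (by positivity)]
        intro r
        have h1 := step_fine hs hcb r
        have h2 := hx r
        simp only [Pi.zero_apply, zero_add] at h2
        rw [Pi.sub_apply, Real.norm_eq_abs, abs_le]
        constructor
        · nlinarith [h1.1, h1.2, h2.1, h2.2]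
        · nlinarith [h1.1, h1.2, h2.1, h2.2]
      set T' : ℝ := (|S.CE| * 4 ^ S.deg * (T + K * F) + S.C0 * q) * (2 ^ (a + 1)) ^ S.deg with hT'
      have hmeas : ENNReal.ofReal (κ / 2) * (volume (bx c l) * volume (bx c' (2 * l))) ≤
          (volume.prod volume) {P : X d × X d | P.1 ∈ bx c l ∧ P.2 ∈ bx c' (2 * l) ∧
            ∀ β, |S.e β (P.2 - P.1) ((fun y => p y - p' y) P.2)| ≤ T' * l ^ S.deg} := by
        rw [← hbx, ← hbx']
        refine step_meas (b := b) (b' := b') (B1 := {x ∈ b | T < ‖u x - p x‖})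
          (B2 := {x ∈ b' | K * F < ‖u x - p' x‖}) hκ0 ?_ ?_ (hκE ▸ hpair) hpf.2 hp'.2 ?_
        · rw [hb, volume_cube]; exact ENNReal.ofReal_ne_top
        · rw [hb', volume_cube]; exact ENNReal.ofReal_ne_top
        · intro P hP
          obtain ⟨hP1, hP2, hP3⟩ := hP
          by_cases hg1 : T < ‖u P.1 - p P.1‖
          · exact Or.inr (Or.inl ⟨⟨hP1, hg1⟩, hP2⟩)
          by_cases hg2 : K * F < ‖u P.2 - p' P.2‖
          · exact Or.inr (Or.inr ⟨hP1, ⟨hP2, hg2⟩⟩)
          left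
          refine ⟨hP1, hP2, ?_⟩
          intro β
          have h4 := step_point S hpf.1 hT (by positivity) (not_lt.mp hg1) (not_lt.mp hg2) hsk0.le
            (hdist _ hP1 _ hP2) β (hP3 β)
          refine h4.trans (le_of_eq ?_)
          rw [hT', hskl, mul_pow]
          ring
      have hfin := htr c c' l (2 * l) hl0 (by linarith) le_rfl hcc (fun y => p y - p' y)
        (S.R_sub p hpf.1 p' hp'.1) T' hmeas x hxc
      refine hfin.trans ?_
      have hT'M : T' ≤ M * (T + q + F) := by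
        rw [hT', hM]
        have hP0 : (0 : ℝ) ≤ (2 ^ (a + 1)) ^ S.deg := by positivity
        have hCE : 0 ≤ |S.CE| * 4 ^ S.deg := by positivity
        have hC0 := S.C0_pos
        have h5 : |S.CE| * 4 ^ S.deg * (T + K * F) + S.C0 * q ≤
            (|S.CE| * 4 ^ S.deg * (1 + K) + S.C0) * (T + q + F) := by
          have h6 : T + K * F ≤ (1 + K) * (T + q + F) := by
            nlinarith [mul_nonneg hK.le hT, mul_pos hK hq0, mul_pos hK hF]
          have h7 := mul_le_mul_of_nonneg_left h6 hCE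
          have h8 : S.C0 * q ≤ S.C0 * (T + q + F) :=
            mul_le_mul_of_nonneg_left (by linarith) hC0.le
          calc |S.CE| * 4 ^ S.deg * (T + K * F) + S.C0 * q
              ≤ |S.CE| * 4 ^ S.deg * ((1 + K) * (T + q + F)) + S.C0 * (T + q + F) :=
                add_le_add h7 h8
            _ = (|S.CE| * 4 ^ S.deg * (1 + K) + S.C0) * (T + q + F) := by ring
        calc (|S.CE| * 4 ^ S.deg * (T + K * F) + S.C0 * q) * (2 ^ (a + 1)) ^ S.deg
            ≤ (|S.CE| * 4 ^ S.deg * (1 + K) + S.C0) * (T + q + F) * (2 ^ (a + 1)) ^ S.deg :=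
              mul_le_mul_of_nonneg_right h5 hP0
          _ = (|S.CE| * 4 ^ S.deg * (1 + K) + S.C0) * (2 ^ (a + 1)) ^ S.deg * (T + q + F) := by
              ring
      have hsum : 0 ≤ T + q + F := by linarith
      calc Ct * T' ≤ Ct * (M * (T + q + F)) := mul_le_mul_of_nonneg_left hT'M hCt.le
        _ = Ct * M * (T + q + F) := by ring
        _ ≤ (K + Ct * M + 1) * (T + q + F) :=
            mul_le_mul_of_nonneg_right (by linarith) hsum
  · intro ν _ θ k j hcl
    by_contra hcon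
    push Not at hcon
    have h1 : cube (0 : X d) k j ⊆ ⋃ i' : {i : Idx d | Sub a j i ∧ ¬ Sparse ν (c0 d * θ) a η k i},
        cube (0 : X d) (k + a) (i' : Idx d) := by
      intro x hx
      have hsub : Sub a j (idx 0 (k + a) x) := by
        apply exists_Sub
        intro c
        have := hx c
        simp only [Pi.zero_apply, zero_add] at this
        have hsk : 0 < sd k := sd_pos k
        constructor
        · nlinarith [this.1]
        · nlinarith [this.2]
      have hmem : x ∈ cube 0 (k + a) (idx 0 (k + a) x) := mem_cube_idx _ _ _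
      have hcs : cube 0 (k + a) (idx 0 (k + a) x) ⊆ cube 0 k j := by
        obtain ⟨j', hj'⟩ := step_nest a k (idx 0 (k + a) x)
        have hxj' := hj' hmem
        have e1 := (mem_cube_iff _ _ _ _).mp hxj'
        have e2 := (mem_cube_iff _ _ _ _).mp hx
        rw [e1] at e2
        rw [← e2]
        exact hj'
      rw [mem_iUnion]
      exact ⟨⟨idx 0 (k + a) x, hsub, hcon _ hsub hcs⟩, hmem⟩
    have h2 : volume (cube (0 : X d) k j) ≤ ENNReal.ofReal (sd k ^ (d + 1) / 2 ^ (d + 5)) :=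
      ((measure_mono h1).trans (measure_iUnion_le _)).trans (haN ν θ k j hcl)
    rw [volume_cube] at h2
    have hsk : 0 < sd k ^ (d + 1) := pow_pos (sd_pos k) _
    have h3 := (ENNReal.ofReal_le_ofReal_iff (by positivity)).mp h2
    have h4 : sd k ^ (d + 1) / 2 ^ (d + 5) < sd k ^ (d + 1) := by
      apply div_lt_self hsk
      exact one_lt_pow₀ (by norm_num) (by omega)
    linarith

end BDJ
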