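import Pool.Agent.BDJ.Grid

/-!
# The one-third trick (row THIRD)

`big 4 0 k j` is an open box of side `9 ρ`, `ρ = 2^(-k)`; the level `k - 5` has side `32 ρ`. Work in each coordinate: put
`N = 2^(k-5)`, `A = N a`, `B = N b` for the end points `a < b` of the interval of the coordinate, `B - A = 9/32 < 1/3`.
If no integer `M` satisfies `A < M < B` (more precisely: if the open interval `(A,B)` lies in one interval `[M, M+1)`) choose the shift `0`.
Otherwise the shift `1/3` works: if also `(A - N/3, B - N/3)` were not inside one `[M', M'+1)` there would be integers `M`, `M'` with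
`|M - M' - N/3| < 1/3`, so `|3 (M - M') - N| < 1`, `3 (M - M') = N = 2^(k-5)`, impossible since `3` does not divide a power of two.
-/

open MeasureTheory Set
open scoped ENNReal

namespace BDJ

variable {d : ℕ}

theorem third_pow_mod (m : ℕ) : 2 ^ m % 3 ≠ 0 := by
  intro h
  have h1 : 3 ∣ 2 ^ m := Nat.dvd_of_mod_eq_zero h
  have h2 : 3 ∣ 2 := Nat.Prime.dvd_of_dvd_pow Nat.prime_three h1
  omega

/-- one coordinate -/
theorem third_coord (m : ℕ) (j : ℤ) : ∃ t : ℝ, (t = 0 ∨ t = 1 / 3) ∧ ∃ J : ℤ,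
    t + J * sd m ≤ (j - 4) * sd (m + 5) ∧ (j + 1 + 4) * sd (m + 5) ≤ t + (J + 1) * sd m := by
  have hs : 0 < sd m := sd_pos m
  have h5 : sd (m + 5) = sd m / 32 := by
    unfold sd
    rw [pow_add]
    norm_num
    ring
  obtain ⟨q, hq⟩ : ∃ q, q = (j - 4) / 32 := ⟨_, rfl⟩
  obtain ⟨r, hr⟩ : ∃ r, r = (j - 4) % 32 := ⟨_, rfl⟩
  have hqr : j - 4 = 32 * q + r := by omega
  have hr0 : 0 ≤ r := by omega
  have hr1 : r ≤ 31 := by omega
  rw [h5]
  by_cases hr2 : r ≤ 23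
  · refine ⟨0, Or.inl rfl, q, ?_, ?_⟩
    · have e1 : (32 : ℝ) * q ≤ j - 4 := by
        have : 32 * q ≤ j - 4 := by omega
        exact_mod_cast this
      have e2 : (q : ℝ) ≤ (j - 4) / 32 := by linarith
      calc (0 : ℝ) + q * sd m = q * sd m := by ring
        _ ≤ (j - 4) / 32 * sd m := mul_le_mul_of_nonneg_right e2 hs.le
        _ = (j - 4) * (sd m / 32) := by ring
    · have e1 : (j : ℝ) + 1 + 4 ≤ 32 * (q + 1) := by
        have : j + 1 + 4 ≤ 32 * (q + 1) := by omega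
        exact_mod_cast this
      have e2 : ((j : ℝ) + 1 + 4) / 32 ≤ q + 1 := by linarith
      calc ((j : ℝ) + 1 + 4) * (sd m / 32) = (j + 1 + 4) / 32 * sd m := by ring
        _ ≤ (q + 1) * sd m := mul_le_mul_of_nonneg_right e2 hs.le
        _ = 0 + (q + 1) * sd m := by ring
  · obtain ⟨N, hN⟩ : ∃ N : ℕ, N = 2 ^ m := ⟨_, rfl⟩
    have hN3 : N % 3 ≠ 0 := by rw [hN]; exact third_pow_mod m
    have hNs : (N : ℝ) * sd m = 1 := by
      rw [hN]; push_cast; exact two_pow_mul_sd m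
    obtain ⟨n, hn⟩ : ∃ n : ℤ, n = (N : ℤ) / 3 := ⟨_, rfl⟩
    have hN4 : (N : ℤ) = 3 * n + 1 ∨ (N : ℤ) = 3 * n + 2 := by omega
    refine ⟨1 / 3, Or.inr rfl, q - n, ?_, ?_⟩
    · have e1 : (32 : ℝ) * N + 96 * ((q - n : ℤ) : ℝ) ≤ 3 * (j - 4) := by
        have : 32 * (N : ℤ) + 96 * (q - n) ≤ 3 * (j - 4) := by omega
        exact_mod_cast this
      have e2 : (N : ℝ) / 3 + ((q - n : ℤ) : ℝ) ≤ (j - 4) / 32 := by linarith
      calc (1 : ℝ) / 3 + ((q - n : ℤ) : ℝ) * sd m = (N / 3 + ((q - n : ℤ) : ℝ)) * sd m := by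
            rw [← hNs]; ring
        _ ≤ (j - 4) / 32 * sd m := mul_le_mul_of_nonneg_right e2 hs.le
        _ = (j - 4) * (sd m / 32) := by ring
    · have e1 : 3 * ((j : ℝ) + 1 + 4) ≤ 32 * N + 96 * ((q - n : ℤ) : ℝ) + 96 := by
        have : 3 * (j + 1 + 4) ≤ 32 * (N : ℤ) + 96 * (q - n) + 96 := by omega
        exact_mod_cast this
      have e2 : ((j : ℝ) + 1 + 4) / 32 ≤ N / 3 + ((q - n : ℤ) : ℝ) + 1 := by linarith
      calc ((j : ℝ) + 1 + 4) * (sd m / 32) = (j + 1 + 4) / 32 * sd m := by ring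
        _ ≤ (N / 3 + ((q - n : ℤ) : ℝ) + 1) * sd m := mul_le_mul_of_nonneg_right e2 hs.le
        _ = 1 / 3 * (N * sd m) + (((q - n : ℤ) : ℝ) + 1) * sd m := by ring
        _ = 1 / 3 + (((q - n : ℤ) : ℝ) + 1) * sd m := by rw [hNs]; ring

theorem exists_shift (k : ℕ) (hk : 5 ≤ k) (j : Idx d) :
    ∃ τ ∈ shifts d, ∃ J : Idx d, big 4 0 k j ⊆ cube τ (k - 5) J := by
  obtain ⟨m, rfl⟩ : ∃ m, k = m + 5 := ⟨k - 5, by omega⟩
  have h := fun c : Fin (d + 1) => third_coord m (j c)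
  choose t ht J hJ1 hJ2 using h
  refine ⟨t, ?_, J, ?_⟩
  · unfold shifts
    rw [Fintype.mem_piFinset]
    intro c
    rw [Finset.mem_insert, Finset.mem_singleton]
    exact ht c
  · intro x hx c
    have hxc := hx c
    rw [show m + 5 - 5 = m by omega]
    simp only [Pi.zero_apply, zero_add] at hxc
    refine ⟨?_, ?_⟩
    · exact (hJ1 c).trans hxc.1.le
    · exact lt_of_lt_of_le hxc.2 (hJ2 c)

end BDJ
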